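import Pool.Agent.BGG.LawA
import Pool.Agent.BGE.Dyn

/-!
BGG / G0b. The normalised geometric laws.

`geoM_eq`: under `E1` (exponential with rate one), `N = ⌊x / L⌋₊` with `L = -log a > 0` satisfies
`{N = k} = [k L, (k+1) L)` for `k ≥ 1` and `{N = 0} = (-∞, L)`; its probability is
`e^{-kL} - e^{-(k+1)L} = (1 - a) a^k` (`BGE.dyn_Iio`, `BGE.dyn_Ici` in `BGE/Dyn.lean` give `E1` of half
lines). Hence the law of `gs * N + gd`.
`geo_mgf`: by `geoM_eq` and the geometric series,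
`∫ exp (θ x) = ∑ (1-a) a^k exp (θ (gs k + gd)) = exp (θ gd) (1-a)/(1 - a exp (θ gs))`.
`geo_low`: `P(x ≤ y) ≤ (1 - a) (y/gs + 1)` (at most `y/gs + 1` atoms of mass `≤ 1 - a`);
`bE_low`: `one_sub_gap_le`; `KG_low`: `gap_quot`. `gqm_le`: `gqm q x = gs ⌊x/r⌋ + gd`, `r = -log q`.
-/

namespace BGG

open MeasureTheory ProbabilityTheory BGE

variable [GeoPar]

theorem bE_one : bE 1 = EG := by
  unfold bE EG
  rw [gap_one]

omit [GeoPar] in
theorem hs_congr {f g : ℕ → ℝ} {a : ℝ} (hf : HasSum f a) (h : ∀ k, f k = g k) : HasSum g a := by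
  have : f = g := funext h
  rwa [← this]

omit [GeoPar] in
private theorem expk {a : ℝ} (h0 : 0 < a) (k : ℕ) :
    Real.exp (-((k : ℝ) * (-Real.log a))) = a ^ k := by
  rw [← Real.exp_log (pow_pos h0 k), Real.log_pow]
  congr 1
  ring

omit [GeoPar] in
private theorem floor_lt {L : ℝ} (hL : 0 < L) (k : ℕ) :
    {x : ℝ | ⌊x / L⌋₊ < k + 1} = Set.Iio (((k + 1 : ℕ) : ℝ) * L) := by
  ext x
  rw [Set.mem_ofPred_eq, Set.mem_Iio, Nat.floor_lt' (Nat.succ_ne_zero k), div_lt_iff₀ hL]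

omit [GeoPar] in
private theorem floor_law {a : ℝ} (h0 : 0 < a) (h1 : a < 1) (k : ℕ) :
    E1 {x : ℝ | ⌊x / (-Real.log a)⌋₊ < k + 1} = ENNReal.ofReal (1 - a ^ (k + 1)) := by
  have hL : 0 < -Real.log a := neg_pos.2 (Real.log_neg h0 h1)
  rw [floor_lt hL, dyn_Iio (by positivity), expk h0]

omit [GeoPar] in
private theorem floor_law' {a : ℝ} (h0 : 0 < a) (h1 : a < 1) (k : ℕ) :
    E1 ((fun x : ℝ => ⌊x / (-Real.log a)⌋₊) ⁻¹' {k}) = ENNReal.ofReal ((1 - a) * a ^ k) := by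
  have hL : 0 < -Real.log a := neg_pos.2 (Real.log_neg h0 h1)
  cases k with
  | zero =>
    have h2 : (fun x : ℝ => ⌊x / (-Real.log a)⌋₊) ⁻¹' {0} =
        {x : ℝ | ⌊x / (-Real.log a)⌋₊ < 0 + 1} := by
      ext x
      rw [Set.mem_preimage, Set.mem_singleton_iff, Set.mem_ofPred_eq, zero_add, Nat.lt_one_iff]
    rw [h2, floor_law h0 h1]
    simp
  | succ k =>
    have h2 : (fun x : ℝ => ⌊x / (-Real.log a)⌋₊) ⁻¹' {k + 1} =
        {x : ℝ | ⌊x / (-Real.log a)⌋₊ < (k + 1) + 1} \ {x : ℝ | ⌊x / (-Real.log a)⌋₊ < k + 1} := by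
      ext x
      rw [Set.mem_preimage, Set.mem_singleton_iff, Set.mem_sdiff, Set.mem_ofPred_eq,
        Set.mem_ofPred_eq]
      omega
    have h3 : {x : ℝ | ⌊x / (-Real.log a)⌋₊ < k + 1} ⊆
        {x : ℝ | ⌊x / (-Real.log a)⌋₊ < (k + 1) + 1} := by
      intro x hx
      rw [Set.mem_ofPred_eq] at hx ⊢
      omega
    have h4 : MeasurableSet {x : ℝ | ⌊x / (-Real.log a)⌋₊ < k + 1} := by
      rw [floor_lt hL]
      exact measurableSet_Iio
    have h5 : a ^ (k + 1) ≤ 1 := pow_le_one₀ h0.le h1.le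
    rw [h2, measure_sdiff h3 h4.nullMeasurableSet (measure_ne_top _ _), floor_law h0 h1,
      floor_law h0 h1, ← ENNReal.ofReal_sub _ (by linarith)]
    congr 1
    ring

theorem geoM_eq {a : ℝ} (h0 : 0 < a) (h1 : a < 1) :
    geoM a = Measure.sum (fun k : ℕ => ENNReal.ofReal ((1 - a) * a ^ k) •
      Measure.dirac (gs * k + gd)) := by
  have hf : Measurable (fun x : ℝ => ⌊x / (-Real.log a)⌋₊) :=
    Nat.measurable_floor.comp (measurable_id.div_const _)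
  have hg : Measurable (fun n : ℕ => gs * (n : ℝ) + gd) := measurable_from_nat
  have h2 : geoM a = Measure.map (fun n : ℕ => gs * (n : ℝ) + gd)
      (Measure.map (fun x : ℝ => ⌊x / (-Real.log a)⌋₊) E1) := by
    rw [Measure.map_map hg hf]
    rfl
  rw [h2, ← Measure.sum_smul_dirac (Measure.map (fun x : ℝ => ⌊x / (-Real.log a)⌋₊) E1),
    Measure.map_sum hg.aemeasurable]
  congr 1
  funext k
  rw [Measure.map_smul, Measure.map_dirac' hg, Measure.map_apply hf (measurableSet_singleton k),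
    floor_law' h0 h1]

theorem geo_ae (a : ℝ) : ∀ᵐ x ∂(geoM a), ∃ k : ℕ, x = gs * k + gd := by
  have hs : MeasurableSet {x : ℝ | ∃ k : ℕ, x = gs * k + gd} := by
    have h2 : {x : ℝ | ∃ k : ℕ, x = gs * k + gd} = Set.range (fun k : ℕ => gs * (k : ℝ) + gd) := by
      ext x
      constructor
      · rintro ⟨k, hk⟩
        exact ⟨k, hk.symm⟩
      · rintro ⟨k, hk⟩
        exact ⟨k, hk.symm⟩
    rw [h2]
    exact (Set.countable_range _).measurableSet
  unfold geoM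
  rw [ae_map_iff (measurable_gqm a).aemeasurable hs]
  exact Filter.Eventually.of_forall fun x => ⟨_, rfl⟩

theorem geo_nonneg (a : ℝ) : ∀ᵐ x ∂(geoM a), 0 ≤ x := by
  filter_upwards [geo_ae a] with x hx
  obtain ⟨k, rfl⟩ := hx
  exact add_nonneg (mul_nonneg gs_pos.le (Nat.cast_nonneg _)) gd_pos.le

theorem EG_nonneg : ∀ᵐ x ∂EG, 0 ≤ x := geo_nonneg _

/-- integrals of nonnegative functions -/
theorem geo_lintegral {a : ℝ} (h0 : 0 < a) (h1 : a < 1) {f : ℝ → ENNReal} (hf : Measurable f) :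
    ∫⁻ x, f x ∂(geoM a) = ∑' k : ℕ, ENNReal.ofReal ((1 - a) * a ^ k) * f (gs * k + gd) := by
  rw [geoM_eq h0 h1, lintegral_sum_measure]
  refine tsum_congr fun k => ?_
  rw [lintegral_smul_measure, lintegral_dirac' _ hf, smul_eq_mul]

/-- integrals of functions which are nonnegative on the atoms -/
theorem geo_hasSum {a : ℝ} (h0 : 0 < a) (h1 : a < 1) {f : ℝ → ℝ} (hf : Measurable f)
    (hnn : ∀ k : ℕ, 0 ≤ f (gs * k + gd)) {S : ℝ}
    (h : HasSum (fun k : ℕ => (1 - a) * a ^ k * f (gs * k + gd)) S) :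
    Integrable f (geoM a) ∧ ∫ x, f x ∂(geoM a) = S := by
  have hw : ∀ k : ℕ, 0 ≤ (1 - a) * a ^ k := fun k =>
    mul_nonneg (by linarith) (pow_nonneg h0.le k)
  have hae : 0 ≤ᵐ[geoM a] f := by
    filter_upwards [geo_ae a] with x hx
    obtain ⟨k, rfl⟩ := hx
    exact hnn k
  have hl : ∫⁻ x, ENNReal.ofReal (f x) ∂(geoM a) = ENNReal.ofReal S := by
    rw [geo_lintegral h0 h1 hf.ennreal_ofReal, ← h.tsum_eq,
      ENNReal.ofReal_tsum_of_nonneg (fun k => mul_nonneg (hw k) (hnn k)) h.summable]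
    exact tsum_congr fun k => (ENNReal.ofReal_mul (hw k)).symm
  have hS : 0 ≤ S := h.nonneg fun k => mul_nonneg (hw k) (hnn k)
  refine ⟨⟨hf.aestronglyMeasurable, ?_⟩, ?_⟩
  · rw [hasFiniteIntegral_iff_ofReal hae, hl]
    exact ENNReal.ofReal_lt_top
  · rw [integral_eq_lintegral_of_nonneg_ae hae hf.aestronglyMeasurable, hl,
      ENNReal.toReal_ofReal hS]

private theorem geo_mgf_aux {a θ : ℝ} (h0 : 0 < a) (h1 : a < 1)
    (h : a * Real.exp (gs * θ) < 1) :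
    Integrable (fun x => Real.exp (θ * x)) (geoM a) ∧ ∫ x, Real.exp (θ * x) ∂(geoM a) =
      Real.exp (gd * θ) * (1 - a) / (1 - a * Real.exp (gs * θ)) := by
  refine geo_hasSum h0 h1 (f := fun x => Real.exp (θ * x)) (by fun_prop)
    (fun k => (Real.exp_pos _).le) ?_
  have h2 := (hasSum_geometric_of_lt_one (mul_nonneg h0.le (Real.exp_pos (gs * θ)).le) h).mul_left
    (Real.exp (gd * θ) * (1 - a))
  rw [← div_eq_mul_inv] at h2
  refine hs_congr h2 fun k => ?_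
  have h3 : Real.exp (θ * (gs * k + gd)) = Real.exp (gd * θ) * Real.exp (gs * θ) ^ k := by
    rw [← Real.exp_nat_mul, ← Real.exp_add]
    congr 1
    ring
  rw [h3, mul_pow]
  ring

theorem geo_mgf_int {a θ : ℝ} (h0 : 0 < a) (h1 : a < 1) (h : a * Real.exp (gs * θ) < 1) :
    Integrable (fun x => Real.exp (θ * x)) (geoM a) := (geo_mgf_aux h0 h1 h).1

theorem geo_mgf {a θ : ℝ} (h0 : 0 < a) (h1 : a < 1) (h : a * Real.exp (gs * θ) < 1) :
    ∫ x, Real.exp (θ * x) ∂(geoM a) =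
      Real.exp (gd * θ) * (1 - a) / (1 - a * Real.exp (gs * θ)) := (geo_mgf_aux h0 h1 h).2

/-- small values -/
theorem geo_low {a : ℝ} (h0 : 0 < a) (h1 : a < 1) {y : ℝ} (hy : 0 ≤ y) :
    (geoM a).real (Set.Iic y) ≤ (1 - a) * (y / gs + 1) := by
  have hgs := gs_pos
  set m : ℕ := ⌊y / gs⌋₊ with hm
  have hsub : gqm a ⁻¹' (Set.Iic y) ⊆ {x : ℝ | ⌊x / (-Real.log a)⌋₊ < m + 1} := by
    intro x hx
    rw [Set.mem_preimage, Set.mem_Iic] at hx
    rw [Set.mem_ofPred_eq, Nat.lt_succ_iff, hm]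
    refine Nat.le_floor ?_
    rw [le_div_iff₀ hgs]
    unfold gqm at hx
    have := gd_pos
    linarith [mul_comm gs (⌊x / (-Real.log a)⌋₊ : ℝ)]
  have h2 : (geoM a) (Set.Iic y) ≤ ENNReal.ofReal (1 - a ^ (m + 1)) := by
    unfold geoM
    rw [Measure.map_apply (measurable_gqm a) measurableSet_Iic, ← floor_law h0 h1]
    exact measure_mono hsub
  have h3 : a ^ (m + 1) ≤ 1 := pow_le_one₀ h0.le h1.le
  have h4 : (geoM a).real (Set.Iic y) ≤ 1 - a ^ (m + 1) := by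
    unfold Measure.real
    exact ENNReal.toReal_le_of_le_ofReal (by linarith) h2
  have h5 : 1 + ((m + 1 : ℕ) : ℝ) * (a - 1) ≤ (1 + (a - 1)) ^ (m + 1) :=
    one_add_mul_le_pow (by linarith) _
  have h6 : (1 + (a - 1)) = a := by ring
  rw [h6] at h5
  push_cast at h5
  have h7 : (m : ℝ) ≤ y / gs := Nat.floor_le (div_nonneg hy hgs.le)
  calc (geoM a).real (Set.Iic y) ≤ 1 - a ^ (m + 1) := h4
    _ ≤ (1 - a) * ((m : ℝ) + 1) := by linarith
    _ ≤ (1 - a) * (y / gs + 1) := mul_le_mul_of_nonneg_left (by linarith) (by linarith)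

theorem bE_low {ρ : ℝ} (h0 : 0 < ρ) (h1 : ρ ≤ 1) {y : ℝ} (hy : 0 ≤ y) :
    (bE ρ).real (Set.Iic y) ≤ ρ * (y + gs) := by
  have hgs := gs_pos
  have h3 : 0 ≤ y / gs + 1 := by positivity
  calc (bE ρ).real (Set.Iic y) ≤ (1 - gap ρ) * (y / gs + 1) :=
        geo_low (gap_pos h0.le h1) (gap_lt h0 h1) hy
    _ ≤ (gs * ρ) * (y / gs + 1) := mul_le_mul_of_nonneg_right (one_sub_gap_le h0.le h1) h3
    _ = ρ * (y + gs) := by
      field_simp

theorem KG_low {α β : ℝ} (h0 : 0 < β) (h1 : β < α) (h2 : α ≤ 1) {y : ℝ} (hy : 0 ≤ y) :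
    (KG α β).real (Set.Iic y) ≤ (α - β) * (y + gs) := by
  have hgs := gs_pos
  have h3 : 0 ≤ y / gs + 1 := by positivity
  obtain ⟨h4, h5, h6⟩ := gap_quot h0.le h1 h2
  calc (KG α β).real (Set.Iic y) ≤ (1 - gap α / gap β) * (y / gs + 1) := geo_low h4 h5 hy
    _ ≤ (gs * (α - β)) * (y / gs + 1) := mul_le_mul_of_nonneg_right h6 h3
    _ = (α - β) * (y + gs) := by
      field_simp

/-- the normalised weight is at most a multiple of the exponential noise, plus one -/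
theorem gqm_le : ∃ A : ℝ, 1 ≤ A ∧ ∀ x : ℝ, 0 ≤ x → gqm GeoPar.q x ≤ A * x + 1 := by
  have hL : 0 < -Real.log GeoPar.q := neg_pos.2 (Real.log_neg GeoPar.q_pos GeoPar.q_lt)
  refine ⟨max 1 (gs / (-Real.log GeoPar.q)), le_max_left _ _, fun x hx => ?_⟩
  unfold gqm
  have h1 : (⌊x / (-Real.log GeoPar.q)⌋₊ : ℝ) ≤ x / (-Real.log GeoPar.q) :=
    Nat.floor_le (div_nonneg hx hL.le)
  have h2 : gs * (⌊x / (-Real.log GeoPar.q)⌋₊ : ℝ) ≤ gs * (x / (-Real.log GeoPar.q)) :=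
    mul_le_mul_of_nonneg_left h1 gs_pos.le
  have h3 : gs * (x / (-Real.log GeoPar.q)) = gs / (-Real.log GeoPar.q) * x := by ring
  have h4 : gs / (-Real.log GeoPar.q) * x ≤ max 1 (gs / (-Real.log GeoPar.q)) * x :=
    mul_le_mul_of_nonneg_right (le_max_right _ _) hx
  have := gd_lt
  linarith

theorem gqm_nonneg (a x : ℝ) : 0 ≤ gqm a x :=
  add_nonneg (mul_nonneg gs_pos.le (Nat.cast_nonneg _)) gd_pos.le

end BGG
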