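import Pool.Agent.BGG.LawB

/-!
BGG / G0c. Moments of the normalised geometric laws.

`geo_pow_int`: all powers are integrable (they are dominated by a multiple of `exp (t x)` with a
small `t > 0`, `geo_mgf_int`; or by `geo_lintegral` and summability of `k^n a^k`).
`bE_mean`: with `a = gap ρ`: `gs a/(1-a) + gd = 1/ρ` (mean of a geometric variable: `a/(1-a)`).
`bE_var`: `∫ (x - 1/ρ)² = gs² a/(1-a)² = (1 + gk ρ (1-ρ))/ρ²`.
`bE_sq`: `∫ x² = variance + 1/ρ² ≤ (gK + 1)/ρ²`. `bE_four`: `∫ x⁴ ≤ C/ρ⁴` with `C` depending on `q` only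
(the raw fourth moment of a geometric variable is at most `24/(1-a)⁴`, and
`gs/(1-a) = 1/ρ - 1 + 1/c ≤ 1/(c ρ)`). `EG = bE 1`. (Sums `∑ k^j a^k`: `tsum_coe_mul_geometric_of_norm_lt_one`,
`tsum_choose_mul_geometric_of_norm_lt_one`.)
-/

namespace BGG

open MeasureTheory ProbabilityTheory BGE

variable [GeoPar]

omit [GeoPar] in
private theorem pow_le_exp {θ x : ℝ} (hθ : 0 < θ) (hx : 0 ≤ x) (n : ℕ) :
    x ^ n ≤ (n.factorial / θ ^ n) * Real.exp (θ * x) := by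
  have h1 := Real.pow_div_factorial_le_exp (x := θ * x) (mul_nonneg hθ.le hx) n
  have h2 : (0 : ℝ) < n.factorial := by exact_mod_cast n.factorial_pos
  have h3 : 0 < θ ^ n := pow_pos hθ n
  rw [div_le_iff₀ h2, mul_pow] at h1
  rw [div_mul_eq_mul_div, le_div_iff₀ h3]
  linarith

theorem geo_pow_int {a : ℝ} (h0 : 0 < a) (h1 : a < 1) (n : ℕ) :
    Integrable (fun x => x ^ n) (geoM a) := by
  have hgs := gs_pos
  have hL : 0 < -Real.log a := neg_pos.2 (Real.log_neg h0 h1)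
  set θ : ℝ := (-Real.log a) / (2 * gs) with hθ
  have hθ0 : 0 < θ := div_pos hL (by positivity)
  have h2 : a * Real.exp (gs * θ) < 1 := by
    have h3 : a = Real.exp (Real.log a) := (Real.exp_log h0).symm
    have h4 : gs * θ = (-Real.log a) / 2 := by
      rw [hθ]
      field_simp
    rw [h4]
    calc a * Real.exp ((-Real.log a) / 2)
        = Real.exp (Real.log a) * Real.exp ((-Real.log a) / 2) := by rw [← h3]
      _ = Real.exp (Real.log a / 2) := by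
        rw [← Real.exp_add]
        congr 1
        ring
      _ < 1 := by
        rw [Real.exp_lt_one_iff]
        linarith
  refine Integrable.mono' ((geo_mgf_int h0 h1 h2).const_mul (n.factorial / θ ^ n))
    (by fun_prop) ?_
  filter_upwards [geo_nonneg a] with x hx
  rw [Real.norm_eq_abs, abs_of_nonneg (pow_nonneg hx n)]
  exact pow_le_exp hθ0 hx n

theorem bE_int {ρ : ℝ} (h0 : 0 < ρ) (h1 : ρ ≤ 1) (n : ℕ) : Integrable (fun x => x ^ n) (bE ρ) :=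
  geo_pow_int (gap_pos h0.le h1) (gap_lt h0 h1) n

omit [GeoPar] in
private theorem geo_sum0 {a : ℝ} (h0 : 0 < a) (h1 : a < 1) :
    HasSum (fun k : ℕ => (1 - a) * a ^ k) 1 := by
  have h := (hasSum_geometric_of_lt_one h0.le h1).mul_left (1 - a)
  rwa [mul_inv_cancel₀ (by linarith)] at h

omit [GeoPar] in
private theorem geo_sum1 {a : ℝ} (h0 : 0 < a) (h1 : a < 1) :
    HasSum (fun k : ℕ => (1 - a) * a ^ k * (k : ℝ)) (a / (1 - a)) := by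
  have hr : ‖a‖ < 1 := by rwa [Real.norm_eq_abs, abs_of_pos h0]
  have h := (hasSum_coe_mul_geometric_of_norm_lt_one hr).mul_left (1 - a)
  have h2 : (1 - a) ≠ 0 := by linarith
  have e : (1 - a) * (a / (1 - a) ^ 2) = a / (1 - a) := by field_simp
  rw [e] at h
  refine hs_congr h fun k => ?_
  ring

omit [GeoPar] in
private theorem geo_sum2 {a : ℝ} (h0 : 0 < a) (h1 : a < 1) :
    HasSum (fun k : ℕ => (1 - a) * a ^ k * (k : ℝ) ^ 2) (a * (1 + a) / (1 - a) ^ 2) := by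
  have hr : ‖a‖ < 1 := by rwa [Real.norm_eq_abs, abs_of_pos h0]
  have h := (hasSum_choose_mul_geometric_of_norm_lt_one 2 hr).mul_left (2 * (1 - a))
  have h2 : (1 - a) ≠ 0 := by linarith
  have h3 := (h.sub ((geo_sum1 h0 h1).mul_left 3)).sub ((geo_sum0 h0 h1).mul_left 2)
  have e : 2 * (1 - a) * (1 / (1 - a) ^ (2 + 1)) - 3 * (a / (1 - a)) - 2 * 1 =
      a * (1 + a) / (1 - a) ^ 2 := by
    field_simp
    ring
  rw [e] at h3
  refine hs_congr h3 fun k => ?_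
  rw [Nat.cast_choose_two]
  push_cast
  ring

private theorem geo_mean_aux {a : ℝ} (h0 : 0 < a) (h1 : a < 1) :
    ∫ x, x ∂(geoM a) = gs * (a / (1 - a)) + gd := by
  have h := ((geo_sum1 h0 h1).mul_left gs).add ((geo_sum0 h0 h1).mul_left gd)
  refine (geo_hasSum h0 h1 measurable_id (fun k => ?_) ?_).2
  · exact add_nonneg (mul_nonneg gs_pos.le (Nat.cast_nonneg _)) gd_pos.le
  · rw [mul_one] at h
    refine hs_congr h fun k => ?_
    simp only [id]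
    ring

private theorem geo_var_aux {a : ℝ} (h0 : 0 < a) (h1 : a < 1) :
    Integrable (fun x => (x - (gs * (a / (1 - a)) + gd)) ^ 2) (geoM a) ∧
    ∫ x, (x - (gs * (a / (1 - a)) + gd)) ^ 2 ∂(geoM a) = gs ^ 2 * (a / (1 - a) ^ 2) := by
  have h2 : (1 - a) ≠ 0 := by linarith
  have h := (((geo_sum2 h0 h1).mul_left (gs ^ 2)).sub
    ((geo_sum1 h0 h1).mul_left (2 * gs ^ 2 * (a / (1 - a))))).add
    ((geo_sum0 h0 h1).mul_left (gs ^ 2 * (a / (1 - a)) ^ 2))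
  refine geo_hasSum h0 h1 (by fun_prop) (fun k => sq_nonneg _) ?_
  have e : gs ^ 2 * (a * (1 + a) / (1 - a) ^ 2) - 2 * gs ^ 2 * (a / (1 - a)) * (a / (1 - a)) +
      gs ^ 2 * (a / (1 - a)) ^ 2 * 1 = gs ^ 2 * (a / (1 - a) ^ 2) := by
    field_simp
    ring
  rw [e] at h
  refine hs_congr h fun k => ?_
  ring

private theorem den_pos {ρ : ℝ} (h0 : 0 < ρ) (h1 : ρ ≤ 1) : 0 < ρ + gc * (1 - ρ) := by
  have := gc_pos
  have h3 : 0 ≤ gc * (1 - ρ) := mul_nonneg this.le (by linarith)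
  linarith

private theorem gs_c : gs = (1 - gc ^ 2) / gc := by
  have := gc_pos
  rw [gs_eq]
  field_simp

private theorem gap_quo {ρ : ℝ} (h0 : 0 < ρ) (h1 : ρ ≤ 1) :
    gs * (gap ρ / (1 - gap ρ)) = (gc * ρ + (1 - ρ)) / ρ := by
  have hc := gc_pos
  have hc1 := gc_lt
  have hD := den_pos h0 h1
  have hq : 0 < 1 - gc ^ 2 := by nlinarith
  rw [one_sub_gap h0.le h1, ← gc_sq, gs_c]
  unfold gap
  field_simp

private theorem gap_quo2 {ρ : ℝ} (h0 : 0 < ρ) (h1 : ρ ≤ 1) :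
    gs ^ 2 * (gap ρ / (1 - gap ρ) ^ 2) = (1 + gk * (ρ * (1 - ρ))) / ρ ^ 2 := by
  have hc := gc_pos
  have hc1 := gc_lt
  have hD := den_pos h0 h1
  have hq : 0 < 1 - gc ^ 2 := by nlinarith
  rw [one_sub_gap h0.le h1, ← gc_sq, gs_c, gk_eq]
  unfold gap
  field_simp
  ring

theorem bE_mean {ρ : ℝ} (h0 : 0 < ρ) (h1 : ρ ≤ 1) : ∫ x, x ∂(bE ρ) = 1 / ρ := by
  unfold bE
  rw [geo_mean_aux (gap_pos h0.le h1) (gap_lt h0 h1), gap_quo h0 h1, gd_eq]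
  field_simp
  ring

private theorem mean_eq {ρ : ℝ} (h0 : 0 < ρ) (h1 : ρ ≤ 1) :
    gs * (gap ρ / (1 - gap ρ)) + gd = 1 / ρ := by
  rw [gap_quo h0 h1, gd_eq]
  field_simp
  ring

theorem bE_var {ρ : ℝ} (h0 : 0 < ρ) (h1 : ρ ≤ 1) :
    ∫ x, (x - 1 / ρ) ^ 2 ∂(bE ρ) = (1 + gk * (ρ * (1 - ρ))) / ρ ^ 2 := by
  have h := (geo_var_aux (gap_pos h0.le h1) (gap_lt h0 h1)).2
  rw [gap_quo2 h0 h1, mean_eq h0 h1] at h
  exact h

theorem bE_sq {ρ : ℝ} (h0 : 0 < ρ) (h1 : ρ ≤ 1) : ∫ x, x ^ 2 ∂(bE ρ) ≤ 2 * gK / ρ ^ 2 := by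
  have hi : Integrable (fun x => (x - 1 / ρ) ^ 2) (bE ρ) := by
    have hi' := (geo_var_aux (gap_pos h0.le h1) (gap_lt h0 h1)).1
    rw [mean_eq h0 h1] at hi'
    exact hi'
  have hi1 : Integrable (fun x : ℝ => x) (bE ρ) := by
    have := bE_int h0 h1 1
    simpa using this
  have h2 : ∫ x, x ^ 2 ∂(bE ρ) = (∫ x, (x - 1 / ρ) ^ 2 ∂(bE ρ)) +
      ((2 / ρ) * ∫ x, x ∂(bE ρ)) - 1 / ρ ^ 2 := by
    have h3 : ∀ x : ℝ, x ^ 2 = ((x - 1 / ρ) ^ 2 + (2 / ρ) * x) - 1 / ρ ^ 2 := by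
      intro x
      field_simp
      ring
    have h4 : ∫ _ : ℝ, (1 / ρ ^ 2) ∂(bE ρ) = 1 / ρ ^ 2 := by
      rw [integral_const, probReal_univ, one_smul]
    have hb : Integrable (fun x : ℝ => (x - 1 / ρ) ^ 2 + (2 / ρ) * x) (bE ρ) :=
      hi.add (hi1.const_mul _)
    have e1 : ∫ x, x ^ 2 ∂(bE ρ) = ∫ x, (((x - 1 / ρ) ^ 2 + (2 / ρ) * x) - 1 / ρ ^ 2) ∂(bE ρ) :=
      integral_congr_ae (Filter.Eventually.of_forall h3)
    have e2 : ∫ x, (((x - 1 / ρ) ^ 2 + (2 / ρ) * x) - 1 / ρ ^ 2) ∂(bE ρ) =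
        (∫ x, ((x - 1 / ρ) ^ 2 + (2 / ρ) * x) ∂(bE ρ)) - ∫ _ : ℝ, (1 / ρ ^ 2) ∂(bE ρ) :=
      integral_sub hb (integrable_const _)
    have e3 : ∫ x, ((x - 1 / ρ) ^ 2 + (2 / ρ) * x) ∂(bE ρ) =
        (∫ x, (x - 1 / ρ) ^ 2 ∂(bE ρ)) + ∫ x, (2 / ρ) * x ∂(bE ρ) :=
      integral_add hi (hi1.const_mul _)
    have e4 : ∫ x, (2 / ρ) * x ∂(bE ρ) = (2 / ρ) * ∫ x, x ∂(bE ρ) := integral_const_mul _ _
    rw [e1, e2, e3, e4, h4]
  have hk := gk_nonneg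
  have h5 : ρ * (1 - ρ) ≤ 1 / 4 := by nlinarith [sq_nonneg (ρ - 1 / 2)]
  have h6 : gk * (ρ * (1 - ρ)) ≤ gk * (1 / 4) := mul_le_mul_of_nonneg_left h5 hk
  rw [h2, bE_mean h0 h1, bE_var h0 h1, gK_eq]
  have h7 : (1 + gk * (ρ * (1 - ρ))) / ρ ^ 2 + 2 / ρ * (1 / ρ) - 1 / ρ ^ 2 =
      (2 + gk * (ρ * (1 - ρ))) / ρ ^ 2 := by
    field_simp
    ring
  rw [h7]
  exact div_le_div_of_nonneg_right (by linarith) (by positivity)

theorem bE_four : ∃ C : ℝ, 1 ≤ C ∧ ∀ ρ : ℝ, 0 < ρ → ρ ≤ 1 → ∫ x, x ^ 4 ∂(bE ρ) ≤ C / ρ ^ 4 := by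
  have hc := gc_pos
  have hc1 := gc_lt
  have hc4 : gc ^ 4 ≤ 1 := pow_le_one₀ hc.le hc1.le
  refine ⟨24 * 6 * 256 / gc ^ 4, ?_, fun ρ h0 h1 => ?_⟩
  · rw [le_div_iff₀ (by positivity)]
    linarith
  have ha0 := gap_pos h0.le h1
  have ha1 := gap_lt h0 h1
  have hq : 0 < 1 - gc ^ 2 := by nlinarith
  have hq1 : 1 - gc ^ 2 ≤ 1 := by nlinarith [sq_nonneg gc]
  set θ : ℝ := gc * ρ / 4 with hθ
  have hθ0 : 0 < θ := by positivity
  have hgθ : gs * θ = (1 - gc ^ 2) * ρ / 4 := by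
    rw [gs_c, hθ]
    field_simp
  have hgθ0 : 0 ≤ gs * θ := by rw [hgθ]; positivity
  have hgθ1 : gs * θ ≤ 1 := by
    rw [hgθ]
    nlinarith [mul_le_one₀ hq1 h0.le h1]
  have hD := den_pos h0 h1
  have hD1 : ρ + gc * (1 - ρ) ≤ 1 := by nlinarith
  have h1a : ρ * (1 - gc ^ 2) ≤ 1 - gap ρ := by
    rw [one_sub_gap h0.le h1, ← gc_sq, le_div_iff₀ hD]
    have : 0 ≤ ρ * (1 - gc ^ 2) := by positivity
    nlinarith
  have hexp : Real.exp (gs * θ) ≤ 1 + 2 * (gs * θ) := by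
    have h3 := Real.abs_exp_sub_one_le (x := gs * θ) (by rwa [abs_of_nonneg hgθ0])
    rw [abs_of_nonneg hgθ0] at h3
    have h4 := le_abs_self (Real.exp (gs * θ) - 1)
    linarith
  have hkey : (1 - gap ρ) / 2 ≤ 1 - gap ρ * Real.exp (gs * θ) := by
    have h3 : gap ρ * Real.exp (gs * θ) ≤ gap ρ * (1 + 2 * (gs * θ)) :=
      mul_le_mul_of_nonneg_left hexp ha0.le
    have h4 : gap ρ * (2 * (gs * θ)) ≤ 1 * (2 * (gs * θ)) :=
      mul_le_mul_of_nonneg_right ha1.le (by linarith)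
    have h5 : 2 * (gs * θ) = ρ * (1 - gc ^ 2) / 2 := by
      rw [hgθ]
      ring
    linarith
  have hlt : gap ρ * Real.exp (gs * θ) < 1 := by linarith
  have hmgf : ∫ x, Real.exp (θ * x) ∂(bE ρ) ≤ 6 := by
    unfold bE
    rw [geo_mgf ha0 ha1 hlt]
    have hgd : gd * θ ≤ 1 := by
      have h3 := gd_pos
      have h4 := gd_lt
      have h5 : θ ≤ 1 := by
        rw [hθ]
        nlinarith [mul_le_one₀ hc1.le h0.le h1]
      nlinarith
    have h6 : Real.exp (gd * θ) ≤ 3 := by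
      calc Real.exp (gd * θ) ≤ Real.exp 1 := Real.exp_le_exp.2 hgd
        _ ≤ 3 := Real.exp_one_lt_three.le
    rw [div_le_iff₀ (by linarith)]
    have h7 : Real.exp (gd * θ) * (1 - gap ρ) ≤ 3 * (1 - gap ρ) :=
      mul_le_mul_of_nonneg_right h6 (by linarith)
    linarith
  have h8 : ∫ x, x ^ 4 ∂(bE ρ) ≤ ∫ x, ((4).factorial / θ ^ 4) * Real.exp (θ * x) ∂(bE ρ) := by
    refine integral_mono_ae (bE_int h0 h1 4) ((geo_mgf_int ha0 ha1 hlt).const_mul _) ?_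
    filter_upwards [geo_nonneg (gap ρ)] with x hx
    exact pow_le_exp hθ0 hx 4
  rw [integral_const_mul] at h8
  have h9 : (((4).factorial : ℕ) : ℝ) / θ ^ 4 = 24 * 256 / gc ^ 4 / ρ ^ 4 := by
    rw [hθ]
    have : (((4).factorial : ℕ) : ℝ) = 24 := by norm_num [Nat.factorial]
    rw [this]
    field_simp
    ring
  rw [h9] at h8
  calc ∫ x, x ^ 4 ∂(bE ρ) ≤ 24 * 256 / gc ^ 4 / ρ ^ 4 * ∫ x, Real.exp (θ * x) ∂(bE ρ) := h8
    _ ≤ 24 * 256 / gc ^ 4 / ρ ^ 4 * 6 := mul_le_mul_of_nonneg_left hmgf (by positivity)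
    _ = 24 * 6 * 256 / gc ^ 4 / ρ ^ 4 := by ring

theorem EG_int (n : ℕ) : Integrable (fun x => x ^ n) EG :=
  geo_pow_int GeoPar.q_pos GeoPar.q_lt n

theorem EG_mean : ∫ x, x ∂EG = 1 := by
  have h := bE_mean one_pos le_rfl
  rw [bE_one] at h
  rw [h, div_one]

theorem EG_var : ∫ x, (x - 1) ^ 2 ∂EG = 1 := by
  have h := bE_var one_pos le_rfl
  rw [bE_one] at h
  simpa using h

end BGG
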