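import Pool.Agent.BGG.Law
import Pool.Agent.BGE.ZDefs
import Pool.Agent.BGE.Meas

/-!
BGG / G2. The laws `PG`, `PD` and the dynamics: everything is transported from the exponential case.

`gE ω v = gqm q (ω v)` maps `PI (ℤ × ℤ)` to `PG`; `gN x d = gqm q (x d)` for the weight variables
(`d.2.2 = true`) and `gN x d = x d` for the clock variables maps `PI DI` to `PD` (coordinatewise
images of an infinite product measure: `Measure.infinitePi_map_pi`, or check on boxes with
`Measure.eq_infinitePi`). By induction on `i`, `dyn η (gN x) i = gE (dyn η x i)`; also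
`ct (gN x) t = gE (ct x t)` (the clock variables are unchanged),
`evo τ (gE x.1, gE x.2.1, x.2.2) = gE (evo τ x)`, `rotE (gE ω) = gE (rotE ω)`,
`trn φ (gN x) = gN (trn φ x)`.

All the statements below follow from the corresponding ones of BGE applied to the preimages of the
events under `gE` (measurable since `gE` is measurable; `DepOn` is inherited because `gE ω v` depends
only on `ω v`), by `MeasurePreserving.measure_preimage`. For example `soft_step` for `D`, `Cc` is
`BGE.soft_step` for `gE ⁻¹' D`, `gE ⁻¹' Cc`.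
`mp_bw`: the weights `bw ρ (x i)`, `x` with law `PI ℕ`, have the law `bI ρ`.
`mp_tr`: translations preserve `PG` (re-indexing an i.i.d. family).
This file: the maps.
-/

namespace BGG

open MeasureTheory ProbabilityTheory BGE
open scoped ENNReal

variable [GeoPar]

theorem measurable_gE : Measurable gE :=
  measurable_pi_lambda _ fun v => (measurable_gqm _).comp (measurable_pi_apply v)

theorem gN_true (x : DI → ℝ) (v : ℤ × ℤ) (i : ℕ) :
    gN x (v, i, true) = gqm GeoPar.q (x (v, i, true)) := if_pos rfl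

theorem gN_false (x : DI → ℝ) (v : ℤ × ℤ) (i : ℕ) : gN x (v, i, false) = x (v, i, false) :=
  if_neg (by simp)

/-- the map on one noise variable -/
noncomputable def gN1 (d : DI) : ℝ → ℝ := if d.2.2 = true then gqm GeoPar.q else id

theorem measurable_gN1 (d : DI) : Measurable (gN1 d) := by
  unfold gN1
  split_ifs
  · exact measurable_gqm _
  · exact measurable_id

theorem gN_eq (x : DI → ℝ) : gN x = fun d => gN1 d (x d) := by
  funext d
  unfold gN gN1
  split_ifs <;> rfl

theorem measurable_gN : Measurable gN := by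
  have h : (gN : (DI → ℝ) → DI → ℝ) = fun x d => gN1 d (x d) := funext gN_eq
  rw [h]
  exact measurable_pi_lambda _ fun d => (measurable_gN1 d).comp (measurable_pi_apply d)

theorem mp_gE : MeasurePreserving gE (PI (ℤ × ℤ)) PG :=
  ⟨measurable_gE, Measure.infinitePi_map_pi (μ := fun _ : ℤ × ℤ => E1)
    (f := fun _ : ℤ × ℤ => gqm GeoPar.q) (fun _ => measurable_gqm _)⟩

theorem dlaw_eq (d : DI) : Measure.map (gN1 d) E1 = dlaw d := by
  unfold gN1 dlaw
  split_ifs
  · rfl
  · exact Measure.map_id

theorem mp_gN : MeasurePreserving gN (PI DI) PD := by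
  refine ⟨measurable_gN, ?_⟩
  have h : (gN : (DI → ℝ) → DI → ℝ) = fun x d => gN1 d (x d) := funext gN_eq
  rw [h]
  unfold PI PD
  refine Measure.eq_infinitePi _ fun s t ht => ?_
  have hm : Measurable fun (x : DI → ℝ) (d : DI) => gN1 d (x d) :=
    measurable_pi_lambda _ fun d => (measurable_gN1 d).comp (measurable_pi_apply d)
  rw [Measure.map_apply hm (.pi s.countable_toSet fun _ _ => ht _)]
  have h1 : (fun (x : DI → ℝ) d => gN1 d (x d)) ⁻¹' ((s : Set DI).pi t) =
      (s : Set DI).pi (fun d => (gN1 d) ⁻¹' (t d)) := by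
    ext x
    simp
  rw [h1, Measure.infinitePi_pi _ (fun d _ => measurable_gN1 d (ht d))]
  refine Finset.prod_congr rfl fun d _ => ?_
  rw [← dlaw_eq d, Measure.map_apply (measurable_gN1 d) (ht d)]

theorem dyn_gN (η : ℝ) (x : DI → ℝ) (i : ℕ) : dyn η (gN x) i = gE (dyn η x i) := by
  induction i with
  | zero =>
    funext v
    exact gN_true x v 0
  | succ i ih =>
    funext v
    change (if gN x (v, i + 1, false) < η then gN x (v, i + 1, true) else dyn η (gN x) i v) =
      gqm GeoPar.q (if x (v, i + 1, false) < η then x (v, i + 1, true) else dyn η x i v)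
    rw [gN_true, gN_false, ih]
    split_ifs
    · rfl
    · rfl

theorem ct_gN (x : DI → ℝ) (t : ℝ) : ct (gN x) t = gE (ct x t) := by
  funext v
  have h : cnt (gN x) v t = cnt x v t := by
    unfold cnt
    congr 1
  change gN x (v, cnt (gN x) v t, true) = gqm GeoPar.q (x (v, cnt x v t, true))
  rw [h, gN_true]

theorem rotE_gE (ω : ℤ × ℤ → ℝ) : rotE (gE ω) = gE (rotE ω) := rfl

/-- the map from the exponential triples to the geometric ones -/
noncomputable def g3 (x : Env3) : Env3 := (gE x.1, gE x.2.1, x.2.2)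

theorem mp_g3 : MeasurePreserving g3 BGE.mu3 mu3 :=
  mp_gE.prod (mp_gE.prod (MeasurePreserving.id _))

theorem evo_g3 (τ : ℝ) (x : Env3) : evo τ (g3 x) = gE (evo τ x) := by
  funext v
  simp only [evo, g3, mix, gE]
  split_ifs
  · rfl
  · rfl

/-- probabilities of events for the environment -/
theorem PG_real {E : Set (ℤ × ℤ → ℝ)} (hE : MeasurableSet E) :
    PG.real E = (PI (ℤ × ℤ)).real (gE ⁻¹' E) := by
  rw [measureReal_def, measureReal_def, mp_gE.measure_preimage hE.nullMeasurableSet]

theorem PD_real {E : Set (DI → ℝ)} (hE : MeasurableSet E) :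
    PD.real E = (PI DI).real (gN ⁻¹' E) := by
  rw [measureReal_def, measureReal_def, mp_gN.measure_preimage hE.nullMeasurableSet]

theorem depOn_gE {S : Set (ℤ × ℤ)} {E : Set (ℤ × ℤ → ℝ)} (hE : DepOn S E) :
    DepOn S (gE ⁻¹' E) := fun x y h =>
  hE (gE x) (gE y) fun i hi => by
    change gqm GeoPar.q (x i) = gqm GeoPar.q (y i)
    rw [h i hi]

theorem ae_nonneg : ∀ᵐ ω ∂PG, ∀ z, 0 ≤ ω z := by
  rw [← mp_gE.map_eq, ae_map_iff measurable_gE.aemeasurable
    (measurableSet_setOfPred.2 (Measurable.forall fun z =>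
      measurableSet_setOfPred.1 (measurableSet_le measurable_const (measurable_pi_apply z))))]
  exact Filter.Eventually.of_forall fun ω z => gqm_nonneg _ _

theorem ae_dyn_nonneg (η : ℝ) : ∀ᵐ x ∂PD, ∀ (i : ℕ) (z : ℤ × ℤ), 0 ≤ dyn η x i z := by
  have hm : MeasurableSet {x : DI → ℝ | ∀ (i : ℕ) (z : ℤ × ℤ), 0 ≤ dyn η x i z} := by
    refine measurableSet_setOfPred.2 (Measurable.forall fun i => Measurable.forall fun z =>
      measurableSet_setOfPred.1 (measurableSet_le measurable_const ?_))
    exact (measurable_pi_apply z).comp (measurable_dyn η i)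
  rw [← mp_gN.map_eq, ae_map_iff measurable_gN.aemeasurable hm]
  refine Filter.Eventually.of_forall fun x i z => ?_
  rw [dyn_gN]
  exact gqm_nonneg _ _

/-- re-indexing along a bijection -/
theorem mp_reindex (φ : (ℤ × ℤ) ≃ (ℤ × ℤ)) :
    MeasurePreserving (fun (ω : ℤ × ℤ → ℝ) z => ω (φ z)) PG PG := by
  have hm : Measurable (fun (ω : ℤ × ℤ → ℝ) z => ω (φ z)) := by fun_prop
  refine ⟨hm, ?_⟩
  unfold PG
  refine Measure.eq_infinitePi _ fun s t ht => ?_
  rw [Measure.map_apply hm (.pi s.countable_toSet fun _ _ => ht _)]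
  have h1 : (fun (ω : ℤ × ℤ → ℝ) z => ω (φ z)) ⁻¹' ((s : Set (ℤ × ℤ)).pi t) =
      ((s.map φ.toEmbedding : Finset (ℤ × ℤ)) : Set (ℤ × ℤ)).pi (fun j => t (φ.symm j)) := by
    ext x
    simp only [Set.mem_preimage, Set.mem_pi, Finset.coe_map, Equiv.coe_toEmbedding,
      Set.mem_image, Finset.mem_coe]
    constructor
    · rintro h _ ⟨i, hi, rfl⟩
      rw [Equiv.symm_apply_apply]
      exact h i hi
    · intro h i hi
      have := h (φ i) ⟨i, hi, rfl⟩
      rwa [Equiv.symm_apply_apply] at this
  rw [h1, Measure.infinitePi_pi _ (fun i _ => ht _), Finset.prod_map]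
  simp

theorem measurePreserving_rotE : MeasurePreserving rotE PG PG :=
  mp_reindex ⟨rot, rot, rot_rot, rot_rot⟩

theorem mp_tr (c : ℤ × ℤ) : MeasurePreserving (fun (ω : ℤ × ℤ → ℝ) z => ω (z + c)) PG PG :=
  mp_reindex (Equiv.addRight c)

theorem mp_bw (ρ : ℝ) : MeasurePreserving (fun (x : ℕ → ℝ) i => bw ρ (x i)) (PI ℕ) (bI ρ) :=
  ⟨measurable_pi_lambda _ fun i => (measurable_bw ρ).comp (measurable_pi_apply i),
    Measure.infinitePi_map_pi (μ := fun _ : ℕ => E1) (f := fun _ : ℕ => bw ρ)
      (fun _ => measurable_bw ρ)⟩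

theorem bI_nonneg (ρ : ℝ) : ∀ᵐ x ∂(bI ρ), ∀ i, 0 ≤ x i := by
  rw [← (mp_bw ρ).map_eq, ae_map_iff (mp_bw ρ).measurable.aemeasurable
    (measurableSet_setOfPred.2 (Measurable.forall fun z =>
      measurableSet_setOfPred.1 (measurableSet_le measurable_const (measurable_pi_apply z))))]
  exact Filter.Eventually.of_forall fun ω z => gqm_nonneg _ _

end BGG
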