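import Pool.Agent.BGG.LawA
import Pool.Agent.BGG.LawB
import Pool.Agent.BGG.LawC
import Pool.Agent.BGG.ProdA
import Pool.Agent.BGE.CtLaw
import Pool.Agent.BGE.CtSym
import Pool.Agent.BGE.Soft
import Pool.Agent.BGE.Transfer
import Pool.Agent.BGE.CellsG

/-!
BGG / G2. The laws `PG`, `PD` and the dynamics: everything is transported from the exponential case.

`gE ω v = gqm q (ω v)` maps `PI (ℤ × ℤ)` to `PG`; `gN x d = gqm q (x d)` for the weight variables
(`d.2.2 = true`) and `gN x d = x d` for the clock variables maps `PI DI` to `PD` (coordinatewise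
images of an infinite product measure: `Measure.infinitePi_map_pi`, or check on boxes with
`Measure.eq_infinitePi`). By induction on `i`, `dyn η (gN x) i = gE (dyn η x i)`; also
`ct (gN x) t = gE (ct x t)` (the clock variables are unchanged),
`evo τ (gE x.1, gE x.2.1, x.2.2) = gE (evo τ x)`, `rotE (gE ω) = gE (rotE ω)`,
`trn φ (gN x) = gN (trn φ x)`.

All the statements below follow from the corresponding ones of BGE applied to the preimages of the
events under `gE` (measurable since `gE` is measurable; `DepOn` is inherited because `gE ω v` depends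
only on `ω v`), by `MeasurePreserving.measure_preimage`. For example `soft_step` for `D`, `Cc` is
`BGE.soft_step` for `gE ⁻¹' D`, `gE ⁻¹' Cc`.
`mp_bw`: the weights `bw ρ (x i)`, `x` with law `PI ℕ`, have the law `bI ρ`.
`mp_tr`: translations preserve `PG` (re-indexing an i.i.d. family).
This file: the consequences for the dynamics.
-/

namespace BGG

open MeasureTheory ProbabilityTheory BGE
open scoped ENNReal

variable [GeoPar]

theorem dyn_law (η : ℝ) (i : ℕ) : MeasurePreserving (fun x : DI → ℝ => dyn η x i) PD PG := by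
  refine ⟨measurable_dyn η i, ?_⟩
  have e : (fun x : DI → ℝ => dyn η x i) ∘ gN = gE ∘ fun x : DI → ℝ => dyn η x i := by
    funext x
    exact dyn_gN η x i
  rw [← mp_gN.map_eq, Measure.map_map (measurable_dyn η i) measurable_gN, e,
    ← Measure.map_map measurable_gE (measurable_dyn η i), (BGE.dyn_law η i).map_eq, mp_gE.map_eq]

private theorem meas_evo (τ : ℝ) : Measurable (fun y : Env3 => evo τ y) := by
  have e : (fun y : Env3 => evo τ y) =
      fun (y : Env3) (v : ℤ × ℤ) => if y.2.2 v < τ then y.2.1 v else y.1 v := by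
    funext y v
    unfold evo mix
    by_cases h : y.2.2 v < τ
    · rw [if_pos h]
      exact if_pos h
    · rw [if_neg h]
      exact if_neg h
  rw [e]
  refine measurable_pi_iff.2 fun v => Measurable.ite ?_ ?_ ?_
  · exact measurableSet_lt ((measurable_pi_apply v).comp (measurable_snd.comp measurable_snd))
      measurable_const
  · exact (measurable_pi_apply v).comp (measurable_fst.comp measurable_snd)
  · exact (measurable_pi_apply v).comp measurable_fst

theorem dyn_pair {η : ℝ} (hη : 0 ≤ η) (i j : ℕ) :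
    Measure.map (fun x : DI → ℝ => (dyn η x i, dyn η x (i + j))) PD =
      Measure.map (fun y : Env3 => (y.1, evo (j * η) y)) mu3 := by
  have hg : Measurable (Prod.map gE gE) := measurable_gE.prodMap measurable_gE
  have h1 : Measurable (fun x : DI → ℝ => (dyn η x i, dyn η x (i + j))) :=
    (measurable_dyn η i).prodMk (measurable_dyn η (i + j))
  have h2 : Measurable (fun y : Env3 => (y.1, evo (j * η) y)) :=
    measurable_fst.prodMk (meas_evo _)
  have e1 : (fun x : DI → ℝ => (dyn η x i, dyn η x (i + j))) ∘ gN =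
      Prod.map gE gE ∘ fun x : DI → ℝ => (dyn η x i, dyn η x (i + j)) := by
    funext x
    exact Prod.ext (dyn_gN η x i) (dyn_gN η x (i + j))
  have e2 : (fun y : Env3 => (y.1, evo (j * η) y)) ∘ g3 =
      Prod.map gE gE ∘ fun y : Env3 => (y.1, evo (j * η) y) := by
    funext y
    exact Prod.ext rfl (evo_g3 _ y)
  rw [← mp_gN.map_eq, Measure.map_map h1 measurable_gN, e1, ← Measure.map_map hg h1,
    BGE.dyn_pair hη i j, Measure.map_map hg h2, ← e2, ← Measure.map_map h2 mp_g3.measurable,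
    mp_g3.map_eq]

theorem upd_prob {η : ℝ} (hη : 0 ≤ η) (M : ℕ) (R : Finset (ℤ × ℤ)) :
    PD.real (Upd η M (R : Set (ℤ × ℤ))) ≤ R.card * (M * η) := by
  rw [PD_real (measurableSet_Upd η M _)]
  exact BGE.upd_prob hη M R

private theorem meas_ex (η : ℝ) (M : ℕ) {D : Set (ℤ × ℤ → ℝ)} (hD : MeasurableSet D) :
    MeasurableSet {x : DI → ℝ | ∃ i ≤ M, dyn η x i ∈ D} := by
  have e : {x : DI → ℝ | ∃ i ≤ M, dyn η x i ∈ D} =
      ⋃ i ∈ Finset.range (M + 1), (fun x : DI → ℝ => dyn η x i) ⁻¹' D := by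
    ext x
    simp only [Set.mem_iUnion, Finset.mem_range, Nat.lt_succ_iff, Set.mem_preimage, exists_prop]
    rfl
  rw [e]
  exact Finset.measurableSet_biUnion _ fun i _ => measurable_dyn η i hD

private theorem pre_ex (η : ℝ) (M : ℕ) (D : Set (ℤ × ℤ → ℝ)) :
    gN ⁻¹' {x : DI → ℝ | ∃ i ≤ M, dyn η x i ∈ D} = {x | ∃ i ≤ M, dyn η x i ∈ gE ⁻¹' D} := by
  ext x
  change (∃ i ≤ M, dyn η (gN x) i ∈ D) ↔ ∃ i ≤ M, gE (dyn η x i) ∈ D
  simp only [dyn_gN]

private theorem real_ex (η : ℝ) (M : ℕ) {D : Set (ℤ × ℤ → ℝ)} (hD : MeasurableSet D) :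
    PD.real {x : DI → ℝ | ∃ i ≤ M, dyn η x i ∈ D} =
      (PI DI).real {x | ∃ i ≤ M, dyn η x i ∈ gE ⁻¹' D} := by
  rw [PD_real (meas_ex η M hD), pre_ex]

theorem soft_step {η : ℝ} (hη : 0 ≤ η) {D Cc : Set (ℤ × ℤ → ℝ)} (hD : MeasurableSet D)
    (hC : MeasurableSet Cc) (M : ℕ) :
    PG.real Cc * PD.real {x | ∃ i ≤ 2 * M, dyn η x i ∈ D} +
      PD.real {x | dyn η x 0 ∈ Cc ∧ ∃ i ≤ M, dyn η x i ∈ D} ^ 2 ≤
      PG.real Cc * (2 * PD.real {x | ∃ i ≤ M, dyn η x i ∈ D}) := by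
  have hm : MeasurableSet {x : DI → ℝ | dyn η x 0 ∈ Cc ∧ ∃ i ≤ M, dyn η x i ∈ D} :=
    (measurable_dyn η 0 hC).inter (meas_ex η M hD)
  have e : gN ⁻¹' {x : DI → ℝ | dyn η x 0 ∈ Cc ∧ ∃ i ≤ M, dyn η x i ∈ D} =
      {x | dyn η x 0 ∈ gE ⁻¹' Cc ∧ ∃ i ≤ M, dyn η x i ∈ gE ⁻¹' D} := by
    ext x
    change (dyn η (gN x) 0 ∈ Cc ∧ ∃ i ≤ M, dyn η (gN x) i ∈ D) ↔
      (gE (dyn η x 0) ∈ Cc ∧ ∃ i ≤ M, gE (dyn η x i) ∈ D)
    simp only [dyn_gN]
  rw [PG_real hC, real_ex η _ hD, real_ex η _ hD, PD_real hm, e]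
  exact BGE.soft_step hη (measurable_gE hD) (measurable_gE hC) M

/-- right-continuity of the counts (for every noise) -/
private theorem tr_cnt (x : DI → ℝ) (v : ℤ × ℤ) (t : ℝ) :
    ∃ ρ : ℝ, 0 < ρ ∧ ∀ t' : ℝ, t ≤ t' → t' < t + ρ → cnt x v t' = cnt x v t := by
  by_cases hne : {n : ℕ | t < ∑ i ∈ Finset.range (n + 1), x (v, i, false)}.Nonempty
  · have hmem : t < ∑ i ∈ Finset.range (cnt x v t + 1), x (v, i, false) := Nat.sInf_mem hne
    refine ⟨∑ i ∈ Finset.range (cnt x v t + 1), x (v, i, false) - t, by linarith,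
      fun t' h1 h2 => le_antisymm ?_ ?_⟩
    · refine Nat.sInf_le ?_
      change t' < _
      linarith
    · refine le_of_not_gt fun hlt => ?_
      have hne' : {n : ℕ | t' < ∑ i ∈ Finset.range (n + 1), x (v, i, false)}.Nonempty := by
        refine ⟨cnt x v t, ?_⟩
        change t' < _
        linarith
      have hmem' : t' < ∑ i ∈ Finset.range (cnt x v t' + 1), x (v, i, false) :=
        Nat.sInf_mem hne'
      have h3 : ¬ t < ∑ i ∈ Finset.range (cnt x v t' + 1), x (v, i, false) := fun h4 =>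
        absurd (Nat.sInf_le (s := {n : ℕ | t < ∑ i ∈ Finset.range (n + 1), x (v, i, false)})
          (m := cnt x v t') h4) (not_le.2 hlt)
      linarith
  · refine ⟨1, one_pos, fun t' h1 _ => ?_⟩
    have hne' : ¬ {n : ℕ | t' < ∑ i ∈ Finset.range (n + 1), x (v, i, false)}.Nonempty := by
      rintro ⟨n, hn⟩
      exact hne ⟨n, lt_of_le_of_lt h1 hn⟩
    rw [Set.not_nonempty_iff_eq_empty] at hne hne'
    unfold cnt
    rw [hne, hne']

private theorem tr_ct (x : DI → ℝ) (F : Finset (ℤ × ℤ)) (t : ℝ) :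
    ∃ ρ : ℝ, 0 < ρ ∧ ∀ t' : ℝ, t ≤ t' → t' < t + ρ → ∀ v ∈ (F : Set (ℤ × ℤ)),
      ct x t' v = ct x t v := by
  classical
  induction F using Finset.induction_on with
  | empty => exact ⟨1, one_pos, fun t' _ _ v hv => absurd hv (by simp)⟩
  | insert a F _ ih =>
    obtain ⟨ρ, hρ, h1⟩ := ih
    obtain ⟨ρ', hρ', h2⟩ := tr_cnt x a t
    refine ⟨min ρ ρ', lt_min hρ hρ', fun t' h3 h4 v hv => ?_⟩
    rw [Finset.coe_insert] at hv
    rcases hv with rfl | hv
    · unfold ct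
      rw [h2 t' h3 (h4.trans_le (by linarith [min_le_right ρ ρ']))]
    · exact h1 t' h3 (h4.trans_le (by linarith [min_le_left ρ ρ'])) v hv

private theorem tr_law {D : Set (ℤ × ℤ → ℝ)} (hD : MeasurableSet D) {s η : ℝ} (hs : 0 ≤ s)
    (hη : 0 < η) (M : ℕ) : (PI DI) {x | ∃ i ≤ M, ct x (s + (i : ℝ) * η) ∈ D} =
      (PI DI) {x | ∃ i ≤ M, dyn η x i ∈ D} := by
  have hS : MeasurableSet {y : Fin (M + 1) → (ℤ × ℤ → ℝ) | ∃ i, y i ∈ D} := by
    have e : {y : Fin (M + 1) → (ℤ × ℤ → ℝ) | ∃ i, y i ∈ D} = ⋃ i, (fun y => y i) ⁻¹' D := by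
      ext y
      simp
    rw [e]
    exact MeasurableSet.iUnion fun i => measurable_pi_apply i hD
  have h1 := congrArg (fun μ : Measure (Fin (M + 1) → (ℤ × ℤ → ℝ)) => μ {y | ∃ i, y i ∈ D})
    (ct_law hs hη M)
  rw [Measure.map_apply (measurable_pi_lambda _ fun i => measurable_ct _) hS,
    Measure.map_apply (measurable_pi_lambda _ fun i => measurable_dyn η _) hS] at h1
  have e1 : {x : DI → ℝ | ∃ i ≤ M, ct x (s + (i : ℝ) * η) ∈ D} =
      (fun (x : DI → ℝ) (i : Fin (M + 1)) => ct x (s + (i : ℕ) * η)) ⁻¹' {y | ∃ i, y i ∈ D} := by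
    ext x
    constructor
    · rintro ⟨i, hi, hx⟩
      exact ⟨⟨i, Nat.lt_succ_of_le hi⟩, hx⟩
    · rintro ⟨i, hx⟩
      exact ⟨i, Nat.le_of_lt_succ i.2, hx⟩
  have e2 : {x : DI → ℝ | ∃ i ≤ M, dyn η x i ∈ D} =
      (fun (x : DI → ℝ) (i : Fin (M + 1)) => dyn η x (i : ℕ)) ⁻¹' {y | ∃ i, y i ∈ D} := by
    ext x
    constructor
    · rintro ⟨i, hi, hx⟩
      exact ⟨⟨i, Nat.lt_succ_of_le hi⟩, hx⟩
    · rintro ⟨i, hx⟩
      exact ⟨i, Nat.le_of_lt_succ i.2, hx⟩
  rw [e1, e2]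
  exact h1

theorem transfer {F : Finset (ℤ × ℤ)} {D : Set (ℤ × ℤ → ℝ)} (hD : MeasurableSet D)
    (hdep : DepOn (F : Set (ℤ × ℤ)) D) {s h ε : ℝ} (hs : 0 ≤ s) (hh : 0 < h) (hε : 0 ≤ ε)
    {M0 : ℕ} (hM : ∀ M : ℕ, M0 ≤ M → 1 ≤ M →
      PD.real {x | ∃ i ≤ M, dyn (h / M) x i ∈ D} ≤ ε) :
    PD {x | ∃ t : ℝ, s ≤ t ∧ t ≤ s + h ∧ ct x t ∈ D} ≤ ENNReal.ofReal ε := by
  set A : ℕ → Set (DI → ℝ) := fun M => {x | ∃ i ≤ M, ct x (s + (i : ℝ) * (h / M)) ∈ D} with hA
  have hAM : ∀ M, M0 ≤ M → 1 ≤ M → PD (A M) ≤ ENNReal.ofReal ε := by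
    intro M h1 h2
    have hMpos : (0 : ℝ) < M := by exact_mod_cast h2
    rw [hA]
    simp only
    have hmA : MeasurableSet {x : DI → ℝ | ∃ i ≤ M, ct x (s + (i : ℝ) * (h / M)) ∈ D} := by
      have e : {x : DI → ℝ | ∃ i ≤ M, ct x (s + (i : ℝ) * (h / M)) ∈ D} =
          ⋃ i ∈ Finset.range (M + 1), (fun x : DI → ℝ => ct x (s + (i : ℝ) * (h / M))) ⁻¹' D := by
        ext x
        simp only [Set.mem_iUnion, Finset.mem_range, Nat.lt_succ_iff, Set.mem_preimage, exists_prop]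
        rfl
      rw [e]
      exact Finset.measurableSet_biUnion _ fun i _ => measurable_ct _ hD
    have eA : gN ⁻¹' {x : DI → ℝ | ∃ i ≤ M, ct x (s + (i : ℝ) * (h / M)) ∈ D} =
        {x | ∃ i ≤ M, ct x (s + (i : ℝ) * (h / M)) ∈ gE ⁻¹' D} := by
      ext x
      change (∃ i ≤ M, ct (gN x) (s + (i : ℝ) * (h / M)) ∈ D) ↔
        ∃ i ≤ M, gE (ct x (s + (i : ℝ) * (h / M))) ∈ D
      simp only [ct_gN]
    rw [← mp_gN.measure_preimage hmA.nullMeasurableSet, eA,
      tr_law (measurable_gE hD) hs (div_pos hh hMpos) M,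
      ← ENNReal.ofReal_toReal (measure_ne_top _ _)]
    refine ENNReal.ofReal_le_ofReal ?_
    have h3 := hM M h1 h2
    rw [real_ex _ _ hD] at h3
    exact h3
  have hsub : {x | ∃ t : ℝ, s ≤ t ∧ t ≤ s + h ∧ ct x t ∈ D} ⊆ ⋃ N : ℕ, ⋂ M ≥ N, A M := by
    rintro x ⟨t, h1, h2, h3⟩
    obtain ⟨ρ, hρ, h4⟩ := tr_ct x F t
    obtain ⟨N, hN⟩ := exists_nat_ge (h / ρ)
    rw [Set.mem_iUnion]
    refine ⟨max N 1, ?_⟩
    rw [Set.mem_iInter₂]
    intro M hMN
    have hM1 : 1 ≤ M := (le_max_right _ _).trans hMN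
    have hM2 : N ≤ M := (le_max_left _ _).trans hMN
    have hMpos : (0 : ℝ) < M := by exact_mod_cast hM1
    have hMN' : (N : ℝ) ≤ M := by exact_mod_cast hM2
    set q : ℝ := (t - s) * M / h with hq
    have hq0 : 0 ≤ q := div_nonneg (mul_nonneg (by linarith) hMpos.le) hh.le
    have hqM : q ≤ M := by
      rw [hq, div_le_iff₀ hh, mul_comm (M : ℝ) h]
      exact mul_le_mul_of_nonneg_right (by linarith) hMpos.le
    have hqh : q * (h / M) = t - s := by
      rw [hq]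
      field_simp
    have hhM : 0 < h / M := div_pos hh hMpos
    refine ⟨⌈q⌉₊, Nat.ceil_le.2 hqM, ?_⟩
    refine (hdep _ _ (h4 _ ?_ ?_)).2 h3
    · have h5 := mul_le_mul_of_nonneg_right (Nat.le_ceil q) hhM.le
      linarith
    · have h5 := mul_lt_mul_of_pos_right (Nat.ceil_lt_add_one hq0) hhM
      have h6 : h / M ≤ ρ := by
        rw [div_le_iff₀ hρ] at hN
        rw [div_le_iff₀ hMpos]
        calc h ≤ N * ρ := hN
          _ ≤ M * ρ := mul_le_mul_of_nonneg_right hMN' hρ.le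
          _ = ρ * M := mul_comm _ _
      rw [add_mul, hqh, one_mul] at h5
      linarith
  refine (measure_mono hsub).trans ?_
  have hmono : Monotone fun N : ℕ => ⋂ M ≥ N, A M := by
    intro N N' hNN x hx
    rw [Set.mem_iInter₂] at hx ⊢
    exact fun M hM' => hx M (le_trans hNN hM')
  rw [hmono.measure_iUnion]
  refine iSup_le fun N => ?_
  refine (measure_mono ?_).trans (hAM (max N (max M0 1)) ?_ ?_)
  · intro x hx
    rw [Set.mem_iInter₂] at hx
    exact hx _ (le_max_left _ _)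
  · exact (le_max_left _ _).trans (le_max_right _ _)
  · exact (le_max_right _ _).trans (le_max_right _ _)

theorem cells_gen {F : Finset (ℤ × ℤ)} {E : Set (ℤ × ℤ → ℝ)} (hE : MeasurableSet E)
    (hdep : DepOn (F : Set (ℤ × ℤ)) E) {η h : ℝ} {M J : ℕ} (hη : 0 < η) (hM : M * η ≤ h)
    (hJ : 1 ≤ J) :
    PD.real {x | ∃ i ≤ M, dyn η x i ∈ E} ≤
      (J + 1) * PG.real E + J * (F.card * (h / J + η)) ^ 2 := by
  rw [real_ex η _ hE, PG_real hE]
  exact BGE.cells_gen (measurable_gE hE) (depOn_gE hdep) hη hM hJ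

theorem mp_trn {φ : ℤ × ℤ → ℤ × ℤ} (hφ : Function.Injective φ) :
    MeasurePreserving (trn φ) PD PD := by
  have hm : Measurable (trn φ) := measurable_pi_iff.2 fun d => measurable_pi_apply _
  refine ⟨hm, ?_⟩
  have e : trn φ ∘ gN = gN ∘ trn φ := by
    funext x d
    rfl
  rw [← mp_gN.map_eq, Measure.map_map hm measurable_gN, e, ← Measure.map_map measurable_gN hm,
    (BGE.mp_trn hφ).map_eq]

theorem ae_ct_nonneg : ∀ᵐ x ∂PD, ∀ (t : ℝ) (v : ℤ × ℤ), 0 ≤ ct x t v := by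
  have h : ∀ᵐ x ∂PD, ∀ d : DI, d.2.2 = true → 0 ≤ x d := by
    refine ae_all_iff.2 fun d => ?_
    have hm : MeasurableSet {x : DI → ℝ | d.2.2 = true → 0 ≤ x d} := by
      by_cases hd : d.2.2 = true
      · have e : {x : DI → ℝ | d.2.2 = true → 0 ≤ x d} = (fun x : DI → ℝ => x d) ⁻¹' Set.Ici 0 := by
          ext x
          exact ⟨fun h => h hd, fun h _ => h⟩
        rw [e]
        exact measurable_pi_apply d measurableSet_Ici
      · have e : {x : DI → ℝ | d.2.2 = true → 0 ≤ x d} = Set.univ := by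
          ext x
          exact ⟨fun _ => trivial, fun _ h => absurd h hd⟩
        rw [e]
        exact MeasurableSet.univ
    rw [← mp_gN.map_eq, ae_map_iff measurable_gN.aemeasurable hm]
    refine Filter.Eventually.of_forall fun x hd => ?_
    unfold gN
    rw [if_pos hd]
    exact gqm_nonneg _ _
  filter_upwards [h] with x hx t v
  exact hx _ rfl

/-- an almost sure property holds simultaneously for countably many symmetries -/
theorem ae_trn {P : (DI → ℝ) → Prop} (hP : ∀ᵐ x ∂PD, P x) {ι : Type*} [Countable ι]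
    (φ : ι → ℤ × ℤ → ℤ × ℤ) (hφ : ∀ i, Function.Injective (φ i)) :
    ∀ᵐ x ∂PD, ∀ i, P (trn (φ i) x) :=
  ae_all_iff.2 fun i => (mp_trn (hφ i)).quasiMeasurePreserving.ae hP

end BGG
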