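import Pool.Agent.BGG.NearMain
import Pool.Agent.BGG.ConeMain
import Pool.Agent.BGG.Prod
import Pool.Agent.BGE.BigFin

/-!
BGG. Adaptation of `Pool/Agent/BGE/BigFin.lean`: same proof with the law `PG` of the environment and the law `PD` of the noise.
`big_det` of BGE is deterministic. `StaticClass`, `near_main`, `cone_main`, `ae_trn`, `ae_ct_nonneg` of BGG;
`ct_trn` of BGE.
-/

namespace BGG


open MeasureTheory ProbabilityTheory BGE

variable [GeoPar]

theorem no_big (hS : ∀ k : ℕ, 4 ≤ k → StaticClass (1 / (k : ℝ))) :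
    ∀ᵐ x ∂PD, ∀ t : ℝ, 0 ≤ t → ∀ γ : ℤ → ℤ, BiG (ct x t) γ →
      (∀ l, γ (l + 1) = γ l) ∨ (∀ l, γ (l + 1) = γ l + 1) := by
  have i1 : ∀ c : ℤ × ℤ, Function.Injective (fun z : ℤ × ℤ => z + c) :=
    fun c => add_left_injective c
  have irot : Function.Injective rot := fun a b h => by
    rw [← rot_rot a, h, rot_rot]
  have i2 : ∀ c : ℤ × ℤ, Function.Injective (fun z : ℤ × ℤ => z.swap + c) :=
    fun c => (i1 c).comp Prod.swap_injective
  have i3 : ∀ c : ℤ × ℤ, Function.Injective (fun z : ℤ × ℤ => rot z + c) :=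
    fun c => (i1 c).comp irot
  have i4 : ∀ c : ℤ × ℤ, Function.Injective (fun z : ℤ × ℤ => (rot z).swap + c) :=
    fun c => (i2 c).comp irot
  have hC : ∀ᵐ x ∂PD, ∀ k : ℕ, 4 ≤ k → ∀ r0 : ℕ, ∀ t : ℝ, 0 ≤ t →
      ¬ ∀ m : ℕ, ct x t ∈ Gm (2 * (1 / (k : ℝ))) r0 m := by
    rw [ae_all_iff]
    intro k
    by_cases hk : 4 ≤ k
    · have hk4 : (4 : ℝ) ≤ k := by exact_mod_cast hk
      have h5 : ∀ r0 : ℕ, ∀ᵐ x ∂PD, ∀ t : ℝ, 0 ≤ t →
          ¬ ∀ m : ℕ, ct x t ∈ Gm (2 * (1 / (k : ℝ))) r0 m := fun r0 =>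
        cone_main (by positivity) (one_div_le_one_div_of_le (by norm_num) hk4) (hS k hk) r0
      filter_upwards [ae_all_iff.2 h5] with x hx _
      exact hx
    · exact Filter.Eventually.of_forall fun x h => absurd h hk
  filter_upwards [ae_trn near_main (fun c : ℤ × ℤ => fun z => z + c) i1,
    ae_trn near_main (fun c : ℤ × ℤ => fun z => z.swap + c) i2,
    ae_trn near_main (fun c : ℤ × ℤ => fun z => rot z + c) i3,
    ae_trn near_main (fun c : ℤ × ℤ => fun z => (rot z).swap + c) i4,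
    ae_trn hC (fun c : ℤ × ℤ => fun z => z + c) i1, ae_ct_nonneg] with x n1 n2 n3 n4 nC nn
  intro t ht γ hγ
  by_contra hcon
  push Not at hcon
  obtain ⟨hv, hh⟩ := hcon
  obtain ⟨c, k, r0, hk, hm⟩ := big_det (ω := ct x t) (nn t) hγ (fun h => by
      obtain ⟨l, hl⟩ := hv; exact hl (h l)) (fun h => by
      obtain ⟨l, hl⟩ := hh; exact hl (h l))
    (fun c => by have := n1 c t ht; rwa [ct_trn] at this)
    (fun c => by have := n2 c t ht; rwa [ct_trn] at this)
    (fun c => by have := n3 c t ht; rwa [ct_trn] at this)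
    (fun c => by have := n4 c t ht; rwa [ct_trn] at this)
  apply nC c k hk r0 t ht
  intro m
  rw [ct_trn]
  exact hm m

end BGG
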