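import Pool.Agent.BGG.Law

/-!
BGG / G1. Exponential moments of the boundary weights and the calculus of the exponents.

For `0 < ρ1 < ρ2 ≤ 1` let `tilt ρ1 ρ2 = log (gap ρ1 / gap ρ2)/gs`: multiplying the law `bE ρ2` by the
density `exp (tilt ρ1 ρ2 * x)` (normalised) gives `bE ρ1`, since
`gap ρ2 * exp (gs * tilt ρ1 ρ2) = gap ρ1`. Let
`LS ρ1 ρ2 = log ((1 - gap ρ2)/(1 - gap ρ1)) + gd * tilt ρ1 ρ2`. By `geo_mgf`
`∫ exp (tilt ρ1 ρ2 * x) d(bE ρ2) = exp (LS ρ1 ρ2)` (`mgf_up`),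
`∫ exp (- tilt ρ1 ρ2 * x) d(bE ρ1) = exp (- LS ρ1 ρ2)` (`mgf_down`).

Derivatives. With `c = gc`, `gap ρ = c (c ρ + 1 - ρ)/(ρ + c (1-ρ))`:
`- (d/dρ) log (gap ρ) = (1 - c²)/((1 - (1-c) ρ)(c + (1-c) ρ)) = (1 - c²)/(c + (1-c)² ρ (1-ρ)) = gs kap ρ`
(`kap ρ = 1/(1 + gk ρ (1-ρ)) = c/(c + (1-c)² ρ (1-ρ))`), and `1/gK ≤ kap ρ ≤ 1` on `[0,1]`.
`log (1 - gap ρ) = log ρ + log (1 - c²) - log (c + (1-c) ρ)`, and a computation gives
`d/dx LS (a - x) a = kap ρ/ρ` and `d/dx tilt (a - x) a = kap ρ` at `ρ = a - x`; also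
`tilt (1 - ρ2) (1 - ρ1) = tilt ρ1 ρ2` (`gap_mul`), so
`d/dx LS (1 - a) (1 - a + x) = kap ρ/(1 - ρ)` at `ρ = a - x`. In other words
`tilt ρ1 ρ2 = ∫_{ρ1}^{ρ2} kap`, `LS ρ1 ρ2 = ∫_{ρ1}^{ρ2} kap ρ/ρ dρ`.

* `expo_le`: let `F x = M LS (a-x) a + N LS (1-a) (1-a+x) - z tilt (a-x) a`, `F 0 = 0`,
  `F' x = kap ρ (M/ρ + N/(1-ρ) - z) ≤ kap ρ (z1 - z2 - D x) ≤ z1 - z2/gK - D x/gK` (`ρ = a - x`).
  Compare `F x` with `(z1 - z2/gK) x - D x²/(2 gK)` (monotonicity of the difference).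
* `expo_ge`: `F x = z0 tilt (b-x) b - M LS (b-x) b - N LS (1-b) (1-b+x)`, `x = b - a`;
  `F' x = kap ρ (z0 - M/ρ - N/(1-ρ)) ≤ - z2/gK`.
* `mgf_cent_up`: for `0 ≤ x ≤ ρ/2`: `log ∫ exp (tilt (ρ-x) ρ (y - 1/ρ)) d(bE ρ)
  = LS (ρ-x) ρ - tilt (ρ-x) ρ/ρ = ∫_0^x kap(ρ-v) v/(ρ(ρ-v)) dv ≤ x²/ρ²` (`expo_le` with `M = 1`,
  `N = 0`, or directly), and `tilt (ρ-x) ρ ≥ x/gK`; every `0 < θ ≤ ρ/(2 gK)` is `tilt (ρ-x) ρ` for
  some `0 < x ≤ gK θ ≤ ρ/2` (intermediate value theorem), so the logarithm is at most `gK² θ²/ρ²`.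
  (Alternative without the intermediate value theorem: the closed formula `geo_mgf`.)
* `mgf_cent_down`: `exp (-θ y) ≤ 1 - θ y + θ² y²/2` for `y ≥ 0`, so with `bE_mean`, `bE_sq`:
  `∫ exp (-θ y) ≤ exp (-θ/ρ + θ² gK/ρ²)`, and `gK ≤ gK²`.
-/

namespace BGG

open MeasureTheory ProbabilityTheory BGE

variable [GeoPar]

noncomputable def tilt (ρ1 ρ2 : ℝ) : ℝ := Real.log (gap ρ1 / gap ρ2) / gs

noncomputable def LS (ρ1 ρ2 : ℝ) : ℝ :=
  Real.log ((1 - gap ρ2) / (1 - gap ρ1)) + gd * tilt ρ1 ρ2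

private theorem mono_aux {f f' : ℝ → ℝ} {a b : ℝ} (hab : a ≤ b)
    (hf : ∀ x, a ≤ x → x ≤ b → HasDerivAt f (f' x) x)
    (h : ∀ x, a ≤ x → x ≤ b → 0 ≤ f' x) : f a ≤ f b := by
  have h1 : MonotoneOn f (Set.Icc a b) := by
    apply monotoneOn_of_deriv_nonneg (convex_Icc a b)
    · intro x hx
      exact (hf x hx.1 hx.2).continuousAt.continuousWithinAt
    · intro x hx
      rw [interior_Icc] at hx
      exact (hf x hx.1.le hx.2.le).differentiableAt.differentiableWithinAt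
    · intro x hx
      rw [interior_Icc] at hx
      rw [(hf x hx.1.le hx.2.le).deriv]
      exact h x hx.1.le hx.2.le
  exact h1 (Set.left_mem_Icc.2 hab) (Set.right_mem_Icc.2 hab) hab

private theorem den_pos' {ρ : ℝ} (h0 : 0 ≤ ρ) (h1 : ρ ≤ 1) : 0 < ρ + gc * (1 - ρ) := by
  have h2 := gc_pos
  have h3 := gc_lt
  nlinarith

private theorem num_pos' {ρ : ℝ} (h0 : 0 ≤ ρ) (h1 : ρ ≤ 1) : 0 < gc * ρ + (1 - ρ) := by
  have h2 := gc_pos
  have h3 := gc_lt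
  nlinarith

private theorem gs_c' : gs = (1 - gc ^ 2) / gc := by
  rw [gc_sq]
  rfl

private theorem c2_pos : 0 < 1 - gc ^ 2 := by
  have h2 := gc_pos
  have h3 := gc_lt
  nlinarith

/-- `kap` as a fraction -/
private theorem kap_eq {ρ : ℝ} :
    kap ρ = gc / ((gc * ρ + (1 - ρ)) * (ρ + gc * (1 - ρ))) := by
  have h2 := gc_pos
  unfold kap
  rw [gk_eq]
  have e : (gc * ρ + (1 - ρ)) * (ρ + gc * (1 - ρ)) =
      gc * (1 + (1 - gc) ^ 2 / gc * (ρ * (1 - ρ))) := by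
    field_simp
    ring
  rw [e, ← div_div, div_self h2.ne']

theorem kap_le {ρ : ℝ} (h0 : 0 ≤ ρ) (h1 : ρ ≤ 1) : kap ρ ≤ 1 := by
  unfold kap
  have h2 : 0 ≤ gk * (ρ * (1 - ρ)) := mul_nonneg gk_nonneg (mul_nonneg h0 (by linarith))
  rw [div_le_one (by linarith)]
  linarith

theorem le_kap {ρ : ℝ} (h0 : 0 ≤ ρ) (h1 : ρ ≤ 1) : 1 / gK ≤ kap ρ := by
  unfold kap
  have h2 : 0 ≤ gk * (ρ * (1 - ρ)) := mul_nonneg gk_nonneg (mul_nonneg h0 (by linarith))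
  apply one_div_le_one_div_of_le (by linarith)
  rw [gK_eq]
  have h3 : gk * (ρ * (1 - ρ)) ≤ gk * (1 / 4) :=
    mul_le_mul_of_nonneg_left (by nlinarith [sq_nonneg (ρ - 1 / 2)]) gk_nonneg
  linarith

private theorem gK_pos : 0 < gK := by linarith [gK_ge]

private theorem kap_nn {ρ : ℝ} (h0 : 0 ≤ ρ) (h1 : ρ ≤ 1) : 0 ≤ kap ρ :=
  le_trans (by have := gK_pos; positivity) (le_kap h0 h1)

/-- primitive of `kap` -/
private noncomputable def Gf (ρ : ℝ) : ℝ :=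
  (Real.log (ρ + gc * (1 - ρ)) - Real.log (gc * ρ + (1 - ρ)) - Real.log gc) / gs

/-- primitive of `kap ρ/ρ` -/
private noncomputable def Hf (ρ : ℝ) : ℝ :=
  Real.log ρ + Real.log (1 - gc ^ 2) - Real.log (ρ + gc * (1 - ρ)) + (1 - gc) * Gf ρ

private theorem log_gap {ρ : ℝ} (h0 : 0 ≤ ρ) (h1 : ρ ≤ 1) :
    Real.log (gap ρ) = -(gs * Gf ρ) := by
  have h2 := gc_pos
  have h3 := den_pos' h0 h1
  have h4 := num_pos' h0 h1
  have h5 := gs_pos
  unfold gap Gf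
  rw [Real.log_div (mul_pos h2 h4).ne' h3.ne', Real.log_mul h2.ne' h4.ne', mul_div_cancel₀ _ h5.ne']
  ring

private theorem tilt_eq {ρ1 ρ2 : ℝ} (h0 : 0 ≤ ρ1) (h0' : ρ1 ≤ 1) (h1 : 0 ≤ ρ2) (h2 : ρ2 ≤ 1) :
    tilt ρ1 ρ2 = Gf ρ2 - Gf ρ1 := by
  have h5 := gs_pos
  unfold tilt
  rw [Real.log_div (gap_pos h0 h0').ne' (gap_pos h1 h2).ne', log_gap h0 h0', log_gap h1 h2]
  field_simp
  ring

private theorem log_one_sub {ρ : ℝ} (h0 : 0 < ρ) (h1 : ρ ≤ 1) :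
    Real.log (1 - gap ρ) = Real.log ρ + Real.log (1 - gc ^ 2) - Real.log (ρ + gc * (1 - ρ)) := by
  have h3 := den_pos' h0.le h1
  rw [one_sub_gap h0.le h1, ← gc_sq, Real.log_div (mul_pos h0 c2_pos).ne' h3.ne',
    Real.log_mul h0.ne' c2_pos.ne']

private theorem LS_eq {ρ1 ρ2 : ℝ} (h0 : 0 < ρ1) (h0' : ρ1 ≤ 1) (h1 : 0 < ρ2) (h2 : ρ2 ≤ 1) :
    LS ρ1 ρ2 = Hf ρ2 - Hf ρ1 := by
  unfold LS
  have e1 := gap_lt h0 h0'
  have e2 := gap_lt h1 h2
  rw [Real.log_div (by linarith) (by linarith), log_one_sub h0 h0', log_one_sub h1 h2,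
    tilt_eq h0.le h0' h1.le h2, gd_eq]
  unfold Hf
  ring

private theorem hasDerivAt_Gf {ρ : ℝ} (h0 : 0 ≤ ρ) (h1 : ρ ≤ 1) :
    HasDerivAt Gf (kap ρ) ρ := by
  have h2 := gc_pos
  have h3 := den_pos' h0 h1
  have h4 := num_pos' h0 h1
  have h5 := c2_pos
  have d1 : HasDerivAt (fun x : ℝ => x + gc * (1 - x)) (1 + gc * (0 - 1)) ρ :=
    (hasDerivAt_id' ρ).add (((hasDerivAt_const ρ (1 : ℝ)).sub (hasDerivAt_id' ρ)).const_mul gc)
  have d2 : HasDerivAt (fun x : ℝ => gc * x + (1 - x)) (gc * 1 + (0 - 1)) ρ :=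
    ((hasDerivAt_id' ρ).const_mul gc).add ((hasDerivAt_const ρ (1 : ℝ)).sub (hasDerivAt_id' ρ))
  have d3 := (((d1.log h3.ne').sub (d2.log h4.ne')).sub_const (Real.log gc)).div_const gs
  have e : kap ρ = ((1 + gc * (0 - 1)) / (ρ + gc * (1 - ρ)) -
      (gc * 1 + (0 - 1)) / (gc * ρ + (1 - ρ))) / gs := by
    rw [kap_eq, gs_c']
    field_simp
    ring
  rw [e]
  exact d3

private theorem hasDerivAt_Hf {ρ : ℝ} (h0 : 0 < ρ) (h1 : ρ ≤ 1) :
    HasDerivAt Hf (kap ρ / ρ) ρ := by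
  have h2 := gc_pos
  have h3 := den_pos' h0.le h1
  have h4 := num_pos' h0.le h1
  have d1 : HasDerivAt (fun x : ℝ => x + gc * (1 - x)) (1 + gc * (0 - 1)) ρ :=
    (hasDerivAt_id' ρ).add (((hasDerivAt_const ρ (1 : ℝ)).sub (hasDerivAt_id' ρ)).const_mul gc)
  have d2 := ((((hasDerivAt_id' ρ).log h0.ne').add_const (Real.log (1 - gc ^ 2))).sub
    (d1.log h3.ne')).add ((hasDerivAt_Gf h0.le h1).const_mul (1 - gc))
  have e : kap ρ / ρ = 1 / ρ - (1 + gc * (0 - 1)) / (ρ + gc * (1 - ρ)) + (1 - gc) * kap ρ := by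
    rw [kap_eq]
    field_simp
    ring
  rw [e]
  exact d2

theorem tilt_le {ρ1 ρ2 : ℝ} (h0 : 0 ≤ ρ1) (h1 : ρ1 ≤ ρ2) (h2 : ρ2 ≤ 1) :
    tilt ρ1 ρ2 ≤ ρ2 - ρ1 := by
  rw [tilt_eq h0 (h1.trans h2) (h0.trans h1) h2]
  have h := mono_aux (f := fun x => x - Gf x) (f' := fun x => 1 - kap x) h1
    (fun x hx hx' => (hasDerivAt_id' x).sub (hasDerivAt_Gf (h0.trans hx) (hx'.trans h2)))
    (fun x hx hx' => by
      have := kap_le (h0.trans hx) (hx'.trans h2)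
      linarith)
  linarith

theorem le_tilt {ρ1 ρ2 : ℝ} (h0 : 0 ≤ ρ1) (h1 : ρ1 ≤ ρ2) (h2 : ρ2 ≤ 1) :
    (ρ2 - ρ1) / gK ≤ tilt ρ1 ρ2 := by
  rw [tilt_eq h0 (h1.trans h2) (h0.trans h1) h2]
  have h := mono_aux (f := fun x => Gf x - x / gK) (f' := fun x => kap x - 1 / gK) h1
    (fun x hx hx' => (hasDerivAt_Gf (h0.trans hx) (hx'.trans h2)).sub
      ((hasDerivAt_id' x).div_const gK))
    (fun x hx hx' => by
      have := le_kap (h0.trans hx) (hx'.trans h2)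
      linarith)
  rw [sub_div]
  linarith

theorem tilt_pos {ρ1 ρ2 : ℝ} (h0 : 0 ≤ ρ1) (h1 : ρ1 < ρ2) (h2 : ρ2 ≤ 1) : 0 < tilt ρ1 ρ2 :=
  lt_of_lt_of_le (div_pos (by linarith) gK_pos) (le_tilt h0 h1.le h2)

theorem tilt_symm {ρ1 ρ2 : ℝ} (h0 : 0 ≤ ρ1) (h1 : ρ1 ≤ ρ2) (h2 : ρ2 ≤ 1) :
    tilt (1 - ρ2) (1 - ρ1) = tilt ρ1 ρ2 := by
  rw [tilt_eq h0 (h1.trans h2) (h0.trans h1) h2,
    tilt_eq (by linarith) (by linarith) (by linarith) (by linarith)]
  have e : ∀ ρ : ℝ, Gf (1 - ρ) =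
      (Real.log (gc * ρ + (1 - ρ)) - Real.log (ρ + gc * (1 - ρ)) - Real.log gc) / gs := by
    intro ρ
    unfold Gf
    have e1 : (1 - ρ) + gc * (1 - (1 - ρ)) = gc * ρ + (1 - ρ) := by ring
    have e2 : gc * (1 - ρ) + (1 - (1 - ρ)) = ρ + gc * (1 - ρ) := by ring
    rw [e1, e2]
  rw [e, e]
  unfold Gf
  have h5 := gs_pos
  field_simp
  ring

private theorem exp_tilt {ρ1 ρ2 : ℝ} (h0 : 0 ≤ ρ1) (h1 : ρ1 ≤ ρ2) (h2 : ρ2 ≤ 1) :
    Real.exp (gs * tilt ρ1 ρ2) = gap ρ1 / gap ρ2 := by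
  unfold tilt
  rw [mul_div_cancel₀ _ gs_pos.ne',
    Real.exp_log (div_pos (gap_pos h0 (h1.trans h2)) (gap_pos (h0.trans h1) h2))]

theorem mgf_up {ρ1 ρ2 : ℝ} (h0 : 0 < ρ1) (h1 : ρ1 ≤ ρ2) (h2 : ρ2 ≤ 1) :
    Integrable (fun x => Real.exp (tilt ρ1 ρ2 * x)) (bE ρ2) ∧
      ∫ x, Real.exp (tilt ρ1 ρ2 * x) ∂(bE ρ2) = Real.exp (LS ρ1 ρ2) := by
  have g1 := gap_pos h0.le (h1.trans h2)
  have g2 := gap_pos (h0.le.trans h1) h2
  have l1 := gap_lt h0 (h1.trans h2)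
  have l2 := gap_lt (h0.trans_le h1) h2
  have e : gap ρ2 * Real.exp (gs * tilt ρ1 ρ2) = gap ρ1 := by
    rw [exp_tilt h0.le h1 h2, mul_div_cancel₀ _ g2.ne']
  refine ⟨geo_mgf_int g2 l2 (by rw [e]; exact l1), ?_⟩
  have h := geo_mgf g2 l2 (by rw [e]; exact l1)
  rw [e] at h
  unfold bE LS
  rw [h, Real.exp_add, Real.exp_log (div_pos (by linarith) (by linarith))]
  ring

theorem mgf_down {ρ1 ρ2 : ℝ} (h0 : 0 < ρ1) (h1 : ρ1 ≤ ρ2) (h2 : ρ2 ≤ 1) :
    Integrable (fun x => Real.exp (-tilt ρ1 ρ2 * x)) (bE ρ1) ∧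
      ∫ x, Real.exp (-tilt ρ1 ρ2 * x) ∂(bE ρ1) = Real.exp (-LS ρ1 ρ2) := by
  have g1 := gap_pos h0.le (h1.trans h2)
  have g2 := gap_pos (h0.le.trans h1) h2
  have l1 := gap_lt h0 (h1.trans h2)
  have l2 := gap_lt (h0.trans_le h1) h2
  have e : gap ρ1 * Real.exp (gs * -tilt ρ1 ρ2) = gap ρ2 := by
    rw [mul_neg, Real.exp_neg, exp_tilt h0.le h1 h2, inv_div, mul_div_cancel₀ _ g1.ne']
  refine ⟨geo_mgf_int g1 l1 (by rw [e]; exact l2), ?_⟩
  have h := geo_mgf g1 l1 (by rw [e]; exact l2)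
  rw [e] at h
  have e3 : Real.exp (-LS ρ1 ρ2) = Real.exp (gd * -tilt ρ1 ρ2) * (1 - gap ρ1) / (1 - gap ρ2) := by
    unfold LS
    rw [neg_add, Real.exp_add, ← Real.log_inv, Real.exp_log, inv_div]
    · rw [mul_neg]
      ring
    · rw [inv_div]
      exact div_pos (by linarith) (by linarith)
  unfold bE
  rw [h, e3]

private theorem hasDerivAt_Hr {ρ : ℝ} (h0 : 0 ≤ ρ) (h1 : ρ < 1) :
    HasDerivAt (fun x => Hf (1 - x)) (-(kap ρ / (1 - ρ))) ρ := by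
  have h := (hasDerivAt_Hf (ρ := 1 - ρ) (by linarith) (by linarith)).comp ρ
    ((hasDerivAt_const ρ (1 : ℝ)).sub (hasDerivAt_id' ρ))
  have e : kap (1 - ρ) = kap ρ := by
    unfold kap
    have : (1 - ρ) * (1 - (1 - ρ)) = ρ * (1 - ρ) := by ring
    rw [this]
  have e2 : -(kap ρ / (1 - ρ)) = kap (1 - ρ) / (1 - ρ) * (0 - 1) := by
    rw [e]
    ring
  rw [e2]
  exact h

theorem expo_le {a u M N z z1 z2 D : ℝ} (hu : 0 < u) (hua : u < a) (ha : a < 1) (hz1 : 0 ≤ z1)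
    (hz2 : 0 ≤ z2) (hD : 0 ≤ D)
    (hb : ∀ ρ : ℝ, a - u ≤ ρ → ρ ≤ a → M / ρ + N / (1 - ρ) - z ≤ z1 - z2 - D * (a - ρ)) :
    M * LS (a - u) a + N * LS (1 - a) (1 - a + u) - z * tilt (a - u) a ≤
      z1 * u - z2 * u / gK - D * u ^ 2 / (2 * gK) := by
  have hK := gK_pos
  rw [LS_eq (by linarith) (by linarith) (by linarith) ha.le,
    LS_eq (by linarith) (by linarith) (by linarith) (by linarith),
    tilt_eq (by linarith) (by linarith) (by linarith) ha.le]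
  have h := mono_aux (a := a - u) (b := a)
    (f := fun x => z * Gf x - M * Hf x + N * Hf (1 - x) -
      (z1 * (a - x) - z2 * (a - x) / gK - D * (a - x) ^ 2 / (2 * gK)))
    (f' := fun x => z * kap x - M * (kap x / x) + N * (-(kap x / (1 - x))) -
      (z1 * (0 - 1) - z2 * (0 - 1) / gK - D * (2 * (a - x) * (0 - 1)) / (2 * gK)))
    (by linarith)
    (by
      intro x hx hx'
      have d0 : HasDerivAt (fun y : ℝ => a - y) (0 - 1) x :=
        (hasDerivAt_const x a).sub (hasDerivAt_id' x)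
      have d1 : HasDerivAt (fun y : ℝ => (a - y) ^ 2) (2 * (a - x) * (0 - 1)) x := by
        have h3 := d0.pow 2
        have e9 : ((2 : ℕ) : ℝ) * (a - x) ^ (2 - 1) * (0 - 1) = 2 * (a - x) * (0 - 1) := by norm_num
        rw [e9] at h3
        exact h3
      exact (((hasDerivAt_Gf (by linarith) (by linarith)).const_mul z).sub
        ((hasDerivAt_Hf (by linarith) (by linarith)).const_mul M)).add
        ((hasDerivAt_Hr (by linarith) (by linarith)).const_mul N) |>.sub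
        (((d0.const_mul z1).sub ((d0.const_mul z2).div_const gK)).sub
          ((d1.const_mul D).div_const (2 * gK))))
    (by
      intro x hx hx'
      have k1 := kap_le (ρ := x) (by linarith) (by linarith)
      have k2 := le_kap (ρ := x) (by linarith) (by linarith)
      have k0 := kap_nn (ρ := x) (by linarith) (by linarith)
      have hh := mul_le_mul_of_nonneg_left (hb x hx hx') k0
      have e1 : z * kap x - M * (kap x / x) + N * (-(kap x / (1 - x))) =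
          -(kap x * (M / x + N / (1 - x) - z)) := by ring
      have e2 : D * (2 * (a - x) * (0 - 1)) / (2 * gK) = -(D * (a - x) * (1 / gK)) := by
        field_simp
        ring
      have e3 : z2 * (0 - 1) / gK = -(z2 * (1 / gK)) := by ring
      rw [e1, e2, e3]
      have m1 : 0 ≤ z1 * (1 - kap x) := mul_nonneg hz1 (by linarith)
      have m2 : 0 ≤ z2 * (kap x - 1 / gK) := mul_nonneg hz2 (by linarith)
      have m3 : 0 ≤ D * (a - x) * (kap x - 1 / gK) :=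
        mul_nonneg (mul_nonneg hD (by linarith)) (by linarith)
      nlinarith [hh, m1, m2, m3])
  have e1 : a - (a - u) = u := by ring
  have e2 : 1 - (a - u) = 1 - a + u := by ring
  rw [e1, e2, sub_self] at h
  have e3 : z1 * 0 - z2 * 0 / gK - D * (0 : ℝ) ^ 2 / (2 * gK) = 0 := by simp
  rw [e3] at h
  linarith

theorem expo_ge {a b M N z0 z2 : ℝ} (h0 : 0 < a) (hab : a < b) (hb1 : b < 1) (hz2 : 0 ≤ z2)
    (hb : ∀ r : ℝ, a ≤ r → r ≤ b → z0 + z2 ≤ M / r + N / (1 - r)) :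
    z0 * tilt a b - M * LS a b - N * LS (1 - b) (1 - a) ≤ -(z2 * (b - a) / gK) := by
  have hK := gK_pos
  rw [LS_eq h0 (by linarith) (by linarith) hb1.le,
    LS_eq (by linarith) (by linarith) (by linarith) (by linarith),
    tilt_eq (by linarith) (by linarith) (by linarith) hb1.le]
  have h := mono_aux (a := a) (b := b)
    (f := fun x => M * Hf x - z0 * Gf x - N * Hf (1 - x) - z2 * x / gK)
    (f' := fun x => M * (kap x / x) - z0 * kap x - N * (-(kap x / (1 - x))) - z2 * 1 / gK)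
    hab.le
    (by
      intro x hx hx'
      exact (((hasDerivAt_Hf (by linarith) (by linarith)).const_mul M).sub
        ((hasDerivAt_Gf (by linarith) (by linarith)).const_mul z0)).sub
        ((hasDerivAt_Hr (by linarith) (by linarith)).const_mul N) |>.sub
        (((hasDerivAt_id' x).const_mul z2).div_const gK))
    (by
      intro x hx hx'
      have k2 := le_kap (ρ := x) (by linarith) (by linarith)
      have k0 := kap_nn (ρ := x) (by linarith) (by linarith)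
      have hh := mul_le_mul_of_nonneg_left (hb x hx hx') k0
      have e1 : M * (kap x / x) - z0 * kap x - N * (-(kap x / (1 - x))) - z2 * 1 / gK =
          kap x * (M / x + N / (1 - x)) - kap x * z0 - z2 * (1 / gK) := by ring
      rw [e1]
      have m2 : 0 ≤ z2 * (kap x - 1 / gK) := mul_nonneg hz2 (by linarith)
      nlinarith [hh, m2])
  have e4 : z2 * (b - a) / gK = z2 * b / gK - z2 * a / gK := by ring
  rw [e4]
  linarith

theorem mgf_cent_up {ρ θ : ℝ} (h0 : 0 < ρ) (h1 : ρ ≤ 1) (hθ : 0 ≤ θ) (hθρ : θ ≤ ρ / (2 * gK)) :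
    Integrable (fun x => Real.exp (θ * (x - 1 / ρ))) (bE ρ) ∧
      ∫ x, Real.exp (θ * (x - 1 / ρ)) ∂(bE ρ) ≤ Real.exp (gK ^ 2 * θ ^ 2 / ρ ^ 2) := by
  have hK := gK_pos
  -- the parameter
  obtain ⟨r, hr, hrθ⟩ : ∃ r ∈ Set.Icc (ρ / 2) ρ, Gf ρ - Gf r = θ := by
    have hc : ContinuousOn (fun r => Gf ρ - Gf r) (Set.Icc (ρ / 2) ρ) := by
      intro x hx
      exact (continuousAt_const.sub
        (hasDerivAt_Gf (by linarith [hx.1]) (hx.2.trans h1)).continuousAt).continuousWithinAt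
    have hi := intermediate_value_Icc' (a := ρ / 2) (b := ρ) (by linarith) hc
    have hm : θ ∈ Set.Icc (Gf ρ - Gf ρ) (Gf ρ - Gf (ρ / 2)) := by
      constructor
      · rw [sub_self]
        exact hθ
      · have h3 := le_tilt (ρ1 := ρ / 2) (ρ2 := ρ) (by linarith) (by linarith) h1
        rw [tilt_eq (by linarith) (by linarith) (by linarith) h1] at h3
        have e : (ρ - ρ / 2) / gK = ρ / (2 * gK) := by
          field_simp
          ring
        linarith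
    obtain ⟨r, hr, he⟩ := hi hm
    exact ⟨r, hr, he⟩
  have hr0 : 0 < r := by linarith [hr.1]
  have ht : tilt r ρ = θ := by
    rw [tilt_eq hr0.le (hr.2.trans h1) h0.le h1, hrθ]
  have hm := mgf_up hr0 hr.2 h1
  rw [ht] at hm
  have e : (fun x => Real.exp (θ * (x - 1 / ρ))) =
      fun x => Real.exp (θ * x) * Real.exp (-(θ / ρ)) := by
    funext x
    rw [← Real.exp_add]
    congr 1
    ring
  rw [e]
  refine ⟨hm.1.mul_const _, ?_⟩
  rw [integral_mul_const, hm.2, ← Real.exp_add, Real.exp_le_exp]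
  -- the exponent
  have hx : ρ - r ≤ gK * θ := by
    have h3 := le_tilt hr0.le hr.2 h1
    rw [ht, div_le_iff₀ hK] at h3
    linarith
  have hL : LS r ρ - θ / ρ ≤ (ρ - r) ^ 2 / ρ ^ 2 := by
    rw [← ht, LS_eq hr0 (hr.2.trans h1) h0 h1, tilt_eq hr0.le (hr.2.trans h1) h0.le h1]
    have h := mono_aux (a := r) (b := ρ)
      (f := fun x => Gf x / ρ - Hf x - (ρ - x) ^ 2 / ρ ^ 2)
      (f' := fun x => kap x / ρ - kap x / x - (2 * (ρ - x) * (0 - 1)) / ρ ^ 2)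
      hr.2
      (by
        intro x hx hx'
        have d0 : HasDerivAt (fun y : ℝ => ρ - y) (0 - 1) x :=
          (hasDerivAt_const x ρ).sub (hasDerivAt_id' x)
        have d1 : HasDerivAt (fun y : ℝ => (ρ - y) ^ 2) (2 * (ρ - x) * (0 - 1)) x := by
          have h3 := d0.pow 2
          have e9 : ((2 : ℕ) : ℝ) * (ρ - x) ^ (2 - 1) * (0 - 1) = 2 * (ρ - x) * (0 - 1) := by
            norm_num
          rw [e9] at h3
          exact h3
        exact (((hasDerivAt_Gf (by linarith) (by linarith)).div_const ρ).sub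
          (hasDerivAt_Hf (by linarith) (by linarith))).sub (d1.div_const (ρ ^ 2)))
      (by
        intro x hx hx'
        have hx0 : 0 < x := by linarith
        have hx2 : ρ / 2 ≤ x := by linarith [hr.1]
        have k1 := kap_le (ρ := x) (by linarith) (by linarith)
        have k0 := kap_nn (ρ := x) (by linarith) (by linarith)
        have e1 : kap x / ρ - kap x / x - (2 * (ρ - x) * (0 - 1)) / ρ ^ 2 =
            (ρ - x) * (2 / ρ ^ 2 - kap x / (ρ * x)) := by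
          field_simp
          ring
        rw [e1]
        apply mul_nonneg (by linarith)
        rw [sub_nonneg, div_le_div_iff₀ (by positivity) (by positivity)]
        have h5 : kap x * ρ ^ 2 ≤ 1 * ρ ^ 2 := mul_le_mul_of_nonneg_right k1 (by positivity)
        have h6 : ρ ^ 2 ≤ 2 * (ρ * x) := by nlinarith
        linarith)
    rw [sub_self] at h
    have e5 : (0 : ℝ) ^ 2 / ρ ^ 2 = 0 := by simp
    rw [e5] at h
    have e6 : (Gf ρ - Gf r) / ρ = Gf ρ / ρ - Gf r / ρ := by ring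
    rw [e6]
    linarith
  have h7 : (ρ - r) ^ 2 ≤ (gK * θ) ^ 2 := by
    apply pow_le_pow_left₀ (by linarith [hr.2]) hx
  calc LS r ρ + -(θ / ρ) = LS r ρ - θ / ρ := by ring
    _ ≤ (ρ - r) ^ 2 / ρ ^ 2 := hL
    _ ≤ (gK * θ) ^ 2 / ρ ^ 2 := div_le_div_of_nonneg_right h7 (by positivity)
    _ = gK ^ 2 * θ ^ 2 / ρ ^ 2 := by rw [mul_pow]

private theorem exp_neg_le {y : ℝ} (hy : 0 ≤ y) : Real.exp (-y) ≤ 1 - y + y ^ 2 / 2 := by
  have h := mono_aux (a := 0) (b := y)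
    (f := fun x => 1 - x + x ^ 2 / 2 - Real.exp (-x))
    (f' := fun x => 0 - 1 + 2 * x / 2 - Real.exp (-x) * (-1)) hy
    (by
      intro x hx hx'
      have d1 : HasDerivAt (fun y : ℝ => y ^ 2) (2 * x) x := by
        have h3 := hasDerivAt_pow 2 x
        have e9 : ((2 : ℕ) : ℝ) * x ^ (2 - 1) = 2 * x := by norm_num
        rw [e9] at h3
        exact h3
      exact ((((hasDerivAt_const x (1 : ℝ)).sub (hasDerivAt_id' x)).add (d1.div_const 2)).sub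
        ((hasDerivAt_neg x).exp)))
    (by
      intro x hx hx'
      have := Real.add_one_le_exp (-x)
      linarith)
  simp only [neg_zero, Real.exp_zero] at h
  norm_num at h
  linarith

theorem mgf_cent_down {ρ θ : ℝ} (h0 : 0 < ρ) (h1 : ρ ≤ 1) (hθ : 0 ≤ θ) :
    Integrable (fun x => Real.exp (-(θ * (x - 1 / ρ)))) (bE ρ) ∧
      ∫ x, Real.exp (-(θ * (x - 1 / ρ))) ∂(bE ρ) ≤ Real.exp (gK ^ 2 * θ ^ 2 / ρ ^ 2) := by
  have hK := gK_pos
  have g1 := gap_pos h0.le h1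
  have l1 := gap_lt h0 h1
  have hlt : gap ρ * Real.exp (gs * -θ) < 1 := by
    have h2 : Real.exp (gs * -θ) ≤ 1 := by
      rw [Real.exp_le_one_iff, mul_neg]
      have := mul_nonneg gs_pos.le hθ
      linarith
    have h3 := mul_le_mul_of_nonneg_left h2 g1.le
    linarith
  have hi : Integrable (fun x => Real.exp (-θ * x)) (bE ρ) := geo_mgf_int g1 l1 hlt
  have e : (fun x => Real.exp (-(θ * (x - 1 / ρ)))) =
      fun x => Real.exp (-θ * x) * Real.exp (θ / ρ) := by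
    funext x
    rw [← Real.exp_add]
    congr 1
    ring
  rw [e]
  refine ⟨hi.mul_const _, ?_⟩
  rw [integral_mul_const]
  have i1 : Integrable (fun x : ℝ => x) (bE ρ) := by simpa using bE_int h0 h1 1
  have i2 : Integrable (fun x : ℝ => x ^ 2) (bE ρ) := bE_int h0 h1 2
  have ic : Integrable (fun _ : ℝ => (1 : ℝ)) (bE ρ) := integrable_const 1
  have hle : ∫ x, Real.exp (-θ * x) ∂(bE ρ) ≤
      ∫ x, (1 - θ * x + θ ^ 2 / 2 * x ^ 2) ∂(bE ρ) := by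
    apply integral_mono_ae hi ((ic.sub (i1.const_mul θ)).add (i2.const_mul (θ ^ 2 / 2)))
    have hn : ∀ᵐ x ∂(bE ρ), 0 ≤ x := geo_nonneg _
    filter_upwards [hn] with x hx
    have h3 := exp_neg_le (mul_nonneg hθ hx)
    have e1 : -θ * x = -(θ * x) := by ring
    rw [e1]
    calc Real.exp (-(θ * x)) ≤ 1 - θ * x + (θ * x) ^ 2 / 2 := h3
      _ = 1 - θ * x + θ ^ 2 / 2 * x ^ 2 := by ring
  have hval : ∫ x, (1 - θ * x + θ ^ 2 / 2 * x ^ 2) ∂(bE ρ) =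
      1 - θ * (1 / ρ) + θ ^ 2 / 2 * ∫ x, x ^ 2 ∂(bE ρ) := by
    have ia : Integrable (fun x : ℝ => 1 - θ * x) (bE ρ) := ic.sub (i1.const_mul θ)
    rw [integral_add ia (i2.const_mul (θ ^ 2 / 2)),
      integral_sub ic (i1.const_mul θ), integral_const_mul, integral_const_mul, bE_mean h0 h1]
    simp
  have hsq := bE_sq h0 h1
  have h5 : θ ^ 2 / 2 * ∫ x, x ^ 2 ∂(bE ρ) ≤ θ ^ 2 / 2 * (2 * gK / ρ ^ 2) :=
    mul_le_mul_of_nonneg_left hsq (by positivity)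
  have h6 : ∫ x, Real.exp (-θ * x) ∂(bE ρ) ≤ Real.exp (-(θ / ρ) + gK * θ ^ 2 / ρ ^ 2) := by
    have h7 := Real.add_one_le_exp (-(θ / ρ) + gK * θ ^ 2 / ρ ^ 2)
    have e7 : θ ^ 2 / 2 * (2 * gK / ρ ^ 2) = gK * θ ^ 2 / ρ ^ 2 := by ring
    have e8 : θ * (1 / ρ) = θ / ρ := by ring
    linarith
  calc (∫ x, Real.exp (-θ * x) ∂(bE ρ)) * Real.exp (θ / ρ)
      ≤ Real.exp (-(θ / ρ) + gK * θ ^ 2 / ρ ^ 2) * Real.exp (θ / ρ) :=
        mul_le_mul_of_nonneg_right h6 (Real.exp_pos _).le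
    _ = Real.exp (gK * θ ^ 2 / ρ ^ 2) := by
        rw [← Real.exp_add]
        congr 1
        ring
    _ ≤ Real.exp (gK ^ 2 * θ ^ 2 / ρ ^ 2) := by
        rw [Real.exp_le_exp]
        apply div_le_div_of_nonneg_right _ (by positivity)
        apply mul_le_mul_of_nonneg_right _ (by positivity)
        nlinarith [gK_ge]

end BGG
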