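import Pool.Agent.BGG.StatRow
import Pool.Agent.BGG.Calc
import Pool.Agent.BGE.MgfS

/-!
BGG / C1. Exponential moments of the passage times with boundary. Adaptation of
`Pool/Agent/BGE/MgfS.lean`.

Proof. As in BGE. We may assume `w = 0` (replace `x.2.1 i` by `x.2.1 (w + i)`, translate the bulk and
replace `m` by `m - w`). `V` = the best value of an S exit, a function of the S weights and of the
bulk only; `L = bl a (1 - a)`, `V ≤ L (m, n)` and `L (m, n) - L (0, n)` is the sum of the `m`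
increments of the row `n`, i.i.d. `bE a` (`stat_row`); `L (0, n) = ∑_{j ≤ n} bw (1-a) (x.2.2 j)`. With
`t = tilt (a-u) a = tilt (1-a) (1-a+u)` (`tilt_symm`), `V` being independent of the W weights:
`E e^{t V} · E e^{-t L (0,n)} ≤ E e^{t (L (m,n) - L (0,n))}`, i.e. by `mgf_up`, `mgf_down`
`E e^{t V} exp (-n LS (1-a) (1-a+u)) ≤ exp (m LS (a-u) a)`. By Markov's inequality the probability
is at most `exp ((m-w) LS (a-u) a + n LS (1-a) (1-a+u) - z t)`; now use `expo_le`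
(`M = m - w`, `N = n`).
-/

namespace BGG

open MeasureTheory ProbabilityTheory BGE
open scoped ENNReal

variable [GeoPar]

/-- the stationary passage times -/
noncomputable def mLb (a : ℝ) (x : SW) (i j : ℕ) : ℝ :=
  bl a (1 - a) x ((i : ℤ), (j : ℤ))

theorem mLb_col (a : ℝ) (x : SW) (j : ℕ) :
    mLb a x 0 j = ∑ k ∈ Finset.Icc 1 j, bw (1 - a) (x.2.2 k) := by
  unfold mLb bl
  have h := Lcol x.1 (fun i => bw a (x.2.1 i)) (fun j => bw (1 - a) (x.2.2 j)) 0 j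
  have h2 : ((((0 : ℕ) : ℤ), (j : ℤ)) : ℤ × ℤ) = ((0 : ℤ × ℤ).1, (0 : ℤ × ℤ).2 + (j : ℤ)) := by
    simp
  rw [h2, h]

private theorem mlint_split (F : (ℤ × ℤ → ℝ) × (ℕ → ℝ) → ℝ≥0∞) (hF : Measurable F)
    (G : (ℕ → ℝ) → ℝ≥0∞) (hG : Measurable G) :
    ∫⁻ x, F (x.1, x.2.1) * G x.2.2 ∂muSW = (∫⁻ x, F (x.1, x.2.1) ∂muSW) * ∫⁻ y, G y ∂(PI ℕ) := by
  have key : ∀ G : (ℕ → ℝ) → ℝ≥0∞, Measurable G → ∫⁻ x, F (x.1, x.2.1) * G x.2.2 ∂muSW =
      (∫⁻ ω, ∫⁻ s, F (ω, s) ∂(PI ℕ) ∂PG) * ∫⁻ y, G y ∂(PI ℕ) := by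
    intro G hG
    unfold muSW
    rw [lintegral_prod _ (by fun_prop)]
    have h1 : ∀ ω : ℤ × ℤ → ℝ, ∫⁻ p : (ℕ → ℝ) × (ℕ → ℝ), F (ω, p.1) * G p.2 ∂((PI ℕ).prod (PI ℕ)) =
        (∫⁻ s, F (ω, s) ∂(PI ℕ)) * ∫⁻ y, G y ∂(PI ℕ) := by
      intro ω
      exact lintegral_prod_mul (f := fun s => F (ω, s)) (by fun_prop) hG.aemeasurable
    simp only [h1]
    rw [lintegral_mul_const]
    exact hF.lintegral_prod_right'
  rw [key G hG]
  have h2 := key (fun _ => 1) measurable_const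
  simp only [mul_one, lintegral_const, measure_univ] at h2
  rw [h2]

/-- the integral over the S side increments -/
theorem mlint_row {a : ℝ} (θ : ℝ) (ha : 0 < a) (ha1 : a < 1) (m n : ℕ) :
    ∫⁻ x, ENNReal.ofReal (Real.exp (θ * (mLb a x m n - mLb a x 0 n))) ∂muSW =
      (∫⁻ y, ENNReal.ofReal (Real.exp (θ * y)) ∂(bE a)) ^ m := by
  have h1 : ∀ x : SW, ENNReal.ofReal (Real.exp (θ * (mLb a x m n - mLb a x 0 n))) =
      (fun y : Fin m → ℝ => ∏ i, ENNReal.ofReal (Real.exp (θ * y i)))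
      ((fun (x : SW) (i : Fin m) =>
      bl a (1 - a) x ((i : ℤ) + 1, (n : ℤ)) - bl a (1 - a) x ((i : ℤ), (n : ℤ))) x) := by
    intro x
    simp only
    rw [← ofReal_exp_sum, ← Finset.mul_sum, Fin.sum_univ_eq_sum_range (fun i =>
      bl a (1 - a) x ((i : ℤ) + 1, (n : ℤ)) - bl a (1 - a) x ((i : ℤ), (n : ℤ)))]
    have h2 := Finset.sum_range_sub (fun i => mLb a x i n) m
    unfold mLb at h2 ⊢
    rw [← h2]
    push_cast
    rfl
  have hm : Measurable (fun (x : SW) (i : Fin m) =>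
      bl a (1 - a) x ((i : ℤ) + 1, (n : ℤ)) - bl a (1 - a) x ((i : ℤ), (n : ℤ))) :=
    measurable_pi_iff.2 fun i => (measurable_bl _ _ _).sub (measurable_bl _ _ _)
  simp only [h1]
  rw [← lintegral_map (f := fun y : Fin m → ℝ => ∏ i, ENNReal.ofReal (Real.exp (θ * y i)))
    (by fun_prop) hm, stat_row ha ha1 m n,
    lintegral_pi_prod (fun _ : Fin m => bE a) (fun _ y => ENNReal.ofReal (Real.exp (θ * y)))
      (fun _ => by fun_prop)]
  simp only [Finset.prod_const, Finset.card_univ, Fintype.card_fin]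

private theorem mlint_col (b s : ℝ) (n : ℕ) :
    ∫⁻ y, ENNReal.ofReal (Real.exp (s * ∑ j ∈ Finset.Icc 1 n, bw b (y j))) ∂(PI ℕ) =
      (∫⁻ y, ENNReal.ofReal (Real.exp (s * y)) ∂(bE b)) ^ n := by
  have hbw := measurable_bw b
  have h1 : ∀ y : ℕ → ℝ, ENNReal.ofReal (Real.exp (s * ∑ j ∈ Finset.Icc 1 n, bw b (y j))) =
      ∏ j ∈ Finset.Icc 1 n, ENNReal.ofReal (Real.exp (s * bw b (y j))) := by
    intro y
    rw [Finset.mul_sum, ofReal_exp_sum]
  simp only [h1]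
  unfold PI
  rw [lintegral_infinitePi_prod (fun _ : ℕ => E1) (Finset.Icc 1 n)
    (fun _ y => ENNReal.ofReal (Real.exp (s * bw b y))) (fun _ => by fun_prop)]
  have h2 : ∫⁻ y, ENNReal.ofReal (Real.exp (s * bw b y)) ∂E1 =
      ∫⁻ y, ENNReal.ofReal (Real.exp (s * y)) ∂(bE b) := by
    unfold bE geoM
    rw [lintegral_map (by fun_prop) (measurable_gqm _)]
    rfl
  rw [Finset.prod_congr rfl fun _ _ => h2]
  simp

theorem mlint_up {ρ1 ρ2 : ℝ} (h0 : 0 < ρ1) (h1 : ρ1 ≤ ρ2) (h2 : ρ2 ≤ 1) :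
    ∫⁻ y, ENNReal.ofReal (Real.exp (tilt ρ1 ρ2 * y)) ∂(bE ρ2) =
      ENNReal.ofReal (Real.exp (LS ρ1 ρ2)) := by
  obtain ⟨h3, h4⟩ := mgf_up h0 h1 h2
  rw [← h4, ofReal_integral_eq_lintegral_ofReal h3
    (Filter.Eventually.of_forall fun _ => (Real.exp_pos _).le)]

theorem mlint_down {ρ1 ρ2 : ℝ} (h0 : 0 < ρ1) (h1 : ρ1 ≤ ρ2) (h2 : ρ2 ≤ 1) :
    ∫⁻ y, ENNReal.ofReal (Real.exp (-tilt ρ1 ρ2 * y)) ∂(bE ρ1) =
      ENNReal.ofReal (Real.exp (-LS ρ1 ρ2)) := by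
  obtain ⟨h3, h4⟩ := mgf_down h0 h1 h2
  rw [← h4, ofReal_integral_eq_lintegral_ofReal h3
    (Filter.Eventually.of_forall fun _ => (Real.exp_pos _).le)]

/-- the best S exit -/
private noncomputable def mVS (a : ℝ) (m n : ℕ) (hm : (Finset.Icc 1 m).Nonempty)
    (p : (ℤ × ℤ → ℝ) × (ℕ → ℝ)) : ℝ :=
  (Finset.Icc 1 m).sup' hm fun k => (∑ i ∈ Finset.Icc 1 k, bw a (p.2 i)) +
    T p.1 ((k : ℤ), 1) ((m : ℤ), (n : ℤ))

private theorem measurable_mVS (a : ℝ) (m n : ℕ) (hm : (Finset.Icc 1 m).Nonempty) :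
    Measurable (mVS a m n hm) := by
  have hbw := measurable_bw a
  have h : mVS a m n hm = (Finset.Icc 1 m).sup' hm (fun (k : ℕ) (p : (ℤ × ℤ → ℝ) × (ℕ → ℝ)) =>
      (∑ i ∈ Finset.Icc 1 k, bw a (p.2 i)) + T p.1 ((k : ℤ), 1) ((m : ℤ), (n : ℤ))) := by
    ext p
    rw [Finset.sup'_apply]
    rfl
  rw [h]
  refine Finset.measurable_sup' hm fun k _ => ?_
  exact Measurable.add (by fun_prop) ((measurable_T _ _).comp measurable_fst)

private theorem mVS_le (a : ℝ) {m n : ℕ} (hm : (Finset.Icc 1 m).Nonempty) (hn : 1 ≤ n) (x : SW) :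
    mVS a m n hm (x.1, x.2.1) ≤ mLb a x m n := by
  unfold mVS
  refine Finset.sup'_le hm _ fun k hk => ?_
  rw [Finset.mem_Icc] at hk
  have h := exitS_le (ω := x.1) (S := fun i => bw a (x.2.1 i)) (W := fun j => bw (1 - a) (x.2.2 j))
    (c := 0) (v := ((m : ℤ), (n : ℤ))) (by simp only [Prod.snd_zero]; omega) k hk.1
    (by simp only [Prod.fst_zero]; omega)
  simp only [Prod.fst_zero, Prod.snd_zero, zero_add] at h
  exact h

private theorem mlint_VS {a u : ℝ} (hu : 0 < u) (hua : u < a) (ha1 : a < 1) {m n : ℕ}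
    (hm : (Finset.Icc 1 m).Nonempty) (hn : 1 ≤ n) :
    ∫⁻ x, ENNReal.ofReal (Real.exp (tilt (a - u) a * mVS a m n hm (x.1, x.2.1))) ∂muSW ≤
      ENNReal.ofReal (Real.exp (n * LS (1 - a) (1 - a + u) + m * LS (a - u) a)) := by
  have ha : 0 < a := hu.trans hua
  have hb : 0 < 1 - a := by linarith
  have hVm := measurable_mVS a m n hm
  set t : ℝ := tilt (a - u) a with ht
  have htp : 0 < t := tilt_pos (by linarith) (by linarith) ha1.le
  have hts : tilt (1 - a) (1 - a + u) = t := by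
    have h := tilt_symm (ρ1 := a - u) (ρ2 := a) (by linarith) (by linarith) ha1.le
    have h2 : 1 - (a - u) = 1 - a + u := by ring
    rw [h2] at h
    exact h
  have hbw := measurable_bw (1 - a)
  have h1 := mlint_split (fun p => ENNReal.ofReal (Real.exp (t * mVS a m n hm p))) (by fun_prop)
    (fun y => ENNReal.ofReal (Real.exp (-t * ∑ j ∈ Finset.Icc 1 n, bw (1 - a) (y j))))
    (by fun_prop)
  have hdown := mlint_down (ρ1 := 1 - a) (ρ2 := 1 - a + u) hb (by linarith) (by linarith)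
  rw [hts] at hdown
  rw [mlint_col (1 - a) (-t) n, hdown] at h1
  have h2 : ∫⁻ x : SW, ENNReal.ofReal (Real.exp (t * mVS a m n hm (x.1, x.2.1))) *
      ENNReal.ofReal (Real.exp (-t * ∑ j ∈ Finset.Icc 1 n, bw (1 - a) (x.2.2 j))) ∂muSW ≤
      ∫⁻ x, ENNReal.ofReal (Real.exp (t * (mLb a x m n - mLb a x 0 n))) ∂muSW := by
    refine lintegral_mono fun x => ?_
    rw [← ENNReal.ofReal_mul (Real.exp_pos _).le, ← Real.exp_add, ← mLb_col]
    refine ENNReal.ofReal_le_ofReal (Real.exp_le_exp.2 ?_)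
    have h3 := mul_le_mul_of_nonneg_left (mVS_le a hm hn x) htp.le
    linarith [mul_sub t (mLb a x m n) (mLb a x 0 n)]
  have hup := mlint_up (ρ1 := a - u) (ρ2 := a) (by linarith) (by linarith) ha1.le
  rw [← ht] at hup
  rw [h1, mlint_row t ha ha1 m n, hup] at h2
  have h3 : ENNReal.ofReal (Real.exp (n * LS (1 - a) (1 - a + u) + m * LS (a - u) a)) =
      ENNReal.ofReal (Real.exp (LS (a - u) a)) ^ m *
        ENNReal.ofReal (Real.exp (LS (1 - a) (1 - a + u))) ^ n := by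
    rw [← ENNReal.ofReal_pow (Real.exp_pos _).le, ← ENNReal.ofReal_pow (Real.exp_pos _).le,
      ← ENNReal.ofReal_mul (pow_nonneg (Real.exp_pos _).le _), ← Real.exp_nat_mul,
      ← Real.exp_nat_mul, ← Real.exp_add]
    congr 2
    ring
  rw [h3]
  have h6 : ENNReal.ofReal (Real.exp (-LS (1 - a) (1 - a + u))) ^ n *
      ENNReal.ofReal (Real.exp (LS (1 - a) (1 - a + u))) ^ n = 1 := by
    rw [← mul_pow, ← ENNReal.ofReal_mul (Real.exp_pos _).le, ← Real.exp_add]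
    simp
  calc ∫⁻ x, ENNReal.ofReal (Real.exp (t * mVS a m n hm (x.1, x.2.1))) ∂muSW
      = (∫⁻ x, ENNReal.ofReal (Real.exp (t * mVS a m n hm (x.1, x.2.1))) ∂muSW) *
        (ENNReal.ofReal (Real.exp (-LS (1 - a) (1 - a + u))) ^ n *
          ENNReal.ofReal (Real.exp (LS (1 - a) (1 - a + u))) ^ n) := by rw [h6, mul_one]
    _ = ((∫⁻ x, ENNReal.ofReal (Real.exp (t * mVS a m n hm (x.1, x.2.1))) ∂muSW) *
        ENNReal.ofReal (Real.exp (-LS (1 - a) (1 - a + u))) ^ n) *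
          ENNReal.ofReal (Real.exp (LS (1 - a) (1 - a + u))) ^ n := by rw [mul_assoc]
    _ ≤ _ := mul_le_mul_left h2 _

private theorem mmgfS_zero {a u : ℝ} (hu : 0 < u) (hua : u < a) (ha1 : a < 1) (m n : ℕ)
    (hm : 0 < m) (hn : 1 ≤ n) (z : ℝ) :
    muSW {x : SW | ∃ k : ℕ, 1 ≤ k ∧ k ≤ m ∧
      z ≤ (∑ i ∈ Finset.Icc 1 k, bw a (x.2.1 i)) + T x.1 ((k : ℤ), 1) ((m : ℤ), (n : ℤ))} ≤
      ENNReal.ofReal (Real.exp (m * LS (a - u) a + n * LS (1 - a) (1 - a + u) -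
        z * tilt (a - u) a)) := by
  have hne : (Finset.Icc 1 m).Nonempty := ⟨1, Finset.mem_Icc.2 ⟨le_rfl, hm⟩⟩
  have ha : 0 < a := hu.trans hua
  have h1 := mlint_VS hu hua ha1 hne hn
  set t : ℝ := tilt (a - u) a with ht
  have htp : 0 < t := tilt_pos (by linarith) (by linarith) ha1.le
  have h2 : {x : SW | ∃ k : ℕ, 1 ≤ k ∧ k ≤ m ∧
      z ≤ (∑ i ∈ Finset.Icc 1 k, bw a (x.2.1 i)) + T x.1 ((k : ℤ), 1) ((m : ℤ), (n : ℤ))} ⊆
      {x : SW | ENNReal.ofReal (Real.exp (t * z)) ≤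
        ENNReal.ofReal (Real.exp (t * mVS a m n hne (x.1, x.2.1)))} := by
    rintro x ⟨k, hk1, hk2, hk3⟩
    refine ENNReal.ofReal_le_ofReal (Real.exp_le_exp.2 (mul_le_mul_of_nonneg_left ?_ htp.le))
    refine hk3.trans ?_
    unfold mVS
    exact Finset.le_sup' (fun k => (∑ i ∈ Finset.Icc 1 k, bw a (x.2.1 i)) +
      T x.1 ((k : ℤ), 1) ((m : ℤ), (n : ℤ))) (Finset.mem_Icc.2 ⟨hk1, hk2⟩)
  have hVm := measurable_mVS a m n hne
  have h3 := mul_meas_ge_le_lintegral (μ := muSW)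
    (f := fun x : SW => ENNReal.ofReal (Real.exp (t * mVS a m n hne (x.1, x.2.1)))) (by fun_prop)
    (ENNReal.ofReal (Real.exp (t * z)))
  have h4 := (measure_mono h2 : muSW _ ≤ _)
  have h5 : ENNReal.ofReal (Real.exp (-(t * z))) * ENNReal.ofReal (Real.exp (t * z)) = 1 := by
    rw [← ENNReal.ofReal_mul (Real.exp_pos _).le, ← Real.exp_add]
    simp
  have h8 : Real.exp (m * LS (a - u) a + n * LS (1 - a) (1 - a + u) - z * t) =
      Real.exp (-(t * z)) * Real.exp (n * LS (1 - a) (1 - a + u) + m * LS (a - u) a) := by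
    rw [← Real.exp_add]
    congr 1
    ring
  rw [h8, ENNReal.ofReal_mul (Real.exp_pos _).le]
  calc muSW {x : SW | ∃ k : ℕ, 1 ≤ k ∧ k ≤ m ∧
      z ≤ (∑ i ∈ Finset.Icc 1 k, bw a (x.2.1 i)) + T x.1 ((k : ℤ), 1) ((m : ℤ), (n : ℤ))}
      ≤ muSW {x : SW | ENNReal.ofReal (Real.exp (t * z)) ≤
        ENNReal.ofReal (Real.exp (t * mVS a m n hne (x.1, x.2.1)))} := h4
    _ = ENNReal.ofReal (Real.exp (-(t * z))) * (ENNReal.ofReal (Real.exp (t * z)) *
        muSW {x : SW | ENNReal.ofReal (Real.exp (t * z)) ≤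
        ENNReal.ofReal (Real.exp (t * mVS a m n hne (x.1, x.2.1)))}) := by
        rw [← mul_assoc, h5, one_mul]
    _ ≤ ENNReal.ofReal (Real.exp (-(t * z))) *
        ENNReal.ofReal (Real.exp (n * LS (1 - a) (1 - a + u) + m * LS (a - u) a)) :=
        mul_le_mul_right (h3.trans h1) _

/-- translation of the S side and of the bulk -/
private def mshiftB (w : ℕ) (x : SW) : SW :=
  (fun v => x.1 (v + ((w : ℤ), 0)), fun i => x.2.1 (i + w), x.2.2)

private theorem map_mshiftB (w : ℕ) : MeasurePreserving (mshiftB w) muSW muSW := by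
  have h1 : MeasurePreserving (fun (x : ℤ × ℤ → ℝ) (v : ℤ × ℤ) => x (v + ((w : ℤ), 0)))
      PG PG := mp_tr _
  have h2 : MeasurePreserving (fun (x : ℕ → ℝ) (i : ℕ) => x (i + w)) (PI ℕ) (PI ℕ) :=
    ⟨by fun_prop, infinitePi_reindex (fun _ => E1) (fun i : ℕ => i + w)
      (fun a b h => by simpa using h)⟩
  have h3 := h1.prod (h2.prod (MeasurePreserving.id (PI ℕ)))
  exact h3

private theorem mmgfS {a u : ℝ} (hu : 0 < u) (hua : u < a) (ha1 : a < 1) (m n w : ℕ) (hw : w < m)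
    (hn : 1 ≤ n) (z : ℝ) :
    muSW.real {x : SW | ∃ k : ℕ, w < k ∧ k ≤ m ∧
      z ≤ (∑ i ∈ Finset.Ioc w k, bw a (x.2.1 i)) + T x.1 ((k : ℤ), 1) ((m : ℤ), (n : ℤ))} ≤
      Real.exp (((m - w : ℕ) : ℝ) * LS (a - u) a + n * LS (1 - a) (1 - a + u) -
        z * tilt (a - u) a) := by
  have ha : 0 < a := hu.trans hua
  have hbw := measurable_bw a
  have h1 := mmgfS_zero hu hua ha1 (m - w) n (by omega) hn z
  set A : Set SW := {x : SW | ∃ k : ℕ, 1 ≤ k ∧ k ≤ m - w ∧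
      z ≤ (∑ i ∈ Finset.Icc 1 k, bw a (x.2.1 i)) +
        T x.1 ((k : ℤ), 1) (((m - w : ℕ) : ℤ), (n : ℤ))} with hA
  have h2 : {x : SW | ∃ k : ℕ, w < k ∧ k ≤ m ∧
      z ≤ (∑ i ∈ Finset.Ioc w k, bw a (x.2.1 i)) + T x.1 ((k : ℤ), 1) ((m : ℤ), (n : ℤ))} =
      mshiftB w ⁻¹' A := by
    have key : ∀ (x : SW) (k : ℕ), (∑ i ∈ Finset.Icc 1 k, bw a ((mshiftB w x).2.1 i)) +
        T (mshiftB w x).1 ((k : ℤ), 1) (((m - w : ℕ) : ℤ), (n : ℤ)) =
        (∑ i ∈ Finset.Ioc w (k + w), bw a (x.2.1 i)) +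
          T x.1 (((k + w : ℕ) : ℤ), 1) ((m : ℤ), (n : ℤ)) := by
      intro x k
      congr 1
      · simp only [mshiftB]
        rw [← Finset.sum_image (f := fun i => bw a (x.2.1 i)) (s := Finset.Icc 1 k)
          (g := fun i => i + w) (fun i _ j _ h => by simpa using h)]
        congr 1
        ext i
        simp only [Finset.mem_image, Finset.mem_Icc, Finset.mem_Ioc]
        constructor
        · rintro ⟨j, hj, rfl⟩
          omega
        · intro hi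
          exact ⟨i - w, by omega, by omega⟩
      · simp only [mshiftB]
        rw [T_translate]
        have h5 : ((m - w : ℕ) : ℤ) + w = m := by omega
        have h6 : (((k : ℤ), 1) : ℤ × ℤ) + ((w : ℤ), 0) = (((k + w : ℕ) : ℤ), 1) := by simp
        have h7 : ((((m - w : ℕ) : ℤ), (n : ℤ)) : ℤ × ℤ) + ((w : ℤ), 0) = ((m : ℤ), (n : ℤ)) := by
          rw [Prod.mk_add_mk, h5, add_zero]
        rw [h6, h7]
    ext x
    simp only [Set.mem_ofPred_eq, Set.mem_preimage, hA]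
    constructor
    · rintro ⟨k, hk1, hk2, hk3⟩
      refine ⟨k - w, by omega, by omega, ?_⟩
      rw [key x (k - w), Nat.sub_add_cancel hk1.le]
      exact hk3
    · rintro ⟨k, hk1, hk2, hk3⟩
      rw [key x k] at hk3
      exact ⟨k + w, by omega, by omega, hk3⟩
  have hAm : MeasurableSet A := by
    have h3 : A = ⋃ k ∈ Finset.Icc 1 (m - w), {x : SW | z ≤ (∑ i ∈ Finset.Icc 1 k, bw a (x.2.1 i)) +
        T x.1 ((k : ℤ), 1) (((m - w : ℕ) : ℤ), (n : ℤ))} := by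
      ext x
      simp only [hA, Set.mem_ofPred_eq, Set.mem_iUnion, Finset.mem_Icc, exists_prop, and_assoc]
    rw [h3]
    refine Finset.measurableSet_biUnion _ fun k _ => ?_
    exact measurableSet_le measurable_const
      (Measurable.add (by fun_prop) ((measurable_T _ _).comp measurable_fst))
  rw [h2, measureReal_def, (map_mshiftB w).measure_preimage hAm.nullMeasurableSet]
  exact ENNReal.toReal_le_of_le_ofReal (Real.exp_pos _).le h1

theorem mgfS {a u z z1 z2 D : ℝ} (hu : 0 < u) (hua : u < a) (ha1 : a < 1) (m n w : ℕ)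
    (hw : w < m) (hn : 1 ≤ n) (hz1 : 0 ≤ z1) (hz2 : 0 ≤ z2) (hD : 0 ≤ D)
    (hb : ∀ ρ : ℝ, a - u ≤ ρ → ρ ≤ a →
      ((m : ℝ) - w) / ρ + n / (1 - ρ) - z ≤ z1 - z2 - D * (a - ρ)) :
    muSW.real {x : SW | ∃ k : ℕ, w < k ∧ k ≤ m ∧
      z ≤ (∑ i ∈ Finset.Ioc w k, bw a (x.2.1 i)) + T x.1 ((k : ℤ), 1) ((m : ℤ), (n : ℤ))} ≤
      Real.exp (z1 * u - z2 * u / gK - D * u ^ 2 / (2 * gK)) := by
  refine (mmgfS hu hua ha1 m n w hw hn z).trans (Real.exp_le_exp.2 ?_)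
  rw [Nat.cast_sub hw.le]
  exact expo_le hu hua ha1 hz1 hz2 hD hb

end BGG
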