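import Pool.Agent.BGG.StatRow
import Pool.Agent.BGG.Calc
import Pool.Agent.BGG.MgfS
import Pool.Agent.BGE.BigLow

/-!
BGG / C2. Lower tail with enlarged boundary weights. Adaptation of `Pool/Agent/BGE/BigLow.lean`.

`big_low`: for `0 < a`, `0 < b`, `a + b < 1`, `z2 ≥ 0` with `z0 + z2 ≤ m/r + n/(1-r)` on
`[a, 1-b]`: `P(bl a b (m, n) ≤ z0) ≤ exp (- z2 (1-b-a)/gK)`.

Proof. Let `t = tilt b (1-a) = tilt a (1-b)`. The law `bE b` has the density
`exp (t x - LS b (1-a))` with respect to `bE (1-a)` (`geoM_eq`: the mass of `gs k + gd` is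
`(1 - gap b) (gap b)^k`, and `gap (1-a) exp (gs t) = gap b`). So (W weights)
`E e^{-t bl a b (m, n)} = exp (-n LS b (1-a)) E e^{t L (0,n)} e^{-t L (m, n)}` with `L = bl a (1-a)`,
`L (0,n)` the sum of the W weights, and by `stat_row` and `mgf_down`
`E e^{-t (L (m, n) - L (0, n))} = exp (- m LS a (1-b))`. By Markov's inequality the probability is
at most `exp (z0 t - m LS a (1-b) - n LS b (1-a))`; now use `expo_ge` (with `b := 1 - b`).
-/

namespace BGG

open MeasureTheory ProbabilityTheory BGE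
open scoped ENNReal

variable [GeoPar]

private theorem measurable_mLb (a : ℝ) (i j : ℕ) : Measurable (fun x : SW => mLb a x i j) :=
  measurable_bl _ _ _

/-- change of the rate: the density of `bE b` with respect to `bE c` -/
private theorem bE_withDensity {b c : ℝ} (hb : 0 < b) (hbc : b < c) (hc : c ≤ 1) :
    (bE c).withDensity (fun y => ENNReal.ofReal (Real.exp (tilt b c * y - LS b c))) = bE b := by
  have hA0 := gap_pos (ρ := c) (by linarith) hc
  have hA1 := gap_lt (ρ := c) (by linarith) hc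
  have hB0 := gap_pos (ρ := b) hb.le (by linarith)
  have hB1 := gap_lt (ρ := b) hb (by linarith)
  have hgs := gs_pos
  have e1 : Real.exp (gs * tilt b c) = gap b / gap c := by
    unfold tilt
    rw [mul_div_cancel₀ _ hgs.ne', Real.exp_log (div_pos hB0 hA0)]
  have e2 : Real.exp (LS b c) = (1 - gap c) / (1 - gap b) * Real.exp (gd * tilt b c) := by
    unfold LS
    rw [Real.exp_add, Real.exp_log (div_pos (by linarith) (by linarith))]
  have e3 : ∀ k : ℕ, (1 - gap c) * gap c ^ k *
      Real.exp (tilt b c * (gs * k + gd) - LS b c) = (1 - gap b) * gap b ^ k := by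
    intro k
    have h1 : Real.exp (tilt b c * (gs * k + gd) - LS b c) =
        Real.exp (gs * tilt b c) ^ k * Real.exp (gd * tilt b c) / Real.exp (LS b c) := by
      rw [← Real.exp_nat_mul, ← Real.exp_add, ← Real.exp_sub]
      congr 1
      ring
    have h2 : 1 - gap c ≠ 0 := by linarith
    have h3 : 1 - gap b ≠ 0 := by linarith
    have h4 := (Real.exp_pos (gd * tilt b c)).ne'
    rw [h1, e1, e2, div_pow]
    field_simp
  ext s hs
  rw [withDensity_apply _ hs, ← lintegral_indicator hs, ← lintegral_indicator_one hs]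
  unfold bE
  rw [geo_lintegral hA0 hA1 (Measurable.indicator (by fun_prop) hs),
    geo_lintegral hB0 hB1 (Measurable.indicator measurable_one hs)]
  refine tsum_congr fun k => ?_
  by_cases h : gs * (k : ℝ) + gd ∈ s
  · rw [Set.indicator_of_mem h, Set.indicator_of_mem h, Pi.one_apply, mul_one,
      ← ENNReal.ofReal_mul (mul_nonneg (by linarith) (pow_nonneg hA0.le k)), e3 k]
  · rw [Set.indicator_of_notMem h, Set.indicator_of_notMem h, mul_zero, mul_zero]

private theorem pi_bE_withDensity {b c : ℝ} (hb : 0 < b) (hbc : b < c) (hc : c ≤ 1) (n : ℕ) :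
    (Measure.pi fun _ : Fin n => bE c).withDensity
      (fun y => ∏ j, ENNReal.ofReal (Real.exp (tilt b c * y j - LS b c))) =
      Measure.pi fun _ : Fin n => bE b := by
  symm
  refine Measure.pi_eq fun s hs => ?_
  have hms : MeasurableSet (Set.univ.pi s) := MeasurableSet.univ_pi hs
  rw [withDensity_apply _ hms, ← lintegral_indicator hms]
  have h1 : ∀ y : Fin n → ℝ, (Set.univ.pi s).indicator
      (fun y => ∏ j, ENNReal.ofReal (Real.exp (tilt b c * y j - LS b c))) y =
      ∏ j, (s j).indicator (fun y => ENNReal.ofReal (Real.exp (tilt b c * y - LS b c))) (y j) := by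
    intro y
    by_cases h : y ∈ Set.univ.pi s
    · rw [Set.indicator_of_mem h]
      refine Finset.prod_congr rfl fun j _ => ?_
      rw [Set.indicator_of_mem (h j trivial)]
    · rw [Set.indicator_of_notMem h]
      simp only [Set.mem_pi, Set.mem_univ, forall_const, not_forall] at h
      obtain ⟨j, hj⟩ := h
      symm
      refine Finset.prod_eq_zero (Finset.mem_univ j) ?_
      rw [Set.indicator_of_notMem hj]
  simp only [h1]
  rw [lintegral_pi_prod (fun _ : Fin n => bE c)
    (fun j => (s j).indicator (fun y => ENNReal.ofReal (Real.exp (tilt b c * y - LS b c))))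
    (fun j => Measurable.indicator (by fun_prop) (hs j))]
  refine Finset.prod_congr rfl fun j _ => ?_
  rw [lintegral_indicator (hs j), ← withDensity_apply _ (hs j), bE_withDensity hb hbc hc]

private theorem map_fin_bw (b : ℝ) (n : ℕ) :
    (PI ℕ).map (fun y (j : Fin n) => bw b (y ((j : ℕ) + 1))) =
      Measure.pi fun _ : Fin n => bE b := by
  have hbw := measurable_bw b
  have h1 : (fun (y : ℕ → ℝ) (j : Fin n) => bw b (y ((j : ℕ) + 1))) =
      (fun (y : Fin n → ℝ) j => bw b (y j)) ∘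
        (fun (y : ℕ → ℝ) (j : Fin n) => y ((j : ℕ) + 1)) := rfl
  rw [h1, ← Measure.map_map (by fun_prop) (by fun_prop)]
  unfold PI
  rw [infinitePi_reindex (fun _ : ℕ => E1) (fun j : Fin n => (j : ℕ) + 1)
    (fun i j h => Fin.ext (by simpa using h)),
    Measure.infinitePi_map_pi (μ := fun _ : Fin n => E1) (f := fun _ y => bw b y)
      (fun k => hbw), ← Measure.infinitePi_eq_pi]
  rfl

/-- change of the rate of the W weights -/
private theorem rate_change' {b c : ℝ} (hb : 0 < b) (hbc : b < c) (hc : c ≤ 1) (n : ℕ)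
    (H : (Fin n → ℝ) → ℝ≥0∞) (hH : Measurable H) :
    ∫⁻ y, H (fun j => bw b (y ((j : ℕ) + 1))) ∂(PI ℕ) =
      ∫⁻ y, ENNReal.ofReal (Real.exp (tilt b c * ∑ j ∈ Finset.Icc 1 n, bw c (y j) -
        n * LS b c)) * H (fun j => bw c (y ((j : ℕ) + 1))) ∂(PI ℕ) := by
  have hbw := measurable_bw b
  have hcw := measurable_bw c
  have h1 : ∀ y : ℕ → ℝ, ENNReal.ofReal (Real.exp (tilt b c * ∑ j ∈ Finset.Icc 1 n, bw c (y j) -
        n * LS b c)) =
      ∏ j : Fin n, ENNReal.ofReal (Real.exp (tilt b c * bw c (y ((j : ℕ) + 1)) - LS b c)) := by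
    intro y
    have h2 : ∑ j ∈ Finset.Icc 1 n, bw c (y j) = ∑ j : Fin n, bw c (y ((j : ℕ) + 1)) := by
      rw [Fin.sum_univ_eq_sum_range (fun j => bw c (y (j + 1))), Finset.range_eq_Ico,
        Finset.sum_Ico_add' (fun j => bw c (y j)) 0 n 1]
      rfl
    rw [← ofReal_exp_sum, h2, Finset.sum_sub_distrib, Finset.mul_sum]
    simp
  simp only [h1]
  have h4 : Measurable (fun (y : ℕ → ℝ) (j : Fin n) => bw b (y ((j : ℕ) + 1))) := by fun_prop
  have h5 : Measurable (fun (y : ℕ → ℝ) (j : Fin n) => bw c (y ((j : ℕ) + 1))) := by fun_prop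
  rw [← lintegral_map hH h4, map_fin_bw b, ← pi_bE_withDensity hb hbc hc,
    lintegral_withDensity_eq_lintegral_mul _ (by fun_prop) hH, ← map_fin_bw c,
    lintegral_map (by fun_prop) h5]
  rfl

private theorem lint_big' {a b : ℝ} (ha : 0 < a) (hb : 0 < b) (hab : a + b < 1) (m n : ℕ) :
    ∫⁻ x, ENNReal.ofReal (Real.exp (-tilt b (1 - a) * bl a b x ((m : ℤ), (n : ℤ)))) ∂muSW =
      ENNReal.ofReal (Real.exp (-(n * LS b (1 - a)))) *
        ENNReal.ofReal (Real.exp (-LS a (1 - b))) ^ m := by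
  have ha1 : a < 1 := by linarith
  set t : ℝ := tilt b (1 - a) with ht
  have hts : tilt a (1 - b) = t := by
    have h := tilt_symm (ρ1 := a) (ρ2 := 1 - b) ha.le (by linarith) (by linarith)
    have h2 : 1 - (1 - b) = b := by ring
    rw [h2] at h
    rw [ht, h]
  have h0 := mlint_row (-t) ha ha1 m n
  have hdown := mlint_down (ρ1 := a) (ρ2 := 1 - b) ha (by linarith) (by linarith)
  rw [hts] at hdown
  rw [hdown] at h0
  rw [← h0, ← lintegral_const_mul _ (by
    have h1 := measurable_mLb a m n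
    have h2 := measurable_mLb a 0 n
    fun_prop)]
  have hm1 : Measurable (fun x : SW =>
      ENNReal.ofReal (Real.exp (-t * bl a b x ((m : ℤ), (n : ℤ))))) := by
    have := measurable_bl a b ((m : ℤ), (n : ℤ))
    fun_prop
  have hm2 : Measurable (fun x : SW => ENNReal.ofReal (Real.exp (-(n * LS b (1 - a)))) *
      ENNReal.ofReal (Real.exp (-t * (mLb a x m n - mLb a x 0 n)))) := by
    have h1 := measurable_mLb a m n
    have h2 := measurable_mLb a 0 n
    fun_prop
  unfold muSW
  rw [lintegral_prod _ hm1.aemeasurable, lintegral_prod _ hm2.aemeasurable]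
  refine lintegral_congr fun ω => ?_
  have hmω : Measurable fun p : (ℕ → ℝ) × (ℕ → ℝ) => ((ω, p) : SW) := by fun_prop
  rw [lintegral_prod (fun p : (ℕ → ℝ) × (ℕ → ℝ) =>
      ENNReal.ofReal (Real.exp (-t * bl a b (ω, p) ((m : ℤ), (n : ℤ)))))
      (hm1.comp hmω).aemeasurable,
    lintegral_prod (fun p : (ℕ → ℝ) × (ℕ → ℝ) => ENNReal.ofReal (Real.exp (-(n * LS b (1 - a)))) *
      ENNReal.ofReal (Real.exp (-t * (mLb a (ω, p) m n - mLb a (ω, p) 0 n))))
      (hm2.comp hmω).aemeasurable]
  refine lintegral_congr fun s => ?_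
  have hm3 : Measurable (fun c : Fin n → ℝ => ENNReal.ofReal (Real.exp (-t *
      T (bfield ω (fun i => bw a (s i)) (padW n c) 0) 0 ((m : ℤ), (n : ℤ))))) := by
    have h1 : Measurable (fun c : Fin n → ℝ =>
        T (bfield ω (fun i => bw a (s i)) (padW n c) 0) 0 ((m : ℤ), (n : ℤ))) :=
      (measurable_bfieldT ((m : ℤ), (n : ℤ))).comp
        (measurable_const.prodMk (measurable_const.prodMk (measurable_padW n)))
    fun_prop
  have h3 := rate_change' hb (show b < 1 - a by linarith) (by linarith) n _ hm3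
  have h4 : ∀ y : ℕ → ℝ, bl a b (ω, s, y) ((m : ℤ), (n : ℤ)) =
      T (bfield ω (fun i => bw a (s i)) (padW n fun j => bw b (y ((j : ℕ) + 1))) 0) 0
        ((m : ℤ), (n : ℤ)) := by
    intro y
    unfold bl
    rw [T_padW]
  have h5 : ∀ y : ℕ → ℝ, mLb a (ω, s, y) m n =
      T (bfield ω (fun i => bw a (s i)) (padW n fun j => bw (1 - a) (y ((j : ℕ) + 1))) 0) 0
        ((m : ℤ), (n : ℤ)) := by
    intro y
    unfold mLb bl
    rw [T_padW]
  simp only [h4, h3]
  refine lintegral_congr fun y => ?_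
  rw [h5, mLb_col, ← ENNReal.ofReal_mul (Real.exp_pos _).le,
    ← ENNReal.ofReal_mul (Real.exp_pos _).le, ← Real.exp_add, ← Real.exp_add, ← ht]
  congr 2
  ring

theorem big_low {a b z0 z2 : ℝ} (ha : 0 < a) (hb : 0 < b) (hab : a + b < 1) (m n : ℕ)
    (hm : 1 ≤ m) (hn : 1 ≤ n) (hz2 : 0 ≤ z2)
    (hz : ∀ r : ℝ, a ≤ r → r ≤ 1 - b → z0 + z2 ≤ m / r + n / (1 - r)) :
    muSW.real {x : SW | bl a b x ((m : ℤ), (n : ℤ)) ≤ z0} ≤
      Real.exp (-(z2 * (1 - b - a) / gK)) := by
  have h6 := lint_big' ha hb hab m n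
  set t : ℝ := tilt b (1 - a) with ht
  have hts : tilt a (1 - b) = t := by
    have h := tilt_symm (ρ1 := a) (ρ2 := 1 - b) ha.le (by linarith) (by linarith)
    have h2 : 1 - (1 - b) = b := by ring
    rw [h2] at h
    rw [ht, h]
  have htp : 0 < t := by
    rw [← hts]
    exact tilt_pos ha.le (by linarith) (by linarith)
  have hm1 : Measurable (fun x : SW =>
      ENNReal.ofReal (Real.exp (-t * bl a b x ((m : ℤ), (n : ℤ))))) := by
    have := measurable_bl a b ((m : ℤ), (n : ℤ))
    fun_prop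
  have h7 := mul_meas_ge_le_lintegral (μ := muSW) hm1 (ENNReal.ofReal (Real.exp (-t * z0)))
  rw [h6] at h7
  have h8 : {x : SW | bl a b x ((m : ℤ), (n : ℤ)) ≤ z0} ⊆
      {x : SW | ENNReal.ofReal (Real.exp (-t * z0)) ≤
        ENNReal.ofReal (Real.exp (-t * bl a b x ((m : ℤ), (n : ℤ))))} := by
    intro x hx
    refine ENNReal.ofReal_le_ofReal (Real.exp_le_exp.2 ?_)
    exact mul_le_mul_of_nonpos_left hx (by linarith)
  have hfin : ENNReal.ofReal (Real.exp (t * z0)) * (ENNReal.ofReal (Real.exp (-(n * LS b (1 - a)))) *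
        ENNReal.ofReal (Real.exp (-LS a (1 - b))) ^ m) ≤
      ENNReal.ofReal (Real.exp (-(z2 * (1 - b - a) / gK))) := by
    rw [← ENNReal.ofReal_pow (Real.exp_pos _).le, ← ENNReal.ofReal_mul (Real.exp_pos _).le,
      ← ENNReal.ofReal_mul (Real.exp_pos _).le, ← Real.exp_nat_mul, ← Real.exp_add,
      ← Real.exp_add]
    refine ENNReal.ofReal_le_ofReal (Real.exp_le_exp.2 ?_)
    have h := expo_ge (M := m) (N := n) ha (show a < 1 - b by linarith) (by linarith) hz2 hz
    have h2 : 1 - (1 - b) = b := by ring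
    rw [h2, hts] at h
    linarith
  have h9 : muSW {x : SW | bl a b x ((m : ℤ), (n : ℤ)) ≤ z0} ≤
      ENNReal.ofReal (Real.exp (-(z2 * (1 - b - a) / gK))) := by
    have h10 : ENNReal.ofReal (Real.exp (t * z0)) * ENNReal.ofReal (Real.exp (-t * z0)) = 1 := by
      rw [← ENNReal.ofReal_mul (Real.exp_pos _).le, ← Real.exp_add]
      have : t * z0 + -t * z0 = 0 := by ring
      rw [this]
      simp
    calc _ ≤ muSW {x : SW | ENNReal.ofReal (Real.exp (-t * z0)) ≤
          ENNReal.ofReal (Real.exp (-t * bl a b x ((m : ℤ), (n : ℤ))))} := measure_mono h8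
      _ = ENNReal.ofReal (Real.exp (t * z0)) * (ENNReal.ofReal (Real.exp (-t * z0)) *
          muSW {x : SW | ENNReal.ofReal (Real.exp (-t * z0)) ≤
          ENNReal.ofReal (Real.exp (-t * bl a b x ((m : ℤ), (n : ℤ))))}) := by
          rw [← mul_assoc, h10, one_mul]
      _ ≤ ENNReal.ofReal (Real.exp (t * z0)) *
          (ENNReal.ofReal (Real.exp (-(n * LS b (1 - a)))) *
          ENNReal.ofReal (Real.exp (-LS a (1 - b))) ^ m) := mul_le_mul_right h7 _
      _ ≤ _ := hfin
  rw [measureReal_def]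
  exact ENNReal.toReal_le_of_le_ofReal (Real.exp_pos _).le h9

end BGG
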