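import Pool.Agent.BGG.Prod
import Pool.Agent.BGG.Calc
import Pool.Agent.BGE.WalkMax

/-!
BGG / C6. Maximal inequalities for sums of boundary weights. Adaptation of
`Pool/Agent/BGE/WalkMax.lean`.

Under `bI a` the coordinates are i.i.d. with law `bE a` (mean `1/a`). As in BGE, with
`mgf_cent_up` and `mgf_cent_down` in place of the exponential formulas: the logarithm of
`E exp (± θ (x i - 1/a))` is at most `gK² θ²/a²` (for the upper sign if `θ ≤ a/(2 gK)`).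
`walk_max`: `θ = a² z/(2 gK² w) ≤ a/(2 gK)` if `a z ≤ w`. The versions with `bw a (x i)`, `x` with
law `PI ℕ`, follow from `mp_bw`.
-/

namespace BGG

open MeasureTheory ProbabilityTheory BGE

variable [GeoPar]

private theorem wm_real (a : ℝ) {S : Set (ℕ → ℝ)} (hS : MeasurableSet S) :
    (bI a).real S = (PI ℕ).real ((fun (x : ℕ → ℝ) i => bw a (x i)) ⁻¹' S) := by
  rw [measureReal_def, measureReal_def, (mp_bw a).measure_preimage hS.nullMeasurableSet]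

omit [GeoPar] in
private theorem wm_meas {g : (ℕ → ℝ) → ℕ → ℝ} (hg : ∀ k, Measurable fun x => g x k) (w : ℕ)
    (z : ℝ) : MeasurableSet {x : ℕ → ℝ | ∃ k : ℕ, k ≤ w ∧ z ≤ g x k} := by
  have e : {x : ℕ → ℝ | ∃ k : ℕ, k ≤ w ∧ z ≤ g x k} =
      ⋃ k ∈ Finset.range (w + 1), {x : ℕ → ℝ | z ≤ g x k} := by
    ext x
    simp only [Set.mem_ofPred_eq, Set.mem_iUnion, Finset.mem_range, exists_prop]
    constructor
    · rintro ⟨k, h1, h2⟩
      exact ⟨k, by omega, h2⟩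
    · rintro ⟨k, h1, h2⟩
      exact ⟨k, by omega, h2⟩
  rw [e]
  exact Finset.measurableSet_biUnion _ fun k _ => measurableSet_le measurable_const (hg k)

private theorem wm_lint {a : ℝ} {g : ℝ → ℝ} (hg : Measurable g) :
    ∫⁻ t, ENNReal.ofReal (Real.exp (g (bw a t))) ∂E1 =
      ∫⁻ y, ENNReal.ofReal (Real.exp (g y)) ∂(bE a) := by
  unfold bE geoM
  rw [lintegral_map (by fun_prop) (measurable_gqm _)]
  rfl

theorem walk_max_up' {a θ z : ℝ} (ha : 0 < a) (ha1 : a ≤ 1) (hθ : 0 < θ)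
    (hθa : θ ≤ a / (2 * gK)) (w : ℕ) :
    (PI ℕ).real {x : ℕ → ℝ | ∃ k : ℕ, k ≤ w ∧
      z ≤ ∑ i ∈ Finset.Icc 1 k, (bw a (x i) - 1 / a)} ≤
      Real.exp (-(θ * z) + w * (gK ^ 2 * θ ^ 2 / a ^ 2)) := by
  obtain ⟨h1, h2⟩ := mgf_cent_up ha ha1 hθ.le hθa
  have hc : 0 ≤ gK ^ 2 * θ ^ 2 / a ^ 2 := by positivity
  have key := wm_max (g := fun t => bw a t - 1 / a) ((measurable_bw a).sub_const _) (θ := θ)
    (c := gK ^ 2 * θ ^ 2 / a ^ 2) hθ hc ?_ w z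
  · exact ENNReal.toReal_le_of_le_ofReal (Real.exp_pos _).le key
  · have e := wm_lint (a := a) (g := fun y => θ * (y - 1 / a)) (by fun_prop)
    refine e.le.trans ?_
    rw [← ofReal_integral_eq_lintegral_ofReal h1
      (Filter.Eventually.of_forall fun _ => (Real.exp_pos _).le)]
    exact ENNReal.ofReal_le_ofReal h2

theorem walk_max_down' {a θ z : ℝ} (ha : 0 < a) (ha1 : a ≤ 1) (hθ : 0 < θ) (w : ℕ) :
    (PI ℕ).real {x : ℕ → ℝ | ∃ k : ℕ, k ≤ w ∧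
      z ≤ ∑ i ∈ Finset.Icc 1 k, (1 / a - bw a (x i))} ≤
      Real.exp (-(θ * z) + w * (gK ^ 2 * θ ^ 2 / a ^ 2)) := by
  obtain ⟨h1, h2⟩ := mgf_cent_down ha ha1 hθ.le
  have hc : 0 ≤ gK ^ 2 * θ ^ 2 / a ^ 2 := by positivity
  have key := wm_max (g := fun t => 1 / a - bw a t) ((measurable_bw a).const_sub _) (θ := θ)
    (c := gK ^ 2 * θ ^ 2 / a ^ 2) hθ hc ?_ w z
  · exact ENNReal.toReal_le_of_le_ofReal (Real.exp_pos _).le key
  · have e := wm_lint (a := a) (g := fun y => -(θ * (y - 1 / a))) (by fun_prop)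
    have e2 : ∀ t : ℝ, θ * (1 / a - bw a t) = -(θ * (bw a t - 1 / a)) := fun t => by ring
    simp only [e2]
    refine e.le.trans ?_
    rw [← ofReal_integral_eq_lintegral_ofReal h1
      (Filter.Eventually.of_forall fun _ => (Real.exp_pos _).le)]
    exact ENNReal.ofReal_le_ofReal h2

theorem walk_max' {a z : ℝ} (ha : 0 < a) (ha1 : a ≤ 1) (hz : 0 < z) (w : ℕ) (hw : a * z ≤ w) :
    (PI ℕ).real {x : ℕ → ℝ | ∃ k : ℕ, k ≤ w ∧
      z ≤ |∑ i ∈ Finset.Icc 1 k, (bw a (x i) - 1 / a)|} ≤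
      2 * Real.exp (-(a ^ 2 * z ^ 2 / (4 * gK ^ 2 * w))) := by
  have hK := gK_ge
  have hK0 : 0 < gK := by linarith
  have hw0 : (0 : ℝ) < w := lt_of_lt_of_le (by positivity) hw
  have hθ : 0 < a ^ 2 * z / (2 * gK ^ 2 * w) := by positivity
  have hθa : a ^ 2 * z / (2 * gK ^ 2 * w) ≤ a / (2 * gK) := by
    rw [div_le_div_iff₀ (by positivity) (by positivity)]
    have h1 : a * z * gK ≤ w * gK ^ 2 := by
      have h2 : a * z * gK ≤ w * gK := mul_le_mul_of_nonneg_right hw hK0.le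
      have h3 : (w : ℝ) * gK ≤ w * gK ^ 2 := by
        refine mul_le_mul_of_nonneg_left ?_ hw0.le
        nlinarith
      exact h2.trans h3
    have h4 := mul_le_mul_of_nonneg_left h1 (by positivity : 0 ≤ 2 * a)
    calc a ^ 2 * z * (2 * gK) = 2 * a * (a * z * gK) := by ring
      _ ≤ 2 * a * (w * gK ^ 2) := h4
      _ = a * (2 * gK ^ 2 * w) := by ring
  have k1 := walk_max_up' (z := z) ha ha1 hθ hθa w
  have k2 := walk_max_down' (z := z) ha ha1 hθ w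
  have e : -(a ^ 2 * z / (2 * gK ^ 2 * w) * z) +
      w * (gK ^ 2 * (a ^ 2 * z / (2 * gK ^ 2 * w)) ^ 2 / a ^ 2) =
      -(a ^ 2 * z ^ 2 / (4 * gK ^ 2 * w)) := by
    field_simp
    ring
  rw [e] at k1 k2
  have hsub : {x : ℕ → ℝ | ∃ k : ℕ, k ≤ w ∧
      z ≤ |∑ i ∈ Finset.Icc 1 k, (bw a (x i) - 1 / a)|} ⊆
      {x : ℕ → ℝ | ∃ k : ℕ, k ≤ w ∧ z ≤ ∑ i ∈ Finset.Icc 1 k, (bw a (x i) - 1 / a)} ∪
      {x : ℕ → ℝ | ∃ k : ℕ, k ≤ w ∧ z ≤ ∑ i ∈ Finset.Icc 1 k, (1 / a - bw a (x i))} := by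
    rintro x ⟨k, hk, hx⟩
    rcases le_abs.1 hx with h | h
    · exact Or.inl ⟨k, hk, h⟩
    · refine Or.inr ⟨k, hk, ?_⟩
      rw [← Finset.sum_neg_distrib] at h
      refine h.trans (le_of_eq ?_)
      refine Finset.sum_congr rfl fun i _ => ?_
      ring
  calc _ ≤ (PI ℕ).real ({x : ℕ → ℝ | ∃ k : ℕ, k ≤ w ∧
        z ≤ ∑ i ∈ Finset.Icc 1 k, (bw a (x i) - 1 / a)} ∪
      {x : ℕ → ℝ | ∃ k : ℕ, k ≤ w ∧ z ≤ ∑ i ∈ Finset.Icc 1 k, (1 / a - bw a (x i))}) :=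
        measureReal_mono hsub (measure_ne_top _ _)
    _ ≤ _ := (measureReal_union_le _ _).trans (by linarith)

theorem walk_max_up {a θ z : ℝ} (ha : 0 < a) (ha1 : a ≤ 1) (hθ : 0 < θ) (hθa : θ ≤ a / (2 * gK))
    (w : ℕ) :
    (bI a).real {x : ℕ → ℝ | ∃ k : ℕ, k ≤ w ∧
      z ≤ ∑ i ∈ Finset.Icc 1 k, (x i - 1 / a)} ≤
      Real.exp (-(θ * z) + w * (gK ^ 2 * θ ^ 2 / a ^ 2)) := by
  rw [wm_real a (wm_meas (g := fun x k => ∑ i ∈ Finset.Icc 1 k, (x i - 1 / a))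
    (fun k => by fun_prop) w z)]
  exact walk_max_up' ha ha1 hθ hθa w

theorem walk_max_down {a θ z : ℝ} (ha : 0 < a) (ha1 : a ≤ 1) (hθ : 0 < θ) (w : ℕ) :
    (bI a).real {x : ℕ → ℝ | ∃ k : ℕ, k ≤ w ∧
      z ≤ ∑ i ∈ Finset.Icc 1 k, (1 / a - x i)} ≤
      Real.exp (-(θ * z) + w * (gK ^ 2 * θ ^ 2 / a ^ 2)) := by
  rw [wm_real a (wm_meas (g := fun x k => ∑ i ∈ Finset.Icc 1 k, (1 / a - x i))
    (fun k => by fun_prop) w z)]
  exact walk_max_down' ha ha1 hθ w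

theorem walk_max {a z : ℝ} (ha : 0 < a) (ha1 : a ≤ 1) (hz : 0 < z) (w : ℕ) (hw : a * z ≤ w) :
    (bI a).real {x : ℕ → ℝ | ∃ k : ℕ, k ≤ w ∧
      z ≤ |∑ i ∈ Finset.Icc 1 k, (x i - 1 / a)|} ≤
      2 * Real.exp (-(a ^ 2 * z ^ 2 / (4 * gK ^ 2 * w))) := by
  rw [wm_real a (wm_meas (g := fun x k => |∑ i ∈ Finset.Icc 1 k, (x i - 1 / a)|)
    (fun k => by
      have h : Measurable fun x : ℕ → ℝ => ∑ i ∈ Finset.Icc 1 k, (x i - 1 / a) := by fun_prop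
      exact h.abs) w z)]
  exact walk_max' ha ha1 hz w hw

end BGG
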