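import Pool.Agent.BGG.UpperTail
import Pool.Agent.BGG.LowerTail
import Pool.Agent.BGG.ProdA
import Pool.Agent.BGE.ConeTail

/-!
BGG / C10b. Tails in a cone, law `PG`. Adaptation of `Pool/Agent/BGE/ConeTail.lean` (same
statement; the constants depend on `κ` and `q`; use `upper_tail`, `lower_tail` of BGG: there
`64 t² Ph` becomes `70 gK t² Ph`, `2·10⁸` becomes `gX`, `21` becomes `30`, and the upper tail
exponent is `- u z/gK + 2 u³ Ph`).
-/

namespace BGG

open MeasureTheory ProbabilityTheory BGE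

variable [GeoPar]

private theorem ct_shift {u v : ℤ × ℤ} (_h : u ≤ v) {B : Set ℝ} (hB : MeasurableSet B)
    {m n : ℕ} (hm : (m : ℤ) = v.1 - u.1 + 1) (hn : (n : ℤ) = v.2 - u.2 + 1) :
    PG.real {ω | T ω u v ∈ B} =
      PG.real {ω | T ω (1, 1) ((m : ℤ), (n : ℤ)) ∈ B} := by
  have h1 : {ω : ℤ × ℤ → ℝ | T ω u v ∈ B} =
      (fun (ω : ℤ × ℤ → ℝ) (z : ℤ × ℤ) => ω (z + (u - (1, 1)))) ⁻¹'
        {ω | T ω (1, 1) ((m : ℤ), (n : ℤ)) ∈ B} := by
    ext ω
    simp only [Set.mem_ofPred_eq, Set.mem_preimage]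
    rw [T_translate]
    have e1 : ((1, 1) : ℤ × ℤ) + (u - (1, 1)) = u := by abel
    have e2 : ((m : ℤ), (n : ℤ)) + (u - (1, 1)) = v := by
      rw [hm, hn]
      ext <;> simp
    rw [e1, e2]
  rw [h1, measureReal_def, measureReal_def, (mp_tr (u - (1, 1))).measure_preimage]
  exact ((measurable_T _ _) hB).nullMeasurableSet

omit [GeoPar] in
private theorem ct_alg {κ : ℝ} (hκ : 0 < κ) (hκ2 : κ ≤ 1 / 2) {M N : ℝ} (hm : 1 ≤ M) (hn : 1 ≤ N)
    (h1 : κ * (M + N) ≤ M) (h2 : κ * (M + N) ≤ N) :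
    κ / 2 ≤ al M N ∧ κ / 2 ≤ 1 - al M N ∧ 2 * (M + N) ≤ Ph M N ∧ Ph M N ≤ 4 * (M + N) / κ ∧
      (√M + √N) ^ 2 ≤ 2 * (M + N) ∧ mu (M - 1) (N - 1) ≤ (√M + √N) ^ 2 ∧
      (√M + √N) ^ 2 ≤ mu (M - 1) (N - 1) + (2 + 2 / κ) := by
  have hM0 : 0 < M := by linarith
  have hN0 : 0 < N := by linarith
  obtain ⟨A, hA⟩ : ∃ A, A = √M := ⟨_, rfl⟩
  obtain ⟨B, hB⟩ : ∃ B, B = √N := ⟨_, rfl⟩
  obtain ⟨L, hL⟩ : ∃ L, L = M + N := ⟨_, rfl⟩
  have hA0 : 0 < A := by rw [hA]; exact Real.sqrt_pos.2 hM0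
  have hB0 : 0 < B := by rw [hB]; exact Real.sqrt_pos.2 hN0
  have hA2 : A ^ 2 = M := by rw [hA]; exact Real.sq_sqrt hM0.le
  have hB2 : B ^ 2 = N := by rw [hB]; exact Real.sq_sqrt hN0.le
  have hL0 : 0 < L := by rw [hL]; linarith
  rw [← hL] at h1 h2
  have hs : 0 < A + B := by linarith
  have hal : al M N = A / (A + B) := by rw [al, ← hA, ← hB]
  have hal' : 1 - al M N = B / (A + B) := by
    rw [hal]
    field_simp
    ring
  have hs2 : (A + B) ^ 2 ≤ 2 * L := by nlinarith [sq_nonneg (A - B)]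
  have hs2' : L ≤ (A + B) ^ 2 := by nlinarith [mul_pos hA0 hB0]
  have key : ∀ X : ℝ, 0 < X → κ * L ≤ X ^ 2 → κ / 2 * (A + B) ≤ X := by
    intro X hX hXL
    refine le_of_sq_le_sq ?_ hX.le
    have h3 : κ ^ 2 ≤ κ := by nlinarith
    calc (κ / 2 * (A + B)) ^ 2 = κ ^ 2 / 4 * (A + B) ^ 2 := by ring
      _ ≤ κ ^ 2 / 4 * (2 * L) := by
          refine mul_le_mul_of_nonneg_left hs2 (by positivity)
      _ ≤ κ * L := by nlinarith
      _ ≤ X ^ 2 := hXL
  have hAB : κ * L ≤ A * B := by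
    refine le_of_sq_le_sq ?_ (by positivity)
    calc (κ * L) ^ 2 = (κ * L) * (κ * L) := by ring
      _ ≤ M * N := mul_le_mul h1 h2 (by positivity) hM0.le
      _ = (A * B) ^ 2 := by rw [mul_pow, hA2, hB2]
  have hPh : Ph M N = (A + B) ^ 4 / (A * B) := by rw [Ph, ← hA, ← hB]
  have hABpos : 0 < A * B := mul_pos hA0 hB0
  have hAB2 : 2 * (A * B) ≤ (A + B) ^ 2 := by nlinarith [sq_nonneg A, sq_nonneg B]
  obtain ⟨D, hD⟩ : ∃ D, D = √((M - 1) * (N - 1)) := ⟨_, rfl⟩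
  have hD0 : 0 ≤ D := by rw [hD]; exact Real.sqrt_nonneg _
  have hD2 : D ^ 2 = (M - 1) * (N - 1) := by
    rw [hD]
    exact Real.sq_sqrt (mul_nonneg (by linarith) (by linarith))
  have hmu : mu (M - 1) (N - 1) = M - 1 + (N - 1) + 2 * D := by rw [mu, ← hD]
  have hABD : D ≤ A * B := by
    refine le_of_sq_le_sq ?_ hABpos.le
    rw [mul_pow, hA2, hB2, hD2]
    nlinarith
  have hABD' : A * B - D ≤ 1 / κ := by
    rw [le_div_iff₀ hκ]
    have h3 : (A * B - D) * (A * B + D) ≤ L := by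
      have : (A * B - D) * (A * B + D) = M * N - (M - 1) * (N - 1) := by
        have e1 : (A * B - D) * (A * B + D) = A ^ 2 * B ^ 2 - D ^ 2 := by ring
        rw [e1, hA2, hB2, hD2]
      rw [this, hL]
      linarith
    have h4 : (A * B - D) * (κ * L) ≤ L := by
      refine le_trans (mul_le_mul_of_nonneg_left ?_ (by linarith)) h3
      linarith
    have h5 : (A * B - D) * κ * L ≤ 1 * L := by linarith
    exact le_of_mul_le_mul_right h5 hL0
  rw [← hA, ← hB, ← hL]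
  refine ⟨?_, ?_, ?_, ?_, hs2, ?_, ?_⟩
  · rw [hal, le_div_iff₀ hs]
    exact key A hA0 (by rw [hA2]; exact h1)
  · rw [hal', le_div_iff₀ hs]
    exact key B hB0 (by rw [hB2]; exact h2)
  · rw [hPh, le_div_iff₀ hABpos]
    calc 2 * L * (A * B) = L * (2 * (A * B)) := by ring
      _ ≤ (A + B) ^ 2 * (A + B) ^ 2 := mul_le_mul hs2' hAB2 (by positivity) (by positivity)
      _ = (A + B) ^ 4 := by ring
  · rw [hPh, div_le_div_iff₀ hABpos hκ]
    calc (A + B) ^ 4 * κ = (A + B) ^ 2 * (A + B) ^ 2 * κ := by ring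
      _ ≤ (2 * L) * (2 * L) * κ := by
          refine mul_le_mul_of_nonneg_right ?_ hκ.le
          exact mul_le_mul hs2 hs2 (by positivity) (by positivity)
      _ = 4 * L * (κ * L) := by ring
      _ ≤ 4 * L * (A * B) := mul_le_mul_of_nonneg_left hAB (by positivity)
  · rw [hmu]
    have : (A + B) ^ 2 = M + N + 2 * (A * B) := by rw [← hA2, ← hB2]; ring
    rw [this]
    linarith
  · rw [hmu]
    have : (A + B) ^ 2 = M + N + 2 * (A * B) := by rw [← hA2, ← hB2]; ring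
    rw [this]
    have h6 : 2 / κ = 2 * (1 / κ) := by ring
    rw [h6]
    linarith


private theorem ct_gX1 : (1 : ℝ) ≤ gX := by
  have h1 : (1 : ℝ) ≤ gK := gK_ge
  have h2 : (1 : ℝ) ≤ gK ^ 6 := one_le_pow₀ h1
  have h3 : gX = 10 ^ 10 * gK ^ 6 := rfl
  rw [h3]
  linarith

/-- the rate of the final bound -/
private noncomputable def cc (κ : ℝ) : ℝ := κ ^ 3 / (10 ^ 5 * gK ^ 2 * gX)

private theorem cc_facts {κ : ℝ} (hκ : 0 < κ) (hκ2 : κ ≤ 1 / 2) :
    0 < cc κ ∧ cc κ ≤ κ / (8 * gK) ∧ cc κ ≤ κ / (2240 * gK ^ 2) / gX ∧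
      cc κ ≤ κ ^ 3 / 65536 / gX ∧ cc κ ≤ κ ^ 3 / 8 := by
  have h1 : (1 : ℝ) ≤ gK := gK_ge
  have h2 : (1 : ℝ) ≤ gX := ct_gX1
  have h3 : (1 : ℝ) ≤ gK ^ 2 := one_le_pow₀ h1
  have h4 : 0 < gK := by linarith
  have h5 : 0 < gX := by linarith
  have h6 : κ ^ 3 ≤ κ := by
    have : κ ^ 2 ≤ 1 := by nlinarith
    nlinarith
  have h7 : gK ≤ gK ^ 2 := by nlinarith
  have hk3 : 0 < κ ^ 3 := by positivity
  unfold cc
  refine ⟨by positivity, ?_, ?_, ?_, ?_⟩
  · refine div_le_div₀ hκ.le h6 (by positivity) ?_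
    calc 8 * gK ≤ 10 ^ 5 * gK ^ 2 * 1 := by nlinarith
      _ ≤ 10 ^ 5 * gK ^ 2 * gX := mul_le_mul_of_nonneg_left h2 (by positivity)
  · rw [div_div]
    refine div_le_div₀ hκ.le h6 (by positivity) ?_
    refine mul_le_mul_of_nonneg_right ?_ h5.le
    nlinarith
  · rw [div_div]
    refine div_le_div_of_nonneg_left hk3.le (by positivity) ?_
    refine mul_le_mul_of_nonneg_right ?_ h5.le
    nlinarith
  · refine div_le_div_of_nonneg_left hk3.le (by positivity) ?_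
    calc (8 : ℝ) ≤ 10 ^ 5 * gK ^ 2 * 1 := by nlinarith
      _ ≤ 10 ^ 5 * gK ^ 2 * gX := mul_le_mul_of_nonneg_left h2 (by positivity)

/-- the upper tail -/
private theorem ct_up {κ : ℝ} (hκ : 0 < κ) (hκ2 : κ ≤ 1 / 2) {m n : ℕ} (hm : 1 ≤ m) (hn : 1 ≤ n)
    (h1 : κ * ((m : ℝ) + n) ≤ m) (h2 : κ * ((m : ℝ) + n) ≤ n) {y R : ℝ} (hy : 0 ≤ y)
    (hR1 : 1 ≤ R) (hR3 : ((m : ℝ) + n) / 2 ≤ R ^ 3) :
    PG.real {ω | (√m + √n) ^ 2 + y * R / 2 ≤ T ω (1, 1) ((m : ℤ), (n : ℤ))} ≤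
      Real.exp 1 * Real.exp (-(κ / (8 * gK) * y)) := by
  have hM1 : (1 : ℝ) ≤ m := by exact_mod_cast hm
  have hN1 : (1 : ℝ) ≤ n := by exact_mod_cast hn
  have hK1 : (1 : ℝ) ≤ gK := gK_ge
  have hK0 : 0 < gK := by linarith
  obtain ⟨a1, a2, a3, a4, a5, a6, a7⟩ := ct_alg hκ hκ2 hM1 hN1 h1 h2
  have hR0 : 0 < R := by linarith
  have hθ : κ / (4 * R) ≤ κ / 4 := by
    rw [div_le_div_iff₀ (by positivity) (by norm_num)]
    nlinarith
  have h3 := upper_tail hm hn (u := κ / (4 * R)) (z := y * R / 2) (by positivity)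
    (by positivity) (Or.inl (by linarith))
  refine h3.trans ?_
  rw [← Real.exp_add]
  refine Real.exp_le_exp.2 ?_
  have h4 : κ / (4 * R) * (y * R / 2) / gK = κ / (8 * gK) * y := by
    field_simp
    ring
  have h5 : 2 * (κ / (4 * R)) ^ 3 * Ph m n ≤ 1 := by
    have hL : (0 : ℝ) < (m : ℝ) + n := by linarith
    calc 2 * (κ / (4 * R)) ^ 3 * Ph m n = 2 * (κ ^ 3 * Ph m n / (64 * R ^ 3)) := by
          field_simp
          ring
      _ ≤ 2 * (κ ^ 3 * (4 * ((m : ℝ) + n) / κ) / (64 * (((m : ℝ) + n) / 2))) := by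
          refine mul_le_mul_of_nonneg_left ?_ (by norm_num)
          refine div_le_div₀ (by positivity) ?_ (by positivity) (by linarith)
          exact mul_le_mul_of_nonneg_left a4 (by positivity)
      _ = κ ^ 2 / 4 := by
          field_simp
          ring
      _ ≤ 1 := by nlinarith
  rw [h4]
  linarith

/-- the lower tail -/
private theorem ct_low {κ : ℝ} (hκ : 0 < κ) (hκ2 : κ ≤ 1 / 2) {m n : ℕ} (hm : 1 ≤ m) (hn : 1 ≤ n)
    (h1 : κ * ((m : ℝ) + n) ≤ m) (h2 : κ * ((m : ℝ) + n) ≤ n) {y R : ℝ} (hy : 1 ≤ y)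
    (hR1 : 1 ≤ R) (hR3 : ((m : ℝ) + n) / 2 ≤ R ^ 3) :
    PG.real {ω | T ω (1, 1) ((m : ℤ), (n : ℤ)) ≤ (√m + √n) ^ 2 - y * R} ≤
      30 * Real.exp (-(cc κ * y)) := by
  have hM1 : (1 : ℝ) ≤ m := by exact_mod_cast hm
  have hN1 : (1 : ℝ) ≤ n := by exact_mod_cast hn
  have hK1 : (1 : ℝ) ≤ gK := gK_ge
  have hK0 : 0 < gK := by linarith
  have hX0 : 0 < gX := gX_pos
  obtain ⟨c1, c2, c3, c4, c5⟩ := cc_facts hκ hκ2
  obtain ⟨a1, a2, a3, a4, a5, a6, a7⟩ := ct_alg hκ hκ2 hM1 hN1 h1 h2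
  have hR0 : 0 < R := by linarith
  have hL : (0 : ℝ) < (m : ℝ) + n := by linarith
  have hPh0 : 0 < Ph m n := by linarith
  rcases lt_or_ge (4 * ((m : ℝ) + n)) y with hy4 | hy4
  · -- the event is empty up to a null set
    have h3 : PG.real {ω | T ω (1, 1) ((m : ℤ), (n : ℤ)) ≤
        (√m + √n) ^ 2 - y * R} = 0 := by
      rw [measureReal_def]
      have h4 : PG {ω | T ω (1, 1) ((m : ℤ), (n : ℤ)) ≤
          (√m + √n) ^ 2 - y * R} = 0 := by
        have h5 : ∀ᵐ ω ∂PG, ¬ (T ω (1, 1) ((m : ℤ), (n : ℤ)) ≤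
            (√m + √n) ^ 2 - y * R) := by
          filter_upwards [ae_nonneg] with ω hω hle
          have h6 : 0 ≤ T ω (1, 1) ((m : ℤ), (n : ℤ)) := by
            refine T_nonneg ?_ fun z _ _ => hω z
            exact ⟨by simpa using hm, by simpa using hn⟩
          have h7 : y ≤ y * R := le_mul_of_one_le_right (by linarith) hR1
          linarith
        rw [ae_iff] at h5
        simpa using h5
      rw [h4]
      simp
    rw [h3]
    positivity
  · obtain ⟨t, ht⟩ : ∃ t, t = √(y * R / (70 * gK * Ph m n)) := ⟨_, rfl⟩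
    have hyR : 0 < y * R := by positivity
    have ht0 : 0 < t := by rw [ht]; exact Real.sqrt_pos.2 (by positivity)
    have ht2 : t ^ 2 = y * R / (70 * gK * Ph m n) := by
      rw [ht]; exact Real.sq_sqrt (by positivity)
    have ht2' : 70 * gK * t ^ 2 * Ph m n = y * R := by
      rw [ht2]
      field_simp
    rcases le_or_gt t (κ / 32) with hc | hc
    · have h3 := lower_tail hm hn ht0 (by linarith) (by linarith)
      rw [ht2'] at h3
      refine h3.trans (mul_le_mul_of_nonneg_left (Real.exp_le_exp.2 ?_) (by norm_num))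
      have h4 : κ / (32 * gK) ≤ t * R := by
        refine le_of_sq_le_sq ?_ (by positivity)
        have h5 : (t * R) ^ 2 = y * R ^ 3 / (70 * gK * Ph m n) := by
          rw [mul_pow, ht2]
          ring
        rw [h5, le_div_iff₀ (by positivity)]
        calc (κ / (32 * gK)) ^ 2 * (70 * gK * Ph m n)
            ≤ (κ / (32 * gK)) ^ 2 * (70 * gK * (4 * ((m : ℝ) + n) / κ)) := by
              refine mul_le_mul_of_nonneg_left ?_ (by positivity)
              exact mul_le_mul_of_nonneg_left a4 (by positivity)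
          _ = (35 / 64 * κ / gK) * (((m : ℝ) + n) / 2) := by
              field_simp
              ring
          _ ≤ 1 * (((m : ℝ) + n) / 2) := by
              refine mul_le_mul_of_nonneg_right ?_ (by positivity)
              rw [div_le_one hK0]
              linarith
          _ ≤ y * R ^ 3 := mul_le_mul hy hR3 (by positivity) (by linarith)
      have h6 : t ^ 3 * Ph m n = t * R * y / (70 * gK) := by
        have : t ^ 3 * Ph m n = t * (70 * gK * t ^ 2 * Ph m n) / (70 * gK) := by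
          field_simp
        rw [this, ht2']
        ring
      have h7 : κ / (2240 * gK ^ 2) * y ≤ t ^ 3 * Ph m n := by
        rw [h6]
        calc κ / (2240 * gK ^ 2) * y = κ / (32 * gK) * y / (70 * gK) := by
              field_simp
              ring
          _ ≤ t * R * y / (70 * gK) := by
              refine div_le_div_of_nonneg_right ?_ (by positivity)
              exact mul_le_mul_of_nonneg_right h4 (by linarith)
      have h8 : cc κ * y ≤ κ / (2240 * gK ^ 2) / gX * y :=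
        mul_le_mul_of_nonneg_right c3 (by linarith)
      have h9 : κ / (2240 * gK ^ 2) / gX * y = κ / (2240 * gK ^ 2) * y / gX := by ring
      have h12 : κ / (2240 * gK ^ 2) * y / gX ≤ t ^ 3 * Ph m n / gX :=
        div_le_div_of_nonneg_right h7 hX0.le
      linarith
    · have h3 := lower_tail hm hn (t := κ / 32) (by positivity) (by linarith) (by linarith)
      have h4 : 70 * gK * (κ / 32) ^ 2 * Ph m n ≤ y * R := by
        rw [← ht2']
        refine mul_le_mul_of_nonneg_right ?_ hPh0.le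
        refine mul_le_mul_of_nonneg_left ?_ (by positivity)
        exact pow_le_pow_left₀ (by positivity) hc.le 2
      have h5 : PG.real {ω | T ω (1, 1) ((m : ℤ), (n : ℤ)) ≤
          (√m + √n) ^ 2 - y * R} ≤ PG.real {ω | T ω (1, 1) ((m : ℤ), (n : ℤ)) ≤
          (√m + √n) ^ 2 - 70 * gK * (κ / 32) ^ 2 * Ph m n} := by
        refine measureReal_mono (fun ω hω => ?_)
        simp only [Set.mem_ofPred_eq] at hω ⊢
        linarith
      refine h5.trans (h3.trans (mul_le_mul_of_nonneg_left (Real.exp_le_exp.2 ?_) (by norm_num)))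
      have h6 : κ ^ 3 / 65536 * y ≤ (κ / 32) ^ 3 * Ph m n := by
        have h7 : y / 2 ≤ Ph m n := by linarith
        calc κ ^ 3 / 65536 * y = (κ / 32) ^ 3 * (y / 2) := by ring
          _ ≤ (κ / 32) ^ 3 * Ph m n := mul_le_mul_of_nonneg_left h7 (by positivity)
      have h8 : cc κ * y ≤ κ ^ 3 / 65536 / gX * y :=
        mul_le_mul_of_nonneg_right c4 (by linarith)
      have h9 : κ ^ 3 / 65536 / gX * y = κ ^ 3 / 65536 * y / gX := by ring
      have h12 : κ ^ 3 / 65536 * y / gX ≤ (κ / 32) ^ 3 * Ph m n / gX :=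
        div_le_div_of_nonneg_right h6 hX0.le
      linarith

theorem cone_tail {κ : ℝ} (hκ : 0 < κ) : ∃ C c : ℝ, 0 < C ∧ 0 < c ∧
    ∀ u v : ℤ × ℤ, u ≤ v → κ * ((lev v - lev u : ℤ) : ℝ) ≤ ((v.1 - u.1 : ℤ) : ℝ) →
      κ * ((lev v - lev u : ℤ) : ℝ) ≤ ((v.2 - u.2 : ℤ) : ℝ) → ∀ y : ℝ, 0 ≤ y →
    PG.real {ω | y * (((lev v - lev u : ℤ) : ℝ) + 1) ^ (1 / 3 : ℝ) ≤
      |T ω u v - mu ((v.1 - u.1 : ℤ)) ((v.2 - u.2 : ℤ))|} ≤ C * Real.exp (-(c * y)) := by
  obtain ⟨k, hk⟩ : ∃ k, k = min κ (1 / 2) := ⟨_, rfl⟩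
  have hk0 : 0 < k := by rw [hk]; exact lt_min hκ (by norm_num)
  have hk2 : k ≤ 1 / 2 := by rw [hk]; exact min_le_right _ _
  have hkκ : k ≤ κ := by rw [hk]; exact min_le_left _ _
  have hexp1 : (1 : ℝ) ≤ Real.exp 1 := by
    have := Real.add_one_le_exp (1 : ℝ)
    linarith
  obtain ⟨c1, c2, c3, c4, c5⟩ := cc_facts hk0 hk2
  refine ⟨Real.exp 1 + 30, cc k, by positivity, c1, ?_⟩
  intro u v huv h1 h2 y hy
  obtain ⟨m, hm⟩ : ∃ m : ℕ, (m : ℤ) = v.1 - u.1 + 1 := ⟨(v.1 - u.1 + 1).toNat, by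
    have := huv.1
    rw [Int.toNat_of_nonneg (by linarith)]⟩
  obtain ⟨n, hn⟩ : ∃ n : ℕ, (n : ℤ) = v.2 - u.2 + 1 := ⟨(v.2 - u.2 + 1).toNat, by
    have := huv.2
    rw [Int.toNat_of_nonneg (by linarith)]⟩
  have hm1 : 1 ≤ m := by
    have := huv.1
    have : (1 : ℤ) ≤ m := by rw [hm]; linarith
    exact_mod_cast this
  have hn1 : 1 ≤ n := by
    have := huv.2
    have : (1 : ℤ) ≤ n := by rw [hn]; linarith
    exact_mod_cast this
  have hmR : ((v.1 - u.1 : ℤ) : ℝ) = (m : ℝ) - 1 := by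
    have : (v.1 - u.1 : ℤ) = (m : ℤ) - 1 := by rw [hm]; ring
    rw [this]
    push_cast
    ring
  have hnR : ((v.2 - u.2 : ℤ) : ℝ) = (n : ℝ) - 1 := by
    have : (v.2 - u.2 : ℤ) = (n : ℤ) - 1 := by rw [hn]; ring
    rw [this]
    push_cast
    ring
  have hlR : ((lev v - lev u : ℤ) : ℝ) = (m : ℝ) + n - 2 := by
    have : (lev v - lev u : ℤ) = (m : ℤ) + n - 2 := by rw [hm, hn, lev, lev]; ring
    rw [this]
    push_cast
    ring
  have hM1 : (1 : ℝ) ≤ m := by exact_mod_cast hm1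
  have hN1 : (1 : ℝ) ≤ n := by exact_mod_cast hn1
  rw [hlR, hmR] at h1
  rw [hlR, hnR] at h2
  have hr0 : 0 ≤ (m : ℝ) + n - 2 := by linarith
  have h3 : k * ((m : ℝ) + n) ≤ m := by
    have : k * ((m : ℝ) + n - 2) ≤ κ * ((m : ℝ) + n - 2) := mul_le_mul_of_nonneg_right hkκ hr0
    nlinarith
  have h4 : k * ((m : ℝ) + n) ≤ n := by
    have : k * ((m : ℝ) + n - 2) ≤ κ * ((m : ℝ) + n - 2) := mul_le_mul_of_nonneg_right hkκ hr0
    nlinarith
  obtain ⟨R, hR⟩ : ∃ R : ℝ, R = ((m : ℝ) + n - 1) ^ (1 / 3 : ℝ) := ⟨_, rfl⟩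
  have hR1 : 1 ≤ R := by
    rw [hR]
    exact Real.one_le_rpow (by linarith) (by norm_num)
  have hR3 : ((m : ℝ) + n) / 2 ≤ R ^ 3 := by
    have : R ^ 3 = (m : ℝ) + n - 1 := by
      rw [hR, ← Real.rpow_natCast, ← Real.rpow_mul (by linarith)]
      norm_num
    rw [this]
    linarith
  obtain ⟨a1, a2, a3, a4, a5, a6, a7⟩ := ct_alg hk0 hk2 hM1 hN1 h3 h4
  have hB : MeasurableSet {t : ℝ | y * R ≤ |t - mu ((m : ℝ) - 1) ((n : ℝ) - 1)|} := by
    apply measurableSet_le <;> fun_prop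
  have h5 := ct_shift huv hB hm hn
  rw [hlR, hmR, hnR]
  have h6 : (m : ℝ) + n - 2 + 1 = (m : ℝ) + n - 1 := by ring
  rw [h6, ← hR]
  have h7 : PG.real {ω | y * R ≤ |T ω u v - mu ((m : ℝ) - 1) ((n : ℝ) - 1)|} =
      PG.real {ω | y * R ≤
        |T ω (1, 1) ((m : ℤ), (n : ℤ)) - mu ((m : ℝ) - 1) ((n : ℝ) - 1)|} := h5
  rw [h7]
  rcases lt_or_ge y (2 * (2 + 2 / k)) with hy1 | hy1
  · -- small `y`
    refine measureReal_le_one.trans ?_
    have h8 : cc k * y ≤ 1 := by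
      have h9 : k ^ 3 * y ≤ k ^ 3 * (2 * (2 + 2 / k)) :=
        mul_le_mul_of_nonneg_left hy1.le (by positivity)
      have h10 : k ^ 3 * (2 * (2 + 2 / k)) = 4 * k ^ 3 + 4 * k ^ 2 := by
        field_simp
        ring
      have h11 : k ^ 2 ≤ 1 := by nlinarith
      have h12 : k ^ 3 ≤ 1 := by nlinarith
      have h13 : k ^ 3 * y ≤ 8 := by linarith
      have h14 : cc k * y ≤ k ^ 3 / 8 * y := mul_le_mul_of_nonneg_right c5 hy
      linarith
    have h9 : Real.exp (-1) ≤ Real.exp (-(cc k * y)) :=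
      Real.exp_le_exp.2 (by linarith)
    have h10 : Real.exp 1 * Real.exp (-1) = 1 := by
      rw [← Real.exp_add]
      simp
    have h11 : 0 < Real.exp (-(cc k * y)) := Real.exp_pos _
    calc (1 : ℝ) = Real.exp 1 * Real.exp (-1) := h10.symm
      _ ≤ Real.exp 1 * Real.exp (-(cc k * y)) :=
          mul_le_mul_of_nonneg_left h9 (Real.exp_pos _).le
      _ ≤ (Real.exp 1 + 30) * Real.exp (-(cc k * y)) :=
          mul_le_mul_of_nonneg_right (by linarith) h11.le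
  · -- large `y`
    have hk4 : 0 < 2 / k := by positivity
    have hy2 : 1 ≤ y := by linarith
    have hyR : y ≤ y * R := le_mul_of_one_le_right hy hR1
    have h8 : {ω : ℤ × ℤ → ℝ | y * R ≤
        |T ω (1, 1) ((m : ℤ), (n : ℤ)) - mu ((m : ℝ) - 1) ((n : ℝ) - 1)|} ⊆
        {ω | (√m + √n) ^ 2 + y * R / 2 ≤ T ω (1, 1) ((m : ℤ), (n : ℤ))} ∪
        {ω | T ω (1, 1) ((m : ℤ), (n : ℤ)) ≤ (√m + √n) ^ 2 - y * R} := by
      intro ω hω
      simp only [Set.mem_ofPred_eq, Set.mem_union] at hω ⊢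
      rcases le_abs.1 hω with h9 | h9
      · left
        linarith
      · right
        linarith
    have h9 := ct_up hk0 hk2 hm1 hn1 h3 h4 hy hR1 hR3
    have h10 := ct_low hk0 hk2 hm1 hn1 h3 h4 hy2 hR1 hR3
    have h11 : Real.exp (-(k / (8 * gK) * y)) ≤ Real.exp (-(cc k * y)) := by
      refine Real.exp_le_exp.2 ?_
      have := mul_le_mul_of_nonneg_right c2 hy
      linarith
    calc PG.real {ω | y * R ≤
          |T ω (1, 1) ((m : ℤ), (n : ℤ)) - mu ((m : ℝ) - 1) ((n : ℝ) - 1)|}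
        ≤ PG.real ({ω | (√m + √n) ^ 2 + y * R / 2 ≤
            T ω (1, 1) ((m : ℤ), (n : ℤ))} ∪
          {ω | T ω (1, 1) ((m : ℤ), (n : ℤ)) ≤ (√m + √n) ^ 2 - y * R}) :=
          measureReal_mono h8
      _ ≤ Real.exp 1 * Real.exp (-(k / (8 * gK) * y)) + 30 * Real.exp (-(cc k * y)) :=
          (measureReal_union_le _ _).trans (add_le_add h9 h10)
      _ ≤ Real.exp 1 * Real.exp (-(cc k * y)) +
            30 * Real.exp (-(cc k * y)) := by
          have := mul_le_mul_of_nonneg_left h11 (Real.exp_pos 1).le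
          linarith
      _ = (Real.exp 1 + 30) * Real.exp (-(cc k * y)) := by ring


end BGG
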