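import Pool.Agent.BGG.Prod
import Pool.Agent.BGE.SqPaths

/-!
BGG / T3. Sums of squares of weights along paths, law `PG`.

The weights are `gqm q e ≤ A e + 1` with `e` exponential (`gqm_le`, `mp_gE`), so on every path
`∑ ω² ≤ 2 A² ∑ e² + 2 R`, and everything follows from `BGE.max_tail` and `BGE.sq_paths` with
`C = max (2 A² · 160 + 2, 2 A², A, 1)`.
-/

namespace BGG

open MeasureTheory ProbabilityTheory BGE

variable [GeoPar]

private theorem gqm_bd : ∃ A : ℝ, 1 ≤ A ∧ ∀ x : ℝ, gqm GeoPar.q x ≤ A * |x| + 1 ∧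
    (0 ≤ x ∨ gqm GeoPar.q x ≤ 1) := by
  obtain ⟨A, hA, h⟩ := gqm_le
  refine ⟨A, hA, fun x => ?_⟩
  rcases le_or_gt 0 x with hx | hx
  · refine ⟨?_, Or.inl hx⟩
    rw [abs_of_nonneg hx]
    exact h x hx
  · have h1 : gqm GeoPar.q x ≤ 1 := by
      unfold gqm
      have hl : 0 < -Real.log GeoPar.q := by
        have := Real.log_neg GeoPar.q_pos GeoPar.q_lt
        linarith
      rw [Nat.floor_of_nonpos (div_nonpos_of_nonpos_of_nonneg hx.le hl.le)]
      simp only [Nat.cast_zero, mul_zero, zero_add]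
      exact gd_lt.le
    refine ⟨?_, Or.inr h1⟩
    have : 0 ≤ A * |x| := by positivity
    linarith

theorem max_tail : ∃ A : ℝ, 1 ≤ A ∧ ∀ u v : ℤ × ℤ, u ≤ v → ∀ B : ℝ, 0 ≤ B →
    PG.real {ω | ∃ z, u ≤ z ∧ z ≤ v ∧ A * B + 1 < ω z} ≤
      (((lev v - lev u : ℤ) : ℝ) + 1) ^ 2 * Real.exp (-B) := by
  obtain ⟨A, hA, h⟩ := gqm_bd
  refine ⟨A, hA, fun u v huv B hB => ?_⟩
  have hm : MeasurableSet {ω : ℤ × ℤ → ℝ | ∃ z, u ≤ z ∧ z ≤ v ∧ A * B + 1 < ω z} := by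
    have e : {ω : ℤ × ℤ → ℝ | ∃ z, u ≤ z ∧ z ≤ v ∧ A * B + 1 < ω z} =
        ⋃ z ∈ Finset.Icc u v, (fun ω : ℤ × ℤ → ℝ => ω z) ⁻¹' Set.Ioi (A * B + 1) := by
      ext ω
      simp only [Set.mem_iUnion, Finset.mem_Icc, Set.mem_preimage, Set.mem_Ioi, exists_prop,
        and_assoc]
      rfl
    rw [e]
    exact Finset.measurableSet_biUnion _ fun z _ => measurable_pi_apply z measurableSet_Ioi
  rw [PG_real hm]
  refine (measureReal_mono ?_ (measure_ne_top _ _)).trans (BGE.max_tail u v huv hB)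
  rintro ω ⟨z, h1, h2, h3⟩
  refine ⟨z, h1, h2, ?_⟩
  change A * B + 1 < gqm GeoPar.q (ω z) at h3
  have hAB : 0 ≤ A * B := mul_nonneg (by linarith) hB
  rcases (h (ω z)).2 with h4 | h4
  · have h5 := (h (ω z)).1
    rw [abs_of_nonneg h4] at h5
    have h6 : A * B < A * ω z := by linarith
    exact lt_of_mul_lt_mul_left h6 (by linarith)
  · linarith

theorem sq_paths : ∃ C : ℝ, 1 ≤ C ∧ ∀ u v : ℤ × ℤ, u ≤ v → ∀ B : ℝ, 1 ≤ B →
    PG.real {ω | ∃ x : ℤ → ℤ, UR x (lev u) (lev v) ∧ pt x (lev u) = u ∧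
      pt x (lev v) = v ∧
      C * (((lev v - lev u : ℤ) : ℝ) + 1) + C * (B + 1) ^ 3 <
        ∑ l ∈ Finset.Icc (lev u) (lev v), ω (pt x l) ^ 2} ≤
      2 * (((lev v - lev u : ℤ) : ℝ) + 1) ^ 2 * Real.exp (-B) := by
  classical
  obtain ⟨A, hA, h⟩ := gqm_bd
  refine ⟨320 * A ^ 2 + 2, by nlinarith, fun u v huv B hB => ?_⟩
  set C : ℝ := 320 * A ^ 2 + 2 with hC
  set R : ℝ := ((lev v - lev u : ℤ) : ℝ) + 1 with hR
  have hlev : lev u ≤ lev v := by
    have h1 : u.1 ≤ v.1 := huv.1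
    have h2 : u.2 ≤ v.2 := huv.2
    unfold lev
    linarith
  have hR1 : 1 ≤ R := by
    have h3 : (0 : ℤ) ≤ lev v - lev u := by linarith
    have h4 : (0 : ℝ) ≤ ((lev v - lev u : ℤ) : ℝ) := by exact_mod_cast h3
    rw [hR]
    linarith
  have hcard : ((Finset.Icc (lev u) (lev v)).card : ℝ) = R := by
    rw [Int.card_Icc, hR]
    have h5 : ((lev v + 1 - lev u).toNat : ℤ) = lev v + 1 - lev u := Int.toNat_of_nonneg (by omega)
    have h6 : (((lev v + 1 - lev u).toNat : ℤ) : ℝ) = ((lev v + 1 - lev u : ℤ) : ℝ) := by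
      rw [h5]
    have h7 : (((lev v + 1 - lev u).toNat : ℕ) : ℝ) = ((lev v + 1 - lev u : ℤ) : ℝ) := by
      rw [← h6]
      norm_cast
    rw [h7]
    push_cast
    ring
  have hinj : ∀ x : ℤ → ℤ, Function.Injective (pt x) := by
    intro x a b hab
    have h1 := congrArg lev hab
    unfold lev pt at h1
    simp only at h1
    linarith
  have hm : MeasurableSet {ω : ℤ × ℤ → ℝ | ∃ x : ℤ → ℤ, UR x (lev u) (lev v) ∧
      pt x (lev u) = u ∧ pt x (lev v) = v ∧ C * R + C * (B + 1) ^ 3 <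
        ∑ l ∈ Finset.Icc (lev u) (lev v), ω (pt x l) ^ 2} := by
    have e : {ω : ℤ × ℤ → ℝ | ∃ x : ℤ → ℤ, UR x (lev u) (lev v) ∧
        pt x (lev u) = u ∧ pt x (lev v) = v ∧ C * R + C * (B + 1) ^ 3 <
          ∑ l ∈ Finset.Icc (lev u) (lev v), ω (pt x l) ^ 2} =
        ⋃ S : Finset (ℤ × ℤ), ⋃ (_ : ∃ x : ℤ → ℤ, UR x (lev u) (lev v) ∧
          pt x (lev u) = u ∧ pt x (lev v) = v ∧ S = (Finset.Icc (lev u) (lev v)).image (pt x)),
          {ω : ℤ × ℤ → ℝ | C * R + C * (B + 1) ^ 3 < ∑ z ∈ S, ω z ^ 2} := by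
      ext ω
      simp only [Set.mem_iUnion, exists_prop]
      constructor
      · rintro ⟨x, h1, h2, h3, h4⟩
        refine ⟨_, ⟨x, h1, h2, h3, rfl⟩, ?_⟩
        change C * R + C * (B + 1) ^ 3 < ∑ z ∈ (Finset.Icc (lev u) (lev v)).image (pt x), ω z ^ 2
        rw [Finset.sum_image fun a _ b _ hab => hinj x hab]
        exact h4
      · rintro ⟨S, ⟨x, h1, h2, h3, rfl⟩, h4⟩
        refine ⟨x, h1, h2, h3, ?_⟩
        change C * R + C * (B + 1) ^ 3 <
          ∑ z ∈ (Finset.Icc (lev u) (lev v)).image (pt x), ω z ^ 2 at h4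
        rwa [Finset.sum_image fun a _ b _ hab => hinj x hab] at h4
    rw [e]
    refine MeasurableSet.iUnion fun S => MeasurableSet.iUnion fun _ => ?_
    exact measurableSet_lt measurable_const
      (Finset.measurable_sum _ fun z _ => (measurable_pi_apply z).pow_const 2)
  rw [PG_real hm]
  refine (measureReal_mono ?_ (measure_ne_top _ _)).trans (BGE.sq_paths huv hB)
  rintro ω ⟨x, h1, h2, h3, h4⟩
  refine ⟨x, h1, h2, h3, ?_⟩
  rw [← hR]
  have h5 : ∑ l ∈ Finset.Icc (lev u) (lev v), gE ω (pt x l) ^ 2 ≤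
      2 * A ^ 2 * ∑ l ∈ Finset.Icc (lev u) (lev v), ω (pt x l) ^ 2 + 2 * R := by
    rw [← hcard, Finset.mul_sum]
    calc ∑ l ∈ Finset.Icc (lev u) (lev v), gE ω (pt x l) ^ 2
        ≤ ∑ l ∈ Finset.Icc (lev u) (lev v), (2 * A ^ 2 * ω (pt x l) ^ 2 + 2) := by
          refine Finset.sum_le_sum fun l _ => ?_
          have k1 : gE ω (pt x l) ≤ A * |ω (pt x l)| + 1 := (h _).1
          have k2 : 0 ≤ gE ω (pt x l) := gqm_nonneg _ _
          have k3 : gE ω (pt x l) ^ 2 ≤ (A * |ω (pt x l)| + 1) ^ 2 := pow_le_pow_left₀ k2 k1 2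
          have k4 : (A * |ω (pt x l)| + 1) ^ 2 ≤ 2 * (A * |ω (pt x l)|) ^ 2 + 2 := by
            nlinarith [sq_nonneg (A * |ω (pt x l)| - 1)]
          have k5 : (A * |ω (pt x l)|) ^ 2 = A ^ 2 * ω (pt x l) ^ 2 := by
            rw [mul_pow, sq_abs]
          rw [k5] at k4
          linarith
      _ = _ := by
          rw [Finset.sum_add_distrib, Finset.sum_const, nsmul_eq_mul]
          ring
  have h6 : C * R + C * (B + 1) ^ 3 < 2 * A ^ 2 *
      ∑ l ∈ Finset.Icc (lev u) (lev v), ω (pt x l) ^ 2 + 2 * R := lt_of_lt_of_le h4 h5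
  have hA2 : 0 < 2 * A ^ 2 := by positivity
  have hB3 : 0 ≤ (B + 1) ^ 3 := by positivity
  have h7 : 2 * A ^ 2 * (160 * R + (B + 1) ^ 3) <
      2 * A ^ 2 * ∑ l ∈ Finset.Icc (lev u) (lev v), ω (pt x l) ^ 2 := by
    have h8 : 2 * A ^ 2 * (B + 1) ^ 3 ≤ C * (B + 1) ^ 3 := by
      apply mul_le_mul_of_nonneg_right _ hB3
      rw [hC]
      nlinarith
    have h9 : C * R = 2 * A ^ 2 * (160 * R) + 2 * R := by
      rw [hC]
      ring
    rw [mul_add]
    linarith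
  exact lt_of_mul_lt_mul_left h7 hA2.le

/-- tail of one weight -/
theorem site_tail : ∃ C c : ℝ, 1 ≤ C ∧ 0 < c ∧ ∀ (z : ℤ × ℤ) (B : ℝ), 0 ≤ B →
    PG.real {ω | B < ω z} ≤ C * Real.exp (-(c * B)) := by
  obtain ⟨A, hA, h⟩ := max_tail
  have hA0 : 0 < A := by linarith
  refine ⟨Real.exp 1, 1 / A, Real.one_le_exp zero_le_one, by positivity, fun z B hB => ?_⟩
  rw [← Real.exp_add]
  rcases le_or_gt 1 B with hB1 | hB1
  · have h1 := h z z le_rfl ((B - 1) / A) (div_nonneg (by linarith) hA0.le)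
    have e1 : A * ((B - 1) / A) + 1 = B := by
      field_simp
      ring
    rw [e1] at h1
    have h2 : PG.real {ω : ℤ × ℤ → ℝ | B < ω z} ≤
        PG.real {ω : ℤ × ℤ → ℝ | ∃ z', z ≤ z' ∧ z' ≤ z ∧ B < ω z'} :=
      measureReal_mono (fun ω hω => ⟨z, le_rfl, le_rfl, hω⟩) (measure_ne_top _ _)
    refine h2.trans (h1.trans ?_)
    rw [sub_self, Int.cast_zero, zero_add, one_pow, one_mul, Real.exp_le_exp]
    have e2 : -((B - 1) / A) = 1 / A + -(1 / A * B) := by ring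
    rw [e2]
    have h3 : 1 / A ≤ 1 := by
      rw [div_le_one hA0]
      exact hA
    linarith
  · refine le_trans measureReal_le_one (Real.one_le_exp ?_)
    have h3 : 1 / A ≤ 1 := by
      rw [div_le_one hA0]
      exact hA
    have h4 : 1 / A * B ≤ 1 * 1 := mul_le_mul h3 hB1.le hB zero_le_one
    linarith

end BGG
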