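import Pool.Agent.BGG.ConcPair
import Pool.Agent.BGG.SqPaths
import Pool.Agent.BGG.Prod
import Pool.Agent.BGE.TimeStab

/-!
BGG / T5. Time stability of last passage times, law `mu3` of BGG (two independent environments with
law `PG`, exponential clock variables with law `PI`). Adaptation of `Pool/Agent/BGE/TimeStab.lean`
(same statement). Changes:
* `conc_pair`, `QV` of BGG; instead of the uniqueness of geodesics (`ae_via_unique`) use `QV_path`:
  for fixed `ω` the chosen geodesic does not depend on `K = {z : U z < τ}`, so `BGE.thin` applies to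
  its sites given `ω`;
* `max_tail`, `sq_paths` of BGG: the weights are at most `A B + 1` with `B = y^{1/4} + 2 log (R+1)`, and
  `∑ ω² ≤ C R + C (B+1)³` on all paths; all the constants change by factors depending on `q`.
-/

namespace BGG

open MeasureTheory ProbabilityTheory BGE Set Filter
open scoped ENNReal Topology

theorem tsg_measurable_QV {X : Type*} [MeasurableSpace X] {f : X → ℤ × ℤ → ℝ} (hf : Measurable f)
    {K : X → Set (ℤ × ℤ)} (hK : ∀ z, MeasurableSet {x | z ∈ K x}) (u v : ℤ × ℤ) :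
    Measurable (fun x => QV (f x) (K x) u v) := by
  classical
  unfold QV
  refine measurable_QR hf ?_ u _ _
  rw [measurable_pi_iff]
  intro z
  exact Measurable.ite (hK z) (((measurable_pi_apply z).comp hf).pow_const 2) measurable_const

variable [GeoPar]

theorem tsg_pair_conc (K : Set (ℤ × ℤ)) (a : ℤ × ℤ → ℝ) (ha : ∀ z, 0 ≤ a z) {u v : ℤ × ℤ}
    (h : u ≤ v) {z q : ℝ} (hz : 0 ≤ z) (hq : 0 < q) :
    (PG.prod PG).real
      {w | 2 * z ≤ |T (mix K w.2 a) u v - T (mix K w.1 a) u v|} ≤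
      12 * Real.exp (-(z ^ 2 / (4 * q))) +
        10 * PG.real {x | q < QV (mix K x a) K u v} := by
  set P := PG with hP
  set f : (ℤ × ℤ → ℝ) → ℝ := fun x => T (mix K x a) u v with hf
  have hmm : Measurable fun x : ℤ × ℤ → ℝ => mix K x a :=
    (ts_measurable_mix K).comp (measurable_id.prodMk measurable_const)
  have hfm : Measurable f := (measurable_T u v).comp hmm
  obtain ⟨M, hM1, hM2⟩ := ts_exists_median P hfm
  set e := Real.exp (-(z ^ 2 / (4 * q))) with he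
  have he0 : 0 < e := Real.exp_pos _
  set p := P.real {x | q < QV (mix K x a) K u v} with hp
  have hp0 : 0 ≤ p := measureReal_nonneg
  have c1 := conc_pair K a ha h (M := M) hz hq
  have c2 := conc_pair K a ha h (M := M - z) hz hq
  rw [← hP, ← he] at c1 c2
  have sub1 : ∀ t : ℝ, P.real {x | t ≤ f x} ≤
      P.real {x | t ≤ T (mix K x a) u v ∧ QV (mix K x a) K u v ≤ q} + p := by
    intro t
    refine le_trans (measureReal_mono ?_ (measure_ne_top _ _)) (measureReal_union_le _ _)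
    intro x hx
    by_cases hQ : QV (mix K x a) K u v ≤ q
    · exact Or.inl ⟨hx, hQ⟩
    · exact Or.inr (not_le.1 hQ)
  have n1 : 0 ≤ P.real {x | M + z ≤ T (mix K x a) u v ∧ QV (mix K x a) K u v ≤ q} :=
    measureReal_nonneg
  have u1 : P.real {x | M + z ≤ f x} ≤ 2 * e + p := by
    have := sub1 (M + z)
    nlinarith
  have u2 : P.real {x | f x ≤ M - z} ≤ 4 * e + 4 * p := by
    by_cases hp4 : p ≤ 1/4
    · have h1 := sub1 M
      rw [sub_add_cancel] at c2
      have n2 : 0 ≤ P.real {x | f x ≤ M - z} := measureReal_nonneg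
      have h2 : 1/4 ≤ P.real {x | M ≤ T (mix K x a) u v ∧ QV (mix K x a) K u v ≤ q} := by
        linarith
      have h3 : P.real {x | f x ≤ M - z} * (1/4) ≤ e := le_trans
        (mul_le_mul_of_nonneg_left h2 n2) c2
      linarith
    · have : P.real {x | f x ≤ M - z} ≤ 1 := measureReal_le_one
      push Not at hp4
      linarith
  have u3 : P.real {x | z ≤ |f x - M|} ≤ 6 * e + 5 * p := by
    have : P.real {x | z ≤ |f x - M|} ≤ P.real {x | M + z ≤ f x} + P.real {x | f x ≤ M - z} := by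
      refine le_trans (measureReal_mono ?_ (measure_ne_top _ _)) (measureReal_union_le _ _)
      intro x hx
      simp only [mem_ofPred_eq] at hx
      rcases le_abs.1 hx with h1 | h1
      · left; simp only [mem_ofPred_eq]; linarith
      · right; simp only [mem_ofPred_eq]; linarith
    linarith
  have m3 : MeasurableSet {x | z ≤ |f x - M|} :=
    measurableSet_le measurable_const (hfm.sub_const M).abs
  have u4 : (P.prod P).real {w | 2 * z ≤ |T (mix K w.2 a) u v - T (mix K w.1 a) u v|} ≤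
      P.real {x | z ≤ |f x - M|} + P.real {x | z ≤ |f x - M|} := by
    have e1 : (P.prod P).real (Prod.fst ⁻¹' {x | z ≤ |f x - M|}) = P.real {x | z ≤ |f x - M|} := by
      rw [measureReal_def, measurePreserving_fst.measure_preimage m3.nullMeasurableSet,
        ← measureReal_def]
    have e2 : (P.prod P).real (Prod.snd ⁻¹' {x | z ≤ |f x - M|}) = P.real {x | z ≤ |f x - M|} := by
      rw [measureReal_def, measurePreserving_snd.measure_preimage m3.nullMeasurableSet,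
        ← measureReal_def]
    nth_rewrite 1 [← e1]
    rw [← e2]
    refine le_trans (measureReal_mono ?_ (measure_ne_top _ _)) (measureReal_union_le _ _)
    intro w hw
    simp only [mem_ofPred_eq] at hw
    by_contra hc
    rw [mem_union, not_or] at hc
    obtain ⟨h1, h2⟩ := hc
    simp only [mem_preimage, mem_ofPred_eq, not_le, hf] at h1 h2
    have h3 : |T (mix K w.2 a) u v - T (mix K w.1 a) u v| ≤
        |T (mix K w.2 a) u v - M| + |T (mix K w.1 a) u v - M| := by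
      have := abs_sub_le (T (mix K w.2 a) u v) M (T (mix K w.1 a) u v)
      rw [abs_sub_comm M] at this
      exact this
    linarith
  linarith

theorem tsg_fixK_conc (K : Set (ℤ × ℤ)) {u v : ℤ × ℤ}
    (h : u ≤ v) {z q : ℝ} (hz : 0 ≤ z) (hq : 0 < q) :
    (PG.prod PG)
      {w | 2 * z ≤ |T (mix K w.2 w.1) u v - T w.1 u v|} ≤
      ENNReal.ofReal (12 * Real.exp (-(z ^ 2 / (4 * q)))) +
        10 * PG {ω | q < QV ω K u v} := by
  set P := PG with hP
  have mS : MeasurableSet {w : (ℤ × ℤ → ℝ) × (ℤ × ℤ → ℝ) |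
      2 * z ≤ |T (mix K w.2 w.1) u v - T w.1 u v|} := by
    refine measurableSet_le measurable_const (Measurable.abs (Measurable.sub ?_ ?_))
    · exact (measurable_T u v).comp ((ts_measurable_mix K).comp (measurable_snd.prodMk measurable_fst))
    · exact (measurable_T u v).comp measurable_fst
  have g1 : MeasurePreserving (fun z : (ℤ × ℤ → ℝ) × (ℤ × ℤ → ℝ) => mix K z.1 z.2)
      (P.prod P) P := measurePreserving_glue (fun _ : ℤ × ℤ => EG) K
  have g2 : MeasurePreserving (fun z : (ℤ × ℤ → ℝ) × (ℤ × ℤ → ℝ) => mix K z.2 z.1)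
      (P.prod P) P := g1.comp Measure.measurePreserving_swap
  have g3 : MeasurePreserving (fun t : (ℤ × ℤ → ℝ) × (ℤ × ℤ → ℝ) × (ℤ × ℤ → ℝ) =>
      (mix K t.2.1 t.1, t.2.2)) (P.prod (P.prod P)) (P.prod P) :=
    (g2.prod (MeasurePreserving.id P)).comp (measurePreserving_prodAssoc P P P).symm
  rw [← g3.measure_preimage mS.nullMeasurableSet]
  rw [Measure.prod_apply (g3.measurable mS)]
  have mQ : MeasurableSet {ω : ℤ × ℤ → ℝ | q < QV ω K u v} :=
    measurableSet_lt measurable_const (tsg_measurable_QV measurable_id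
      (K := fun _ => K) (fun z => MeasurableSet.const _) u v)
  have h1 : ∀ᵐ a ∂P, (P.prod P) (Prod.mk a ⁻¹' ((fun t : (ℤ × ℤ → ℝ) × (ℤ × ℤ → ℝ) ×
      (ℤ × ℤ → ℝ) => (mix K t.2.1 t.1, t.2.2)) ⁻¹'
        {w | 2 * z ≤ |T (mix K w.2 w.1) u v - T w.1 u v|})) ≤
      ENNReal.ofReal (12 * Real.exp (-(z ^ 2 / (4 * q)))) +
        10 * P {x | q < QV (mix K x a) K u v} := by
    filter_upwards [ae_nonneg] with a ha
    have h2 := tsg_pair_conc K a ha h hz hq
    have h3 : (Prod.mk a ⁻¹' ((fun t : (ℤ × ℤ → ℝ) × (ℤ × ℤ → ℝ) ×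
      (ℤ × ℤ → ℝ) => (mix K t.2.1 t.1, t.2.2)) ⁻¹'
        {w | 2 * z ≤ |T (mix K w.2 w.1) u v - T w.1 u v|})) =
        {w | 2 * z ≤ |T (mix K w.2 a) u v - T (mix K w.1 a) u v|} := by
      ext w
      simp only [mem_preimage, mem_ofPred_eq, ts_mix_mix]
    rw [h3, ← ofReal_measureReal (measure_ne_top _ _),
      ← ofReal_measureReal (measure_ne_top P {x | q < QV (mix K x a) K u v}),
      show (10:ℝ≥0∞) = ENNReal.ofReal 10 by norm_num, ← ENNReal.ofReal_mul (by norm_num),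
      ← ENNReal.ofReal_add (by positivity) (by positivity)]
    exact ENNReal.ofReal_le_ofReal h2
  refine (lintegral_mono_ae h1).trans ?_
  rw [lintegral_add_left measurable_const, lintegral_const, measure_univ, mul_one,
    lintegral_const_mul' _ _ (by norm_num)]
  gcongr
  rw [← g2.measure_preimage mQ.nullMeasurableSet, Measure.prod_apply (g2.measurable mQ)]
  rfl

theorem tsg_avg_conc {u v : ℤ × ℤ} (h : u ≤ v) {τ z q : ℝ} (hz : 0 ≤ z) (hq : 0 < q) :
    mu3 {x : Env3 | 2 * z ≤ |T (evo τ x) u v - T x.1 u v|} ≤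
      ENNReal.ofReal (12 * Real.exp (-(z ^ 2 / (4 * q)))) +
        10 * ∫⁻ ω, (PI (ℤ × ℤ)) {U | q < QV ω {z | U z < τ} u v} ∂PG := by
  set P := PG with hP
  set Q := PI (ℤ × ℤ) with hQd
  have mE : MeasurableSet {x : Env3 | 2 * z ≤ |T (evo τ x) u v - T x.1 u v|} := by
    refine measurableSet_le measurable_const (Measurable.abs (Measurable.sub ?_ ?_))
    · exact (measurable_T u v).comp (ts_measurable_evo τ)
    · exact (measurable_T u v).comp measurable_fst
  have g1 : MeasurePreserving (fun t : (ℤ × ℤ → ℝ) × (ℤ × ℤ → ℝ) × (ℤ × ℤ → ℝ) =>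
      ((t.2.1, (t.2.2, t.1)) : Env3)) (Q.prod (P.prod P)) mu3 :=
    (measurePreserving_prodAssoc P P Q).comp Measure.measurePreserving_swap
  rw [← g1.measure_preimage mE.nullMeasurableSet, Measure.prod_apply (g1.measurable mE)]
  have mQ : MeasurableSet {w : (ℤ × ℤ → ℝ) × (ℤ × ℤ → ℝ) | q < QV w.2 {z | w.1 z < τ} u v} := by
    refine measurableSet_lt measurable_const (tsg_measurable_QV measurable_snd (fun z => ?_) u v)
    have : Measurable fun w : (ℤ × ℤ → ℝ) × (ℤ × ℤ → ℝ) => w.1 z := by fun_prop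
    exact measurableSet_lt this measurable_const
  have h1 : ∀ U, (P.prod P) (Prod.mk U ⁻¹' ((fun t : (ℤ × ℤ → ℝ) × (ℤ × ℤ → ℝ) ×
      (ℤ × ℤ → ℝ) => ((t.2.1, (t.2.2, t.1)) : Env3)) ⁻¹'
        {x : Env3 | 2 * z ≤ |T (evo τ x) u v - T x.1 u v|})) ≤
      ENNReal.ofReal (12 * Real.exp (-(z ^ 2 / (4 * q)))) +
        10 * P {ω | q < QV ω {z | U z < τ} u v} := fun U => tsg_fixK_conc {z | U z < τ} h hz hq
  refine (lintegral_mono h1).trans ?_
  rw [lintegral_add_left measurable_const, lintegral_const, measure_univ, mul_one,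
    lintegral_const_mul' _ _ (by norm_num)]
  have e1 := Measure.prod_apply (μ := Q) (ν := P) mQ
  have e2 := Measure.prod_apply_symm (μ := Q) (ν := P) mQ
  have e3 : ∫⁻ U, P {ω | q < QV ω {z | U z < τ} u v} ∂Q =
      ∫⁻ ω, Q {U | q < QV ω {z | U z < τ} u v} ∂P := e1.symm.trans e2
  rw [e3]

theorem tsg_qv_bound {u v : ℤ × ℤ} (h : u ≤ v) {τ B s A Cs : ℝ} (hτ : 0 ≤ τ) (hB : 1 ≤ B)
    (hs : 0 < s) (hA : 1 ≤ A) (hC : 1 ≤ Cs) :
    ∀ᵐ ω ∂PG, ω ∉ {ω : ℤ × ℤ → ℝ | ∃ z, u ≤ z ∧ z ≤ v ∧ A * B + 1 < ω z} →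
      ω ∉ {ω : ℤ × ℤ → ℝ | ∃ x : ℤ → ℤ, UR x (lev u) (lev v) ∧ pt x (lev u) = u ∧
      pt x (lev v) = v ∧
      Cs * (((lev v - lev u : ℤ) : ℝ) + 1) + Cs * (B + 1) ^ 3 <
        ∑ l ∈ Finset.Icc (lev u) (lev v), ω (pt x l) ^ 2} →
      (PI (ℤ × ℤ)) {U | 2 * Cs * τ * (((lev v - lev u : ℤ) : ℝ) + 1) + 2 * Cs * (B + 1) ^ 3 +
        A ^ 2 * (B + 1) ^ 2 * s < QV ω {z | U z < τ} u v} ≤ ENNReal.ofReal (Real.exp (-s)) := by
  filter_upwards [ae_nonneg] with ω h0 h2 h3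
  set R : ℝ := ((lev v - lev u : ℤ) : ℝ) + 1 with hR
  have hR1 : 1 ≤ R := by
    have := lev_le_lev h
    have : (0:ℝ) ≤ ((lev v - lev u : ℤ) : ℝ) := by exact_mod_cast sub_nonneg.2 this
    linarith
  simp only [not_exists, not_and, not_lt] at h2 h3
  classical
  obtain ⟨x, x1, x2, x3, x4, x5⟩ := QV_path ω h
  have g2' := h3 x x1 x2 x3
  have hinj : ∀ l ∈ (Finset.Icc (lev u) (lev v)), ∀ l' ∈ (Finset.Icc (lev u) (lev v)),
      pt x l = pt x l' → l = l' := by
    intro l _ l' _ hl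
    have := congrArg lev hl
    simpa [lev, pt] using this
  obtain ⟨Γ, hΓ⟩ : ∃ Γ : Finset (ℤ × ℤ), Γ = (Finset.Icc (lev u) (lev v)).image (pt x) := ⟨_, rfl⟩
  have g2 : ∑ w ∈ Γ, ω w ^ 2 ≤ Cs * R + Cs * (B + 1) ^ 3 := by
    rw [hΓ, Finset.sum_image hinj]
    exact g2'
  have hQ : ∀ U : ℤ × ℤ → ℝ, QV ω {z | U z < τ} u v =
      ∑ z ∈ Γ, if U z < τ then ω z ^ 2 else 0 := by
    intro U
    rw [hΓ, Finset.sum_image hinj, x5]
    refine Finset.sum_congr rfl fun l _ => ?_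
    simp only [mem_ofPred_eq]
  have hbox : ∀ z ∈ Γ, u ≤ z ∧ z ≤ v := by
    intro z hz
    rw [hΓ, Finset.mem_image] at hz
    obtain ⟨l, hl, rfl⟩ := hz
    rw [Finset.mem_Icc] at hl
    refine ⟨?_, ?_⟩
    · have := pt_le_pt x1 le_rfl hl.1 hl.2
      rwa [x2] at this
    · have := pt_le_pt x1 hl.1 hl.2 le_rfl
      rwa [x3] at this
  have hAB : 1 ≤ A * B + 1 := by nlinarith
  have hsq : ∀ z ∈ Γ, 0 ≤ ω z ^ 2 ∧ ω z ^ 2 ≤ (A * B + 1) ^ 2 := by
    intro z hz
    refine ⟨sq_nonneg _, pow_le_pow_left₀ (h0 z) (h2 z (hbox z hz).1 (hbox z hz).2) 2⟩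
  have hB3 : 0 ≤ Cs * (B + 1) ^ 3 := by positivity
  have hB2s : 0 ≤ A ^ 2 * (B + 1) ^ 2 * s := by positivity
  have hCR : 0 ≤ Cs * R := by positivity
  by_cases hτ1 : τ ≤ 1
  · have ht := thin Γ (fun z => ω z ^ 2) (b := (A * B + 1) ^ 2) (τ := τ)
      (y := (A * B + 1) ^ 2 * s) (by positivity) hτ hsq
    have e2 : (A * B + 1) ^ 2 * s / (A * B + 1) ^ 2 = s := by
      rw [mul_div_assoc, mul_div_cancel₀]
      positivity
    rw [e2] at ht
    have hsub : {U : ℤ × ℤ → ℝ | 2 * Cs * τ * R + 2 * Cs * (B + 1) ^ 3 +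
        A ^ 2 * (B + 1) ^ 2 * s <
        QV ω {z | U z < τ} u v} ⊆ {U : ℤ × ℤ → ℝ | 2 * τ * (∑ z ∈ Γ, ω z ^ 2) +
          (A * B + 1) ^ 2 * s ≤ ∑ z ∈ Γ, if U z < τ then ω z ^ 2 else 0} := by
      intro U hU
      simp only [mem_ofPred_eq] at hU ⊢
      rw [hQ] at hU
      refine le_trans ?_ hU.le
      have a1 : 2 * τ * (∑ z ∈ Γ, ω z ^ 2) ≤ 2 * τ * (Cs * R + Cs * (B + 1) ^ 3) :=
        mul_le_mul_of_nonneg_left g2 (by positivity)
      have a2 : τ * (Cs * (B + 1) ^ 3) ≤ Cs * (B + 1) ^ 3 := by nlinarith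
      have a4 : A * B + 1 ≤ A * (B + 1) := by nlinarith
      have a5 : (A * B + 1) ^ 2 ≤ (A * (B + 1)) ^ 2 := pow_le_pow_left₀ (by linarith) a4 2
      have a3 : (A * B + 1) ^ 2 * s ≤ A ^ 2 * (B + 1) ^ 2 * s := by
        apply mul_le_mul_of_nonneg_right _ hs.le
        rw [← mul_pow]
        exact a5
      linarith
    refine (measure_mono hsub).trans ?_
    rw [← ofReal_measureReal (measure_ne_top _ _)]
    exact ENNReal.ofReal_le_ofReal ht
  · have : {U : ℤ × ℤ → ℝ | 2 * Cs * τ * R + 2 * Cs * (B + 1) ^ 3 + A ^ 2 * (B + 1) ^ 2 * s <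
        QV ω {z | U z < τ} u v} = ∅ := by
      ext U
      simp only [mem_ofPred_eq, mem_empty_iff_false, iff_false, not_lt]
      rw [hQ]
      have a1 : (∑ z ∈ Γ, if U z < τ then ω z ^ 2 else 0) ≤ ∑ z ∈ Γ, ω z ^ 2 := by
        refine Finset.sum_le_sum fun z _ => ?_
        split_ifs
        · exact le_refl _
        · positivity
      push Not at hτ1
      have a2 : Cs * R ≤ 2 * Cs * τ * R := by nlinarith
      linarith
    rw [this, measure_empty]
    exact zero_le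

theorem tsg_qv_tail {u v : ℤ × ℤ} (h : u ≤ v) {τ B s A Cs : ℝ} (hτ : 0 ≤ τ) (hs : 0 < s)
    (hBdef : B = s + 2 * Real.log (((lev v - lev u : ℤ) : ℝ) + 2)) (hB : 1 ≤ B)
    (hA : 1 ≤ A) (hC : 1 ≤ Cs)
    (h1 : PG.real {ω | ∃ z, u ≤ z ∧ z ≤ v ∧ A * B + 1 < ω z} ≤
      (((lev v - lev u : ℤ) : ℝ) + 1) ^ 2 * Real.exp (-B))
    (h2 : PG.real {ω | ∃ x : ℤ → ℤ, UR x (lev u) (lev v) ∧ pt x (lev u) = u ∧
      pt x (lev v) = v ∧
      Cs * (((lev v - lev u : ℤ) : ℝ) + 1) + Cs * (B + 1) ^ 3 <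
        ∑ l ∈ Finset.Icc (lev u) (lev v), ω (pt x l) ^ 2} ≤
      2 * (((lev v - lev u : ℤ) : ℝ) + 1) ^ 2 * Real.exp (-B)) :
    ∫⁻ ω, (PI (ℤ × ℤ)) {U | 2 * Cs * τ * (((lev v - lev u : ℤ) : ℝ) + 1) +
        2 * Cs * (B + 1) ^ 3 +
        A ^ 2 * (B + 1) ^ 2 * s < QV ω {z | U z < τ} u v} ∂PG ≤
      ENNReal.ofReal (4 * Real.exp (-s)) := by
  have hq := tsg_qv_bound h hτ hB hs hA hC
  set R : ℝ := ((lev v - lev u : ℤ) : ℝ) + 1 with hR
  have hR1 : 1 ≤ R := by
    have := lev_le_lev h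
    have : (0:ℝ) ≤ ((lev v - lev u : ℤ) : ℝ) := by exact_mod_cast sub_nonneg.2 this
    linarith
  have hRB : R ^ 2 * Real.exp (-B) ≤ Real.exp (-s) := by
    have e1 : ((lev v - lev u : ℤ) : ℝ) + 2 = R + 1 := by rw [hR]; ring
    rw [hBdef, e1]
    have e2 : Real.exp (-(s + 2 * Real.log (R + 1))) = Real.exp (-s) / (R + 1) ^ 2 := by
      rw [neg_add, Real.exp_add, Real.exp_neg (2 * _), two_mul, Real.exp_add,
        Real.exp_log (by linarith), sq]
      rfl
    rw [e2]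
    have : R ^ 2 * (Real.exp (-s) / (R + 1) ^ 2) = Real.exp (-s) * (R ^ 2 / (R + 1) ^ 2) := by
      ring
    rw [this]
    apply mul_le_of_le_one_right (Real.exp_nonneg _)
    rw [div_le_one (by positivity)]
    exact pow_le_pow_left₀ (by linarith) (by linarith) 2
  set A1 : Set (ℤ × ℤ → ℝ) := {ω : ℤ × ℤ → ℝ | ∃ z, u ≤ z ∧ z ≤ v ∧ A * B + 1 < ω z} with hA1
  set A2 : Set (ℤ × ℤ → ℝ) := {ω : ℤ × ℤ → ℝ | ∃ x : ℤ → ℤ, UR x (lev u) (lev v) ∧
      pt x (lev u) = u ∧ pt x (lev v) = v ∧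
      Cs * R + Cs * (B + 1) ^ 3 <
        ∑ l ∈ Finset.Icc (lev u) (lev v), ω (pt x l) ^ 2} with hA2
  set G : (ℤ × ℤ → ℝ) → ℝ≥0∞ := fun ω => (PI (ℤ × ℤ)) {U | 2 * Cs * τ * R +
        2 * Cs * (B + 1) ^ 3 +
        A ^ 2 * (B + 1) ^ 2 * s < QV ω {z | U z < τ} u v} with hG
  set D := toMeasurable PG (A1 ∪ A2) with hD
  have hDm : MeasurableSet D := measurableSet_toMeasurable _ _
  have hDle : PG D ≤ ENNReal.ofReal (3 * Real.exp (-s)) := by
    rw [hD, measure_toMeasurable]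
    refine (measure_union_le _ _).trans ?_
    rw [← ofReal_measureReal (measure_ne_top _ A1), ← ofReal_measureReal (measure_ne_top _ A2),
      ← ENNReal.ofReal_add measureReal_nonneg measureReal_nonneg]
    apply ENNReal.ofReal_le_ofReal
    linarith
  have hGA : ∀ᵐ ω ∂PG, G ω ≤ D.indicator (fun _ => 1) ω +
      ENNReal.ofReal (Real.exp (-s)) := by
    filter_upwards [hq] with ω hω
    by_cases hωA : ω ∈ D
    · rw [indicator_of_mem hωA]
      exact le_trans prob_le_one le_self_add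
    · have hω1 : ω ∉ A1 ∪ A2 := fun hc => hωA (subset_toMeasurable _ _ hc)
      rw [mem_union, not_or] at hω1
      refine le_trans (hω hω1.1 hω1.2) le_add_self
  refine (lintegral_mono_ae hGA).trans ?_
  rw [lintegral_add_right _ measurable_const, lintegral_indicator_const hDm, lintegral_const,
    measure_univ, one_mul, mul_one]
  refine (add_le_add hDle le_rfl).trans ?_
  rw [← ENNReal.ofReal_add (by positivity) (by positivity)]
  apply ENNReal.ofReal_le_ofReal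
  linarith

theorem time_stab : ∃ C c : ℝ, 0 < C ∧ 0 < c ∧ ∀ u v : ℤ × ℤ, u ≤ v → ∀ τ y : ℝ, 0 ≤ τ →
    1 ≤ y →
    mu3.real {x : Env3 |
      y * (√(τ * (((lev v - lev u : ℤ) : ℝ) + 1)) +
        Real.log (((lev v - lev u : ℤ) : ℝ) + 3) ^ 3) ≤
        |T (evo τ x) u v - T x.1 u v|} ≤ C * Real.exp (-(c * y ^ (1 / 4 : ℝ))) := by
  obtain ⟨A, hA, hmax⟩ := max_tail
  obtain ⟨Cs, hC, hsqp⟩ := sq_paths
  obtain ⟨D, hD⟩ : ∃ D, D = 128 * Cs + 16 * A ^ 2 := ⟨_, rfl⟩
  have hA2 : 1 ≤ A ^ 2 := one_le_pow₀ hA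
  have hD1 : 144 ≤ D := by linarith
  have hD0 : 0 < D := by linarith
  obtain ⟨c, hc⟩ : ∃ c, c = 1 / (16 * D) := ⟨_, rfl⟩
  have hc0 : 0 < c := by rw [hc]; positivity
  have hcD : c * (16 * D) = 1 := by
    rw [hc]
    field_simp
  have hc1 : c ≤ 1 := by nlinarith
  refine ⟨52, c, by norm_num, hc0, ?_⟩
  intro u v h τ y hτ hy
  have hmax' := hmax u v h
  have hsqp' := hsqp u v h
  set R : ℝ := ((lev v - lev u : ℤ) : ℝ) + 1 with hR
  have hR1 : 1 ≤ R := by
    have := lev_le_lev h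
    have : (0:ℝ) ≤ ((lev v - lev u : ℤ) : ℝ) := by exact_mod_cast sub_nonneg.2 this
    linarith
  have e3 : ((lev v - lev u : ℤ) : ℝ) + 3 = R + 2 := by rw [hR]; ring
  rw [e3]
  set L := Real.log (R + 2) with hL
  have hL1 : 1 ≤ L := by
    rw [hL, Real.le_log_iff_exp_le (by linarith)]
    have := Real.exp_one_lt_d9
    linarith
  set s := y ^ (1 / 4 : ℝ) with hs
  have hs1 : 1 ≤ s := Real.one_le_rpow hy (by norm_num)
  have hs4 : s ^ 4 = y := by
    rw [hs, ← Real.rpow_natCast, ← Real.rpow_mul (by linarith)]; norm_num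
  obtain ⟨B, hB⟩ : ∃ B, B = s + 2 * Real.log (((lev v - lev u : ℤ) : ℝ) + 2) := ⟨_, rfl⟩
  have hlog : Real.log (((lev v - lev u : ℤ) : ℝ) + 2) ≤ L := by
    rw [hL]
    apply Real.log_le_log
    · linarith
    · linarith
  have hlog0 : 0 ≤ Real.log (((lev v - lev u : ℤ) : ℝ) + 2) := by
    apply Real.log_nonneg; linarith
  have hB1 : 1 ≤ B := by linarith
  have hBL : B + 1 ≤ 4 * (s * L) := by nlinarith
  obtain ⟨q, hq⟩ : ∃ q, q = 2 * Cs * τ * R + 2 * Cs * (B + 1) ^ 3 + A ^ 2 * (B + 1) ^ 2 * s :=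
    ⟨_, rfl⟩
  have hq0 : 0 < q := by
    rw [hq]; positivity
  obtain ⟨z, hz⟩ : ∃ z, z = y * (√(τ * R) + L ^ 3) / 2 := ⟨_, rfl⟩
  have hz0 : 0 ≤ z := by rw [hz]; positivity
  have h2z : 2 * z = y * (√(τ * R) + L ^ 3) := by rw [hz]; ring
  rw [← h2z]
  have main := tsg_avg_conc (τ := τ) h hz0 hq0
  have tail := tsg_qv_tail (B := B) h hτ (by linarith : 0 < s) hB hB1 hA hC
    (hmax' B (by linarith)) (hsqp' B hB1)
  rw [← hR, ← hq] at tail
  have hexp : Real.exp (-(z ^ 2 / (4 * q))) ≤ Real.exp (-(c * s)) := by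
    apply Real.exp_le_exp.2
    apply neg_le_neg
    rw [le_div_iff₀ (by positivity)]
    have hBL3 : (B + 1) ^ 3 ≤ (4 * (s * L)) ^ 3 := pow_le_pow_left₀ (by linarith) hBL 3
    have hBL2 : (B + 1) ^ 2 ≤ (4 * (s * L)) ^ 2 := pow_le_pow_left₀ (by linarith) hBL 2
    have hqle : q ≤ D * s ^ 4 * (τ * R + L ^ 6) := by
      have t0 : 0 ≤ τ * R := by positivity
      have s3 : s ^ 3 ≤ s ^ 4 := pow_le_pow_right₀ hs1 (by norm_num)
      have L3 : L ^ 3 ≤ L ^ 6 := pow_le_pow_right₀ hL1 (by norm_num)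
      have L2 : L ^ 2 ≤ L ^ 6 := pow_le_pow_right₀ hL1 (by norm_num)
      have s41 : 1 ≤ s ^ 4 := one_le_pow₀ hs1
      have a1 : s ^ 3 * L ^ 3 ≤ s ^ 4 * L ^ 6 := mul_le_mul s3 L3 (by positivity) (by positivity)
      have a2 : s ^ 3 * L ^ 2 ≤ s ^ 4 * L ^ 6 := mul_le_mul s3 L2 (by positivity) (by positivity)
      have a3 : (B + 1) ^ 2 * s ≤ (4 * (s * L)) ^ 2 * s :=
        mul_le_mul_of_nonneg_right hBL2 (by linarith)
      have a8 : 0 ≤ s ^ 4 * (τ * R) := by positivity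
      have a9 : τ * R ≤ s ^ 4 * (τ * R) := by nlinarith
      have a4 : 2 * Cs * τ * R ≤ 2 * Cs * (s ^ 4 * (τ * R)) := by
        have := mul_le_mul_of_nonneg_left a9 (show 0 ≤ 2 * Cs by linarith)
        linarith
      have a5 : (4 * (s * L)) ^ 3 = 64 * (s ^ 3 * L ^ 3) := by ring
      have a6 : (4 * (s * L)) ^ 2 * s = 16 * (s ^ 3 * L ^ 2) := by ring
      have a7 : 0 ≤ s ^ 4 * L ^ 6 := by positivity
      have b1 : 2 * Cs * (B + 1) ^ 3 ≤ 2 * Cs * (64 * (s ^ 4 * L ^ 6)) := by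
        apply mul_le_mul_of_nonneg_left _ (by linarith)
        linarith
      have b2 : A ^ 2 * (B + 1) ^ 2 * s ≤ A ^ 2 * (16 * (s ^ 4 * L ^ 6)) := by
        rw [mul_assoc]
        apply mul_le_mul_of_nonneg_left _ (by positivity)
        linarith
      have b3 : 2 * Cs * (s ^ 4 * (τ * R)) ≤ D * (s ^ 4 * (τ * R)) := by
        apply mul_le_mul_of_nonneg_right _ a8
        linarith
      have b4 : D * s ^ 4 * (τ * R + L ^ 6) = D * (s ^ 4 * (τ * R)) +
          (128 * Cs + 16 * A ^ 2) * (s ^ 4 * L ^ 6) := by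
        rw [hD]
        ring
      rw [hq, b4]
      linarith
    have hzge : s ^ 8 * (τ * R + L ^ 6) ≤ 4 * z ^ 2 := by
      have : 4 * z ^ 2 = s ^ 8 * (√(τ * R) + L ^ 3) ^ 2 := by
        rw [hz, ← hs4]; ring
      rw [this]
      apply mul_le_mul_of_nonneg_left _ (by positivity)
      have hsq : √(τ * R) ^ 2 = τ * R := Real.sq_sqrt (by positivity)
      have : 0 ≤ √(τ * R) * L ^ 3 := by positivity
      nlinarith
    have h8 : s * s ^ 4 ≤ s ^ 8 := by
      have : s * s ^ 4 = s ^ 5 := by ring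
      rw [this]; exact pow_le_pow_right₀ hs1 (by norm_num)
    have hX : 0 ≤ τ * R + L ^ 6 := by positivity
    calc c * s * (4 * q) ≤ c * s * (4 * (D * s ^ 4 * (τ * R + L ^ 6))) := by
          apply mul_le_mul_of_nonneg_left _ (by positivity)
          linarith
      _ = c * (16 * D) * (1/4 * (s * s ^ 4) * (τ * R + L ^ 6)) := by ring
      _ = 1/4 * (s * s ^ 4) * (τ * R + L ^ 6) := by rw [hcD, one_mul]
      _ ≤ 1/4 * s ^ 8 * (τ * R + L ^ 6) := by
          apply mul_le_mul_of_nonneg_right _ hX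
          linarith
      _ ≤ z ^ 2 := by linarith
  have hexp2 : Real.exp (-s) ≤ Real.exp (-(c * s)) := by
    apply Real.exp_le_exp.2
    nlinarith
  have fin : mu3 {x : Env3 | 2 * z ≤ |T (evo τ x) u v - T x.1 u v|} ≤
      ENNReal.ofReal (52 * Real.exp (-(c * s))) := by
    refine main.trans ((add_le_add le_rfl (mul_le_mul_right tail _)).trans ?_)
    rw [show (10:ℝ≥0∞) = ENNReal.ofReal 10 by norm_num, ← ENNReal.ofReal_mul (by norm_num),
      ← ENNReal.ofReal_add (by positivity) (by positivity)]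
    apply ENNReal.ofReal_le_ofReal
    linarith
  rw [measureReal_def]
  exact ENNReal.toReal_le_of_le_ofReal (by positivity) fin

end BGG
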