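import Pool.Agent.BGG.AllTail
import Pool.Agent.BGG.ConeTail
import Pool.Agent.BGG.TimeStab
import Pool.Agent.BGG.SqPaths
import Pool.Agent.BGG.Prod
import Pool.Agent.BGE.CrProb

/-!
BGG. Adaptation of `Pool/Agent/BGE/CrProb.lean`: same proof with the law `PG` of the environment and the law `PD` of the noise.
`P(ω z > lam)` is bounded by `site_tail`. The deterministic lemmas `cp_...` of BGE which do not mention the
law can be used directly (`open BGE`).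
-/

namespace BGG


open MeasureTheory ProbabilityTheory BGE

variable [GeoPar]

theorem crE_prob {κ : ℝ} (hκ : 0 < κ) : ∃ C c : ℝ, 1 ≤ C ∧ 0 < c ∧ ∀ (lam : ℝ) (m : ℕ),
    1 ≤ lam → 1 ≤ m →
    PG.real {ω | ¬ CrE κ lam m ω} ≤ C * (m : ℝ) ^ 4 * Real.exp (-(c * lam)) := by
  obtain ⟨C0, c0, hC0, hc0, H0⟩ := site_tail
  obtain ⟨C1, c1, hC1, hc1, H1⟩ := all_tail
  obtain ⟨C2, c2, hC2, hc2, H2⟩ := cone_tail (κ := κ / 4) (by positivity)
  refine ⟨12 * C0 + 144 * C1 + 144 * C2, min c0 (min c1 c2), by linarith [hC0, hC1, hC2],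
    lt_min hc0 (lt_min hc1 hc2), ?_⟩
  intro lam m hlam hm
  have hl0 : 0 ≤ lam := by linarith
  set c := min c0 (min c1 c2) with hc
  have hcle1 : c ≤ c0 := min_le_left _ _
  have hcle2 : c ≤ c1 := (min_le_right _ _).trans (min_le_left _ _)
  have hcle3 : c ≤ c2 := (min_le_right _ _).trans (min_le_right _ _)
  set N : Set (ℤ × ℤ → ℝ) := {ω | ¬ ∀ z, 0 ≤ ω z} with hN
  have hN0 : PG.real N = 0 := by
    rw [measureReal_def, ae_iff.1 ae_nonneg, ENNReal.toReal_zero]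
  set A1 : Set (ℤ × ℤ → ℝ) := {ω | ∃ z ∈ Bx m, ω ∈ {ω : ℤ × ℤ → ℝ | lam < ω z}} with hA1
  set E2 : ℤ × ℤ → ℤ × ℤ → Set (ℤ × ℤ → ℝ) := fun u v => {ω | lam * √((lev v - lev u : ℤ) + 1) ≤
      T ω u v - mu ((v.1 - u.1 : ℤ)) ((v.2 - u.2 : ℤ))} with hE2
  set E3 : ℤ × ℤ → ℤ × ℤ → Set (ℤ × ℤ → ℝ) := fun u v =>
    {ω | Cone (κ / 4) u v ∧ lam * (((lev v - lev u : ℤ) : ℝ) + 1) ^ (1 / 3 : ℝ) ≤
      |T ω u v - mu ((v.1 - u.1 : ℤ)) ((v.2 - u.2 : ℤ))|} with hE3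
  set A2 : Set (ℤ × ℤ → ℝ) := {ω | ∃ p ∈ Bx m, ∃ q ∈ Bx m, p ≤ q ∧ ω ∈ E2 p q} with hA2
  set A3 : Set (ℤ × ℤ → ℝ) := {ω | ∃ p ∈ Bx m, ∃ q ∈ Bx m, p ≤ q ∧ ω ∈ E3 p q} with hA3
  have hsub : {ω | ¬ CrE κ lam m ω} ⊆ N ∪ (A1 ∪ (A2 ∪ A3)) := by
    intro ω hω
    by_contra hcon
    apply hω
    simp only [Set.mem_union, not_or] at hcon
    obtain ⟨h1, h2, h3, h4⟩ := hcon
    have hnn : ∀ z, 0 ≤ ω z := by
      by_contra hc
      exact h1 hc
    refine ⟨fun z hz => ⟨hnn z, ?_⟩, fun p hp q hq hpq => ⟨?_, ?_⟩⟩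
    · by_contra hc
      exact h2 ⟨z, hz, not_le.1 hc⟩
    · by_contra hc
      apply h3
      refine ⟨p, hp, q, hq, hpq, ?_⟩
      rw [not_le] at hc
      show lam * √((lev q - lev p : ℤ) + 1) ≤ T ω p q - mu ((q.1 - p.1 : ℤ)) ((q.2 - p.2 : ℤ))
      have : muz p q + lam * √(dl p q + 1) < T ω p q := hc
      unfold muz dl at this
      linarith
    · intro hcone
      by_contra hc
      apply h4
      refine ⟨p, hp, q, hq, hpq, hcone, ?_⟩
      rw [not_le] at hc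
      exact hc.le
  have hP1 : PG.real A1 ≤ 12 * (m : ℝ) ^ 2 * (C0 * Real.exp (-(c * lam))) := by
    apply cp_sites_le _ hm _ (by positivity)
    intro z _
    refine (H0 z lam hl0).trans ?_
    exact mul_le_mul_of_nonneg_left (cp_exp_mono hcle1 hl0) (by linarith)
  have hP2 : PG.real A2 ≤ 144 * (m : ℝ) ^ 4 * (C1 * Real.exp (-(c * lam))) := by
    apply cp_pairs_le _ hm _ (by positivity)
    intro p _ q _ hpq
    refine (H1 p q hpq lam hl0).trans ?_
    exact mul_le_mul_of_nonneg_left (cp_exp_mono hcle2 hl0) hC1.le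
  have hP3 : PG.real A3 ≤ 144 * (m : ℝ) ^ 4 * (C2 * Real.exp (-(c * lam))) := by
    apply cp_pairs_le _ hm _ (by positivity)
    intro p _ q _ hpq
    by_cases hcone : Cone (κ / 4) p q
    · have h1 : E3 p q ⊆ {ω | lam * (((lev q - lev p : ℤ) : ℝ) + 1) ^ (1 / 3 : ℝ) ≤
          |T ω p q - mu ((q.1 - p.1 : ℤ)) ((q.2 - p.2 : ℤ))|} := fun ω h => h.2
      refine (measureReal_mono h1 (measure_ne_top _ _)).trans ?_
      obtain ⟨_, hc1, hc2⟩ := hcone
      refine (H2 p q hpq hc1 hc2 lam hl0).trans ?_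
      exact mul_le_mul_of_nonneg_left (cp_exp_mono hcle3 hl0) hC2.le
    · have h1 : E3 p q = ∅ := by
        ext ω
        simp only [hE3, Set.mem_ofPred_eq, Set.mem_empty_iff_false, iff_false]
        exact fun h => hcone h.1
      rw [h1]
      simp only [measureReal_empty]
      positivity
  have hm1 : (1 : ℝ) ≤ m := by exact_mod_cast hm
  calc PG.real {ω | ¬ CrE κ lam m ω}
      ≤ PG.real (N ∪ (A1 ∪ (A2 ∪ A3))) := measureReal_mono hsub (measure_ne_top _ _)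
    _ ≤ PG.real N + (PG.real A1 +
        (PG.real A2 + PG.real A3)) := by
        refine (measureReal_union_le _ _).trans ?_
        gcongr
        refine (measureReal_union_le _ _).trans ?_
        gcongr
        exact measureReal_union_le _ _
    _ ≤ 0 + (12 * (m : ℝ) ^ 2 * (C0 * Real.exp (-(c * lam))) +
        (144 * (m : ℝ) ^ 4 * (C1 * Real.exp (-(c * lam))) +
          144 * (m : ℝ) ^ 4 * (C2 * Real.exp (-(c * lam))))) := by
        rw [hN0]
        gcongr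
    _ ≤ (12 * C0 + 144 * C1 + 144 * C2) * (m : ℝ) ^ 4 * Real.exp (-(c * lam)) := by
        have h1 : (m : ℝ) ^ 2 ≤ (m : ℝ) ^ 4 := pow_le_pow_right₀ hm1 (by norm_num)
        have h2 := mul_le_mul_of_nonneg_right h1
          (mul_pos (show (0 : ℝ) < C0 by linarith) (Real.exp_pos (-(c * lam)))).le
        linarith

theorem crT_prob : ∃ C c : ℝ, 1 ≤ C ∧ 0 < c ∧ ∀ (lam τ : ℝ) (m : ℕ), 1 ≤ lam → 1 ≤ m → 0 ≤ τ →
    mu3.real {x | ¬ CrT lam m τ x.1 (evo τ x)} ≤ C * (m : ℝ) ^ 4 *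
      Real.exp (-(c * (lam / (1 + Real.log (4 * m + 5) ^ 3)) ^ (1 / 4 : ℝ))) := by
  obtain ⟨C1, c1, hC1, hc1, H1⟩ := time_stab
  refine ⟨144 * C1 + Real.exp c1, c1, ?_, hc1, ?_⟩
  · have := Real.one_le_exp hc1.le
    linarith
  intro lam τ m hlam hm hτ
  have hm1 : (1 : ℝ) ≤ m := by exact_mod_cast hm
  have hL : 0 ≤ Real.log (4 * m + 5) := Real.log_nonneg (by linarith)
  set L := Real.log (4 * m + 5) with hLdef
  have hD : 1 ≤ 1 + L ^ 3 := by
    have := pow_nonneg hL 3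
    linarith
  have hD0 : 0 < 1 + L ^ 3 := by linarith
  set y := lam / (1 + L ^ 3) with hy
  have hy0 : 0 < y := div_pos (by linarith) hD0
  have hm4 : (1 : ℝ) ≤ (m : ℝ) ^ 4 := one_le_pow₀ hm1
  rcases lt_or_ge y 1 with hy1 | hy1
  · have h1 : y ^ (1 / 4 : ℝ) ≤ 1 := Real.rpow_le_one hy0.le hy1.le (by norm_num)
    have h2 : Real.exp (-c1) ≤ Real.exp (-(c1 * y ^ (1 / 4 : ℝ))) := by
      apply Real.exp_le_exp.2
      nlinarith
    have h3 : 1 ≤ (144 * C1 + Real.exp c1) * (m : ℝ) ^ 4 *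
        Real.exp (-(c1 * y ^ (1 / 4 : ℝ))) := by
      calc (1 : ℝ) = Real.exp c1 * 1 * Real.exp (-c1) := by
            rw [mul_one, ← Real.exp_add]; simp
        _ ≤ (144 * C1 + Real.exp c1) * (m : ℝ) ^ 4 * Real.exp (-(c1 * y ^ (1 / 4 : ℝ))) := by
            gcongr
            · linarith
    exact measureReal_le_one.trans h3
  · have hyl : y ≤ lam := div_le_self (by linarith) hD
    have hyL : y * L ^ 3 ≤ lam := by
      have : y * (1 + L ^ 3) = lam := by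
        rw [hy]; field_simp
      nlinarith
    set E : ℤ × ℤ → ℤ × ℤ → Set Env3 := fun u v => {x : Env3 |
      y * (√(τ * (((lev v - lev u : ℤ) : ℝ) + 1)) +
        Real.log (((lev v - lev u : ℤ) : ℝ) + 3) ^ 3) ≤
        |T (evo τ x) u v - T x.1 u v|} with hE
    have hsub : {x : Env3 | ¬ CrT lam m τ x.1 (evo τ x)} ⊆
        {x | ∃ p ∈ Bx m, ∃ q ∈ Bx m, p ≤ q ∧ x ∈ E p q} := by
      intro x hx
      by_contra hcon
      apply hx
      intro p hp q hq hpq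
      by_contra hc
      apply hcon
      refine ⟨p, hp, q, hq, hpq, ?_⟩
      rw [not_le] at hc
      refine le_trans ?_ hc.le
      have hl0 : (0 : ℝ) ≤ ((lev q - lev p : ℤ) : ℝ) := by
        have : lev p ≤ lev q := add_le_add hpq.1 hpq.2
        exact_mod_cast sub_nonneg.2 this
      have hl1 : ((lev q - lev p : ℤ) : ℝ) ≤ 4 * m + 1 := by
        exact_mod_cast cp_lev_sub hp hq
      have h1 : Real.log (((lev q - lev p : ℤ) : ℝ) + 3) ≤ L :=
        Real.log_le_log (by linarith) (by linarith)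
      have h2 : 0 ≤ Real.log (((lev q - lev p : ℤ) : ℝ) + 3) := Real.log_nonneg (by linarith)
      have h3 : Real.log (((lev q - lev p : ℤ) : ℝ) + 3) ^ 3 ≤ L ^ 3 := pow_le_pow_left₀ h2 h1 3
      have h4 : y * Real.log (((lev q - lev p : ℤ) : ℝ) + 3) ^ 3 ≤ lam :=
        (mul_le_mul_of_nonneg_left h3 hy0.le).trans hyL
      have h5 : y * √(τ * (((lev q - lev p : ℤ) : ℝ) + 1)) ≤
          lam * √(τ * (((lev q - lev p : ℤ) : ℝ) + 1)) :=
        mul_le_mul_of_nonneg_right hyl (Real.sqrt_nonneg _)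
      show y * (√(τ * (((lev q - lev p : ℤ) : ℝ) + 1)) +
        Real.log (((lev q - lev p : ℤ) : ℝ) + 3) ^ 3) ≤ lam * (√(τ * (dl p q + 1)) + 1)
      unfold dl
      linarith
    refine (measureReal_mono hsub (measure_ne_top _ _)).trans ?_
    have h6 : mu3.real {x | ∃ p ∈ Bx m, ∃ q ∈ Bx m, p ≤ q ∧ x ∈ E p q} ≤
        144 * (m : ℝ) ^ 4 * (C1 * Real.exp (-(c1 * y ^ (1 / 4 : ℝ)))) := by
      apply cp_pairs_le _ hm _ (by positivity)
      intro p _ q _ hpq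
      exact H1 p q hpq τ y hτ hy1
    refine h6.trans ?_
    have h7 : 0 < Real.exp (-(c1 * y ^ (1 / 4 : ℝ))) := Real.exp_pos _
    have h8 : 0 < Real.exp c1 * (m : ℝ) ^ 4 * Real.exp (-(c1 * y ^ (1 / 4 : ℝ))) := by positivity
    nlinarith

end BGG
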