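import Pool.Agent.BGG.StatA
import Pool.Agent.BGG.WalkMax
import Pool.Agent.BGE.StatClo

/-!
BGG / S7. Near record and closeness or different slopes (static estimates ST2, ST3). Adaptation of
`Pool/Agent/BGE/StatClo.lean` without the scalings (same statements with `PG`). Changes:
`walk_pair_K` of BGG gives the factor `γ (ζ + gs) ≤ (1 + gs) γ ζ` (`ζ ≥ √k ≥ 1`); in `walk_max` of BGG
the exponent is `a² z²/(4 gK² w)`.
-/

namespace BGG

open MeasureTheory ProbabilityTheory BGE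

variable [GeoPar]


/-! ### The sets -/

def scQA (K k N : ℕ) (s b : ℝ) : Set (BN × BN) :=
  {c | stR K c ∈ Stay s N ∩ scBack k b ∧ stL K c ∈ Stay s N}

def scQB (K N : ℕ) (s ζ : ℝ) : Set (BN × BN) :=
  {c | stR K c ∈ Stay s N ∧ stL K c ∈ Stay s N ∧
      (c.1.2.2.2.2 ≤ ζ ∨ c.2.2.2.2.2 ≤ ζ)}

/-- the event of a large centred maximum -/
def scM (J : ℕ) (ζ : ℝ) : Set ((ℕ → ℝ) × (ℕ → ℝ)) :=
  {p | ∃ j : ℕ, 1 ≤ j ∧ j ≤ J ∧
    ζ < (∑ u ∈ Finset.Icc 1 j, p.1 u) - (∑ u ∈ Finset.Ico 1 j, p.2 u)}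

def scQC (J : ℕ) (ζ : ℝ) : Set (BN × BN) :=
  {c | (c.1.2.1, c.1.1) ∈ scM J ζ ∨ (c.2.2.2.2.1, c.2.2.2.1) ∈ scM J ζ}

omit [GeoPar] in
theorem scM_meas (J : ℕ) (ζ : ℝ) : MeasurableSet (scM J ζ) := by
  have e : scM J ζ = ⋃ j ∈ Finset.Icc 1 J, {p : (ℕ → ℝ) × (ℕ → ℝ) |
      ζ < (∑ u ∈ Finset.Icc 1 j, p.1 u) - (∑ u ∈ Finset.Ico 1 j, p.2 u)} := by
    ext x
    simp only [scM, Set.mem_ofPred_eq, Set.mem_iUnion, Finset.mem_Icc, exists_prop, and_assoc]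
  rw [e]
  refine Finset.measurableSet_biUnion _ fun j _ => measurableSet_lt measurable_const ?_
  refine Measurable.sub ?_ ?_
  · exact Finset.measurable_sum _ fun i _ => by fun_prop
  · exact Finset.measurable_sum _ fun i _ => by fun_prop

omit [GeoPar] in
theorem stR_meas (K : ℕ) : Measurable (stR K) := by
  refine measurable_pi_iff.2 fun i => ?_
  unfold stR
  fun_prop

omit [GeoPar] in
theorem stL_meas (K : ℕ) : Measurable (stL K) := by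
  refine measurable_pi_iff.2 fun i => ?_
  unfold stL
  fun_prop

omit [GeoPar] in
theorem scQA_meas (K k N : ℕ) (s b : ℝ) : MeasurableSet (scQA K k N s b) :=
  ((stR_meas K) ((BGE.wstay_meas s N).inter (scBack_meas k b))).inter
    ((stL_meas K) (BGE.wstay_meas s N))

omit [GeoPar] in
theorem scQB_meas (K N : ℕ) (s ζ : ℝ) : MeasurableSet (scQB K N s ζ) := by
  refine ((stR_meas K) (BGE.wstay_meas s N)).inter
    (((stL_meas K) (BGE.wstay_meas s N)).inter ?_)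
  refine MeasurableSet.union ?_ ?_
  · exact measurableSet_le (show Measurable (fun c : BN × BN => c.1.2.2.2.2) by fun_prop)
      measurable_const
  · exact measurableSet_le (show Measurable (fun c : BN × BN => c.2.2.2.2.2) by fun_prop)
      measurable_const

omit [GeoPar] in
theorem scQC_meas (J : ℕ) (ζ : ℝ) : MeasurableSet (scQC J ζ) := by
  refine MeasurableSet.union ?_ ?_
  · exact (show Measurable (fun c : BN × BN => (c.1.2.1, c.1.1)) by fun_prop) (scM_meas J ζ)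
  · exact (show Measurable (fun c : BN × BN => (c.2.2.2.2.1, c.2.2.2.1)) by fun_prop)
      (scM_meas J ζ)

/-! ### The deterministic part -/

omit [GeoPar] in
theorem sc_stay {σ A : ℝ} {n K N : ℕ} {s : ℝ} {ω : ℤ × ℤ → ℝ} {c : BN × BN} (hs : 0 ≤ s)
    (h1 : CRel σ A n (K + N) ω c.1) (h2 : CRel σ A n (K + N) (rotE ω) c.2)
    (hN : NR σ A n K (K + N) s ω) :
    stR K c ∈ Stay s N ∧ stL K c ∈ Stay s N := by
  constructor
  · intro m hm
    rcases Nat.eq_zero_or_pos m with rfl | hm0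
    · simpa [Sw] using hs
    refine le_trans ?_ ((hN ((K + m : ℕ) : ℤ) (by push_cast; omega) (by push_cast; omega)).1)
    rw [← tele (fun i => FLp σ A n ω i) K m]
    refine Finset.sum_le_sum fun i hi => ?_
    rw [Finset.mem_range] at hi
    have e := FLp_succ σ A n ω ((K + i + 1 : ℕ) : ℤ)
    have k1 := h1.1 (K + i + 1) (by omega) (by omega)
    have k2 := h2.2.1 (K + i + 1) (by omega) (by omega)
    rw [e]
    unfold stR
    linarith
  · intro m hm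
    rcases Nat.eq_zero_or_pos m with rfl | hm0
    · simpa [Sw] using hs
    refine le_trans ?_ ((hN ((K + m : ℕ) : ℤ) (by push_cast; omega) (by push_cast; omega)).2)
    rw [← tele (fun i => FRp σ A n ω (-i)) K m]
    refine Finset.sum_le_sum fun i hi => ?_
    rw [Finset.mem_range] at hi
    have e := FRp_succ σ A n ω ((K + i + 1 : ℕ) : ℤ)
    have k1 := h2.1 (K + i + 1) (by omega) (by omega)
    have k2 := h1.2.1 (K + i + 1) (by omega) (by omega)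
    show _ ≤ FRp σ A n ω (-((K + i + 1 : ℕ) : ℤ)) - FRp σ A n ω (-(((K + i + 1 : ℕ) : ℤ) - 1))
    rw [e]
    unfold stL
    linarith

omit [GeoPar] in
theorem sc_noidle {σ A : ℝ} {n I J : ℕ} {ζ : ℝ} {ω : ℤ × ℤ → ℝ} {c : BN × BN}
    (h1 : CRel σ A n I ω c.1) (h2 : CRel σ A n I (rotE ω) c.2) (hJ : J ≤ I)
    (hC : c ∉ scQC J ζ)
    (hK1 : ζ < c.1.2.2.2.2)
    (hK2 : ζ < c.2.2.2.2.2) :
    ∀ i : ℕ, 1 ≤ i → i ≤ J →
      (dT ω (PLp σ A n) i = c.1.1 i ∧ dT ω (PRp σ A n) i = c.1.1 i) ∧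
      (dT (rotE ω) (PLp σ A n) (1 - i) = c.2.2.2.2.1 i ∧
        dT (rotE ω) (PRp σ A n) (1 - i) = c.2.2.2.2.1 i) := by
  simp only [scQC, scM, Set.mem_ofPred_eq, not_or, not_exists, not_and, not_lt] at hC
  obtain ⟨hC1, hC2⟩ := hC
  intro i hi1 hiJ
  refine ⟨h1.2.2.2.1 J hJ (fun j hj1 hjJ => (hC1 j hj1 hjJ).trans hK1.le) i hi1 hiJ,
    h2.2.2.2.2 J hJ (fun j hj1 hjJ => (hC2 j hj1 hjJ).trans hK2.le) i hi1 hiJ⟩

omit [GeoPar] in
theorem sc_clo {σ A : ℝ} {n K k N : ℕ} {s b ζ : ℝ} {ω : ℤ × ℤ → ℝ} {c : BN × BN} (hs : 0 ≤ s)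
    (hkN : 4 * k ≤ N)
    (h1 : CRel σ A n (K + N) ω c.1) (h2 : CRel σ A n (K + N) (rotE ω) c.2)
    (hN : NR σ A n K (K + N) s ω) (hC : Clo σ A n K k b ω) :
    c ∈ scQA K k N s b ∪ (scQB K N s ζ ∪ scQC (K + 4 * k) ζ) := by
  obtain ⟨hR, hL⟩ := sc_stay hs h1 h2 hN
  by_cases hq : c ∈ scQC (K + 4 * k) ζ
  · exact Or.inr (Or.inr hq)
  by_cases hK : c.1.2.2.2.2 ≤ ζ ∨ c.2.2.2.2.2 ≤ ζ
  · exact Or.inr (Or.inl ⟨hR, hL, hK⟩)
  push Not at hK
  left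
  refine ⟨⟨hR, ?_⟩, hL⟩
  obtain ⟨i, hi1, hi2, hi3⟩ := hC
  obtain ⟨m, rfl⟩ : ∃ m : ℕ, i = ((K + m : ℕ) : ℤ) := ⟨(i - K).toNat, by push_cast; omega⟩
  have hm1 : k ≤ m := by push_cast at hi1; omega
  have hm2 : m ≤ 4 * k := by push_cast at hi2; omega
  refine ⟨m, hm1, hm2, hi3.trans (le_of_eq ?_)⟩
  rw [← tele (fun i => FLp σ A n ω i) K m]
  refine Finset.sum_congr rfl fun i hi => ?_
  rw [Finset.mem_range] at hi
  have e := FLp_succ σ A n ω ((K + i + 1 : ℕ) : ℤ)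
  have h := sc_noidle h1 h2 (J := K + 4 * k) (by omega) hq hK.1 hK.2 (K + i + 1) (by omega)
    (by omega)
  rw [e, h.1.1, h.2.2]
  rfl

omit [GeoPar] in
theorem sc_wd {σ A : ℝ} {n K k N : ℕ} {s ζ : ℝ} {ω : ℤ × ℤ → ℝ} {c : BN × BN} (hs : 0 ≤ s)
    (hkN : 4 * k ≤ N)
    (h1 : CRel σ A n (K + N) ω c.1) (h2 : CRel σ A n (K + N) (rotE ω) c.2)
    (hN : NR σ A n K (K + N) s ω) (hC : Wd σ A n K (4 * k) ω) :
    c ∈ scQB K N s ζ ∪ scQC (K + 4 * k) ζ := by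
  obtain ⟨hR, hL⟩ := sc_stay hs h1 h2 hN
  by_cases hq : c ∈ scQC (K + 4 * k) ζ
  · exact Or.inr hq
  by_cases hK : c.1.2.2.2.2 ≤ ζ ∨ c.2.2.2.2.2 ≤ ζ
  · exact Or.inl ⟨hR, hL, hK⟩
  push Not at hK
  exfalso
  obtain ⟨i, hi1, hi2, hi3⟩ := hC
  obtain ⟨m, rfl⟩ : ∃ m : ℕ, i = (m : ℤ) := ⟨i.toNat, by omega⟩
  have h := sc_noidle h1 h2 (J := K + 4 * k) (by omega) hq hK.1 hK.2 m (by omega) (by omega)
  rw [FLp_succ, FRp_succ', h.1.1, h.1.2, h.2.1, h.2.2] at hi3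
  exact lt_irrefl _ hi3

/-! ### Probabilities -/

theorem mp_cn1 (α β : ℝ) : MeasurePreserving (fun b : BN => b.1) (muCN α β) (bI α) := by
  unfold muCN
  exact measurePreserving_fst

theorem mp_cn2 (α β : ℝ) :
    MeasurePreserving (fun b : BN => b.2.1) (muCN α β) (bI β) := by
  unfold muCN
  exact measurePreserving_fst.comp measurePreserving_snd

theorem mp_cn3 (α β : ℝ) :
    MeasurePreserving (fun b : BN => b.2.2.1) (muCN α β) (bI α) := by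
  unfold muCN
  exact (measurePreserving_fst.comp measurePreserving_snd).comp measurePreserving_snd

theorem mp_cn4 (α β : ℝ) :
    MeasurePreserving (fun b : BN => b.2.2.2.1) (muCN α β) (bI β) := by
  unfold muCN
  exact ((measurePreserving_fst.comp measurePreserving_snd).comp measurePreserving_snd).comp
    measurePreserving_snd

/-- a large deviation of the centred sums -/
def scD (a z : ℝ) (w : ℕ) : Set (ℕ → ℝ) :=
  {x : ℕ → ℝ | ∃ k : ℕ, k ≤ w ∧ z ≤ |∑ i ∈ Finset.Icc 1 k, (x i - 1 / a)|}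

omit [GeoPar] in
theorem scD_meas (a z : ℝ) (w : ℕ) : MeasurableSet (scD a z w) := by
  have e : scD a z w = ⋃ k ∈ Finset.range (w + 1),
      {x : ℕ → ℝ | z ≤ |∑ i ∈ Finset.Icc 1 k, (x i - 1 / a)|} := by
    ext x
    simp only [scD, Set.mem_ofPred_eq, Set.mem_iUnion, Finset.mem_range, exists_prop]
    constructor
    · rintro ⟨k, h1, h2⟩
      exact ⟨k, by omega, h2⟩
    · rintro ⟨k, h1, h2⟩
      exact ⟨k, by omega, h2⟩
  rw [e]
  refine Finset.measurableSet_biUnion _ fun k _ => measurableSet_le measurable_const ?_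
  refine Measurable.abs ?_
  exact Finset.measurable_sum _ fun i _ => by fun_prop

omit [GeoPar] in
/-- a large maximum forces a large deviation of one of the two sums -/
theorem scM_sub {α β ζ : ℝ} {J w : ℕ} (hJ : J ≤ w)
    (hd : 1 / α + w * |1 / α - 1 / β| ≤ ζ / 2) {p : (ℕ → ℝ) × (ℕ → ℝ)} (hp : p ∈ scM J ζ) :
    p.1 ∈ scD β (ζ / 4) w ∨ p.2 ∈ scD α (ζ / 4) w := by
  obtain ⟨j, hj1, hjJ, hj⟩ := hp
  by_contra hcon
  push Not at hcon
  obtain ⟨h1, h2⟩ := hcon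
  simp only [scD, Set.mem_ofPred_eq, not_exists, not_and, not_le] at h1 h2
  have k1 := h1 j (hjJ.trans hJ)
  have k2 := h2 (j - 1) (by omega)
  have e1 : ∑ i ∈ Finset.Icc 1 j, (p.1 i - 1 / β) =
      (∑ i ∈ Finset.Icc 1 j, p.1 i) - j * (1 / β) := by
    rw [Finset.sum_sub_distrib]
    simp
  have e2 : ∑ i ∈ Finset.Icc 1 (j - 1), (p.2 i - 1 / α) =
      (∑ i ∈ Finset.Ico 1 j, p.2 i) - (j - 1) * (1 / α) := by
    rw [Finset.sum_sub_distrib]
    have : Finset.Icc 1 (j - 1) = Finset.Ico 1 j := by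
      ext x
      simp only [Finset.mem_Icc, Finset.mem_Ico]
      omega
    rw [this]
    simp
    left
    rw [Nat.cast_sub hj1]
    simp
  rw [e1] at k1
  rw [e2] at k2
  have k3 := (abs_lt.1 k1).2
  have k4 := (abs_lt.1 k2).1
  have hj' : (j : ℝ) ≤ w := by exact_mod_cast hjJ.trans hJ
  have k5 : (j : ℝ) * (1 / β - 1 / α) ≤ w * |1 / α - 1 / β| := by
    calc (j : ℝ) * (1 / β - 1 / α) ≤ j * |1 / α - 1 / β| := by
          apply mul_le_mul_of_nonneg_left _ (Nat.cast_nonneg j)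
          rw [abs_sub_comm]
          exact le_abs_self _
      _ ≤ _ := mul_le_mul_of_nonneg_right hj' (abs_nonneg _)
  nlinarith

theorem scQC_prob {α β ζ : ℝ} {J w : ℕ} (hJ : J ≤ w) (hα : 0 < α) (hβ : 0 < β) (hα1 : α ≤ 1)
    (hβ1 : β ≤ 1) {a : ℝ} (ha : 0 < a) (haα : a ≤ α) (haβ : a ≤ β)
    (hζ : 0 < ζ) (hζw : ζ ≤ w)
    (hd : 1 / α + w * |1 / α - 1 / β| ≤ ζ / 2) :
    ((muCN α β).prod (muCN α β)).real (scQC J ζ) ≤
      8 * Real.exp (-(a ^ 2 * ζ ^ 2 / (64 * gK ^ 2 * w))) := by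
  have hK0 : 0 < gK := lt_of_lt_of_le one_pos gK_ge
  have hw0 : (0 : ℝ) < w := lt_of_lt_of_le hζ hζw
  have hb : ∀ ρ : ℝ, 0 < ρ → ρ ≤ 1 → a ≤ ρ →
      (bI ρ).real (scD ρ (ζ / 4) w) ≤ 2 * Real.exp (-(a ^ 2 * ζ ^ 2 / (64 * gK ^ 2 * w))) := by
    intro ρ hρ hρ1 haρ
    have := walk_max (a := ρ) (z := ζ / 4) hρ hρ1 (by positivity) w (by nlinarith)
    refine this.trans ?_
    refine mul_le_mul_of_nonneg_left (Real.exp_le_exp.2 ?_) (by norm_num)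
    rw [neg_le_neg_iff]
    have e : ρ ^ 2 * (ζ / 4) ^ 2 / (4 * gK ^ 2 * w) = ρ ^ 2 * ζ ^ 2 / (64 * gK ^ 2 * w) := by
      field_simp
      ring
    rw [e]
    gcongr
  have hsub : scQC J ζ ⊆
      (((fun c : BN × BN => c.1.2.1) ⁻¹' scD β (ζ / 4) w ∪
        (fun c : BN × BN => c.1.1) ⁻¹' scD α (ζ / 4) w) ∪
      ((fun c : BN × BN => c.2.2.2.2.1) ⁻¹' scD β (ζ / 4) w ∪
        (fun c : BN × BN => c.2.2.2.1) ⁻¹' scD α (ζ / 4) w)) := by
    rintro c (hc | hc)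
    · left
      exact scM_sub hJ hd hc
    · right
      exact scM_sub hJ hd hc
  have m1 : ((muCN α β).prod (muCN α β)).real ((fun c : BN × BN => c.1.2.1) ⁻¹' scD β (ζ / 4) w) =
      (bI β).real (scD β (ζ / 4) w) := by
    have := ((mp_cn2 α β).comp (measurePreserving_fst (μ := muCN α β) (ν := muCN α β))).measure_preimage
      (scD_meas β (ζ / 4) w).nullMeasurableSet
    simp only [Measure.real]
    rw [← this]
    rfl
  have m2 : ((muCN α β).prod (muCN α β)).real ((fun c : BN × BN => c.1.1) ⁻¹' scD α (ζ / 4) w) =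
      (bI α).real (scD α (ζ / 4) w) := by
    have := ((mp_cn1 α β).comp (measurePreserving_fst (μ := muCN α β) (ν := muCN α β))).measure_preimage
      (scD_meas α (ζ / 4) w).nullMeasurableSet
    simp only [Measure.real]
    rw [← this]
    rfl
  have m3 : ((muCN α β).prod (muCN α β)).real ((fun c : BN × BN => c.2.2.2.2.1) ⁻¹' scD β (ζ / 4) w) =
      (bI β).real (scD β (ζ / 4) w) := by
    have := ((mp_cn4 α β).comp (measurePreserving_snd (μ := muCN α β) (ν := muCN α β))).measure_preimage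
      (scD_meas β (ζ / 4) w).nullMeasurableSet
    simp only [Measure.real]
    rw [← this]
    rfl
  have m4 : ((muCN α β).prod (muCN α β)).real ((fun c : BN × BN => c.2.2.2.1) ⁻¹' scD α (ζ / 4) w) =
      (bI α).real (scD α (ζ / 4) w) := by
    have := ((mp_cn3 α β).comp (measurePreserving_snd (μ := muCN α β) (ν := muCN α β))).measure_preimage
      (scD_meas α (ζ / 4) w).nullMeasurableSet
    simp only [Measure.real]
    rw [← this]
    rfl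
  have b1 := hb β hβ hβ1 haβ
  have b2 := hb α hα hα1 haα
  calc ((muCN α β).prod (muCN α β)).real (scQC J ζ) ≤ _ :=
        measureReal_mono hsub (measure_ne_top _ _)
    _ ≤ _ := measureReal_union_le _ _
    _ ≤ _ := add_le_add (measureReal_union_le _ _) (measureReal_union_le _ _)
    _ ≤ _ := by
        rw [m1, m2, m3, m4]
        linarith

theorem scQA_prob {κ : ℝ} (hκ : 0 < κ) : ∃ C c₁ : ℝ, 0 < C ∧ 0 < c₁ ∧ ∀ p q : ℝ,
    κ ≤ p → p ≤ 1 → κ ≤ q → q ≤ 1 → ∀ K k N : ℕ, 1 ≤ k → 16 * k ≤ N →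
    |1 / p - 1 / q| * √N ≤ c₁ → ∀ s b : ℝ, 0 ≤ s → 0 ≤ b →
    ((muCN p q).prod (muCN p q)).real (scQA K k N s b) ≤
      C * ((s + 1) ^ 2 * (s + b + 1) / (N * √k)) := by
  obtain ⟨C, c₁, hC, hc₁, H⟩ := persist hκ
  obtain ⟨C', c₁', hC', hc₁', H'⟩ := persist_close hκ
  refine ⟨2 * C' * C, min c₁ c₁', by positivity, lt_min hc₁ hc₁', ?_⟩
  intro p q hp hp1 hq hq1 K k N hk hN hm s b hs hb
  have hkr : (1 : ℝ) ≤ k := by exact_mod_cast hk
  have hNr : (16 * k : ℝ) ≤ N := by exact_mod_cast hN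
  have hsk : 0 < √(k : ℝ) := Real.sqrt_pos.2 (by linarith)
  have hsN : 0 < √(N : ℝ) := Real.sqrt_pos.2 (by linarith)
  have e1 := (H p q hp hp1 hq hq1 N (by omega) (hm.trans (min_le_left _ _)) s hs).1
  have e2 := H' p q hp hp1 hq hq1 k N hk (by omega) (hm.trans (min_le_right _ _)) s b hs hb
  have e3 := H' p q hp hp1 hq hq1 (2 * k) N (by omega) (by omega) (hm.trans (min_le_right _ _))
    s b hs hb
  have e4 : C' * (s + 1) * (s + b + 1) / (√((2 * k : ℕ) : ℝ) * √N) ≤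
      C' * (s + 1) * (s + b + 1) / (√k * √N) := by
    apply div_le_div_of_nonneg_left (by positivity) (by positivity)
    apply mul_le_mul_of_nonneg_right _ hsN.le
    apply Real.sqrt_le_sqrt
    push_cast
    linarith
  have hsub : Stay s N ∩ scBack k b ⊆
      (Stay s N ∩ {x | ∃ i, k ≤ i ∧ i ≤ 2 * k ∧ -b ≤ Sw x i}) ∪
      (Stay s N ∩ {x | ∃ i, 2 * k ≤ i ∧ i ≤ 2 * (2 * k) ∧ -b ≤ Sw x i}) := by
    rintro x ⟨hx, i, hi1, hi2, hi3⟩
    rcases le_total i (2 * k) with h | h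
    · exact Or.inl ⟨hx, i, hi1, h, hi3⟩
    · exact Or.inr ⟨hx, i, h, by omega, hi3⟩
  have e5 : (walkM p q).real (Stay s N ∩ scBack k b) ≤
      2 * (C' * (s + 1) * (s + b + 1) / (√k * √N)) := by
    calc _ ≤ _ := measureReal_mono hsub (measure_ne_top _ _)
      _ ≤ _ := measureReal_union_le _ _
      _ ≤ _ := by linarith
  have e6 : ((muCN p q).prod (muCN p q)).real (scQA K k N s b) =
      (walkM p q).real (Stay s N ∩ scBack k b) * (walkM p q).real (Stay s N) := by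
    have := walk_pair p q K ((BGE.wstay_meas s N).inter (scBack_meas k b)) (BGE.wstay_meas s N)
    simp only [Measure.real, scQA]
    rw [this, ENNReal.toReal_mul]
  rw [e6]
  calc _ ≤ (2 * (C' * (s + 1) * (s + b + 1) / (√k * √N))) * (C * (s + 1) / √N) :=
        mul_le_mul e5 e1 measureReal_nonneg (by positivity)
    _ = _ := by
        have hNN : (N : ℝ) = √N * √N := (Real.mul_self_sqrt (by linarith)).symm
        have h3 : (2 * (C' * (s + 1) * (s + b + 1) / (√k * √N))) * (C * (s + 1) / √N) =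
            2 * C' * C * ((s + 1) ^ 2 * (s + b + 1) / ((√N * √N) * √k)) := by
          field_simp
        rw [h3, ← hNN]

theorem scQB_prob {κ : ℝ} (hκ : 0 < κ) : ∃ C c₁ : ℝ, 0 < C ∧ 0 < c₁ ∧ ∀ p q : ℝ,
    κ ≤ p → p ≤ 1 → κ ≤ q → q < p → ∀ K N : ℕ, 1 ≤ N →
    |1 / p - 1 / q| * √N ≤ c₁ → ∀ s ζ : ℝ, 0 ≤ s → 1 ≤ ζ →
    ((muCN p q).prod (muCN p q)).real (scQB K N s ζ) ≤
      C * ((s + 1) ^ 2 * ((p - q) * ζ) / N) := by
  obtain ⟨C, c₁, hC, hc₁, H⟩ := persist hκ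
  have hgs := gs_pos
  refine ⟨2 * (1 + gs) * C ^ 2, c₁, by positivity, hc₁, ?_⟩
  intro p q hp hp1 hq hqp K N hN hm s ζ hs hζ
  have hNr : (1 : ℝ) ≤ N := by exact_mod_cast hN
  have hsN : 0 < √(N : ℝ) := Real.sqrt_pos.2 (by linarith)
  have e1 := (H p q hp hp1 hq (hqp.le.trans hp1) N hN hm s hs).1
  have e2 := walk_pair_K (α := p) (β := q) (lt_of_lt_of_le hκ hq) hqp hp1
    (show (0 : ℝ) ≤ ζ by linarith) K (BGE.wstay_meas s N) (BGE.wstay_meas s N)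
  refine e2.trans ?_
  have e3 : (walkM p q).real (Stay s N) * (walkM p q).real (Stay s N) ≤
      (C * (s + 1) / √N) * (C * (s + 1) / √N) :=
    mul_le_mul e1 e1 measureReal_nonneg (by positivity)
  have hpq : 0 < p - q := by linarith
  have e4 : 2 * ((p - q) * (ζ + gs)) ≤ 2 * ((p - q) * ((1 + gs) * ζ)) := by
    have h5 : ζ + gs ≤ (1 + gs) * ζ := by nlinarith
    have h6 := mul_le_mul_of_nonneg_left h5 hpq.le
    linarith
  calc _ ≤ 2 * ((p - q) * ((1 + gs) * ζ)) * ((C * (s + 1) / √N) * (C * (s + 1) / √N)) :=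
        mul_le_mul e4 e3 (mul_nonneg measureReal_nonneg measureReal_nonneg) (by positivity)
    _ = _ := by
        have hNN : (N : ℝ) = √N * √N := (Real.mul_self_sqrt (by linarith)).symm
        have h3 : 2 * ((p - q) * ((1 + gs) * ζ)) * ((C * (s + 1) / √N) * (C * (s + 1) / √N)) =
            2 * (1 + gs) * C ^ 2 * ((s + 1) ^ 2 * ((p - q) * ζ) / (√N * √N)) := by
          field_simp
        rw [h3, ← hNN]

theorem sc_main {κ : ℝ} (hκ : 0 < κ) : ∃ C0 : ℝ, 1 ≤ C0 ∧ ∀ (σ lam Y g0 A : ℝ) (n : ℕ),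
    Par C0 κ σ lam Y g0 n → 1 ≤ A → A ≤ 4 * Y * (n : ℝ) ^ (2 / 3 : ℝ) →
    ∀ K k N : ℕ, 1 ≤ k → K ≤ k → 16 * k ≤ N → C0 * Y ^ 2 * (K + N) ≤ (n : ℝ) ^ (2 / 3 : ℝ) →
    ∀ s ζ : ℝ, 0 ≤ s → √k ≤ ζ → ζ ≤ k →
    (∀ b : ℝ, 0 ≤ b → PG.real {ω | GoodE κ σ lam Y g0 (2 * n) ω ∧
      NR σ A n K (K + N) s ω ∧ Clo σ A n K k b ω} ≤
        C0 * (s + 1) ^ 2 * (s + b + 1) / (N * √k) +
        C0 * (s + 1) ^ 2 * (Y * ζ) / (N * (n : ℝ) ^ (1 / 3 : ℝ)) +
        C0 * Real.exp (-(ζ ^ 2 / (C0 * k)))) ∧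
    PG.real {ω | GoodE κ σ lam Y g0 (2 * n) ω ∧ NR σ A n K (K + N) s ω ∧
      Wd σ A n K (4 * k) ω} ≤ C0 * (s + 1) ^ 2 * (Y * ζ) / (N * (n : ℝ) ^ (1 / 3 : ℝ)) +
        C0 * Real.exp (-(ζ ^ 2 / (C0 * k))) := by
  obtain ⟨B, hB, Cw, hCw, HW⟩ := to_walk hκ
  obtain ⟨Cr, hCr, HR⟩ := rates hκ hB
  have hκ4 : 0 < κ / 4 := by positivity
  obtain ⟨CA, cA, hCA, hcA, HA⟩ := scQA_prob hκ4
  obtain ⟨CB, cB, hCB, hcB, HB⟩ := scQB_prob hκ4
  have hK0 : 0 < gK := lt_of_lt_of_le one_pos gK_ge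
  set M : ℝ := 20 + (32 / κ) ^ 2 + 5120 * gK ^ 2 / κ ^ 2 + 2 * CA + 4 * B * CB with hM
  have hM0 : 0 < 5120 * gK ^ 2 / κ ^ 2 := by positivity
  have hM1 : 0 ≤ (32 / κ) ^ 2 := by positivity
  have hM2 : 0 < 4 * B * CB := by positivity
  obtain ⟨C0, hC1, hMC, HP⟩ := sc_param hκ Cr (min cA cB) M hCr (lt_min hcA hcB)
    (by rw [hM]; linarith) Cw hCw
  refine ⟨C0, hC1, ?_⟩
  intro σ lam Y g0 A n hP hA1 hA2 K k N hk hK hN hn s ζ hs hζ1 hζ2
  obtain ⟨hPw, q1, q2, hY, q3, hn3, hI, hc, hd⟩ := HP σ lam Y g0 n hP K k N hk hK hN hn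
  obtain ⟨r1, r2, r3, r4, r5⟩ := HR σ Y n q1 q2 hY q3
  have hkr : (1 : ℝ) ≤ k := by exact_mod_cast hk
  have hk0 : (0 : ℝ) < k := by linarith
  have hNr : (16 * k : ℝ) ≤ N := by exact_mod_cast hN
  have hN0 : (0 : ℝ) < N := by linarith
  have hsk : 0 < √(k : ℝ) := Real.sqrt_pos.2 hk0
  have hsk1 : 1 ≤ √(k : ℝ) := Real.one_le_sqrt.2 hkr
  have hζ0 : 0 < ζ := by linarith
  have hC0 : 0 < C0 := by linarith
  have hcc := (r5 N).trans hc
  set α := rA σ B Y n with hα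
  set β := rB σ B Y n with hβ
  have hβ0 : 0 < β := by linarith
  have hα0 : 0 < α := by linarith
  have hα1 : α ≤ 1 := by linarith
  have hβ1 : β ≤ 1 := by linarith
  have hex : 0 < Real.exp (-(ζ ^ 2 / (C0 * k))) := Real.exp_pos _
  by_cases hcase : ζ < 32 / κ * √k
  · -- trivial case
    have h1 : ζ ^ 2 ≤ C0 * k := by
      have : ζ ^ 2 ≤ (32 / κ * √k) ^ 2 := pow_le_pow_left₀ hζ0.le hcase.le 2
      refine this.trans ?_
      rw [mul_pow, Real.sq_sqrt hk0.le]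
      apply mul_le_mul_of_nonneg_right _ hk0.le
      refine le_trans ?_ hMC
      rw [hM]
      linarith
    have h2 : ζ ^ 2 / (C0 * k) ≤ 1 := (div_le_one (by positivity)).2 h1
    have h3 : Real.exp (-1) ≤ Real.exp (-(ζ ^ 2 / (C0 * k))) := Real.exp_le_exp.2 (by linarith)
    have h4 : (1 / 3 : ℝ) ≤ Real.exp (-1) := by
      rw [Real.exp_neg, one_div]
      exact inv_anti₀ (Real.exp_pos _) (by linarith [Real.exp_one_lt_d9])
    have h5 : (3 : ℝ) ≤ C0 := le_trans (by rw [hM]; linarith) hMC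
    have h6 : 1 ≤ C0 * Real.exp (-(ζ ^ 2 / (C0 * k))) := by
      have : 3 * (1 / 3) ≤ C0 * Real.exp (-(ζ ^ 2 / (C0 * k))) :=
        mul_le_mul h5 (h4.trans h3) (by norm_num) hC0.le
      linarith
    have h7 : 0 ≤ C0 * (s + 1) ^ 2 * (Y * ζ) / (N * (n : ℝ) ^ (1 / 3 : ℝ)) := by positivity
    refine ⟨fun b hb => ?_, ?_⟩
    · have h8 : 0 ≤ C0 * (s + 1) ^ 2 * (s + b + 1) / (N * √k) := by positivity
      exact measureReal_le_one.trans (by linarith)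
    · exact measureReal_le_one.trans (by linarith)
  push Not at hcase
  have hw : ((5 * k : ℕ) : ℝ) = 5 * k := by push_cast; ring
  have hdrift : 1 / α + ((5 * k : ℕ) : ℝ) * |1 / α - 1 / β| ≤ ζ / 2 := by
    have e1 : 1 / α ≤ 4 / κ := by
      rw [div_le_div_iff₀ hα0 hκ]
      linarith
    have e2 : 32 / κ ≤ ζ := by
      refine le_trans ?_ hcase
      have : 0 < 32 / κ := by positivity
      nlinarith
    have e3 : 4 / κ = (32 / κ) / 8 := by ring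
    have e4 : |1 / α - 1 / β| ≤ Cr * Y / (n : ℝ) ^ (1 / 3 : ℝ) := by
      have := r5 1
      simpa using this
    have e5 : ((5 * k : ℕ) : ℝ) * |1 / α - 1 / β| ≤ 5 * k * (Cr * Y / (n : ℝ) ^ (1 / 3 : ℝ)) := by
      rw [hw]
      exact mul_le_mul_of_nonneg_left e4 (by positivity)
    linarith
  have hQC := scQC_prob (J := K + 4 * k) (w := 5 * k) (by omega) hα0 hβ0 hα1 hβ1 hκ4
    (by linarith) r1 hζ0 (by rw [hw]; linarith) hdrift
  have hQC' : 2 * ((muCN α β).prod (muCN α β)).real (scQC (K + 4 * k) ζ) ≤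
      C0 * Real.exp (-(ζ ^ 2 / (C0 * k))) := by
    have e1 : Real.exp (-((κ / 4) ^ 2 * ζ ^ 2 / (64 * gK ^ 2 * ((5 * k : ℕ) : ℝ)))) ≤
        Real.exp (-(ζ ^ 2 / (C0 * k))) := by
      apply Real.exp_le_exp.2
      rw [neg_le_neg_iff, hw]
      have e2 : (κ / 4) ^ 2 * ζ ^ 2 / (64 * gK ^ 2 * (5 * k)) =
          ζ ^ 2 / ((5120 * gK ^ 2 / κ ^ 2) * k) := by
        field_simp
        ring
      rw [e2]
      apply div_le_div_of_nonneg_left (by positivity) (by positivity)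
      apply mul_le_mul_of_nonneg_right _ hk0.le
      refine le_trans ?_ hMC
      rw [hM]
      linarith
    have h5 : (16 : ℝ) ≤ C0 := le_trans (by rw [hM]; linarith) hMC
    calc 2 * ((muCN α β).prod (muCN α β)).real (scQC (K + 4 * k) ζ) ≤
          16 * Real.exp (-((κ / 4) ^ 2 * ζ ^ 2 / (64 * gK ^ 2 * ((5 * k : ℕ) : ℝ)))) := by
          linarith
      _ ≤ C0 * Real.exp (-(ζ ^ 2 / (C0 * k))) :=
          mul_le_mul h5 e1 (Real.exp_pos _).le hC0.le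
  have hγ : 0 < α - β := by linarith
  have hQB := HB α β (by linarith) hα1 r1 (by linarith) K N (by omega)
    (hcc.trans (min_le_right _ _)) s ζ hs (hsk1.trans hζ1)
  have hQB' : 2 * ((muCN α β).prod (muCN α β)).real (scQB K N s ζ) ≤
      C0 * (s + 1) ^ 2 * (Y * ζ) / (N * (n : ℝ) ^ (1 / 3 : ℝ)) := by
    have h5 : 4 * B * CB ≤ C0 := le_trans (by rw [hM]; linarith) hMC
    calc 2 * ((muCN α β).prod (muCN α β)).real (scQB K N s ζ) ≤
          2 * (CB * ((s + 1) ^ 2 * ((α - β) * ζ) / N)) := by linarith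
      _ = (4 * B * CB) * ((s + 1) ^ 2 * (Y * ζ) / (N * (n : ℝ) ^ (1 / 3 : ℝ))) := by
          rw [r4]
          field_simp
          ring
      _ ≤ C0 * ((s + 1) ^ 2 * (Y * ζ) / (N * (n : ℝ) ^ (1 / 3 : ℝ))) :=
          mul_le_mul_of_nonneg_right h5 (by positivity)
      _ = _ := by ring
  have hGm := measurableSet_GoodE (κ := κ) (σ := σ) (lam := lam) (Y := Y) (g0 := g0) (n := 2 * n)
  have hNm := measurableSet_NR (σ := σ) (A := A) (n := n) (K := K) (I := K + N) (s := s)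
  have hI' : (((K + N : ℕ) : ℕ) : ℝ) + 1 ≤ (n : ℝ) ^ (2 / 3 : ℝ) := hI
  refine ⟨fun b hb => ?_, ?_⟩
  · have hCm := measurableSet_Clo (σ := σ) (A := A) (n := n) (K := K) (k := k) (b := b)
    have hE := HW σ lam Y g0 A n (K + N) hPw hA1 hA2 hI'
      {ω | GoodE κ σ lam Y g0 (2 * n) ω ∧ NR σ A n K (K + N) s ω ∧ Clo σ A n K k b ω}
      (scQA K k N s b ∪ (scQB K N s ζ ∪ scQC (K + 4 * k) ζ))
      (hGm.inter (hNm.inter hCm))
      ((scQA_meas _ _ _ _ _).union ((scQB_meas _ _ _ _).union (scQC_meas _ _)))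
      (fun ω hω => hω.1)
      (fun ω hω c h1 h2 => sc_clo hs (by omega) h1 h2 hω.2.1 hω.2.2)
    have hQA := HA α β (by linarith) hα1 r1 hβ1 K k N hk hN (hcc.trans (min_le_left _ _)) s b hs hb
    have hQA' : 2 * ((muCN α β).prod (muCN α β)).real (scQA K k N s b) ≤
        C0 * (s + 1) ^ 2 * (s + b + 1) / (N * √k) := by
      have h5 : 2 * CA ≤ C0 := le_trans (by rw [hM]; linarith) hMC
      calc 2 * ((muCN α β).prod (muCN α β)).real (scQA K k N s b) ≤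
            (2 * CA) * ((s + 1) ^ 2 * (s + b + 1) / (N * √k)) := by linarith
        _ ≤ C0 * ((s + 1) ^ 2 * (s + b + 1) / (N * √k)) :=
            mul_le_mul_of_nonneg_right h5 (by positivity)
        _ = _ := by ring
    have hU := measureReal_union_le (μ := (muCN α β).prod (muCN α β)) (scQA K k N s b)
      (scQB K N s ζ ∪ scQC (K + 4 * k) ζ)
    have hU2 := measureReal_union_le (μ := (muCN α β).prod (muCN α β))
      (scQB K N s ζ) (scQC (K + 4 * k) ζ)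
    linarith
  · have hCm := measurableSet_Wd (σ := σ) (A := A) (n := n) (K := K) (k := 4 * k)
    have hE := HW σ lam Y g0 A n (K + N) hPw hA1 hA2 hI'
      {ω | GoodE κ σ lam Y g0 (2 * n) ω ∧ NR σ A n K (K + N) s ω ∧ Wd σ A n K (4 * k) ω}
      (scQB K N s ζ ∪ scQC (K + 4 * k) ζ)
      (hGm.inter (hNm.inter hCm))
      ((scQB_meas _ _ _ _).union (scQC_meas _ _))
      (fun ω hω => hω.1)
      (fun ω hω c h1 h2 => sc_wd hs (by omega) h1 h2 hω.2.1 hω.2.2)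
    have hU2 := measureReal_union_le (μ := (muCN α β).prod (muCN α β))
      (scQB K N s ζ) (scQC (K + 4 * k) ζ)
    linarith

theorem st2 {κ : ℝ} (hκ : 0 < κ) : ∃ C0 : ℝ, 1 ≤ C0 ∧ ∀ (σ lam Y g0 A : ℝ) (n : ℕ),
    Par C0 κ σ lam Y g0 n → 1 ≤ A → A ≤ 4 * Y * (n : ℝ) ^ (2 / 3 : ℝ) →
    ∀ K k N : ℕ, 1 ≤ k → K ≤ k → 16 * k ≤ N → C0 * Y ^ 2 * (K + N) ≤ (n : ℝ) ^ (2 / 3 : ℝ) →
    ∀ s b ζ : ℝ, 0 ≤ s → 0 ≤ b → √k ≤ ζ → ζ ≤ k →
    PG.real {ω | GoodE κ σ lam Y g0 (2 * n) ω ∧ NR σ A n K (K + N) s ω ∧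
      Clo σ A n K k b ω} ≤ C0 * (s + 1) ^ 2 * (s + b + 1) / (N * √k) +
        C0 * (s + 1) ^ 2 * (Y * ζ) / (N * (n : ℝ) ^ (1 / 3 : ℝ)) +
        C0 * Real.exp (-(ζ ^ 2 / (C0 * k))) := by
  obtain ⟨C0, h1, H⟩ := sc_main hκ
  refine ⟨C0, h1, ?_⟩
  intro σ lam Y g0 A n hP hA1 hA2 K k N hk hK hN hn s b ζ hs hb hζ1 hζ2
  exact (H σ lam Y g0 A n hP hA1 hA2 K k N hk hK hN hn s ζ hs hζ1 hζ2).1 b hb

theorem st3 {κ : ℝ} (hκ : 0 < κ) : ∃ C0 : ℝ, 1 ≤ C0 ∧ ∀ (σ lam Y g0 A : ℝ) (n : ℕ),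
    Par C0 κ σ lam Y g0 n → 1 ≤ A → A ≤ 4 * Y * (n : ℝ) ^ (2 / 3 : ℝ) →
    ∀ K k N : ℕ, 1 ≤ k → K ≤ k → 16 * k ≤ N → C0 * Y ^ 2 * (K + N) ≤ (n : ℝ) ^ (2 / 3 : ℝ) →
    ∀ s ζ : ℝ, 0 ≤ s → √k ≤ ζ → ζ ≤ k →
    PG.real {ω | GoodE κ σ lam Y g0 (2 * n) ω ∧ NR σ A n K (K + N) s ω ∧
      Wd σ A n K (4 * k) ω} ≤ C0 * (s + 1) ^ 2 * (Y * ζ) / (N * (n : ℝ) ^ (1 / 3 : ℝ)) +
        C0 * Real.exp (-(ζ ^ 2 / (C0 * k))) := by
  obtain ⟨C0, h1, H⟩ := sc_main hκ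
  refine ⟨C0, h1, ?_⟩
  intro σ lam Y g0 A n hP hA1 hA2 K k N hk hK hN hn s ζ hs hζ1 hζ2
  exact (H σ lam Y g0 A n hP hA1 hA2 K k N hk hK hN hn s ζ hs hζ1 hζ2).2

end BGG
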