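import Pool.Agent.BGG.StatNR
import Pool.Agent.BGG.StatClo
import Pool.Agent.BGG.CrProb
import Pool.Agent.BGG.BlockA
import Pool.Agent.BGE.BlockLow

/-!
BGG. Adaptation of `Pool/Agent/BGE/BlockLow.lean`: same proof with the law `PG` of the environment and the law `PD` of the noise.
-/

namespace BGG


open MeasureTheory ProbabilityTheory BGE

variable [GeoPar]

private theorem bl_par_mono {C0 C1 κ σ lam Y g0 : ℝ} {n : ℕ} (hC1 : 1 ≤ C1) (h : C1 ≤ C0)
    (hP : Par C0 κ σ lam Y g0 n) : Par C1 κ σ lam Y g0 n := by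
  obtain ⟨h1, h2, h3, h4, h5, h6⟩ := hP
  have hl : 0 ≤ lam := by linarith
  exact ⟨h1, h2, h.trans h3, h4, (mul_le_mul_of_nonneg_right h (by positivity)).trans h5, h6⟩

private theorem bl_inv {h : ℝ} (h0 : 0 < h) (a : ℝ) :
    h⁻¹ ^ a = Real.exp (a * Real.log (1 / h)) := by
  rw [Real.rpow_def_of_pos (inv_pos.2 h0), one_div, mul_comm]

private theorem bl_pos {h : ℝ} (h0 : 0 < h) (a : ℝ) :
    h ^ a = Real.exp (-(a * Real.log (1 / h))) := by
  rw [Real.rpow_def_of_pos h0, one_div, Real.log_inv]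
  congr 1
  ring

/-- the restricted event implies the unrestricted one -/
private theorem bl_nr {σ A s : ℝ} {n I : ℕ} {ω ω' : ℤ × ℤ → ℝ} {B : ℝ} (hB : (I : ℝ) ≤ B)
    (h : ∀ i : ℤ, |(i : ℝ)| ≤ B → FLp σ A n ω' i = FLp σ A n ω i ∧ FRp σ A n ω' i = FRp σ A n ω i)
    (hN : NR σ A n 0 I s ω') : NR σ A n 0 (0 + I) s ω := by
  intro i hi hiI
  rw [Nat.zero_add] at hiI
  have hB0 : 0 ≤ B := (Nat.cast_nonneg I).trans hB
  have hi0 : (0 : ℤ) < i := by simpa using hi
  have hi0' : (0 : ℝ) < (i : ℝ) := by exact_mod_cast hi0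
  have hiI' : (i : ℝ) ≤ (I : ℝ) := by exact_mod_cast hiI
  have h1 := h i (by rw [abs_of_pos hi0']; linarith)
  have h2 := h ((0 : ℕ) : ℤ) (by simpa using hB0)
  have h3 := h (-i) (by push_cast; rw [abs_neg, abs_of_pos hi0']; linarith)
  have h4 := h (-((0 : ℕ) : ℤ)) (by simpa using hB0)
  have h5 := hN i hi hiI
  rw [h1.1, h2.1, h3.2, h4.2] at h5
  exact h5

private theorem bl_wd {σ A : ℝ} {n k : ℕ} {ω ω' : ℤ × ℤ → ℝ} {B : ℝ} (hB : (k : ℝ) ≤ B)
    (h : ∀ i : ℤ, |(i : ℝ)| ≤ B → FLp σ A n ω' i = FLp σ A n ω i ∧ FRp σ A n ω' i = FRp σ A n ω i)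
    (hN : Wd σ A n 0 k ω') : Wd σ A n 0 k ω := by
  obtain ⟨i, hi, hik, hlt⟩ := hN
  have hi0 : (0 : ℤ) < i := by simpa using hi
  have hik' : i ≤ (k : ℤ) := by simpa using hik
  have hi0' : (0 : ℝ) < (i : ℝ) := by exact_mod_cast hi0
  have hik2 : (i : ℝ) ≤ (k : ℝ) := by exact_mod_cast hik'
  have hi1 : (0 : ℝ) ≤ ((i - 1 : ℤ) : ℝ) := by
    have : (0 : ℤ) ≤ i - 1 := by omega
    exact_mod_cast this
  have h1 := h i (by rw [abs_of_pos hi0']; linarith)
  have h2 := h (i - 1) (by rw [abs_of_nonneg hi1]; push_cast; linarith)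
  refine ⟨i, hi, hik, ?_⟩
  rw [← h1.1, ← h1.2, ← h2.1, ← h2.2]
  exact hlt

theorem low_prob {κ : ℝ} (hκ : 0 < κ) : ∃ C1 : ℝ, 2 ≤ C1 ∧ ∀ (σ h lam : ℝ),
    HP C1 h lam → κ ≤ σ → σ ≤ 1 - κ →
    PG.real (LowS σ lam h) ≤ h ^ (31 / 100 : ℝ) := by
  obtain ⟨Ca, ha1, Ha⟩ := st3 hκ
  obtain ⟨Cb, hb1, Hb⟩ := FLp_res0 hκ
  obtain ⟨Cc, hc1, Hc⟩ := good_crude hκ
  obtain ⟨Cd, hd1, Hd⟩ := crE_bad hκ
  obtain ⟨Ce, he1, He⟩ := low_bounds
  set C0 : ℝ := max Ca (max Cb Cc) with hC0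
  have hCa : Ca ≤ C0 := le_max_left _ _
  have hCb : Cb ≤ C0 := (le_max_left _ _).trans (le_max_right _ _)
  have hCc : Cc ≤ C0 := (le_max_right _ _).trans (le_max_right _ _)
  have hC1 : 1 ≤ C0 := ha1.trans hCa
  obtain ⟨Cf, hf1, Hf⟩ := par_crude (κ := κ) (C0 := C0) hκ hC1
  refine ⟨Cc + Cd + Ce + Cf + 10 ^ 6 * C0, by linarith, ?_⟩
  intro σ h lam hHP hs1 hs2
  set C1 : ℝ := Cc + Cd + Ce + Cf + 10 ^ 6 * C0 with hC1def
  have hC2 : 2 ≤ C1 := by linarith
  obtain ⟨hb0, hb2, hb3⟩ := hp_basic hC2 hHP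
  have hHc : HP Cc h lam := hHP.mono (by linarith)
  have hHd : HP Cd h lam := hHP.mono (by linarith)
  have hHe : HP Ce h lam := hHP.mono (by linarith)
  have hHf : HP Cf h lam := hHP.mono (by linarith)
  obtain ⟨h0, h1, hL, hlam, hl1000⟩ := hHP
  obtain ⟨hj1, hj2, hr1, hr2⟩ := He h lam hHe
  set L : ℝ := Real.log (1 / h) with hLdef
  have hLbig : 10 ^ 6 * C0 ≤ L := by linarith
  have hL6 : 10 ^ 6 ≤ L := by linarith
  rw [bl_inv h0, ← hLdef] at hj1 hj2 hr1 hr2 hl1000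
  have hlam1 : 1 ≤ lam := by linarith
  have hlamL : L ≤ lam := hb2
  have hlk : ∀ k : ℕ, k ≤ 1000 → lam ^ k ≤ Real.exp (1 / 1000 * L) := fun k hk =>
    (pow_le_pow_right₀ hlam1 hk).trans hl1000
  have hbig : ∀ a b : ℝ, 0 ≤ b → b ≤ a * L → b ≤ Real.exp (a * L) := fun a b _ hab =>
    hab.trans (by linarith [Real.add_one_le_exp (a * L)])
  set n : ℕ := rL h with hn
  set k : ℕ := 2 ^ jL h with hk
  have hkR : (k : ℝ) = 2 ^ jL h := by rw [hk]; push_cast; ring
  have hk0 : (0 : ℝ) < k := by rw [hkR]; positivity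
  have hk1 : 1 ≤ k := Nat.one_le_two_pow
  have hku : (k : ℝ) ≤ Real.exp (21 / 100 * L) := by rw [hkR]; exact hj1
  have hkl : Real.exp (21 / 100 * L) ≤ 2 * k := by
    rw [hkR]
    have := hj2.le
    rw [pow_succ] at this
    linarith
  have hnp : (0 : ℝ) < n := (Real.exp_pos _).trans_le hr1
  set P : ℝ := (n : ℝ) ^ (2 / 3 : ℝ) with hP
  set Q : ℝ := (n : ℝ) ^ (1 / 3 : ℝ) with hQ
  have hP0 : 0 < P := Real.rpow_pos_of_pos hnp _
  have hQ0 : 0 < Q := Real.rpow_pos_of_pos hnp _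
  have hPQ : P * Q = n := by
    rw [hP, hQ, ← Real.rpow_add hnp]
    norm_num
  have hPl : Real.exp (28 / 100 * L) ≤ P := by
    have h2 := Real.rpow_le_rpow (Real.exp_pos _).le hr1 (by norm_num : (0 : ℝ) ≤ 2 / 3)
    rw [← Real.exp_mul] at h2
    refine le_trans (le_of_eq ?_) h2
    congr 1
    ring
  -- the number of steps
  set N : ℕ := Ic lam n with hN
  have hl3 : 0 < lam ^ 3 := by positivity
  have hNu : (N : ℝ) ≤ P / lam ^ 3 := Nat.floor_le (by positivity)
  have hPl3 : Real.exp (279 / 1000 * L) ≤ P / lam ^ 3 := by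
    rw [le_div_iff₀ hl3]
    calc Real.exp (279 / 1000 * L) * lam ^ 3
        ≤ Real.exp (279 / 1000 * L) * Real.exp (1 / 1000 * L) :=
          mul_le_mul_of_nonneg_left (hlk 3 (by norm_num)) (Real.exp_pos _).le
      _ = Real.exp (28 / 100 * L) := by rw [← Real.exp_add]; congr 1; ring
      _ ≤ P := hPl
  have h2le : 2 ≤ P / lam ^ 3 := (hbig (279 / 1000) 2 (by norm_num) (by linarith)).trans hPl3
  have hNl : P / lam ^ 3 / 2 ≤ N := by
    have h3 : P / lam ^ 3 < (N : ℝ) + 1 := Nat.lt_floor_add_one _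
    linarith
  have hNl2 : Real.exp (279 / 1000 * L) ≤ 2 * N := by linarith
  have hN0 : (0 : ℝ) < N := by
    have := Real.exp_pos (279 / 1000 * L)
    linarith
  have h16 : 16 * k ≤ N := by
    have h3 : 32 * Real.exp (21 / 100 * L) ≤ Real.exp (279 / 1000 * L) := by
      have e : Real.exp (279 / 1000 * L) =
          Real.exp (69 / 1000 * L) * Real.exp (21 / 100 * L) := by
        rw [← Real.exp_add]; congr 1; ring
      rw [e]
      exact mul_le_mul_of_nonneg_right (hbig (69 / 1000) 32 (by norm_num) (by linarith))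
        (Real.exp_pos _).le
    have h4 : (16 : ℝ) * k ≤ N := by linarith
    exact_mod_cast h4
  have hlamC : 4 * C0 ≤ lam := by linarith
  have hYN : Ca * (2 * lam) ^ 2 * ((0 : ℕ) + N : ℝ) ≤ P := by
    rw [Nat.cast_zero, zero_add]
    have h3 : (2 * lam) ^ 2 * (N : ℝ) ≤ 4 * P / lam := by
      calc (2 * lam) ^ 2 * (N : ℝ) ≤ (2 * lam) ^ 2 * (P / lam ^ 3) :=
            mul_le_mul_of_nonneg_left hNu (by positivity)
        _ = 4 * P / lam := by field_simp; ring
    have h4 : 0 ≤ (2 * lam) ^ 2 * (N : ℝ) := by positivity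
    calc Ca * (2 * lam) ^ 2 * (N : ℝ) = Ca * ((2 * lam) ^ 2 * (N : ℝ)) := by ring
      _ ≤ C0 * (4 * P / lam) := mul_le_mul hCa h3 h4 (by linarith)
      _ = 4 * C0 / lam * P := by ring
      _ ≤ 1 * P := by
          refine mul_le_mul_of_nonneg_right ?_ hP0.le
          rw [div_le_one (by linarith)]
          exact hlamC
      _ = P := one_mul _
  -- the parameters
  have hgn : C0 * lam ^ 3 ≤ n := by
    calc C0 * lam ^ 3 ≤ lam * lam ^ 3 := mul_le_mul_of_nonneg_right (by linarith) hl3.le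
      _ = lam ^ 4 := by ring
      _ ≤ Real.exp (1 / 1000 * L) := hlk 4 (by norm_num)
      _ ≤ Real.exp (21 / 50 * L) := Real.exp_le_exp.2 (by linarith)
      _ ≤ n := hr1
  have hPar : Par C0 κ σ lam (2 * lam) (C0 * lam ^ 3) n := Hf σ h lam n hHf hs1 hs2 hgn
  have hParA : Par Ca κ σ lam (2 * lam) (C0 * lam ^ 3) n := bl_par_mono ha1 hCa hPar
  have hParB : Par Cb κ σ lam (2 * lam) (C0 * lam ^ 3) n := bl_par_mono hb1 hCb hPar
  have hArc : 4 * arc lam n = 4 * (2 * lam) * P := by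
    unfold arc
    ring
  have hRR : RR σ lam n = Rgn σ (6 * (2 * lam * P)) n := rfl
  have hA1 : 1 ≤ 4 * arc lam n := by
    rw [hArc]
    have : 1 ≤ P := by
      have h5 := hbig (28 / 100) 1 (by norm_num) (by linarith)
      linarith
    have h6 := le_mul_of_one_le_left hP0.le hlam1
    linarith
  -- the good event
  have hk4 : ((4 * k : ℕ) : ℝ) ≤ 2 * lam * P / 8 := by
    have h16' : (16 : ℝ) * k ≤ N := by exact_mod_cast h16
    have h5 : P / lam ^ 3 ≤ P := div_le_self hP0.le (one_le_pow₀ hlam1)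
    have h6 := le_mul_of_one_le_left hP0.le hlam1
    push_cast
    linarith
  have hN4 : (N : ℝ) ≤ 2 * lam * P / 8 := by
    have h5 : P / lam ^ 3 ≤ P := div_le_self hP0.le (one_le_pow₀ hlam1)
    have h6 : 4 * P ≤ lam * P := mul_le_mul_of_nonneg_right (by linarith) hP0.le
    linarith
  have hsub : LowS σ lam h ⊆ {ω | ¬ CrE κ lam (8 * n) ω} ∪
      {ω | GoodE κ σ lam (2 * lam) (C0 * lam ^ 3) (2 * n) ω ∧
        NR σ (4 * arc lam n) n 0 (0 + N) 0 ω ∧ Wd σ (4 * arc lam n) n 0 (4 * k) ω} := by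
    rintro ω ⟨hω1, hω2⟩
    by_cases hcr : CrE κ lam (8 * n) ω
    · right
      have hg2 : GoodE κ σ lam (2 * lam) (C0 * lam ^ 3) (2 * n) ω :=
        Hc C0 σ h lam (2 * n) (8 * n) ω hCc hHc hs1 hs2 (by push_cast; linarith) (by omega) hcr
      have hg1 : GoodE κ σ lam (2 * lam) (C0 * lam ^ 3) n ω :=
        Hc C0 σ h lam n (8 * n) ω hCc hHc hs1 hs2 hgn (by omega) hcr
      have hres : ∀ i : ℤ, |(i : ℝ)| ≤ 2 * lam * P / 8 →
          FLp σ (4 * arc lam n) n (res (RR σ lam n) ω) i = FLp σ (4 * arc lam n) n ω i ∧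
          FRp σ (4 * arc lam n) n (res (RR σ lam n) ω) i = FRp σ (4 * arc lam n) n ω i :=
        Hb σ lam (2 * lam) (C0 * lam ^ 3) (4 * arc lam n) n ω hParB hg1 (by linarith) hArc.le
          (RR σ lam n) (hRR ▸ subset_rfl)
      exact ⟨hg2, bl_nr hN4 hres hω1, bl_wd hk4 hres hω2⟩
    · left
      exact hcr
  have hst := Ha σ lam (2 * lam) (C0 * lam ^ 3) (4 * arc lam n) n hParA hA1 hArc.le 0 k N hk1
    (Nat.zero_le _) h16 hYN 0 (lam * √k) le_rfl
    (le_mul_of_one_le_left (Real.sqrt_nonneg _) hlam1) (by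
      have h5 : lam ≤ √(k : ℝ) := by
        rw [Real.le_sqrt (by linarith) hk0.le]
        have h6 := hlk 2 (by norm_num)
        have h7 : Real.exp (1 / 1000 * L) * 2 ≤ Real.exp (21 / 100 * L) := by
          have e : Real.exp (21 / 100 * L) =
              Real.exp (1 / 1000 * L) * Real.exp (209 / 1000 * L) := by
            rw [← Real.exp_add]; congr 1; ring
          rw [e]
          exact mul_le_mul_of_nonneg_left (hbig (209 / 1000) 2 (by norm_num) (by linarith))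
            (Real.exp_pos _).le
        linarith
      calc lam * √(k : ℝ) ≤ √(k : ℝ) * √(k : ℝ) :=
            mul_le_mul_of_nonneg_right h5 (Real.sqrt_nonneg _)
        _ = k := Real.mul_self_sqrt hk0.le)
  have hcr := Hd h lam (8 * n) hHd (by
    push_cast
    have e : (h⁻¹ : ℝ) ^ 4 = Real.exp (4 * L) := by
      have e0 : ((4 : ℕ) : ℝ) = 4 := by norm_num
      rw [← Real.rpow_natCast, bl_inv h0, e0]
    rw [e]
    have e2 : Real.exp (4 * L) = Real.exp (179 / 50 * L) * Real.exp (21 / 50 * L) := by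
      rw [← Real.exp_add]; congr 1; ring
    rw [e2]
    have h5 := mul_le_mul_of_nonneg_right (hbig (179 / 50) 16 (by norm_num) (by linarith))
      (Real.exp_pos (21 / 50 * L)).le
    linarith)
  have hT : 0 < Real.exp (-(31 / 100 * L)) := Real.exp_pos _
  have ht1 : Ca * (0 + 1) ^ 2 * (2 * lam * (lam * √k)) / (N * Q) ≤
      Real.exp (-(31 / 100 * L)) / 4 := by
    have hsq : √(k : ℝ) ≤ Real.exp (105 / 1000 * L) := by
      rw [Real.sqrt_le_left (Real.exp_pos _).le, ← Real.exp_nat_mul]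
      refine hku.trans (le_of_eq ?_)
      congr 1
      push_cast
      ring
    rw [div_le_iff₀ (by positivity)]
    have h5 : (n : ℝ) / (2 * lam ^ 3) ≤ N * Q := by
      rw [← hPQ]
      calc P * Q / (2 * lam ^ 3) = P / lam ^ 3 / 2 * Q := by ring
        _ ≤ N * Q := mul_le_mul_of_nonneg_right hNl hQ0.le
    have h6 : Real.exp (419 / 1000 * L) / 2 ≤ N * Q := by
      refine le_trans ?_ h5
      rw [le_div_iff₀ (by positivity)]
      calc Real.exp (419 / 1000 * L) / 2 * (2 * lam ^ 3) = Real.exp (419 / 1000 * L) * lam ^ 3 := by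
            ring
        _ ≤ Real.exp (419 / 1000 * L) * Real.exp (1 / 1000 * L) :=
            mul_le_mul_of_nonneg_left (hlk 3 (by norm_num)) (Real.exp_pos _).le
        _ = Real.exp (21 / 50 * L) := by rw [← Real.exp_add]; congr 1; ring
        _ ≤ n := hr1
    have h7 : Ca * (0 + 1) ^ 2 * (2 * lam * (lam * √(k : ℝ))) ≤
        2 * C0 * Real.exp (106 / 1000 * L) := by
      have h8 := hlk 2 (by norm_num)
      have h9 : lam ^ 2 * √(k : ℝ) ≤ Real.exp (1 / 1000 * L) * Real.exp (105 / 1000 * L) :=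
        mul_le_mul h8 hsq (Real.sqrt_nonneg _) (Real.exp_pos _).le
      rw [← Real.exp_add] at h9
      have e : (1 / 1000 * L + 105 / 1000 * L) = 106 / 1000 * L := by ring
      rw [e] at h9
      calc Ca * (0 + 1) ^ 2 * (2 * lam * (lam * √(k : ℝ))) = 2 * (Ca * (lam ^ 2 * √(k : ℝ))) := by
            ring
        _ ≤ 2 * (C0 * Real.exp (106 / 1000 * L)) := by
            refine mul_le_mul_of_nonneg_left ?_ (by norm_num)
            exact mul_le_mul hCa h9 (by positivity) (by linarith)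
        _ = 2 * C0 * Real.exp (106 / 1000 * L) := by ring
    refine h7.trans ?_
    calc 2 * C0 * Real.exp (106 / 1000 * L)
        ≤ Real.exp (3 / 1000 * L) / 8 * Real.exp (106 / 1000 * L) := by
          refine mul_le_mul_of_nonneg_right ?_ (Real.exp_pos _).le
          have := hbig (3 / 1000) (16 * C0) (by linarith) (by linarith)
          linarith
      _ = Real.exp (-(31 / 100 * L)) / 4 * (Real.exp (419 / 1000 * L) / 2) := by
          have e : Real.exp (3 / 1000 * L) * Real.exp (106 / 1000 * L) =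
              Real.exp (-(31 / 100 * L)) * Real.exp (419 / 1000 * L) := by
            rw [← Real.exp_add, ← Real.exp_add]; congr 1; ring
          linear_combination e / 8
      _ ≤ Real.exp (-(31 / 100 * L)) / 4 * (N * Q) :=
          mul_le_mul_of_nonneg_left h6 (by positivity)
  have ht2 : Ca * Real.exp (-((lam * √k) ^ 2 / (Ca * k))) ≤ Real.exp (-(31 / 100 * L)) / 4 := by
    have e : (lam * √(k : ℝ)) ^ 2 / (Ca * k) = lam ^ 2 / Ca := by
      rw [mul_pow, Real.sq_sqrt hk0.le]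
      field_simp
    rw [e]
    have h5 : 2 * L ≤ lam ^ 2 / Ca := by
      rw [le_div_iff₀ (by linarith)]
      have h5 : L * Ca ≤ lam * (lam / 4) :=
        mul_le_mul hlamL (by linarith) (by linarith) (by linarith)
      have h6 : 0 ≤ lam * lam := mul_self_nonneg _
      rw [sq]
      linarith
    have h6 : Real.exp (-(lam ^ 2 / Ca)) ≤ Real.exp (-(2 * L)) := Real.exp_le_exp.2 (by linarith)
    have e2 : Real.exp (-(2 * L)) = Real.exp (-(169 / 100 * L)) * Real.exp (-(31 / 100 * L)) := by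
      rw [← Real.exp_add]; congr 1; ring
    have h7 : Ca * Real.exp (-(169 / 100 * L)) ≤ 1 / 4 := by
      rw [Real.exp_neg, ← div_eq_mul_inv, div_le_iff₀ (Real.exp_pos _)]
      have := hbig (169 / 100) (4 * C0) (by linarith) (by linarith)
      linarith
    calc Ca * Real.exp (-(lam ^ 2 / Ca)) ≤ Ca * Real.exp (-(2 * L)) :=
          mul_le_mul_of_nonneg_left h6 (by linarith)
      _ = Ca * Real.exp (-(169 / 100 * L)) * Real.exp (-(31 / 100 * L)) := by rw [e2]; ring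
      _ ≤ 1 / 4 * Real.exp (-(31 / 100 * L)) := mul_le_mul_of_nonneg_right h7 hT.le
      _ = Real.exp (-(31 / 100 * L)) / 4 := by ring
  have ht3 : h ^ 10 ≤ Real.exp (-(31 / 100 * L)) / 4 := by
    have e : h ^ 10 = Real.exp (-(10 * L)) := by
      have e0 : ((10 : ℕ) : ℝ) = 10 := by norm_num
      rw [← Real.rpow_natCast, bl_pos h0, e0]
    have e2 : Real.exp (-(10 * L)) = Real.exp (-(969 / 100 * L)) * Real.exp (-(31 / 100 * L)) := by
      rw [← Real.exp_add]; congr 1; ring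
    have h7 : Real.exp (-(969 / 100 * L)) ≤ 1 / 4 := by
      rw [Real.exp_neg, inv_le_comm₀ (Real.exp_pos _) (by norm_num)]
      have := hbig (969 / 100) 4 (by norm_num) (by linarith)
      linarith
    rw [e, e2]
    calc Real.exp (-(969 / 100 * L)) * Real.exp (-(31 / 100 * L))
        ≤ 1 / 4 * Real.exp (-(31 / 100 * L)) := mul_le_mul_of_nonneg_right h7 hT.le
      _ = Real.exp (-(31 / 100 * L)) / 4 := by ring
  rw [bl_pos h0]
  calc PG.real (LowS σ lam h)
      ≤ PG.real ({ω | ¬ CrE κ lam (8 * n) ω} ∪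
        {ω | GoodE κ σ lam (2 * lam) (C0 * lam ^ 3) (2 * n) ω ∧
        NR σ (4 * arc lam n) n 0 (0 + N) 0 ω ∧ Wd σ (4 * arc lam n) n 0 (4 * k) ω}) :=
        measureReal_mono hsub (measure_ne_top _ _)
    _ ≤ _ := measureReal_union_le _ _
    _ ≤ h ^ 10 + (Ca * (0 + 1) ^ 2 * (2 * lam * (lam * √k)) / (N * Q) +
        Ca * Real.exp (-((lam * √k) ^ 2 / (Ca * k)))) := add_le_add hcr hst
    _ ≤ Real.exp (-(31 / 100 * L)) / 4 + (Real.exp (-(31 / 100 * L)) / 4 +
        Real.exp (-(31 / 100 * L)) / 4) := add_le_add ht3 (add_le_add ht1 ht2)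
    _ ≤ Real.exp (-(31 / 100 * L)) := by linarith

end BGG
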