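import Pool.Agent.BGG.StatNR
import Pool.Agent.BGG.StatClo
import Pool.Agent.BGG.CrProb
import Pool.Agent.BGG.BlockA
import Pool.Agent.BGE.BlockOut

/-!
BGG. Adaptation of `Pool/Agent/BGE/BlockOut.lean`: same proof with the law `PG` of the environment and the law `PD` of the noise.
-/

namespace BGG


open MeasureTheory ProbabilityTheory BGE

variable [GeoPar]

/-- numerical facts -/
private structure OB (κ lam : ℝ) (n r K I : ℕ) : Prop where
  R1 : 1 ≤ (r : ℝ) ^ (2 / 3 : ℝ)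
  RN : lam ^ 8 * (r : ℝ) ^ (2 / 3 : ℝ) ≤ (n : ℝ) ^ (2 / 3 : ℝ)
  K1 : (K : ℝ) ≤ lam ^ 2 * (r : ℝ) ^ (2 / 3 : ℝ) / 2
  K2 : 96 / κ * (2 * lam) * (r : ℝ) ^ (2 / 3 : ℝ) ≤ K
  I1 : (I : ℝ) ≤ (n : ℝ) ^ (2 / 3 : ℝ) / lam ^ 3
  I2 : K ≤ I
  I3 : (n : ℝ) ^ (2 / 3 : ℝ) / (4 * lam ^ 3) ≤ ((I - K : ℕ) : ℝ)
  I4 : ∀ N0 : ℕ, 1 ≤ N0 → (N0 : ℝ) ≤ (n : ℝ) ^ (2 / 3 : ℝ) / lam ^ 4 → N0 ≤ I

private theorem ob {κ lam : ℝ} (hκ : 0 < κ) {n r : ℕ} (hl : 400 ≤ lam) (hl2 : 400 / κ ≤ lam)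
    (hr : 1 ≤ r) (hn : lam ^ 12 * r ≤ n) : OB κ lam n r (Kc κ lam r) (Ic lam n) := by
  have hl0 : 0 < lam := by linarith
  have hl1 : 1 ≤ lam := by linarith
  have hr1 : (1 : ℝ) ≤ r := by exact_mod_cast hr
  have hR1 : 1 ≤ (r : ℝ) ^ (2 / 3 : ℝ) := Real.one_le_rpow hr1 (by norm_num)
  have hRN : lam ^ 8 * (r : ℝ) ^ (2 / 3 : ℝ) ≤ (n : ℝ) ^ (2 / 3 : ℝ) := by
    have h1 : (lam ^ 12 * (r : ℝ)) ^ (2 / 3 : ℝ) ≤ (n : ℝ) ^ (2 / 3 : ℝ) :=
      Real.rpow_le_rpow (by positivity) hn (by norm_num)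
    rw [Real.mul_rpow (by positivity) (by positivity)] at h1
    have h2 : (lam ^ 12 : ℝ) ^ (2 / 3 : ℝ) = lam ^ 8 := by
      rw [← Real.rpow_natCast, ← Real.rpow_mul hl0.le, ← Real.rpow_natCast]
      norm_num
    rw [h2] at h1
    exact h1
  set R : ℝ := (r : ℝ) ^ (2 / 3 : ℝ) with hR
  set N : ℝ := (n : ℝ) ^ (2 / 3 : ℝ) with hN
  have hlam2 : 1 ≤ lam ^ 2 := one_le_pow₀ hl1
  have hlamR : 160000 ≤ lam ^ 2 * R := by
    calc (160000 : ℝ) = 400 ^ 2 * 1 := by norm_num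
      _ ≤ lam ^ 2 * R := mul_le_mul (pow_le_pow_left₀ (by norm_num) hl 2) hR1 (by norm_num)
          (by positivity)
  have hK2 : 96 / κ * (2 * lam) * R ≤ (Kc κ lam r : ℝ) := Nat.le_ceil _
  have hK1 : (Kc κ lam r : ℝ) ≤ lam ^ 2 * R / 2 := by
    have h1 : (Kc κ lam r : ℝ) < 96 / κ * (2 * lam) * R + 1 :=
      Nat.ceil_lt_add_one (by positivity)
    have h2 : 96 / κ * (2 * lam) * R ≤ 48 / 100 * (lam ^ 2 * R) := by
      have h3 : 96 / κ * 2 ≤ 48 / 100 * lam := by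
        have h4 : 96 / κ * 2 = 48 / 100 * (400 / κ) := by ring
        rw [h4]
        linarith
      calc 96 / κ * (2 * lam) * R = (96 / κ * 2) * (lam * R) := by ring
        _ ≤ (48 / 100 * lam) * (lam * R) := mul_le_mul_of_nonneg_right h3 (by positivity)
        _ = 48 / 100 * (lam ^ 2 * R) := by ring
    linarith
  have hl3 : 0 < lam ^ 3 := by positivity
  -- the size of `N / lam ^ 3`
  have hNl : lam ^ 5 * R ≤ N / lam ^ 3 := by
    rw [le_div_iff₀ hl3]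
    calc lam ^ 5 * R * lam ^ 3 = lam ^ 8 * R := by ring
      _ ≤ N := hRN
  have hl5 : 8 * (lam ^ 2 * R) ≤ lam ^ 5 * R := by
    have h1 : (8 : ℝ) ≤ lam ^ 3 := by
      have : (2 : ℝ) ^ 3 ≤ lam ^ 3 := pow_le_pow_left₀ (by norm_num) (by linarith) 3
      linarith
    calc 8 * (lam ^ 2 * R) ≤ lam ^ 3 * (lam ^ 2 * R) :=
          mul_le_mul_of_nonneg_right h1 (by positivity)
      _ = lam ^ 5 * R := by ring
  have hI1 : (Ic lam n : ℝ) ≤ N / lam ^ 3 := Nat.floor_le (by positivity)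
  have hI0 : N / lam ^ 3 < (Ic lam n : ℝ) + 1 := Nat.lt_floor_add_one _
  have hKI : Kc κ lam r ≤ Ic lam n := by
    have : (Kc κ lam r : ℝ) ≤ (Ic lam n : ℝ) := by linarith
    exact_mod_cast this
  refine ⟨hR1, hRN, hK1, hK2, hI1, hKI, ?_, ?_⟩
  · rw [Nat.cast_sub hKI]
    have : N / (4 * lam ^ 3) = 1 / 4 * (N / lam ^ 3) := by
      field_simp
    rw [this]
    linarith
  · intro N0 hN0 hN0'
    have h1 : (1 : ℝ) ≤ N0 := by exact_mod_cast hN0
    have h2 : (N0 : ℝ) * lam ≤ N / lam ^ 3 := by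
      have h3 : N / lam ^ 4 * lam = N / lam ^ 3 := by
        field_simp
      rw [← h3]
      exact mul_le_mul_of_nonneg_right hN0' hl0.le
    have h4 : (N0 : ℝ) * 2 ≤ (N0 : ℝ) * lam := by
      exact mul_le_mul_of_nonneg_left (by linarith) (by linarith)
    have : (N0 : ℝ) ≤ (Ic lam n : ℝ) := by linarith
    exact_mod_cast this

theorem out_prob {κ : ℝ} (hκ : 0 < κ) : ∃ C0 C1 : ℝ, 1 ≤ C0 ∧ 2 ≤ C1 ∧
    ∀ (σ h lam : ℝ) (n r N0 : ℕ), HP C1 h lam → κ ≤ σ → σ ≤ 1 - κ → C0 * lam ^ 3 ≤ r →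
    lam ^ 12 * r ≤ n → (n : ℝ) ≤ h⁻¹ ^ 3 → 1 ≤ N0 → sl h lam n ≤ √N0 / lam →
    (N0 : ℝ) ≤ (n : ℝ) ^ (2 / 3 : ℝ) / lam ^ 4 →
    PG.real (OutS κ σ lam h n r N0) ≤
      lam ^ 12 * (r : ℝ) ^ (2 / 3 : ℝ) / (n : ℝ) ^ (2 / 3 : ℝ) := by
  obtain ⟨Ca, hCa, Hst⟩ := st1 hκ
  obtain ⟨Cb, hCb, Hres⟩ := FLp_res hκ
  obtain ⟨Cc, hCc, Hgood⟩ := good_crude hκ
  obtain ⟨Cd, hCd, Hbad⟩ := crE_bad hκ
  set C0 : ℝ := Ca + Cb + Cc with hC0
  have hC01 : 1 ≤ C0 := by linarith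
  obtain ⟨Ce, hCe, Hpar⟩ := par_crude (κ := κ) (C0 := C0) hκ hC01
  have hk0 : 0 < 400 / κ := by positivity
  refine ⟨C0, Cc + Cd + Ce + 200 * C0 + 400 / κ + 400, hC01, by linarith, ?_⟩
  intro σ h lam n r N0 hp hσ1 hσ2 hr hn hnh hN0 hsl hN0n
  set C1 : ℝ := Cc + Cd + Ce + 200 * C0 + 400 / κ + 400 with hC1
  obtain ⟨hb1, hb2, hb3⟩ := hp_basic (C0 := C1) (by linarith) hp
  have hl400 : 400 ≤ lam := by linarith
  have hl2 : 400 / κ ≤ lam := by linarith
  have hlC : 200 * C0 ≤ lam := by linarith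
  have hl0 : 0 < lam := by linarith
  have hl1 : 1 ≤ lam := by linarith
  have hh0 : 0 < h := hp.1
  have hh1 : h < 1 := hp.2.1
  have hh2 : C1 ≤ Real.log (1 / h) := hp.2.2.1
  have hinv : 9 ≤ h⁻¹ := by
    have h1 : Real.log (1 / h) + 1 ≤ Real.exp (Real.log (1 / h)) := Real.add_one_le_exp _
    rw [Real.exp_log (by positivity)] at h1
    rw [← one_div]
    linarith
  have hl3 : 0 < lam ^ 3 := by positivity
  have hl31 : 1 ≤ lam ^ 3 := one_le_pow₀ hl1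
  have hr1R : (1 : ℝ) ≤ r := (one_le_mul_of_one_le_of_one_le hC01 hl31).trans hr
  have hr1 : 1 ≤ r := by exact_mod_cast hr1R
  have hob := ob hκ hl400 hl2 hr1 hn
  obtain ⟨hR1, hRN, hK1, hK2, hI1, hKI, hI3, hI4⟩ := hob
  have hN0I := hI4 N0 hN0 hN0n
  set K : ℕ := Kc κ lam r with hK
  set I : ℕ := Ic lam n with hI
  set R : ℝ := (r : ℝ) ^ (2 / 3 : ℝ) with hR
  set N : ℝ := (n : ℝ) ^ (2 / 3 : ℝ) with hN
  set q : ℝ := (r : ℝ) ^ (1 / 3 : ℝ) with hq
  have hq2 : q ^ 2 = R := by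
    rw [hq, hR, ← Real.rpow_natCast, ← Real.rpow_mul (by linarith)]
    norm_num
  have hq0 : 0 ≤ q := by positivity
  have hq1 : 1 ≤ q := Real.one_le_rpow hr1R (by norm_num)
  have hR0 : 0 < R := by linarith
  have hN1 : 0 < N := by
    have : 0 < lam ^ 8 * R := by positivity
    linarith
  have hl8 : 8 ≤ lam ^ 12 := by
    calc (8 : ℝ) ≤ lam := by linarith
      _ = lam ^ 1 := (pow_one lam).symm
      _ ≤ lam ^ 12 := pow_le_pow_right₀ hl1 (by norm_num)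
  have h8r : 8 * r ≤ n := by
    have : (8 : ℝ) * r ≤ n := (mul_le_mul_of_nonneg_right hl8 (Nat.cast_nonneg r)).trans hn
    exact_mod_cast this
  have hrn : (r : ℝ) ≤ n := by
    have : (8 : ℝ) * r ≤ n := by exact_mod_cast h8r
    linarith
  have hn1 : (1 : ℝ) ≤ n := hr1R.trans hrn
  have hC0n : C0 * lam ^ 3 ≤ n := hr.trans hrn
  have hPar : Par C0 κ σ lam (2 * lam) (C0 * lam ^ 3) n :=
    Hpar σ h lam n (hp.mono (by linarith)) hσ1 hσ2 hC0n
  have hParM : ∀ C : ℝ, C ≤ C0 → Par C κ σ lam (2 * lam) (C0 * lam ^ 3) n := by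
    intro C hC
    obtain ⟨p1, p2, p3, p4, p5, p6⟩ := hPar
    exact ⟨p1, p2, by linarith, p4, mul_le_mul_of_nonneg_right hC hl3.le, p6⟩
  set Rs : Set (ℤ × ℤ) := RR σ lam n \ RR σ lam r with hRs
  have harc0 : 0 ≤ 4 * arc lam n := by
    unfold arc
    positivity
  have harc : 4 * arc lam n ≤ 4 * (2 * lam) * (n : ℝ) ^ (2 / 3 : ℝ) := by
    unfold arc
    exact le_of_eq (by ring)
  have harc1 : 1 ≤ 4 * arc lam n := by
    unfold arc
    have h1 : 1 ≤ (n : ℝ) ^ (2 / 3 : ℝ) := Real.one_le_rpow hn1 (by norm_num)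
    have h2 : (1 : ℝ) ≤ 2 * lam * (n : ℝ) ^ (2 / 3 : ℝ) :=
      one_le_mul_of_one_le_of_one_le (by linarith) h1
    linarith
  -- transfer to the unrestricted profiles
  have htr : ∀ ω : ℤ × ℤ → ℝ, CrE κ lam (8 * n) ω → ∀ (J : ℕ) (s : ℝ), J ≤ I →
      NR σ (4 * arc lam n) n K J s (res Rs ω) → NR σ (4 * arc lam n) n K J s ω := by
    intro ω hω J s hJ hNR
    have hg : GoodE κ σ lam (2 * lam) (C0 * lam ^ 3) n ω :=
      Hgood C0 σ h lam n (8 * n) ω (by linarith) (hp.mono (by linarith)) hσ1 hσ2 hC0n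
        (by omega) hω
    have heq : ∀ i : ℤ, (K : ℝ) ≤ |(i : ℝ)| → |(i : ℝ)| ≤ I →
        FLp σ (4 * arc lam n) n (res Rs ω) i = FLp σ (4 * arc lam n) n ω i ∧
        FRp σ (4 * arc lam n) n (res Rs ω) i = FRp σ (4 * arc lam n) n ω i := by
      intro i hi1 hi2
      refine Hres σ lam (2 * lam) (C0 * lam ^ 3) (4 * arc lam n) n ω
        (hParM Cb (by linarith)) hg harc0 harc r hr h8r Rs subset_rfl i ?_ (hK2.trans hi1)
      refine hi2.trans (hI1.trans ?_)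
      have h1 : N / lam ^ 3 ≤ N := div_le_self hN1.le hl31
      have h2 : N ≤ 2 * lam * N / 8 := by
        have h3 : 8 * N ≤ 2 * lam * N := mul_le_mul_of_nonneg_right (by linarith) hN1.le
        linarith
      exact h1.trans h2
    intro i hi1 hi2
    have hK0 : (0 : ℝ) ≤ K := Nat.cast_nonneg K
    have hi1' : (K : ℝ) < i := by exact_mod_cast hi1
    have hi2' : (i : ℝ) ≤ I := by
      have : i ≤ (I : ℤ) := hi2.trans (by exact_mod_cast hJ)
      exact_mod_cast this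
    have hai : |(i : ℝ)| = i := abs_of_pos (by linarith)
    have hai2 : |((-i : ℤ) : ℝ)| = i := by
      push_cast
      rw [abs_neg, hai]
    have haK : |(((K : ℕ) : ℤ) : ℝ)| = K := by
      push_cast
      exact abs_of_nonneg hK0
    have haK2 : |((-((K : ℕ) : ℤ) : ℤ) : ℝ)| = K := by
      push_cast
      rw [abs_neg]
      exact abs_of_nonneg hK0
    have hKI' : (K : ℝ) ≤ I := by exact_mod_cast hKI
    have e1 := (heq i (by rw [hai]; exact hi1'.le) (by rw [hai]; exact hi2')).1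
    have e2 := (heq (-i) (by rw [hai2]; exact hi1'.le) (by rw [hai2]; exact hi2')).2
    have e3 := (heq (K : ℤ) (by rw [haK]) (by rw [haK]; exact hKI')).1
    have e4 := (heq (-(K : ℤ)) (by rw [haK2]) (by rw [haK2]; exact hKI')).2
    have h1 := hNR i hi1 hi2
    rw [e1, e2, e3, e4] at h1
    exact h1
  have hg2 : ∀ ω : ℤ × ℤ → ℝ, CrE κ lam (8 * n) ω →
      GoodE κ σ lam (2 * lam) (C0 * lam ^ 3) (2 * n) ω := by
    intro ω hω
    refine Hgood C0 σ h lam (2 * n) (8 * n) ω (by linarith) (hp.mono (by linarith)) hσ1 hσ2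
      ?_ (by omega) hω
    push_cast
    linarith
  have hbad : PG.real {ω | ¬ CrE κ lam (8 * n) ω} ≤ h ^ 10 := by
    refine Hbad h lam (8 * n) (hp.mono (by linarith)) ?_
    push_cast
    calc 8 * (n : ℝ) ≤ h⁻¹ * h⁻¹ ^ 3 := by
          refine mul_le_mul (by linarith) hnh (by positivity) (by linarith)
      _ = h⁻¹ ^ 4 := by ring
  -- the final bound
  have hN1I : 0 < ((I - K : ℕ) : ℝ) := by
    refine lt_of_lt_of_le ?_ hI3
    positivity
  have hN1n : 1 ≤ I - K := by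
    have : 0 < I - K := by exact_mod_cast hN1I
    omega
  have hrange : Ca * (2 * lam) ^ 2 * ((K : ℝ) + ((I - K : ℕ) : ℝ)) ≤ (n : ℝ) ^ (2 / 3 : ℝ) := by
    have h1 : (K : ℝ) + ((I - K : ℕ) : ℝ) = I := by
      rw [Nat.cast_sub hKI]
      ring
    rw [h1]
    calc Ca * (2 * lam) ^ 2 * (I : ℝ) ≤ Ca * (2 * lam) ^ 2 * (N / lam ^ 3) := by gcongr
      _ = (4 * Ca / lam) * N := by
        field_simp
        ring
      _ ≤ 1 * N := by
        refine mul_le_mul_of_nonneg_right ?_ hN1.le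
        rw [div_le_one hl0]
        linarith
      _ = (n : ℝ) ^ (2 / 3 : ℝ) := one_mul _
  have hfin : ∀ s : ℝ, 0 ≤ s → s + 1 ≤ 6 * lam ^ 3 * q →
      Ca * (s + 1) ^ 2 / ((I - K : ℕ) : ℝ) ≤ 144 * Ca * (lam ^ 9 * R / N) := by
    intro s hs0 hs
    calc Ca * (s + 1) ^ 2 / ((I - K : ℕ) : ℝ)
        ≤ Ca * (6 * lam ^ 3 * q) ^ 2 / (N / (4 * lam ^ 3)) := by gcongr
      _ = 144 * Ca * (lam ^ 9 * R / N) := by
        rw [← hq2]
        field_simp
        ring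
  have hconc : ∀ s1 s2 : ℝ, ∀ S : Set (ℤ × ℤ → ℝ),
      OutS κ σ lam h n r N0 ⊆ {ω | ¬ CrE κ lam (8 * n) ω} ∪ S →
      PG.real S ≤ 144 * Ca * (lam ^ 9 * R / N) →
      PG.real (OutS κ σ lam h n r N0) ≤ lam ^ 12 * R / N := by
    intro _ _ S hS hS2
    have hX0 : 0 ≤ lam ^ 9 * R / N := by positivity
    have hh10 : h ^ 10 ≤ lam ^ 9 * R / N := by
      have h1 : N ≤ h⁻¹ ^ 2 := by
        have h2 : (n : ℝ) ^ (2 / 3 : ℝ) ≤ (h⁻¹ ^ 3) ^ (2 / 3 : ℝ) :=
          Real.rpow_le_rpow (by positivity) hnh (by norm_num)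
        have h3 : (h⁻¹ ^ 3 : ℝ) ^ (2 / 3 : ℝ) = h⁻¹ ^ 2 := by
          rw [← Real.rpow_natCast, ← Real.rpow_mul (by positivity), ← Real.rpow_natCast]
          norm_num
        rw [h3] at h2
        exact h2
      have h4 : h ^ 2 ≤ 1 / N := by
        rw [le_div_iff₀ hN1]
        calc h ^ 2 * N ≤ h ^ 2 * h⁻¹ ^ 2 := by gcongr
          _ = 1 := by
            rw [← mul_pow, mul_inv_cancel₀ hh0.ne', one_pow]
      have h5 : h ^ 10 ≤ h ^ 2 := pow_le_pow_of_le_one hh0.le hh1.le (by norm_num)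
      have h6 : 1 / N ≤ lam ^ 9 * R / N := by
        gcongr
        exact one_le_mul_of_one_le_of_one_le (one_le_pow₀ hl1) hR1
      linarith
    calc PG.real (OutS κ σ lam h n r N0)
        ≤ PG.real ({ω | ¬ CrE κ lam (8 * n) ω} ∪ S) :=
          measureReal_mono hS (measure_ne_top _ _)
      _ ≤ PG.real {ω | ¬ CrE κ lam (8 * n) ω} + PG.real S :=
          measureReal_union_le _ _
      _ ≤ lam ^ 9 * R / N + 144 * Ca * (lam ^ 9 * R / N) := by linarith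
      _ = (1 + 144 * Ca) * (lam ^ 9 * R / N) := by ring
      _ ≤ lam ^ 3 * (lam ^ 9 * R / N) := by
        refine mul_le_mul_of_nonneg_right ?_ hX0
        have h7 : lam ≤ lam ^ 3 := by
          calc lam = lam ^ 1 := (pow_one lam).symm
            _ ≤ lam ^ 3 := pow_le_pow_right₀ hl1 (by norm_num)
        linarith
      _ = lam ^ 12 * R / N := by ring
  have hsl0 : 0 ≤ sl h lam n := by
    unfold sl
    positivity
  have hN0R : (1 : ℝ) ≤ N0 := by exact_mod_cast hN0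
  have hIK : K + (I - K) = I := by omega
  rcases le_or_gt (lam ^ 8 * R) (N0 : ℝ) with hA | hB
  · -- large `N0`
    have hKN : (K : ℝ) ≤ N0 / 2 := by
      have h1 : lam ^ 2 * R ≤ lam ^ 8 * R :=
        mul_le_mul_of_nonneg_right (pow_le_pow_right₀ hl1 (by norm_num)) hR0.le
      linarith
    have hKN0 : K ≤ N0 := by
      have : (K : ℝ) ≤ N0 := by linarith
      exact_mod_cast this
    have hcast : ((N0 - K : ℕ) : ℝ) = N0 - K := Nat.cast_sub hKN0
    have hN0' : 1 ≤ N0 - K := by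
      have h1 : (0 : ℝ) < ((N0 - K : ℕ) : ℝ) := by
        rw [hcast]
        linarith
      have : 0 < N0 - K := by exact_mod_cast h1
      omega
    have hsq : lam ^ 4 * q ≤ √(N0 : ℝ) := by
      apply Real.le_sqrt_of_sq_le
      calc (lam ^ 4 * q) ^ 2 = lam ^ 8 * q ^ 2 := by ring
        _ = lam ^ 8 * R := by rw [hq2]
        _ ≤ N0 := hA
    have hs1 : lam ^ 3 * q ≤ √(N0 : ℝ) / lam := by
      rw [le_div_iff₀ hl0]
      calc lam ^ 3 * q * lam = lam ^ 4 * q := by ring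
        _ ≤ √(N0 : ℝ) := hsq
    have hs2 : lam ^ 3 * q + 4 * sl h lam n ≤ √((N0 - K : ℕ) : ℝ) := by
      have h1 : √(N0 : ℝ) / lam ≤ √(N0 : ℝ) / 400 := by gcongr
      have h2 : √(N0 : ℝ) / 2 ≤ √((N0 - K : ℕ) : ℝ) := by
        apply Real.le_sqrt_of_sq_le
        rw [div_pow, Real.sq_sqrt (by linarith), hcast]
        linarith
      have h3 : 0 ≤ √(N0 : ℝ) := Real.sqrt_nonneg _
      linarith
    refine hconc 0 0 _ ?_ ((Hst σ lam (2 * lam) (C0 * lam ^ 3) (4 * arc lam n) n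
      (hParM Ca (by linarith)) harc1 harc K (N0 - K) (I - K) hN0' (by omega) hrange
      (lam ^ 3 * q) (lam ^ 3 * q + 4 * sl h lam n) (by positivity) (by linarith) hs2).trans
      (hfin (lam ^ 3 * q) (by positivity) ?_))
    · rintro ω ⟨h1, h2⟩
      by_cases hω : CrE κ lam (8 * n) ω
      · right
        refine ⟨hg2 ω hω, ?_, ?_⟩
        · have : K + (N0 - K) = N0 := by omega
          rw [this]
          exact htr ω hω N0 _ hN0I h1
        · rw [hIK]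
          exact htr ω hω I _ le_rfl h2
      · left
        exact hω
    · have h1 : 1 ≤ lam ^ 3 * q := one_le_mul_of_one_le_of_one_le hl31 hq1
      linarith
  · -- small `N0`
    have hsq : √(N0 : ℝ) ≤ lam ^ 4 * q := by
      apply Real.sqrt_le_iff.2
      refine ⟨by positivity, ?_⟩
      calc (N0 : ℝ) ≤ lam ^ 8 * R := hB.le
        _ = lam ^ 8 * q ^ 2 := by rw [hq2]
        _ = (lam ^ 4 * q) ^ 2 := by ring
    have hsl2 : sl h lam n ≤ lam ^ 3 * q := by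
      refine hsl.trans ?_
      rw [div_le_iff₀ hl0]
      calc √(N0 : ℝ) ≤ lam ^ 4 * q := hsq
        _ = lam ^ 3 * q * lam := by ring
    have hq3 : 1 ≤ lam ^ 3 * q := one_le_mul_of_one_le_of_one_le hl31 hq1
    have hs5 : lam ^ 3 * q + 4 * sl h lam n ≤ 5 * (lam ^ 3 * q) := by linarith
    rcases le_or_gt (lam ^ 3 * q + 4 * sl h lam n) (√((I - K : ℕ) : ℝ)) with h1 | h1
    · refine hconc 0 0 _ ?_ ((Hst σ lam (2 * lam) (C0 * lam ^ 3) (4 * arc lam n) n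
        (hParM Ca (by linarith)) harc1 harc K (I - K) (I - K) hN1n le_rfl hrange
        (lam ^ 3 * q + 4 * sl h lam n) (lam ^ 3 * q + 4 * sl h lam n) (by positivity) le_rfl
        h1).trans (hfin (lam ^ 3 * q + 4 * sl h lam n) (by positivity) ?_))
      · rintro ω ⟨-, h2⟩
        by_cases hω : CrE κ lam (8 * n) ω
        · right
          have h3 := htr ω hω I _ le_rfl h2
          rw [← hIK] at h3
          exact ⟨hg2 ω hω, h3, h3⟩
        · left
          exact hω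
      · linarith
    · -- the bound is larger than one
      have h2 : 1 ≤ lam ^ 12 * R / N := by
        have h3 : N / (4 * lam ^ 3) ≤ 25 * lam ^ 6 * R := by
          refine hI3.trans ?_
          have h4 : √((I - K : ℕ) : ℝ) ≤ 5 * (lam ^ 3 * q) := by linarith
          have h5 := (Real.sqrt_le_iff.1 h4).2
          calc ((I - K : ℕ) : ℝ) ≤ (5 * (lam ^ 3 * q)) ^ 2 := h5
            _ = 25 * lam ^ 6 * q ^ 2 := by ring
            _ = 25 * lam ^ 6 * R := by rw [hq2]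
        rw [div_le_iff₀ (by positivity)] at h3
        rw [le_div_iff₀ hN1, one_mul]
        calc N ≤ 25 * lam ^ 6 * R * (4 * lam ^ 3) := h3
          _ = 100 * (lam ^ 9 * R) := by ring
          _ ≤ lam ^ 3 * (lam ^ 9 * R) := by
            refine mul_le_mul_of_nonneg_right ?_ (by positivity)
            have h7 : lam ≤ lam ^ 3 := by
              calc lam = lam ^ 1 := (pow_one lam).symm
                _ ≤ lam ^ 3 := pow_le_pow_right₀ hl1 (by norm_num)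
            linarith
          _ = lam ^ 12 * R := by ring
      exact measureReal_le_one.trans h2

end BGG
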