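import Pool.Agent.BGG.Law
import Pool.Agent.BGE.Burke

/-!
BGG / B1. The local Burke property for the normalised geometric laws.

`burkeMap (U, V, w) = (w + (U - V)^+, w + (V - U)^+, min U V)` (from BGE).

`local_burke`: if `U ~ geoM a`, `V ~ geoM b`, `w ~ geoM (a * b)` are independent then the image has
the same law (`0 < a, b < 1`).
Proof. The three variables are `gs k + gd` with natural numbers `k` (`geoM_eq`), and `burkeMap`
commutes with the affine map `k ↦ gs k + gd` (`gs > 0`): it corresponds to the map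
`β (i, j, k) = (k + (i - j), k + (j - i), min i j)` of `ℕ³` (truncated subtraction), which is an
involution and preserves the weight `(1-a) a^i (1-b) b^j (1-ab) (ab)^k` because
`a^{k + (i-j)} b^{k + (j-i)} (ab)^{min i j} = (ab)^k a^{(i-j) + min i j} b^{(j-i) + min i j}
 = (ab)^k a^i b^j`. So the law of the image is
`∑ weight(i,j,k) δ_{β(i,j,k)} = ∑ weight(i,j,k) δ_{(i,j,k)}` (reindex the sum by the involution).
(`Measure.prod_sum`, `Measure.sum` of Dirac measures on `ℝ × ℝ × ℝ`; or compare the masses of points.)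

`burke_move`: the same inside a finite product: for a finite family of independent variables with
ratios `r i`, and three distinct indices with `r k = r i * r j`, the map `move i j k` (from BGE)
preserves the law. The proof of `BGE.burke_move` works without change (it only uses `local_burke` and
Fubini); please look into `Pool/Agent/BGE/Burke.lean`.
-/

namespace BGG

open MeasureTheory ProbabilityTheory BGE

variable [GeoPar]

/-- the involution of `ℕ³` -/
private def bt (t : ℕ × ℕ × ℕ) : ℕ × ℕ × ℕ :=
  (t.2.2 + (t.1 - t.2.1), t.2.2 + (t.2.1 - t.1), min t.1 t.2.1)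

omit [GeoPar] in
private theorem bt_bt (t : ℕ × ℕ × ℕ) : bt (bt t) = t := by
  obtain ⟨i, j, k⟩ := t
  simp only [bt, Prod.mk.injEq]
  rcases le_total i j with h | h
  · rw [min_eq_left h, Nat.sub_eq_zero_of_le h]
    refine ⟨?_, ?_, ?_⟩
    · omega
    · omega
    · rw [min_eq_left (by omega)]
      omega
  · rw [min_eq_right h, Nat.sub_eq_zero_of_le h]
    refine ⟨?_, ?_, ?_⟩
    · omega
    · omega
    · rw [min_eq_right (by omega)]
      omega

/-- the atoms -/
private noncomputable def pe (t : ℕ × ℕ × ℕ) : ℝ × ℝ × ℝ :=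
  (gs * t.1 + gd, gs * t.2.1 + gd, gs * t.2.2 + gd)

private theorem burke_pe (t : ℕ × ℕ × ℕ) : burkeMap (pe t) = pe (bt t) := by
  obtain ⟨i, j, k⟩ := t
  have hg := gs_pos
  simp only [burkeMap, pe, bt, Prod.mk.injEq]
  rcases le_total i j with h | h
  · have h' : (i : ℝ) ≤ j := by exact_mod_cast h
    have h1 : gs * (i : ℝ) ≤ gs * j := mul_le_mul_of_nonneg_left h' hg.le
    rw [min_eq_left h, Nat.sub_eq_zero_of_le h, max_eq_right (by linarith),
      max_eq_left (by linarith), min_eq_left (by linarith)]
    push_cast [Nat.cast_sub h]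
    refine ⟨?_, ?_, ?_⟩ <;> ring
  · have h' : (j : ℝ) ≤ i := by exact_mod_cast h
    have h1 : gs * (j : ℝ) ≤ gs * i := mul_le_mul_of_nonneg_left h' hg.le
    rw [min_eq_right h, Nat.sub_eq_zero_of_le h, max_eq_left (by linarith),
      max_eq_right (by linarith), min_eq_right (by linarith)]
    push_cast [Nat.cast_sub h]
    refine ⟨?_, ?_, ?_⟩ <;> ring

/-- the masses of the atoms -/
private noncomputable def wg (a b c : ℝ) (t : ℕ × ℕ × ℕ) : ENNReal :=
  ENNReal.ofReal ((1 - a) * a ^ t.1) *
    (ENNReal.ofReal ((1 - b) * b ^ t.2.1) * ENNReal.ofReal ((1 - c) * c ^ t.2.2))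

omit [GeoPar] in
private theorem wg_eq {a b : ℝ} (ha : 0 < a) (ha1 : a < 1) (hb : 0 < b) (hb1 : b < 1)
    (t : ℕ × ℕ × ℕ) : wg a b (a * b) t =
      ENNReal.ofReal ((1 - a) * (1 - b) * (1 - a * b) *
        (a ^ (t.1 + t.2.2) * b ^ (t.2.1 + t.2.2))) := by
  unfold wg
  have h1 : 0 ≤ 1 - a := by linarith
  have h2 : 0 ≤ 1 - b := by linarith
  rw [← ENNReal.ofReal_mul (by positivity), ← ENNReal.ofReal_mul (by positivity)]
  congr 1
  rw [mul_pow, pow_add, pow_add]
  ring

omit [GeoPar] in
private theorem wg_bt {a b : ℝ} (ha : 0 < a) (ha1 : a < 1) (hb : 0 < b) (hb1 : b < 1)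
    (t : ℕ × ℕ × ℕ) : wg a b (a * b) (bt t) = wg a b (a * b) t := by
  rw [wg_eq ha ha1 hb hb1, wg_eq ha ha1 hb hb1]
  obtain ⟨i, j, k⟩ := t
  simp only [bt]
  have e1 : k + (i - j) + min i j = i + k := by
    rcases le_total i j with h | h
    · rw [min_eq_left h]; omega
    · rw [min_eq_right h]; omega
  have e2 : k + (j - i) + min i j = j + k := by
    rcases le_total i j with h | h
    · rw [min_eq_left h]; omega
    · rw [min_eq_right h]; omega
  rw [e1, e2]

private theorem trip {a b c : ℝ} (ha : 0 < a) (ha1 : a < 1) (hb : 0 < b) (hb1 : b < 1)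
    (hc : 0 < c) (hc1 : c < 1) {f : ℝ × ℝ × ℝ → ENNReal} (hf : Measurable f) :
    ∫⁻ x, f x ∂((geoM a).prod ((geoM b).prod (geoM c))) =
      ∑' t : ℕ × ℕ × ℕ, wg a b c t * f (pe t) := by
  rw [lintegral_prod _ hf.aemeasurable, geo_lintegral ha ha1 hf.lintegral_prod_right',
    ENNReal.tsum_prod']
  refine tsum_congr fun i => ?_
  have h1 : Measurable fun y : ℝ × ℝ => f (gs * i + gd, y) :=
    hf.comp (measurable_const.prodMk measurable_id)
  rw [lintegral_prod _ h1.aemeasurable, geo_lintegral hb hb1 h1.lintegral_prod_right',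
    ENNReal.tsum_prod', ← ENNReal.tsum_mul_left]
  refine tsum_congr fun j => ?_
  have h2 : Measurable fun z : ℝ => f (gs * i + gd, gs * j + gd, z) :=
    h1.comp (measurable_const.prodMk measurable_id)
  rw [geo_lintegral hc hc1 h2, ← ENNReal.tsum_mul_left, ← ENNReal.tsum_mul_left]
  refine tsum_congr fun k => ?_
  simp only [pe, wg]
  ring

theorem local_burke {a b : ℝ} (ha : 0 < a) (ha1 : a < 1) (hb : 0 < b) (hb1 : b < 1) :
    MeasurePreserving burkeMap ((geoM a).prod ((geoM b).prod (geoM (a * b))))
      ((geoM a).prod ((geoM b).prod (geoM (a * b)))) := by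
  refine ⟨measurable_burkeMap, ?_⟩
  have hab : 0 < a * b := mul_pos ha hb
  have hab1 : a * b < 1 := by nlinarith
  ext s hs
  rw [Measure.map_apply measurable_burkeMap hs, ← lintegral_indicator_one (measurable_burkeMap hs),
    ← lintegral_indicator_one hs,
    trip ha ha1 hb hb1 hab hab1 (measurable_one.indicator (measurable_burkeMap hs)),
    trip ha ha1 hb hb1 hab hab1 (measurable_one.indicator hs)]
  rw [← Equiv.tsum_eq (Function.Involutive.toPerm bt bt_bt)
    (fun t => wg a b (a * b) t * s.indicator 1 (pe t))]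
  refine tsum_congr fun t => ?_
  change wg a b (a * b) t * (burkeMap ⁻¹' s).indicator 1 (pe t) =
    wg a b (a * b) (bt t) * s.indicator 1 (pe (bt t))
  rw [wg_bt ha ha1 hb hb1, ← burke_pe]
  rfl

omit [GeoPar] in
/-- the move in finite products of general laws -/
theorem burke_move_gen {ι : Type*} [Fintype ι] [DecidableEq ι] (μ : ι → Measure ℝ)
    [∀ l, IsProbabilityMeasure (μ l)] {i j k : ι} (hij : i ≠ j) (hik : i ≠ k) (hjk : j ≠ k)
    (hlb : MeasurePreserving burkeMap ((μ i).prod ((μ j).prod (μ k)))
      ((μ i).prod ((μ j).prod (μ k)))) :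
    MeasurePreserving (move i j k) (Measure.pi μ) (Measure.pi μ) := by
  have hmm := measurable_move i j k
  refine ⟨hmm, ?_⟩
  ext s hs
  rw [Measure.map_apply hmm hs, ← lintegral_indicator_one (hmm hs), ← lintegral_indicator_one hs]
  set f : (ι → ℝ) → ENNReal := s.indicator 1 with hf
  have hfm : Measurable f := measurable_one.indicator hs
  have e1 : (move i j k ⁻¹' s).indicator (1 : (ι → ℝ) → ENNReal) = f ∘ move i j k := rfl
  rw [e1]
  refine lintegral_eq_of_lmarginal_eq ({i, j, k} : Finset ι) (hfm.comp hmm) hfm ?_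
  have key : ∀ g : (ι → ℝ) → ENNReal, Measurable g → ∀ x : ι → ℝ,
      lmarginal μ ({i, j, k} : Finset ι) g x =
      ∫⁻ t : ℝ × ℝ × ℝ, g (Function.update (Function.update (Function.update x i t.1) j t.2.1)
        k t.2.2) ∂((μ i).prod ((μ j).prod (μ k))) := by
    intro g hg x
    have hi : i ∉ ({j, k} : Finset ι) := by simp [hij, hik]
    have hj : j ∉ ({k} : Finset ι) := by simp [hjk]
    have hgm : Measurable fun t : ℝ × ℝ × ℝ =>
        g (Function.update (Function.update (Function.update x i t.1) j t.2.1) k t.2.2) := by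
      refine hg.comp (measurable_pi_iff.2 fun l => ?_)
      simp only [Function.update_apply]
      split_ifs <;> fun_prop
    rw [lmarginal_insert _ hg hi, lintegral_prod _ hgm.aemeasurable]
    refine lintegral_congr fun t1 => ?_
    have hgm1 : Measurable fun t : ℝ × ℝ =>
        g (Function.update (Function.update (Function.update x i t1) j t.1) k t.2) :=
      hgm.comp (measurable_const.prodMk measurable_id)
    rw [lmarginal_insert _ hg hj, lintegral_prod _ hgm1.aemeasurable]
    refine lintegral_congr fun t2 => ?_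
    rw [lmarginal_singleton]
  funext x
  rw [key _ (hfm.comp hmm), key _ hfm]
  have hgm : Measurable fun t : ℝ × ℝ × ℝ =>
      f (Function.update (Function.update (Function.update x i t.1) j t.2.1) k t.2.2) := by
    refine hfm.comp (measurable_pi_iff.2 fun l => ?_)
    simp only [Function.update_apply]
    split_ifs <;> fun_prop
  rw [← hlb.lintegral_comp hgm]
  refine lintegral_congr fun t => ?_
  have hji := hij.symm
  have hki := hik.symm
  have hkj := hjk.symm
  refine congrArg f ?_
  funext l
  simp only [move, burkeMap, Function.update_apply]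
  by_cases h1 : l = k
  · subst h1
    simp [hij, hik, hjk]
  · by_cases h2 : l = j
    · subst h2
      simp [h1, hij, hjk, hik]
    · by_cases h3 : l = i
      · subst h3
        simp [h1, h2, hij, hik, hjk]
      · simp [h1, h2, h3]

theorem burke_move {ι : Type*} [Fintype ι] [DecidableEq ι] (r : ι → ℝ) (hr : ∀ i, 0 < r i)
    (hr1 : ∀ i, r i < 1) {i j k : ι} (hij : i ≠ j) (hik : i ≠ k) (hjk : j ≠ k)
    (h : r k = r i * r j) :
    MeasurePreserving (move i j k) (Measure.pi fun i => geoM (r i))
      (Measure.pi fun i => geoM (r i)) := by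
  refine burke_move_gen (fun i => geoM (r i)) hij hik hjk ?_
  simp only [h]
  exact local_burke (hr i) (hr1 i) (hr j) (hr1 j)

end BGG
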