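import Pool.Agent.BGG.CrProb
import Pool.Agent.BGG.Prod
import Pool.Agent.BGE.Cells

/-!
BGG. Adaptation of `Pool/Agent/BGE/Cells.lean`: same proof with the law `PG` of the environment and the law `PD` of the noise.
Use `cells` tools of BGE where they do not mention the law, `upd_prob`, `dyn_law`, `dyn_pair` of
`BGG.Prod`. (The two-refreshments estimate is about the clock variables only: it can be transported
from BGE with `PD_real`.)
-/

namespace BGG


open MeasureTheory ProbabilityTheory BGE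

variable [GeoPar]

open BGE.Cells

/-! ### two refreshments in a cell -/

omit [GeoPar] in
private theorem measurableSet_two (η : ℝ) (m a b : ℕ) : MeasurableSet (two η m a b) := by
  have h1 : two η m a b = ⋃ P ∈ cell m a b, ⋃ Q ∈ cell m a b,
      {x : DI → ℝ | P ≠ Q ∧ x (P.1, P.2, false) < η ∧ x (Q.1, Q.2, false) < η} := by
    ext x
    simp only [two, Set.mem_iUnion, Set.mem_ofPred_eq, exists_prop]
  rw [h1]
  refine Finset.measurableSet_biUnion _ fun P _ => Finset.measurableSet_biUnion _ fun Q _ => ?_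
  by_cases hPQ : P = Q
  · have : {x : DI → ℝ | P ≠ Q ∧ x (P.1, P.2, false) < η ∧ x (Q.1, Q.2, false) < η} = ∅ := by
      ext x
      simp [hPQ]
    rw [this]
    exact MeasurableSet.empty
  · have : {x : DI → ℝ | P ≠ Q ∧ x (P.1, P.2, false) < η ∧ x (Q.1, Q.2, false) < η} =
        {x : DI → ℝ | x (P.1, P.2, false) < η} ∩ {x | x (Q.1, Q.2, false) < η} := by
      ext x
      simp [hPQ]
    rw [this]
    exact (measurableSet_lt (measurable_pi_apply _) measurable_const).inter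
      (measurableSet_lt (measurable_pi_apply _) measurable_const)

private theorem twoG_prob {η : ℝ} (hη : 0 ≤ η) (m a b : ℕ) :
    PD.real (two η m a b) ≤ (((cell m a b).card : ℝ) * η) ^ 2 := by
  rw [PD_real (measurableSet_two η m a b)]
  have h1 : gN ⁻¹' (two η m a b) = two η m a b := by
    ext x
    simp only [two, Set.mem_preimage, Set.mem_ofPred_eq, gN, Bool.false_eq_true, if_false]
  rw [h1]
  exact two_prob hη m a b

/-! ### grid times -/

private theorem gridG_E {κ lam : ℝ} {m : ℕ} {p : ℝ} (h : PG.real {ω | ¬ CrE κ lam m ω} ≤ p)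
    (η : ℝ) (k : ℕ) : PD.real {x | ¬ CrE κ lam m (dyn η x k)} ≤ p := by
  have h1 := (dyn_law η k).measureReal_preimage
    (s := {ω | ¬ CrE κ lam m ω}) (measurableSet_CrE.compl).nullMeasurableSet
  rw [← h1] at h
  exact h

private theorem gridG_T {lam : ℝ} {m : ℕ} {p η h : ℝ} (hlam : 0 ≤ lam) (hη : 0 ≤ η) (i0 t : ℕ)
    (ht : t * η ≤ h)
    (hp : mu3.real {x | ¬ CrT lam m (t * η) x.1 (evo (t * η) x)} ≤ p) :
    PD.real {x | ¬ CrT lam m h (dyn η x i0) (dyn η x (i0 + t))} ≤ p := by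
  have h0 : MeasurableSet {z : (ℤ × ℤ → ℝ) × (ℤ × ℤ → ℝ) | ¬ CrT lam m (t * η) z.1 z.2} :=
    measurableSet_CrT.compl
  have h1 : Measurable (fun x : DI → ℝ => (dyn η x i0, dyn η x (i0 + t))) :=
    (measurable_dyn η i0).prodMk (measurable_dyn η (i0 + t))
  have h2 : Measurable (fun y : Env3 => (y.1, evo (t * η) y)) :=
    measurable_fst.prodMk (ts_measurable_evo _)
  have h3 : PD {x | ¬ CrT lam m (t * η) (dyn η x i0) (dyn η x (i0 + t))} =
      mu3 {x | ¬ CrT lam m (t * η) x.1 (evo (t * η) x)} := by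
    have h4 : Measure.map (fun x : DI → ℝ => (dyn η x i0, dyn η x (i0 + t))) PD
        {z : (ℤ × ℤ → ℝ) × (ℤ × ℤ → ℝ) | ¬ CrT lam m (t * η) z.1 z.2} =
        Measure.map (fun y : Env3 => (y.1, evo (t * η) y)) mu3
          {z : (ℤ × ℤ → ℝ) × (ℤ × ℤ → ℝ) | ¬ CrT lam m (t * η) z.1 z.2} := by
      rw [dyn_pair hη i0 t]
    rw [Measure.map_apply h1 h0, Measure.map_apply h2 h0] at h4
    exact h4
  calc PD.real {x | ¬ CrT lam m h (dyn η x i0) (dyn η x (i0 + t))}
      ≤ PD.real {x | ¬ CrT lam m (t * η) (dyn η x i0) (dyn η x (i0 + t))} :=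
        measureReal_mono (fun x hx hx' => hx (crT_mono hlam ht hx')) (measure_ne_top _ _)
    _ = mu3.real {x | ¬ CrT lam m (t * η) x.1 (evo (t * η) x)} := by
        unfold Measure.real
        rw [h3]
    _ ≤ p := hp

theorem good_all {κ : ℝ} (hκ : 0 < κ) : ∃ C c : ℝ, 1 ≤ C ∧ 0 < c ∧ ∀ (lam η h : ℝ) (m M J i0 : ℕ),
    1 ≤ lam → 1 ≤ m → 0 < η → M * η ≤ h → h ≤ 1 → 1 ≤ J →
    PD.real {x | ∃ i ≤ M, ¬ CrE κ lam m (dyn η x (i0 + i)) ∨
      ¬ CrT lam m h (dyn η x i0) (dyn η x (i0 + i))} ≤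
      (J + 1) * (C * (m : ℝ) ^ 4 * (Real.exp (-(c * lam)) +
        Real.exp (-(c * (lam / (1 + Real.log (4 * m + 5) ^ 3)) ^ (1 / 4 : ℝ))))) +
      J * (C * (m : ℝ) ^ 2 * (h / J + η)) ^ 2 := by
  obtain ⟨C1, c1, hC1, hc1, hE⟩ := crE_prob hκ
  obtain ⟨C2, c2, hC2, hc2, hT⟩ := crT_prob
  refine ⟨max 12 (max C1 C2), min c1 c2, le_trans (by norm_num) (le_max_left _ _),
    lt_min hc1 hc2, ?_⟩
  intro lam η h m M J i0 hlam hm hη hM h1 hJ
  set C := max 12 (max C1 C2) with hC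
  set c := min c1 c2 with hc
  have hC12 : 12 ≤ C := le_max_left _ _
  have hC1' : C1 ≤ C := (le_max_left _ _).trans (le_max_right _ _)
  have hC2' : C2 ≤ C := (le_max_right _ _).trans (le_max_right _ _)
  have hc1' : c ≤ c1 := min_le_left _ _
  have hc2' : c ≤ c2 := min_le_right _ _
  have hmR : (1 : ℝ) ≤ m := by exact_mod_cast hm
  have hJR : (1 : ℝ) ≤ J := by exact_mod_cast hJ
  have hlog : 0 ≤ Real.log (4 * m + 5) := Real.log_nonneg (by linarith)
  set y : ℝ := (lam / (1 + Real.log (4 * m + 5) ^ 3)) ^ (1 / 4 : ℝ) with hy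
  have hy0 : 0 ≤ y := by positivity
  set pE : ℝ := C * (m : ℝ) ^ 4 * Real.exp (-(c * lam)) with hpE
  set pT : ℝ := C * (m : ℝ) ^ 4 * Real.exp (-(c * y)) with hpT
  have hm4 : 0 ≤ (m : ℝ) ^ 4 := by positivity
  -- the bounds at one time
  have hE1 : ∀ k, PD.real {x | ¬ CrE κ lam m (dyn η x k)} ≤ pE := by
    intro k
    refine (gridG_E (hE lam m hlam hm) η k).trans ?_
    have k1 : Real.exp (-(c1 * lam)) ≤ Real.exp (-(c * lam)) := by
      apply Real.exp_le_exp.2
      have := mul_le_mul_of_nonneg_right hc1' (by linarith : (0 : ℝ) ≤ lam)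
      linarith
    exact mul_le_mul (mul_le_mul_of_nonneg_right hC1' hm4) k1 (Real.exp_pos _).le (by positivity)
  have hT1 : ∀ t, t ≤ M → PD.real {x | ¬ CrT lam m h (dyn η x i0) (dyn η x (i0 + t))} ≤
      pT := by
    intro t ht
    have k0 : (t : ℝ) * η ≤ h := by
      refine le_trans ?_ hM
      exact mul_le_mul_of_nonneg_right (by exact_mod_cast ht) hη.le
    refine (gridG_T (by linarith) hη.le i0 t k0
      (hT lam (t * η) m hlam hm (by positivity))).trans ?_
    have k1 : Real.exp (-(c2 * y)) ≤ Real.exp (-(c * y)) := by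
      apply Real.exp_le_exp.2
      have := mul_le_mul_of_nonneg_right hc2' hy0
      linarith
    exact mul_le_mul (mul_le_mul_of_nonneg_right hC2' hm4) k1 (Real.exp_pos _).le (by positivity)
  -- the grid
  obtain ⟨M', hM'⟩ : ∃ M' : ℕ, M' = (M + J - 1) / J := ⟨_, rfl⟩
  have hM1 : M ≤ J * M' := by
    have := Nat.lt_div_mul_add (a := M + J - 1) (b := J) (by omega)
    rw [hM']
    rw [mul_comm]
    omega
  have hM2 : (M' : ℝ) ≤ M / J + 1 := by
    have k1 : M' * J ≤ M + J - 1 := by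
      rw [hM']
      exact Nat.div_mul_le_self _ _
    have k2 : M' * J ≤ M + J := by omega
    have k3 : (M' : ℝ) * J ≤ M + J := by exact_mod_cast k2
    rw [← sub_nonneg]
    have k4 : (M : ℝ) / J + 1 - M' = (M + J - M' * J) / J := by
      field_simp
    rw [k4]
    exact div_nonneg (by linarith) (by linarith)
  have hM3 : (M' : ℝ) * η ≤ h / J + η := by
    calc (M' : ℝ) * η ≤ (M / J + 1) * η := mul_le_mul_of_nonneg_right hM2 hη.le
      _ = (M * η) / J + η := by ring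
      _ ≤ h / J + η := by
          have : (M * η) / J ≤ h / J := div_le_div_of_nonneg_right hM (by linarith)
          linarith
  set t : ℕ → ℕ := fun j => min (j * M') M with ht
  have ht0 : t 0 = 0 := by simp [ht]
  have htJ : t J = M := min_eq_right hM1
  have htM : ∀ j, t j ≤ M := fun j => min_le_right _ _
  have hts : ∀ j, t (j + 1) ≤ t j + M' := by
    intro j
    simp only [ht]
    rw [show (j + 1) * M' = j * M' + M' by ring]
    omega
  -- the exceptional sets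
  have hcell : ∀ j, PD.real (two η m (i0 + t j) (i0 + t (j + 1))) ≤
      (C * (m : ℝ) ^ 2 * (h / J + η)) ^ 2 := by
    intro j
    refine (twoG_prob hη.le _ _ _).trans ?_
    have k1 : ((cell m (i0 + t j) (i0 + t (j + 1))).card : ℝ) ≤ 12 * (m : ℝ) ^ 2 * M' := by
      rw [cell, Finset.card_product, Nat.card_Ioc]
      push_cast [Nat.cast_mul]
      have k2 : ((i0 + t (j + 1) - (i0 + t j) : ℕ) : ℝ) ≤ M' := by
        have := hts j
        exact_mod_cast (by omega : i0 + t (j + 1) - (i0 + t j) ≤ M')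
      exact mul_le_mul (card_bx hm) k2 (Nat.cast_nonneg _) (by positivity)
    have k3 : ((cell m (i0 + t j) (i0 + t (j + 1))).card : ℝ) * η ≤
        C * (m : ℝ) ^ 2 * (h / J + η) := by
      calc ((cell m (i0 + t j) (i0 + t (j + 1))).card : ℝ) * η
          ≤ 12 * (m : ℝ) ^ 2 * M' * η := mul_le_mul_of_nonneg_right k1 hη.le
        _ = 12 * (m : ℝ) ^ 2 * (M' * η) := by ring
        _ ≤ C * (m : ℝ) ^ 2 * (h / J + η) := by
            refine mul_le_mul (mul_le_mul_of_nonneg_right hC12 (by positivity)) hM3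
              (by positivity) (by positivity)
    exact pow_le_pow_left₀ (by positivity) k3 2
  have hsub : {x | ∃ i ≤ M, ¬ CrE κ lam m (dyn η x (i0 + i)) ∨
      ¬ CrT lam m h (dyn η x i0) (dyn η x (i0 + i))} ⊆
      ((⋃ j ∈ Finset.range (J + 1), {x | ¬ CrE κ lam m (dyn η x (i0 + t j))}) ∪
        (⋃ j ∈ Finset.range (J + 1), {x | ¬ CrT lam m h (dyn η x i0) (dyn η x (i0 + t j))})) ∪
        (⋃ j ∈ Finset.range J, two η m (i0 + t j) (i0 + t (j + 1))) := by
    intro x hx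
    by_contra hcon
    simp only [Set.mem_union, Set.mem_iUnion, Set.mem_ofPred_eq, not_or, not_exists,
      Finset.mem_range, not_not] at hcon
    obtain ⟨⟨g1, g2⟩, g3⟩ := hcon
    obtain ⟨i, hi, hbad⟩ := hx
    rw [← htJ] at hi
    obtain ⟨j, hj, hj1, hj2⟩ := find_cell ht0 hi hJ
    have g4 := one_refresh (g3 j hj) (i := i0 + i) (by omega) (by omega)
    rcases g4 with g4 | g4
    · rcases hbad with hbad | hbad
      · exact hbad (crE_congr g4 (g1 j (by omega)))
      · exact hbad (crT_congr g4 (g2 j (by omega)))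
    · rcases hbad with hbad | hbad
      · exact hbad (crE_congr g4 (g1 (j + 1) (by omega)))
      · exact hbad (crT_congr g4 (g2 (j + 1) (by omega)))
  calc PD.real {x | ∃ i ≤ M, ¬ CrE κ lam m (dyn η x (i0 + i)) ∨
      ¬ CrT lam m h (dyn η x i0) (dyn η x (i0 + i))}
      ≤ PD.real (((⋃ j ∈ Finset.range (J + 1), {x | ¬ CrE κ lam m (dyn η x (i0 + t j))}) ∪
        (⋃ j ∈ Finset.range (J + 1), {x | ¬ CrT lam m h (dyn η x i0) (dyn η x (i0 + t j))})) ∪
        (⋃ j ∈ Finset.range J, two η m (i0 + t j) (i0 + t (j + 1)))) :=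
        measureReal_mono hsub (measure_ne_top _ _)
    _ ≤ PD.real (⋃ j ∈ Finset.range (J + 1), {x | ¬ CrE κ lam m (dyn η x (i0 + t j))}) +
        PD.real (⋃ j ∈ Finset.range (J + 1),
          {x | ¬ CrT lam m h (dyn η x i0) (dyn η x (i0 + t j))}) +
        PD.real (⋃ j ∈ Finset.range J, two η m (i0 + t j) (i0 + t (j + 1))) :=
        (measureReal_union_le _ _).trans (by
          gcongr
          exact measureReal_union_le _ _)
    _ ≤ (J + 1) * pE + (J + 1) * pT + J * (C * (m : ℝ) ^ 2 * (h / J + η)) ^ 2 := by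
        have e1 : PD.real (⋃ j ∈ Finset.range (J + 1),
            {x | ¬ CrE κ lam m (dyn η x (i0 + t j))}) ≤ (J + 1) * pE := by
          refine (measureReal_biUnion_finset_le _ _).trans ?_
          refine (Finset.sum_le_sum fun j _ => hE1 (i0 + t j)).trans ?_
          rw [Finset.sum_const, Finset.card_range, nsmul_eq_mul]
          push_cast
          exact le_rfl
        have e2 : PD.real (⋃ j ∈ Finset.range (J + 1),
            {x | ¬ CrT lam m h (dyn η x i0) (dyn η x (i0 + t j))}) ≤ (J + 1) * pT := by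
          refine (measureReal_biUnion_finset_le _ _).trans ?_
          refine (Finset.sum_le_sum fun j _ => hT1 (t j) (htM j)).trans ?_
          rw [Finset.sum_const, Finset.card_range, nsmul_eq_mul]
          push_cast
          exact le_rfl
        have e3 : PD.real (⋃ j ∈ Finset.range J, two η m (i0 + t j) (i0 + t (j + 1))) ≤
            J * (C * (m : ℝ) ^ 2 * (h / J + η)) ^ 2 := by
          refine (measureReal_biUnion_finset_le _ _).trans ?_
          refine (Finset.sum_le_sum fun j _ => hcell j).trans ?_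
          rw [Finset.sum_const, Finset.card_range, nsmul_eq_mul]
        linarith
    _ = (J + 1) * (C * (m : ℝ) ^ 4 * (Real.exp (-(c * lam)) + Real.exp (-(c * y)))) +
      J * (C * (m : ℝ) ^ 2 * (h / J + η)) ^ 2 := by
        rw [hpE, hpT]
        ring

/-- a convenient form: with `L = log (1/h)`, `lam = L^20`, `m ≤ h⁻⁴`, `η ≤ h^30` the probability is
at most `h^10` for small `h` (take `J = ⌈h⁻³⁰⌉`). -/
theorem good_all' {κ : ℝ} (hκ : 0 < κ) : ∃ h0 : ℝ, 0 < h0 ∧ h0 < 1 ∧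
    ∀ (h η lam : ℝ) (m M i0 : ℕ), 0 < h → h ≤ h0 → lam = Real.log (1 / h) ^ 20 → (m : ℝ) ≤ h⁻¹ ^ 4 →
    0 < η → η ≤ h ^ 30 → M * η ≤ h →
    PD.real {x | ∃ i ≤ M, ¬ CrE κ lam m (dyn η x (i0 + i)) ∨
      ¬ CrT lam m h (dyn η x i0) (dyn η x (i0 + i))} ≤ h ^ 10 := by
  obtain ⟨C, c, hC, hc, hmain⟩ := good_all hκ
  set K : ℝ := 126 + 60 / c + 14 * C ^ 2 with hK
  have hK1 : 126 ≤ K := by
    have : 0 ≤ 60 / c := by positivity
    have : 0 ≤ 14 * C ^ 2 := by positivity
    linarith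
  have hK2 : 60 / c ≤ K := by
    have : 0 ≤ 14 * C ^ 2 := by positivity
    linarith
  have hK3 : 14 * C ^ 2 ≤ K := by
    have : 0 ≤ 60 / c := by positivity
    linarith
  refine ⟨Real.exp (-K), Real.exp_pos _, by rw [← Real.exp_zero]; exact Real.exp_lt_exp.2 (by linarith), ?_⟩
  intro h η lam m M i0 h0 hh0 hlam hm hη hη30 hM
  set L : ℝ := Real.log (1 / h) with hL
  have hexpL : h = Real.exp (-L) := by
    rw [hL, one_div, Real.log_inv, neg_neg, Real.exp_log h0]
  have hLK : K ≤ L := by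
    rw [hL, one_div, Real.log_inv]
    have : Real.log h ≤ -K := by
      rw [← Real.log_exp (-K)]
      exact Real.log_le_log h0 hh0
    linarith
  have hL126 : 126 ≤ L := hK1.trans hLK
  have hL1 : 1 ≤ L := by linarith
  have hlt1 : h ≤ 1 := by
    rw [hexpL]
    exact Real.exp_le_one_iff.2 (by linarith)
  have hpow : ∀ n : ℕ, h ^ n = Real.exp (-(n * L)) := by
    intro n
    rw [hexpL, ← Real.exp_nat_mul]
    congr 1
    ring
  have hh14 : 14 * C ^ 2 * h ≤ 1 := by
    have k1 : h * L ≤ 1 := by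
      rw [hexpL, Real.exp_neg, inv_mul_le_iff₀ (Real.exp_pos _), mul_one]
      have := Real.add_one_le_exp L
      linarith
    calc 14 * C ^ 2 * h ≤ L * h := mul_le_mul_of_nonneg_right (hK3.trans hLK) h0.le
      _ = h * L := mul_comm _ _
      _ ≤ 1 := k1
  -- the box
  set m1 : ℕ := max m 1 with hm1
  have hinv : 1 ≤ h⁻¹ := (one_le_inv₀ h0).2 hlt1
  have hm1' : (m1 : ℝ) ≤ h⁻¹ ^ 4 := by
    rw [hm1, Nat.cast_max, Nat.cast_one]
    exact max_le hm (one_le_pow₀ hinv)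
  have hm1R : (1 : ℝ) ≤ m1 := by exact_mod_cast le_max_right m 1
  have hlam1 : 1 ≤ lam := by
    rw [hlam]
    exact one_le_pow₀ hL1
  -- the number of cells
  set J : ℕ := ⌈h⁻¹ ^ 30⌉₊ with hJ
  have hJ1 : h⁻¹ ^ 30 ≤ J := Nat.le_ceil _
  have hJ2 : (J : ℝ) ≤ h⁻¹ ^ 30 + 1 := (Nat.ceil_lt_add_one (by positivity)).le
  have hi30 : 1 ≤ h⁻¹ ^ 30 := one_le_pow₀ hinv
  have hJone : 1 ≤ J := by
    have : (1 : ℝ) ≤ J := hi30.trans hJ1
    exact_mod_cast this
  have hJpos : (0 : ℝ) < J := by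
    have : (1 : ℝ) ≤ J := hi30.trans hJ1
    linarith
  have key := hmain lam η h m1 M J i0 hlam1 (le_max_right _ _) hη hM hlt1 hJone
  refine (measureReal_mono ?_ (measure_ne_top _ _)).trans (key.trans ?_)
  · rintro x ⟨i, hi, hbad⟩
    refine ⟨i, hi, ?_⟩
    rcases hbad with hbad | hbad
    · exact Or.inl fun hx => hbad (crE_box (le_max_left m 1) hx)
    · exact Or.inr fun hx => hbad (crT_box (le_max_left m 1) hx)
  -- numerical estimates
  have hmul : ∀ a b : ℕ, h⁻¹ ^ a * h ^ (a + b) = h ^ b := by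
    intro a b
    rw [pow_add, ← mul_assoc, ← mul_pow, inv_mul_cancel₀ h0.ne', one_pow, one_mul]
  have hcL : 60 ≤ c * L := by
    have := (div_le_iff₀ hc).1 (hK2.trans hLK)
    linarith
  have hexp : ∀ y : ℝ, L ^ 4 ≤ y → Real.exp (-(c * y)) ≤ h ^ 60 := by
    intro y hy
    rw [hpow]
    apply Real.exp_le_exp.2
    have k1 : c * L ^ 4 ≤ c * y := mul_le_mul_of_nonneg_left hy hc.le
    have k2 : L ≤ L ^ 3 := by
      calc L = L ^ 1 := (pow_one L).symm
        _ ≤ L ^ 3 := pow_le_pow_right₀ hL1 (by norm_num)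
    have k3 : 60 * L ≤ c * L ^ 4 := by
      calc 60 * L ≤ 60 * L ^ 3 := by linarith
        _ ≤ (c * L) * L ^ 3 := mul_le_mul_of_nonneg_right hcL (by positivity)
        _ = c * L ^ 4 := by ring
    push_cast
    linarith
  have hlog0 : 0 ≤ Real.log (4 * m1 + 5) := Real.log_nonneg (by linarith)
  have hlog : Real.log (4 * m1 + 5) ≤ 5 * L := by
    have k1 : (4 : ℝ) * m1 + 5 ≤ Real.exp (5 * L) := by
      have k2 : h⁻¹ = Real.exp L := by
        rw [hexpL, Real.exp_neg, inv_inv]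
      have k3 : (9 : ℝ) ≤ Real.exp L := by
        have := Real.add_one_le_exp L
        linarith
      calc (4 : ℝ) * m1 + 5 ≤ 9 * h⁻¹ ^ 4 := by
            have := one_le_pow₀ hinv (n := 4)
            linarith
        _ ≤ Real.exp L * Real.exp L ^ 4 := by
            rw [k2]
            exact mul_le_mul_of_nonneg_right k3 (by positivity)
        _ = Real.exp (5 * L) := by
            rw [← pow_succ', ← Real.exp_nat_mul]
            norm_num
    calc Real.log (4 * m1 + 5) ≤ Real.log (Real.exp (5 * L)) :=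
          Real.log_le_log (by linarith) k1
      _ = 5 * L := Real.log_exp _
  have hy : L ^ 4 ≤ (lam / (1 + Real.log (4 * m1 + 5) ^ 3)) ^ (1 / 4 : ℝ) := by
    have k1 : 1 + Real.log (4 * m1 + 5) ^ 3 ≤ L ^ 4 := by
      have k2 : Real.log (4 * m1 + 5) ^ 3 ≤ (5 * L) ^ 3 := pow_le_pow_left₀ hlog0 hlog 3
      have k3 : 1 ≤ L ^ 3 := one_le_pow₀ hL1
      calc 1 + Real.log (4 * m1 + 5) ^ 3 ≤ L ^ 3 + (5 * L) ^ 3 := by linarith
        _ = 126 * L ^ 3 := by ring
        _ ≤ L * L ^ 3 := mul_le_mul_of_nonneg_right hL126 (by positivity)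
        _ = L ^ 4 := by ring
    have k4 : (L ^ 4) ^ (4 : ℕ) ≤ lam / (1 + Real.log (4 * m1 + 5) ^ 3) := by
      rw [le_div_iff₀ (by positivity), hlam]
      calc (L ^ 4) ^ (4 : ℕ) * (1 + Real.log (4 * m1 + 5) ^ 3) ≤ (L ^ 4) ^ (4 : ℕ) * L ^ 4 :=
            mul_le_mul_of_nonneg_left k1 (by positivity)
        _ = L ^ 20 := by ring
    calc L ^ 4 = ((L ^ 4) ^ (4 : ℕ)) ^ (1 / 4 : ℝ) := by
          rw [← Real.rpow_natCast (L ^ 4) 4, ← Real.rpow_mul (by positivity)]
          norm_num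
      _ ≤ _ := Real.rpow_le_rpow (by positivity) k4 (by norm_num)
  have hlamL : L ^ 4 ≤ lam := by
    rw [hlam]
    exact pow_le_pow_right₀ hL1 (by norm_num)
  have hsum : Real.exp (-(c * lam)) + Real.exp (-(c * (lam / (1 + Real.log (4 * m1 + 5) ^ 3)) ^
      (1 / 4 : ℝ))) ≤ 2 * h ^ 60 := by
    have := hexp _ hlamL
    have := hexp _ hy
    linarith
  have hm4 : (m1 : ℝ) ^ 4 ≤ h⁻¹ ^ 16 := by
    calc (m1 : ℝ) ^ 4 ≤ (h⁻¹ ^ 4) ^ 4 := pow_le_pow_left₀ (by positivity) hm1' 4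
      _ = h⁻¹ ^ 16 := by ring
  have hm2 : (m1 : ℝ) ^ 2 ≤ h⁻¹ ^ 8 := by
    calc (m1 : ℝ) ^ 2 ≤ (h⁻¹ ^ 4) ^ 2 := pow_le_pow_left₀ (by positivity) hm1' 2
      _ = h⁻¹ ^ 8 := by ring
  have hfirst : ((J : ℝ) + 1) * (C * (m1 : ℝ) ^ 4 * (Real.exp (-(c * lam)) +
      Real.exp (-(c * (lam / (1 + Real.log (4 * m1 + 5) ^ 3)) ^ (1 / 4 : ℝ))))) ≤
      6 * C * h ^ 14 := by
    calc ((J : ℝ) + 1) * (C * (m1 : ℝ) ^ 4 * (Real.exp (-(c * lam)) +
        Real.exp (-(c * (lam / (1 + Real.log (4 * m1 + 5) ^ 3)) ^ (1 / 4 : ℝ)))))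
        ≤ (3 * h⁻¹ ^ 30) * (C * h⁻¹ ^ 16 * (2 * h ^ 60)) := by
          refine mul_le_mul (by linarith) ?_ (by positivity) (by positivity)
          refine mul_le_mul ?_ hsum (by positivity) (by positivity)
          exact mul_le_mul_of_nonneg_left hm4 (by linarith)
      _ = 6 * C * (h⁻¹ ^ 46 * h ^ (46 + 14)) := by ring
      _ = 6 * C * h ^ 14 := by rw [hmul]
  have hhJ : h / J + η ≤ 2 * h ^ 30 := by
    have k1 : h / J ≤ h ^ 30 := by
      rw [div_le_iff₀ hJpos]
      calc h ≤ 1 := hlt1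
        _ = h⁻¹ ^ 30 * h ^ (30 + 0) := by rw [hmul, pow_zero]
        _ = h ^ 30 * h⁻¹ ^ 30 := by ring
        _ ≤ h ^ 30 * J := mul_le_mul_of_nonneg_left hJ1 (by positivity)
    linarith
  have hsecond : (J : ℝ) * (C * (m1 : ℝ) ^ 2 * (h / J + η)) ^ 2 ≤ 8 * C ^ 2 * h ^ 14 := by
    have k1 : C * (m1 : ℝ) ^ 2 * (h / J + η) ≤ 2 * C * h ^ 22 := by
      calc C * (m1 : ℝ) ^ 2 * (h / J + η) ≤ C * h⁻¹ ^ 8 * (2 * h ^ 30) := by
            refine mul_le_mul ?_ hhJ (by positivity) (by positivity)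
            exact mul_le_mul_of_nonneg_left hm2 (by linarith)
        _ = 2 * C * (h⁻¹ ^ 8 * h ^ (8 + 22)) := by ring
        _ = 2 * C * h ^ 22 := by rw [hmul]
    calc (J : ℝ) * (C * (m1 : ℝ) ^ 2 * (h / J + η)) ^ 2
        ≤ (2 * h⁻¹ ^ 30) * (2 * C * h ^ 22) ^ 2 := by
          refine mul_le_mul (by linarith) (pow_le_pow_left₀ (by positivity) k1 2)
            (by positivity) (by positivity)
      _ = 8 * C ^ 2 * (h⁻¹ ^ 30 * h ^ (30 + 14)) := by ring
      _ = 8 * C ^ 2 * h ^ 14 := by rw [hmul]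
  have hC2 : C ≤ C ^ 2 := by nlinarith
  calc _ ≤ 6 * C * h ^ 14 + 8 * C ^ 2 * h ^ 14 := add_le_add hfirst hsecond
    _ = (6 * C + 8 * C ^ 2) * h ^ 14 := by ring
    _ ≤ (14 * C ^ 2) * h ^ 14 := mul_le_mul_of_nonneg_right (by linarith) (by positivity)
    _ = (14 * C ^ 2 * h) * h ^ 13 := by ring
    _ ≤ 1 * h ^ 13 := mul_le_mul_of_nonneg_right hh14 (by positivity)
    _ = h ^ 13 := one_mul _
    _ ≤ h ^ 10 := pow_le_pow_of_le_one h0.le hlt1 (by norm_num)

end BGG
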