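import Pool.Agent.BGG.Defs
import Pool.Agent.BGE.ConcPair
import Pool.Agent.BGE.Talagrand
import Pool.Agent.BGE.Base2

/-!
BGG / T2, T5. Stability of the last passage time under resampling of a small random set of weights,
law `PG`. Adaptation of `Pool/Agent/BGE/ConcPair.lean`; with ties the geodesic is not unique, so
`QV` (of BGG) is the sum of the squares of the weights in `K` along one chosen geodesic.

`QR_path` (deterministic, by induction on `m + n`, using the recursion for `LP`): for given `ω`, `u`,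
`m`, `n` there is an up-right path `x` from `u` to `u + (m, n)` with weight `LP ω u m n` such that
`QR ω g u m n = ∑ g` over the sites of `x`, for all functions `g` at once (the path depends on `ω`
only). `QV_path`: the same for `T` and `QV`, with `K` arbitrary.

`conc_pair`: for nonnegative `a`, under the law `PG` of `x`, `f x = T (mix K x a) u v`:
`P(f ≤ M) P(f ≥ M + z, QV ≤ q) ≤ exp (-z²/(4q))`. The proof is the one of `BGE.conc_pair` (which only
uses that the law is a product of probability measures on `[0, ∞)`) with the geodesic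
`Γ` = the chosen one. (Another possibility: the product measure of a law on the countable set
`gs ℕ + gd` needs truncation only, but the same discretisation as in BGE works.)
-/

namespace BGG

open MeasureTheory ProbabilityTheory BGE Finset

/-! ### paths -/

private theorem cp_lev_pt (x : ℤ → ℤ) (l : ℤ) : lev (pt x l) = l := by
  unfold lev pt
  simp

private theorem cp_sum {u v : ℤ × ℤ} {x : ℤ → ℤ}
    (hx : UR x (lev u) (lev v)) (hu : pt x (lev u) = u) (hv : pt x (lev v) = v)
    (g : ℤ × ℤ → ℝ) :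
    ∑ i ∈ Icc u v, (if pt x (lev i) = i then g i else 0) =
      ∑ l ∈ Icc (lev u) (lev v), g (pt x l) := by
  rw [← sum_filter]
  refine sum_nbij' (fun i => lev i) (fun l => pt x l) ?_ ?_ ?_ ?_ ?_
  · intro i hi
    rw [mem_filter, mem_Icc] at hi
    exact mem_Icc.2 ⟨lev_le_lev hi.1.1, lev_le_lev hi.1.2⟩
  · intro l hl
    rw [mem_Icc] at hl
    rw [mem_filter, mem_Icc]
    refine ⟨⟨?_, ?_⟩, ?_⟩
    · have := pt_le_pt hx le_rfl hl.1 hl.2
      rwa [hu] at this
    · have := pt_le_pt hx hl.1 hl.2 le_rfl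
      rwa [hv] at this
    · rw [cp_lev_pt]
  · intro i hi
    rw [mem_filter] at hi
    exact hi.2
  · intro l _
    exact cp_lev_pt x l
  · intro i hi
    rw [mem_filter] at hi
    rw [hi.2]

/-! ### the chosen geodesic -/

/-- extension of a path by one step -/
private theorem qr_ext {u v' v : ℤ × ℤ} {L : ℤ} (hL : lev u ≤ L) {x : ℤ → ℤ}
    (hx1 : UR x (lev u) L) (hx2 : pt x (lev u) = u) (hx3 : pt x L = v')
    (h2 : v = (v'.1 + 1, v'.2) ∨ v = (v'.1, v'.2 + 1)) : ∃ y : ℤ → ℤ,
      UR y (lev u) (L + 1) ∧ pt y (lev u) = u ∧ pt y (L + 1) = v ∧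
      ∀ g : ℤ × ℤ → ℝ, ∑ l ∈ Icc (lev u) (L + 1), g (pt y l) =
        ∑ l ∈ Icc (lev u) L, g (pt x l) + g v := by
  have hLv : L = lev v' := by rw [← hx3, cp_lev_pt]
  have hl : lev v = L + 1 := by
    rw [hLv]
    rcases h2 with rfl | rfl
    · unfold lev; simp only; ring
    · unfold lev; simp only; ring
  have hxo : ∀ l, l ≤ L → Function.update x (L + 1) v.1 l = x l := fun l hl' =>
    Function.update_of_ne (by omega) _ _
  have hpt : ∀ l, l ≤ L → pt (Function.update x (L + 1) v.1) l = pt x l := by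
    intro l hl'
    unfold pt
    rw [hxo l hl']
  have hend : pt (Function.update x (L + 1) v.1) (L + 1) = v := by
    unfold pt
    rw [Function.update_self, ← hl]
    unfold lev
    ext <;> simp
  have hv' : x L = v'.1 := congrArg Prod.fst hx3
  refine ⟨Function.update x (L + 1) v.1, ?_, ?_, hend, ?_⟩
  · intro l hl1 hl2
    rcases lt_or_eq_of_le (show l ≤ L by omega) with h4 | h4
    · rw [hxo l h4.le, hxo (l + 1) (by omega)]
      exact hx1 l hl1 h4
    · rw [hxo l h4.le, h4, Function.update_self, hv']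
      rcases h2 with rfl | rfl
      · right; rfl
      · left; rfl
  · rw [hpt _ hL, hx2]
  · intro g
    have : Icc (lev u) (L + 1) = insert (L + 1) (Icc (lev u) L) := by
      ext l
      simp only [mem_Icc, mem_insert]
      omega
    rw [this, sum_insert (by simp only [mem_Icc]; omega), hend, add_comm]
    congr 1
    apply sum_congr rfl
    intro l hl'
    rw [mem_Icc] at hl'
    rw [hpt l hl'.2]

theorem QR_path (ω : ℤ × ℤ → ℝ) (u : ℤ × ℤ) (m n : ℕ) : ∃ x : ℤ → ℤ,
    UR x (lev u) (lev u + m + n) ∧ pt x (lev u) = u ∧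
    pt x (lev u + m + n) = (u.1 + m, u.2 + n) ∧
    wt ω x (lev u) (lev u + m + n) = LP ω u m n ∧
    ∀ g : ℤ × ℤ → ℝ, QR ω g u m n = ∑ l ∈ Finset.Icc (lev u) (lev u + m + n), g (pt x l) := by
  have key : ∀ k m n : ℕ, m + n = k → ∃ x : ℤ → ℤ,
      UR x (lev u) (lev u + m + n) ∧ pt x (lev u) = u ∧
      pt x (lev u + m + n) = (u.1 + m, u.2 + n) ∧
      wt ω x (lev u) (lev u + m + n) = LP ω u m n ∧
      ∀ g : ℤ × ℤ → ℝ, QR ω g u m n = ∑ l ∈ Icc (lev u) (lev u + m + n), g (pt x l) := by
    intro k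
    induction k with
    | zero =>
      intro m n hmn
      obtain ⟨rfl, rfl⟩ : m = 0 ∧ n = 0 := by omega
      have h1 : pt (fun _ => u.1) (lev u) = u := by
        unfold pt lev
        ext <;> simp
      refine ⟨fun _ => u.1, fun l h1 h2 => absurd h2 ?_, h1, ?_, ?_, ?_⟩
      · push_cast
        omega
      · simpa using h1
      · simp only [wt, Nat.cast_zero, add_zero, Icc_self, sum_singleton, h1, LP]
      · intro g
        simp only [Nat.cast_zero, add_zero, Icc_self, sum_singleton, h1, QR]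
    | succ k ih =>
      intro m n hmn
      -- a step from `(m', n')`
      have step : ∀ m' n' : ℕ, m' + n' = k →
          (m = m' + 1 ∧ n = n' ∨ m = m' ∧ n = n' + 1) →
          LP ω u m n = LP ω u m' n' + ω (u.1 + m, u.2 + n) →
          (∀ g : ℤ × ℤ → ℝ, QR ω g u m n = QR ω g u m' n' + g (u.1 + m, u.2 + n)) →
          ∃ x : ℤ → ℤ, UR x (lev u) (lev u + m + n) ∧ pt x (lev u) = u ∧
            pt x (lev u + m + n) = (u.1 + m, u.2 + n) ∧
            wt ω x (lev u) (lev u + m + n) = LP ω u m n ∧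
            ∀ g : ℤ × ℤ → ℝ, QR ω g u m n =
              ∑ l ∈ Icc (lev u) (lev u + m + n), g (pt x l) := by
        intro m' n' hk hmn' hLP hQR
        obtain ⟨x, hx1, hx2, hx3, hx4, hx5⟩ := ih m' n' hk
        have hL : lev u + (m : ℤ) + n = lev u + m' + n' + 1 := by
          rcases hmn' with ⟨rfl, rfl⟩ | ⟨rfl, rfl⟩
          · push_cast; ring
          · push_cast; ring
        obtain ⟨y, hy1, hy2, hy3, hy4⟩ := qr_ext (v := (u.1 + (m : ℤ), u.2 + (n : ℤ)))
          (by omega) hx1 hx2 hx3 (by
            rcases hmn' with ⟨rfl, rfl⟩ | ⟨rfl, rfl⟩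
            · left
              push_cast
              simp only [add_assoc]
            · right
              push_cast
              simp only [add_assoc])
        rw [hL]
        refine ⟨y, hy1, hy2, hy3, ?_, ?_⟩
        · unfold wt at hx4 ⊢
          rw [hy4, hx4, hLP]
        · intro g
          rw [hy4, hQR, hx5]
      rcases m with _ | m
      · rcases n with _ | n
        · omega
        · refine step 0 n (by omega) (Or.inr ⟨rfl, rfl⟩) ?_ fun g => ?_
          · rw [LP]
            push_cast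
            rw [add_zero]
          · rw [QR]
            push_cast
            rw [add_zero]
      · rcases n with _ | n
        · refine step m 0 (by omega) (Or.inl ⟨rfl, rfl⟩) ?_ fun g => ?_
          · rw [LP]
            push_cast
            rw [add_zero]
          · rw [QR]
            push_cast
            rw [add_zero]
        · by_cases hc : LP ω u (m + 1) n ≤ LP ω u m (n + 1)
          · refine step m (n + 1) (by omega) (Or.inl ⟨rfl, rfl⟩) ?_ fun g => ?_
            · rw [LP, max_eq_left hc]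
              push_cast
              rfl
            · rw [QR, if_pos hc]
              push_cast
              rfl
          · refine step (m + 1) n (by omega) (Or.inr ⟨rfl, rfl⟩) ?_ fun g => ?_
            · rw [LP, max_eq_right (not_le.1 hc).le]
              push_cast
              rfl
            · rw [QR, if_neg hc]
              push_cast
              rfl
  exact key (m + n) m n rfl

open Classical in
theorem QV_path (ω : ℤ × ℤ → ℝ) {u v : ℤ × ℤ} (h : u ≤ v) : ∃ x : ℤ → ℤ,
    UR x (lev u) (lev v) ∧ pt x (lev u) = u ∧ pt x (lev v) = v ∧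
    wt ω x (lev u) (lev v) = T ω u v ∧
    ∀ K : Set (ℤ × ℤ), QV ω K u v =
      ∑ l ∈ Finset.Icc (lev u) (lev v), if pt x l ∈ K then ω (pt x l) ^ 2 else 0 := by
  obtain ⟨x, hx1, hx2, hx3, hx4, hx5⟩ := QR_path ω u (v.1 - u.1).toNat (v.2 - u.2).toNat
  have a1 : ((v.1 - u.1).toNat : ℤ) = v.1 - u.1 := Int.toNat_of_nonneg (sub_nonneg.2 h.1)
  have a2 : ((v.2 - u.2).toNat : ℤ) = v.2 - u.2 := Int.toNat_of_nonneg (sub_nonneg.2 h.2)
  have a3 : lev u + ((v.1 - u.1).toNat : ℤ) + ((v.2 - u.2).toNat : ℤ) = lev v := by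
    rw [a1, a2]
    unfold lev
    ring
  rw [a3] at hx1 hx3 hx4 hx5
  rw [a1, a2] at hx3
  refine ⟨x, hx1, hx2, ?_, hx4, fun K => ?_⟩
  · rw [hx3]
    ext
    · simp
    · simp
  · exact hx5 _

theorem measurable_QR {Ω : Type*} [MeasurableSpace Ω] {f g : Ω → ℤ × ℤ → ℝ}
    (hf : Measurable f) (hg : Measurable g) (u : ℤ × ℤ) (m n : ℕ) :
    Measurable (fun o => QR (f o) (g o) u m n) := by
  have hLP : ∀ m n : ℕ, Measurable (fun o => LP (f o) u m n) := by
    intro m n
    have h1 := (measurable_T u (u.1 + m, u.2 + n)).comp hf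
    have h2 : (fun ω : ℤ × ℤ → ℝ => T ω u (u.1 + m, u.2 + n)) ∘ f =
        fun o => LP (f o) u m n := by
      funext o
      simp only [Function.comp, T]
      congr 1 <;> omega
    rwa [h2] at h1
  have hgm : ∀ z, Measurable (fun o => g o z) := fun z => (measurable_pi_apply z).comp hg
  have key : ∀ k m n : ℕ, m + n = k → Measurable (fun o => QR (f o) (g o) u m n) := by
    intro k
    induction k with
    | zero =>
      intro m n hmn
      obtain ⟨rfl, rfl⟩ : m = 0 ∧ n = 0 := by omega
      simp only [QR]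
      exact hgm _
    | succ k ih =>
      intro m n hmn
      rcases m with _ | m
      · rcases n with _ | n
        · omega
        · simp only [QR]
          exact (ih 0 n (by omega)).add (hgm _)
      · rcases n with _ | n
        · simp only [QR]
          exact (ih m 0 (by omega)).add (hgm _)
        · simp only [QR]
          refine Measurable.add ?_ (hgm _)
          exact Measurable.ite (measurableSet_le (hLP (m + 1) n) (hLP m (n + 1)))
            (ih m (n + 1) (by omega)) (ih (m + 1) n (by omega))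
  exact key (m + n) m n rfl

variable [GeoPar]

/-! ### discretisation -/

private noncomputable def dd (N : ℕ) (t : ℝ) : Fin (N ^ 2 + 1) :=
  ⟨min ⌊N * t⌋₊ (N ^ 2), Nat.lt_succ_of_le (min_le_right _ _)⟩

private noncomputable def vv (N : ℕ) (k : Fin (N ^ 2 + 1)) : ℝ := (k : ℝ) / N

omit [GeoPar] in
private theorem vv_nonneg (N : ℕ) (k : Fin (N ^ 2 + 1)) : 0 ≤ vv N k := by
  unfold vv
  positivity

omit [GeoPar] in
private theorem vv_le {N : ℕ} (hN : 0 < N) {t : ℝ} (ht : 0 ≤ t) : vv N (dd N t) ≤ t := by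
  have hN' : (0 : ℝ) < N := by exact_mod_cast hN
  unfold vv dd
  simp only
  rw [div_le_iff₀ hN']
  calc ((min ⌊(N : ℝ) * t⌋₊ (N ^ 2) : ℕ) : ℝ) ≤ (⌊(N : ℝ) * t⌋₊ : ℝ) := by
        exact_mod_cast min_le_left _ _
    _ ≤ N * t := Nat.floor_le (by positivity)
    _ = t * N := mul_comm _ _

omit [GeoPar] in
private theorem le_vv {N : ℕ} (hN : 0 < N) {t : ℝ} (ht' : t < N) :
    t ≤ vv N (dd N t) + 1 / N := by
  have hN' : (0 : ℝ) < N := by exact_mod_cast hN
  have h1 : ⌊(N : ℝ) * t⌋₊ ≤ N ^ 2 := by
    refine Nat.floor_le_of_le ?_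
    push_cast
    nlinarith
  unfold vv dd
  simp only
  rw [min_eq_left h1, ← add_div, le_div_iff₀ hN']
  have := (Nat.lt_floor_add_one ((N : ℝ) * t)).le
  linarith

omit [GeoPar] in
private theorem measurable_dd (N : ℕ) : Measurable (dd N) := by
  have h1 : Measurable fun t : ℝ => min ⌊(N : ℝ) * t⌋₊ (N ^ 2) := by
    have : Measurable fun t : ℝ => ⌊(N : ℝ) * t⌋₊ := Nat.measurable_floor.comp (by fun_prop)
    exact this.min measurable_const
  refine measurable_to_countable' fun k => ?_
  have : dd N ⁻¹' {k} = (fun t : ℝ => min ⌊(N : ℝ) * t⌋₊ (N ^ 2)) ⁻¹' {(k : ℕ)} := by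
    ext t
    simp [dd, Fin.ext_iff]
  rw [this]
  exact h1 (measurableSet_singleton _)

/-- the law of the discretised configuration -/
private theorem cp_law (N : ℕ) (s : Finset (ℤ × ℤ)) (S : Finset (s → Fin (N ^ 2 + 1))) :
    PG.real {x | (fun i : s => dd N (x i)) ∈ S} =
      ∑ y ∈ S, ∏ i, EG.real (dd N ⁻¹' {y i}) := by
  classical
  have h1 : ∀ y : s → Fin (N ^ 2 + 1), PG.real {x | (fun i : s => dd N (x i)) = y} =
      ∏ i, EG.real (dd N ⁻¹' {y i}) := by
    intro y
    have e1 : {x : ℤ × ℤ → ℝ | (fun i : s => dd N (x i)) = y} =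
        Set.pi (s : Set (ℤ × ℤ)) (fun i => if h : i ∈ s then dd N ⁻¹' {y ⟨i, h⟩} else Set.univ) := by
      ext x
      simp only [Set.mem_ofPred_eq, Set.mem_pi, mem_coe]
      constructor
      · intro h i hi
        rw [dif_pos hi, ← h]
        rfl
      · intro h
        funext i
        have := h i i.2
        rw [dif_pos i.2] at this
        exact this
    rw [measureReal_def, e1, PG, Measure.infinitePi_pi, ENNReal.toReal_prod, ← prod_coe_sort]
    · refine prod_congr rfl fun i _ => ?_
      rw [dif_pos i.2]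
      rfl
    · intro i hi
      rw [dif_pos hi]
      exact measurable_dd N (measurableSet_singleton _)
  have h2 : {x : ℤ × ℤ → ℝ | (fun i : s => dd N (x i)) ∈ S} =
      ⋃ y ∈ S, {x | (fun i : s => dd N (x i)) = y} := by
    ext x
    simp
  have hme : ∀ y : s → Fin (N ^ 2 + 1),
      MeasurableSet {x : ℤ × ℤ → ℝ | (fun i : s => dd N (x i)) = y} := by
    intro y
    have hm : Measurable fun x : ℤ × ℤ → ℝ => (fun i : s => dd N (x i)) :=
      measurable_pi_iff.2 fun i => (measurable_dd N).comp (measurable_pi_apply _)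
    exact hm (measurableSet_singleton y)
  rw [h2, measureReal_biUnion_finset]
  · exact sum_congr rfl fun y _ => h1 y
  · intro y _ y' _ hyy
    rw [Function.onFun, Set.disjoint_left]
    rintro x hx hx'
    exact hyy (hx.symm.trans hx')
  · intro y _
    exact hme y

private theorem cp_ae_nonneg (s : Finset (ℤ × ℤ)) :
    ∀ᵐ x ∂PG, ∀ i ∈ s, 0 ≤ x i := by
  rw [Filter.eventually_all_finset]
  intro i _
  have h := (measurePreserving_eval_infinitePi (fun _ : ℤ × ℤ => EG) i).quasiMeasurePreserving
  have h1 : ∀ᵐ t ∂EG, 0 ≤ t := by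
    unfold EG geoM
    rw [ae_map_iff (measurable_gqm _).aemeasurable measurableSet_Ici]
    refine Filter.Eventually.of_forall fun x => ?_
    have hq0 := GeoPar.q_pos
    have hq1 := GeoPar.q_lt
    have hgs : 0 ≤ gs := div_nonneg (by linarith) (Real.sqrt_nonneg _)
    have hgd : 0 ≤ gd := sub_nonneg.2 (Real.sqrt_le_one.2 hq1.le)
    exact add_nonneg (mul_nonneg hgs (Nat.cast_nonneg _)) hgd
  exact h.ae h1

open Classical in
/-- the environment given by a discrete configuration -/
private noncomputable def ext' (N : ℕ) (s : Finset (ℤ × ℤ)) (y : s → Fin (N ^ 2 + 1)) :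
    ℤ × ℤ → ℝ := fun z => if h : z ∈ s then vv N (y ⟨z, h⟩) else 0

/-- the statement for fixed `N` -/
private theorem cp_fixed (K : Set (ℤ × ℤ)) (a : ℤ × ℤ → ℝ) {u v : ℤ × ℤ}
    (h : u ≤ v) {M z q : ℝ} (hq : 0 < q) {N : ℕ} (hN : 0 < N) :
    PG.real {x | T (mix K x a) u v ≤ M} *
      PG.real {x | (∀ i ∈ Icc u v, x i < N) ∧
        (M + z ≤ T (mix K x a) u v ∧ QV (mix K x a) K u v ≤ q)} ≤
      Real.exp (-((max (z - ((lev v - lev u : ℤ) + 1) / N) 0 / √q) ^ 2 / 4)) := by
  classical
  have hN' : (0 : ℝ) < N := by exact_mod_cast hN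
  set s : Finset (ℤ × ℤ) := Icc u v with hs
  set At : Finset (s → Fin (N ^ 2 + 1)) :=
    univ.filter fun y => T (mix K (ext' N s y) a) u v ≤ M with hAt
  set Bt : Finset (s → Fin (N ^ 2 + 1)) :=
    univ.filter fun y => ∃ x : ℤ × ℤ → ℝ, (∀ i ∈ s, 0 ≤ x i ∧ x i < N) ∧
      (M + z ≤ T (mix K x a) u v ∧ QV (mix K x a) K u v ≤ q) ∧
      (fun i : s => dd N (x i)) = y with hBt
  have hA : PG.real {x | T (mix K x a) u v ≤ M} ≤
      ∑ y ∈ At, ∏ i, EG.real (dd N ⁻¹' {y i}) := by
    rw [← cp_law]
    refine ENNReal.toReal_mono (measure_ne_top _ _) (measure_mono_ae ?_)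
    filter_upwards [cp_ae_nonneg s] with x hx hxM
    change (fun i : s => dd N (x i)) ∈ At
    rw [hAt, mem_filter]
    refine ⟨mem_univ _, le_trans (T_mono h ?_) hxM⟩
    intro w hw1 hw2
    have hws : w ∈ s := mem_Icc.2 ⟨hw1, hw2⟩
    unfold mix
    split_ifs with hK
    · unfold ext'
      rw [dif_pos hws]
      exact vv_le hN (hx w hws)
    · exact le_rfl
  have hB : PG.real {x | (∀ i ∈ s, x i < N) ∧
        (M + z ≤ T (mix K x a) u v ∧ QV (mix K x a) K u v ≤ q)} ≤
      ∑ y ∈ Bt, ∏ i, EG.real (dd N ⁻¹' {y i}) := by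
    rw [← cp_law]
    refine ENNReal.toReal_mono (measure_ne_top _ _) (measure_mono_ae ?_)
    filter_upwards [cp_ae_nonneg s] with x hx hxM
    change (fun i : s => dd N (x i)) ∈ Bt
    rw [hBt, mem_filter]
    exact ⟨mem_univ _, x, fun i hi => ⟨hx i hi, hxM.1 i hi⟩, hxM.2, rfl⟩
  have hs1 : ∀ i : s, ∑ k, EG.real (dd N ⁻¹' {k}) = 1 := by
    intro _
    have := measureReal_biUnion_finset (μ := EG) (s := (univ : Finset (Fin (N ^ 2 + 1))))
      (f := fun k => dd N ⁻¹' {k}) (by
        intro k _ k' _ hkk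
        rw [Function.onFun, Set.disjoint_left]
        intro t ht ht'
        exact hkk (ht.symm.trans ht')) (fun k _ => measurable_dd N (measurableSet_singleton _))
    rw [← this]
    have e : (⋃ k ∈ (univ : Finset (Fin (N ^ 2 + 1))), dd N ⁻¹' {k}) = Set.univ := by
      ext t
      simp
    rw [e]
    simp
  have hsq : 0 < √q := Real.sqrt_pos.2 hq
  refine le_trans (mul_le_mul hA hB measureReal_nonneg (sum_nonneg fun y _ =>
    prod_nonneg fun i _ => measureReal_nonneg)) ?_
  refine talagrand (ι := s) (α := Fin (N ^ 2 + 1)) (fun _ k => EG.real (dd N ⁻¹' {k}))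
    (fun _ _ => measureReal_nonneg) hs1 At Bt (u := max (z - ((lev v - lev u : ℤ) + 1) / N) 0 / √q)
    (by positivity) ?_
  intro yB hyB
  rw [hBt, mem_filter] at hyB
  obtain ⟨-, x, hx, ⟨hxM, hxq⟩, rfl⟩ := hyB
  obtain ⟨g, hg, hgu, hgv, hgw, hgQ⟩ := QV_path (mix K x a) h
  refine ⟨fun i => if pt g (lev i.1) = i.1 then (if i.1 ∈ K then x i.1 / √q else 0) else 0,
    ?_, ?_, ?_⟩
  · intro i
    beta_reduce
    split_ifs
    · exact div_nonneg (hx i.1 i.2).1 hsq.le
    · exact le_rfl
    · exact le_rfl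
  · -- sum of squares
    have e1 : ∑ i : s, (if pt g (lev i.1) = i.1 then (if i.1 ∈ K then x i.1 / √q else 0) else 0) ^ 2
        = ∑ i ∈ s, (if pt g (lev i) = i then (if i ∈ K then x i ^ 2 else 0) else 0) / q := by
      rw [← sum_coe_sort s (fun i => (if pt g (lev i) = i then (if i ∈ K then x i ^ 2 else 0)
        else 0) / q)]
      refine sum_congr rfl fun i _ => ?_
      split_ifs
      · rw [div_pow, Real.sq_sqrt hq.le]
      · simp
      · simp
    rw [e1, ← sum_div, div_le_one hq]
    refine le_trans (le_of_eq ?_) hxq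
    rw [hgQ K, ← cp_sum hg hgu hgv (fun i => if i ∈ K then mix K x a i ^ 2 else 0)]
    refine sum_congr rfl fun i _ => ?_
    by_cases h1 : pt g (lev i) = i
    · by_cases h2 : i ∈ K
      · rw [if_pos h1, if_pos h2, if_pos h1, if_pos h2]
        unfold mix
        rw [if_pos h2]
      · rw [if_pos h1, if_neg h2, if_pos h1, if_neg h2]
    · rw [if_neg h1, if_neg h1]
  · intro y hy
    rw [hAt, mem_filter] at hy
    have hyM := hy.2
    have b1 : wt (mix K (ext' N s y) a) g (lev u) (lev v) ≤ T (mix K (ext' N s y) a) u v := by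
      have := wt_le_T (ω := mix K (ext' N s y) a) hg (lev_le_lev h)
      rwa [hgu, hgv] at this
    have b2 : z ≤ wt (mix K x a) g (lev u) (lev v) -
        wt (mix K (ext' N s y) a) g (lev u) (lev v) := by
      rw [hgw]
      linarith
    have hmem : ∀ l ∈ Icc (lev u) (lev v), pt g l ∈ s := by
      intro l hl
      rw [mem_Icc] at hl
      have c1 := pt_le_pt hg le_rfl hl.1 hl.2
      have c2 := pt_le_pt hg hl.1 hl.2 le_rfl
      rw [hgu] at c1
      rw [hgv] at c2
      exact mem_Icc.2 ⟨c1, c2⟩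
    -- comparison
    have b3 : wt (mix K x a) g (lev u) (lev v) -
        wt (mix K (ext' N s y) a) g (lev u) (lev v) ≤
        ∑ l ∈ Icc (lev u) (lev v), ((if h : pt g l ∈ s then
          (if pt g l ∈ K then (if dd N (x (pt g l)) ≠ y ⟨pt g l, h⟩ then x (pt g l) else 0)
            else 0) else 0) + 1 / N) := by
      unfold wt
      rw [← sum_sub_distrib]
      refine sum_le_sum fun l hl => ?_
      have hls := hmem l hl
      rw [dif_pos hls]
      have hN1 : (0 : ℝ) ≤ 1 / N := by positivity
      by_cases hK : pt g l ∈ K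
      · have e1 : mix K x a (pt g l) = x (pt g l) := by unfold mix; rw [if_pos hK]
        have e2 : mix K (ext' N s y) a (pt g l) = vv N (y ⟨pt g l, hls⟩) := by
          unfold mix
          rw [if_pos hK]
          unfold ext'
          rw [dif_pos hls]
        rw [e1, e2, if_pos hK]
        by_cases hd : dd N (x (pt g l)) = y ⟨pt g l, hls⟩
        · rw [if_neg (not_not.2 hd), ← hd]
          have := le_vv hN (hx _ hls).2
          linarith
        · rw [if_pos hd]
          have := vv_nonneg N (y ⟨pt g l, hls⟩)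
          linarith
      · have e1 : mix K x a (pt g l) = a (pt g l) := by unfold mix; rw [if_neg hK]
        have e2 : mix K (ext' N s y) a (pt g l) = a (pt g l) := by
          unfold mix
          rw [if_neg hK]
        rw [e1, e2, if_neg hK]
        linarith
    rw [sum_add_distrib, sum_const, Int.card_Icc, nsmul_eq_mul] at b3
    have hcard : (((lev v + 1 - lev u).toNat : ℕ) : ℝ) = ((lev v - lev u : ℤ) : ℝ) + 1 := by
      have h1 : ((lev v + 1 - lev u).toNat : ℤ) = lev v + 1 - lev u :=
        Int.toNat_of_nonneg (by have := lev_le_lev h; omega)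
      have h2 : (((lev v + 1 - lev u).toNat : ℕ) : ℝ) = ((lev v + 1 - lev u : ℤ) : ℝ) := by
        exact_mod_cast h1
      rw [h2]
      push_cast
      ring
    rw [hcard] at b3
    have b4 := cp_sum hg hgu hgv (fun i => if h : i ∈ s then
          (if i ∈ K then (if dd N (x i) ≠ y ⟨i, h⟩ then x i else 0) else 0) else 0)
    rw [← b4] at b3
    have e5 : (∑ i : s, if (fun i : s => dd N (x i)) i ≠ y i then
        (if pt g (lev i.1) = i.1 then (if i.1 ∈ K then x i.1 / √q else 0) else 0) else 0) =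
        (∑ i ∈ s, if pt g (lev i) = i then (if h : i ∈ s then
          (if i ∈ K then (if dd N (x i) ≠ y ⟨i, h⟩ then x i else 0) else 0) else 0) else 0) / √q := by
      rw [sum_div, ← sum_coe_sort s]
      refine sum_congr rfl fun i _ => ?_
      rw [dif_pos i.2]
      by_cases h1 : dd N (x i.1) = y i
      · have h1' : ¬ (dd N (x i.1) ≠ y ⟨i.1, i.2⟩) := not_not.2 h1
        rw [if_neg (not_not.2 h1), if_neg h1']
        simp
      · have h1' : dd N (x i.1) ≠ y ⟨i.1, i.2⟩ := h1
        rw [if_pos h1, if_pos h1']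
        split_ifs <;> simp
    rw [e5]
    refine (div_le_div_iff_of_pos_right hsq).2 (max_le ?_ ?_)
    · have : ((lev v - lev u : ℤ) + 1 : ℝ) * (1 / N) = ((lev v - lev u : ℤ) + 1) / N := by ring
      rw [this] at b3
      linarith
    · refine sum_nonneg fun i hi => ?_
      split_ifs
      · exact (hx i hi).1
      · exact le_rfl
      · exact le_rfl
      · exact le_rfl

theorem conc_pair (K : Set (ℤ × ℤ)) (a : ℤ × ℤ → ℝ) (ha : ∀ z, 0 ≤ a z) {u v : ℤ × ℤ}
    (h : u ≤ v) {M z q : ℝ} (hz : 0 ≤ z) (hq : 0 < q) :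
    PG.real {x | T (mix K x a) u v ≤ M} *
      PG.real {x | M + z ≤ T (mix K x a) u v ∧ QV (mix K x a) K u v ≤ q} ≤
      Real.exp (-(z ^ 2 / (4 * q))) := by
  set A : Set (ℤ × ℤ → ℝ) := {x | T (mix K x a) u v ≤ M} with hA
  set B : Set (ℤ × ℤ → ℝ) := {x | M + z ≤ T (mix K x a) u v ∧ QV (mix K x a) K u v ≤ q} with hB
  set S : ℕ → Set (ℤ × ℤ → ℝ) := fun N => {x | (∀ i ∈ Icc u v, x i < N) ∧
        (M + z ≤ T (mix K x a) u v ∧ QV (mix K x a) K u v ≤ q)} with hS
  have hmono : Monotone S := by
    intro N N' hNN x hx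
    refine ⟨fun i hi => lt_of_lt_of_le (hx.1 i hi) (by exact_mod_cast hNN), hx.2⟩
  have hU : (⋃ N, S N) = B := by
    ext x
    simp only [Set.mem_iUnion]
    constructor
    · rintro ⟨N, hN⟩
      exact hN.2
    · intro hx
      obtain ⟨N, hN⟩ := exists_nat_gt (∑ i ∈ Icc u v, |x i|)
      refine ⟨N, fun i hi => lt_of_le_of_lt ?_ hN, hx⟩
      exact (le_abs_self _).trans (single_le_sum (f := fun i => |x i|)
        (fun i _ => abs_nonneg _) hi)
  have hlim1 : Filter.Tendsto (fun N => PG.real (S N)) Filter.atTop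
      (nhds (PG.real B)) := by
    have := tendsto_measure_iUnion_atTop (μ := PG) hmono
    rw [hU] at this
    exact (ENNReal.tendsto_toReal (measure_ne_top _ _)).comp this
  have hlim2 := hlim1.const_mul (PG.real A)
  have hlim3 : Filter.Tendsto (fun N : ℕ =>
      Real.exp (-((max (z - ((lev v - lev u : ℤ) + 1) / (N : ℝ)) 0 / √q) ^ 2 / 4)))
      Filter.atTop (nhds (Real.exp (-((max (z - 0) 0 / √q) ^ 2 / 4)))) := by
    have h1 : Filter.Tendsto (fun N : ℕ => (((lev v - lev u : ℤ) : ℝ) + 1) / (N : ℝ))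
        Filter.atTop (nhds 0) := tendsto_const_div_atTop_nhds_zero_nat _
    have h2 : Continuous fun t : ℝ => Real.exp (-((max (z - t) 0 / √q) ^ 2 / 4)) := by
      fun_prop
    exact (h2.tendsto 0).comp h1
  have e : Real.exp (-((max (z - 0) 0 / √q) ^ 2 / 4)) = Real.exp (-(z ^ 2 / (4 * q))) := by
    rw [sub_zero, max_eq_left hz, div_pow, Real.sq_sqrt hq.le]
    congr 2
    field_simp
  rw [e] at hlim3
  refine le_of_tendsto_of_tendsto hlim2 hlim3 ?_
  filter_upwards [Filter.eventually_gt_atTop 0] with N hN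
  exact cp_fixed K a h hq hN

end BGG
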