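import Pool.Agent.BGG.TSMain
import Pool.Agent.BGG.Prod
import Pool.Agent.BGE.Coup

/-!
BGG / S3. The two-slope coupling around the profiles. Adaptation of `Pool/Agent/BGE/Coup.lean`
without the scalings; `dT` is the one of BGE, the deterministic theorem `exit_det` of BGE is used
without change. The rates are `α = rA σ B Y n`, `β = rB σ B Y n`; the input noise has the law
`muBN α β`, the output `φ (ω, b) = (ap, bp, am, bm, K)` the law `muCN α β`.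
-/

namespace BGG

open MeasureTheory ProbabilityTheory BGE

variable [GeoPar]

/-- re-indexing to the right of `i0` -/
private def cpF (i0 I : ℕ) (u : ℕ) : ℕ := if 1 ≤ u ∧ u ≤ I then i0 + u else i0 + I + 1 + 2 * u

/-- re-indexing to the left of `i0` -/
private def cpG (i0 I : ℕ) (u : ℕ) : ℕ :=
  if 1 ≤ u ∧ u ≤ I then i0 + 1 - u else i0 + I + 2 + 2 * u

omit [GeoPar] in
private theorem cpF_inj (i0 I : ℕ) {u v : ℕ} (h : cpF i0 I u = cpF i0 I v) : u = v := by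
  unfold cpF at h
  split_ifs at h <;> omega

omit [GeoPar] in
private theorem cpG_inj {i0 I : ℕ} (h0 : I ≤ i0) {u v : ℕ} (h : cpG i0 I u = cpG i0 I v) :
    u = v := by
  unfold cpG at h
  split_ifs at h <;> omega

omit [GeoPar] in
private theorem cpFG {i0 I : ℕ} (h0 : I ≤ i0) (u v : ℕ) : cpF i0 I u ≠ cpG i0 I v := by
  unfold cpF cpG
  intro h
  split_ifs at h <;> omega

omit [GeoPar] in
private theorem cp_inf {B : Type*} {μ ν : B → Measure ℝ} [∀ i, IsProbabilityMeasure (μ i)]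
    [∀ i, IsProbabilityMeasure (ν i)] (h : μ = ν) :
    Measure.infinitePi μ = Measure.infinitePi ν := by
  subst h
  rfl

omit [GeoPar] in
private theorem cp_pair (μ : Measure ℝ) [IsProbabilityMeasure μ] {F G : ℕ → ℕ}
    (hF : Function.Injective F) (hG : Function.Injective G) (hFG : ∀ u v, F u ≠ G v) :
    MeasurePreserving (fun x : ℕ → ℝ => ((fun u => x (F u), fun u => x (G u)) :
      (ℕ → ℝ) × (ℕ → ℝ))) (Measure.infinitePi fun _ : ℕ => μ)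
      ((Measure.infinitePi fun _ : ℕ => μ).prod (Measure.infinitePi fun _ : ℕ => μ)) := by
  have hi : ∀ l : ℕ ⊕ ℕ, IsProbabilityMeasure
      (Sum.elim (fun _ : ℕ => μ) (fun _ : ℕ => μ) l) := by
    rintro (l | l) <;> simp only [Sum.elim_inl, Sum.elim_inr] <;> infer_instance
  have h1 := sub_mp' (fun _ : ℕ => μ) (Sum.elim F G) (by
    rintro (u | u) (v | v) h <;> simp only [Sum.elim_inl, Sum.elim_inr] at h
    · rw [hF h]
    · exact (hFG _ _ h).elim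
    · exact (hFG _ _ h.symm).elim
    · rw [hG h])
  have h2 := split_mp (fun _ : ℕ => μ) (fun _ : ℕ => μ)
  have e : (Sum.elim (fun _ : ℕ => μ) (fun _ : ℕ => μ)) = fun _ : ℕ ⊕ ℕ => μ := by
    funext l
    rcases l with l | l <;> rfl
  rw [cp_inf e] at h2
  exact h2.comp h1

omit [GeoPar] in
private theorem cp_swap {X Y Z : Type*} [MeasurableSpace X] [MeasurableSpace Y]
    [MeasurableSpace Z] (μ : Measure X) (ν : Measure Y) (τ : Measure Z) [IsProbabilityMeasure μ]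
    [IsProbabilityMeasure ν] [IsProbabilityMeasure τ] :
    MeasurePreserving (fun y : X × Y × Z => ((y.2.1, y.1, y.2.2) : Y × X × Z))
      (μ.prod (ν.prod τ)) (ν.prod (μ.prod τ)) :=
  ((measurePreserving_prodAssoc ν μ τ).comp
    ((Measure.measurePreserving_swap (μ := μ) (ν := ν)).prod (MeasurePreserving.id τ))).comp
    (measurePreserving_prodAssoc μ ν τ).symm

private theorem cp_mp (α β : ℝ) {i0 I : ℕ} (h0 : I ≤ i0) : MeasurePreserving
    (fun y : (ℕ → ℝ) × (ℕ → ℝ) × ℝ => ((fun u => y.1 (cpF i0 I u), fun u => y.2.1 (cpF i0 I u),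
      fun u => y.1 (cpG i0 I u), fun u => y.2.1 (cpG i0 I u), y.2.2) : BN))
    ((bI α).prod ((bI β).prod (KG α β))) (muCN α β) := by
  have hp : ∀ ρ : ℝ, MeasurePreserving
      (fun x : ℕ → ℝ => ((fun u => x (cpF i0 I u), fun u => x (cpG i0 I u)) :
        (ℕ → ℝ) × (ℕ → ℝ))) (bI ρ) ((bI ρ).prod (bI ρ)) := fun ρ =>
    cp_pair (bE ρ) (fun u v h => cpF_inj _ _ h) (fun u v h => cpG_inj h0 h) (cpFG h0)
  have h1 := (hp α).prod ((hp β).prod (MeasurePreserving.id (KG α β)))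
  have h2 := (MeasurePreserving.id ((bI α).prod (bI α))).prod
    (measurePreserving_prodAssoc (bI β) (bI β) (KG α β))
  have h3 := measurePreserving_prodAssoc (bI α) (bI α) ((bI β).prod ((bI β).prod (KG α β)))
  have h4 := (MeasurePreserving.id (bI α)).prod
    (cp_swap (bI α) (bI β) ((bI β).prod (KG α β)))
  exact ((h4.comp h3).comp h2).comp h1

private theorem cp_tsx (σ A α β : ℝ) (n : ℕ) : MeasurePreserving
    (fun y : (ℤ × ℤ → ℝ) × BN => tsx σ A n y.1 y.2) (PG.prod (muBN α β)) (muTS α β) :=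
  (mp_tr (cor σ A n)).prod (MeasurePreserving.id (muBN α β))

omit [GeoPar] in
private theorem cp_bfield (ω : ℤ × ℤ → ℝ) (S W : ℕ → ℝ) (c : ℤ × ℤ) :
    bfield (fun z => ω (z + c)) S W 0 = fun z => bfield ω S W c (z + c) := by
  funext z
  unfold bfield
  have e1 : ((z + c).2 = c.2) = (z.2 = (0 : ℤ × ℤ).2) := by
    apply propext
    rw [Prod.snd_add, Prod.snd_zero]
    constructor <;> intro h <;> omega
  have e2 : ((z + c).1 = c.1) = (z.1 = (0 : ℤ × ℤ).1) := by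
    apply propext
    rw [Prod.fst_add, Prod.fst_zero]
    constructor <;> intro h <;> omega
  have e3 : ((z + c).1 - c.1).toNat = (z.1 - (0 : ℤ × ℤ).1).toNat := by
    rw [Prod.fst_add, Prod.fst_zero]
    congr 1
    ring
  have e4 : ((z + c).2 - c.2).toNat = (z.2 - (0 : ℤ × ℤ).2).toNat := by
    rw [Prod.snd_add, Prod.snd_zero]
    congr 1
    ring
  simp only [e1, e2, e3, e4]

omit [GeoPar] in
private theorem cp_L (ω : ℤ × ℤ → ℝ) (S W : ℕ → ℝ) (c v : ℤ × ℤ) :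
    T (bfield (fun z => ω (z + c)) S W 0) 0 v = T (bfield ω S W c) c (v + c) := by
  rw [cp_bfield, T_translate, zero_add]

omit [GeoPar] in
private theorem cp_par {κ B C0 σ lam Y g0 : ℝ} {n : ℕ} (hκ : 0 < κ) (hB : 1 ≤ B) (hC : 1 ≤ C0)
    (hC' : (8 * B / κ) ^ 3 ≤ C0) (hP : Par C0 κ σ lam Y g0 n) :
    0 < rB σ B Y n ∧ rB σ B Y n < rA σ B Y n ∧ rA σ B Y n < 1 ∧
      (n : ℝ) ^ (2 / 3 : ℝ) ≤ κ * n := by
  obtain ⟨h1, h2, h3, h4, h5, h6⟩ := hP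
  have hn0 : (0 : ℝ) ≤ n := Nat.cast_nonneg n
  have hlam : 1 / 2 ≤ lam := by linarith
  have hY : 0 < Y := by linarith
  have hκ1 : κ ≤ 1 / 2 := by linarith
  have hσ0 : 0 < σ := by linarith
  have hσ1 : 0 < 1 - σ := by linarith
  obtain ⟨t, ht⟩ : ∃ t : ℝ, t = (n : ℝ) ^ (1 / 3 : ℝ) := ⟨_, rfl⟩
  have ht0 : 0 ≤ t := by rw [ht]; exact Real.rpow_nonneg hn0 _
  have ht3 : t ^ 3 = n := by
    rw [ht, ← Real.rpow_natCast, ← Real.rpow_mul hn0]
    norm_num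
  have ht2 : (n : ℝ) ^ (2 / 3 : ℝ) = t ^ 2 := by
    rw [ht, ← Real.rpow_natCast, ← Real.rpow_mul hn0]
    norm_num
  have hM0 : 0 < 8 * B / κ := by positivity
  have h7 : (8 * B / κ * lam) ^ 3 ≤ t ^ 3 := by
    rw [ht3, mul_pow]
    have h8 : (8 * B / κ) ^ 3 * lam ^ 3 ≤ C0 * lam ^ 3 :=
      mul_le_mul_of_nonneg_right hC' (by positivity)
    linarith
  have h8 : 8 * B / κ * lam ≤ t := le_of_pow_le_pow_left₀ (by norm_num) ht0 h7
  have ht1 : 0 < t := lt_of_lt_of_le (by positivity) h8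
  have h9 : 8 * B * lam ≤ κ * t := by
    have := mul_le_mul_of_nonneg_left h8 hκ.le
    have e : κ * (8 * B / κ * lam) = 8 * B * lam := by field_simp
    linarith
  have h10 : B * Y / t ≤ κ / 4 := by
    rw [div_le_iff₀ ht1]
    nlinarith
  have h11 : 0 < B * Y / t := by positivity
  -- the critical rate
  have hs1 : κ ≤ √σ := by
    apply Real.le_sqrt_of_sq_le
    nlinarith
  have hs2 : κ ≤ √(1 - σ) := by
    apply Real.le_sqrt_of_sq_le
    nlinarith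
  have hs3 : √σ ≤ 1 := by
    rw [Real.sqrt_le_one]
    linarith
  have hs4 : √(1 - σ) ≤ 1 := by
    rw [Real.sqrt_le_one]
    linarith
  have hs5 : 0 < √σ + √(1 - σ) := by linarith
  have ha1 : κ / 2 ≤ alc σ := by
    unfold alc
    rw [le_div_iff₀ hs5]
    nlinarith
  have ha2 : alc σ ≤ 1 - κ / 2 := by
    unfold alc
    rw [div_le_iff₀ hs5]
    nlinarith
  unfold rA rB
  rw [← ht, ht2, ← ht3]
  refine ⟨by linarith, by linarith, by linarith, ?_⟩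
  have h12 : 1 ≤ κ * t := by nlinarith
  nlinarith [sq_nonneg t]

omit [GeoPar] in
private theorem cp_sum (i0 j : ℕ) (F : ℕ → ℝ) :
    ∑ u ∈ Finset.Ioc i0 (i0 + j), F u = ∑ u ∈ Finset.Icc 1 j, F (i0 + u) := by
  symm
  apply Finset.sum_bij (fun u _ => i0 + u)
  · intro a ha
    rw [Finset.mem_Icc] at ha
    rw [Finset.mem_Ioc]
    omega
  · intro a _ b _ h
    omega
  · intro b hb
    rw [Finset.mem_Ioc] at hb
    exact ⟨b - i0, by rw [Finset.mem_Icc]; omega, by omega⟩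
  · intro a _
    rfl

omit [GeoPar] in
private theorem cp_sum' (i0 j : ℕ) (F : ℕ → ℝ) :
    ∑ u ∈ Finset.Ioo i0 (i0 + j), F u = ∑ u ∈ Finset.Ico 1 j, F (i0 + u) := by
  symm
  apply Finset.sum_bij (fun u _ => i0 + u)
  · intro a ha
    rw [Finset.mem_Ico] at ha
    rw [Finset.mem_Ioo]
    omega
  · intro a _ b _ h
    omega
  · intro b hb
    rw [Finset.mem_Ioo] at hb
    exact ⟨b - i0, by rw [Finset.mem_Ico]; omega, by omega⟩
  · intro a _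
    rfl

omit [GeoPar] in
private theorem cp_sum2 {i0 j : ℕ} (hj : j ≤ i0) (F : ℕ → ℝ) :
    ∑ u ∈ Finset.Icc (i0 + 1 - j) i0, F u = ∑ u ∈ Finset.Icc 1 j, F (i0 + 1 - u) := by
  symm
  apply Finset.sum_bij (fun u _ => i0 + 1 - u)
  · intro a ha
    rw [Finset.mem_Icc] at ha
    rw [Finset.mem_Icc]
    omega
  · intro a ha b hb h
    rw [Finset.mem_Icc] at ha hb
    omega
  · intro b hb
    rw [Finset.mem_Icc] at hb
    exact ⟨i0 + 1 - b, by rw [Finset.mem_Icc]; omega, by omega⟩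
  · intro a _
    rfl

omit [GeoPar] in
private theorem cp_sum2' {i0 j : ℕ} (hj : j ≤ i0) (F : ℕ → ℝ) :
    ∑ u ∈ Finset.Ioc (i0 + 1 - j) i0, F u = ∑ u ∈ Finset.Ico 1 j, F (i0 + 1 - u) := by
  symm
  apply Finset.sum_bij (fun u _ => i0 + 1 - u)
  · intro a ha
    rw [Finset.mem_Ico] at ha
    rw [Finset.mem_Ioc]
    omega
  · intro a ha b hb h
    rw [Finset.mem_Ico] at ha hb
    omega
  · intro b hb
    rw [Finset.mem_Ioc] at hb
    exact ⟨i0 + 1 - b, by rw [Finset.mem_Ico]; omega, by omega⟩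
  · intro a _
    rfl

theorem coup {κ : ℝ} (hκ : 0 < κ) : ∃ B : ℝ, 1 ≤ B ∧ ∃ C0 : ℝ, 1 ≤ C0 ∧
    ∀ (σ lam Y g0 A : ℝ) (n I : ℕ), Par C0 κ σ lam Y g0 n → 1 ≤ A →
    A ≤ 4 * Y * (n : ℝ) ^ (2 / 3 : ℝ) → (I : ℝ) + 1 ≤ (n : ℝ) ^ (2 / 3 : ℝ) →
    ∃ φ : (ℤ × ℤ → ℝ) × BN → BN,
      MeasurePreserving φ (PG.prod (muBN (rA σ B Y n) (rB σ B Y n)))
        (muCN (rA σ B Y n) (rB σ B Y n)) ∧
      ∀ (ω ω' : ℤ × ℤ → ℝ) (b : BN), (∀ z, 0 ≤ ω z) → (∀ z : ℤ × ℤ, z.2 ≤ 0 → ω' z = ω z) →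
      GoodE κ σ lam Y g0 (2 * n) ω' → WG σ B Y n b →
      (∀ i : ℕ, 1 ≤ i → i ≤ I → (φ (ω, b)).1 i ≤ dT ω (PLp σ A n) i) ∧
      (∀ i : ℕ, 1 ≤ i → i ≤ I →
        dT ω (PRp σ A n) (1 - i) ≤ (φ (ω, b)).2.2.2.1 i) ∧
      (∀ u : ℤ, |u| ≤ I → dT ω (PLp σ A n) u ≤ dT ω (PRp σ A n) u) ∧
      (∀ k : ℕ, k ≤ I →
        (∀ j : ℕ, 1 ≤ j → j ≤ k → (∑ u ∈ Finset.Icc 1 j, (φ (ω, b)).2.1 u) -
          (∑ u ∈ Finset.Ico 1 j, (φ (ω, b)).1 u) ≤ (φ (ω, b)).2.2.2.2) →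
        ∀ i : ℕ, 1 ≤ i → i ≤ k → dT ω (PLp σ A n) i = (φ (ω, b)).1 i ∧
          dT ω (PRp σ A n) i = (φ (ω, b)).1 i) ∧
      (∀ k : ℕ, k ≤ I →
        (∀ j : ℕ, 1 ≤ j → j ≤ k → (∑ u ∈ Finset.Icc 1 j, (φ (ω, b)).2.2.2.1 u) -
          (∑ u ∈ Finset.Ico 1 j, (φ (ω, b)).2.2.1 u) ≤ (φ (ω, b)).2.2.2.2) →
        ∀ i : ℕ, 1 ≤ i → i ≤ k →
          dT ω (PLp σ A n) (1 - i) = (φ (ω, b)).2.2.2.1 i ∧
          dT ω (PRp σ A n) (1 - i) = (φ (ω, b)).2.2.2.1 i) := by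
  obtain ⟨B, hB1, hB⟩ := exit_det hκ
  obtain ⟨C1, hC1, hE⟩ := hB B le_rfl
  refine ⟨B, hB1, max C1 ((8 * B / κ) ^ 3), le_max_of_le_left hC1, ?_⟩
  intro σ lam Y g0 A n I hP hA1 hA hI
  obtain ⟨hβ, hαβ, hα, hn⟩ := cp_par hκ hB1 (le_max_of_le_left hC1) (le_max_right _ _) hP
  have hP1 : Par C1 κ σ lam Y g0 n := by
    obtain ⟨h1, h2, h3, h4, h5, h6⟩ := hP
    refine ⟨h1, h2, (le_max_left _ _).trans h3, h4, ?_, h6⟩
    have hl : 0 ≤ lam := by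
      have := (le_max_left C1 ((8 * B / κ) ^ 3)).trans h3
      linarith
    exact (mul_le_mul_of_nonneg_right (le_max_left _ _) (by positivity)).trans h5
  have hσ : κ ≤ σ := hP.1
  -- geometry
  obtain ⟨c, hc⟩ : ∃ c, c = cor σ A n := ⟨_, rfl⟩
  obtain ⟨p, hp⟩ : ∃ p, p = PLp σ A n := ⟨_, rfl⟩
  obtain ⟨q, hq⟩ : ∃ q, q = PRp σ A n := ⟨_, rfl⟩
  have hc1 : c.1 = p.1 - 1 := by rw [hc, hp]; rfl
  have hc2 : c.2 = q.2 - 1 := by rw [hc, hq]; rfl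
  have hp2 : p.2 = -(n : ℤ) - p.1 := by rw [hp]; rfl
  have hq2 : q.2 = -(n : ℤ) - q.1 := by rw [hq]; rfl
  have hp1 : (p.1 : ℝ) ≤ -(σ * ((n : ℝ) + 1 / 2)) - A := by
    rw [hp]
    exact Int.floor_le _
  have hq1 : -(σ * ((n : ℝ) + 1 / 2)) + A ≤ (q.1 : ℝ) := by
    rw [hq]
    exact Int.le_ceil _
  have hpq : p.1 < q.1 := by
    have : (p.1 : ℝ) < q.1 := by linarith
    exact_mod_cast this
  have hcI : c.1 ≤ -(I : ℤ) - 2 := by
    have h1 : (p.1 : ℝ) ≤ -(I : ℝ) - 1 := by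
      have h2 : κ * n ≤ σ * n := mul_le_mul_of_nonneg_right hσ (Nat.cast_nonneg n)
      have h3 : 0 < σ := by linarith
      linarith
    have h2 : p.1 ≤ -(I : ℤ) - 1 := by exact_mod_cast h1
    omega
  obtain ⟨i0, hi0⟩ : ∃ i0 : ℕ, (i0 : ℤ) = -c.1 := ⟨(-c.1).toNat, by omega⟩
  have hIi : I ≤ i0 := by omega
  obtain ⟨Ψ, hΨ, hts⟩ := ts_main hβ hαβ hα (-c.2).toNat i0
  refine ⟨fun y => ((fun u => (Ψ (tsx σ A n y.1 y.2)).1 (cpF i0 I u),
    fun u => (Ψ (tsx σ A n y.1 y.2)).2.1 (cpF i0 I u),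
    fun u => (Ψ (tsx σ A n y.1 y.2)).1 (cpG i0 I u),
    fun u => (Ψ (tsx σ A n y.1 y.2)).2.1 (cpG i0 I u), (Ψ (tsx σ A n y.1 y.2)).2.2) : BN),
    ((cp_mp _ _ hIi).comp hΨ).comp (cp_tsx σ A _ _ n), ?_⟩
  intro ω ω' b hω hωω hG hW
  obtain ⟨x, hx⟩ : ∃ x, x = tsx σ A n ω b := ⟨_, rfl⟩
  simp only [← hx, ← hp, ← hq]
  obtain ⟨hW0, hW1, hW2, hW3, hW4⟩ := hW
  have hxnn : TSnn x := by
    rw [hx]
    exact ⟨fun v => hω _, hW0.2⟩
  obtain ⟨ha, hb, -, hd, he⟩ := hts x hxnn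
  -- the two exits
  have hE1 := (hE σ lam Y g0 A n ω' hP1 hG hA1 hA (s1 x) (w1 x) (I : ℤ) (by
    rw [Int.cast_natCast, abs_of_nonneg (Nat.cast_nonneg I)]
    linarith)).1
  have hE2 := (hE σ lam Y g0 A n ω' hP1 hG hA1 hA (s2 x) (w2 x) (-(I : ℤ) - 1) (by
    push_cast
    rw [abs_le]
    have : (0 : ℝ) ≤ I := Nat.cast_nonneg I
    constructor <;> linarith)).2
  rw [← hp, ← hc] at hE1
  rw [← hq, ← hc] at hE2
  obtain ⟨h, hh1, hh2, hh3⟩ := hE1 (by rw [hx]; exact hW1) (by rw [hx]; exact hW2)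
  obtain ⟨k, hk1, hk2, hk3⟩ := hE2 (by rw [hx]; exact hW3) (by rw [hx]; exact hW4)
  have hN : (((-c.2).toNat : ℕ) : ℤ) = -c.2 := by omega
  have hcI0 : c ≤ ((I : ℤ), (0 : ℤ)) := ⟨by show c.1 ≤ (I : ℤ); omega, by show c.2 ≤ 0; omega⟩
  have hcI1 : c ≤ (-(I : ℤ) - 1, (0 : ℤ)) :=
    ⟨by show c.1 ≤ -(I : ℤ) - 1; omega, by show c.2 ≤ 0; omega⟩
  have hbf : ∀ (S W : ℕ → ℝ) (z : ℤ × ℤ), z.2 ≤ 0 → bfield ω' S W c z = bfield ω S W c z := by
    intro S W z hz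
    unfold bfield
    rw [hωω z hz]
  have hx1 : x.1 = fun z => ω (z + c) := by rw [hx, hc]; rfl
  have hL1 : ∀ v, L1 x v = T (bfield ω (s1 x) (w1 x) c) c (v + c) := by
    intro v
    unfold L1
    rw [hx1, cp_L]
  have hL2 : ∀ v, L2 x v = T (bfield ω (s2 x) (w2 x) c) c (v + c) := by
    intro v
    unfold L2
    rw [hx1, cp_L]
  have hh4 : T (bfield ω (s1 x) (w1 x) c) c ((I : ℤ), 0) =
      (∑ j ∈ Finset.Icc 1 h, w1 x j) + T ω (c.1 + 1, c.2 + (h : ℤ)) ((I : ℤ), 0) := by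
    rw [T_congr hcI0 (fun z _ hz' => (hbf (s1 x) (w1 x) z hz'.2).symm), hh3,
      T_congr (ω := ω') (ω' := ω) (u := (c.1 + 1, c.2 + (h : ℤ))) (v := ((I : ℤ), 0))
        ⟨by show c.1 + 1 ≤ (I : ℤ); omega, hh2⟩ (fun z _ hz' => hωω z hz'.2)]
  have hk4 : T (bfield ω (s2 x) (w2 x) c) c (-(I : ℤ) - 1, 0) =
      (∑ j ∈ Finset.Icc 1 k, s2 x j) + T ω (c.1 + (k : ℤ), c.2 + 1) (-(I : ℤ) - 1, 0) := by
    rw [T_congr hcI1 (fun z _ hz' => (hbf (s2 x) (w2 x) z hz'.2).symm), hk3,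
      T_congr (ω := ω') (ω' := ω) (u := (c.1 + (k : ℤ), c.2 + 1)) (v := (-(I : ℤ) - 1, 0))
        ⟨hk2, by show c.2 + 1 ≤ 0; omega⟩ (fun z _ hz' => hωω z hz'.2)]
  have key : ∀ u : ℤ, |u| ≤ I → ∀ i : ℕ, (i : ℤ) = i0 + u →
      L1 x ((i : ℤ), ((-c.2).toNat : ℤ)) - L1 x ((i : ℤ) - 1, ((-c.2).toNat : ℤ)) ≤
        dT ω p u ∧ dT ω p u ≤ dT ω q u ∧
      dT ω q u ≤
        L2 x ((i : ℤ), ((-c.2).toNat : ℤ)) - L2 x ((i : ℤ) - 1, ((-c.2).toNat : ℤ)) := by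
    intro u hu i hi
    rw [abs_le] at hu
    have e1 : (((i : ℤ), ((-c.2).toNat : ℤ)) : ℤ × ℤ) + c = (u, 0) := by
      ext
      · show (i : ℤ) + c.1 = u
        omega
      · show ((-c.2).toNat : ℤ) + c.2 = 0
        omega
    have e2 : (((i : ℤ) - 1, ((-c.2).toNat : ℤ)) : ℤ × ℤ) + c = (u - 1, 0) := by
      ext
      · show (i : ℤ) - 1 + c.1 = u - 1
        omega
      · show ((-c.2).toNat : ℤ) + c.2 = 0
        omega
    rw [hL1, hL1, hL2, hL2, e1, e2]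
    refine ⟨?_, ?_, ?_⟩
    · have h5 := incr_exitW (ω := ω) (S := s1 x) (W := w1 x) (c := c) (v0 := ((I : ℤ), 0))
        (v1 := (u - 1, 0)) (v2 := (u, 0)) (h0 := (p.2 - c.2).toNat) (h := h) (by omega) (by omega)
        (by show c.1 < u - 1; omega) (by show c.2 + (h : ℤ) ≤ 0; omega) hh4
        (by show u - 1 ≤ u; omega) le_rfl hu.2 le_rfl
      have e3 : ((c.1 + 1, c.2 + ((p.2 - c.2).toNat : ℤ)) : ℤ × ℤ) = p := by
        ext
        · show c.1 + 1 = p.1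
          omega
        · show c.2 + ((p.2 - c.2).toNat : ℤ) = p.2
          omega
      rw [e3] at h5
      exact h5
    · exact incr_mono (ω := ω) (q := p) (q' := q) (v1 := (u - 1, 0)) (v2 := (u, 0)) hpq.le
        (by omega) (by show u - 1 ≤ u; omega) le_rfl
        ⟨by show p.1 ≤ u; omega, by show p.2 ≤ 0; omega⟩
        ⟨by show q.1 ≤ u - 1; omega, by show q.2 ≤ 0; omega⟩
    · have h5 := incr_exitS (ω := ω) (S := s2 x) (W := w2 x) (c := c)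
        (v0 := (-(I : ℤ) - 1, 0))
        (v1 := (u - 1, 0)) (v2 := (u, 0)) (k0 := (q.1 - c.1).toNat) (k := k) (by omega) (by omega)
        (by show c.2 < 0; omega) hk2 hk4
        (by show -(I : ℤ) - 1 ≤ u - 1; omega) le_rfl (by show u - 1 ≤ u; omega) le_rfl
      have e3 : ((c.1 + ((q.1 - c.1).toNat : ℤ), c.2 + 1) : ℤ × ℤ) = q := by
        ext
        · show c.1 + ((q.1 - c.1).toNat : ℤ) = q.1
          omega
        · show c.2 + 1 = q.2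
          omega
      rw [e3] at h5
      exact h5
  have hF : ∀ i : ℕ, 1 ≤ i → i ≤ I → cpF i0 I i = i0 + i := by
    intro i h1 h2
    unfold cpF
    rw [if_pos ⟨h1, h2⟩]
  have hG' : ∀ i : ℕ, 1 ≤ i → i ≤ I → cpG i0 I i = i0 + 1 - i := by
    intro i h1 h2
    unfold cpG
    rw [if_pos ⟨h1, h2⟩]
  refine ⟨?_, ?_, ?_, ?_, ?_⟩
  · intro i h1 h2
    rw [hF i h1 h2, ← ha (i0 + i) (by omega)]
    exact (key (i : ℤ) (by rw [abs_of_nonneg] <;> omega) (i0 + i) (by push_cast; ring)).1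
  · intro i h1 h2
    rw [hG' i h1 h2, ← hb (i0 + 1 - i) (by omega) (by omega)]
    exact (key (1 - (i : ℤ)) (by rw [abs_le]; constructor <;> omega) (i0 + 1 - i) (by omega)).2.2
  · intro u hu
    exact (key u hu (i0 + u).toNat (by rw [abs_le] at hu; omega)).2.1
  · intro k hk hyp i h1 h2
    have h3 := hd (i0 + k) (by omega) (by
      intro j hj1 hj2
      obtain ⟨j', rfl⟩ : ∃ j', j = i0 + j' := ⟨j - i0, by omega⟩
      have h4 := hyp j' (by omega) (by omega)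
      rw [cp_sum, cp_sum']
      have e1 : ∑ u ∈ Finset.Icc 1 j', (Ψ x).2.1 (cpF i0 I u) =
          ∑ u ∈ Finset.Icc 1 j', (Ψ x).2.1 (i0 + u) := by
        refine Finset.sum_congr rfl fun u hu => ?_
        rw [Finset.mem_Icc] at hu
        rw [hF u hu.1 (by omega)]
      have e2 : ∑ u ∈ Finset.Ico 1 j', (Ψ x).1 (cpF i0 I u) =
          ∑ u ∈ Finset.Ico 1 j', (Ψ x).1 (i0 + u) := by
        refine Finset.sum_congr rfl fun u hu => ?_
        rw [Finset.mem_Ico] at hu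
        rw [hF u hu.1 (by omega)]
      rw [← e1, ← e2]
      exact h4) (i0 + i) (by omega) (by omega)
    have h4 := ha (i0 + i) (by omega)
    have h5 := key (i : ℤ) (by rw [abs_of_nonneg] <;> omega) (i0 + i) (by push_cast; ring)
    rw [h3, h4] at h5
    rw [hF i h1 (by omega)]
    exact ⟨le_antisymm (h5.2.1.trans h5.2.2) h5.1, le_antisymm h5.2.2 (h5.1.trans h5.2.1)⟩
  · intro k hk hyp i h1 h2
    have h3 := he (i0 - k) (by omega) (by
      intro j hj1 hj2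
      obtain ⟨j', hj', rfl⟩ : ∃ j', j' ≤ i0 ∧ j = i0 + 1 - j' := ⟨i0 + 1 - j, by omega, by omega⟩
      have h4 := hyp j' (by omega) (by omega)
      rw [cp_sum2 hj', cp_sum2' hj']
      have e1 : ∑ u ∈ Finset.Icc 1 j', (Ψ x).2.1 (cpG i0 I u) =
          ∑ u ∈ Finset.Icc 1 j', (Ψ x).2.1 (i0 + 1 - u) := by
        refine Finset.sum_congr rfl fun u hu => ?_
        rw [Finset.mem_Icc] at hu
        rw [hG' u hu.1 (by omega)]
      have e2 : ∑ u ∈ Finset.Ico 1 j', (Ψ x).1 (cpG i0 I u) =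
          ∑ u ∈ Finset.Ico 1 j', (Ψ x).1 (i0 + 1 - u) := by
        refine Finset.sum_congr rfl fun u hu => ?_
        rw [Finset.mem_Ico] at hu
        rw [hG' u hu.1 (by omega)]
      rw [← e1, ← e2]
      exact h4) (i0 + 1 - i) (by omega) (by omega)
    have h4 := hb (i0 + 1 - i) (by omega) (by omega)
    have h5 := key (1 - (i : ℤ)) (by rw [abs_le]; constructor <;> omega) (i0 + 1 - i) (by omega)
    rw [h3, h4] at h5
    rw [hG' i h1 (by omega)]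
    exact ⟨le_antisymm (h5.2.1.trans h5.2.2) h5.1, le_antisymm h5.2.2 (h5.1.trans h5.2.1)⟩

end BGG
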