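import Pool.Agent.BGG.FailP
import Pool.Agent.BGG.Cells
import Pool.Agent.BGE.CrudeRec

/-!
BGG. Adaptation of `Pool/Agent/BGE/CrudeRec.lean`: same proof with the law `PG` of the environment and the law `PD` of the noise.
-/

namespace BGG


open MeasureTheory ProbabilityTheory BGE

variable [GeoPar]

/-- the hit at a scale is contained in the union of a refreshment and the hit at the time `0` -/
private theorem cr_upd (σ lam η : ℝ) (M n : ℕ) : HitX σ lam η M n ⊆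
    Upd η M (RR σ lam n) ∪ {x | dyn η x 0 ∈ AnS σ (arc lam n) n} := by
  rintro x ⟨t, ht, hx⟩
  by_cases h : x ∈ Upd η M (RR σ lam n)
  · exact Or.inl h
  · right
    exact (depOn_AnS (dyn η x t) (dyn η x 0) fun v hv => upd_none h ht hv).1 hx

private theorem cr_dyn0 (η : ℝ) {E : Set (ℤ × ℤ → ℝ)} (hE : MeasurableSet E) {p : ℝ}
    (h : PG.real E ≤ p) : PD.real {x | dyn η x 0 ∈ E} ≤ p := by
  have h1 := (dyn_law η 0).measureReal_preimage (s := E) hE.nullMeasurableSet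
  rw [← h1] at h
  exact h

/-- consequences of `h n^{1/3} lam^300 ≤ 1` -/
private theorem cr_size {h lam : ℝ} {n : ℕ} (h0 : 0 < h) (hl : 1 ≤ lam)
    (hn : h * (n : ℝ) ^ (1 / 3 : ℝ) * lam ^ 300 ≤ 1) :
    (n : ℝ) * lam ^ 900 ≤ h⁻¹ ^ 3 := by
  have hn0 : (0 : ℝ) ≤ n := Nat.cast_nonneg n
  have h1 : (n : ℝ) ^ (1 / 3 : ℝ) * lam ^ 300 ≤ h⁻¹ := by
    rw [← one_div, le_div_iff₀ h0]
    linarith [mul_comm ((n : ℝ) ^ (1 / 3 : ℝ) * lam ^ 300) h,
      mul_assoc h ((n : ℝ) ^ (1 / 3 : ℝ)) (lam ^ 300)]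
  have h2 : ((n : ℝ) ^ (1 / 3 : ℝ) * lam ^ 300) ^ 3 ≤ h⁻¹ ^ 3 :=
    pow_le_pow_left₀ (by positivity) h1 3
  have h3 : ((n : ℝ) ^ (1 / 3 : ℝ)) ^ 3 = n := by
    rw [← Real.rpow_natCast, ← Real.rpow_mul hn0]
    norm_num
  rw [mul_pow, h3, ← pow_mul] at h2
  exact h2

private theorem cr_mono {h lam : ℝ} {r n : ℕ} (h0 : 0 < h) (hl : 1 ≤ lam) (hr : r ≤ n)
    (hn : h * (n : ℝ) ^ (1 / 3 : ℝ) * lam ^ 300 ≤ 1) :
    h * (r : ℝ) ^ (1 / 3 : ℝ) * lam ^ 300 ≤ 1 := by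
  refine le_trans ?_ hn
  have h1 : (r : ℝ) ^ (1 / 3 : ℝ) ≤ (n : ℝ) ^ (1 / 3 : ℝ) :=
    Real.rpow_le_rpow (Nat.cast_nonneg r) (by exact_mod_cast hr) (by norm_num)
  have h2 : (0 : ℝ) ≤ lam ^ 300 := by positivity
  exact mul_le_mul_of_nonneg_right (mul_le_mul_of_nonneg_left h1 h0.le) h2

/-- the case of the low scales -/
private theorem cr_low {κ : ℝ} (hκ : 0 < κ) : ∃ C1 : ℝ, 2 ≤ C1 ∧ ∀ (σ h lam η : ℝ) (n M : ℕ),
    HP C1 h lam → κ ≤ σ → σ ≤ 1 - κ → 0 < η → M * η ≤ h → 1 ≤ n →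
    h * (n : ℝ) ^ (1 / 3 : ℝ) * lam ^ 300 ≤ 1 → (n : ℝ) ≤ 8 * (lam ^ 12 * rL h + 1) →
    PD.real (HitX σ lam η M n) ≤ lam ^ 6 / (n : ℝ) ^ (2 / 3 : ℝ) := by
  obtain ⟨Ca, hCa, hans⟩ := ans_prob hκ
  obtain ⟨Cl, hCl, hlow⟩ := low_bounds
  refine ⟨max Ca (max Cl 1000), hCa.trans (le_max_left _ _), ?_⟩
  intro σ h lam η n M hP hs1 hs2 hη hM hn1 hn hn2
  have hP1 : HP Ca h lam := hP.mono (le_max_left _ _)
  have hP2 : HP Cl h lam := hP.mono ((le_max_left _ _).trans (le_max_right _ _))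
  have hP3 : HP 1000 h lam := hP.mono ((le_max_right _ _).trans (le_max_right _ _))
  obtain ⟨hl1, -, hlh⟩ := hp_basic (by norm_num) hP3
  obtain ⟨h0, h1, -⟩ := hP
  have hlam1 : (1 : ℝ) ≤ lam := by linarith
  have hN1 : (1 : ℝ) ≤ n := by exact_mod_cast hn1
  have hN0 : (0 : ℝ) < n := by linarith
  have hinv : 1 ≤ h⁻¹ := (one_le_inv₀ h0).2 h1.le
  have hsz := cr_size h0 hlam1 hn
  have hl900 : (1 : ℝ) ≤ lam ^ 900 := one_le_pow₀ hlam1
  have hn3 : (n : ℝ) ≤ h⁻¹ ^ 3 := by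
    refine le_trans ?_ hsz
    exact le_mul_of_one_le_right hN0.le hl900
  -- the two events
  obtain ⟨R, hR, hRc⟩ := card_Rgn σ (a := 6 * arc lam n) (by unfold arc; positivity) n
  have hU : PD.real (Upd η M (RR σ lam n)) ≤ R.card * h := by
    have e : RR σ lam n = (R : Set (ℤ × ℤ)) := hR.symm
    rw [e]
    exact (upd_prob hη.le M R).trans (mul_le_mul_of_nonneg_left hM (Nat.cast_nonneg _))
  have hA : PD.real {x | dyn η x 0 ∈ AnS σ (arc lam n) n} ≤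
      lam ^ 5 / (n : ℝ) ^ (2 / 3 : ℝ) :=
    cr_dyn0 η measurableSet_AnS (hans σ h lam n hP1 hs1 hs2 hn1 hn3)
  have hsum : PD.real (HitX σ lam η M n) ≤ R.card * h + lam ^ 5 / (n : ℝ) ^ (2 / 3 : ℝ) := by
    refine (measureReal_mono (cr_upd σ lam η M n) (measure_ne_top _ _)).trans ?_
    exact (measureReal_union_le _ _).trans (add_le_add hU hA)
  set P : ℝ := (n : ℝ) ^ (2 / 3 : ℝ) with hPd
  have hP1' : 1 ≤ P := Real.one_le_rpow hN1 (by norm_num)
  have hP0 : 0 < P := by linarith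
  -- the number of sites
  have hcard : (R.card : ℝ) ≤ 100 * lam * n * P := by
    refine hRc.trans ?_
    have e : arc lam n = 2 * lam * P := rfl
    rw [e]
    have h3 : (2 * (n : ℝ) + 2) ≤ 4 * n := by linarith
    have h4 : 2 * (6 * (2 * lam * P)) + 1 ≤ 25 * (lam * P) := by
      have : 1 ≤ lam * P := one_le_mul_of_one_le_of_one_le hlam1 hP1'
      linarith
    calc (2 * (n : ℝ) + 2) * (2 * (6 * (2 * lam * P)) + 1) ≤ (4 * n) * (25 * (lam * P)) :=
          mul_le_mul h3 h4 (by positivity) (by positivity)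
      _ = 100 * lam * n * P := by ring
  -- the size of `n`
  obtain ⟨-, -, -, hrL⟩ := hlow h lam hP2
  have hx0 : (0 : ℝ) < h⁻¹ := by linarith
  have hnb : (n : ℝ) ≤ 24 * lam ^ 12 * h⁻¹ ^ (21 / 50 : ℝ) := by
    have h5 : 1 ≤ h⁻¹ ^ (21 / 50 : ℝ) := Real.one_le_rpow hinv (by norm_num)
    have h6 : (1 : ℝ) ≤ lam ^ 12 := one_le_pow₀ hlam1
    have h7 : lam ^ 12 * (rL h : ℝ) ≤ lam ^ 12 * (2 * h⁻¹ ^ (21 / 50 : ℝ)) :=
      mul_le_mul_of_nonneg_left hrL (by positivity)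
    have h8 : 1 ≤ lam ^ 12 * h⁻¹ ^ (21 / 50 : ℝ) := one_le_mul_of_one_le_of_one_le h6 h5
    nlinarith
  have hkey : 100 * lam * n * P * h * P ≤ 1 := by
    -- `n P² = n^(7/3)`
    have e1 : (n : ℝ) * P * P = (n : ℝ) ^ (7 / 3 : ℝ) := by
      rw [hPd, mul_assoc, ← Real.rpow_add hN0]
      nth_rewrite 1 [← Real.rpow_one (n : ℝ)]
      rw [← Real.rpow_add hN0]
      norm_num
    have e2 : (n : ℝ) ^ (7 / 3 : ℝ) ≤ (24 : ℝ) ^ (3 : ℕ) * lam ^ 28 * h⁻¹ ^ (49 / 50 : ℝ) := by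
      have h9 := Real.rpow_le_rpow hN0.le hnb (by norm_num : (0 : ℝ) ≤ 7 / 3)
      refine h9.trans (le_of_eq_of_le
        (Real.mul_rpow (by positivity) (by positivity)) ?_)
      rw [Real.mul_rpow (by norm_num) (by positivity), ← Real.rpow_mul hx0.le]
      have e3 : ((21 : ℝ) / 50) * (7 / 3) = 49 / 50 := by norm_num
      rw [e3]
      have e4 : (lam ^ 12) ^ (7 / 3 : ℝ) = lam ^ 28 := by
        rw [← Real.rpow_natCast lam 12, ← Real.rpow_mul (by linarith), ← Real.rpow_natCast lam 28]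
        norm_num
      rw [e4]
      have e5 : (24 : ℝ) ^ (7 / 3 : ℝ) ≤ 24 ^ (3 : ℕ) := by
        rw [← Real.rpow_natCast]
        exact Real.rpow_le_rpow_of_exponent_le (by norm_num) (by norm_num)
      exact mul_le_mul_of_nonneg_right (mul_le_mul_of_nonneg_right e5 (by positivity))
        (by positivity)
    have e6 : h⁻¹ ^ (49 / 50 : ℝ) * h = h ^ (1 / 50 : ℝ) := by
      rw [Real.inv_rpow h0.le, ← Real.rpow_neg h0.le]
      nth_rewrite 2 [← Real.rpow_one h]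
      rw [← Real.rpow_add h0]
      norm_num
    have e7 : h ^ (1 / 50 : ℝ) ≤ h ^ (1 / 1000 : ℝ) :=
      Real.rpow_le_rpow_of_exponent_ge h0 h1.le (by norm_num)
    have e8 : (100 * 24 ^ 3 : ℝ) * lam ^ 29 ≤ lam ^ 1000 := by
      have h10 : (1000 : ℝ) ^ 971 ≤ lam ^ 971 := pow_le_pow_left₀ (by norm_num) hl1 971
      have h11 : (1000 : ℝ) ^ 3 ≤ lam ^ 3 := pow_le_pow_left₀ (by norm_num) hl1 3
      have h12 : (1 : ℝ) ≤ lam ^ 968 := one_le_pow₀ hlam1
      have h13 : (0 : ℝ) ≤ lam ^ 29 := by positivity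
      calc (100 * 24 ^ 3 : ℝ) * lam ^ 29 ≤ lam ^ 3 * lam ^ 29 :=
            mul_le_mul_of_nonneg_right (by norm_num at h11 ⊢; linarith) h13
        _ ≤ lam ^ 3 * lam ^ 29 * lam ^ 968 := le_mul_of_one_le_right (by positivity) h12
        _ = lam ^ 1000 := by ring
    calc 100 * lam * n * P * h * P = 100 * lam * h * ((n : ℝ) * P * P) := by ring
      _ ≤ 100 * lam * h * ((24 : ℝ) ^ (3 : ℕ) * lam ^ 28 * h⁻¹ ^ (49 / 50 : ℝ)) := by
          rw [e1]
          exact mul_le_mul_of_nonneg_left e2 (by positivity)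
      _ = (100 * 24 ^ 3 : ℝ) * lam ^ 29 * (h⁻¹ ^ (49 / 50 : ℝ) * h) := by ring
      _ = (100 * 24 ^ 3 : ℝ) * lam ^ 29 * h ^ (1 / 50 : ℝ) := by rw [e6]
      _ ≤ lam ^ 1000 * h ^ (1 / 1000 : ℝ) :=
          mul_le_mul e8 e7 (by positivity) (by positivity)
      _ ≤ 1 := by rw [mul_comm]; exact hlh
  have hfin : (R.card : ℝ) * h ≤ 1 / P := by
    rw [le_div_iff₀ hP0]
    refine le_trans ?_ hkey
    exact mul_le_mul_of_nonneg_right (mul_le_mul_of_nonneg_right hcard h0.le) hP0.le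
  refine hsum.trans ((add_le_add_left hfin _).trans ?_)
  rw [← add_div]
  refine div_le_div_of_nonneg_right ?_ hP0.le
  have h14 : (1 : ℝ) ≤ lam ^ 5 := one_le_pow₀ hlam1
  calc 1 + lam ^ 5 ≤ 2 * lam ^ 5 := by linarith
    _ ≤ lam * lam ^ 5 := mul_le_mul_of_nonneg_right (by linarith) (by positivity)
    _ = lam ^ 6 := by ring

theorem crude_rec {κ : ℝ} (hκ : 0 < κ) : ∃ C1 : ℝ, 2 ≤ C1 ∧ ∀ (σ h lam η : ℝ) (n M : ℕ),
    HP C1 h lam → κ ≤ σ → σ ≤ 1 - κ → 0 < η → η ≤ h ^ 30 → M * η ≤ h → 1 ≤ n →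
    h * (n : ℝ) ^ (1 / 3 : ℝ) * lam ^ 300 ≤ 1 →
    PD.real (HitX σ lam η M n) ≤ lam ^ 6 / (n : ℝ) ^ (2 / 3 : ℝ) := by
  obtain ⟨Clow, hClow, hlow⟩ := cr_low hκ
  obtain ⟨Cfi, hCfi, hfi⟩ := fail_incl hκ
  obtain ⟨Cfp, hCfp, hfp⟩ := fail_prob hκ
  obtain ⟨C0s, C1s, hC0s, hC1s, hslack⟩ := nr_slack hκ
  obtain ⟨C0n, C1n, hC0n, hC1n, hnr⟩ := nr_prob hκ
  obtain ⟨Cg, hCg, hgood⟩ := good_crude hκ
  obtain ⟨Ca, hCa, hans⟩ := ans_iff hκ
  obtain ⟨Cj, hCj, hjT⟩ := jT_spec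
  obtain ⟨Clb, hClb, hlb⟩ := low_bounds
  obtain ⟨h0c, hh0, hh1, hall⟩ := good_all' hκ
  obtain ⟨Cp, hCp, hpar⟩ := par_crude hκ (C0 := max Cg Ca) (hCa.trans (le_max_right _ _))
  set K : ℝ := Clow + Cfi + Cfp + C0s + C1s + C0n + C1n + Cg + Ca + Cj + Clb + Cp + 1000 +
    |Real.log (1 / h0c)| with hK
  have habs : 0 ≤ |Real.log (1 / h0c)| := abs_nonneg _
  refine ⟨K, by linarith, ?_⟩
  intro σ h lam η n M hP hs1 hs2 hη hη2 hM
  have b1 : HP Clow h lam := hP.mono (by linarith)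
  have b2 : HP Cfi h lam := hP.mono (by linarith)
  have b3 : HP Cfp h lam := hP.mono (by linarith)
  have b4 : HP C1s h lam := hP.mono (by linarith)
  have b5 : HP C1n h lam := hP.mono (by linarith)
  have b6 : HP Cg h lam := hP.mono (by linarith)
  have b7 : HP Cj h lam := hP.mono (by linarith)
  have b8 : HP Cp h lam := hP.mono (by linarith)
  have b9 : HP Clb h lam := hP.mono (by linarith)
  obtain ⟨hlK, -, -⟩ := hp_basic (by linarith) hP
  obtain ⟨h0, h1, hlog, hlam, -⟩ := hP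
  have hhc : h ≤ h0c := by
    have h2 : Real.log (1 / h0c) ≤ Real.log (1 / h) := by
      have := le_abs_self (Real.log (1 / h0c))
      linarith
    have h3 := (Real.log_le_log_iff (by positivity) (by positivity)).1 h2
    exact (one_div_le_one_div hh0 h0).1 h3
  have hl1000 : 1000 ≤ lam := by linarith
  have hlam1 : (1 : ℝ) ≤ lam := by linarith
  have hlam0 : (0 : ℝ) < lam := by linarith
  have hinv : 1 ≤ h⁻¹ := (one_le_inv₀ h0).2 h1.le
  induction n using Nat.strong_induction_on with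
  | _ n ih =>
  intro hn1 hn
  by_cases hc : (n : ℝ) ≤ 8 * (lam ^ 12 * rL h + 1)
  · exact hlow σ h lam η n M b1 hs1 hs2 hη hM hn1 hn hc
  push Not at hc
  have hN1 : (1 : ℝ) ≤ n := by exact_mod_cast hn1
  have hN0 : (0 : ℝ) < n := by linarith
  set n' : ℕ := n / 8 with hn'
  have hn8 : 8 * n' ≤ n := Nat.mul_div_le n 8
  have hn8' : n < 8 * n' + 8 := by omega
  have hn8r : (n : ℝ) < 8 * n' + 8 := by exact_mod_cast hn8'
  have hn'L : lam ^ 12 * rL h ≤ n' := by linarith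
  have hsz := cr_size h0 hlam1 hn
  have hl900 : (1000 : ℝ) ≤ lam ^ 900 := by
    calc (1000 : ℝ) ≤ lam := hl1000
      _ = lam ^ 1 := (pow_one _).symm
      _ ≤ lam ^ 900 := pow_le_pow_right₀ hlam1 (by norm_num)
  have hn3' : 4 * (n : ℝ) ≤ h⁻¹ ^ 3 := by
    refine le_trans ?_ hsz
    nlinarith
  have hn3 : (n : ℝ) ≤ h⁻¹ ^ 3 := by linarith
  -- `n'` is large
  have hrL : 1 ≤ (rL h : ℝ) := by
    obtain ⟨-, -, h5, -⟩ := hlb h lam b9
    exact (Real.one_le_rpow hinv (by norm_num)).trans h5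
  have hn'12 : lam ^ 12 ≤ n' := by
    refine le_trans ?_ hn'L
    exact le_mul_of_one_le_right (by positivity) hrL
  have hCn : ∀ C0 : ℝ, C0 ≤ K → C0 * lam ^ 3 ≤ n := by
    intro C0 hC0
    have h5 : C0 * lam ^ 3 ≤ lam * lam ^ 3 :=
      mul_le_mul_of_nonneg_right (hC0.trans hlK) (by positivity)
    have h6 : lam * lam ^ 3 ≤ lam ^ 12 := by
      calc lam * lam ^ 3 = lam ^ 4 := by ring
        _ ≤ lam ^ 12 := pow_le_pow_right₀ hlam1 (by norm_num)
    have h7 : (n' : ℝ) ≤ n := by exact_mod_cast (by omega : n' ≤ n)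
    linarith
  have hn'1 : (1 : ℝ) ≤ n' := (one_le_pow₀ hlam1).trans hn'12
  have hn'8 : (8 : ℝ) ≤ n' := by
    have : lam ^ 1 ≤ lam ^ 12 := pow_le_pow_right₀ hlam1 (by norm_num)
    linarith [pow_one lam]
  have hn9 : (n : ℝ) ≤ 9 * n' := by linarith
  have hn'le : n' ≤ n := by omega
  have hn'lt : n' < n := by
    have : 1 ≤ n' := by exact_mod_cast hn'1
    omega
  have hn'r : (n' : ℝ) ≤ n := by exact_mod_cast hn'le
  have hn'h := cr_mono h0 hlam1 hn'le hn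
  obtain ⟨hj1, hj2, hj3, hj4, hj5⟩ := hjT h lam n' b7 hn'L hn'h
  set P : ℝ := (n : ℝ) ^ (2 / 3 : ℝ) with hPd
  have hP1 : 1 ≤ P := Real.one_le_rpow hN1 (by norm_num)
  have hP0 : 0 < P := by linarith
  set P' : ℝ := (n' : ℝ) ^ (2 / 3 : ℝ) with hPd'
  have hP'0 : 0 < P' := Real.rpow_pos_of_pos (by linarith) _
  have hPP : P' ≤ P := Real.rpow_le_rpow (by linarith) hn'r (by norm_num)
  have hPP' : P ≤ 5 * P' := by
    have h5 : P ≤ (9 * (n' : ℝ)) ^ (2 / 3 : ℝ) := Real.rpow_le_rpow hN0.le hn9 (by norm_num)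
    rw [Real.mul_rpow (by norm_num) (by linarith)] at h5
    have h6 : (9 : ℝ) ^ (2 / 3 : ℝ) ≤ 5 := by
      have e : (9 : ℝ) ^ (2 / 3 : ℝ) = (81 : ℝ) ^ (1 / 3 : ℝ) := by
        rw [show (81 : ℝ) = 9 ^ (2 : ℝ) by norm_num, ← Real.rpow_mul (by norm_num)]
        norm_num
      have e2 : (5 : ℝ) = (125 : ℝ) ^ (1 / 3 : ℝ) := by
        rw [show (125 : ℝ) = 5 ^ (3 : ℝ) by norm_num, ← Real.rpow_mul (by norm_num)]
        norm_num
      rw [e, e2]
      exact Real.rpow_le_rpow (by norm_num) (by norm_num) (by norm_num)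
    exact h5.trans (mul_le_mul_of_nonneg_right h6 hP'0.le)
  have harc : arc lam n = 2 * lam * P := rfl
  have harc1 : 1 ≤ arc lam n := by
    rw [harc]
    have : 1 ≤ lam * P := one_le_mul_of_one_le_of_one_le hlam1 hP1
    linarith
  -- the three events
  set G : Set (DI → ℝ) := {x | ∃ i ≤ M, ¬ CrE κ lam (4 * n) (dyn η x (0 + i)) ∨
      ¬ CrT lam (4 * n) h (dyn η x 0) (dyn η x (0 + i))} with hG
  set E : Set (ℤ × ℤ → ℝ) := {ω | NR σ (4 * arc lam n) n 0 (2 ^ jT h lam n') 0 ω ∧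
      NR σ (4 * arc lam n) n 0 (Ic lam n) (4 * sl h lam n) ω} with hE
  have hincl : HitX σ lam η M n ⊆ G ∪ ({x | dyn η x 0 ∈ E} ∪ FailX κ σ lam h η M n') := by
    rintro x ⟨t, ht, hx⟩
    by_cases hxG : x ∈ G
    · exact Or.inl hxG
    right
    have hgd : ∀ i ≤ M, CrE κ lam (4 * n) (dyn η x i) ∧
        CrT lam (4 * n) h (dyn η x 0) (dyn η x i) := by
      intro i hi
      by_contra hcon
      apply hxG
      refine ⟨i, hi, ?_⟩
      rw [Nat.zero_add]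
      tauto
    obtain ⟨c1, -⟩ := hgd 0 (Nat.zero_le M)
    obtain ⟨c2, c3⟩ := hgd t ht
    have hGE : GoodE κ σ lam (2 * lam) (max Cg Ca * lam ^ 3) n (dyn η x t) :=
      hgood (max Cg Ca) σ h lam n (4 * n) _ (le_max_left _ _) b6 hs1 hs2
        (hCn _ (max_le (by linarith) (by linarith))) le_rfl c2
    have hPar : Par Ca κ σ lam (2 * lam) (max Cg Ca * lam ^ 3) n := by
      obtain ⟨p1, p2, p3, p4, p5, p6⟩ := hpar σ h lam n b8 hs1 hs2
        (hCn _ (max_le (by linarith) (by linarith)))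
      exact ⟨p1, p2, (le_max_right _ _).trans p3, p4,
        mul_le_mul_of_nonneg_right (le_max_right _ _) (by positivity), p6⟩
    have hthru : Thru σ (arc lam n) n (dyn η x t) :=
      (hans σ lam (2 * lam) (max Cg Ca * lam ^ 3) n _ hPar hGE).1 hx
    by_cases hNR : NR σ (4 * arc lam n) n 0 (2 ^ jT h lam n') 0 (dyn η x 0)
    · left
      refine ⟨hNR, ?_⟩
      refine hslack σ h lam (arc lam n) (4 * arc lam n) n (4 * n) (Ic lam n) _ _ b4 hs1 hs2
        (hCn _ (by linarith)) le_rfl c2 c3 (by linarith) (by linarith) le_rfl hthru ?_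
      have h5 : (Ic lam n : ℝ) ≤ P / lam ^ 3 := Nat.floor_le (by positivity)
      have h6 : P / lam ^ 3 ≤ P := div_le_self hP0.le (one_le_pow₀ hlam1)
      rw [harc]
      nlinarith
    · right
      exact hfi σ h lam η (arc lam n) (4 * arc lam n) n n' (4 * n) M t x b2 hs1 hs2 hn'L hn8 hn
        le_rfl ht ⟨c1, c2, c3⟩ (by linarith) le_rfl (by linarith) le_rfl hthru hNR
  have hpG : PD.real G ≤ 1 / P := by
    have h5 : PD.real G ≤ h ^ 10 := by
      refine hall h η lam (4 * n) M 0 h0 hhc hlam ?_ hη hη2 hM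
      push_cast
      calc 4 * (n : ℝ) ≤ h⁻¹ ^ 3 := hn3'
        _ ≤ h⁻¹ ^ 4 := pow_le_pow_right₀ hinv (by norm_num)
    refine h5.trans ?_
    rw [le_div_iff₀ hP0]
    have h6 : P ≤ h⁻¹ ^ 2 := by
      have h7 : P ≤ (h⁻¹ ^ 3) ^ (2 / 3 : ℝ) := Real.rpow_le_rpow hN0.le hn3 (by norm_num)
      refine h7.trans (le_of_eq ?_)
      rw [← Real.rpow_natCast h⁻¹ 3, ← Real.rpow_mul (by linarith), ← Real.rpow_natCast h⁻¹ 2]
      norm_num
    calc h ^ 10 * P ≤ h ^ 10 * h⁻¹ ^ 2 := mul_le_mul_of_nonneg_left h6 (by positivity)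
      _ = h ^ 8 := by field_simp
      _ ≤ 1 := pow_le_one₀ h0.le h1.le
  have hpE : PD.real {x | dyn η x 0 ∈ E} ≤ lam ^ 5 / P := by
    refine cr_dyn0 η (measurableSet_NR.inter measurableSet_NR) ?_
    have hcast : (((2 ^ jT h lam n' : ℕ)) : ℝ) = 2 ^ jT h lam n' := by push_cast; rfl
    refine hnr σ h lam (4 * arc lam n) n (2 ^ jT h lam n') b5 hs1 hs2 (hCn _ (by linarith)) hn3
      (by linarith) le_rfl Nat.one_le_two_pow ?_ ?_
    · rw [hcast]
      have h5 : sl h lam n ≤ 3 * sl h lam n' := by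
        unfold sl
        have h6 : √(2 * h * n) ≤ 3 * √(2 * h * n') := by
          have e : 3 * √(2 * h * n') = √(9 * (2 * h * n')) := by
            rw [Real.sqrt_mul (by norm_num : (0 : ℝ) ≤ 9) (2 * h * n')]
            congr 1
            rw [show (9 : ℝ) = 3 ^ 2 by norm_num, Real.sqrt_sq (by norm_num)]
          rw [e]
          apply Real.sqrt_le_sqrt
          nlinarith
        have h7 : √(2 * h * n) + 1 ≤ 3 * (√(2 * h * n') + 1) := by linarith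
        calc lam * (√(2 * h * n) + 1) ≤ lam * (3 * (√(2 * h * n') + 1)) :=
              mul_le_mul_of_nonneg_left h7 hlam0.le
          _ = 3 * (lam * (√(2 * h * n') + 1)) := by ring
      have h8 : √(2 ^ jT h lam n') / lam ≤ √(2 ^ jT h lam n') / 12 :=
        div_le_div_of_nonneg_left (Real.sqrt_nonneg _) (by norm_num) (by linarith)
      linarith
    · rw [hcast]
      refine hj4.trans ?_
      exact div_le_div_of_nonneg_right hPP (by positivity)
  have hpF : PD.real (FailX κ σ lam h η M n') ≤ 5 * (lam + 1) / P := by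
    refine (hfp σ h lam η n' M b3 hs1 hs2 hη hM hn'L hn'h ?_).trans ?_
    · intro r hr1 hr2
      exact ih r (by omega) hr1 (cr_mono h0 hlam1 (by omega) hn)
    · have e1 : (h ^ 2 * P') ^ (1 / 20 : ℝ) ≤ 1 / lam ^ 30 := by
        have e2 : h ^ 2 * P' = (h * (n' : ℝ) ^ (1 / 3 : ℝ)) ^ 2 := by
          rw [mul_pow, hPd', ← Real.rpow_natCast ((n' : ℝ) ^ (1 / 3 : ℝ)) 2,
            ← Real.rpow_mul (by linarith)]
          norm_num
        have h5 : h * (n' : ℝ) ^ (1 / 3 : ℝ) ≤ 1 / lam ^ 300 := by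
          rw [le_div_iff₀ (by positivity)]
          exact hn'h
        have h6 : h ^ 2 * P' ≤ (1 / lam ^ 300) ^ 2 := by
          rw [e2]
          exact pow_le_pow_left₀ (by positivity) h5 2
        have h7 : (1 / lam ^ 300) ^ 2 = (1 / lam ^ 30) ^ (20 : ℝ) := by
          rw [show (20 : ℝ) = ((20 : ℕ) : ℝ) by norm_num, Real.rpow_natCast]
          rw [div_pow, div_pow, ← pow_mul, ← pow_mul]
          norm_num
        calc (h ^ 2 * P') ^ (1 / 20 : ℝ) ≤ ((1 / lam ^ 300) ^ 2) ^ (1 / 20 : ℝ) :=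
              Real.rpow_le_rpow (by positivity) h6 (by norm_num)
          _ = ((1 / lam ^ 30) ^ (20 : ℝ)) ^ (1 / 20 : ℝ) := by rw [h7]
          _ = 1 / lam ^ 30 := by
              rw [← Real.rpow_mul (by positivity)]
              norm_num
      have e3 : h ^ (1 / 100 : ℝ) ≤ 1 := Real.rpow_le_one h0.le h1.le (by norm_num)
      have e4 : lam ^ 31 * (h ^ 2 * P') ^ (1 / 20 : ℝ) ≤ lam := by
        calc lam ^ 31 * (h ^ 2 * P') ^ (1 / 20 : ℝ) ≤ lam ^ 31 * (1 / lam ^ 30) :=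
              mul_le_mul_of_nonneg_left e1 (by positivity)
          _ = lam := by field_simp
      calc (lam ^ 31 * (h ^ 2 * P') ^ (1 / 20 : ℝ) + h ^ (1 / 100 : ℝ)) / P'
          ≤ (lam + 1) / P' := div_le_div_of_nonneg_right (add_le_add e4 e3) hP'0.le
        _ ≤ 5 * (lam + 1) / P := by
            rw [div_le_div_iff₀ hP'0 hP0]
            calc (lam + 1) * P ≤ (lam + 1) * (5 * P') :=
                  mul_le_mul_of_nonneg_left hPP' (by linarith)
              _ = 5 * (lam + 1) * P' := by ring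
  refine (measureReal_mono hincl (measure_ne_top _ _)).trans ?_
  refine (measureReal_union_le _ _).trans ?_
  refine (add_le_add hpG ((measureReal_union_le _ _).trans (add_le_add hpE hpF))).trans ?_
  rw [← add_div, ← add_div]
  refine div_le_div_of_nonneg_right ?_ hP0.le
  have h5 : lam ≤ lam ^ 5 := by
    calc lam = lam ^ 1 := (pow_one _).symm
      _ ≤ lam ^ 5 := pow_le_pow_right₀ hlam1 (by norm_num)
  calc 1 + (lam ^ 5 + 5 * (lam + 1)) ≤ 12 * lam ^ 5 := by linarith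
    _ ≤ lam * lam ^ 5 := mul_le_mul_of_nonneg_right (by linarith) (by positivity)
    _ = lam ^ 6 := by ring

end BGG
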