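import Pool.Agent.BGE.FDefs

/-!
Project BGG (MP_ab3734_pr, geometric weights), owner helper58. All definitions.

The geometric weights `w` with parameter `q`, `P(w ≥ k) = q ^ k`, are normalised:
`gs * w + gd` with `gs = (1 - q)/√q`, `gd = 1 - √q` (bigeodesics do not change). The normalised
weights are nonnegative, have mean 1 and variance 1, and the shape function of the last passage
times is the one of the exponential model, `mu a b = a + b + 2 √(a b)`. So all the deterministic
definitions and theorems of the project BGE are used without change (`open BGE`); only the law of the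
environment changes: `PI (ℤ × ℤ)` is replaced by `PG` and `PI DI` by `PD` (exponential clocks,
normalised geometric weights).

Boundary weights of the rate `ρ ∈ (0, 1]`: normalised geometric variables with the ratio `gap ρ`,
`P(w ≥ k) = gap ρ ^ k`, law `bE ρ`; the mean is `1/ρ`; `gap 1 = q`, `gap ρ * gap (1 - ρ) = q`.
-/

namespace BGG

open MeasureTheory ProbabilityTheory BGE

/-- the parameter of the geometric weights: `P(w ≥ k) = q ^ k` -/
class GeoPar where
  /-- the parameter -/
  q : ℝ
  /-- it is positive -/
  q_pos : 0 < q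
  /-- it is smaller than one -/
  q_lt : q < 1

section

variable [GeoPar]

/-- the square root of the parameter -/
noncomputable def gc : ℝ := √GeoPar.q

/-- the scale of the normalised weights -/
noncomputable def gs : ℝ := (1 - GeoPar.q) / √GeoPar.q

/-- the shift of the normalised weights -/
noncomputable def gd : ℝ := 1 - √GeoPar.q

/-- `1 ≤ 1 + gk ρ (1 - ρ) ≤ gK` -/
noncomputable def gk : ℝ := (1 - √GeoPar.q) ^ 2 / √GeoPar.q

/-- the constant `gK = 1 + gk/4 ≥ 1` -/
noncomputable def gK : ℝ := (1 + √GeoPar.q) ^ 2 / (4 * √GeoPar.q)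

/-- the constant in the exponential bounds for exit points -/
noncomputable def gX : ℝ := 10 ^ 10 * gK ^ 6

/-- weight function in the exponents; `gs * kap = - d/dρ log (gap ρ)`, `1/gK ≤ kap ≤ 1` -/
noncomputable def kap (ρ : ℝ) : ℝ := 1 / (1 + gk * (ρ * (1 - ρ)))

/-- the ratio of the geometric boundary weights of rate `ρ` -/
noncomputable def gap (ρ : ℝ) : ℝ := gc * (gc * ρ + (1 - ρ)) / (ρ + gc * (1 - ρ))

/-- quantile map: under `E1` the variable `⌊x / (- log a)⌋₊` is geometric with ratio `a` -/
noncomputable def gqm (a x : ℝ) : ℝ := gs * ⌊x / (-Real.log a)⌋₊ + gd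

/-- the law of the normalised geometric variable with the ratio `a` -/
noncomputable def geoM (a : ℝ) : Measure ℝ := Measure.map (gqm a) E1

/-- boundary weight of rate `ρ` as a function of the noise -/
noncomputable def bw (ρ x : ℝ) : ℝ := gqm (gap ρ) x

/-- the law of the boundary weights of rate `ρ` (mean `1/ρ`) -/
noncomputable def bE (ρ : ℝ) : Measure ℝ := geoM (gap ρ)

/-- the law of the weights -/
noncomputable def EG : Measure ℝ := geoM GeoPar.q

theorem measurable_gqm (a : ℝ) : Measurable (gqm a) := by
  unfold gqm
  have h : Measurable fun x : ℝ => (⌊x / (-Real.log a)⌋₊ : ℝ) :=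
    (measurable_from_nat (f := fun n : ℕ => (n : ℝ))).comp
      (Nat.measurable_floor.comp (measurable_id.div_const _))
  exact (h.const_mul _).add_const _

theorem measurable_bw (ρ : ℝ) : Measurable (bw ρ) := measurable_gqm _

instance (a : ℝ) : IsProbabilityMeasure (geoM a) := by
  unfold geoM
  exact Measure.isProbabilityMeasure_map (measurable_gqm a).aemeasurable

instance (ρ : ℝ) : IsProbabilityMeasure (bE ρ) := by unfold bE; infer_instance

instance : IsProbabilityMeasure EG := by unfold EG; infer_instance

/-- the law of the environment -/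
noncomputable def PG : Measure (ℤ × ℤ → ℝ) := Measure.infinitePi (fun _ : ℤ × ℤ => EG)

instance : IsProbabilityMeasure PG := by unfold PG; infer_instance

/-- the laws of the noise variables of the dynamics -/
noncomputable def dlaw (d : DI) : Measure ℝ := if d.2.2 = true then EG else E1

instance (d : DI) : IsProbabilityMeasure (dlaw d) := by
  unfold dlaw
  split_ifs <;> infer_instance

/-- the law of the noise of the dynamics -/
noncomputable def PD : Measure (DI → ℝ) := Measure.infinitePi dlaw

instance : IsProbabilityMeasure PD := by unfold PD; infer_instance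

/-- the environment as a function of exponential noise -/
noncomputable def gE (ω : ℤ × ℤ → ℝ) : ℤ × ℤ → ℝ := fun v => gqm GeoPar.q (ω v)

/-- the noise as a function of exponential noise -/
noncomputable def gN (x : DI → ℝ) : DI → ℝ :=
  fun d => if d.2.2 = true then gqm GeoPar.q (x d) else x d

/-! ### The stationary model -/

/-- the environment, and exponential noise for the S weights and the W weights -/
noncomputable def muSW : Measure SW := PG.prod ((PI ℕ).prod (PI ℕ))

instance : IsProbabilityMeasure muSW := by unfold muSW; infer_instance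

/-- passage time with corner `0`, S weights of rate `a`, W weights of rate `b` -/
noncomputable def bl (a b : ℝ) (x : SW) (v : ℤ × ℤ) : ℝ :=
  T (bfield x.1 (fun i => bw a (x.2.1 i)) (fun j => bw b (x.2.2 j)) 0) 0 v

/-- the passage time `bl a b x (m, n)` is attained by an exit on the S side -/
def ExS (a b : ℝ) (m n : ℕ) : Set SW := {x : SW | ∃ k : ℕ, 1 ≤ k ∧ k ≤ m ∧
  bl a b x ((m : ℤ), (n : ℤ)) =
    (∑ i ∈ Finset.Icc 1 k, bw a (x.2.1 i)) + T x.1 ((k : ℤ), 1) ((m : ℤ), (n : ℤ))}

/-! ### The two-slope coupling; here the noise consists of the weights themselves -/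

/-- law of a sequence of boundary weights of rate `ρ` -/
noncomputable def bI (ρ : ℝ) : Measure (ℕ → ℝ) := Measure.infinitePi (fun _ : ℕ => bE ρ)

instance (ρ : ℝ) : IsProbabilityMeasure (bI ρ) := by unfold bI; infer_instance

/-- law of the queue length at the corner -/
noncomputable def KG (α β : ℝ) : Measure ℝ := geoM (gap α / gap β)

instance (α β : ℝ) : IsProbabilityMeasure (KG α β) := by unfold KG; infer_instance

/-- law of the boundary noise (input): rates `α, β, 1 - α, 1 - β` and the corner -/
noncomputable def muBN (α β : ℝ) : Measure BN :=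
  (bI α).prod ((bI β).prod ((bI (1 - α)).prod ((bI (1 - β)).prod (KG α β))))

instance (α β : ℝ) : IsProbabilityMeasure (muBN α β) := by unfold muBN; infer_instance

/-- law of the boundary noise (output): rates `α, β, α, β` and the corner -/
noncomputable def muCN (α β : ℝ) : Measure BN :=
  (bI α).prod ((bI β).prod ((bI α).prod ((bI β).prod (KG α β))))

instance (α β : ℝ) : IsProbabilityMeasure (muCN α β) := by unfold muCN; infer_instance

/-- law on the two-slope space -/
noncomputable def muTS (α β : ℝ) : Measure TSx := PG.prod (muBN α β)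

instance (α β : ℝ) : IsProbabilityMeasure (muTS α β) := by unfold muTS; infer_instance

end

/-- boundary weights of the first system -/
def s1 (x : TSx) : ℕ → ℝ := x.2.1
noncomputable def w1 (x : TSx) : ℕ → ℝ := colJ x.2.2.2.2.2 x.2.2.2.1 x.2.2.2.2.1

/-- boundary weights of the second system -/
noncomputable def s2 (x : TSx) : ℕ → ℝ := rowD x.2.1 x.2.2.1 x.2.2.2.2.2
def w2 (x : TSx) : ℕ → ℝ := x.2.2.2.2.1

/-- the state of the row `n` in the two-slope coupling -/
noncomputable def tsRow (x : TSx) (n : ℕ) : RowSt :=
  rowSt x.1 x.2.1 x.2.2.1 x.2.2.2.2.2 x.2.2.2.1 x.2.2.2.2.1 n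

noncomputable def L1 (x : TSx) (v : ℤ × ℤ) : ℝ := T (bfield x.1 (s1 x) (w1 x) 0) 0 v
noncomputable def L2 (x : TSx) (v : ℤ × ℤ) : ℝ := T (bfield x.1 (s2 x) (w2 x) 0) 0 v

/-- all four boundary sequences are good (this depends on the boundary noise only) -/
def WG (σ B Y : ℝ) (n : ℕ) (b : BN) : Prop :=
  TSnn ((fun _ => 0, b) : TSx) ∧
  WalkGood (rA σ B Y n) Y n (s1 ((fun _ => 0, b) : TSx)) ∧
  WalkGood (1 - rA σ B Y n) Y n (w1 ((fun _ => 0, b) : TSx)) ∧
  WalkGood (rB σ B Y n) Y n (s2 ((fun _ => 0, b) : TSx)) ∧
  WalkGood (1 - rB σ B Y n) Y n (w2 ((fun _ => 0, b) : TSx))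

section

variable [GeoPar]

/-! ### Random walks -/

/-- the law of the steps `X - X'`, `X` of rate `p`, `X'` of rate `q` -/
noncomputable def stepLaw (p q : ℝ) : Measure ℝ :=
  Measure.map (fun x : ℝ × ℝ => x.1 - x.2) ((bE p).prod (bE q))

instance (p q : ℝ) : IsProbabilityMeasure (stepLaw p q) := by
  unfold stepLaw
  exact Measure.isProbabilityMeasure_map (by fun_prop)

noncomputable def walkM (p q : ℝ) : Measure (ℕ → ℝ) := Measure.infinitePi fun _ => stepLaw p q

instance (p q : ℝ) : IsProbabilityMeasure (walkM p q) := by unfold walkM; infer_instance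

/-! ### Resampling -/

/-- two environments and exponential clock variables -/
noncomputable def mu3 : Measure Env3 := PG.prod (PG.prod (PI (ℤ × ℤ)))

instance : IsProbabilityMeasure mu3 := by unfold mu3; infer_instance

end

/-- the sum of `g` along the geodesic from `u` which is chosen backwards by the rule: go to the left
if the passage time to the left neighbour is at least the one to the lower neighbour -/
noncomputable def QR (ω g : ℤ × ℤ → ℝ) (u : ℤ × ℤ) : ℕ → ℕ → ℝ
  | 0, 0 => g u
  | m + 1, 0 => QR ω g u m 0 + g (u.1 + (m + 1), u.2)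
  | 0, n + 1 => QR ω g u 0 n + g (u.1, u.2 + (n + 1))
  | m + 1, n + 1 => (if LP ω u (m + 1) n ≤ LP ω u m (n + 1) then QR ω g u m (n + 1)
      else QR ω g u (m + 1) n) + g (u.1 + (m + 1), u.2 + (n + 1))

open Classical in
/-- sum of the squares of the weights in `K` on the chosen geodesic from `u` to `v` -/
noncomputable def QV (ω : ℤ × ℤ → ℝ) (K : Set (ℤ × ℤ)) (u v : ℤ × ℤ) : ℝ :=
  QR ω (fun z => if z ∈ K then ω z ^ 2 else 0) u (v.1 - u.1).toNat (v.2 - u.2).toNat

end BGG
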