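import Pool.Agent.BGG.MgfS
import Pool.Agent.BGG.WalkMax
import Pool.Agent.BGE.ExitLoc
import Pool.Agent.BGE.ExitAlg

/-!
BGG / C3. Exit localisation. Adaptation of `Pool/Agent/BGE/ExitLoc.lean`; same symbols as there, and
`K = gK ≥ 1`.

`exit_loc`: let `a = al - t'`, `0 ≤ t' ≤ min al (1-al)/4`, `1 ≤ w < m`, `10 a² t' Ph ≤ w`. Then
`P(∃ k, w < k ≤ m, ff a - w²/(768 K a⁴ Ph) ≤ ∑_{i ≤ k} S_i + T ω (k,1) (m,n))
   ≤ 2 exp (- w³/(2359296 K⁴ a⁶ Ph²))`, `S_i = bw a (x.2.1 i)`.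

Proof. Write the sum as `S_w' + V'` with `S_w' = ∑_{i ≤ w} S_i` and `V'` the maximum over `k > w` of
`∑_{w < i ≤ k} S_i + T ω (k,1) (m,n)`. Let `z1 = w²/(384 K a⁴ Ph)`. It suffices to bound
`P(V' ≥ ff a - w/a - z1)` and `P(S_w' ≥ w/a + z1/2)`.

(1) Let `g ρ = (m-w)/ρ + n/(1-ρ)`; `g a = ff a - w/a`. For `0 ≤ v ≤ a/2`
`g (a-v) - g a = (m-w) v/(a (a-v)) - n v/((1-a)(1-a+v))
 ≤ v [(m-w)/a² - n/(1-a)²] + 2 v² (m/a³ + n/(1-a)³)`. As in BGE the bracket is `≤ - w/(2a²)`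
(`m/a² - n/(1-a)² ≤ 5 t' Ph ≤ w/(2a²)`), and `m/a³ + n/(1-a)³ ≤ 3 Ph`. So for
`0 ≤ v ≤ u := w/(24 a² Ph)` (`≤ a/2` since `a³ Ph ≥ (27/64) m`, `w < m`):
`g (a-v) - g a ≤ - (w/(2a²)) v + 6 Ph v² ≤ - (w/(4a²)) v`. By `mgfS` with
`z = g a - z1`, `z1`, `z2 = 0`, `D = w/(4a²)`: the probability is at most
`exp (z1 u - w u²/(8 K a²)) = exp (- w u²/(16 K a²)) = exp (- w³/(9216 K a⁶ Ph²))` because
`z1 = w u/(16 K a²)`.

(2) `walk_max_up'` (with `k = w`) and `θ = a² z1/(4 K² w) = w/(1536 K³ a² Ph) ≤ a/(2K)`: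
the probability is at most `exp (-θ z1/2 + w K² θ²/a²) = exp (- a² z1²/(16 K² w))
= exp (- w³/(2359296 K⁴ a⁶ Ph²))`.
-/

namespace BGG

open MeasureTheory ProbabilityTheory BGE

variable [GeoPar]

omit [GeoPar] in
/-- the difference quotient of the reduced shape function -/
private theorem exl_diff {M N a v w P : ℝ} (ha : 0 < a) (ha1 : a < 1) (hM : 0 ≤ M) (hN : 0 ≤ N)
    (hv : 0 ≤ v) (hva : v ≤ a / 2) (hP : 0 < P) (hv2 : v ≤ w / (24 * a ^ 2 * P))
    (c1 : M / a ^ 2 - N / (1 - a) ^ 2 ≤ -(w / (2 * a ^ 2)))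
    (c3 : M / a ^ 3 + N / (1 - a) ^ 3 ≤ 3 * P) :
    M / (a - v) + N / (1 - (a - v)) - (M / a + N / (1 - a)) ≤ -(w / (4 * a ^ 2) * v) := by
  have hb : 0 < 1 - a := by linarith
  have hav : 0 < a - v := by linarith
  have hbv : 0 < 1 - (a - v) := by linarith
  have g1 : M / (a - v) ≤ M / a + v * (M / a ^ 2) + 2 * v ^ 2 * (M / a ^ 3) := by
    rw [div_le_iff₀ hav]
    have e1 : (M / a + v * (M / a ^ 2) + 2 * v ^ 2 * (M / a ^ 3)) * (a - v) =
        M + M / a ^ 3 * (v ^ 2 * (a - 2 * v)) := by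
      field_simp
      ring
    rw [e1]
    have e2 : 0 ≤ M / a ^ 3 * (v ^ 2 * (a - 2 * v)) :=
      mul_nonneg (by positivity) (mul_nonneg (by positivity) (by linarith))
    linarith
  have g2 : N / (1 - (a - v)) ≤ N / (1 - a) - v * (N / (1 - a) ^ 2) +
      2 * v ^ 2 * (N / (1 - a) ^ 3) := by
    have e0 : 1 - (a - v) = (1 - a) + v := by ring
    rw [e0]
    set b := 1 - a with hbd
    rw [div_le_iff₀ (by linarith)]
    have e1 : (N / b - v * (N / b ^ 2) + 2 * v ^ 2 * (N / b ^ 3)) * (b + v) =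
        N + N / b ^ 3 * (v ^ 2 * (b + 2 * v)) := by
      field_simp
      ring
    rw [e1]
    have e2 : 0 ≤ N / b ^ 3 * (v ^ 2 * (b + 2 * v)) :=
      mul_nonneg (by positivity) (mul_nonneg (by positivity) (by linarith))
    linarith
  have g3 : v * (M / a ^ 2 - N / (1 - a) ^ 2) ≤ v * -(w / (2 * a ^ 2)) :=
    mul_le_mul_of_nonneg_left c1 hv
  have g4 : 2 * v ^ 2 * (M / a ^ 3 + N / (1 - a) ^ 3) ≤ 2 * v ^ 2 * (3 * P) :=
    mul_le_mul_of_nonneg_left c3 (by positivity)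
  have g5 : 2 * v ^ 2 * (3 * P) ≤ w / (4 * a ^ 2) * v := by
    have e1 : 2 * v ^ 2 * (3 * P) = 6 * P * v * v := by ring
    have e2 : 6 * P * v * v ≤ 6 * P * (w / (24 * a ^ 2 * P)) * v :=
      mul_le_mul_of_nonneg_right (mul_le_mul_of_nonneg_left hv2 (by positivity)) hv
    have e3 : 6 * P * (w / (24 * a ^ 2 * P)) * v = w / (4 * a ^ 2) * v := by
      field_simp
      ring
    rw [e1]
    exact e2.trans e3.le
  have g6 : v * -(w / (2 * a ^ 2)) = -(2 * (w / (4 * a ^ 2) * v)) := by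
    field_simp
    norm_num
  rw [g6] at g3
  linarith

private theorem exl_marg : MeasurePreserving (fun x : SW => x.2.1) muSW (PI ℕ) := by
  have h1 : MeasurePreserving (Prod.snd : SW → (ℕ → ℝ) × (ℕ → ℝ)) muSW ((PI ℕ).prod (PI ℕ)) :=
    measurePreserving_snd
  have h2 : MeasurePreserving (Prod.fst : (ℕ → ℝ) × (ℕ → ℝ) → (ℕ → ℝ)) ((PI ℕ).prod (PI ℕ))
    (PI ℕ) := measurePreserving_fst
  exact h2.comp h1

private theorem exl_real_comp (s : Set (ℕ → ℝ)) :
    muSW.real {x : SW | x.2.1 ∈ s} ≤ (PI ℕ).real s := by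
  unfold Measure.real
  apply ENNReal.toReal_mono (measure_ne_top _ _)
  rw [← exl_marg.map_eq]
  exact Measure.le_map_apply exl_marg.measurable.aemeasurable s

set_option linter.unusedVariables false in
theorem exit_loc {m n w : ℕ} (hn : 1 ≤ n) (hw : 1 ≤ w) (hwm : w < m) {t' a : ℝ} (ht' : 0 ≤ t')
    (ht1 : t' ≤ al m n / 4) (ht2 : t' ≤ (1 - al m n) / 4) (ha : a = al m n - t')
    (hwt : 10 * a ^ 2 * t' * Ph m n ≤ w) :
    muSW.real {x : SW | ∃ k : ℕ, w < k ∧ k ≤ m ∧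
      ff m n a - w ^ 2 / (768 * gK * a ^ 4 * Ph m n) ≤
        (∑ i ∈ Finset.Icc 1 k, bw a (x.2.1 i)) + T x.1 ((k : ℤ), 1) ((m : ℤ), (n : ℤ))} ≤
      2 * Real.exp (-(w ^ 3 / (2359296 * gK ^ 4 * a ^ 6 * Ph m n ^ 2))) := by
  have hm0 : (0 : ℝ) < m := by
    have : 0 < m := by omega
    exact_mod_cast this
  have hn0 : (0 : ℝ) < n := by exact_mod_cast hn
  have hw0 : (0 : ℝ) < w := by exact_mod_cast hw
  have hwm' : (w : ℝ) < m := by exact_mod_cast hwm
  have hal0 := al_pos hm0 hn0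
  have hal1 := al_lt_one hm0 hn0
  have hPeq := Ph_eq hm0 hn0
  have hPeq' := Ph_eq' hm0 hn0
  have hd := dff_eq (a := a) hm0 hn0 (by linarith) (by linarith)
  have hK : 1 ≤ gK := gK_ge
  set K := gK with hKd
  have hK0 : 0 < K := by linarith
  set α := al m n with hα
  set P := Ph m n with hP
  set s := √(m : ℝ) + √(n : ℝ) with hs
  have ha0 : 0 < a := by linarith
  have ha1 : a < 1 := by linarith
  have hb0 : 0 < 1 - a := by linarith
  have hβ0 : 0 < 1 - α := by linarith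
  have hs0 : 0 < s := by
    have := Real.sqrt_pos.2 hm0
    have := Real.sqrt_pos.2 hn0
    positivity
  have hP0 : 0 < P := by
    rw [hPeq]
    positivity
  have haα : 3 / 4 * α ≤ a := by linarith
  have haα' : a ≤ α := by linarith
  -- bounds for the first bracket
  have c1 : (m : ℝ) / a ^ 2 - n / (1 - a) ^ 2 ≤ w / (2 * a ^ 2) := by
    rw [hd]
    have e1 : s ^ 2 = P * (α * (1 - α)) := by
      rw [hPeq]
      field_simp
    have e2 : α / a ≤ 4 / 3 := by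
      rw [div_le_iff₀ ha0]
      linarith
    have e3 : (1 - α) / (1 - a) ≤ 1 := by
      rw [div_le_one hb0]
      linarith
    have e4 : α * (1 - α) / (a * (1 - a)) ≤ 4 / 3 := by
      have : α * (1 - α) / (a * (1 - a)) = α / a * ((1 - α) / (1 - a)) := by
        field_simp
      rw [this]
      calc α / a * ((1 - α) / (1 - a)) ≤ 4 / 3 * 1 :=
            mul_le_mul e2 e3 (by positivity) (by norm_num)
        _ = 4 / 3 := by norm_num
    have e5 : s ^ 2 * (α - a) / (a * (1 - a)) * (α / a + (1 - α) / (1 - a)) =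
        P * t' * (α * (1 - α) / (a * (1 - a))) * (α / a + (1 - α) / (1 - a)) := by
      rw [e1]
      have : α - a = t' := by linarith
      rw [this]
      ring
    rw [e5]
    have e6 : P * t' * (α * (1 - α) / (a * (1 - a))) * (α / a + (1 - α) / (1 - a)) ≤
        P * t' * (4 / 3) * (7 / 3) := by
      refine mul_le_mul (mul_le_mul_of_nonneg_left e4 (by positivity)) (by linarith)
        (by positivity) (by positivity)
    refine e6.trans ?_
    rw [le_div_iff₀ (by positivity)]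
    have e7 : 0 ≤ a ^ 2 * t' * P := by positivity
    have e8 : P * t' * (4 / 3) * (7 / 3) * (2 * a ^ 2) = 56 / 9 * (a ^ 2 * t' * P) := by ring
    rw [e8]
    have e9 : 10 * a ^ 2 * t' * P = 10 * (a ^ 2 * t' * P) := by ring
    rw [e9] at hwt
    linarith
  have c3 : (m : ℝ) / a ^ 3 + n / (1 - a) ^ 3 ≤ 3 * P := by
    have e1 : (m : ℝ) / a ^ 3 ≤ 64 / 27 * (m / α ^ 3) := by
      have : (3 / 4 * α) ^ 3 ≤ a ^ 3 := pow_le_pow_left₀ (by positivity) haα 3
      have h2 : 64 / 27 * ((m : ℝ) / α ^ 3) = m / (3 / 4 * α) ^ 3 := by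
        field_simp
        norm_num
      rw [h2]
      exact div_le_div_of_nonneg_left hm0.le (by positivity) this
    have e2 : (n : ℝ) / (1 - a) ^ 3 ≤ n / (1 - α) ^ 3 :=
      div_le_div_of_nonneg_left hn0.le (by positivity) (pow_le_pow_left₀ hβ0.le (by linarith) 3)
    have e3 : 0 ≤ (n : ℝ) / (1 - α) ^ 3 := by positivity
    have e4 : 0 ≤ (m : ℝ) / α ^ 3 := by positivity
    linarith
  have c4 : (w : ℝ) ≤ 12 * a ^ 3 * P := by
    have e1 : (m : ℝ) ≤ α ^ 3 * P := by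
      have e2 : (m : ℝ) / α ^ 3 ≤ P := by
        have : 0 ≤ (n : ℝ) / (1 - α) ^ 3 := by positivity
        linarith
      rw [div_le_iff₀ (by positivity)] at e2
      linarith
    have e3 : (3 / 4 * α) ^ 3 ≤ a ^ 3 := pow_le_pow_left₀ (by positivity) haα 3
    have e4 : (3 / 4 * α) ^ 3 * P ≤ a ^ 3 * P := mul_le_mul_of_nonneg_right e3 hP0.le
    have e5 : (3 / 4 * α) ^ 3 * P = 27 / 64 * (α ^ 3 * P) := by ring
    have e6 : 0 ≤ a ^ 3 * P := by positivity
    rw [e5] at e4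
    linarith
  -- the parameter
  set u : ℝ := w / (24 * a ^ 2 * P) with hu
  have hu0 : 0 < u := by positivity
  have hua : u ≤ a / 2 := by
    rw [hu, div_le_iff₀ (by positivity)]
    have : a / 2 * (24 * a ^ 2 * P) = 12 * a ^ 3 * P := by ring
    rw [this]
    exact c4
  set z1 : ℝ := w ^ 2 / (384 * K * a ^ 4 * P) with hz1
  have hz10 : 0 < z1 := by positivity
  set D : ℝ := w ^ 3 / (2359296 * K ^ 4 * a ^ 6 * P ^ 2) with hD
  have hDpos : 0 ≤ D := by positivity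
  -- the first event
  have b1 : muSW.real {x : SW | ∃ k : ℕ, w < k ∧ k ≤ m ∧
      ff m n a - w / a - z1 ≤ (∑ i ∈ Finset.Ioc w k, bw a (x.2.1 i)) +
        T x.1 ((k : ℤ), 1) ((m : ℤ), (n : ℤ))} ≤ Real.exp (-D) := by
    refine (mgfS (a := a) (u := u) (z := ff m n a - w / a - z1) (z1 := z1) (z2 := 0)
      (D := w / (4 * a ^ 2)) hu0 (by linarith) ha1 m n w hwm hn hz10.le le_rfl (by positivity)
      ?_).trans ?_
    · intro r hr1 hr2
      have e1 := exl_diff (M := (m : ℝ) - w) (N := n) (a := a) (v := a - r) (w := w) (P := P)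
        ha0 ha1 (by linarith) hn0.le (by linarith) (by linarith) hP0 (by linarith)
        (by
          have h1 : ((m : ℝ) - w) / a ^ 2 = m / a ^ 2 - w / a ^ 2 := by ring
          have h2 : (w : ℝ) / a ^ 2 = 2 * (w / (2 * a ^ 2)) := by
            field_simp
          rw [h1, h2]
          linarith)
        (by
          have h1 : ((m : ℝ) - w) / a ^ 3 ≤ m / a ^ 3 :=
            div_le_div_of_nonneg_right (by linarith) (by positivity)
          linarith)
      have e2 : a - (a - r) = r := by ring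
      rw [e2] at e1
      have e3 : ff m n a = m / a + n / (1 - a) := rfl
      have e4 : ((m : ℝ) - w) / a = m / a - w / a := by ring
      rw [e4] at e1
      rw [e3]
      linarith
    · refine Real.exp_le_exp.2 ?_
      have e1 : z1 * u - 0 * u / K - w / (4 * a ^ 2) * u ^ 2 / (2 * K) =
          -(w ^ 3 / (9216 * K * a ^ 6 * P ^ 2)) := by
        rw [hz1, hu]
        field_simp
        ring
      rw [e1, neg_le_neg_iff, hD]
      apply div_le_div_of_nonneg_left (by positivity) (by positivity)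
      have e2 : K ≤ K ^ 4 := le_self_pow₀ hK (by norm_num)
      have e3 : 9216 * K ≤ 2359296 * K ^ 4 := by linarith
      calc 9216 * K * a ^ 6 * P ^ 2 = 9216 * K * (a ^ 6 * P ^ 2) := by ring
        _ ≤ 2359296 * K ^ 4 * (a ^ 6 * P ^ 2) := mul_le_mul_of_nonneg_right e3 (by positivity)
        _ = _ := by ring
  -- the second event
  have b2 : muSW.real {x : SW | w / a + z1 / 2 ≤ ∑ i ∈ Finset.Icc 1 w, bw a (x.2.1 i)} ≤
      Real.exp (-D) := by
    set θ : ℝ := w / (1536 * K ^ 3 * a ^ 2 * P) with hθ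
    have hθ0 : 0 < θ := by positivity
    have hθa : θ ≤ a / (2 * K) := by
      rw [hθ, div_le_div_iff₀ (by positivity) (by positivity)]
      have e1 : (w : ℝ) * (2 * K) ≤ 12 * a ^ 3 * P * (2 * K) :=
        mul_le_mul_of_nonneg_right c4 (by positivity)
      refine e1.trans ?_
      have e2 : K ≤ K ^ 3 := le_self_pow₀ hK (by norm_num)
      have e3 : 24 * K ≤ 1536 * K ^ 3 := by linarith
      calc 12 * a ^ 3 * P * (2 * K) = 24 * K * (a ^ 3 * P) := by ring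
        _ ≤ 1536 * K ^ 3 * (a ^ 3 * P) := mul_le_mul_of_nonneg_right e3 (by positivity)
        _ = _ := by ring
    have h1 := walk_max_up' (a := a) (θ := θ) (z := z1 / 2) ha0 ha1.le hθ0 hθa w
    rw [← hKd] at h1
    refine (measureReal_mono (s₂ := {x : SW | x.2.1 ∈ {y : ℕ → ℝ | ∃ k : ℕ, k ≤ w ∧
      z1 / 2 ≤ ∑ i ∈ Finset.Icc 1 k, (bw a (y i) - 1 / a)}}) ?_).trans
      ((exl_real_comp _).trans (h1.trans ?_))
    · intro x hx
      simp only [Set.mem_ofPred_eq] at hx ⊢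
      refine ⟨w, le_rfl, ?_⟩
      rw [Finset.sum_sub_distrib, Finset.sum_const, Nat.card_Icc, Nat.add_sub_cancel,
        nsmul_eq_mul, mul_one_div]
      linarith
    · refine Real.exp_le_exp.2 (le_of_eq ?_)
      rw [hθ, hz1, hD]
      field_simp
      ring
  -- union bound
  have hsub : {x : SW | ∃ k : ℕ, w < k ∧ k ≤ m ∧
      ff m n a - w ^ 2 / (768 * K * a ^ 4 * P) ≤
        (∑ i ∈ Finset.Icc 1 k, bw a (x.2.1 i)) + T x.1 ((k : ℤ), 1) ((m : ℤ), (n : ℤ))} ⊆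
      {x : SW | ∃ k : ℕ, w < k ∧ k ≤ m ∧
      ff m n a - w / a - z1 ≤ (∑ i ∈ Finset.Ioc w k, bw a (x.2.1 i)) +
        T x.1 ((k : ℤ), 1) ((m : ℤ), (n : ℤ))} ∪
      {x : SW | w / a + z1 / 2 ≤ ∑ i ∈ Finset.Icc 1 w, bw a (x.2.1 i)} := by
    rintro x ⟨k, hk1, hk2, hk3⟩
    by_contra hx
    simp only [Set.mem_union, Set.mem_ofPred_eq, not_or, not_exists, not_and, not_le] at hx
    obtain ⟨hx1, hx2⟩ := hx
    have h1 := hx1 k hk1 hk2
    have h2 : ∑ i ∈ Finset.Icc 1 k, bw a (x.2.1 i) =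
        ∑ i ∈ Finset.Icc 1 w, bw a (x.2.1 i) + ∑ i ∈ Finset.Ioc w k, bw a (x.2.1 i) := by
      have h3 : Finset.Icc 1 w = Finset.Ioc 0 w := rfl
      have h4 : Finset.Icc 1 k = Finset.Ioc 0 k := rfl
      rw [h3, h4, Finset.sum_Ioc_consecutive _ (by omega) hk1.le]
    have h5 : (w : ℝ) ^ 2 / (768 * K * a ^ 4 * P) = z1 / 2 := by
      rw [hz1]
      field_simp
      norm_num
    rw [h2, h5] at hk3
    linarith
  calc _ ≤ muSW.real ({x : SW | ∃ k : ℕ, w < k ∧ k ≤ m ∧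
      ff m n a - w / a - z1 ≤ (∑ i ∈ Finset.Ioc w k, bw a (x.2.1 i)) +
        T x.1 ((k : ℤ), 1) ((m : ℤ), (n : ℤ))} ∪
      {x : SW | w / a + z1 / 2 ≤ ∑ i ∈ Finset.Icc 1 w, bw a (x.2.1 i)}) := measureReal_mono hsub
    _ ≤ _ := measureReal_union_le _ _
    _ ≤ Real.exp (-D) + Real.exp (-D) := add_le_add b1 b2
    _ = 2 * Real.exp (-D) := by ring

end BGG
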