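import Pool.Agent.BGG.ExitLoc
import Pool.Agent.BGG.BigLow
import Pool.Agent.BGE.ExitSide

/-!
BGG / C4, C5. The stationary model with a rate larger than the critical one exits through the W
side. Adaptation of `Pool/Agent/BGE/ExitSide.lean`; `K = gK ≥ 1`, `gX = 10^10 K⁶`.

Let `0 < δ ≤ al/16`, `δ ≤ (1-al)/16`, `ρ = al + δ`, `z = δ² Ph/(96 K)`, `L = bl ρ (1 - ρ)`.
`exit_side`: `P(L (m,n) is attained by an exit on the S side) ≤ 10 exp (-δ³ Ph/gX)`.

Proof. If `δ³ Ph < 1` the right side is larger than 1. Assume `δ³ Ph ≥ 1`.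

(a) `VS`, the best value of an S exit in the model of rate `ρ`, satisfies
`P(VS ≥ ff ρ - z) ≤ exp (-δ³ Ph/(1152 K))`: with `g ρ = m/ρ + n/(1-ρ)`,
`g (ρ-v) - g ρ ≤ -δ Ph v + 6 Ph v² ≤ -(δ Ph/2) v` for `0 ≤ v ≤ u := δ/12` (see `ExitLoc` (1), and
`m/ρ² - n/(1-ρ)² ≤ -δ Ph`, `m/ρ³ + n/(1-ρ)³ ≤ 3 Ph` as in BGE); `mgfS` with `w = 0`, `a = ρ`,
threshold `ff ρ - z`, `z1 = z`, `z2 = 0`, `D = δ Ph/2`: exponent
`z δ/12 - δ³ Ph/(576 K) = - δ³ Ph/(1152 K)`. The same with `δ' = δ - t/2` below.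

(b) Let `t = δ/(10⁵ K²)` and consider on the same space `Lb = bl (ρ - t/2) (1 - ρ - t/2)`. For
`|r - ρ| ≤ t/2`, by convexity of `ff`, `ff r ≥ ff ρ - |ff' ρ| t/2` and
`0 ≤ ff' ρ = n/(1-ρ)² - m/ρ² ≤ 2.3 δ Ph`, so `ff r ≥ ff ρ - z/16` (or use `ff_eq`:
`ff r = s² + s² (r-al)²/(r(1-r))`). By `big_low` with `z0 = ff ρ - z/8`, `z2 = z/16`:
`P(Lb (m,n) ≤ ff ρ - z/8) ≤ exp (- t z/(16 K)) = exp (- δ³ Ph/(1.536·10⁸ K⁴))`.

(c) S exits of `Lb`: the S rate is `a = al + δ'`, `al ≤ a ≤ ρ`, `ff a ≤ ff ρ`. By (a) for `δ'`, with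
probability at least `1 - exp (-δ'³ Ph/(1152 K))` the best S exit of `Lb` is
`< ff a - δ'² Ph/(96 K) ≤ ff ρ - z/8`.

(d) W exits of `Lb` at height `> w`, `w = ⌈70 K b² δ Ph⌉`, `b = 1 - ρ - t/2`: by the mirror image of
`exit_loc` (exchange of the coordinates as in BGE; `t' = δ + t/2`), with probability at least
`1 - 2 exp (-δ³ Ph/(7 K))` their value is less than
`ff (1 - b) - w²/(768 K b⁴ Ph) ≤ s² + 1.2 δ² Ph - 6.3 K δ² Ph < ff ρ - z/8`.

(e) The W weights of the two models are `W_j = bw b (x.2.2 j)` for `Lb` and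
`W'_j = bw (1-ρ) (x.2.2 j)` for `L`. By `walk_max'` (twice, with `z/32` in place of `z`; note
`w ≤ 71 K b² δ Ph`, `b ≥ 14 δ`), outside of an event of probability at most
`4 exp (- b² (z/32)²/(4 K² w)) ≤ 4 exp (- δ³ Ph/(2.7·10⁹ K⁵))`,
`|∑_{j ≤ k} (W_j - 1/b)| ≤ z/32` and `|∑_{j ≤ k} (W'_j - 1/(1-ρ))| ≤ z/32` for all `k ≤ w`. And
`w (1/b - 1/(1-ρ)) ≤ 71 K b² δ Ph (t/2)/(b (1-ρ)) ≤ 36 K δ t Ph ≤ z/16`. So if the exit of `Lb` is
on the W side at a height `k ≤ w` then `L ≥ Lb - z/8 ≥ ff ρ - z/4`, and by (a) no S exit can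
attain `L`. The probabilities add up to at most `10 exp (-δ³ Ph/gX)`.
-/

namespace BGG

open MeasureTheory ProbabilityTheory BGE

variable [GeoPar]

private theorem exs_marg : Measure.map (fun x : SW => x.2.2) muSW = PI ℕ := by
  have h1 : (fun x : SW => x.2.2) = (Prod.snd ∘ Prod.snd) := rfl
  rw [h1, ← Measure.map_map measurable_snd measurable_snd]
  unfold muSW
  rw [Measure.map_snd_prod, measure_univ, one_smul, Measure.map_snd_prod, measure_univ, one_smul]

private theorem exs_real_comp {f : SW → ℕ → ℝ} (hf : Measurable f)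
    (hm : Measure.map f muSW = PI ℕ) (s : Set (ℕ → ℝ)) :
    muSW.real (f ⁻¹' s) ≤ (PI ℕ).real s := by
  unfold Measure.real
  apply ENNReal.toReal_mono (measure_ne_top _ _)
  rw [← hm]
  exact Measure.le_map_apply hf.aemeasurable s

/-- exchange of the coordinates -/
private def exsSw (x : SW) : SW := (fun v => x.1 v.swap, x.2.2, x.2.1)

private theorem exs_sw_meas : Measurable exsSw := by
  unfold exsSw
  fun_prop

private theorem exs_sw_map : Measure.map exsSw muSW = muSW := by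
  have h1 : Measure.map (fun (ω : ℤ × ℤ → ℝ) (v : ℤ × ℤ) => ω v.swap) PG =
      PG := by
    unfold PG
    exact Measure.map_infinitePi_infinitePi_of_inj (P := fun _ : ℤ × ℤ => EG)
      (f := Prod.swap) Prod.swap_injective
  have h2 : exsSw = Prod.map (fun (ω : ℤ × ℤ → ℝ) (v : ℤ × ℤ) => ω v.swap) Prod.swap := rfl
  rw [h2]
  unfold muSW
  rw [← Measure.map_prod_map _ _ (by fun_prop) measurable_swap, h1, Measure.prod_swap]

private theorem exs_sw_real (s : Set SW) : muSW.real (exsSw ⁻¹' s) ≤ muSW.real s := by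
  unfold Measure.real
  apply ENNReal.toReal_mono (measure_ne_top _ _)
  nth_rewrite 2 [← exs_sw_map]
  exact Measure.le_map_apply exs_sw_meas.aemeasurable s

/-! #### calculus -/

/-- the algebra of `A = al m n`, `P = Ph m n`, `s2 = (√m + √n)²` -/
private structure Exs (m n A P s2 : ℝ) : Prop where
  A0 : 0 < A
  A1 : A < 1
  P0 : 0 < P
  hs : s2 = P * (A * (1 - A))
  m : m = A ^ 2 * s2
  n : n = (1 - A) ^ 2 * s2

omit [GeoPar] in
private theorem exs_data {m n : ℝ} (hm : 0 < m) (hn : 0 < n) :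
    Exs m n (al m n) (Ph m n) ((√m + √n) ^ 2) := by
  have h1 := al_pos hm hn
  have h2 := al_lt_one hm hn
  have h3 : 0 < (√m + √n) ^ 2 := by
    have := Real.sqrt_pos.2 hm
    have := Real.sqrt_pos.2 hn
    positivity
  have h4 : 0 < al m n * (1 - al m n) := mul_pos h1 (by linarith)
  have h5 := Ph_eq hm hn
  refine ⟨h1, h2, ?_, ?_, m_eq hm hn, n_eq hm hn⟩
  · rw [h5]
    positivity
  · rw [h5, div_mul_cancel₀ _ h4.ne']

omit [GeoPar] in
private theorem Exs.pos {m n A P s2 : ℝ} (h : Exs m n A P s2) : 0 < s2 := by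
  rw [h.hs]
  exact mul_pos h.P0 (mul_pos h.A0 (by linarith [h.A1]))

omit [GeoPar] in
/-- the difference of the values of the shape function -/
private theorem Exs.diff {m n A P s2 : ℝ} (h : Exs m n A P s2) {x y : ℝ} (hx : 0 < x)
    (hx1 : x < 1) (hy : 0 < y) (hy1 : y < 1) :
    m / y + n / (1 - y) - (m / x + n / (1 - x)) =
      -((x - y) * P * (A * (1 - A)) * (((x - A) + (y - A)) * (A * (1 - A)) +
        (x - A) * (y - A) * (1 - 2 * A)) / (x * y * ((1 - x) * (1 - y)))) := by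
  have hx' : 1 - x ≠ 0 := by
    have : 0 < 1 - x := by linarith
    exact this.ne'
  have hy' : 1 - y ≠ 0 := by
    have : 0 < 1 - y := by linarith
    exact this.ne'
  rw [h.m, h.n, h.hs]
  field_simp
  ring

omit [GeoPar] in
/-- upper bound of the difference to the left of the rate -/
private theorem Exs.left {m n A P s2 : ℝ} (h : Exs m n A P s2) {δ : ℝ} (hδ : 0 < δ)
    (h1 : δ ≤ A / 16) (h2 : δ ≤ (1 - A) / 16) {r : ℝ} (hr1 : A + δ - δ / 12 ≤ r)
    (hr2 : r ≤ A + δ) :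
    m / r + n / (1 - r) - (m / (A + δ) + n / (1 - (A + δ))) ≤ -(δ * P / 2 * (A + δ - r)) := by
  have hA := h.A0
  have hA1 := h.A1
  have hP := h.P0
  have hx : 0 < A + δ := by linarith
  have hx1 : A + δ < 1 := by linarith
  have hy : 0 < r := by linarith
  have hy1 : r < 1 := by linarith
  rw [h.diff hx hx1 hy hy1, neg_le_neg_iff]
  have hA2 : 0 < A * (1 - A) := mul_pos hA (by linarith)
  have hd : 0 < (A + δ) * r * ((1 - (A + δ)) * (1 - r)) :=
    mul_pos (mul_pos hx hy) (mul_pos (by linarith) (by linarith))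
  rw [le_div_iff₀ hd]
  have e1 : A + δ - A = δ := by ring
  rw [e1]
  have hβ : 11 / 12 * δ ≤ r - A := by linarith
  have hβ1 : r - A ≤ δ := by linarith
  set β := r - A with hβd
  -- the bracket
  have hm1 : -(δ * (A * (1 - A)) / 16) ≤ δ * β * (1 - 2 * A) := by
    have f1 : -A ≤ 1 - 2 * A := by linarith
    have f2 : δ * β * (-A) ≤ δ * β * (1 - 2 * A) :=
      mul_le_mul_of_nonneg_left f1 (mul_nonneg hδ.le (by linarith))
    have f3 : β * A ≤ (1 - A) / 16 * A := mul_le_mul_of_nonneg_right (by linarith) hA.le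
    have f4 : δ * (β * A) ≤ δ * ((1 - A) / 16 * A) := mul_le_mul_of_nonneg_left f3 hδ.le
    linarith
  have hm2 : 23 / 12 * δ * (A * (1 - A)) ≤ (δ + β) * (A * (1 - A)) :=
    mul_le_mul_of_nonneg_right (by linarith) hA2.le
  have hbr : 89 / 48 * δ * (A * (1 - A)) ≤ (δ + β) * (A * (1 - A)) + δ * β * (1 - 2 * A) := by
    linarith
  have hden : (A + δ) * r * ((1 - (A + δ)) * (1 - r)) ≤ 289 / 256 * (A * (1 - A)) ^ 2 := by
    have f1 : (A + δ) * r ≤ (17 / 16 * A) * (17 / 16 * A) :=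
      mul_le_mul (by linarith) (by linarith) hy.le (by linarith)
    have f2 : (1 - (A + δ)) * (1 - r) ≤ (1 - A) * (1 - A) :=
      mul_le_mul (by linarith) (by linarith) (by linarith) (by linarith)
    have f3 : (A + δ) * r * ((1 - (A + δ)) * (1 - r)) ≤
        (17 / 16 * A) * (17 / 16 * A) * ((1 - A) * (1 - A)) :=
      mul_le_mul f1 f2 (mul_nonneg (by linarith) (by linarith)) (by positivity)
    calc _ ≤ _ := f3
      _ = 289 / 256 * (A * (1 - A)) ^ 2 := by ring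
  have hv : 0 ≤ A + δ - r := by linarith
  have hPv : 0 ≤ P * (A + δ - r) := mul_nonneg hP.le hv
  calc δ * P / 2 * (A + δ - r) * ((A + δ) * r * ((1 - (A + δ)) * (1 - r)))
      ≤ δ * P / 2 * (A + δ - r) * (289 / 256 * (A * (1 - A)) ^ 2) :=
        mul_le_mul_of_nonneg_left hden (mul_nonneg (by positivity) hv)
    _ = 289 / 512 * (P * (A + δ - r) * (δ * (A * (1 - A)) ^ 2)) := by ring
    _ ≤ 89 / 48 * (P * (A + δ - r) * (δ * (A * (1 - A)) ^ 2)) :=
        mul_le_mul_of_nonneg_right (by norm_num) (mul_nonneg hPv (by positivity))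
    _ = (A + δ - r) * P * (A * (1 - A)) * (89 / 48 * δ * (A * (1 - A))) := by ring
    _ ≤ (A + δ - r) * P * (A * (1 - A)) * ((δ + β) * (A * (1 - A)) + δ * β * (1 - 2 * A)) :=
        mul_le_mul_of_nonneg_left hbr (mul_nonneg (mul_nonneg hv hP.le) hA2.le)

omit [GeoPar] in
/-- lower bound of the shape function near the rate -/
private theorem Exs.near {m n A P s2 : ℝ} (h : Exs m n A P s2) {δ τ : ℝ} (hδ : 0 < δ)
    (h1 : δ ≤ A / 16) (h2 : δ ≤ (1 - A) / 16) (hτ : 0 ≤ τ) (hτδ : τ ≤ δ) :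
    m / (A + δ) + n / (1 - (A + δ)) - 5 / 2 * τ * δ * P ≤
      m / (A + δ - τ) + n / (1 - (A + δ - τ)) := by
  have hA := h.A0
  have hA1 := h.A1
  have hP := h.P0
  have hx : 0 < A + δ := by linarith
  have hx1 : A + δ < 1 := by linarith
  have hy : 0 < A + δ - τ := by linarith
  have hy1 : A + δ - τ < 1 := by linarith
  have key := h.diff hx hx1 hy hy1
  have hA2 : 0 < A * (1 - A) := mul_pos hA (by linarith)
  have hd : 0 < (A + δ) * (A + δ - τ) * ((1 - (A + δ)) * (1 - (A + δ - τ))) :=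
    mul_pos (mul_pos hx hy) (mul_pos (by linarith) (by linarith))
  have e1 : A + δ - A = δ := by ring
  have e2 : A + δ - (A + δ - τ) = τ := by ring
  rw [e1, e2] at key
  have hβ1 : A + δ - τ - A ≤ δ := by linarith
  have hβ0 : 0 ≤ A + δ - τ - A := by linarith
  set β := A + δ - τ - A with hβd
  have hm1 : δ * β * (1 - 2 * A) ≤ δ * (A * (1 - A)) / 16 := by
    have f1 : 1 - 2 * A ≤ 1 - A := by linarith
    have f2 : δ * β * (1 - 2 * A) ≤ δ * β * (1 - A) :=
      mul_le_mul_of_nonneg_left f1 (mul_nonneg hδ.le hβ0)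
    have f3 : β * (1 - A) ≤ A / 16 * (1 - A) :=
      mul_le_mul_of_nonneg_right (by linarith) (by linarith)
    have f4 : δ * (β * (1 - A)) ≤ δ * (A / 16 * (1 - A)) := mul_le_mul_of_nonneg_left f3 hδ.le
    linarith
  have hm2 : (δ + β) * (A * (1 - A)) ≤ 2 * δ * (A * (1 - A)) :=
    mul_le_mul_of_nonneg_right (by linarith) hA2.le
  have hbr : (δ + β) * (A * (1 - A)) + δ * β * (1 - 2 * A) ≤ 33 / 16 * δ * (A * (1 - A)) := by
    linarith
  have hden : 225 / 256 * (A * (1 - A)) ^ 2 ≤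
      (A + δ) * (A + δ - τ) * ((1 - (A + δ)) * (1 - (A + δ - τ))) := by
    have f1 : A * A ≤ (A + δ) * (A + δ - τ) :=
      mul_le_mul (by linarith) (by linarith) hA.le (by linarith)
    have f2 : (15 / 16 * (1 - A)) * (15 / 16 * (1 - A)) ≤ (1 - (A + δ)) * (1 - (A + δ - τ)) :=
      mul_le_mul (by linarith) (by linarith) (by linarith) (by linarith)
    have f3 : A * A * ((15 / 16 * (1 - A)) * (15 / 16 * (1 - A))) ≤
        (A + δ) * (A + δ - τ) * ((1 - (A + δ)) * (1 - (A + δ - τ))) :=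
      mul_le_mul f1 f2 (mul_nonneg (by linarith) (by linarith)) (by positivity)
    calc 225 / 256 * (A * (1 - A)) ^ 2 = A * A * ((15 / 16 * (1 - A)) * (15 / 16 * (1 - A))) := by
          ring
      _ ≤ _ := f3
  have hfin : τ * P * (A * (1 - A)) * ((δ + β) * (A * (1 - A)) + δ * β * (1 - 2 * A)) /
      ((A + δ) * (A + δ - τ) * ((1 - (A + δ)) * (1 - (A + δ - τ)))) ≤ 5 / 2 * τ * δ * P := by
    rw [div_le_iff₀ hd]
    calc τ * P * (A * (1 - A)) * ((δ + β) * (A * (1 - A)) + δ * β * (1 - 2 * A))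
        ≤ τ * P * (A * (1 - A)) * (33 / 16 * δ * (A * (1 - A))) :=
          mul_le_mul_of_nonneg_left hbr (mul_nonneg (mul_nonneg hτ hP.le) hA2.le)
      _ = 33 / 16 * (τ * δ * P * (A * (1 - A)) ^ 2) := by ring
      _ ≤ 1125 / 512 * (τ * δ * P * (A * (1 - A)) ^ 2) :=
          mul_le_mul_of_nonneg_right (by norm_num) (by positivity)
      _ = 5 / 2 * τ * δ * P * (225 / 256 * (A * (1 - A)) ^ 2) := by ring
      _ ≤ _ := mul_le_mul_of_nonneg_left hden (by positivity)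
  linarith

/-- the exits on the S side -/
private theorem exs_S {m n : ℕ} (hm : 1 ≤ m) (hn : 1 ≤ n) {δ : ℝ} (hδ : 0 < δ)
    (h1 : δ ≤ al m n / 16) (h2 : δ ≤ (1 - al m n) / 16) :
    muSW.real {x : SW | ∃ k : ℕ, 0 < k ∧ k ≤ m ∧
      ff m n (al m n + δ) - δ ^ 2 * Ph m n / (96 * gK) ≤
      (∑ i ∈ Finset.Ioc 0 k, bw (al m n + δ) (x.2.1 i)) + T x.1 ((k : ℤ), 1) ((m : ℤ), (n : ℤ))} ≤
      Real.exp (-(δ ^ 3 * Ph m n / (1152 * gK))) := by
  have hm0 : (0 : ℝ) < m := by exact_mod_cast hm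
  have hn0 : (0 : ℝ) < n := by exact_mod_cast hn
  have D := exs_data hm0 hn0
  have hK : 1 ≤ gK := gK_ge
  have hK0 : 0 < gK := by linarith
  set A := al m n with hA
  set P := Ph m n with hP
  have hA0 := D.A0
  have hA1 := D.A1
  have hP0 := D.P0
  have hr : 0 < A + δ := by linarith
  have hr1 : 0 < 1 - (A + δ) := by linarith
  have key := mgfS (a := A + δ) (u := δ / 12) (z := ff m n (A + δ) - δ ^ 2 * P / (96 * gK))
    (z1 := δ ^ 2 * P / (96 * gK)) (z2 := 0) (D := δ * P / 2) (by positivity) (by linarith)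
    (by linarith) m n 0 (by omega) hn (by positivity) le_rfl (by positivity) (by
      intro r hr1 hr2
      have h3 := D.left hδ h1 h2 hr1 hr2
      have h4 : ff m n (A + δ) = m / (A + δ) + n / (1 - (A + δ)) := rfl
      rw [h4, Nat.cast_zero, sub_zero, sub_zero]
      linarith)
  refine key.trans (Real.exp_le_exp.2 (le_of_eq ?_))
  field_simp
  ring

omit [GeoPar] in
/-- the shape function is increasing to the right of the critical rate -/
private theorem Exs.mono {m n A P s2 : ℝ} (h : Exs m n A P s2) {a ρ : ℝ} (h1 : A ≤ a)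
    (h2 : a ≤ ρ) (h3 : ρ < 1) : ff m n a ≤ ff m n ρ := by
  have hA := h.A0
  have hs := h.pos
  have ha0 : 0 < a := by linarith
  have hr0 : 0 < ρ := by linarith
  have ha1 : 0 < 1 - a := by linarith
  have hr1 : 0 < 1 - ρ := by linarith
  unfold ff
  have e1 : m / ρ + n / (1 - ρ) - (m / a + n / (1 - a)) =
      (ρ - a) * s2 * ((1 - A) ^ 2 / ((1 - a) * (1 - ρ)) - A ^ 2 / (a * ρ)) := by
    rw [h.m, h.n]
    field_simp
    ring
  have e2 : A ^ 2 / (a * ρ) ≤ 1 := by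
    rw [div_le_one (by positivity)]
    nlinarith
  have e3 : 1 ≤ (1 - A) ^ 2 / ((1 - a) * (1 - ρ)) := by
    rw [one_le_div (by positivity)]
    nlinarith
  have e4 : 0 ≤ (ρ - a) * s2 * ((1 - A) ^ 2 / ((1 - a) * (1 - ρ)) - A ^ 2 / (a * ρ)) := by
    apply mul_nonneg (mul_nonneg (by linarith) hs.le)
    linarith
  linarith

omit [GeoPar] in
/-- the numbers for the high exits on the W side -/
private theorem exs_num {A P s2 δ t b w K : ℝ} (hP : 0 < P) (hK : 1 ≤ K)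
    (hs : s2 = P * (A * (1 - A))) (hδ : 0 < δ) (h1 : δ ≤ A / 16) (h2 : δ ≤ (1 - A) / 16)
    (ht0 : 0 < t) (ht : t ≤ δ / 100000) (hb : b = 1 - A - δ - t / 2)
    (hw : 70 * K * b ^ 2 * δ * P ≤ w) :
    s2 + s2 * ((1 - b) - A) ^ 2 / ((1 - b) * (1 - (1 - b))) - w ^ 2 / (768 * K * b ^ 4 * P) ≤
      s2 - δ ^ 2 * P / (96 * K) / 8 := by
  have hK0 : 0 < K := by linarith
  have hb0 : 0 < b := by rw [hb]; linarith
  have hb1 : 0 < 1 - b := by rw [hb]; linarith
  have e0 : 1 - (1 - b) = b := by ring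
  have e1 : (1 - b) - A = δ + t / 2 := by rw [hb]; ring
  rw [e0, e1]
  have hAb : A ≤ 1 - b := by rw [hb]; linarith
  have hAb' : 1 - A ≤ 27 / 25 * b := by rw [hb]; linarith
  have hPδ : 0 < δ ^ 2 * P := by positivity
  have e2 : s2 * (δ + t / 2) ^ 2 / ((1 - b) * b) ≤ 6 / 5 * (δ ^ 2 * P) := by
    rw [div_le_iff₀ (by positivity), hs]
    have f1 : A * (1 - A) ≤ (1 - b) * (27 / 25 * b) :=
      mul_le_mul hAb hAb' (by linarith) hb1.le
    have f2 : (δ + t / 2) ^ 2 ≤ 10 / 9 * δ ^ 2 := by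
      have g1 : δ + t / 2 ≤ 21 / 20 * δ := by linarith
      have g2 : (δ + t / 2) ^ 2 ≤ (21 / 20 * δ) ^ 2 := pow_le_pow_left₀ (by positivity) g1 2
      have g3 : (21 / 20 * δ) ^ 2 = 441 / 400 * δ ^ 2 := by ring
      have g4 : 0 ≤ δ ^ 2 := by positivity
      linarith
    have f3 : A * (1 - A) * (δ + t / 2) ^ 2 ≤ (1 - b) * (27 / 25 * b) * (10 / 9 * δ ^ 2) :=
      mul_le_mul f1 f2 (by positivity) (by positivity)
    calc P * (A * (1 - A)) * (δ + t / 2) ^ 2 = P * (A * (1 - A) * (δ + t / 2) ^ 2) := by ring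
      _ ≤ P * ((1 - b) * (27 / 25 * b) * (10 / 9 * δ ^ 2)) := mul_le_mul_of_nonneg_left f3 hP.le
      _ = 6 / 5 * (δ ^ 2 * P) * ((1 - b) * b) := by ring
  have e3 : 6 * (δ ^ 2 * P) ≤ w ^ 2 / (768 * K * b ^ 4 * P) := by
    rw [le_div_iff₀ (by positivity)]
    have f1 : (70 * K * b ^ 2 * δ * P) ^ 2 ≤ w ^ 2 := pow_le_pow_left₀ (by positivity) hw 2
    have f0 : 0 ≤ K * (b ^ 4 * δ ^ 2 * P ^ 2) := by positivity
    have f2 : 1 * (K * (b ^ 4 * δ ^ 2 * P ^ 2)) ≤ K * (K * (b ^ 4 * δ ^ 2 * P ^ 2)) :=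
      mul_le_mul_of_nonneg_right hK f0
    have f3 : 6 * (δ ^ 2 * P) * (768 * K * b ^ 4 * P) = 4608 * (K * (b ^ 4 * δ ^ 2 * P ^ 2)) := by
      ring
    have f4 : (70 * K * b ^ 2 * δ * P) ^ 2 = 4900 * (K * (K * (b ^ 4 * δ ^ 2 * P ^ 2))) := by ring
    linarith
  have e4 : δ ^ 2 * P / (96 * K) / 8 ≤ δ ^ 2 * P := by
    rw [div_div]
    exact div_le_self hPδ.le (by linarith)
  linarith

omit [GeoPar] in
private theorem exs_exp {Y K c : ℝ} {e : ℕ} (he : e ≤ 6) (hY : 0 ≤ Y) (hK : 1 ≤ K) (hc : 0 < c)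
    (hc1 : c ≤ 10 ^ 10) : Real.exp (-(Y / (c * K ^ e))) ≤ Real.exp (-(Y / (10 ^ 10 * K ^ 6))) := by
  have hK0 : 0 < K := by linarith
  rw [Real.exp_le_exp, neg_le_neg_iff]
  apply div_le_div_of_nonneg_left hY (by positivity)
  exact mul_le_mul hc1 (pow_le_pow_right₀ hK he) (by positivity) (by norm_num)

omit [GeoPar] in
private theorem exs_hex {K P δ b z Y c : ℝ} {w : ℕ} (hP : 0 < P) (hK : 1 ≤ K) (hδ : 0 < δ)
    (hY : Y = δ ^ 3 * P) (hz : z = δ ^ 2 * P / (96 * K)) (hb : 0 < b) (hw0 : (0 : ℝ) < w)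
    (hw : (w : ℝ) ≤ 71 * K * b ^ 2 * δ * P) (hc : b ≤ c) :
    Y / (2700000000 * K ^ 5) ≤ c ^ 2 * (z / 32) ^ 2 / (4 * K ^ 2 * w) := by
  have hK0 : 0 < K := by linarith
  have hY0 : 0 ≤ Y := by rw [hY]; positivity
  rw [div_le_div_iff₀ (by positivity) (by positivity)]
  have f1 : b ^ 2 ≤ c ^ 2 := pow_le_pow_left₀ hb.le hc 2
  have f2 : (z / 32) ^ 2 = δ ^ 4 * P ^ 2 / (9437184 * K ^ 2) := by
    rw [hz]
    field_simp
    norm_num
  have f3 : Y * (4 * K ^ 2 * w) ≤ Y * (4 * K ^ 2 * (71 * K * b ^ 2 * δ * P)) :=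
    mul_le_mul_of_nonneg_left (mul_le_mul_of_nonneg_left hw (by positivity)) hY0
  refine f3.trans ?_
  have f4 : b ^ 2 * (z / 32) ^ 2 * (2700000000 * K ^ 5) ≤
      c ^ 2 * (z / 32) ^ 2 * (2700000000 * K ^ 5) :=
    mul_le_mul_of_nonneg_right (mul_le_mul_of_nonneg_right f1 (by positivity)) (by positivity)
  refine le_trans ?_ f4
  have f5 : b ^ 2 * (z / 32) ^ 2 * (2700000000 * K ^ 5) =
      2700000000 / 9437184 * (b ^ 2 * δ ^ 4 * P ^ 2 * K ^ 3) := by
    rw [f2]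
    field_simp
  have f6 : Y * (4 * K ^ 2 * (71 * K * b ^ 2 * δ * P)) = 284 * (b ^ 2 * δ ^ 4 * P ^ 2 * K ^ 3) := by
    rw [hY]
    ring
  rw [f5, f6]
  exact mul_le_mul_of_nonneg_right (by norm_num) (by positivity)

omit [GeoPar] in
private theorem exs_hcw {K P δ b z c w : ℝ} (hP : 0 < P) (hK : 1 ≤ K) (hδ : 0 < δ)
    (hz : z = δ ^ 2 * P / (96 * K)) (hb : 14 * δ ≤ b)
    (hKb : b ^ 2 * δ * P ≤ K * b ^ 2 * δ * P) (hw : 70 * K * b ^ 2 * δ * P ≤ w)
    (hc : c ≤ 2 * b) : c * (z / 32) ≤ w := by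
  refine le_trans ?_ hw
  have hb0 : 0 < b := by linarith
  have hPδ : 0 < δ ^ 2 * P := by positivity
  have hz0 : 0 < z := by rw [hz]; positivity
  have f0 : z / 32 ≤ δ ^ 2 * P := by
    rw [hz, div_div]
    exact div_le_self hPδ.le (by linarith)
  have f1 : c * (z / 32) ≤ 2 * b * (δ ^ 2 * P) := mul_le_mul hc f0 (by positivity) (by positivity)
  have f2 : 2 * b * (δ ^ 2 * P) = 2 * (b * δ * P) * δ := by ring
  have f3 : 2 * (b * δ * P) * δ ≤ 2 * (b * δ * P) * b :=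
    mul_le_mul_of_nonneg_left (by linarith) (by positivity)
  have f4 : 0 ≤ b ^ 2 * δ * P := by positivity
  linarith

theorem exit_side {m n : ℕ} (hm : 1 ≤ m) (hn : 1 ≤ n) {δ : ℝ} (hδ : 0 < δ)
    (h1 : δ ≤ al m n / 16) (h2 : δ ≤ (1 - al m n) / 16) :
    muSW.real (ExS (al m n + δ) (1 - (al m n + δ)) m n) ≤
      10 * Real.exp (-(δ ^ 3 * Ph m n / gX)) := by
  have hm0 : (0 : ℝ) < m := by exact_mod_cast hm
  have hn0 : (0 : ℝ) < n := by exact_mod_cast hn
  have D := exs_data hm0 hn0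
  have D' := exs_data hn0 hm0
  have hS := exs_S hm hn hδ h1 h2
  have hff := fun (ρ : ℝ) (h0 : 0 < ρ) (h1 : ρ < 1) => ff_eq hm0 hn0 h0 h1
  have hswA := al_swap hm0 hn0
  have hswP := Ph_swap (m : ℝ) n
  have hK : 1 ≤ gK := gK_ge
  have hgX : gX = 10 ^ 10 * gK ^ 6 := rfl
  rw [hgX]
  obtain ⟨K, hKd⟩ : ∃ K, K = gK := ⟨_, rfl⟩
  obtain ⟨A, hA⟩ : ∃ A, A = al m n := ⟨_, rfl⟩
  obtain ⟨P, hP⟩ : ∃ P, P = Ph m n := ⟨_, rfl⟩
  obtain ⟨s2, hs2⟩ : ∃ s2, s2 = (√(m : ℝ) + √(n : ℝ)) ^ 2 := ⟨_, rfl⟩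
  rw [← hKd] at hS hK
  rw [← hA, ← hP, ← hs2] at D
  rw [← hA] at h1 h2
  rw [← hA, ← hP] at hS
  rw [← hA] at hswA
  rw [← hP] at hswP
  simp only [← hA, ← hs2] at hff
  rw [← hKd, ← hA, ← hP]
  have hK0 : 0 < K := by linarith
  have hA0 := D.A0
  have hA1 := D.A1
  have hP0 := D.P0
  have hs0 := D.pos
  rcases lt_or_ge (δ ^ 3 * P) 1 with hsmall | hlarge
  · have q1 : muSW.real (ExS (A + δ) (1 - (A + δ)) m n) ≤ 1 := measureReal_le_one
    have q2 := Real.add_one_le_exp (-(δ ^ 3 * P / (10 ^ 10 * K ^ 6)))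
    have q3 : δ ^ 3 * P / (10 ^ 10 * K ^ 6) ≤ 1 / 2 := by
      rw [div_le_iff₀ (by positivity)]
      have q4 : (1 : ℝ) ≤ K ^ 6 := one_le_pow₀ hK
      linarith
    linarith
  obtain ⟨t, ht⟩ : ∃ t, t = δ / (100000 * K ^ 2) := ⟨_, rfl⟩
  have ht0 : 0 < t := by rw [ht]; positivity
  have htd : t ≤ δ / 100000 := by
    rw [ht]
    apply div_le_div_of_nonneg_left hδ.le (by norm_num)
    have : (1 : ℝ) ≤ K ^ 2 := one_le_pow₀ hK
    linarith
  obtain ⟨b, hb⟩ : ∃ b, b = 1 - A - δ - t / 2 := ⟨_, rfl⟩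
  obtain ⟨δ', hδ'⟩ : ∃ δ', δ' = δ - t / 2 := ⟨_, rfl⟩
  have hδ0' : 0 < δ' := by rw [hδ']; linarith
  have hδ1' : δ' ≤ δ := by rw [hδ']; linarith
  have hδ2' : 9 / 10 * δ ≤ δ' := by rw [hδ']; linarith
  have hS' := exs_S hm hn hδ0' (by rw [← hA]; linarith) (by rw [← hA]; linarith)
  rw [← hA, ← hP, ← hKd] at hS'
  have hb0 : 14 * δ ≤ b := by rw [hb]; linarith
  have hb1 : 0 < b := by linarith
  obtain ⟨w, hw⟩ : ∃ w, w = ⌈70 * K * b ^ 2 * δ * P⌉₊ := ⟨_, rfl⟩
  have hw0 : 0 < 70 * K * b ^ 2 * δ * P := by positivity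
  have hw1 : 1 ≤ w := by rw [hw]; exact Nat.ceil_pos.2 hw0
  have hw2 : 70 * K * b ^ 2 * δ * P ≤ w := by rw [hw]; exact Nat.le_ceil _
  have hb2 : 196 * (δ ^ 3 * P) ≤ b ^ 2 * δ * P := by
    have f1 : (14 * δ) ^ 2 ≤ b ^ 2 := pow_le_pow_left₀ (by positivity) hb0 2
    have f2 : (14 * δ) ^ 2 * (δ * P) ≤ b ^ 2 * (δ * P) :=
      mul_le_mul_of_nonneg_right f1 (by positivity)
    have f3 : (14 * δ) ^ 2 * (δ * P) = 196 * (δ ^ 3 * P) := by ring
    have f4 : b ^ 2 * (δ * P) = b ^ 2 * δ * P := by ring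
    rw [f3, f4] at f2
    exact f2
  have hKb : b ^ 2 * δ * P ≤ K * b ^ 2 * δ * P := by
    have f1 : 0 ≤ b ^ 2 * δ * P := by positivity
    have f2 : 1 * (b ^ 2 * δ * P) ≤ K * (b ^ 2 * δ * P) := mul_le_mul_of_nonneg_right hK f1
    linarith
  have hw3 : (w : ℝ) ≤ 71 * K * b ^ 2 * δ * P := by
    have := (Nat.ceil_lt_add_one hw0.le).le
    rw [← hw] at this
    have h3 : (1 : ℝ) ≤ K * b ^ 2 * δ * P := by linarith
    linarith
  have hwpos : (0 : ℝ) < w := by exact_mod_cast hw1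
  obtain ⟨Y, hY⟩ : ∃ Y, Y = δ ^ 3 * P := ⟨_, rfl⟩
  rw [← hY] at hlarge hS hb2 ⊢
  have hY0 : 0 ≤ Y := by linarith
  have hPδ : 0 < δ ^ 2 * P := by positivity
  obtain ⟨z, hz⟩ : ∃ z, z = δ ^ 2 * P / (96 * K) := ⟨_, rfl⟩
  rw [← hz] at hS
  have hz0 : 0 < z := by rw [hz]; positivity
  have hbc : b ≤ 1 - (A + δ) := by rw [hb]; linarith
  have hcb : 1 - (A + δ) ≤ 2 * b := by rw [hb]; linarith
  have hc0 : 0 < 1 - (A + δ) := by linarith
  -- the events
  set S1 : Set SW := {x : SW | ∃ k : ℕ, 0 < k ∧ k ≤ m ∧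
      ff m n (A + δ) - z ≤
      (∑ i ∈ Finset.Ioc 0 k, bw (A + δ) (x.2.1 i)) + T x.1 ((k : ℤ), 1) ((m : ℤ), (n : ℤ))}
    with hS1
  set S3 : Set SW := {x : SW | ∃ k : ℕ, 0 < k ∧ k ≤ m ∧
      ff m n (A + δ') - δ' ^ 2 * P / (96 * K) ≤
      (∑ i ∈ Finset.Ioc 0 k, bw (A + δ') (x.2.1 i)) + T x.1 ((k : ℤ), 1) ((m : ℤ), (n : ℤ))}
    with hS3
  set S2 : Set SW := {x : SW | bl (A + δ - t / 2) (1 - (A + δ) - t / 2) x ((m : ℤ), (n : ℤ)) ≤
      m / (A + δ) + n / (1 - (A + δ)) - z / 8} with hS2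
  set S4 : Set SW := {x : SW | ∃ k : ℕ, w < k ∧ k ≤ n ∧
      ff n m b - w ^ 2 / (768 * K * b ^ 4 * P) ≤
        (∑ j ∈ Finset.Icc 1 k, bw b (x.2.2 j)) + T x.1 (1, (k : ℤ)) ((m : ℤ), (n : ℤ))} with hS4
  set S5 : Set SW := {x : SW | ∃ k : ℕ, k ≤ w ∧
      z / 32 ≤ |∑ i ∈ Finset.Icc 1 k, (bw b (x.2.2 i) - 1 / b)|} with hS5
  set S6 : Set SW := {x : SW | ∃ k : ℕ, k ≤ w ∧
      z / 32 ≤ |∑ i ∈ Finset.Icc 1 k, (bw (1 - (A + δ)) (x.2.2 i) - 1 / (1 - (A + δ)))|}
    with hS6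
  have p1 : muSW.real S1 ≤ Real.exp (-(Y / (10 ^ 10 * K ^ 6))) := by
    refine hS.trans ?_
    have := exs_exp (Y := Y) (K := K) (c := 1152) (e := 1) (by norm_num) hY0 hK (by norm_num)
      (by norm_num)
    rwa [pow_one] at this
  have p3 : muSW.real S3 ≤ Real.exp (-(Y / (10 ^ 10 * K ^ 6))) := by
    refine hS'.trans ?_
    have h3 := exs_exp (Y := Y) (K := K) (c := 2304) (e := 1) (by norm_num) hY0 hK (by norm_num)
      (by norm_num)
    rw [pow_one] at h3
    refine le_trans (Real.exp_le_exp.2 ?_) h3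
    rw [neg_le_neg_iff]
    have f1 : (9 / 10 * δ) ^ 3 ≤ δ' ^ 3 := pow_le_pow_left₀ (by positivity) hδ2' 3
    have f2 : (9 / 10 * δ) ^ 3 * P ≤ δ' ^ 3 * P := mul_le_mul_of_nonneg_right f1 hP0.le
    have f3 : (9 / 10 * δ) ^ 3 * P = 729 / 1000 * Y := by rw [hY]; ring
    rw [f3] at f2
    have f4 : Y / (2304 * K) = Y / 2 / (1152 * K) := by
      field_simp
      norm_num
    rw [f4]
    apply div_le_div_of_nonneg_right _ (by positivity)
    linarith
  have p2 : muSW.real S2 ≤ Real.exp (-(Y / (10 ^ 10 * K ^ 6))) := by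
    have hbl := big_low (a := A + δ - t / 2) (b := 1 - (A + δ) - t / 2)
      (z0 := m / (A + δ) + n / (1 - (A + δ)) - z / 8) (z2 := z / 16)
      (by linarith) (by linarith) (by linarith) m n hm hn (by linarith) (by
        intro r hr1 hr2
        have g1 : r ≤ A + δ + t / 2 := by linarith
        have g2 := D.near hδ h1 h2 (τ := t / 2) (by linarith) (by linarith)
        have g3 := D.mono (a := A + δ - t / 2) (ρ := r) (by linarith) hr1 (by linarith)
        unfold ff at g3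
        have g4 : 5 / 2 * (t / 2) * δ * P ≤ z / 16 := by
          have g5 : 5 / 2 * (t / 2) * δ * P = δ ^ 2 * P / K * (5 / (400000 * K)) := by
            rw [ht]
            field_simp
            ring
          have g6 : z / 16 = δ ^ 2 * P / K * (1 / 1536) := by
            rw [hz]
            field_simp
            norm_num
          rw [g5, g6]
          apply mul_le_mul_of_nonneg_left _ (by positivity)
          rw [div_le_div_iff₀ (by positivity) (by norm_num)]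
          linarith
        linarith)
    refine hbl.trans ?_
    have h3 := exs_exp (Y := Y) (K := K) (c := 153600000) (e := 4) (by norm_num) hY0 hK
      (by norm_num) (by norm_num)
    refine le_trans (Real.exp_le_exp.2 (le_of_eq ?_)) h3
    rw [neg_inj]
    have f1 : 1 - (1 - (A + δ) - t / 2) - (A + δ - t / 2) = t := by ring
    rw [f1, hz, ht, hY, ← hKd]
    field_simp
    norm_num
  have p4 : muSW.real S4 ≤ 2 * Real.exp (-(Y / (10 ^ 10 * K ^ 6))) := by
    rcases le_or_gt n w with hnw | hnw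
    · have : S4 = ∅ := by
        ext x
        simp only [hS4, Set.mem_ofPred_eq, Set.mem_empty_iff_false, iff_false]
        rintro ⟨k, k1, k2, _⟩
        omega
      rw [this, measureReal_empty]
      positivity
    · have hloc := exit_loc (m := n) (n := m) (w := w) hm hw1 hnw (t' := δ + t / 2) (a := b)
        (by positivity) (by rw [hswA]; linarith) (by rw [hswA]; linarith)
        (by rw [hswA, hb]; ring) (by
          rw [hswP]
          refine le_trans ?_ hw2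
          have f1 : 0 < b ^ 2 * P := by positivity
          have f2 : 10 * (δ + t / 2) ≤ 70 * δ := by linarith
          calc 10 * b ^ 2 * (δ + t / 2) * P = (b ^ 2 * P) * (10 * (δ + t / 2)) := by ring
            _ ≤ (b ^ 2 * P) * (70 * δ) := mul_le_mul_of_nonneg_left f2 f1.le
            _ = 70 * (b ^ 2 * δ * P) := by ring
            _ ≤ 70 * (K * b ^ 2 * δ * P) := mul_le_mul_of_nonneg_left hKb (by norm_num)
            _ = 70 * K * b ^ 2 * δ * P := by ring)
      rw [hswP, ← hKd] at hloc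
      set S4' : Set SW := {x : SW | ∃ k : ℕ, w < k ∧ k ≤ n ∧
        ff n m b - w ^ 2 / (768 * K * b ^ 4 * P) ≤
          (∑ i ∈ Finset.Icc 1 k, bw b (x.2.1 i)) + T x.1 ((k : ℤ), 1) ((n : ℤ), (m : ℤ))} with hS4'
      have hsub : S4 = exsSw ⁻¹' S4' := by
        ext x
        simp only [hS4, hS4', Set.mem_ofPred_eq, Set.mem_preimage, exsSw]
        refine exists_congr fun k => and_congr_right fun _ => and_congr_right fun _ => ?_
        rw [T_swap]
        rfl
      rw [hsub]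
      refine (exs_sw_real S4').trans (hloc.trans ?_)
      refine mul_le_mul_of_nonneg_left ?_ (by norm_num)
      have h3 := exs_exp (Y := Y) (K := K) (c := 10) (e := 1) (by norm_num) hY0 hK
        (by norm_num) (by norm_num)
      refine le_trans (Real.exp_le_exp.2 ?_) h3
      rw [neg_le_neg_iff, pow_one]
      have f1 : (70 * K * b ^ 2 * δ * P) ^ 3 ≤ (w : ℝ) ^ 3 := pow_le_pow_left₀ hw0.le hw2 3
      rw [div_le_div_iff₀ (by positivity) (by positivity)]
      have f2 : (70 * K * b ^ 2 * δ * P) ^ 3 * (10 * K) =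
          3430000 * (K ^ 4 * b ^ 6 * (δ ^ 3 * P ^ 3)) := by ring
      have f3 : Y * (2359296 * K ^ 4 * b ^ 6 * P ^ 2) =
          2359296 * (K ^ 4 * b ^ 6 * (δ ^ 3 * P ^ 3)) := by
        rw [hY]; ring
      have f4 : 0 < K ^ 4 * b ^ 6 * (δ ^ 3 * P ^ 3) := by positivity
      have f5 : (70 * K * b ^ 2 * δ * P) ^ 3 * (10 * K) ≤ (w : ℝ) ^ 3 * (10 * K) :=
        mul_le_mul_of_nonneg_right f1 (by positivity)
      rw [f3]
      linarith
  have hex := fun (c : ℝ) (hc : b ≤ c) => exs_hex (c := c) hP0 hK hδ hY hz hb1 hwpos hw3 hc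
  have hcw := fun (c : ℝ) (_ : 0 < c) (hc : c ≤ 2 * b) => exs_hcw (c := c) hP0 hK hδ hz hb0 hKb hw2 hc
  have p5 : muSW.real S5 ≤ 2 * Real.exp (-(Y / (10 ^ 10 * K ^ 6))) := by
    have f1 := exs_real_comp (f := fun x : SW => x.2.2) (by fun_prop) exs_marg
      {x : ℕ → ℝ | ∃ k : ℕ, k ≤ w ∧ z / 32 ≤ |∑ i ∈ Finset.Icc 1 k, (bw b (x i) - 1 / b)|}
    have f2 := walk_max' (a := b) (z := z / 32) hb1 (by linarith) (by positivity) w
      (hcw b hb1 (by linarith))
    refine (f1.trans f2).trans (mul_le_mul_of_nonneg_left ?_ (by norm_num))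
    have h3 := exs_exp (Y := Y) (K := K) (c := 2700000000) (e := 5) (by norm_num) hY0 hK
      (by norm_num) (by norm_num)
    refine le_trans (Real.exp_le_exp.2 ?_) h3
    rw [neg_le_neg_iff, ← hKd]
    exact hex b le_rfl
  have p6 : muSW.real S6 ≤ 2 * Real.exp (-(Y / (10 ^ 10 * K ^ 6))) := by
    have f1 := exs_real_comp (f := fun x : SW => x.2.2) (by fun_prop) exs_marg
      {x : ℕ → ℝ | ∃ k : ℕ, k ≤ w ∧
        z / 32 ≤ |∑ i ∈ Finset.Icc 1 k, (bw (1 - (A + δ)) (x i) - 1 / (1 - (A + δ)))|}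
    have f2 := walk_max' (a := 1 - (A + δ)) (z := z / 32) hc0 (by linarith) (by positivity) w
      (hcw _ hc0 hcb)
    refine (f1.trans f2).trans (mul_le_mul_of_nonneg_left ?_ (by norm_num))
    have h3 := exs_exp (Y := Y) (K := K) (c := 2700000000) (e := 5) (by norm_num) hY0 hK
      (by norm_num) (by norm_num)
    refine le_trans (Real.exp_le_exp.2 ?_) h3
    rw [neg_le_neg_iff, ← hKd]
    exact hex _ hbc
  -- the inclusion
  have hincl : ExS (A + δ) (1 - (A + δ)) m n ⊆ S1 ∪ S2 ∪ S3 ∪ S4 ∪ S5 ∪ S6 := by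
    rintro x ⟨k₀, hk₀, hk₀', hx⟩
    by_contra hno
    simp only [Set.mem_union, not_or] at hno
    obtain ⟨⟨⟨⟨⟨n1, n2⟩, n3⟩, n4⟩, n5⟩, n6⟩ := hno
    -- upper bound of `L`
    have hL : bl (A + δ) (1 - (A + δ)) x ((m : ℤ), (n : ℤ)) < ff m n (A + δ) - z := by
      by_contra hcon
      apply n1
      refine ⟨k₀, by omega, hk₀', ?_⟩
      rw [show Finset.Ioc 0 k₀ = Finset.Icc 1 k₀ from rfl, ← hx]
      exact not_lt.1 hcon
    -- lower bound of the enlarged model
    have hLb : ff m n (A + δ) - z / 8 <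
        bl (A + δ - t / 2) (1 - (A + δ) - t / 2) x ((m : ℤ), (n : ℤ)) := not_le.1 n2
    have eb : 1 - (A + δ) - t / 2 = b := by rw [hb]; ring
    have ea : A + δ - t / 2 = A + δ' := by rw [hδ']; ring
    rw [eb, ea] at hLb
    have hfge : s2 ≤ ff m n (A + δ) := by
      rw [hff (A + δ) (by linarith) (by linarith)]
      have : 0 ≤ s2 * (A + δ - A) ^ 2 / ((A + δ) * (1 - (A + δ))) := by
        apply div_nonneg (by positivity)
        exact mul_nonneg (by linarith) (by linarith)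
      linarith
    have hexi := exists_exit (c := 0) (v := ((m : ℤ), (n : ℤ))) x.1
      (fun i => bw (A + δ') (x.2.1 i)) (fun j => bw b (x.2.2 j))
      (by simp only [Prod.fst_zero]; omega) (by simp only [Prod.snd_zero]; omega)
    simp only [Prod.fst_zero, Prod.snd_zero, zero_add] at hexi
    rcases hexi with ⟨k, hk, hk', he⟩ | ⟨k, hk, hk', he⟩
    · -- S exit
      have he' : bl (A + δ') b x ((m : ℤ), (n : ℤ)) =
        (∑ i ∈ Finset.Icc 1 k, bw (A + δ') (x.2.1 i)) +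
          T x.1 ((k : ℤ), 1) ((m : ℤ), (n : ℤ)) := he
      have h5 : (∑ i ∈ Finset.Icc 1 k, bw (A + δ') (x.2.1 i)) +
          T x.1 ((k : ℤ), 1) ((m : ℤ), (n : ℤ)) < ff m n (A + δ') - δ' ^ 2 * P / (96 * K) := by
        by_contra hcon
        exact n3 ⟨k, by omega, by omega, not_lt.1 hcon⟩
      have h6 : ff m n (A + δ') ≤ ff m n (A + δ) := D.mono (by linarith) (by linarith)
        (by linarith)
      have h7 : z / 8 ≤ δ' ^ 2 * P / (96 * K) := by
        have f1 : (9 / 10 * δ) ^ 2 ≤ δ' ^ 2 := pow_le_pow_left₀ (by positivity) hδ2' 2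
        have f2 : (9 / 10 * δ) ^ 2 * P ≤ δ' ^ 2 * P := mul_le_mul_of_nonneg_right f1 hP0.le
        have f4 : (9 / 10 * δ) ^ 2 * P = 81 / 100 * (δ ^ 2 * P) := by ring
        rw [f4] at f2
        have f5 : z / 8 = δ ^ 2 * P / 8 / (96 * K) := by
          rw [hz]
          ring
        rw [f5]
        apply div_le_div_of_nonneg_right _ (by positivity)
        linarith
      rw [he'] at hLb
      linarith
    · -- W exit
      have he' : bl (A + δ') b x ((m : ℤ), (n : ℤ)) =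
        (∑ j ∈ Finset.Icc 1 k, bw b (x.2.2 j)) + T x.1 (1, (k : ℤ)) ((m : ℤ), (n : ℤ)) := he
      rcases lt_or_ge w k with hwk | hwk
      · have h5 : (∑ j ∈ Finset.Icc 1 k, bw b (x.2.2 j)) +
            T x.1 (1, (k : ℤ)) ((m : ℤ), (n : ℤ)) < ff n m b - w ^ 2 / (768 * K * b ^ 4 * P) := by
          by_contra hcon
          exact n4 ⟨k, hwk, by omega, not_lt.1 hcon⟩
        have h6 := exs_num hP0 hK D.hs hδ h1 h2 ht0 htd hb hw2
        rw [ff_swap, hff (1 - b) (by rw [hb]; linarith) (by linarith)] at h5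
        rw [he'] at hLb
        linarith
      · have h5 := exitW_le (ω := x.1) (S := fun i => bw (A + δ) (x.2.1 i))
          (W := fun j => bw (1 - (A + δ)) (x.2.2 j)) (c := 0) (v := ((m : ℤ), (n : ℤ)))
          (by simp only [Prod.fst_zero]; omega) k hk (by simp only [Prod.snd_zero]; omega)
        simp only [Prod.fst_zero, Prod.snd_zero, zero_add] at h5
        have h6 : (∑ j ∈ Finset.Icc 1 k, bw (1 - (A + δ)) (x.2.2 j)) +
            T x.1 (1, (k : ℤ)) ((m : ℤ), (n : ℤ)) ≤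
            bl (A + δ) (1 - (A + δ)) x ((m : ℤ), (n : ℤ)) := h5
        have h7 : |∑ i ∈ Finset.Icc 1 k, (bw b (x.2.2 i) - 1 / b)| < z / 32 := by
          by_contra hcon
          exact n5 ⟨k, hwk, not_lt.1 hcon⟩
        have h8 : |∑ i ∈ Finset.Icc 1 k, (bw (1 - (A + δ)) (x.2.2 i) - 1 / (1 - (A + δ)))| <
            z / 32 := by
          by_contra hcon
          exact n6 ⟨k, hwk, not_lt.1 hcon⟩
        rw [Finset.sum_sub_distrib, Finset.sum_const, Nat.card_Icc, Nat.add_sub_cancel,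
          nsmul_eq_mul] at h7 h8
        rw [he'] at hLb
        have h7' := (abs_lt.1 h7).2
        have h8' := (abs_lt.1 h8).1
        have h9 : (k : ℝ) * (1 / b) - (k : ℝ) * (1 / (1 - (A + δ))) ≤ z / 16 := by
          have g1 : (k : ℝ) * (1 / b) - (k : ℝ) * (1 / (1 - (A + δ))) =
              k * (t / 2 / (b * (1 - (A + δ)))) := by
            have : t / 2 = (1 - (A + δ)) - b := by rw [hb]; ring
            rw [this]
            field_simp
          have g2 : t / 2 / (b * (1 - (A + δ))) ≤ t / 2 / b ^ 2 := by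
            apply div_le_div_of_nonneg_left (by positivity) (by positivity)
            rw [sq]
            exact mul_le_mul_of_nonneg_left hbc hb1.le
          have g3 : (k : ℝ) ≤ w := by exact_mod_cast hwk
          have g4 : k * (t / 2 / (b * (1 - (A + δ)))) ≤
              (71 * K * b ^ 2 * δ * P) * (t / 2 / b ^ 2) := by
            apply mul_le_mul (by linarith) g2 (by positivity) (by positivity)
          have g5 : (71 * K * b ^ 2 * δ * P) * (t / 2 / b ^ 2) =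
              δ ^ 2 * P / K * (71 / 200000) := by
            rw [ht]
            field_simp
            norm_num
          have g6 : z / 16 = δ ^ 2 * P / K * (1 / 1536) := by
            rw [hz]
            field_simp
            norm_num
          rw [g1, g6]
          refine g4.trans ?_
          rw [g5]
          exact mul_le_mul_of_nonneg_left (by norm_num) (by positivity)
        linarith
  calc muSW.real (ExS (A + δ) (1 - (A + δ)) m n)
      ≤ muSW.real (S1 ∪ S2 ∪ S3 ∪ S4 ∪ S5 ∪ S6) := measureReal_mono hincl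
    _ ≤ muSW.real S1 + muSW.real S2 + muSW.real S3 + muSW.real S4 + muSW.real S5 +
        muSW.real S6 := by
      refine (measureReal_union_le _ _).trans (add_le_add_left ?_ _)
      refine (measureReal_union_le _ _).trans (add_le_add_left ?_ _)
      refine (measureReal_union_le _ _).trans (add_le_add_left ?_ _)
      refine (measureReal_union_le _ _).trans (add_le_add_left ?_ _)
      exact measureReal_union_le _ _
    _ ≤ 10 * Real.exp (-(Y / (10 ^ 10 * K ^ 6))) := by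
      have := Real.exp_pos (-(Y / (10 ^ 10 * K ^ 6)))
      linarith

end BGG
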