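import Pool.Agent.BGG.Prod
import Pool.Agent.BGE.FDep

/-!
BGG / F. The classes of environments which are defined with the law: `G1S`, `ClS`, `Cls` with `PG` in
place of `PI (ℤ × ℤ)`; measurability and dependence as in `Pool/Agent/BGE/FDep.lean` (same proofs).
-/

namespace BGG

open MeasureTheory ProbabilityTheory BGE
open scoped ENNReal

variable [GeoPar]

/-- the restriction to the lowest parallelogram has a good extension with probability `≥ 1/2` -/
def G1S (κ σ h lam : ℝ) : Set (ℤ × ℤ → ℝ) :=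
  {ω | (1 / 2 : ℝ≥0∞) ≤ PG {y | glue (RF σ h (nn h 25))ᶜ y ω ∈ Gam κ σ h lam}}

/-- the static class for one direction -/
def ClS (κ σ h lam : ℝ) : Set (ℤ × ℤ → ℝ) :=
  {ω | ω ∈ BotS σ h lam ∧ ω ∈ G1S κ σ h lam ∧ ∀ k < 25, ω ∈ AnnS κ σ h k}

/-- the static class -/
def Cls (κ h lam : ℝ) : Set (ℤ × ℤ → ℝ) :=
  {ω | ∃ q : ℕ, q ≤ nD h ∧ κ ≤ dir h q ∧ dir h q ≤ 1 - κ ∧ ω ∈ ClS κ (dir h q) h lam}

theorem measurableSet_G1S (κ σ h lam : ℝ) : MeasurableSet (G1S κ σ h lam) := by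
  have h1 : Measurable (fun x => PG
      {y | glue (RF σ h (nn h 25))ᶜ y x ∈ Gam κ σ h lam}) :=
    measurable_sect (fun _ : ℤ × ℤ => EG) (measurableSet_Gam κ σ h lam)
  exact measurableSet_le measurable_const h1

theorem measurableSet_ClS (κ σ h lam : ℝ) : MeasurableSet (ClS κ σ h lam) := by
  have h1 : ClS κ σ h lam = BotS σ h lam ∩ (G1S κ σ h lam ∩ ⋂ k ∈ {k : ℕ | k < 25},
      AnnS κ σ h k) := by
    ext ω
    unfold ClS
    simp only [Set.mem_ofPred_eq, Set.mem_inter_iff, Set.mem_iInter]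
  rw [h1]
  refine (measurableSet_BotS σ h lam).inter ((measurableSet_G1S κ σ h lam).inter ?_)
  exact MeasurableSet.biInter (Set.to_countable _) fun k _ => measurableSet_AnnS κ σ h k

theorem measurableSet_Cls (κ h lam : ℝ) : MeasurableSet (Cls κ h lam) := by
  have h1 : Cls κ h lam = ⋃ q ∈ {q : ℕ | q ≤ nD h ∧ κ ≤ dir h q ∧ dir h q ≤ 1 - κ},
      ClS κ (dir h q) h lam := by
    ext ω
    unfold Cls
    simp only [Set.mem_ofPred_eq, Set.mem_iUnion, exists_prop, and_assoc]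
  rw [h1]
  exact MeasurableSet.biUnion (Set.to_countable _) fun q _ => measurableSet_ClS κ _ h lam

theorem depOn_G1S (κ σ h lam : ℝ) : DepOn (RF σ h (nn h 25)) (G1S κ σ h lam) := by
  intro x y hxy
  have h1 : ∀ v : ℤ × ℤ → ℝ, glue (RF σ h (nn h 25))ᶜ v x = glue (RF σ h (nn h 25))ᶜ v y := by
    intro v
    funext i
    unfold glue
    by_cases hi : i ∈ (RF σ h (nn h 25))ᶜ
    · rw [if_pos hi, if_pos hi]
    · rw [if_neg hi, if_neg hi]
      exact hxy i (by simpa using hi)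
  unfold G1S
  simp only [Set.mem_ofPred_eq, h1]

end BGG
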