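import Pool.Agent.BGG.Cells
import Pool.Agent.BGE.FGood

/-!
BGG. Adaptation of `Pool/Agent/BGE/FGood.lean`: same proof with the law `PG` of the environment and the law `PD` of the noise.
`GdF` and `gdF_close` are those of BGE.
-/

namespace BGG


open MeasureTheory ProbabilityTheory BGE

variable [GeoPar]

open Cells in
private theorem good_tau {κ : ℝ} (hκ : 0 < κ) : ∃ h0 : ℝ, 0 < h0 ∧ h0 < 1 ∧
    ∀ (h η lam τ : ℝ) (m M i0 : ℕ), 0 < h → h ≤ h0 → lam = Real.log (1 / h) ^ 20 →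
    (m : ℝ) ≤ h⁻¹ ^ 4 → 0 < η → η ≤ h ^ 30 → M * η ≤ τ → τ ≤ h →
    PD.real {x | ∃ i ≤ M, ¬ CrE κ lam m (dyn η x (i0 + i)) ∨
      ¬ CrT lam m τ (dyn η x i0) (dyn η x (i0 + i))} ≤ h ^ 13 := by
  obtain ⟨C, c, hC, hc, hmain⟩ := good_all hκ
  set K : ℝ := 126 + 60 / c + 14 * C ^ 2 with hK
  have hK1 : 126 ≤ K := by
    have : 0 ≤ 60 / c := by positivity
    have : 0 ≤ 14 * C ^ 2 := by positivity
    linarith
  have hK2 : 60 / c ≤ K := by
    have : 0 ≤ 14 * C ^ 2 := by positivity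
    linarith
  have hK3 : 14 * C ^ 2 ≤ K := by
    have : 0 ≤ 60 / c := by positivity
    linarith
  refine ⟨Real.exp (-K), Real.exp_pos _, by rw [← Real.exp_zero]; exact Real.exp_lt_exp.2 (by linarith), ?_⟩
  intro h η lam τ m M i0 h0 hh0 hlam hm hη hη30 hM hτh
  have hτ0 : 0 ≤ τ := le_trans (by positivity) hM
  set L : ℝ := Real.log (1 / h) with hL
  have hexpL : h = Real.exp (-L) := by
    rw [hL, one_div, Real.log_inv, neg_neg, Real.exp_log h0]
  have hLK : K ≤ L := by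
    rw [hL, one_div, Real.log_inv]
    have : Real.log h ≤ -K := by
      rw [← Real.log_exp (-K)]
      exact Real.log_le_log h0 hh0
    linarith
  have hL126 : 126 ≤ L := hK1.trans hLK
  have hL1 : 1 ≤ L := by linarith
  have hlt1 : h ≤ 1 := by
    rw [hexpL]
    exact Real.exp_le_one_iff.2 (by linarith)
  have hpow : ∀ n : ℕ, h ^ n = Real.exp (-(n * L)) := by
    intro n
    rw [hexpL, ← Real.exp_nat_mul]
    congr 1
    ring
  have hh14 : 14 * C ^ 2 * h ≤ 1 := by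
    have k1 : h * L ≤ 1 := by
      rw [hexpL, Real.exp_neg, inv_mul_le_iff₀ (Real.exp_pos _), mul_one]
      have := Real.add_one_le_exp L
      linarith
    calc 14 * C ^ 2 * h ≤ L * h := mul_le_mul_of_nonneg_right (hK3.trans hLK) h0.le
      _ = h * L := mul_comm _ _
      _ ≤ 1 := k1
  -- the box
  set m1 : ℕ := max m 1 with hm1
  have hinv : 1 ≤ h⁻¹ := (one_le_inv₀ h0).2 hlt1
  have hm1' : (m1 : ℝ) ≤ h⁻¹ ^ 4 := by
    rw [hm1, Nat.cast_max, Nat.cast_one]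
    exact max_le hm (one_le_pow₀ hinv)
  have hm1R : (1 : ℝ) ≤ m1 := by exact_mod_cast le_max_right m 1
  have hlam1 : 1 ≤ lam := by
    rw [hlam]
    exact one_le_pow₀ hL1
  -- the number of cells
  set J : ℕ := ⌈h⁻¹ ^ 30⌉₊ with hJ
  have hJ1 : h⁻¹ ^ 30 ≤ J := Nat.le_ceil _
  have hJ2 : (J : ℝ) ≤ h⁻¹ ^ 30 + 1 := (Nat.ceil_lt_add_one (by positivity)).le
  have hi30 : 1 ≤ h⁻¹ ^ 30 := one_le_pow₀ hinv
  have hJone : 1 ≤ J := by
    have : (1 : ℝ) ≤ J := hi30.trans hJ1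
    exact_mod_cast this
  have hJpos : (0 : ℝ) < J := by
    have : (1 : ℝ) ≤ J := hi30.trans hJ1
    linarith
  have key := hmain lam η τ m1 M J i0 hlam1 (le_max_right _ _) hη hM (hτh.trans hlt1) hJone
  refine (measureReal_mono ?_ (measure_ne_top _ _)).trans (key.trans ?_)
  · rintro x ⟨i, hi, hbad⟩
    refine ⟨i, hi, ?_⟩
    rcases hbad with hbad | hbad
    · exact Or.inl fun hx => hbad (crE_box (le_max_left m 1) hx)
    · exact Or.inr fun hx => hbad (crT_box (le_max_left m 1) hx)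
  -- numerical estimates
  have hmul : ∀ a b : ℕ, h⁻¹ ^ a * h ^ (a + b) = h ^ b := by
    intro a b
    rw [pow_add, ← mul_assoc, ← mul_pow, inv_mul_cancel₀ h0.ne', one_pow, one_mul]
  have hcL : 60 ≤ c * L := by
    have := (div_le_iff₀ hc).1 (hK2.trans hLK)
    linarith
  have hexp : ∀ y : ℝ, L ^ 4 ≤ y → Real.exp (-(c * y)) ≤ h ^ 60 := by
    intro y hy
    rw [hpow]
    apply Real.exp_le_exp.2
    have k1 : c * L ^ 4 ≤ c * y := mul_le_mul_of_nonneg_left hy hc.le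
    have k2 : L ≤ L ^ 3 := by
      calc L = L ^ 1 := (pow_one L).symm
        _ ≤ L ^ 3 := pow_le_pow_right₀ hL1 (by norm_num)
    have k3 : 60 * L ≤ c * L ^ 4 := by
      calc 60 * L ≤ 60 * L ^ 3 := by linarith
        _ ≤ (c * L) * L ^ 3 := mul_le_mul_of_nonneg_right hcL (by positivity)
        _ = c * L ^ 4 := by ring
    push_cast
    linarith
  have hlog0 : 0 ≤ Real.log (4 * m1 + 5) := Real.log_nonneg (by linarith)
  have hlog : Real.log (4 * m1 + 5) ≤ 5 * L := by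
    have k1 : (4 : ℝ) * m1 + 5 ≤ Real.exp (5 * L) := by
      have k2 : h⁻¹ = Real.exp L := by
        rw [hexpL, Real.exp_neg, inv_inv]
      have k3 : (9 : ℝ) ≤ Real.exp L := by
        have := Real.add_one_le_exp L
        linarith
      calc (4 : ℝ) * m1 + 5 ≤ 9 * h⁻¹ ^ 4 := by
            have := one_le_pow₀ hinv (n := 4)
            linarith
        _ ≤ Real.exp L * Real.exp L ^ 4 := by
            rw [k2]
            exact mul_le_mul_of_nonneg_right k3 (by positivity)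
        _ = Real.exp (5 * L) := by
            rw [← pow_succ', ← Real.exp_nat_mul]
            norm_num
    calc Real.log (4 * m1 + 5) ≤ Real.log (Real.exp (5 * L)) :=
          Real.log_le_log (by linarith) k1
      _ = 5 * L := Real.log_exp _
  have hy : L ^ 4 ≤ (lam / (1 + Real.log (4 * m1 + 5) ^ 3)) ^ (1 / 4 : ℝ) := by
    have k1 : 1 + Real.log (4 * m1 + 5) ^ 3 ≤ L ^ 4 := by
      have k2 : Real.log (4 * m1 + 5) ^ 3 ≤ (5 * L) ^ 3 := pow_le_pow_left₀ hlog0 hlog 3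
      have k3 : 1 ≤ L ^ 3 := one_le_pow₀ hL1
      calc 1 + Real.log (4 * m1 + 5) ^ 3 ≤ L ^ 3 + (5 * L) ^ 3 := by linarith
        _ = 126 * L ^ 3 := by ring
        _ ≤ L * L ^ 3 := mul_le_mul_of_nonneg_right hL126 (by positivity)
        _ = L ^ 4 := by ring
    have k4 : (L ^ 4) ^ (4 : ℕ) ≤ lam / (1 + Real.log (4 * m1 + 5) ^ 3) := by
      rw [le_div_iff₀ (by positivity), hlam]
      calc (L ^ 4) ^ (4 : ℕ) * (1 + Real.log (4 * m1 + 5) ^ 3) ≤ (L ^ 4) ^ (4 : ℕ) * L ^ 4 :=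
            mul_le_mul_of_nonneg_left k1 (by positivity)
        _ = L ^ 20 := by ring
    calc L ^ 4 = ((L ^ 4) ^ (4 : ℕ)) ^ (1 / 4 : ℝ) := by
          rw [← Real.rpow_natCast (L ^ 4) 4, ← Real.rpow_mul (by positivity)]
          norm_num
      _ ≤ _ := Real.rpow_le_rpow (by positivity) k4 (by norm_num)
  have hlamL : L ^ 4 ≤ lam := by
    rw [hlam]
    exact pow_le_pow_right₀ hL1 (by norm_num)
  have hsum : Real.exp (-(c * lam)) + Real.exp (-(c * (lam / (1 + Real.log (4 * m1 + 5) ^ 3)) ^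
      (1 / 4 : ℝ))) ≤ 2 * h ^ 60 := by
    have := hexp _ hlamL
    have := hexp _ hy
    linarith
  have hm4 : (m1 : ℝ) ^ 4 ≤ h⁻¹ ^ 16 := by
    calc (m1 : ℝ) ^ 4 ≤ (h⁻¹ ^ 4) ^ 4 := pow_le_pow_left₀ (by positivity) hm1' 4
      _ = h⁻¹ ^ 16 := by ring
  have hm2 : (m1 : ℝ) ^ 2 ≤ h⁻¹ ^ 8 := by
    calc (m1 : ℝ) ^ 2 ≤ (h⁻¹ ^ 4) ^ 2 := pow_le_pow_left₀ (by positivity) hm1' 2
      _ = h⁻¹ ^ 8 := by ring
  have hfirst : ((J : ℝ) + 1) * (C * (m1 : ℝ) ^ 4 * (Real.exp (-(c * lam)) +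
      Real.exp (-(c * (lam / (1 + Real.log (4 * m1 + 5) ^ 3)) ^ (1 / 4 : ℝ))))) ≤
      6 * C * h ^ 14 := by
    calc ((J : ℝ) + 1) * (C * (m1 : ℝ) ^ 4 * (Real.exp (-(c * lam)) +
        Real.exp (-(c * (lam / (1 + Real.log (4 * m1 + 5) ^ 3)) ^ (1 / 4 : ℝ)))))
        ≤ (3 * h⁻¹ ^ 30) * (C * h⁻¹ ^ 16 * (2 * h ^ 60)) := by
          refine mul_le_mul (by linarith) ?_ (by positivity) (by positivity)
          refine mul_le_mul ?_ hsum (by positivity) (by positivity)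
          exact mul_le_mul_of_nonneg_left hm4 (by linarith)
      _ = 6 * C * (h⁻¹ ^ 46 * h ^ (46 + 14)) := by ring
      _ = 6 * C * h ^ 14 := by rw [hmul]
  have hhJ : τ / J + η ≤ 2 * h ^ 30 := by
    have k1 : τ / J ≤ h ^ 30 := by
      rw [div_le_iff₀ hJpos]
      calc τ ≤ 1 := hτh.trans hlt1
        _ = h⁻¹ ^ 30 * h ^ (30 + 0) := by rw [hmul, pow_zero]
        _ = h ^ 30 * h⁻¹ ^ 30 := by ring
        _ ≤ h ^ 30 * J := mul_le_mul_of_nonneg_left hJ1 (by positivity)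
    linarith
  have hsecond : (J : ℝ) * (C * (m1 : ℝ) ^ 2 * (τ / J + η)) ^ 2 ≤ 8 * C ^ 2 * h ^ 14 := by
    have k1 : C * (m1 : ℝ) ^ 2 * (τ / J + η) ≤ 2 * C * h ^ 22 := by
      calc C * (m1 : ℝ) ^ 2 * (τ / J + η) ≤ C * h⁻¹ ^ 8 * (2 * h ^ 30) := by
            refine mul_le_mul ?_ hhJ (by positivity) (by positivity)
            exact mul_le_mul_of_nonneg_left hm2 (by linarith)
        _ = 2 * C * (h⁻¹ ^ 8 * h ^ (8 + 22)) := by ring
        _ = 2 * C * h ^ 22 := by rw [hmul]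
    calc (J : ℝ) * (C * (m1 : ℝ) ^ 2 * (τ / J + η)) ^ 2
        ≤ (2 * h⁻¹ ^ 30) * (2 * C * h ^ 22) ^ 2 := by
          refine mul_le_mul (by linarith) (pow_le_pow_left₀ (by positivity) k1 2)
            (by positivity) (by positivity)
      _ = 8 * C ^ 2 * (h⁻¹ ^ 30 * h ^ (30 + 14)) := by ring
      _ = 8 * C ^ 2 * h ^ 14 := by rw [hmul]
  have hC2 : C ≤ C ^ 2 := by nlinarith
  calc _ ≤ 6 * C * h ^ 14 + 8 * C ^ 2 * h ^ 14 := add_le_add hfirst hsecond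
    _ = (6 * C + 8 * C ^ 2) * h ^ 14 := by ring
    _ ≤ (14 * C ^ 2) * h ^ 14 := mul_le_mul_of_nonneg_right (by linarith) (by positivity)
    _ = (14 * C ^ 2 * h) * h ^ 13 := by ring
    _ ≤ 1 * h ^ 13 := mul_le_mul_of_nonneg_right hh14 (by positivity)
    _ = h ^ 13 := one_mul _

/-- consequences of `HP` -/
private theorem hp_facts {C1 h lam : ℝ} (hC1 : 2 ≤ C1) (hP : HP C1 h lam) :
    0 < h ∧ h < 1 ∧ C1 ≤ Real.log (1 / h) ∧ h ≤ Real.exp (-C1) ∧ 2 ^ 20 ≤ lam ∧ 1 ≤ h⁻¹ ∧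
      lam ^ 3000 ≤ h⁻¹ := by
  obtain ⟨h0, h1, hL, hlam, hpow⟩ := hP
  have hinv : 1 ≤ h⁻¹ := (one_le_inv₀ h0).2 h1.le
  have hL2 : 2 ≤ Real.log (1 / h) := hC1.trans hL
  have hlam2 : 2 ^ 20 ≤ lam := by
    rw [hlam]
    exact pow_le_pow_left₀ (by norm_num) hL2 20
  refine ⟨h0, h1, hL, ?_, hlam2, hinv, ?_⟩
  · rw [one_div, Real.log_inv] at hL
    rw [← Real.exp_log h0]
    exact Real.exp_le_exp.2 (by linarith)
  · calc lam ^ 3000 = (lam ^ 1000) ^ 3 := by rw [← pow_mul]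
      _ ≤ (h⁻¹ ^ (1 / 1000 : ℝ)) ^ 3 :=
          pow_le_pow_left₀ (pow_nonneg (by linarith) _) hpow 3
      _ = h⁻¹ ^ (3 / 1000 : ℝ) := by
          rw [← Real.rpow_natCast, ← Real.rpow_mul (by positivity)]
          norm_num
      _ ≤ h⁻¹ ^ (1 : ℝ) := Real.rpow_le_rpow_of_exponent_le hinv (by norm_num)
      _ = h⁻¹ := Real.rpow_one _

private theorem GG_bounds {lam : ℝ} (hlam : 2 ^ 20 ≤ lam) :
    lam ^ 2300 ≤ (GG lam : ℝ) ∧ (GG lam : ℝ) + 1 ≤ lam ^ 3000 ∧ 2 ≤ (GG lam : ℝ) := by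
  have hl2 : (2 : ℝ) ≤ lam := le_trans (by norm_num) hlam
  have hl1 : (1 : ℝ) ≤ lam := by linarith
  have h1 : lam ^ 2300 ≤ (GG lam : ℝ) := Nat.le_ceil _
  have h2 : (GG lam : ℝ) ≤ lam ^ 2300 + 1 := (Nat.ceil_lt_add_one (by positivity)).le
  have h3 : lam ≤ lam ^ 2300 := by
    calc lam = lam ^ 1 := (pow_one lam).symm
      _ ≤ lam ^ 2300 := pow_le_pow_right₀ hl1 (by norm_num)
  refine ⟨h1, ?_, by linarith⟩
  have h4 : (1 : ℝ) ≤ lam ^ 2300 := one_le_pow₀ hl1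
  calc (GG lam : ℝ) + 1 ≤ 2 * 2 * lam ^ 2300 := by linarith
    _ ≤ lam * lam * lam ^ 2300 := by
        refine mul_le_mul_of_nonneg_right ?_ (by positivity)
        exact mul_le_mul hl2 hl2 (by norm_num) (by linarith)
    _ = lam ^ 2302 := by rw [← sq, ← pow_add]
    _ ≤ lam ^ 3000 := pow_le_pow_right₀ hl1 (by norm_num)

theorem gdF_prob {κ : ℝ} (hκ : 0 < κ) : ∃ C1 : ℝ, 2 ≤ C1 ∧ ∀ (h lam η : ℝ) (M : ℕ),
    HP C1 h lam → 0 < η → η ≤ h ^ 30 → M * η ≤ h →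
    PD.real (GdF κ lam h η M (16 * nn h 0))ᶜ ≤ h ^ 9 := by
  obtain ⟨ha, ha0, ha1, hA⟩ := good_tau (κ := κ / 4) (by positivity)
  obtain ⟨C2, hC2, hfn⟩ := fn 1
  refine ⟨max (max C2 (-Real.log ha)) 4, le_trans (by norm_num) (le_max_right _ _), ?_⟩
  intro h lam η M hP hη hη30 hM
  set C1 := max (max C2 (-Real.log ha)) 4 with hC1d
  have hC14 : 4 ≤ C1 := le_max_right _ _
  obtain ⟨h0, h1, hL, hexp, hlam2, hinv, hlam3⟩ := hp_facts (by linarith) hP
  have hP2 : HP C2 h lam := by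
    obtain ⟨b1, b2, b3, b4, b5⟩ := hP
    exact ⟨b1, b2, le_trans (le_trans (le_max_left _ _) (le_max_left _ _)) b3, b4, b5⟩
  have hlam : lam = Real.log (1 / h) ^ 20 := hP.2.2.2.1
  have hha : h ≤ ha := by
    refine hexp.trans ?_
    have h2 : -Real.log ha ≤ C1 := le_trans (le_max_right _ _) (le_max_left _ _)
    rw [← Real.exp_log ha0]
    exact Real.exp_le_exp.2 (by linarith)
  have hh16 : h ≤ 1 / 32 := by
    refine hexp.trans ?_
    have h2 : Real.exp (-C1) ≤ Real.exp (-4) := Real.exp_le_exp.2 (by linarith)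
    have h3 : (32 : ℝ) ≤ Real.exp 4 := by
      have h4 : (2.7 : ℝ) < Real.exp 1 := by
        have := Real.exp_one_gt_d9
        linarith
      have h5 : Real.exp 4 = Real.exp 1 ^ 4 := by
        rw [← Real.exp_nat_mul]
        norm_num
      rw [h5]
      calc (32 : ℝ) ≤ 2.7 ^ 4 := by norm_num
        _ ≤ Real.exp 1 ^ 4 := pow_le_pow_left₀ (by norm_num) h4.le 4
    refine h2.trans ?_
    rw [Real.exp_neg, one_div]
    exact inv_anti₀ (by norm_num) h3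
  have hinv32 : 32 ≤ h⁻¹ := by
    rw [le_inv_comm₀ (by norm_num) h0]
    linarith
  obtain ⟨hf1, _⟩ := hfn h lam hP2
  have hnn : (nn h 0 : ℝ) ≤ h⁻¹ ^ 3 := (hf1 0 (by norm_num)).2.2.1
  have hm : ((16 * nn h 0 : ℕ) : ℝ) ≤ h⁻¹ ^ 4 := by
    push_cast
    calc 16 * (nn h 0 : ℝ) ≤ h⁻¹ * h⁻¹ ^ 3 :=
          mul_le_mul (by linarith) hnn (Nat.cast_nonneg _) (by positivity)
      _ = h⁻¹ ^ 4 := by ring
  obtain ⟨hG1, hG2, hG3⟩ := GG_bounds hlam2
  have hG0 : (0 : ℝ) < GG lam := by linarith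
  have hGi : (GG lam : ℝ) + 1 ≤ h⁻¹ := hG2.trans hlam3
  -- the two bad events
  set m := 16 * nn h 0 with hmd
  set K := ⌈(M : ℝ) / GG lam⌉₊ with hK
  have hKη : (K : ℝ) * η ≤ 2 * h / GG lam := by
    have h2 : (K : ℝ) ≤ (M : ℝ) / GG lam + 1 := (Nat.ceil_lt_add_one (by positivity)).le
    have h3 : η ≤ h / GG lam := by
      rw [le_div_iff₀ hG0]
      calc η * GG lam ≤ h ^ 30 * h⁻¹ := mul_le_mul hη30 (by linarith) hG0.le (by positivity)
        _ = h ^ 29 := by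
            rw [pow_succ, mul_assoc, mul_inv_cancel₀ h0.ne', mul_one]
        _ ≤ h ^ 1 := pow_le_pow_of_le_one h0.le h1.le (by norm_num)
        _ = h := pow_one h
    calc (K : ℝ) * η ≤ ((M : ℝ) / GG lam + 1) * η := mul_le_mul_of_nonneg_right h2 hη.le
      _ = (M * η) / GG lam + η := by ring
      _ ≤ h / GG lam + h / GG lam := by
          refine add_le_add ?_ h3
          exact div_le_div_of_nonneg_right hM hG0.le
      _ = 2 * h / GG lam := by ring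
  have hτh : 2 * h / GG lam ≤ h := by
    rw [div_le_iff₀ hG0]
    nlinarith
  set A : Set (DI → ℝ) := {x | ∃ i ≤ M, ¬ CrE (κ / 4) lam m (dyn η x (0 + i)) ∨
    ¬ CrT lam m h (dyn η x 0) (dyn η x (0 + i))} with hAd
  set Bg : ℕ → Set (DI → ℝ) := fun g => {x | ∃ i ≤ K,
    ¬ CrE (κ / 4) lam m (dyn η x (gt lam M g + i)) ∨
    ¬ CrT lam m (2 * h / GG lam) (dyn η x (gt lam M g)) (dyn η x (gt lam M g + i))} with hBd
  have hPA : PD.real A ≤ h ^ 13 :=
    hA h η lam h m M 0 h0 hha hlam hm hη hη30 hM le_rfl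
  have hPB : ∀ g, PD.real (Bg g) ≤ h ^ 13 := fun g =>
    hA h η lam (2 * h / GG lam) m K (gt lam M g) h0 hha hlam hm hη hη30 hKη hτh
  have hsub : (GdF κ lam h η M m)ᶜ ⊆ A ∪ ⋃ g ∈ Finset.range (GG lam + 1), Bg g := by
    intro x hx
    by_contra hcon
    rw [Set.mem_union, not_or] at hcon
    apply hx
    refine ⟨fun t ht => ?_, fun g hg i hi => ?_⟩
    · by_contra h2
      apply hcon.1
      refine ⟨t, ht, ?_⟩
      rw [zero_add]
      by_contra h3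
      push Not at h3
      exact h2 ⟨h3.1, h3.2⟩
    · by_contra h2
      apply hcon.2
      simp only [Set.mem_iUnion]
      exact ⟨g, Finset.mem_range.2 (Nat.lt_succ_of_le hg), i, hi, Or.inr h2⟩
  calc PD.real (GdF κ lam h η M m)ᶜ
      ≤ PD.real (A ∪ ⋃ g ∈ Finset.range (GG lam + 1), Bg g) :=
        measureReal_mono hsub (measure_ne_top _ _)
    _ ≤ PD.real A + PD.real (⋃ g ∈ Finset.range (GG lam + 1), Bg g) :=
        measureReal_union_le _ _
    _ ≤ h ^ 13 + ∑ g ∈ Finset.range (GG lam + 1), PD.real (Bg g) :=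
        add_le_add hPA (measureReal_biUnion_finset_le _ _)
    _ ≤ h ^ 13 + ∑ g ∈ Finset.range (GG lam + 1), h ^ 13 :=
        add_le_add le_rfl (Finset.sum_le_sum fun g _ => hPB g)
    _ = h ^ 13 + ((GG lam : ℝ) + 1) * h ^ 13 := by
        rw [Finset.sum_const, Finset.card_range, nsmul_eq_mul]
        push_cast
        ring
    _ ≤ h ^ 12 + h⁻¹ * h ^ 13 := by
        refine add_le_add (pow_le_pow_of_le_one h0.le h1.le (by norm_num)) ?_
        exact mul_le_mul_of_nonneg_right hGi (by positivity)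
    _ = 2 * h ^ 12 := by
        have h2 : h⁻¹ * h ^ 13 = h ^ 12 := by
          rw [pow_succ h 12, mul_comm (h ^ 12) h, ← mul_assoc, inv_mul_cancel₀ h0.ne', one_mul]
        rw [h2]
        ring
    _ ≤ 2 * h * h ^ 9 := by
        have h2 : h ^ 12 ≤ h ^ 10 := pow_le_pow_of_le_one h0.le h1.le (by norm_num)
        calc 2 * h ^ 12 ≤ 2 * h ^ 10 := by linarith
          _ = 2 * h * h ^ 9 := by ring
    _ ≤ 1 * h ^ 9 := mul_le_mul_of_nonneg_right (by linarith) (by positivity)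
    _ = h ^ 9 := one_mul _

end BGG
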