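import Pool.Agent.BGG.FDep
import Pool.Agent.BGE.FIncl

/-!
BGG. Adaptation of `Pool/Agent/BGE/FIncl.lean`: the same (deterministic) proof with `G1S`, `Cls` of BGG;
`G1S` only plays the role of a black box (if `dyn η x 0 ∉ Cls` then for the direction `q` the environment is
not in `BotS`, not in `G1S`, or not in some `AnnS`).
-/

namespace BGG


open MeasureTheory ProbabilityTheory BGE

variable [GeoPar]

theorem top_incl {κ : ℝ} (hκ : 0 < κ) (hκ1 : κ ≤ 1 / 4) : ∃ C1 : ℝ, 2 ≤ C1 ∧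
    ∀ (h lam η : ℝ) (M t : ℕ) (x : DI → ℝ), HP C1 h lam → t ≤ M →
    x ∈ GdF κ lam h η M (16 * nn h 0) → dyn η x t ∈ Gr (2 * κ) (nn h 0) →
    dyn η x 0 ∉ Cls κ h lam → ∃ q : ℕ, q ≤ nD h ∧ κ ≤ dir h q ∧ dir h q ≤ 1 - κ ∧
      (x ∈ HitX (dir h q) lam η M (nb h lam) ∩ (FinX κ (dir h q) h lam η M)ᶜ ∨
       x ∈ HitX (dir h q) lam η M (nb h lam) ∩ {x | dyn η x 0 ∉ G1S κ (dir h q) h lam} ∨
       x ∈ {x | x ∈ FailX κ (dir h q) lam h η M (nb h lam) ∧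
          ∀ k < 25, dyn η x 0 ∈ AnnS κ (dir h q) h k}) := by
  obtain ⟨D1, hD1, Hdir⟩ := dir_incl hκ hκ1
  obtain ⟨Ci, D2, hCi, hD2, Hin⟩ := inner_incl hκ
  obtain ⟨D3, hD3, Hclose⟩ := gdF_close
  obtain ⟨D4, hD4, Hreg⟩ := fine_reg hκ
  obtain ⟨Ct, hCt, Hdown⟩ := thru_down hκ
  obtain ⟨D5, hD5, Hann⟩ := ann_incl hκ
  obtain ⟨D6, hD6, Hfail⟩ := fail_incl hκ
  obtain ⟨Cn, D7, hCn, hD7, Hnr⟩ := nr_slack hκ
  obtain ⟨Cr, hCr, Hres⟩ := FLp_res0 hκ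
  obtain ⟨D8, hD8, Hj⟩ := jT_spec
  obtain ⟨D9, hD9, Hy⟩ := fy (Ct + Cr + 8)
  obtain ⟨D10, hD10, Hn⟩ := fn (Ct + Cr + Cn + 2)
  obtain ⟨D11, hD11, Hb⟩ := fb Ci
  refine ⟨D1 + D2 + D3 + D4 + D5 + D6 + D7 + D8 + D9 + D10 + D11, by linarith, ?_⟩
  intro h lam η M t x hp ht hx hGr hCls
  have hp1 : HP D1 h lam := hp.mono (by linarith)
  have hp2 : HP D2 h lam := hp.mono (by linarith)
  have hp3 : HP D3 h lam := hp.mono (by linarith)
  have hp4 : HP D4 h lam := hp.mono (by linarith)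
  have hp5 : HP D5 h lam := hp.mono (by linarith)
  have hp6 : HP D6 h lam := hp.mono (by linarith)
  have hp7 : HP D7 h lam := hp.mono (by linarith)
  have hp8 : HP D8 h lam := hp.mono (by linarith)
  have hp9 : HP D9 h lam := hp.mono (by linarith)
  have hp10 : HP D10 h lam := hp.mono (by linarith)
  have hp11 : HP D11 h lam := hp.mono (by linarith)
  obtain ⟨b1, b2, b3⟩ := hp_basic hD1 hp1
  have hlam1 : 1 ≤ lam := by linarith
  have hlam0 : 0 < lam := by linarith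
  have hh0 : 0 < h := hp.1
  obtain ⟨y1, y2, -⟩ := Hy h lam hp9
  obtain ⟨n1, n2, n3, -, -⟩ := Hn h lam hp10
  obtain ⟨f1, f2, f3, -, -, f6, -, -, -, -⟩ := Hb h lam hp11
  have hl3 : (0 : ℝ) ≤ lam ^ 3 := by positivity
  have hY8 : 8 ≤ yy h := by linarith
  have hn0 : nn h 25 ≤ nn h 0 := (n1 25 le_rfl).2.2.2.2.2
  -- the crude regularity
  obtain ⟨G1, G2⟩ := hx
  have hq4 : κ / 4 ≤ κ := by linarith
  have hCrE : ∀ s ≤ M, CrE κ lam (16 * nn h 0) (dyn η x s) := fun s hs =>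
    crE_cone (G1 s hs).1 hq4
  obtain ⟨q, hq, q1, q2, hThru, hfine⟩ := Hdir h lam (16 * nn h 0) (dyn η x t) hp1 le_rfl
    (hCrE t ht) hGr
  refine ⟨q, hq, q1, q2, ?_⟩
  set σ : ℝ := dir h q with hσ
  have hHit : x ∈ HitX σ lam η M (nb h lam) := by
    refine ⟨t, ht, ?_⟩
    exact Hin σ h lam (arc lam (nn h 0)) (nn h 0) (nb h lam) (16 * nn h 0) (dyn η x t) hp2 q1 q2
      f2 (by omega) (by omega) (hCrE t ht) le_rfl hThru
  by_cases hFin : x ∈ FinX κ σ h lam η M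
  swap
  · exact Or.inl ⟨hHit, hFin⟩
  by_cases hG1 : dyn η x 0 ∈ G1S κ σ h lam
  swap
  · exact Or.inr (Or.inl ⟨hHit, hG1⟩)
  right
  right
  obtain ⟨g, hg, hgt, hCT, hcl⟩ := Hclose κ h lam η M t x hp3 ht ⟨G1, G2⟩
  have hg0 : gt lam M 0 = 0 := by simp [gt]
  have hF0 := hFin 0 (Nat.zero_le _)
  rw [hg0] at hF0
  have hFg := hFin g hg
  have hGt : GoodE κ σ lam (yy h) (nn h 25) (2 * nn h 0) (dyn η x t) :=
    Hreg σ h lam (16 * nn h 0) (dyn η x t) (dyn η x (gt lam M g)) hp4 q1 q2 le_rfl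
      (G1 t ht).1 hFg.1 hcl
  have hG0 : GoodE κ σ lam (yy h) (nn h 25) (2 * nn h 0) (dyn η x 0) := by
    refine Hreg σ h lam (16 * nn h 0) (dyn η x 0) (dyn η x 0) hp4 q1 q2 le_rfl
      (G1 0 (Nat.zero_le _)).1 hF0.1 ?_
    intro p _ r _ _
    rw [sub_self, abs_zero]
    positivity
  -- going down
  have hPar : ∀ C : ℝ, C ≤ Ct + Cr + 8 → C ≤ Ct + Cr + Cn + 2 → ∀ k ≤ 25,
      Par C κ σ lam (yy h) (nn h 25) (nn h k) := by
    intro C hC hC' k hk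
    refine ⟨q1, q2, hC.trans y1, by linarith, ?_, by exact_mod_cast (n1 k hk).2.2.2.2.1⟩
    exact (mul_le_mul_of_nonneg_right hC' hl3).trans (n1 25 le_rfl).2.2.2.1
  have hGk : ∀ ω : ℤ × ℤ → ℝ, GoodE κ σ lam (yy h) (nn h 25) (2 * nn h 0) ω → ∀ k ≤ 25,
      GoodE κ σ lam (yy h) (nn h 25) (nn h k) ω := by
    intro ω hω k hk
    have := (n1 k hk).2.2.2.2.2
    exact goodE_mono hlam0.le (by omega) hω
  have hTh : ∀ k ≤ 25, Thru σ (farc h (nn h k)) (nn h k) (dyn η x t) := by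
    intro k
    induction k with
    | zero => exact fun _ => hfine hGt
    | succ k ih =>
      intro hk
      have h1 := ih (by omega)
      refine Hdown σ lam (yy h) (nn h 25) (nn h k) (dyn η x t)
        (hPar Ct (by linarith) (by linarith) k (by omega)) (hGk _ hGt k (by omega)) h1
        (nn h (k + 1)) (by exact_mod_cast (n1 (k + 1) hk).2.2.2.2.1) ?_
      have h2 := (n2 k (by omega)).1
      have h3 : (2 : ℝ) * nn h (k + 1) ≤ nn h k := by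
        refine le_trans ?_ h2
        exact mul_le_mul_of_nonneg_right (by linarith) (Nat.cast_nonneg _)
      exact_mod_cast h3
  have hAnn : ∀ k < 25, dyn η x 0 ∈ AnnS κ σ h k := by
    intro k hk
    exact Hann σ h lam k (16 * nn h 0) (dyn η x 0) (dyn η x (gt lam M g)) (dyn η x t) hp5 q1 q2
      hk le_rfl (hCrE 0 (Nat.zero_le _)) (hCrE _ (hgt.trans ht)) (hCrE t ht) hCT hFg.2 hG0 hGt
      (hTh k hk.le)
  refine ⟨?_, hAnn⟩
  by_contra hFail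
  -- the lowest fine scale
  have hN1 : (1 : ℝ) ≤ nn h 25 := by
    have h1 := (n1 25 le_rfl).2.2.2.1
    have h2 : (1 : ℝ) ≤ lam ^ 3 := one_le_pow₀ hlam1
    nlinarith
  have hP1 : 1 ≤ (nn h 25 : ℝ) ^ (2 / 3 : ℝ) := Real.one_le_rpow hN1 (by norm_num)
  have ha0 : 8 ≤ farc h (nn h 25) := by
    unfold farc
    nlinarith
  have haA : farc h (nn h 25) ≤ arc lam (nn h 25) := by
    unfold farc arc
    exact mul_le_mul_of_nonneg_right (by linarith) (by positivity)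
  have hI1 : (2 : ℝ) ^ jT h lam (nb h lam) ≤ yy h * (nn h 25 : ℝ) ^ (2 / 3 : ℝ) / 8 := by
    have hx1 : h * (nb h lam : ℝ) ^ (1 / 3 : ℝ) * lam ^ 300 ≤ 1 := f6
    have h1 := (Hj h lam (nb h lam) hp8 f1 hx1).2.2.2.1
    refine h1.trans ?_
    have h2 : ((nb h lam : ℕ) : ℝ) ≤ nn h 25 := by
      have : nb h lam ≤ nn h 25 := by omega
      exact_mod_cast this
    have h3 : (nb h lam : ℝ) ^ (2 / 3 : ℝ) ≤ (nn h 25 : ℝ) ^ (2 / 3 : ℝ) :=
      Real.rpow_le_rpow (Nat.cast_nonneg _) h2 (by norm_num)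
    have h4 : (nb h lam : ℝ) ^ (2 / 3 : ℝ) / lam ^ 4 ≤ (nb h lam : ℝ) ^ (2 / 3 : ℝ) :=
      div_le_self (by positivity) (one_le_pow₀ hlam1)
    have h5 : (8 : ℝ) * (nn h 25 : ℝ) ^ (2 / 3 : ℝ) ≤ yy h * (nn h 25 : ℝ) ^ (2 / 3 : ℝ) :=
      mul_le_mul_of_nonneg_right hY8 (by positivity)
    linarith
  have hI2 : (If h (nn h 25) : ℝ) ≤ yy h * (nn h 25 : ℝ) ^ (2 / 3 : ℝ) / 8 := by
    have h1 : (If h (nn h 25) : ℝ) ≤ (nn h 25 : ℝ) ^ (2 / 3 : ℝ) / yy h ^ 3 :=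
      Nat.floor_le (by positivity)
    refine h1.trans ?_
    have h4 : (nn h 25 : ℝ) ^ (2 / 3 : ℝ) / yy h ^ 3 ≤ (nn h 25 : ℝ) ^ (2 / 3 : ℝ) :=
      div_le_self (by positivity) (one_le_pow₀ (by linarith))
    have h5 : (8 : ℝ) * (nn h 25 : ℝ) ^ (2 / 3 : ℝ) ≤ yy h * (nn h 25 : ℝ) ^ (2 / 3 : ℝ) :=
      mul_le_mul_of_nonneg_right hY8 (by positivity)
    linarith
  have hA4 : 4 * farc h (nn h 25) ≤ 4 * arc lam (nn h 25) := by linarith
  -- the exactness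
  have hE1 : NR σ (4 * farc h (nn h 25)) (nn h 25) 0 (2 ^ jT h lam (nb h lam)) 0 (dyn η x 0) := by
    by_contra hcon
    apply hFail
    refine Hfail σ h lam η (farc h (nn h 25)) (4 * farc h (nn h 25)) (nn h 25) (nb h lam)
      (16 * nn h 0) M t x hp6 q1 q2 f1 f3 ?_ (by omega) ht
      ⟨hCrE 0 (Nat.zero_le _), hCrE t ht, (G1 t ht).2⟩ (by linarith) haA (by linarith) hA4
      (hTh 25 le_rfl) hcon
    refine le_trans ?_ n3
    exact mul_le_mul_of_nonneg_left (pow_le_pow_right₀ hlam1 (by norm_num)) (by positivity)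
  have hE2 : NR σ (4 * farc h (nn h 25)) (nn h 25) 0 (If h (nn h 25))
      (4 * sl h lam (nn h 25)) (dyn η x 0) := by
    refine Hnr σ h lam (farc h (nn h 25)) (4 * farc h (nn h 25)) (nn h 25) (16 * nn h 0)
      (If h (nn h 25)) (dyn η x 0) (dyn η x t) hp7 q1 q2 ?_ (by omega) (hCrE t ht) (G1 t ht).2
      (by linarith) (by linarith) hA4 (hTh 25 le_rfl) ?_
    · exact (mul_le_mul_of_nonneg_right (by linarith) hl3).trans (n1 25 le_rfl).2.2.2.1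
    · refine hI2.trans (le_trans ?_ haA)
      unfold farc
      have : 0 ≤ yy h * (nn h 25 : ℝ) ^ (2 / 3 : ℝ) := by
        unfold farc at ha0
        linarith
      linarith
  have hRes : ∀ (I : ℕ) (s : ℝ), (I : ℝ) ≤ yy h * (nn h 25 : ℝ) ^ (2 / 3 : ℝ) / 8 →
      NR σ (4 * farc h (nn h 25)) (nn h 25) 0 I s (dyn η x 0) →
      NR σ (4 * farc h (nn h 25)) (nn h 25) 0 I s (res (RF σ h (nn h 25)) (dyn η x 0)) := by
    intro I s hI hN i hi hi'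
    have hi1 : (0 : ℤ) < i := by simpa using hi
    have hi1' : (0 : ℝ) < i := by exact_mod_cast hi1
    have hi2 : (i : ℝ) ≤ I := by exact_mod_cast hi'
    have e := fun j hj => Hres σ lam (yy h) (nn h 25) (4 * farc h (nn h 25)) (nn h 25)
      (dyn η x 0) (hPar Cr (by linarith) (by linarith) 25 le_rfl) (hGk _ hG0 25 le_rfl)
      (by linarith) (by unfold farc; linarith) (RF σ h (nn h 25)) subset_rfl j hj
    have hb : |(i : ℝ)| ≤ yy h * (nn h 25 : ℝ) ^ (2 / 3 : ℝ) / 8 := by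
      rw [abs_of_pos hi1']
      exact hi2.trans hI
    have hz : |((0 : ℤ) : ℝ)| ≤ yy h * (nn h 25 : ℝ) ^ (2 / 3 : ℝ) / 8 := by
      rw [Int.cast_zero, abs_zero]
      positivity
    have ei := e i hb
    have eni := e (-i) (by
      push_cast
      rwa [abs_neg])
    have e0 := e 0 hz
    have h2 := hN i hi hi'
    simp only [Nat.cast_zero, neg_zero] at h2 ⊢
    rw [ei.1, e0.1, eni.2, e0.2]
    exact h2
  apply hCls
  refine ⟨q, hq, q1, q2, ⟨?_, ?_⟩, hG1, hAnn⟩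
  · refine hRes _ _ ?_ hE1
    rw [Nat.cast_pow, Nat.cast_ofNat]
    exact hI1
  · exact hRes _ _ hI2 hE2

end BGG
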