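import Pool.Agent.BGG.FProbA
import Pool.Agent.BGG.FDep
import Pool.Agent.BGG.Prod
import Pool.Agent.BGE.FProbB

/-!
BGG. Adaptation of `Pool/Agent/BGE/FProbB.lean`: same proof with the law `PG` of the environment and the law `PD` of the noise.
`G1S`, `ClS`, `Cls` of BGG (`FDep`).
-/

namespace BGG


open MeasureTheory ProbabilityTheory BGE

variable [GeoPar]

private theorem pb_real2 {A B : Set (DI → ℝ)} {S S' : Set DI} (hS : Disjoint S S')
    (hA : MeasurableSet A) (hB : MeasurableSet B) (hA' : DepOn S A) (hB' : DepOn S' B) :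
    PD.real (A ∩ B) = PD.real A * PD.real B := by
  have h := indep2 dlaw hS hA hB hA' hB'
  have h' : PD (A ∩ B) = PD A * PD B := h
  rw [measureReal_def, h', ENNReal.toReal_mul]
  rfl

private theorem pb_law (η : ℝ) {E : Set (ℤ × ℤ → ℝ)} (hE : MeasurableSet E) :
    PD.real {x | dyn η x 0 ∈ E} = PG.real E := by
  have h := (dyn_law η 0).measure_preimage hE.nullMeasurableSet
  rw [measureReal_def, measureReal_def]
  exact congrArg ENNReal.toReal h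

theorem ann_indep {κ : ℝ} (hκ : 0 < κ) : ∃ C1 : ℝ, 2 ≤ C1 ∧ ∀ (σ h lam η : ℝ)
    (E : Set (DI → ℝ)), HP C1 h lam → κ ≤ σ → σ ≤ 1 - κ → MeasurableSet E →
    DepOn (nz (RF σ h (nn h 25))) E →
    PD.real {x | x ∈ E ∧ ∀ k < 25, dyn η x 0 ∈ AnnS κ σ h k} ≤
      PD.real E * (yy h ^ 400 * (nn h 25 : ℝ) ^ (2 / 3 : ℝ) /
        (nn h 0 : ℝ) ^ (2 / 3 : ℝ)) := by
  obtain ⟨Ca, hCa, hann⟩ := ann_prob hκ
  obtain ⟨Cr, hCr, hRF⟩ := RF_sub (κ := κ)
  obtain ⟨Cn, hCn, hfn⟩ := fn 1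
  refine ⟨Ca + Cr + Cn, by linarith, ?_⟩
  intro σ h lam η E hP hs1 hs2 hE hdep
  have hP1 : HP Ca h lam := hP.mono (by linarith)
  have hP2 : HP Cr h lam := hP.mono (by linarith)
  have hP3 : HP Cn h lam := hP.mono (by linarith)
  obtain ⟨hlam2, -, -⟩ := hp_basic hCn hP3
  obtain ⟨-, hsub⟩ := hRF σ h lam hP2 hs1 hs2
  obtain ⟨hnk, -⟩ := hfn h lam hP3
  have hnpos : ∀ k ≤ 25, (0 : ℝ) < nn h k := by
    intro k hk
    obtain ⟨-, -, -, h4, -⟩ := hnk k hk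
    refine lt_of_lt_of_le ?_ h4
    have : 0 < lam := by linarith
    positivity
  have hy : 0 ≤ yy h := by
    unfold yy
    obtain ⟨-, -, h3, -⟩ := hP3
    exact Real.rpow_nonneg (by linarith) _
  have key : ∀ j : ℕ, j ≤ 25 →
      MeasurableSet {x : DI → ℝ | x ∈ E ∧ ∀ k < 25, 25 - j ≤ k → dyn η x 0 ∈ AnnS κ σ h k} ∧
      DepOn (nz (RF σ h (nn h (25 - j))))
        {x : DI → ℝ | x ∈ E ∧ ∀ k < 25, 25 - j ≤ k → dyn η x 0 ∈ AnnS κ σ h k} ∧
      PD.real {x : DI → ℝ | x ∈ E ∧ ∀ k < 25, 25 - j ≤ k → dyn η x 0 ∈ AnnS κ σ h k} ≤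
        PD.real E * (yy h ^ (16 * j) * (nn h 25 : ℝ) ^ (2 / 3 : ℝ) /
          (nn h (25 - j) : ℝ) ^ (2 / 3 : ℝ)) := by
    intro j
    induction j with
    | zero =>
      intro _
      have e : {x : DI → ℝ | x ∈ E ∧ ∀ k < 25, 25 - 0 ≤ k → dyn η x 0 ∈ AnnS κ σ h k} = E := by
        ext x
        simp only [Set.mem_ofPred_eq, and_iff_left_iff_imp]
        intro _ k hk hk'
        omega
      rw [e]
      refine ⟨hE, hdep, ?_⟩
      have h25 := hnpos 25 le_rfl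
      have h25' : (0 : ℝ) < (nn h 25 : ℝ) ^ (2 / 3 : ℝ) := Real.rpow_pos_of_pos h25 _
      rw [Nat.mul_zero, pow_zero, one_mul, Nat.sub_zero, div_self h25'.ne', mul_one]
    | succ j ih =>
      intro hj
      obtain ⟨h1, h2, h3⟩ := ih (by omega)
      set m : ℕ := 25 - (j + 1) with hm
      have hm1 : 25 - j = m + 1 := by omega
      have hm25 : m < 25 := by omega
      rw [hm1] at h1 h2 h3
      have e : {x : DI → ℝ | x ∈ E ∧ ∀ k < 25, m ≤ k → dyn η x 0 ∈ AnnS κ σ h k} =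
          {x : DI → ℝ | x ∈ E ∧ ∀ k < 25, m + 1 ≤ k → dyn η x 0 ∈ AnnS κ σ h k} ∩
            {x : DI → ℝ | dyn η x 0 ∈ AnnS κ σ h m} := by
        ext x
        simp only [Set.mem_ofPred_eq, Set.mem_inter_iff]
        constructor
        · rintro ⟨h4, h5⟩
          exact ⟨⟨h4, fun k hk hk' => h5 k hk (by omega)⟩, h5 m hm25 le_rfl⟩
        · rintro ⟨⟨h4, h5⟩, h6⟩
          refine ⟨h4, fun k hk hk' => ?_⟩
          rcases Nat.lt_or_ge m k with h7 | h7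
          · exact h5 k hk (by omega)
          · have : k = m := by omega
            rw [this]
            exact h6
      have hmA := measurableSet_dyn (measurableSet_AnnS κ σ h m) η 0
      have hdA := depOn_dyn (depOn_AnnS κ σ h m) η 0
      rw [e]
      refine ⟨h1.inter hmA, ?_, ?_⟩
      · refine DepOn.inter (h2.mono ?_) (hdA.mono ?_)
        · intro d hd
          exact hsub m hm25 hd
        · intro d hd
          exact hd.1
      · have hdis : Disjoint (nz (RF σ h (nn h (m + 1))))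
            (nz (RF σ h (nn h m) \ RF σ h (nn h (m + 1)))) := by
          rw [Set.disjoint_left]
          intro d hd hd'
          exact hd'.2 hd
        rw [pb_real2 hdis h1 hmA h2 hdA, pb_law η (measurableSet_AnnS κ σ h m)]
        have h4 := hann σ h lam m hP1 hs1 hs2 hm25
        have p1 : (0 : ℝ) < (nn h (m + 1) : ℝ) ^ (2 / 3 : ℝ) :=
          Real.rpow_pos_of_pos (hnpos _ (by omega)) _
        have p0 : (0 : ℝ) < (nn h m : ℝ) ^ (2 / 3 : ℝ) :=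
          Real.rpow_pos_of_pos (hnpos _ (by omega)) _
        have p25 : (0 : ℝ) < (nn h 25 : ℝ) ^ (2 / 3 : ℝ) :=
          Real.rpow_pos_of_pos (hnpos _ le_rfl) _
        calc _ ≤ (PD.real E * (yy h ^ (16 * j) * (nn h 25 : ℝ) ^ (2 / 3 : ℝ) /
                (nn h (m + 1) : ℝ) ^ (2 / 3 : ℝ))) *
              (yy h ^ 16 * (nn h (m + 1) : ℝ) ^ (2 / 3 : ℝ) / (nn h m : ℝ) ^ (2 / 3 : ℝ)) := by
              refine mul_le_mul h3 h4 measureReal_nonneg ?_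
              have : 0 ≤ PD.real E := measureReal_nonneg
              positivity
          _ = PD.real E * (yy h ^ (16 * (j + 1)) * (nn h 25 : ℝ) ^ (2 / 3 : ℝ) /
                (nn h m : ℝ) ^ (2 / 3 : ℝ)) := by
              have e3 : yy h ^ (16 * (j + 1)) = yy h ^ (16 * j) * yy h ^ 16 := by
                rw [← pow_add]
                ring_nf
              rw [e3]
              field_simp
  obtain ⟨-, -, h3⟩ := key 25 le_rfl
  have e : {x : DI → ℝ | x ∈ E ∧ ∀ k < 25, dyn η x 0 ∈ AnnS κ σ h k} =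
      {x : DI → ℝ | x ∈ E ∧ ∀ k < 25, 25 - 25 ≤ k → dyn η x 0 ∈ AnnS κ σ h k} := by
    ext x
    simp only [Set.mem_ofPred_eq]
    refine and_congr_right fun _ => ⟨fun h4 k hk _ => h4 k hk, fun h4 k hk => h4 k hk (by omega)⟩
  rw [e]
  exact h3

private theorem pb_cl {κ : ℝ} (hκ : 0 < κ) : ∃ C1 : ℝ, 2 ≤ C1 ∧ ∀ (σ h lam : ℝ),
    HP C1 h lam → κ ≤ σ → σ ≤ 1 - κ →
    PG.real (ClS κ σ h lam) ≤ yy h ^ 404 / (nn h 0 : ℝ) ^ (2 / 3 : ℝ) := by
  obtain ⟨Ci, hCi, hind⟩ := ann_indep hκ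
  obtain ⟨Cb, hCb, hbot⟩ := bot_prob hκ
  obtain ⟨Cn, hCn, hfn⟩ := fn 1
  refine ⟨Ci + Cb + Cn, by linarith, ?_⟩
  intro σ h lam hP hs1 hs2
  have hP1 : HP Ci h lam := hP.mono (by linarith)
  have hP2 : HP Cb h lam := hP.mono (by linarith)
  have hP3 : HP Cn h lam := hP.mono (by linarith)
  obtain ⟨hlam2, -, -⟩ := hp_basic hCn hP3
  obtain ⟨hnk, -⟩ := hfn h lam hP3
  have hnpos : ∀ k ≤ 25, (0 : ℝ) < nn h k := by
    intro k hk
    obtain ⟨-, -, -, h4, -⟩ := hnk k hk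
    refine lt_of_lt_of_le ?_ h4
    have : 0 < lam := by linarith
    positivity
  have hy : 0 ≤ yy h := by
    unfold yy
    obtain ⟨-, -, h3, -⟩ := hP3
    exact Real.rpow_nonneg (by linarith) _
  have hmB : MeasurableSet (BotS σ h lam ∩ G1S κ σ h lam) :=
    (measurableSet_BotS σ h lam).inter (measurableSet_G1S κ σ h lam)
  have hdB : DepOn (RF σ h (nn h 25)) (BotS σ h lam ∩ G1S κ σ h lam) :=
    (depOn_BotS σ h lam).inter (depOn_G1S κ σ h lam)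
  have h1 := hind σ h lam 1 {x | dyn 1 x 0 ∈ BotS σ h lam ∩ G1S κ σ h lam} hP1 hs1 hs2
    (measurableSet_dyn hmB 1 0) (depOn_dyn hdB 1 0)
  have h2 := hbot σ h lam hP2 hs1 hs2
  rw [pb_law 1 hmB] at h1
  have e : {x : DI → ℝ | x ∈ {x | dyn 1 x 0 ∈ BotS σ h lam ∩ G1S κ σ h lam} ∧
      ∀ k < 25, dyn 1 x 0 ∈ AnnS κ σ h k} = {x | dyn 1 x 0 ∈ ClS κ σ h lam} := by
    ext x
    simp only [Set.mem_ofPred_eq, ClS, Set.mem_inter_iff, and_assoc]
  rw [e, pb_law 1 (measurableSet_ClS κ σ h lam)] at h1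
  refine h1.trans ?_
  have p0 : (0 : ℝ) < (nn h 0 : ℝ) ^ (2 / 3 : ℝ) :=
    Real.rpow_pos_of_pos (hnpos _ (by omega)) _
  have p25 : (0 : ℝ) < (nn h 25 : ℝ) ^ (2 / 3 : ℝ) :=
    Real.rpow_pos_of_pos (hnpos _ le_rfl) _
  calc _ ≤ (yy h ^ 4 / (nn h 25 : ℝ) ^ (2 / 3 : ℝ)) *
        (yy h ^ 400 * (nn h 25 : ℝ) ^ (2 / 3 : ℝ) / (nn h 0 : ℝ) ^ (2 / 3 : ℝ)) := by
        refine mul_le_mul_of_nonneg_right h2 ?_
        positivity
    _ = yy h ^ 404 / (nn h 0 : ℝ) ^ (2 / 3 : ℝ) := by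
        have e3 : yy h ^ 404 = yy h ^ 4 * yy h ^ 400 := by
          rw [← pow_add]
        rw [e3]
        field_simp

theorem cls_prob {κ : ℝ} (hκ : 0 < κ) : ∃ C1 : ℝ, 2 ≤ C1 ∧ ∀ (h lam : ℝ), HP C1 h lam →
    PG.real (Cls κ h lam) ≤ h * Real.log (1 / h) ^ (19 / 20 : ℝ) := by
  obtain ⟨Cc, hCc, hcl⟩ := pb_cl hκ
  obtain ⟨Cn, hCn, hfn⟩ := fn 1
  obtain ⟨Cy, hCy, hfy⟩ := fy 6
  refine ⟨Cc + Cn + Cy, by linarith, ?_⟩
  intro h lam hP
  have hP1 : HP Cc h lam := hP.mono (by linarith)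
  have hP2 : HP Cn h lam := hP.mono (by linarith)
  have hP3 : HP Cy h lam := hP.mono (by linarith)
  obtain ⟨hlam2, -, -⟩ := hp_basic hCn hP2
  obtain ⟨hnk, -⟩ := hfn h lam hP2
  obtain ⟨hy6, -, -⟩ := hfy h lam hP3
  obtain ⟨h0, h1, hL, -⟩ := hP2
  set L : ℝ := Real.log (1 / h) with hLdef
  have hL2 : 2 ≤ L := hCn.trans hL
  have hL0 : 0 < L := by linarith
  obtain ⟨n1, -, -, n4, -⟩ := hnk 0 (by norm_num)
  have hn0 : (1 : ℝ) ≤ nn h 0 := by
    have h3 : (1 : ℝ) ≤ lam ^ 3 := one_le_pow₀ (by linarith)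
    linarith
  have hn0' : (0 : ℝ) < nn h 0 := by linarith
  set R : ℝ := (nn h 0 : ℝ) ^ (1 / 3 : ℝ) with hR
  have hR1 : 1 ≤ R := Real.one_le_rpow hn0 (by norm_num)
  have hR0 : 0 < R := by linarith
  have hR2 : (nn h 0 : ℝ) ^ (2 / 3 : ℝ) = R ^ 2 := by
    rw [hR, ← Real.rpow_natCast, ← Real.rpow_mul hn0'.le]
    norm_num
  have hyp : 0 < yy h := by linarith
  have hD : (nD h : ℝ) ≤ R + 1 := (Nat.ceil_lt_add_one hR0.le).le
  have hsub : Cls κ h lam ⊆ ⋃ q ∈ Finset.range (nD h + 1),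
      {ω | κ ≤ dir h q ∧ dir h q ≤ 1 - κ ∧ ω ∈ ClS κ (dir h q) h lam} := by
    rintro ω ⟨q, hq, h2, h3, h4⟩
    exact Set.mem_iUnion₂.2 ⟨q, Finset.mem_range.2 (by omega), h2, h3, h4⟩
  have hone : ∀ q : ℕ, PG.real
      {ω | κ ≤ dir h q ∧ dir h q ≤ 1 - κ ∧ ω ∈ ClS κ (dir h q) h lam} ≤
        yy h ^ 404 / R ^ 2 := by
    intro q
    by_cases hq : κ ≤ dir h q ∧ dir h q ≤ 1 - κ
    · have h2 := hcl (dir h q) h lam hP1 hq.1 hq.2
      rw [hR2] at h2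
      refine le_trans (measureReal_mono ?_ (measure_ne_top _ _)) h2
      rintro ω ⟨-, -, h3⟩
      exact h3
    · have e : {ω | κ ≤ dir h q ∧ dir h q ≤ 1 - κ ∧ ω ∈ ClS κ (dir h q) h lam} = ∅ := by
        ext ω
        simp only [Set.mem_ofPred_eq, Set.mem_empty_iff_false, iff_false]
        rintro ⟨h2, h3, -⟩
        exact hq ⟨h2, h3⟩
      rw [e, measureReal_empty]
      positivity
  have h5 : PG.real (Cls κ h lam) ≤ (R + 2) * (yy h ^ 404 / R ^ 2) := by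
    refine (measureReal_mono hsub (measure_ne_top _ _)).trans ?_
    refine (measureReal_biUnion_finset_le _ _).trans ?_
    refine (Finset.sum_le_sum fun q _ => hone q).trans ?_
    rw [Finset.sum_const, Finset.card_range, nsmul_eq_mul]
    refine mul_le_mul_of_nonneg_right ?_ (by positivity)
    push_cast
    linarith
  refine h5.trans ?_
  have h6 : (R + 2) * (yy h ^ 404 / R ^ 2) ≤ 3 * yy h ^ 404 * (1 / R) := by
    have e1 : 3 * yy h ^ 404 * (1 / R) = (3 * R) * (yy h ^ 404 / R ^ 2) := by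
      field_simp
    rw [e1]
    refine mul_le_mul_of_nonneg_right ?_ (by positivity)
    linarith
  have hesc : esc 0 = 9 / 10 := by
    unfold esc
    norm_num
  rw [hesc] at n1
  have hL9 : 0 < L ^ (9 / 10 : ℝ) := Real.rpow_pos_of_pos hL0 _
  have h7 : 1 / R ≤ 2 * h * L ^ (9 / 10 : ℝ) := by
    have e1 : 0 < h⁻¹ / L ^ (9 / 10 : ℝ) / 2 := by positivity
    calc 1 / R ≤ 1 / (h⁻¹ / L ^ (9 / 10 : ℝ) / 2) := one_div_le_one_div_of_le e1 n1
      _ = 2 * h * L ^ (9 / 10 : ℝ) := by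
        field_simp
  have h8 : yy h ^ 1000 = L ^ (1 / 20 : ℝ) := by
    unfold yy
    rw [← hLdef, ← Real.rpow_natCast, ← Real.rpow_mul hL0.le]
    norm_num
  have h9 : 6 * yy h ^ 404 ≤ L ^ (1 / 20 : ℝ) := by
    rw [← h8]
    calc 6 * yy h ^ 404 ≤ yy h * yy h ^ 404 := by gcongr
      _ = yy h ^ 405 := by ring
      _ ≤ yy h ^ 1000 := pow_le_pow_right₀ (by linarith) (by norm_num)
  calc (R + 2) * (yy h ^ 404 / R ^ 2) ≤ 3 * yy h ^ 404 * (1 / R) := h6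
    _ ≤ 3 * yy h ^ 404 * (2 * h * L ^ (9 / 10 : ℝ)) := by gcongr
    _ = h * ((6 * yy h ^ 404) * L ^ (9 / 10 : ℝ)) := by ring
    _ ≤ h * (L ^ (1 / 20 : ℝ) * L ^ (9 / 10 : ℝ)) := by gcongr
    _ = h * L ^ (19 / 20 : ℝ) := by
        rw [← Real.rpow_add hL0]
        norm_num

end BGG
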