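import Pool.Agent.BGG.FProbA
import Pool.Agent.BGG.FProbB
import Pool.Agent.BGG.FGood
import Pool.Agent.BGG.CrudeRec
import Pool.Agent.BGG.FailP
import Pool.Agent.BGE.FIrrA

/-!
BGG. Adaptation of `Pool/Agent/BGE/FIrrA.lean`: same proof with the law `PG` of the environment and the law `PD` of the noise.
-/

namespace BGG


open MeasureTheory ProbabilityTheory BGE

variable [GeoPar]

private theorem hp_mono {C C' h lam : ℝ} (hC : C' ≤ C) (hP : HP C h lam) : HP C' h lam := by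
  obtain ⟨b1, b2, b3, b4, b5⟩ := hP
  exact ⟨b1, b2, hC.trans b3, b4, b5⟩

private theorem ir_hp {C1 h lam : ℝ} (hC1 : 2 ≤ C1) (hP : HP C1 h lam) :
    0 < h ∧ h < 1 ∧ 2 ≤ Real.log (1 / h) ∧ 2 ^ 20 ≤ lam ∧ 1 ≤ h⁻¹ ∧ lam ^ 3000 ≤ h⁻¹ := by
  obtain ⟨h0, h1, hL, hlam, hpow⟩ := hP
  have hinv : 1 ≤ h⁻¹ := (one_le_inv₀ h0).2 h1.le
  have hL2 : 2 ≤ Real.log (1 / h) := hC1.trans hL
  have hlam2 : 2 ^ 20 ≤ lam := by
    rw [hlam]
    exact pow_le_pow_left₀ (by norm_num) hL2 20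
  refine ⟨h0, h1, hL2, hlam2, hinv, ?_⟩
  calc lam ^ 3000 = (lam ^ 1000) ^ 3 := by rw [← pow_mul]
      _ ≤ (h⁻¹ ^ (1 / 1000 : ℝ)) ^ 3 :=
          pow_le_pow_left₀ (pow_nonneg (by linarith) _) hpow 3
      _ = h⁻¹ ^ (3 / 1000 : ℝ) := by
          rw [← Real.rpow_natCast, ← Real.rpow_mul (by positivity)]
          norm_num
      _ ≤ h⁻¹ ^ (1 : ℝ) := Real.rpow_le_rpow_of_exponent_le hinv (by norm_num)
      _ = h⁻¹ := Real.rpow_one _

private theorem ir_GG {lam : ℝ} (hlam : 2 ^ 20 ≤ lam) :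
    (GG lam : ℝ) + 1 ≤ lam ^ 3000 ∧ 2 ≤ (GG lam : ℝ) := by
  have hl2 : (2 : ℝ) ≤ lam := le_trans (by norm_num) hlam
  have hl1 : (1 : ℝ) ≤ lam := by linarith
  have h1 : lam ^ 2300 ≤ (GG lam : ℝ) := Nat.le_ceil _
  have h2 : (GG lam : ℝ) ≤ lam ^ 2300 + 1 := (Nat.ceil_lt_add_one (by positivity)).le
  have h3 : lam ≤ lam ^ 2300 := by
    calc lam = lam ^ 1 := (pow_one lam).symm
      _ ≤ lam ^ 2300 := pow_le_pow_right₀ hl1 (by norm_num)
  refine ⟨?_, by linarith⟩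
  have h4 : (1 : ℝ) ≤ lam ^ 2300 := one_le_pow₀ hl1
  calc (GG lam : ℝ) + 1 ≤ 2 * 2 * lam ^ 2300 := by linarith
    _ ≤ lam * lam * lam ^ 2300 := by
        refine mul_le_mul_of_nonneg_right ?_ (by positivity)
        exact mul_le_mul hl2 hl2 (by norm_num) (by linarith)
    _ = lam ^ 2302 := by rw [← sq, ← pow_add]
    _ ≤ lam ^ 3000 := pow_le_pow_right₀ hl1 (by norm_num)

/-- the grid times are at most `2h` -/
private theorem ir_gt {h lam η : ℝ} {M g : ℕ} (h0 : 0 < h) (h1 : h < 1) (hη : 0 < η)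
    (hη30 : η ≤ h ^ 30) (hM : M * η ≤ h) (hG : 2 ≤ (GG lam : ℝ)) (hGi : (GG lam : ℝ) + 1 ≤ h⁻¹)
    (hg : g ≤ GG lam) : ((gt lam M g : ℕ) : ℝ) * η ≤ 2 * h := by
  have hG0 : (0 : ℝ) < GG lam := by linarith
  have hgR : (g : ℝ) ≤ GG lam := by exact_mod_cast hg
  have h2 : ((⌈(M : ℝ) / GG lam⌉₊ : ℕ) : ℝ) ≤ (M : ℝ) / GG lam + 1 :=
    (Nat.ceil_lt_add_one (by positivity)).le
  have h3 : ((gt lam M g : ℕ) : ℝ) ≤ M + GG lam := by
    unfold gt
    push_cast
    calc (g : ℝ) * ((⌈(M : ℝ) / GG lam⌉₊ : ℕ) : ℝ) ≤ GG lam * ((M : ℝ) / GG lam + 1) :=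
          mul_le_mul hgR h2 (Nat.cast_nonneg _) hG0.le
      _ = M + GG lam := by
          field_simp
  calc ((gt lam M g : ℕ) : ℝ) * η ≤ (M + GG lam) * η := mul_le_mul_of_nonneg_right h3 hη.le
    _ = M * η + GG lam * η := by ring
    _ ≤ h + h⁻¹ * h ^ 30 :=
        add_le_add hM (mul_le_mul (by linarith) hη30 hη.le (by positivity))
    _ = h + h ^ 29 := by
        rw [pow_succ h 29, mul_comm (h ^ 29) h, ← mul_assoc, inv_mul_cancel₀ h0.ne', one_mul]
    _ ≤ h + h ^ 1 := add_le_add le_rfl (pow_le_pow_of_le_one h0.le h1.le (by norm_num))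
    _ = 2 * h := by ring

private theorem ir_law (η : ℝ) (k : ℕ) {E : Set (ℤ × ℤ → ℝ)} (hE : MeasurableSet E) :
    PD.real {x | dyn η x k ∈ E} = PG.real E := by
  have h := (dyn_law η k).measure_preimage hE.nullMeasurableSet
  rw [measureReal_def, measureReal_def]
  exact congrArg ENNReal.toReal h

private theorem ir_pair {κ σ h lam η : ℝ} (hη : 0 ≤ η) (k : ℕ) :
    PD.real {x | ¬ ftsE κ σ h lam (dyn η x 0) (dyn η x k)} =
      mu3.real {x | ¬ ftsE κ σ h lam x.1 (evo (k * η) x)} := by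
  have h0 : MeasurableSet {z : (ℤ × ℤ → ℝ) × (ℤ × ℤ → ℝ) | ¬ ftsE κ σ h lam z.1 z.2} :=
    (measurableSet_ftsE κ σ h lam).compl
  have h1 : Measurable (fun x : DI → ℝ => (dyn η x 0, dyn η x k)) :=
    (measurable_dyn η 0).prodMk (measurable_dyn η k)
  have h2 : Measurable (fun y : Env3 => (y.1, evo (k * η) y)) :=
    measurable_fst.prodMk (ts_measurable_evo _)
  have h4 : Measure.map (fun x : DI → ℝ => (dyn η x 0, dyn η x k)) PD
      {z : (ℤ × ℤ → ℝ) × (ℤ × ℤ → ℝ) | ¬ ftsE κ σ h lam z.1 z.2} =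
      Measure.map (fun y : Env3 => (y.1, evo (k * η) y)) mu3
        {z : (ℤ × ℤ → ℝ) × (ℤ × ℤ → ℝ) | ¬ ftsE κ σ h lam z.1 z.2} := by
    have h5 := dyn_pair hη 0 k
    simp only [zero_add] at h5
    rw [h5]
  rw [Measure.map_apply h1 h0, Measure.map_apply h2 h0] at h4
  rw [measureReal_def, measureReal_def]
  exact congrArg ENNReal.toReal h4

theorem irr_prob {κ : ℝ} (hκ : 0 < κ) : ∃ C1 : ℝ, 2 ≤ C1 ∧ ∀ (σ h lam η : ℝ) (M : ℕ),
    HP C1 h lam → κ ≤ σ → σ ≤ 1 - κ → 0 < η → η ≤ h ^ 30 → M * η ≤ h →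
    PD.real (HitX σ lam η M (nb h lam) ∩ (FinX κ σ h lam η M)ᶜ) ≤
      (Real.log (1 / h) ^ 100)⁻¹ / (nn h 0 : ℝ) ^ (2 / 3 : ℝ) := by
  obtain ⟨Cc, hCc, hcr⟩ := crude_rec hκ
  obtain ⟨Ct, hCt, htg⟩ := tg_prob hκ
  obtain ⟨Cf, hCf, hft⟩ := fts_prob hκ
  obtain ⟨Cn, hCn, hfn⟩ := fn 1
  obtain ⟨Cb, hCb, hfb⟩ := fb 1
  refine ⟨max Cc (max Ct (max Cf (max Cn Cb))), hCc.trans (le_max_left _ _), ?_⟩
  intro σ h lam η M hP hσ1 hσ2 hη hη30 hM
  have hPc : HP Cc h lam := hp_mono (le_max_left _ _) hP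
  have hPt : HP Ct h lam := hp_mono (le_trans (le_max_left _ _) (le_max_right _ _)) hP
  have hPf : HP Cf h lam := hp_mono (le_trans (le_trans (le_max_left _ _) (le_max_right _ _))
    (le_max_right _ _)) hP
  have hPn : HP Cn h lam := hp_mono (le_trans (le_trans (le_trans (le_max_left _ _)
    (le_max_right _ _)) (le_max_right _ _)) (le_max_right _ _)) hP
  have hPb : HP Cb h lam := hp_mono (le_trans (le_trans (le_trans (le_max_right _ _)
    (le_max_right _ _)) (le_max_right _ _)) (le_max_right _ _)) hP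
  obtain ⟨h0, h1, hL2, hlam2, hinv, hlam3⟩ := ir_hp hCc hPc
  obtain ⟨hGG, hG2⟩ := ir_GG hlam2
  have hGi : (GG lam : ℝ) + 1 ≤ h⁻¹ := hGG.trans hlam3
  have hlam : lam = Real.log (1 / h) ^ 20 := hP.2.2.2.1
  have hl1 : (1 : ℝ) ≤ lam := le_trans (by norm_num) hlam2
  have hl0 : 0 < lam := by linarith
  obtain ⟨hf1, _, _, hf4, _⟩ := hfn h lam hPn
  obtain ⟨_, hb2, _, hb4, _, hb6, _⟩ := hfb h lam hPb
  set L := Real.log (1 / h) with hLd
  have hL0 : 0 < L := by linarith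
  have hL1 : 1 ≤ L := by linarith
  set n := nb h lam with hn
  have hn1R : (1 : ℝ) ≤ n := by
    have h2 : (1 : ℝ) ≤ 1 * lam ^ 3 := by
      rw [one_mul]
      exact one_le_pow₀ hl1
    exact h2.trans hb2
  have hn1 : 1 ≤ n := by exact_mod_cast hn1R
  have hn0 : (0 : ℝ) < n := by linarith
  -- independence
  have hind : PD.real (HitX σ lam η M n ∩ (FinX κ σ h lam η M)ᶜ) =
      PD.real (HitX σ lam η M n) * PD.real (FinX κ σ h lam η M)ᶜ := by
    have hd : Disjoint (nz (RR σ lam n)) (nz (Sc σ h lam)) := by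
      rw [Set.disjoint_left]
      intro d hd1 hd2
      exact hd2 hd1
    have h2 := indep2 dlaw hd (measurableSet_HitX (σ := σ) (lam := lam) (η := η)
      (M := M) (n := n)) (measurableSet_FinX κ σ h lam η M).compl depOn_HitX
      (fun x y hxy => not_congr (depOn_FinX κ σ h lam η M x y hxy))
    have h3 : PD (HitX σ lam η M n ∩ (FinX κ σ h lam η M)ᶜ) =
      PD (HitX σ lam η M n) * PD (FinX κ σ h lam η M)ᶜ := h2
    rw [measureReal_def, h3, ENNReal.toReal_mul]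
    rfl
  have hH : PD.real (HitX σ lam η M n) ≤ lam ^ 6 / (n : ℝ) ^ (2 / 3 : ℝ) :=
    hcr σ h lam η n M hPc hσ1 hσ2 hη hη30 hM hn1 hb6
  have hF : PD.real (FinX κ σ h lam η M)ᶜ ≤ lam ^ 3000 * (2 * (L ^ 120000)⁻¹) := by
    have hsub : (FinX κ σ h lam η M)ᶜ ⊆ ⋃ g ∈ Finset.range (GG lam + 1),
        ({x : DI → ℝ | dyn η x (gt lam M g) ∈ (TG κ σ h lam)ᶜ} ∪
          {x | ¬ ftsE κ σ h lam (dyn η x 0) (dyn η x (gt lam M g))}) := by
      intro x hx
      by_contra hcon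
      apply hx
      intro g hg
      simp only [Set.mem_iUnion, not_exists] at hcon
      have h2 := hcon g (Finset.mem_range.2 (Nat.lt_succ_of_le hg))
      rw [Set.mem_union, not_or] at h2
      exact ⟨not_not.1 h2.1, not_not.1 h2.2⟩
    have hterm : ∀ g ∈ Finset.range (GG lam + 1), PD.real
        ({x : DI → ℝ | dyn η x (gt lam M g) ∈ (TG κ σ h lam)ᶜ} ∪
          {x | ¬ ftsE κ σ h lam (dyn η x 0) (dyn η x (gt lam M g))}) ≤
        2 * (L ^ 120000)⁻¹ := by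
      intro g hg
      have hg' : g ≤ GG lam := Nat.le_of_lt_succ (Finset.mem_range.1 hg)
      have h2 := measureReal_union_le (μ := PD)
        {x : DI → ℝ | dyn η x (gt lam M g) ∈ (TG κ σ h lam)ᶜ}
        {x | ¬ ftsE κ σ h lam (dyn η x 0) (dyn η x (gt lam M g))}
      rw [ir_law η _ (measurableSet_TG κ σ h lam).compl, ir_pair hη.le] at h2
      have h3 := htg σ h lam hPt hσ1 hσ2
      have h4 := hft σ h lam ((gt lam M g : ℕ) * η) hPf hσ1 hσ2 (by positivity)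
        (ir_gt h0 h1 hη hη30 hM hG2 hGi hg')
      linarith
    calc PD.real (FinX κ σ h lam η M)ᶜ
        ≤ PD.real (⋃ g ∈ Finset.range (GG lam + 1),
        ({x : DI → ℝ | dyn η x (gt lam M g) ∈ (TG κ σ h lam)ᶜ} ∪
          {x | ¬ ftsE κ σ h lam (dyn η x 0) (dyn η x (gt lam M g))})) :=
          measureReal_mono hsub (measure_ne_top _ _)
      _ ≤ ∑ g ∈ Finset.range (GG lam + 1), PD.real
        ({x : DI → ℝ | dyn η x (gt lam M g) ∈ (TG κ σ h lam)ᶜ} ∪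
          {x | ¬ ftsE κ σ h lam (dyn η x 0) (dyn η x (gt lam M g))}) :=
          measureReal_biUnion_finset_le _ _
      _ ≤ ∑ g ∈ Finset.range (GG lam + 1), 2 * (L ^ 120000)⁻¹ := Finset.sum_le_sum hterm
      _ = ((GG lam : ℝ) + 1) * (2 * (L ^ 120000)⁻¹) := by
          rw [Finset.sum_const, Finset.card_range, nsmul_eq_mul]
          push_cast
          ring
      _ ≤ _ := mul_le_mul_of_nonneg_right hGG (by positivity)
  -- sizes
  set a := (nn h 25 : ℝ) ^ (2 / 3 : ℝ) with ha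
  set b := (nn h 0 : ℝ) ^ (2 / 3 : ℝ) with hb
  set c := (n : ℝ) ^ (2 / 3 : ℝ) with hc
  have hc0 : 0 < c := Real.rpow_pos_of_pos hn0 _
  have hnn0 : (1 : ℝ) ≤ nn h 0 := by
    have h2 := (hf1 0 (by norm_num)).2.2.2.1
    rw [one_mul] at h2
    exact (one_le_pow₀ hl1).trans h2
  have hb0 : 0 < b := Real.rpow_pos_of_pos (by linarith) _
  have hac : a ≤ 2 * lam ^ 8 * c := by
    have h2 : a ≤ (2 * lam ^ 12 * n) ^ (2 / 3 : ℝ) :=
      Real.rpow_le_rpow (Nat.cast_nonneg _) hb4 (by norm_num)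
    refine h2.trans ?_
    rw [Real.mul_rpow (by positivity) hn0.le, Real.mul_rpow (by norm_num) (by positivity)]
    have h3 : (lam ^ 12) ^ (2 / 3 : ℝ) = lam ^ 8 := by
      rw [← Real.rpow_natCast, ← Real.rpow_mul hl0.le, ← Real.rpow_natCast]
      norm_num
    have h4 : (2 : ℝ) ^ (2 / 3 : ℝ) ≤ 2 := by
      calc (2 : ℝ) ^ (2 / 3 : ℝ) ≤ 2 ^ (1 : ℝ) :=
            Real.rpow_le_rpow_of_exponent_le (by norm_num) (by norm_num)
        _ = 2 := Real.rpow_one _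
    rw [h3]
    exact mul_le_mul_of_nonneg_right (mul_le_mul_of_nonneg_right h4 (by positivity)) hc0.le
  have hbc : b ≤ 2 * lam ^ 2283 * c := by
    calc b ≤ lam ^ 2275 * a := hf4
      _ ≤ lam ^ 2275 * (2 * lam ^ 8 * c) := mul_le_mul_of_nonneg_left hac (by positivity)
      _ = 2 * (lam ^ 2275 * lam ^ 8) * c := by ring
      _ = 2 * lam ^ 2283 * c := by rw [← pow_add]
  rw [hind]
  calc PD.real (HitX σ lam η M n) * PD.real (FinX κ σ h lam η M)ᶜ
      ≤ (lam ^ 6 / c) * (lam ^ 3000 * (2 * (L ^ 120000)⁻¹)) :=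
        mul_le_mul hH hF measureReal_nonneg (by positivity)
    _ ≤ (L ^ 100)⁻¹ / b := by
        have e1 : (lam ^ 6 / c) * (lam ^ 3000 * (2 * (L ^ 120000)⁻¹)) =
            2 * (lam ^ 6 * lam ^ 3000) / (c * L ^ 120000) := by
          field_simp
        have e2 : (L ^ 100)⁻¹ / b = 1 / (L ^ 100 * b) := by
          field_simp
        rw [e1, e2, div_le_div_iff₀ (by positivity) (by positivity), one_mul]
        have h2 : lam ^ 6 * lam ^ 3000 * lam ^ 2283 = L ^ 105780 := by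
          rw [hlam, ← pow_mul, ← pow_mul, ← pow_mul, ← pow_add, ← pow_add]
        have h3 : (4 : ℝ) ≤ L ^ 2 := by nlinarith
        calc 2 * (lam ^ 6 * lam ^ 3000) * (L ^ 100 * b)
            ≤ 2 * (lam ^ 6 * lam ^ 3000) * (L ^ 100 * (2 * lam ^ 2283 * c)) := by
              refine mul_le_mul_of_nonneg_left ?_ (by positivity)
              exact mul_le_mul_of_nonneg_left hbc (by positivity)
          _ = 4 * (lam ^ 6 * lam ^ 3000 * lam ^ 2283) * L ^ 100 * c := by ring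
          _ = 4 * L ^ 105780 * L ^ 100 * c := by rw [h2]
          _ ≤ L ^ 2 * L ^ 105780 * L ^ 100 * c := by
              have h4 : 0 ≤ L ^ 105780 * L ^ 100 * c := by positivity
              nlinarith
          _ = L ^ 105882 * c := by
              rw [← pow_add, ← pow_add]
          _ ≤ L ^ 120000 * c :=
              mul_le_mul_of_nonneg_right (pow_le_pow_right₀ hL1 (by norm_num)) hc0.le
          _ = c * L ^ 120000 := mul_comm _ _

end BGG
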