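import Pool.Agent.BGG.FProbA
import Pool.Agent.BGG.FProbB
import Pool.Agent.BGG.FGood
import Pool.Agent.BGG.CrudeRec
import Pool.Agent.BGG.FailP
import Pool.Agent.BGE.FIrrB

/-!
BGG. Adaptation of `Pool/Agent/BGE/FIrrB.lean`: same proof with the law `PG` of the environment and the law `PD` of the noise.
`G1S` of BGG.
-/

namespace BGG


open MeasureTheory ProbabilityTheory BGE

variable [GeoPar]

private theorem ib_real2 {A B : Set (DI → ℝ)} {S S' : Set DI} (hS : Disjoint S S')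
    (hA : MeasurableSet A) (hB : MeasurableSet B) (hA' : DepOn S A) (hB' : DepOn S' B) :
    PD.real (A ∩ B) = PD.real A * PD.real B := by
  have h := indep2 dlaw hS hA hB hA' hB'
  have h' : PD (A ∩ B) = PD A * PD B := h
  rw [measureReal_def, h', ENNReal.toReal_mul]
  rfl

private theorem ib_law (η : ℝ) {E : Set (ℤ × ℤ → ℝ)} (hE : MeasurableSet E) :
    PD.real {x | dyn η x 0 ∈ E} = PG.real E := by
  have h := (dyn_law η 0).measure_preimage hE.nullMeasurableSet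
  rw [measureReal_def, measureReal_def]
  exact congrArg ENNReal.toReal h

private theorem ib_glue (η : ℝ) (R : Set (ℤ × ℤ)) (y x : DI → ℝ) :
    dyn η (glue (nz R)ᶜ y x) 0 = glue Rᶜ (dyn η y 0) (dyn η x 0) := by
  funext v
  change glue (nz R)ᶜ y x (v, 0, true) = _
  unfold glue
  by_cases hv : v ∈ R
  · have h1 : ¬ ((v, 0, true) : DI) ∈ (nz R)ᶜ := fun h => h hv
    have h2 : ¬ v ∈ Rᶜ := fun h => h hv
    rw [if_neg h1, if_neg h2]
    rfl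
  · have h1 : ((v, 0, true) : DI) ∈ (nz R)ᶜ := fun h => hv h
    have h2 : v ∈ Rᶜ := hv
    rw [if_pos h1, if_pos h2]
    rfl

/-- resampling of the noise outside of the lowest parallelogram -/
private theorem ib_sect {κ σ h lam η : ℝ} {M : ℕ} (hsub : RR σ lam (nb h lam) ⊆ RF σ h (nn h 25)) :
    PD.real (HitX σ lam η M (nb h lam) ∩ {x | dyn η x 0 ∉ G1S κ σ h lam}) ≤
      2 * PD.real ((HitX σ lam η M (nb h lam) ∩ {x | dyn η x 0 ∉ G1S κ σ h lam}) ∩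
        {x | dyn η x 0 ∉ Gam κ σ h lam}) := by
  set A : Set (DI → ℝ) := HitX σ lam η M (nb h lam) ∩ {x | dyn η x 0 ∉ G1S κ σ h lam} with hAdef
  have hA : MeasurableSet A :=
    measurableSet_HitX.inter (measurableSet_dyn (measurableSet_G1S κ σ h lam).compl η 0)
  have hB : MeasurableSet {x : DI → ℝ | dyn η x 0 ∉ Gam κ σ h lam} :=
    measurableSet_dyn (measurableSet_Gam κ σ h lam).compl η 0
  have hcompl : ∀ {R : Set (ℤ × ℤ)} {E : Set (ℤ × ℤ → ℝ)}, DepOn R E → DepOn R Eᶜ :=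
    fun hE x y hxy => not_congr (hE x y hxy)
  have hdep : DepOn (nz (RF σ h (nn h 25))) A := by
    refine DepOn.inter (depOn_HitX.mono ?_)
      (depOn_dyn (hcompl (depOn_G1S κ σ h lam)) η 0)
    intro d hd
    exact hsub hd
  have hA' : DepOn ((nz (RF σ h (nn h 25)))ᶜ)ᶜ A := by
    rw [compl_compl]
    exact hdep
  have hsec : ∀ x ∈ A, (1 / 2 : ENNReal) ≤ Measure.infinitePi dlaw
      {y | glue (nz (RF σ h (nn h 25)))ᶜ y x ∈ {x : DI → ℝ | dyn η x 0 ∉ Gam κ σ h lam}} := by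
    intro x hx
    have hx2 : ¬ (1 / 2 : ENNReal) ≤ PG
        {y | glue (RF σ h (nn h 25))ᶜ y (dyn η x 0) ∈ Gam κ σ h lam} := hx.2
    rw [not_le] at hx2
    have hmeas : Measurable fun y : ℤ × ℤ → ℝ =>
        glue (RF σ h (nn h 25))ᶜ y (dyn η x 0) :=
      (measurePreserving_glue (fun _ : ℤ × ℤ => EG) (RF σ h (nn h 25))ᶜ).measurable.comp
        (measurable_id.prodMk measurable_const)
    have hD : MeasurableSet
        {y : ℤ × ℤ → ℝ | glue (RF σ h (nn h 25))ᶜ y (dyn η x 0) ∈ Gam κ σ h lam} :=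
      hmeas (measurableSet_Gam κ σ h lam)
    have e : {y | glue (nz (RF σ h (nn h 25)))ᶜ y x ∈
        {x : DI → ℝ | dyn η x 0 ∉ Gam κ σ h lam}} =
        (fun y : DI → ℝ => dyn η y 0) ⁻¹'
          {y : ℤ × ℤ → ℝ | glue (RF σ h (nn h 25))ᶜ y (dyn η x 0) ∈ Gam κ σ h lam}ᶜ := by
      ext y
      simp only [Set.mem_ofPred_eq, Set.mem_preimage, Set.mem_compl_iff, ib_glue]
    have h1 := (dyn_law η 0).measure_preimage hD.compl.nullMeasurableSet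
    have h2 : Measure.infinitePi dlaw ((fun y : DI → ℝ => dyn η y 0) ⁻¹'
        {y : ℤ × ℤ → ℝ | glue (RF σ h (nn h 25))ᶜ y (dyn η x 0) ∈ Gam κ σ h lam}ᶜ) =
        PG {y : ℤ × ℤ → ℝ | glue (RF σ h (nn h 25))ᶜ y (dyn η x 0) ∈ Gam κ σ h lam}ᶜ := h1
    rw [e, h2, prob_compl_eq_one_sub hD]
    calc (1 / 2 : ENNReal) = 1 - 1 / 2 := by
          rw [one_div, ENNReal.one_sub_inv_two]
      _ ≤ 1 - PG
          {y | glue (RF σ h (nn h 25))ᶜ y (dyn η x 0) ∈ Gam κ σ h lam} :=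
          tsub_le_tsub_left hx2.le _
  have hmain := sect dlaw hA hB hA' hsec
  have hmain' : PD A ≤ 2 * PD (A ∩ {x : DI → ℝ | dyn η x 0 ∉ Gam κ σ h lam}) := hmain
  rw [measureReal_def, measureReal_def]
  have h3 := ENNReal.toReal_mono (ENNReal.mul_ne_top (by norm_num) (measure_ne_top _ _)) hmain'
  rw [ENNReal.toReal_mul] at h3
  simpa using h3

theorem ng_prob {κ : ℝ} (hκ : 0 < κ) : ∃ C1 : ℝ, 2 ≤ C1 ∧ ∀ (σ h lam η : ℝ) (M : ℕ),
    HP C1 h lam → κ ≤ σ → σ ≤ 1 - κ → 0 < η → η ≤ h ^ 30 → M * η ≤ h →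
    PD.real (HitX σ lam η M (nb h lam) ∩ {x | dyn η x 0 ∉ G1S κ σ h lam}) ≤
      (Real.log (1 / h) ^ 100)⁻¹ / (nn h 0 : ℝ) ^ (2 / 3 : ℝ) := by
  obtain ⟨Ch, hCh, hcr⟩ := crude_rec hκ
  obtain ⟨Cr, hCr, hRF⟩ := RF_sub (κ := κ)
  obtain ⟨Cn, hCn, hfn⟩ := fn 1
  obtain ⟨Cb, hCb, hfb⟩ := fb 1
  obtain ⟨Ct, hCt, htg⟩ := tg_prob hκ
  obtain ⟨Ce, hCe, hcre⟩ := crE_bad (κ := κ / 4) (by positivity)
  refine ⟨Ch + Cr + Cn + Cb + Ct + Ce + 16, by linarith, ?_⟩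
  intro σ h lam η M hP hs1 hs2 hη hη2 hM
  have b1 : HP Ch h lam := hP.mono (by linarith)
  have b2 : HP Cr h lam := hP.mono (by linarith)
  have b3 : HP Cn h lam := hP.mono (by linarith)
  have b4 : HP Cb h lam := hP.mono (by linarith)
  have b5 : HP Ct h lam := hP.mono (by linarith)
  have b6 : HP Ce h lam := hP.mono (by linarith)
  obtain ⟨hlam2, -, -⟩ := hp_basic hCn b3
  obtain ⟨hsub, -⟩ := hRF σ h lam b2 hs1 hs2
  obtain ⟨hnk, -, -, hP0a, -⟩ := hfn h lam b3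
  obtain ⟨-, hnb1, -, hnb2, -, hnb3, -⟩ := hfb h lam b4
  have htg1 := htg σ h lam b5 hs1 hs2
  obtain ⟨h0, h1, hL, hlam, hbig⟩ := hP
  set L : ℝ := Real.log (1 / h) with hLdef
  have hL16 : 16 ≤ L := by linarith
  have hL0 : 0 < L := by linarith
  have hL1 : 1 ≤ L := by linarith
  have hlam1 : (1 : ℝ) ≤ lam := by linarith
  have hlam0 : (0 : ℝ) < lam := by linarith
  have hx16 : 16 ≤ h⁻¹ := by
    have e1 : Real.log (1 / h) ≤ 1 / h - 1 := Real.log_le_sub_one_of_pos (by positivity)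
    rw [one_div] at e1
    rw [hLdef, one_div] at hL16
    linarith
  have hx1 : 1 ≤ h⁻¹ := by linarith
  obtain ⟨n1, n2, n3, n4, n5, n6⟩ := hnk 0 (by norm_num)
  obtain ⟨-, -, -, m4, -⟩ := hnk 25 le_rfl
  have hl3 : (1 : ℝ) ≤ lam ^ 3 := one_le_pow₀ hlam1
  have hnn0 : (1 : ℝ) ≤ nn h 0 := by linarith
  have hnn25 : (1 : ℝ) ≤ nn h 25 := by linarith
  have hnb0 : (1 : ℝ) ≤ nb h lam := by linarith
  have hnbN : 1 ≤ nb h lam := by exact_mod_cast hnb0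
  have hhit := hcr σ h lam η (nb h lam) M b1 hs1 hs2 hη hη2 hM hnbN hnb3
  have hcrE := hcre h lam (16 * nn h 0) b6 (by
    push_cast
    calc (16 : ℝ) * nn h 0 ≤ h⁻¹ * h⁻¹ ^ 3 := by gcongr
      _ = h⁻¹ ^ 4 := by ring)
  -- sizes
  have hPb : 0 < (nb h lam : ℝ) ^ (2 / 3 : ℝ) := Real.rpow_pos_of_pos (by linarith) _
  have hP0 : 0 < (nn h 0 : ℝ) ^ (2 / 3 : ℝ) := Real.rpow_pos_of_pos (by linarith) _
  have hP25 : 0 < (nn h 25 : ℝ) ^ (2 / 3 : ℝ) := Real.rpow_pos_of_pos (by linarith) _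
  have hPP : (nn h 25 : ℝ) ^ (2 / 3 : ℝ) ≤ 2 * lam ^ 8 * (nb h lam : ℝ) ^ (2 / 3 : ℝ) := by
    calc (nn h 25 : ℝ) ^ (2 / 3 : ℝ) ≤ (2 * lam ^ 12 * nb h lam) ^ (2 / 3 : ℝ) :=
          Real.rpow_le_rpow (by positivity) hnb2 (by norm_num)
      _ = 2 ^ (2 / 3 : ℝ) * (lam ^ 12) ^ (2 / 3 : ℝ) * (nb h lam : ℝ) ^ (2 / 3 : ℝ) := by
          rw [Real.mul_rpow (by positivity) (by positivity),
            Real.mul_rpow (by positivity) (by positivity)]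
      _ ≤ 2 * lam ^ 8 * (nb h lam : ℝ) ^ (2 / 3 : ℝ) := by
          have e1 : (2 : ℝ) ^ (2 / 3 : ℝ) ≤ 2 := by
            calc (2 : ℝ) ^ (2 / 3 : ℝ) ≤ (2 : ℝ) ^ (1 : ℝ) :=
                  Real.rpow_le_rpow_of_exponent_le (by norm_num) (by norm_num)
              _ = 2 := Real.rpow_one _
          have e2 : ((lam ^ 12 : ℝ)) ^ (2 / 3 : ℝ) = lam ^ 8 := by
            rw [← Real.rpow_natCast, ← Real.rpow_mul hlam0.le, ← Real.rpow_natCast lam 8]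
            norm_num
          rw [e2]
          gcongr
  have hPP0 : (nn h 0 : ℝ) ^ (2 / 3 : ℝ) ≤ 2 * lam ^ 2283 * (nb h lam : ℝ) ^ (2 / 3 : ℝ) := by
    calc (nn h 0 : ℝ) ^ (2 / 3 : ℝ) ≤ lam ^ 2275 * (nn h 25 : ℝ) ^ (2 / 3 : ℝ) := hP0a
      _ ≤ lam ^ 2275 * (2 * lam ^ 8 * (nb h lam : ℝ) ^ (2 / 3 : ℝ)) := by gcongr
      _ = 2 * (lam ^ 2275 * lam ^ 8) * (nb h lam : ℝ) ^ (2 / 3 : ℝ) := by ring
      _ = 2 * lam ^ 2283 * (nb h lam : ℝ) ^ (2 / 3 : ℝ) := by rw [← pow_add]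
  have hhit2 : PD.real (HitX σ lam η M (nb h lam)) ≤
      2 * lam ^ 2289 / (nn h 0 : ℝ) ^ (2 / 3 : ℝ) := by
    refine hhit.trans ?_
    rw [div_le_div_iff₀ hPb hP0]
    calc lam ^ 6 * (nn h 0 : ℝ) ^ (2 / 3 : ℝ)
        ≤ lam ^ 6 * (2 * lam ^ 2283 * (nb h lam : ℝ) ^ (2 / 3 : ℝ)) := by gcongr
      _ = 2 * (lam ^ 6 * lam ^ 2283) * (nb h lam : ℝ) ^ (2 / 3 : ℝ) := by ring
      _ = 2 * lam ^ 2289 * (nb h lam : ℝ) ^ (2 / 3 : ℝ) := by rw [← pow_add]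
  have hlamL : lam ^ 2289 = L ^ 45780 := by
    rw [hlam, ← pow_mul]
  rw [hlamL] at hhit2
  -- `h` is small
  have hLh : h * L ^ 20000 ≤ 1 := by
    have e1 : lam ^ 1000 = L ^ 20000 := by
      rw [hlam, ← pow_mul]
    have e2 : h⁻¹ ^ (1 / 1000 : ℝ) ≤ h⁻¹ := by
      calc h⁻¹ ^ (1 / 1000 : ℝ) ≤ h⁻¹ ^ (1 : ℝ) :=
            Real.rpow_le_rpow_of_exponent_le hx1 (by norm_num)
        _ = h⁻¹ := Real.rpow_one _
    rw [e1] at hbig
    calc h * L ^ 20000 ≤ h * h⁻¹ := by gcongr; exact hbig.trans e2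
      _ = 1 := mul_inv_cancel₀ h0.ne'
  have hP0h : (nn h 0 : ℝ) ^ (2 / 3 : ℝ) ≤ h⁻¹ ^ 2 := by
    have e1 : (nn h 0 : ℝ) ^ (2 / 3 : ℝ) = ((nn h 0 : ℝ) ^ (1 / 3 : ℝ)) ^ 2 := by
      rw [← Real.rpow_natCast, ← Real.rpow_mul (by linarith)]
      norm_num
    rw [e1]
    refine pow_le_pow_left₀ (by positivity) (n2.trans ?_) 2
    refine div_le_self (by positivity) ?_
    refine Real.one_le_rpow hL1 ?_
    unfold esc
    positivity
  have hcr2 : h ^ 10 ≤ (4 * L ^ 100)⁻¹ / (nn h 0 : ℝ) ^ (2 / 3 : ℝ) := by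
    rw [le_div_iff₀ hP0, ← one_div, le_div_iff₀ (by positivity)]
    calc h ^ 10 * (nn h 0 : ℝ) ^ (2 / 3 : ℝ) * (4 * L ^ 100)
        ≤ h ^ 10 * h⁻¹ ^ 2 * (L * L ^ 100) := by gcongr; linarith
      _ = h ^ 7 * (h * (L * L ^ 100)) := by
          field_simp
      _ ≤ 1 * (h * L ^ 20000) := by
          have e1 : h ^ 7 ≤ 1 := pow_le_one₀ h0.le h1.le
          have e2 : L * L ^ 100 ≤ L ^ 20000 := by
            calc L * L ^ 100 = L ^ 101 := by ring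
              _ ≤ L ^ 20000 := pow_le_pow_right₀ hL1 (by norm_num)
          gcongr
      _ ≤ 1 := by rw [one_mul]; exact hLh
  have hhit3 : (2 * L ^ 45780 / (nn h 0 : ℝ) ^ (2 / 3 : ℝ)) * (L ^ 120000)⁻¹ ≤
      (4 * L ^ 100)⁻¹ / (nn h 0 : ℝ) ^ (2 / 3 : ℝ) := by
    have e1 : (2 * L ^ 45780 / (nn h 0 : ℝ) ^ (2 / 3 : ℝ)) * (L ^ 120000)⁻¹ =
        (2 * L ^ 45780 * (L ^ 120000)⁻¹) / (nn h 0 : ℝ) ^ (2 / 3 : ℝ) := by
      rw [div_mul_eq_mul_div]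
    rw [e1]
    refine div_le_div_of_nonneg_right ?_ hP0.le
    rw [← div_eq_mul_inv, ← one_div, div_le_div_iff₀ (by positivity) (by positivity), one_mul]
    calc 2 * L ^ 45780 * (4 * L ^ 100) = 8 * (L ^ 45780 * L ^ 100) := by ring
      _ ≤ L * (L ^ 45780 * L ^ 100) := by gcongr; linarith
      _ = L ^ (1 + (45780 + 100)) := by rw [pow_add, pow_one, pow_add]
      _ ≤ L ^ 120000 := pow_le_pow_right₀ hL1 (by norm_num)
  -- the main estimate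
  have hAB : (HitX σ lam η M (nb h lam) ∩ {x | dyn η x 0 ∉ G1S κ σ h lam}) ∩
      {x | dyn η x 0 ∉ Gam κ σ h lam} ⊆
      (HitX σ lam η M (nb h lam) ∩ {x | dyn η x 0 ∈ (TG κ σ h lam)ᶜ}) ∪
        {x | dyn η x 0 ∈ {ω | ¬ CrE (κ / 4) lam (16 * nn h 0) ω}} := by
    rintro x ⟨⟨hx1, -⟩, hx2⟩
    by_cases hc : CrE (κ / 4) lam (16 * nn h 0) (dyn η x 0)
    · left
      refine ⟨hx1, fun ht => hx2 ⟨hc, ht⟩⟩
    · exact Or.inr hc
  have hTG : MeasurableSet (TG κ σ h lam)ᶜ := (measurableSet_TG κ σ h lam).compl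
  have hCR : MeasurableSet {ω : ℤ × ℤ → ℝ | ¬ CrE (κ / 4) lam (16 * nn h 0) ω} :=
    measurableSet_CrE.compl
  have hdis : Disjoint (nz (RR σ lam (nb h lam))) (nz (Sc σ h lam)) := by
    rw [Set.disjoint_left]
    intro d hd hd'
    exact hd' hd
  have hdT : DepOn (Sc σ h lam) (TG κ σ h lam)ᶜ := fun x y hxy =>
    not_congr (depOn_TG κ σ h lam x y hxy)
  have h4 : PD.real (HitX σ lam η M (nb h lam) ∩ {x | dyn η x 0 ∈ (TG κ σ h lam)ᶜ}) ≤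
      (4 * L ^ 100)⁻¹ / (nn h 0 : ℝ) ^ (2 / 3 : ℝ) := by
    rw [ib_real2 hdis measurableSet_HitX (measurableSet_dyn hTG η 0) depOn_HitX
      (depOn_dyn hdT η 0), ib_law η hTG]
    refine le_trans (mul_le_mul hhit2 htg1 measureReal_nonneg (by positivity)) hhit3
  have h5 : PD.real {x | dyn η x 0 ∈ {ω | ¬ CrE (κ / 4) lam (16 * nn h 0) ω}} ≤
      (4 * L ^ 100)⁻¹ / (nn h 0 : ℝ) ^ (2 / 3 : ℝ) := by
    rw [ib_law η hCR]
    exact hcrE.trans hcr2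
  calc _ ≤ 2 * PD.real ((HitX σ lam η M (nb h lam) ∩ {x | dyn η x 0 ∉ G1S κ σ h lam}) ∩
        {x | dyn η x 0 ∉ Gam κ σ h lam}) := ib_sect hsub
    _ ≤ 2 * ((4 * L ^ 100)⁻¹ / (nn h 0 : ℝ) ^ (2 / 3 : ℝ) +
        (4 * L ^ 100)⁻¹ / (nn h 0 : ℝ) ^ (2 / 3 : ℝ)) := by
        refine mul_le_mul_of_nonneg_left ?_ (by norm_num)
        refine (measureReal_mono hAB (measure_ne_top _ _)).trans ?_
        exact (measureReal_union_le _ _).trans (add_le_add h4 h5)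
    _ = (L ^ 100)⁻¹ / (nn h 0 : ℝ) ^ (2 / 3 : ℝ) := by
        rw [mul_inv]
        ring

end BGG
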