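import Pool.Agent.BGG.FProbA
import Pool.Agent.BGG.FProbB
import Pool.Agent.BGG.FGood
import Pool.Agent.BGG.CrudeRec
import Pool.Agent.BGG.FailP
import Pool.Agent.BGE.FIrrC

/-!
BGG. Adaptation of `Pool/Agent/BGE/FIrrC.lean`: same proof with the law `PG` of the environment and the law `PD` of the noise.
-/

namespace BGG


open MeasureTheory ProbabilityTheory BGE

variable [GeoPar]

/-- `(h² x^{2/3})^{1/20} lam^113 ≤ 1` if `h x^{1/3} lam^1136 ≤ 1` -/
private theorem fc_theta {h x lam : ℝ} (hh : 0 < h) (hx : 0 ≤ x) (hl : 1 ≤ lam)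
    (hs : h * x ^ (1 / 3 : ℝ) * lam ^ 1136 ≤ 1) :
    (h ^ 2 * x ^ (2 / 3 : ℝ)) ^ (1 / 20 : ℝ) * lam ^ 113 ≤ 1 := by
  have hl0 : 0 < lam := by linarith
  have e1 : (h ^ 2 * x ^ (2 / 3 : ℝ)) ^ (1 / 20 : ℝ) = (h * x ^ (1 / 3 : ℝ)) ^ (1 / 10 : ℝ) := by
    have e2 : h ^ 2 * x ^ (2 / 3 : ℝ) = (h * x ^ (1 / 3 : ℝ)) ^ (2 : ℝ) := by
      rw [Real.mul_rpow hh.le (by positivity), ← Real.rpow_mul hx]
      norm_num
    rw [e2, ← Real.rpow_mul (by positivity)]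
    norm_num
  have e3 : (lam ^ 1130) ^ (1 / 10 : ℝ) = lam ^ 113 := by
    rw [← Real.rpow_natCast, ← Real.rpow_mul hl0.le, ← Real.rpow_natCast]
    norm_num
  rw [e1, ← e3, ← Real.mul_rpow (by positivity) (by positivity)]
  refine Real.rpow_le_one (by positivity) ?_ (by norm_num)
  refine le_trans ?_ hs
  exact mul_le_mul_of_nonneg_left (pow_le_pow_right₀ hl (by norm_num)) (by positivity)

/-- the final arithmetic -/
private theorem fc_arith {L lam q Q R y P : ℝ} (hL : 4 ≤ L) (hlam : lam = L ^ 20) (hq : 0 < q)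
    (hQ : 0 < Q) (hy1 : 1 ≤ y) (hy : y ^ 20000 = L) (hR0 : 0 ≤ R)
    (hR : R ≤ 2 * lam ^ 12 * q) (hP : P ≤ 2 * (lam ^ 82)⁻¹ / q) :
    P * (y ^ 400 * R / Q) ≤ (L ^ 100)⁻¹ / Q := by
  have hl4 : 4 ≤ lam := by
    rw [hlam]
    exact hL.trans (le_self_pow₀ (by linarith) (by norm_num))
  have hLl : L ≤ lam := by
    rw [hlam]
    exact le_self_pow₀ (by linarith) (by norm_num)
  have hl0 : 0 < lam := by linarith
  have hL0 : 0 < L := by linarith
  have hy4 : y ^ 400 ≤ lam := by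
    refine le_trans ?_ hLl
    have := pow_le_pow_right₀ hy1 (show 400 ≤ 20000 by norm_num)
    exact this.trans hy.le
  have hy0 : 0 ≤ y ^ 400 := pow_nonneg (by linarith) _
  have e1 : y ^ 400 * R / Q ≤ lam * (2 * lam ^ 12 * q) / Q :=
    div_le_div_of_nonneg_right (mul_le_mul hy4 hR hR0 hl0.le) hQ.le
  have e2 : P * (y ^ 400 * R / Q) ≤ 2 * (lam ^ 82)⁻¹ / q * (lam * (2 * lam ^ 12 * q) / Q) :=
    mul_le_mul hP e1 (div_nonneg (mul_nonneg hy0 hR0) hQ.le) (by positivity)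
  refine e2.trans ?_
  have e3 : 2 * (lam ^ 82)⁻¹ / q * (lam * (2 * lam ^ 12 * q) / Q) = 4 * (lam ^ 69)⁻¹ / Q := by
    have : lam ^ 82 = lam ^ 69 * lam ^ 12 * lam := by ring
    rw [this]
    field_simp
    norm_num
  rw [e3]
  refine div_le_div_of_nonneg_right ?_ hQ.le
  have e4 : L ^ 100 = lam ^ 5 := by rw [hlam]; ring
  rw [e4]
  have e5 : lam ^ 69 = lam ^ 5 * lam ^ 64 := by ring
  rw [e5, mul_inv]
  have e6 : 4 * (lam ^ 64)⁻¹ ≤ 1 := by
    rw [← div_eq_mul_inv, div_le_one (by positivity)]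
    exact hl4.trans (le_self_pow₀ (by linarith) (by norm_num))
  calc 4 * ((lam ^ 5)⁻¹ * (lam ^ 64)⁻¹) = (lam ^ 5)⁻¹ * (4 * (lam ^ 64)⁻¹) := by ring
    _ ≤ (lam ^ 5)⁻¹ * 1 := mul_le_mul_of_nonneg_left e6 (by positivity)
    _ = (lam ^ 5)⁻¹ := mul_one _

theorem fail_ann {κ : ℝ} (hκ : 0 < κ) : ∃ C1 : ℝ, 2 ≤ C1 ∧ ∀ (σ h lam η : ℝ) (M : ℕ),
    HP C1 h lam → κ ≤ σ → σ ≤ 1 - κ → 0 < η → η ≤ h ^ 30 → M * η ≤ h →
    PD.real {x | x ∈ FailX κ σ lam h η M (nb h lam) ∧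
      ∀ k < 25, dyn η x 0 ∈ AnnS κ σ h k} ≤
      (Real.log (1 / h) ^ 100)⁻¹ / (nn h 0 : ℝ) ^ (2 / 3 : ℝ) := by
  obtain ⟨Ca, hCa, hann⟩ := ann_indep hκ
  obtain ⟨Cf, hCf, hfail⟩ := fail_prob hκ
  obtain ⟨Cr, hCr, hrec⟩ := crude_rec hκ
  obtain ⟨Cs, hCs, hsub⟩ := RF_sub (κ := κ)
  obtain ⟨Cn, hCn, hfn⟩ := fn 1
  obtain ⟨Cb, hCb, hfb⟩ := fb 1
  obtain ⟨Cy, hCy, hfy⟩ := fy 1
  obtain ⟨Ci, hCi, hrin⟩ := rin_bounds 1
  obtain ⟨Cu, hCu, hrou⟩ := rou_bounds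
  obtain ⟨Cj, hCj, hjT⟩ := jT_spec
  refine ⟨Ca + Cf + Cr + Cs + Cn + Cb + Cy + Ci + Cu + Cj, by linarith, ?_⟩
  intro σ h lam η M hp hσ1 hσ2 hη hη1 hMη
  have pa : HP Ca h lam := hp.mono (by linarith)
  have pf : HP Cf h lam := hp.mono (by linarith)
  have pr : HP Cr h lam := hp.mono (by linarith)
  have ps : HP Cs h lam := hp.mono (by linarith)
  have pn : HP Cn h lam := hp.mono (by linarith)
  have pb : HP Cb h lam := hp.mono (by linarith)
  have py : HP Cy h lam := hp.mono (by linarith)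
  have pi : HP Ci h lam := hp.mono (by linarith)
  have pu : HP Cu h lam := hp.mono (by linarith)
  have pj : HP Cj h lam := hp.mono (by linarith)
  have hb := hp_basic (by linarith) hp
  have hh : 0 < h := hp.1
  have hh1 : h < 1 := hp.2.1
  have hL4 : 4 ≤ Real.log (1 / h) := le_trans (by linarith) hp.2.2.1
  have hl4 : 4 ≤ lam := hL4.trans hb.2.1
  have hl1 : 1 ≤ lam := by linarith
  have hl0 : 0 < lam := by linarith
  obtain ⟨b1, b2, b3, b4, b5, b6, b7, -⟩ := hfb h lam pb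
  obtain ⟨f1, -, f3, -, -⟩ := hfn h lam pn
  obtain ⟨y1, -, y3⟩ := hfy h lam py
  have hlam3 : 1 ≤ lam ^ 3 := one_le_pow₀ hl1
  have hlam12 : 1 ≤ lam ^ 12 := one_le_pow₀ hl1
  have hnb1 : (1 : ℝ) ≤ nb h lam := by linarith
  have hnb0 : (0 : ℝ) < nb h lam := by linarith
  have hnn0 : (1 : ℝ) ≤ nn h 0 := by
    have := (f1 0 (by norm_num)).2.2.2.1
    linarith
  have hnn25 : (nb h lam : ℝ) ≤ nn h 25 := by
    have : 8 * (nb h lam : ℝ) ≤ nn h 25 := by exact_mod_cast b3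
    linarith
  -- the smallness
  have hs : h * (nb h lam : ℝ) ^ (1 / 3 : ℝ) * lam ^ 1136 ≤ 1 := by
    refine le_trans ?_ f3
    refine mul_le_mul_of_nonneg_right (mul_le_mul_of_nonneg_left ?_ hh.le) (by positivity)
    exact Real.rpow_le_rpow hnb0.le hnn25 (by norm_num)
  have hθ := fc_theta hh hnb0.le hl1 hs
  set θ : ℝ := (h ^ 2 * (nb h lam : ℝ) ^ (2 / 3 : ℝ)) ^ (1 / 20 : ℝ) with hθd
  have hθ0 : 0 ≤ θ := by positivity
  -- the failure probability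
  have hF := hfail σ h lam η (nb h lam) M pf hσ1 hσ2 hη hMη b1 b6
    (by
      intro r hr1 hr2
      refine hrec σ h lam η r M pr hσ1 hσ2 hη hη1 hMη hr1 ?_
      refine le_trans ?_ b6
      refine mul_le_mul_of_nonneg_right (mul_le_mul_of_nonneg_left ?_ hh.le) (by positivity)
      exact Real.rpow_le_rpow (by positivity) (by exact_mod_cast hr2.le) (by norm_num))
  rw [← hθd] at hF
  have hF2 : PD.real (FailX κ σ lam h η M (nb h lam)) ≤
      2 * (lam ^ 82)⁻¹ / (nb h lam : ℝ) ^ (2 / 3 : ℝ) := by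
    refine hF.trans (div_le_div_of_nonneg_right ?_ (by positivity))
    have e1 : lam ^ 31 * θ ≤ (lam ^ 82)⁻¹ := by
      rw [inv_eq_one_div, le_div_iff₀ (by positivity)]
      calc lam ^ 31 * θ * lam ^ 82 = θ * lam ^ 113 := by ring
        _ ≤ 1 := hθ
    have e2 : h ^ (1 / 100 : ℝ) ≤ (lam ^ 82)⁻¹ := by
      rw [inv_eq_one_div, le_div_iff₀ (by positivity)]
      have e3 : h ^ (1 / 100 : ℝ) ≤ h ^ (1 / 1000 : ℝ) :=
        Real.rpow_le_rpow_of_exponent_ge hh hh1.le (by norm_num)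
      have e4 : lam ^ 82 ≤ lam ^ 1000 := pow_le_pow_right₀ hl1 (by norm_num)
      exact (mul_le_mul e3 e4 (by positivity) (by positivity)).trans hb.2.2
    linarith
  -- dependence
  have hrLn : (rL h : ℝ) ≤ nb h lam := by
    refine le_trans ?_ b1
    have : (0 : ℝ) ≤ rL h := Nat.cast_nonneg _
    nlinarith
  obtain ⟨j1, j2, j3, j4, j5⟩ := hjT h lam (nb h lam) pj b1 b6
  have hdep : DepOn (nz (RF σ h (nn h 25))) (FailX κ σ lam h η M (nb h lam)) := by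
    have hd : DepOn (nz (RR σ lam (nb h lam))) (FailX κ σ lam h η M (nb h lam)) := by
      refine depOn_FailX hl0.le (by exact_mod_cast hrLn) ?_
      intro j hj1 hj2
      have hron : lam ^ 12 * (rou h lam j : ℝ) ≤ nb h lam := j2 j hj1 hj2
      have hron' : (rou h lam j : ℝ) ≤ nb h lam := by
        refine le_trans ?_ hron
        have : (0 : ℝ) ≤ rou h lam j := Nat.cast_nonneg _
        nlinarith
      obtain ⟨r1, r2, r3, r4, r5⟩ := hrin h lam j pi hj1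
      obtain ⟨u1, u2⟩ := hrou h lam j pu
      have hth0 : 0 < th h j := by unfold th; positivity
      have hth1 : th h j ≤ 1 := by
        refine (j5 j hj2).trans (le_trans ?_ hθ)
        exact le_mul_of_one_le_right hθ0 (one_le_pow₀ hl1)
      have hrr : (rin h lam j : ℝ) ≤ rou h lam j := by
        have h1 : (rin h lam j : ℝ) ^ (2 / 3 : ℝ) ≤ (rou h lam j : ℝ) ^ (2 / 3 : ℝ) := by
          refine r4.trans (le_trans ?_ u1)
          calc th h j ^ 2 * 2 ^ j / lam ^ 6 ≤ 1 ^ 2 * 2 ^ j / 1 := by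
                gcongr
                exact one_le_pow₀ hl1
            _ = 1 * 2 ^ j / 1 ^ 4 := by ring
            _ ≤ lam ^ 20 * 2 ^ j / th h j ^ 4 := by
                gcongr
                exact one_le_pow₀ hl1
        exact (Real.rpow_le_rpow_iff (by positivity) (by positivity) (by norm_num)).1 h1
      exact ⟨by exact_mod_cast hrr.trans hron', by exact_mod_cast hron'⟩
    exact hd.mono fun d hd => (hsub σ h lam ps hσ1 hσ2).1 hd
  have hA := hann σ h lam η (FailX κ σ lam h η M (nb h lam)) pa hσ1 hσ2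
    measurableSet_FailX hdep
  refine hA.trans ?_
  refine fc_arith hL4 hp.2.2.2.1 (by positivity) (by positivity) y1 y3 (by positivity) ?_ hF2
  -- `nn25^{2/3} ≤ 2 lam^12 nb^{2/3}`
  calc (nn h 25 : ℝ) ^ (2 / 3 : ℝ) ≤ (2 * lam ^ 12 * nb h lam) ^ (2 / 3 : ℝ) :=
        Real.rpow_le_rpow (by positivity) b4 (by norm_num)
    _ = (2 * lam ^ 12) ^ (2 / 3 : ℝ) * (nb h lam : ℝ) ^ (2 / 3 : ℝ) :=
        Real.mul_rpow (by positivity) (by positivity)
    _ ≤ 2 * lam ^ 12 * (nb h lam : ℝ) ^ (2 / 3 : ℝ) := by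
        refine mul_le_mul_of_nonneg_right ?_ (by positivity)
        have := Real.rpow_le_rpow_of_exponent_le (show (1 : ℝ) ≤ 2 * lam ^ 12 by linarith)
          (show (2 / 3 : ℝ) ≤ 1 by norm_num)
        simpa using this

end BGG
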