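import Pool.Agent.BGG.StatA
import Pool.Agent.BGE.StatNR

/-!
BGG / S6. Probability of a near record (static estimate ST1). Adaptation of
`Pool/Agent/BGE/StatNR.lean` without the scalings (same statement with `PG`).
-/

namespace BGG

open MeasureTheory ProbabilityTheory BGE

variable [GeoPar]

theorem st1 {κ : ℝ} (hκ : 0 < κ) : ∃ C0 : ℝ, 1 ≤ C0 ∧ ∀ (σ lam Y g0 A : ℝ) (n : ℕ),
    Par C0 κ σ lam Y g0 n → 1 ≤ A → A ≤ 4 * Y * (n : ℝ) ^ (2 / 3 : ℝ) →
    ∀ K N0 N1 : ℕ, 1 ≤ N0 → N0 ≤ N1 → C0 * Y ^ 2 * (K + N1) ≤ (n : ℝ) ^ (2 / 3 : ℝ) →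
    ∀ s1 s2 : ℝ, 0 ≤ s1 → s1 ≤ s2 → s2 ≤ √N0 →
    PG.real {ω | GoodE κ σ lam Y g0 (2 * n) ω ∧ NR σ A n K (K + N0) s1 ω ∧
      NR σ A n K (K + N1) s2 ω} ≤ C0 * (s1 + 1) ^ 2 / N1 := by
  obtain ⟨B, hB, C1, hC1, H1⟩ := to_walk hκ
  obtain ⟨C2, hC2, H2⟩ := rates hκ hB
  obtain ⟨C, c₁, hC, hc₁, H3⟩ := persist_two (κ := κ / 4) (by linarith)
  have hd0 : 0 ≤ C2 ^ 2 / c₁ ^ 2 := by positivity
  have hCC : 0 ≤ 2 * C ^ 2 := by positivity
  refine ⟨C1 + 8 * C2 + C2 ^ 2 / c₁ ^ 2 + 2 * C ^ 2 + 1, by linarith, ?_⟩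
  intro σ lam Y g0 A n hpar hA hA' K N0 N1 hN0 hN hYN s1 s2 hs1 hs hs2
  obtain ⟨p1, p2, p3, p4, p5, p6⟩ := hpar
  set C0 : ℝ := C1 + 8 * C2 + C2 ^ 2 / c₁ ^ 2 + 2 * C ^ 2 + 1 with hC0
  have hC01 : 1 ≤ C0 := by linarith
  have hY : 0 < Y := by linarith
  have hY1 : 1 ≤ Y := by linarith
  have hlam : 0 < lam := by linarith
  have hlam3 : 0 < lam ^ 3 := by positivity
  have hpar1 : Par C1 κ σ lam Y g0 n := by
    refine ⟨p1, p2, by linarith, p4, le_trans ?_ p5, p6⟩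
    exact mul_le_mul_of_nonneg_right (by linarith) hlam3.le
  have hY3 : Y ^ 3 ≤ 8 * lam ^ 3 := by
    calc Y ^ 3 ≤ (2 * lam) ^ 3 := by gcongr
      _ = 8 * lam ^ 3 := by ring
  have hn : C2 * Y ^ 3 ≤ n := by
    calc C2 * Y ^ 3 ≤ C2 * (8 * lam ^ 3) := by gcongr
      _ = (8 * C2) * lam ^ 3 := by ring
      _ ≤ C0 * lam ^ 3 := mul_le_mul_of_nonneg_right (by linarith) hlam3.le
      _ ≤ g0 := p5
      _ ≤ n := p6
  obtain ⟨r1, r2, r3, r4, r5⟩ := H2 σ Y n p1 p2 hY hn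
  have hN0' : (1 : ℝ) ≤ N0 := by exact_mod_cast hN0
  have hN' : (N0 : ℝ) ≤ N1 := by exact_mod_cast hN
  have hN1 : (1 : ℝ) ≤ N1 := by linarith
  have hK0 : (0 : ℝ) ≤ K := Nat.cast_nonneg K
  set n2 : ℝ := (n : ℝ) ^ (2 / 3 : ℝ) with hn2
  have hY2 : 1 ≤ Y ^ 2 := one_le_pow₀ hY1
  -- the range of the coupling
  have hI : ((K + N1 : ℕ) : ℝ) + 1 ≤ n2 := by
    push_cast
    have h1 : (K : ℝ) + N1 + 1 ≤ 2 * (K + N1) := by linarith
    have h2 : 2 * ((K : ℝ) + N1) ≤ C0 * Y ^ 2 * (K + N1) := by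
      have h3 : 2 ≤ C0 := by linarith
      have h4 : 2 ≤ C0 * Y ^ 2 := by nlinarith
      exact mul_le_mul_of_nonneg_right h4 (by linarith)
    linarith
  -- the drift is small
  have hdrift : |1 / rA σ B Y n - 1 / rB σ B Y n| * √N1 ≤ c₁ := by
    refine (r5 N1).trans ?_
    have ht0 : 0 < (n : ℝ) ^ (1 / 3 : ℝ) := by
      refine Real.rpow_pos_of_pos ?_ _
      have : 0 < C2 * Y ^ 3 := by positivity
      linarith
    have ht2 : n2 = ((n : ℝ) ^ (1 / 3 : ℝ)) ^ 2 := by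
      rw [hn2, ← Real.rpow_natCast, ← Real.rpow_mul (Nat.cast_nonneg n)]
      norm_num
    set t : ℝ := (n : ℝ) ^ (1 / 3 : ℝ)
    rw [div_le_iff₀ ht0]
    have h1 : C2 ^ 2 * Y ^ 2 * N1 ≤ c₁ ^ 2 * n2 := by
      have h2 : C2 ^ 2 / c₁ ^ 2 * Y ^ 2 * N1 ≤ n2 := by
        refine le_trans ?_ hYN
        have h3 : C2 ^ 2 / c₁ ^ 2 ≤ C0 := by linarith
        have h4 : (N1 : ℝ) ≤ K + N1 := by linarith
        gcongr
      calc C2 ^ 2 * Y ^ 2 * N1 = c₁ ^ 2 * (C2 ^ 2 / c₁ ^ 2 * Y ^ 2 * N1) := by field_simp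
        _ ≤ c₁ ^ 2 * n2 := by gcongr
    have h5 : (C2 * Y * √N1) ^ 2 ≤ (c₁ * t) ^ 2 := by
      rw [mul_pow, mul_pow, mul_pow, Real.sq_sqrt (by linarith), ← ht2]
      exact h1
    exact le_of_pow_le_pow_left₀ (by norm_num) (by positivity) h5
  set α := rA σ B Y n with hα
  set β := rB σ B Y n with hβ
  have hα0 : 0 < α := by linarith
  have hβ0 : 0 < β := by linarith
  have hw := H3 α β (by linarith) (by linarith) (by linarith) (by linarith) N0 N1 hN0 hN hdrift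
    s1 s2 hs1 hs hs2
  set F : Set (ℕ → ℝ) := Stay s1 N0 ∩ Stay s2 N1 with hF
  have hStay : ∀ (a : ℝ) (N : ℕ), MeasurableSet (Stay a N) := by
    intro a N
    have : Stay a N = ⋂ n : ℕ, ⋂ _ : n ≤ N, {x : ℕ → ℝ | Sw x n ≤ a} := by
      ext x
      simp only [Stay, Set.mem_ofPred_eq, Set.mem_iInter]
    rw [this]
    refine MeasurableSet.iInter fun n => MeasurableSet.iInter fun _ => ?_
    exact measurableSet_le (by unfold Sw; fun_prop) measurable_const
  have hFm : MeasurableSet F := (hStay _ _).inter (hStay _ _)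
  set Q : Set (BN × BN) := {c | stR K c ∈ F ∧ stL K c ∈ F} with hQ
  have hRm : Measurable (fun c : BN × BN => stR K c) := by
    refine measurable_pi_iff.2 fun i => ?_
    unfold stR
    fun_prop
  have hLm : Measurable (fun c : BN × BN => stL K c) := by
    refine measurable_pi_iff.2 fun i => ?_
    unfold stL
    fun_prop
  have hQm : MeasurableSet Q := (hRm hFm).inter (hLm hFm)
  have hE : MeasurableSet {ω | GoodE κ σ lam Y g0 (2 * n) ω ∧ NR σ A n K (K + N0) s1 ω ∧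
      NR σ A n K (K + N1) s2 ω} :=
    measurableSet_GoodE.inter (measurableSet_NR.inter measurableSet_NR)
  have hmain := H1 σ lam Y g0 A n (K + N1) hpar1 hA hA' hI _ Q hE hQm (fun ω h => h.1) ?_
  · refine hmain.trans ?_
    have h1 : ((muCN α β).prod (muCN α β)).real Q = (walkM α β).real F * (walkM α β).real F := by
      simp only [Measure.real]
      rw [← ENNReal.toReal_mul, ← walk_pair α β K hFm hFm]
    rw [h1]
    have h2 : 0 ≤ (walkM α β).real F := measureReal_nonneg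
    have h3 : 0 < √(N1 : ℝ) := Real.sqrt_pos.2 (by linarith)
    calc 2 * ((walkM α β).real F * (walkM α β).real F)
        ≤ 2 * ((C * (s1 + 1) / √N1) * (C * (s1 + 1) / √N1)) := by gcongr
      _ = (2 * C ^ 2) * (s1 + 1) ^ 2 / (√N1) ^ 2 := by
        field_simp
      _ = (2 * C ^ 2) * (s1 + 1) ^ 2 / N1 := by rw [Real.sq_sqrt (by linarith)]
      _ ≤ C0 * (s1 + 1) ^ 2 / N1 := by
        gcongr
        linarith
  · rintro ω ⟨_, hn0, hn1⟩ c hc hc'
    obtain ⟨u1, u2, -, -, -⟩ := hc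
    obtain ⟨v1, v2, -, -, -⟩ := hc'
    -- the walks are below the profiles
    have hR : ∀ m : ℕ, m ≤ N1 → Sw (stR K c) m ≤
        FLp σ A n ω ((K + m : ℕ) : ℤ) - FLp σ A n ω (K : ℤ) := by
      intro m
      induction m with
      | zero =>
        intro _
        simp [Sw]
      | succ m ih =>
        intro hm
        have h1 := ih (by omega)
        have h2 := FLp_succ σ A n ω ((K + (m + 1) : ℕ) : ℤ)
        have h3 := u1 (K + m + 1) (by omega) (by omega)
        have h4 := v2 (K + m + 1) (by omega) (by omega)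
        have e1 : (((K + (m + 1) : ℕ) : ℤ) - 1) = ((K + m : ℕ) : ℤ) := by push_cast; ring
        have e2 : ((K + m + 1 : ℕ) : ℤ) = ((K + (m + 1) : ℕ) : ℤ) := by push_cast; ring
        rw [e1] at h2
        rw [e2] at h3 h4
        have h5 : Sw (stR K c) (m + 1) = Sw (stR K c) m + stR K c m := by
          unfold Sw
          rw [Finset.sum_range_succ]
        have h6 : stR K c m =
          c.1.1 (K + m + 1) - c.2.2.2.2.1 (K + m + 1) := rfl
        rw [h5, h6]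
        linarith
    have hL : ∀ m : ℕ, m ≤ N1 → Sw (stL K c) m ≤
        FRp σ A n ω (-((K + m : ℕ) : ℤ)) - FRp σ A n ω (-(K : ℤ)) := by
      intro m
      induction m with
      | zero =>
        intro _
        simp [Sw]
      | succ m ih =>
        intro hm
        have h1 := ih (by omega)
        have h2 := FRp_succ σ A n ω ((K + (m + 1) : ℕ) : ℤ)
        have h3 := v1 (K + m + 1) (by omega) (by omega)
        have h4 := u2 (K + m + 1) (by omega) (by omega)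
        have e1 : (((K + (m + 1) : ℕ) : ℤ) - 1) = ((K + m : ℕ) : ℤ) := by push_cast; ring
        have e2 : ((K + m + 1 : ℕ) : ℤ) = ((K + (m + 1) : ℕ) : ℤ) := by push_cast; ring
        rw [e1] at h2
        rw [e2] at h3 h4
        have h5 : Sw (stL K c) (m + 1) = Sw (stL K c) m + stL K c m := by
          unfold Sw
          rw [Finset.sum_range_succ]
        have h6 : stL K c m =
          c.2.1 (K + m + 1) - c.1.2.2.2.1 (K + m + 1) := rfl
        rw [h5, h6]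
        linarith
    have key : ∀ (N : ℕ) (s : ℝ), 0 ≤ s → N ≤ N1 → NR σ A n K (K + N) s ω →
        stR K c ∈ Stay s N ∧ stL K c ∈ Stay s N := by
      intro N s hs0 hNN hnr
      constructor
      · intro m hm
        rcases Nat.eq_zero_or_pos m with rfl | hmp
        · simpa [Sw] using hs0
        · exact (hR m (hm.trans hNN)).trans
            (hnr ((K + m : ℕ) : ℤ) (by push_cast; omega) (by push_cast; omega)).1
      · intro m hm
        rcases Nat.eq_zero_or_pos m with rfl | hmp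
        · simpa [Sw] using hs0
        · exact (hL m (hm.trans hNN)).trans
            (hnr ((K + m : ℕ) : ℤ) (by push_cast; omega) (by push_cast; omega)).2
    obtain ⟨k1, k2⟩ := key N0 s1 hs1 hN hn0
    obtain ⟨k3, k4⟩ := key N1 s2 (hs1.trans hs) le_rfl hn1
    exact ⟨⟨k1, k3⟩, ⟨k2, k4⟩⟩

end BGG
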