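import Pool.Agent.BGG.FDep
import Pool.Agent.BGG.FTail
import Pool.Agent.BGG.StatNR
import Pool.Agent.BGG.BlockA
import Pool.Agent.BGE.FProbA

/-!
BGG. Adaptation of `Pool/Agent/BGE/FProbA.lean`: same proof with the law `PG` of the environment and the law `PD` of the noise.
`Gam`, `BotS`, `AnnS` are those of BGE; `G1S` is the one of BGG (defined with `PG`). `gam_good` of BGE is
deterministic and used without change. `st1`, `tg_prob`, `crE_bad` of BGG; `BGE.section_bound` is about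
general product laws (see `BGE/FSect.lean`).
-/

namespace BGG


open MeasureTheory ProbabilityTheory BGE

variable [GeoPar]

private theorem fp_mono {C0 C1 κ σ lam Y g0 : ℝ} {n : ℕ} (hl : 0 ≤ lam) (h : C1 ≤ C0)
    (hP : Par C0 κ σ lam Y g0 n) : Par C1 κ σ lam Y g0 n := by
  obtain ⟨h1, h2, h3, h4, h5, h6⟩ := hP
  exact ⟨h1, h2, h.trans h3, h4, (mul_le_mul_of_nonneg_right h (by positivity)).trans h5, h6⟩

private theorem fp_m {c a b : ℝ} (hc : 0 ≤ c) (h : c ≤ a) (h2 : 1 ≤ b) : c ≤ a * b := by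
  calc c = c * 1 := (mul_one c).symm
    _ ≤ a * b := mul_le_mul h h2 zero_le_one (hc.trans h)

private theorem fp_sq4 {s : ℝ} (h : 1 ≤ s) : (s + 1) ^ 2 ≤ 4 * s ^ 2 := by
  nlinarith

private theorem fp_nr {σ A s : ℝ} {n K I : ℕ} {ω ω' : ℤ × ℤ → ℝ}
    (h : ∀ i : ℤ, (K : ℤ) ≤ |i| → |i| ≤ I → FLp σ A n ω' i = FLp σ A n ω i ∧
      FRp σ A n ω' i = FRp σ A n ω i) (hN : NR σ A n K I s ω') : NR σ A n K I s ω := by
  intro i h1 h2
  have hi : |i| = i := abs_of_nonneg (by omega)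
  have hK : |(K : ℤ)| = K := abs_of_nonneg (by omega)
  have a1 := h i (by rw [hi]; omega) (by rw [hi]; exact h2)
  have a2 := h (-i) (by rw [abs_neg, hi]; omega) (by rw [abs_neg, hi]; exact h2)
  have a3 := h K (by rw [hK]) (by rw [hK]; omega)
  have a4 := h (-(K : ℤ)) (by rw [abs_neg, hK]) (by rw [abs_neg, hK]; omega)
  have b := hN i h1 h2
  rw [a1.1, a2.2, a3.1, a4.2] at b
  exact b

private theorem fp_inv {C h lam : ℝ} (hC : 2 ≤ C) (hp : HP C h lam) :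
    Real.log (1 / h) ≤ h⁻¹ ∧ 1 ≤ h⁻¹ ∧ Real.log (1 / h) ^ 20000 ≤ h⁻¹ := by
  obtain ⟨p1, p2, p3, p4, p5⟩ := hp
  have e1 : Real.log (1 / h) ≤ h⁻¹ := by
    have := Real.log_le_sub_one_of_pos (x := 1 / h) (by positivity)
    rw [one_div] at this ⊢
    linarith
  have e2 : 1 ≤ h⁻¹ := by linarith
  refine ⟨e1, e2, ?_⟩
  rw [p4, ← pow_mul] at p5
  have e3 : h⁻¹ ^ (1 / 1000 : ℝ) ≤ h⁻¹ := by
    calc h⁻¹ ^ (1 / 1000 : ℝ) ≤ h⁻¹ ^ (1 : ℝ) :=
          Real.rpow_le_rpow_of_exponent_le e2 (by norm_num)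
      _ = h⁻¹ := Real.rpow_one _
  exact p5.trans e3

theorem gam_prob {κ : ℝ} (hκ : 0 < κ) : ∃ C1 : ℝ, 2 ≤ C1 ∧ ∀ (σ h lam : ℝ), HP C1 h lam →
    κ ≤ σ → σ ≤ 1 - κ →
    PG.real (Gam κ σ h lam)ᶜ ≤ 2 * (Real.log (1 / h) ^ 120000)⁻¹ := by
  obtain ⟨Ca, hCa, Ha⟩ := crE_bad (κ := κ / 4) (by linarith)
  obtain ⟨Ct, hCt, Ht⟩ := tg_prob hκ
  obtain ⟨Cn, hCn, Hn⟩ := fn 1
  refine ⟨Ca + Ct + Cn + 16, by linarith, ?_⟩
  intro σ h lam hp h1 h2
  obtain ⟨e1, e2, e3⟩ := fp_inv (by linarith) hp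
  have hL16 : 16 ≤ Real.log (1 / h) := by
    have := hp.2.2.1
    linarith
  have hh0 : 0 < h := hp.1
  have hn0 : (nn h 0 : ℝ) ≤ h⁻¹ ^ 3 :=
    ((Hn h lam (hp.mono (by linarith))).1 0 (by norm_num)).2.2.1
  have ha := Ha h lam (16 * nn h 0) (hp.mono (by linarith)) (by
    push_cast
    calc (16 : ℝ) * nn h 0 ≤ h⁻¹ * h⁻¹ ^ 3 := by
          gcongr
          linarith
      _ = h⁻¹ ^ 4 := by ring)
  have ht := Ht σ h lam (hp.mono (by linarith)) h1 h2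
  have hsub : (Gam κ σ h lam)ᶜ ⊆
      {ω | ¬ CrE (κ / 4) lam (16 * nn h 0) ω} ∪ (TG κ σ h lam)ᶜ := by
    intro ω hω
    by_contra hcon
    rw [Set.mem_union, not_or] at hcon
    exact hω ⟨not_not.1 hcon.1, not_not.1 hcon.2⟩
  have h10 : h ^ 10 ≤ (Real.log (1 / h) ^ 120000)⁻¹ := by
    have hL0 : 0 < Real.log (1 / h) := by linarith
    have a1 : Real.log (1 / h) ^ 120000 ≤ h⁻¹ ^ 10 := by
      calc Real.log (1 / h) ^ 120000 = (Real.log (1 / h) ^ 20000) ^ 6 := by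
            rw [← pow_mul]
        _ ≤ h⁻¹ ^ 6 := by gcongr
        _ ≤ h⁻¹ ^ 10 := pow_le_pow_right₀ e2 (by norm_num)
    calc h ^ 10 = (h⁻¹ ^ 10)⁻¹ := by rw [inv_pow, inv_inv]
      _ ≤ (Real.log (1 / h) ^ 120000)⁻¹ := by
        apply inv_anti₀ (by positivity) a1
  have h3 : PG.real (Gam κ σ h lam)ᶜ ≤ h ^ 10 + (Real.log (1 / h) ^ 120000)⁻¹ :=
    (measureReal_mono hsub (measure_ne_top _ _)).trans
      ((measureReal_union_le _ _).trans (add_le_add ha ht))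
  linarith

/-- the common parameters -/
private theorem fp_par {κ : ℝ} (C : ℝ) (hC : 8 ≤ C) (hC2 : 96 / κ ≤ C) :
    ∃ C1 : ℝ, 2 ≤ C1 ∧ ∀ (σ h lam : ℝ), HP C1 h lam → κ ≤ σ → σ ≤ 1 - κ →
    8 ≤ yy h ∧ 96 / κ ≤ yy h ∧ C ≤ yy h ∧ yy h ≤ lam ∧ 8 ≤ Real.log (1 / h) ∧
    (∀ k ≤ 25, Par C κ σ lam (yy h) (nn h 25) (nn h k) ∧ (1 : ℝ) ≤ nn h k ∧ nn h k ≤ nn h 0 ∧
      (nn h 0 : ℝ) ^ (2 / 3 : ℝ) ≤ Real.log (1 / h) ^ 45500 * (nn h k : ℝ) ^ (2 / 3 : ℝ)) ∧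
    (∀ k < 25, 8 * nn h (k + 1) ≤ nn h k ∧
      yy h ^ 50 * (nn h (k + 1) : ℝ) ^ (2 / 3 : ℝ) ≤ (nn h k : ℝ) ^ (2 / 3 : ℝ)) := by
  obtain ⟨Cy, hCy, Hy⟩ := fy C
  obtain ⟨Cn, hCn, Hn⟩ := fn C
  refine ⟨Cy + Cn + 8, by linarith, ?_⟩
  intro σ h lam hp h1 h2
  obtain ⟨y1, y2, y3⟩ := Hy h lam (hp.mono (by linarith))
  obtain ⟨n1, n2, n3, n4, n5⟩ := Hn h lam (hp.mono (by linarith))
  have hL : 8 ≤ Real.log (1 / h) := by
    have := hp.2.2.1
    linarith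
  have hlam : lam = Real.log (1 / h) ^ 20 := hp.2.2.2.1
  have hlam0 : 0 < lam := by linarith
  set L := Real.log (1 / h) with hLd
  set y := yy h with hyd
  have hy1 : 1 ≤ y := by linarith
  refine ⟨by linarith, by linarith, y1, y2, hL, ?_, ?_⟩
  · intro k hk
    obtain ⟨-, -, -, a4, a5, a6⟩ := n1 k hk
    obtain ⟨-, -, -, b4, -, -⟩ := n1 25 le_rfl
    have hl3 : (1 : ℝ) ≤ lam ^ 3 := one_le_pow₀ (by linarith)
    refine ⟨⟨h1, h2, y1, by linarith, b4, by exact_mod_cast a5⟩, ?_, a6, ?_⟩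
    · exact (fp_m zero_le_one (by linarith) hl3).trans a4
    · refine n4.trans ?_
      rw [hlam, ← pow_mul]
      have : (nn h 25 : ℝ) ^ (2 / 3 : ℝ) ≤ (nn h k : ℝ) ^ (2 / 3 : ℝ) :=
        Real.rpow_le_rpow (Nat.cast_nonneg _) (by exact_mod_cast a5) (by norm_num)
      exact mul_le_mul_of_nonneg_left this (by positivity)
  · intro k hk
    obtain ⟨a1, -, a3⟩ := n2 k hk
    constructor
    · have : (8 : ℝ) * nn h (k + 1) ≤ nn h k := by
        have hk0 : (0 : ℝ) ≤ nn h (k + 1) := Nat.cast_nonneg _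
        have := mul_le_mul_of_nonneg_right hC hk0
        linarith
      exact_mod_cast this
    · have hs : L ^ (1 / 2 : ℝ) = y ^ 10000 := by
        rw [← Real.sqrt_eq_rpow, ← y3, show (20000 : ℕ) = 10000 * 2 by norm_num, pow_mul,
          Real.sqrt_sq (by positivity)]
      have hs2 : L = y ^ 10000 * y ^ 10000 := by
        rw [← pow_add, ← y3]
      rw [hs] at a3
      have hpos : 0 < y ^ 10000 := by positivity
      have a4 : y ^ 10000 * (y ^ 10000 * (nn h (k + 1) : ℝ) ^ (2 / 3 : ℝ)) ≤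
          y ^ 10000 * (nn h k : ℝ) ^ (2 / 3 : ℝ) := by
        rw [← mul_assoc, ← hs2]
        exact a3
      have a5 := le_of_mul_le_mul_left a4 hpos
      refine le_trans ?_ a5
      have : y ^ 50 ≤ y ^ 10000 := pow_le_pow_right₀ hy1 (by norm_num)
      exact mul_le_mul_of_nonneg_right this (by positivity)

private theorem fp_sq (r : ℕ) : ((r : ℝ) ^ (1 / 3 : ℝ)) ^ 2 = (r : ℝ) ^ (2 / 3 : ℝ) := by
  rw [← Real.rpow_natCast, ← Real.rpow_mul (Nat.cast_nonneg r)]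
  norm_num

theorem ann_prob {κ : ℝ} (hκ : 0 < κ) : ∃ C1 : ℝ, 2 ≤ C1 ∧ ∀ (σ h lam : ℝ) (k : ℕ),
    HP C1 h lam → κ ≤ σ → σ ≤ 1 - κ → k < 25 →
    PG.real (AnnS κ σ h k) ≤
      yy h ^ 16 * (nn h (k + 1) : ℝ) ^ (2 / 3 : ℝ) / (nn h k : ℝ) ^ (2 / 3 : ℝ) := by
  obtain ⟨Cs, hCs, Hs⟩ := st1 hκ
  obtain ⟨Cr, hCr, Hr⟩ := FLp_res hκ
  obtain ⟨Cg, hCg, Hg⟩ := gam_good hκ
  obtain ⟨Cq, hCq, Hq⟩ := gam_prob hκ
  have h96 : 0 < 96 / κ := by positivity
  obtain ⟨C, hC⟩ : ∃ C, C = 16 * Cs + Cr + 96 / κ + 8 := ⟨_, rfl⟩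
  obtain ⟨Cp, hCp, Hp⟩ := fp_par (κ := κ) C (by linarith) (by linarith)
  refine ⟨Cg + Cq + Cp, by linarith, ?_⟩
  intro σ h lam k hp h1 h2 hk
  obtain ⟨y1, y2, y3, y4, hL, H1, H2⟩ := Hp σ h lam (hp.mono (by linarith)) h1 h2
  obtain ⟨P1, P2, P3, P4⟩ := H1 k hk.le
  obtain ⟨Q1, Q2, Q3, Q4⟩ := H1 (k + 1) hk
  obtain ⟨R1, R2⟩ := H2 k hk
  have hgp := Hq σ h lam (hp.mono (by linarith)) h1 h2
  have hgg := fun ω => Hg σ h lam ω (hp.mono (by linarith)) h1 h2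
  have hP0 : (0 : ℝ) ≤ (nn h 0 : ℝ) ^ (2 / 3 : ℝ) := by positivity
  have hlam0 : 0 < lam := by linarith
  have hN0' : (nn h k : ℝ) ^ (2 / 3 : ℝ) ≤ (nn h 0 : ℝ) ^ (2 / 3 : ℝ) :=
    Real.rpow_le_rpow (Nat.cast_nonneg _) (by exact_mod_cast P3) (by norm_num)
  -- notation
  have eA : 4 * farc h (nn h k) = 4 * yy h * (nn h k : ℝ) ^ (2 / 3 : ℝ) := by
    unfold farc
    ring
  have eR : RF σ h (nn h k) \ RF σ h (nn h (k + 1)) =
      Rgn σ (6 * (yy h * (nn h k : ℝ) ^ (2 / 3 : ℝ))) (nn h k) \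
        Rgn σ (6 * (yy h * (nn h (k + 1) : ℝ) ^ (2 / 3 : ℝ))) (nn h (k + 1)) := rfl
  obtain ⟨n, hn⟩ : ∃ n, n = nn h k := ⟨_, rfl⟩
  obtain ⟨r, hr⟩ : ∃ r, r = nn h (k + 1) := ⟨_, rfl⟩
  have hsq := fp_sq r
  have hN1 : (1 : ℝ) ≤ (n : ℝ) ^ (2 / 3 : ℝ) := by
    rw [hn]
    exact Real.one_le_rpow P2 (by norm_num)
  have hR1 : (1 : ℝ) ≤ (r : ℝ) ^ (2 / 3 : ℝ) := by
    rw [hr]
    exact Real.one_le_rpow Q2 (by norm_num)
  have hρ1 : (1 : ℝ) ≤ (r : ℝ) ^ (1 / 3 : ℝ) := by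
    rw [hr]
    exact Real.one_le_rpow Q2 (by norm_num)
  have hKf : (Kf κ h r : ℝ) ≤ 96 / κ * yy h * (r : ℝ) ^ (2 / 3 : ℝ) + 1 :=
    (Nat.ceil_lt_add_one (by positivity)).le
  have hKf' : 96 / κ * yy h * (r : ℝ) ^ (2 / 3 : ℝ) ≤ (Kf κ h r : ℝ) := Nat.le_ceil _
  have hIf : (If h n : ℝ) ≤ (n : ℝ) ^ (2 / 3 : ℝ) / yy h ^ 3 := Nat.floor_le (by positivity)
  have hIf' : (n : ℝ) ^ (2 / 3 : ℝ) / yy h ^ 3 < (If h n : ℝ) + 1 := Nat.lt_floor_add_one _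
  rw [← hn, ← hr] at R1 R2
  rw [← hn] at P1 P2 P3 P4 hN0' eA eR
  rw [← hr] at Q1 Q2 Q3 Q4 eR
  have hAnn : AnnS κ σ h k = {ω | NR σ (4 * farc h n) n (Kf κ h r) (If h n)
        (yy h ^ 6 * (r : ℝ) ^ (1 / 3 : ℝ)) (res (RF σ h n \ RF σ h r) ω)} := by
    rw [hn, hr]
    rfl
  rw [hAnn, ← hn, ← hr]
  set y := yy h with hy
  set N : ℝ := (n : ℝ) ^ (2 / 3 : ℝ) with hNd
  set R : ℝ := (r : ℝ) ^ (2 / 3 : ℝ) with hRd
  set ρ : ℝ := (r : ℝ) ^ (1 / 3 : ℝ) with hρd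
  set K := Kf κ h r with hKd
  set I := If h n with hId
  set L := Real.log (1 / h) with hLd
  set M : ℝ := N / y ^ 3 with hM
  have hy0 : 0 < y := by linarith
  have hy1 : 1 ≤ y := by linarith
  -- sizes
  have m1 : y ^ 47 * R ≤ M := by
    rw [hM, le_div_iff₀ (by positivity)]
    calc y ^ 47 * R * y ^ 3 = y ^ 50 * R := by ring
      _ ≤ N := R2
  have m2 : y ^ 13 * R ≤ M := by
    refine le_trans ?_ m1
    have : y ^ 13 ≤ y ^ 47 := pow_le_pow_right₀ hy1 (by norm_num)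
    exact mul_le_mul_of_nonneg_right this (by positivity)
  have m3 : 8 * (y ^ 12 * R) ≤ M := by
    refine le_trans ?_ m2
    calc 8 * (y ^ 12 * R) ≤ y * (y ^ 12 * R) := mul_le_mul_of_nonneg_right y1 (by positivity)
      _ = y ^ 13 * R := by ring
  have m4 : (K : ℝ) ≤ M / 8 := by
    have a1 : 96 / κ * y * R ≤ y * y * R := by gcongr
    have a2 : (1 : ℝ) ≤ y * y * R := fp_m zero_le_one (fp_m zero_le_one hy1 hy1) hR1
    have a3 : 2 * (y * y * R) ≤ y ^ 12 * R := by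
      calc 2 * (y * y * R) ≤ y * (y * y * R) := mul_le_mul_of_nonneg_right (by linarith) (by positivity)
        _ = y ^ 3 * R := by ring
        _ ≤ y ^ 12 * R := by
          have : y ^ 3 ≤ y ^ 12 := pow_le_pow_right₀ hy1 (by norm_num)
          exact mul_le_mul_of_nonneg_right this (by positivity)
    linarith
  have m5 : (1 : ℝ) ≤ M / 8 := by
    have : (1 : ℝ) ≤ y ^ 12 * R := fp_m zero_le_one (one_le_pow₀ hy1) hR1
    linarith
  have m6 : M ≤ y * N / 8 := by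
    rw [hM, div_le_div_iff₀ (by positivity) (by norm_num)]
    have : 8 ≤ y * y ^ 3 := fp_m (by norm_num) y1 (one_le_pow₀ hy1)
    calc N * 8 = 8 * N := by ring
      _ ≤ (y * y ^ 3) * N := mul_le_mul_of_nonneg_right this (by positivity)
      _ = y * N * y ^ 3 := by ring
  have m7 : K ≤ I := by
    have : (K : ℝ) ≤ I := by linarith
    exact_mod_cast this
  obtain ⟨N1, hN1d⟩ : ∃ N1 : ℕ, N1 = I - K := ⟨_, rfl⟩
  have hKN : K + N1 = I := by omega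
  have hN1r : (N1 : ℝ) = I - K := by
    have : ((K + N1 : ℕ) : ℝ) = I := by rw [hKN]
    push_cast at this
    linarith
  have m8 : M / 2 ≤ N1 := by
    rw [hN1r]
    linarith
  have m9 : 1 ≤ N1 := by
    have : (1 : ℝ) ≤ N1 := by linarith
    exact_mod_cast this
  have hs0 : 0 ≤ y ^ 6 * ρ := by positivity
  have hs1 : 1 ≤ y ^ 6 * ρ := fp_m zero_le_one (one_le_pow₀ hy1) hρ1
  have hs2 : (y ^ 6 * ρ) ^ 2 = y ^ 12 * R := by
    rw [mul_pow, hsq]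
    ring
  have hst := Hs σ lam y (nn h 25) (4 * farc h n) n (fp_mono hlam0.le (by linarith) P1)
    (by rw [eA]; exact fp_m zero_le_one (by linarith) hN1) (by rw [eA]) K N1 N1 m9 le_rfl (by
      have : ((K : ℝ) + N1) = I := by
        rw [hN1r]
        ring
      rw [this]
      calc Cs * y ^ 2 * I ≤ y * y ^ 2 * (N / y ^ 3) := by
            gcongr
            linarith
        _ = N := by field_simp)
    (y ^ 6 * ρ) (y ^ 6 * ρ) hs0 le_rfl (by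
      rw [Real.le_sqrt hs0 (by positivity), hs2]
      linarith)
  rw [hKN] at hst
  have hsub : {ω | NR σ (4 * farc h n) n K I (y ^ 6 * ρ) (res (RF σ h n \ RF σ h r) ω)} ⊆
      (Gam κ σ h lam)ᶜ ∪ {ω | GoodE κ σ lam y (nn h 25) (2 * n) ω ∧
        NR σ (4 * farc h n) n K I (y ^ 6 * ρ) ω ∧ NR σ (4 * farc h n) n K I (y ^ 6 * ρ) ω} := by
    intro ω hω
    by_cases hg : ω ∈ Gam κ σ h lam
    · right
      have hG := hgg ω hg
      have hG2 : GoodE κ σ lam y (nn h 25) (2 * n) ω := goodE_mono hlam0.le (by omega) hG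
      have hG1 : GoodE κ σ lam y (nn h 25) n ω := goodE_mono hlam0.le (by omega) hG
      have hN : NR σ (4 * farc h n) n K I (y ^ 6 * ρ) ω := by
        refine fp_nr ?_ hω
        intro i i1 i2
        have i1' : (K : ℝ) ≤ |(i : ℝ)| := by exact_mod_cast i1
        have i2' : |(i : ℝ)| ≤ (I : ℝ) := by exact_mod_cast i2
        exact Hr σ lam y (nn h 25) (4 * farc h n) n ω (fp_mono hlam0.le (by linarith) P1) hG1
          (by rw [eA]; positivity) (by rw [eA]) r Q1.2.2.2.2.2 R1 _ (by rw [eR]) i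
          (by linarith) (by linarith)
      exact ⟨hG2, hN, hN⟩
    · exact Or.inl hg
  have h5 := (measureReal_mono hsub (measure_ne_top PG _)).trans
      ((measureReal_union_le _ _).trans (add_le_add hgp hst))
  refine h5.trans ?_
  have hN0 : 0 < N := by linarith
  have hM0 : 0 < M := by linarith
  have h6 : 2 * (L ^ 120000)⁻¹ ≤ y ^ 16 * R / N / 2 := by
    have a1 : N ≤ L ^ 45500 * R := hN0'.trans Q4
    have hL0 : 0 < L := by linarith
    have a2 : 8 * L ^ 45500 ≤ L ^ 120000 := by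
      calc 8 * L ^ 45500 ≤ L * L ^ 45500 := mul_le_mul_of_nonneg_right hL (by positivity)
        _ = L ^ 45501 := by rw [← pow_succ']
        _ ≤ L ^ 120000 := pow_le_pow_right₀ (by linarith) (by norm_num)
    have a3 : (1 : ℝ) ≤ y ^ 16 := one_le_pow₀ hy1
    have a4 : R / N ≤ y ^ 16 * R / N := by
      rw [div_le_div_iff_of_pos_right hN0]
      calc R = 1 * R := (one_mul R).symm
        _ ≤ y ^ 16 * R := mul_le_mul_of_nonneg_right a3 (by positivity)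
    have a5 : 4 * (L ^ 120000)⁻¹ ≤ R / N := by
      rw [← div_eq_mul_inv, div_le_div_iff₀ (by positivity) hN0]
      have b1 : 4 * N ≤ 8 * (L ^ 45500 * R) := by
        have : 0 ≤ N := hN0.le
        linarith
      calc 4 * N ≤ 8 * (L ^ 45500 * R) := b1
        _ = (8 * L ^ 45500) * R := by ring
        _ ≤ L ^ 120000 * R := mul_le_mul_of_nonneg_right a2 (by positivity)
        _ = R * L ^ 120000 := by ring
    linarith
  have h7 : Cs * (y ^ 6 * ρ + 1) ^ 2 / N1 ≤ y ^ 16 * R / N / 2 := by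
    have a1 : (y ^ 6 * ρ + 1) ^ 2 ≤ 4 * (y ^ 12 * R) := by
      rw [← hs2]
      exact fp_sq4 hs1
    have hN1pos : (0 : ℝ) < N1 := by linarith
    have a2 : Cs * (y ^ 6 * ρ + 1) ^ 2 / N1 ≤ Cs * (4 * (y ^ 12 * R)) / (M / 2) := by
      gcongr
    refine a2.trans ?_
    have a3 : Cs * (4 * (y ^ 12 * R)) / (M / 2) = 16 * Cs * (y ^ 15 * R) / N / 2 := by
      rw [hM]
      field_simp
      ring
    rw [a3]
    have a4 : 16 * Cs * (y ^ 15 * R) ≤ y ^ 16 * R := by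
      calc 16 * Cs * (y ^ 15 * R) ≤ y * (y ^ 15 * R) :=
            mul_le_mul_of_nonneg_right (by linarith) (by positivity)
        _ = y ^ 16 * R := by ring
    gcongr
  linarith

theorem bot_prob {κ : ℝ} (hκ : 0 < κ) : ∃ C1 : ℝ, 2 ≤ C1 ∧ ∀ (σ h lam : ℝ),
    HP C1 h lam → κ ≤ σ → σ ≤ 1 - κ →
    PG.real (BotS σ h lam ∩ G1S κ σ h lam) ≤
      yy h ^ 4 / (nn h 25 : ℝ) ^ (2 / 3 : ℝ) := by
  obtain ⟨Cs, hCs, Hs⟩ := st1 hκ
  obtain ⟨Cr, hCr, Hr⟩ := FLp_res0 hκ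
  obtain ⟨Cg, hCg, Hg⟩ := gam_good hκ
  obtain ⟨Cb, hCb, Hb⟩ := fb 1
  obtain ⟨Cj, hCj, Hj⟩ := jT_spec
  have h96 : 0 < 96 / κ := by positivity
  obtain ⟨C, hC⟩ : ∃ C, C = 16 * Cs + Cr + 96 / κ + 8 := ⟨_, rfl⟩
  obtain ⟨Cp, hCp, Hp⟩ := fp_par (κ := κ) C (by linarith) (by linarith)
  refine ⟨Cg + Cb + Cj + Cp, by linarith, ?_⟩
  intro σ h lam hp h1 h2
  obtain ⟨y1, y2, y3, y4, hL, H1, H2⟩ := Hp σ h lam (hp.mono (by linarith)) h1 h2
  obtain ⟨P1, P2, P3, P4⟩ := H1 25 le_rfl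
  obtain ⟨b1, b2, b3, b4, b5, b6, b7, -, -, -⟩ := Hb h lam (hp.mono (by linarith))
  obtain ⟨-, -, -, j4, -⟩ := Hj h lam (nb h lam) (hp.mono (by linarith)) b1 b6
  have hgg := fun ω => Hg σ h lam ω (hp.mono (by linarith)) h1 h2
  have hlam0 : 0 < lam := by linarith
  have hlam1 : 1 ≤ lam := by linarith
  have hy0 : 0 < yy h := by linarith
  have hy1 : 1 ≤ yy h := by linarith
  have eA : 4 * farc h (nn h 25) = 4 * yy h * (nn h 25 : ℝ) ^ (2 / 3 : ℝ) := by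
    unfold farc
    ring
  have eR : RF σ h (nn h 25) =
      Rgn σ (6 * (yy h * (nn h 25 : ℝ) ^ (2 / 3 : ℝ))) (nn h 25) := rfl
  have hN1 : (1 : ℝ) ≤ (nn h 25 : ℝ) ^ (2 / 3 : ℝ) := Real.one_le_rpow P2 (by norm_num)
  have hIf : (If h (nn h 25) : ℝ) ≤ (nn h 25 : ℝ) ^ (2 / 3 : ℝ) / yy h ^ 3 :=
    Nat.floor_le (by positivity)
  have hIf' : (nn h 25 : ℝ) ^ (2 / 3 : ℝ) / yy h ^ 3 < (If h (nn h 25) : ℝ) + 1 :=
    Nat.lt_floor_add_one _
  -- sections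
  have hse : PG.real (BotS σ h lam ∩ G1S κ σ h lam) ≤
      2 * PG.real (BotS σ h lam ∩ G1S κ σ h lam ∩ Gam κ σ h lam) := by
    have hs : PG (BotS σ h lam ∩ G1S κ σ h lam) ≤
        2 * PG (BotS σ h lam ∩ G1S κ σ h lam ∩ Gam κ σ h lam) := by
      refine sect (fun _ : ℤ × ℤ => EG) (S := (RF σ h (nn h 25))ᶜ)
        ((measurableSet_BotS σ h lam).inter (measurableSet_G1S κ σ h lam))
        (measurableSet_Gam κ σ h lam) ?_ ?_
      · rw [compl_compl]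
        exact (depOn_BotS σ h lam).inter (depOn_G1S κ σ h lam)
      · intro x hx
        exact hx.2
    have h3 := ENNReal.toReal_mono (by finiteness) hs
    rw [ENNReal.toReal_mul, ENNReal.toReal_ofNat] at h3
    exact h3
  obtain ⟨n, hn⟩ : ∃ n, n = nn h 25 := ⟨_, rfl⟩
  have hj5 : (2 : ℝ) ^ jT h lam (nb h lam) ≤ (n : ℝ) ^ (2 / 3 : ℝ) / yy h ^ 3 / lam := by
    refine j4.trans ?_
    have a1 : (nb h lam : ℝ) ^ (2 / 3 : ℝ) ≤ (n : ℝ) ^ (2 / 3 : ℝ) := by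
      refine Real.rpow_le_rpow (Nat.cast_nonneg _) ?_ (by norm_num)
      rw [hn]
      have : nb h lam ≤ nn h 25 := by omega
      exact_mod_cast this
    calc (nb h lam : ℝ) ^ (2 / 3 : ℝ) / lam ^ 4 ≤ (n : ℝ) ^ (2 / 3 : ℝ) / (yy h ^ 3 * lam) := by
          have : yy h ^ 3 * lam ≤ lam ^ 4 := by
            calc yy h ^ 3 * lam ≤ lam ^ 3 * lam := by gcongr
              _ = lam ^ 4 := by ring
          gcongr
      _ = (n : ℝ) ^ (2 / 3 : ℝ) / yy h ^ 3 / lam := by rw [div_div]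
  have hBot : BotS σ h lam = {ω | NR σ (4 * farc h n) n 0 (2 ^ jT h lam (nb h lam)) 0
        (res (RF σ h n) ω) ∧ NR σ (4 * farc h n) n 0 (If h n) (4 * sl h lam n)
        (res (RF σ h n) ω)} := by
    rw [hn]
    rfl
  rw [← hn] at P1 P2 P3 P4 b3 b7 eA eR hN1 hIf hIf' ⊢
  set y := yy h with hy
  set N : ℝ := (n : ℝ) ^ (2 / 3 : ℝ) with hNd
  set I := If h n with hId
  set M : ℝ := N / y ^ 3 with hM
  have hsl0 : 0 ≤ sl h lam n := by
    unfold sl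
    positivity
  -- sizes
  have hJ : (1 : ℝ) ≤ 2 ^ jT h lam (nb h lam) := one_le_pow₀ (by norm_num)
  have m1 : lam ≤ M := by
    rw [le_div_iff₀ hlam0] at hj5
    calc lam = 1 * lam := (one_mul lam).symm
      _ ≤ 2 ^ jT h lam (nb h lam) * lam := mul_le_mul_of_nonneg_right hJ hlam0.le
      _ ≤ M := hj5
  have m2 : 8 ≤ M := by linarith
  have m3 : M / 2 ≤ I := by linarith
  have m4 : 2 ^ jT h lam (nb h lam) ≤ I := by
    have a1 : (2 : ℝ) ^ jT h lam (nb h lam) ≤ M / 8 := by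
      refine hj5.trans ?_
      gcongr
      linarith
    have a2 : ((2 ^ jT h lam (nb h lam) : ℕ) : ℝ) ≤ I := by
      push_cast
      linarith
    exact_mod_cast a2
  have m6 : M ≤ y * N / 8 := by
    rw [hM, div_le_div_iff₀ (by positivity) (by norm_num)]
    have : 8 ≤ y * y ^ 3 := fp_m (by norm_num) y1 (one_le_pow₀ hy1)
    calc N * 8 = 8 * N := by ring
      _ ≤ (y * y ^ 3) * N := mul_le_mul_of_nonneg_right this (by positivity)
      _ = y * N * y ^ 3 := by ring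
  have hst := Hs σ lam y n (4 * farc h n) n (fp_mono hlam0.le (by linarith) P1)
    (by rw [eA]; exact fp_m zero_le_one (by linarith) hN1) (by rw [eA]) 0 (2 ^ jT h lam (nb h lam)) I Nat.one_le_two_pow m4 (by
      rw [Nat.cast_zero, zero_add]
      calc Cs * y ^ 2 * I ≤ y * y ^ 2 * (N / y ^ 3) := by
            gcongr
            linarith
        _ = N := by field_simp)
    0 (4 * sl h lam n) le_rfl (by positivity) (by
      push_cast
      have a1 : √(2 ^ jT h lam (nb h lam)) / lam * 4 ≤ √(2 ^ jT h lam (nb h lam)) := by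
        rw [div_mul_eq_mul_div, div_le_iff₀ hlam0]
        exact mul_le_mul_of_nonneg_left (by linarith) (Real.sqrt_nonneg _)
      linarith)
  rw [zero_add, zero_add] at hst
  have hsub : BotS σ h lam ∩ G1S κ σ h lam ∩ Gam κ σ h lam ⊆
      {ω | GoodE κ σ lam y n (2 * n) ω ∧ NR σ (4 * farc h n) n 0 (2 ^ jT h lam (nb h lam)) 0 ω ∧
        NR σ (4 * farc h n) n 0 I (4 * sl h lam n) ω} := by
    rintro ω ⟨⟨hω, -⟩, hg⟩
    rw [hBot] at hω
    have hG := hgg ω hg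
    rw [← hn] at hG
    have hG2 : GoodE κ σ lam y n (2 * n) ω := goodE_mono hlam0.le (by omega) hG
    have hG1 : GoodE κ σ lam y n n ω := goodE_mono hlam0.le (by omega) hG
    have key : ∀ i : ℤ, |i| ≤ (I : ℤ) →
        FLp σ (4 * farc h n) n (res (RF σ h n) ω) i = FLp σ (4 * farc h n) n ω i ∧
        FRp σ (4 * farc h n) n (res (RF σ h n) ω) i = FRp σ (4 * farc h n) n ω i := by
      intro i i2
      have i2' : |(i : ℝ)| ≤ (I : ℝ) := by exact_mod_cast i2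
      exact Hr σ lam y n (4 * farc h n) n ω (fp_mono hlam0.le (by linarith) P1) hG1
        (by rw [eA]; positivity) (by rw [eA]) _ (by rw [eR]) i (by linarith)
    refine ⟨hG2, fp_nr (fun i _ i2 => key i ?_) hω.1, fp_nr (fun i _ i2 => key i i2) hω.2⟩
    have : ((2 ^ jT h lam (nb h lam) : ℕ) : ℤ) ≤ I := by exact_mod_cast m4
    exact i2.trans this
  have h5 := (measureReal_mono hsub (measure_ne_top PG _)).trans hst
  have hN0 : 0 < N := by linarith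
  have hI0 : (0 : ℝ) < I := by linarith
  have h7 : Cs * (0 + 1) ^ 2 / I ≤ y ^ 4 / N / 2 := by
    have a2 : Cs * (0 + 1) ^ 2 / I ≤ Cs * (0 + 1) ^ 2 / (M / 2) := by
      gcongr
    refine a2.trans ?_
    have a3 : Cs * (0 + 1) ^ 2 / (M / 2) = 4 * Cs * y ^ 3 / N / 2 := by
      rw [hM]
      field_simp
      ring
    rw [a3]
    have a4 : 4 * Cs * y ^ 3 ≤ y ^ 4 := by
      calc 4 * Cs * y ^ 3 ≤ y * y ^ 3 := mul_le_mul_of_nonneg_right (by linarith) (by positivity)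
        _ = y ^ 4 := by ring
    gcongr
  linarith

end BGG
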