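import Pool.Agent.BGG.Defs

/-!
BGG / G0a. Elementary facts on the parameters.

Put `c = √q` (`gc`). `gs = 1/c - c`, `gd = 1 - c`, `gK = (1+c)²/(4c) = 1 + gk/4`, `gk = (1-c)²/c`.
For `0 ≤ ρ ≤ 1`: the denominator `ρ + c (1-ρ)` is at least `c`, the numerator `c ρ + 1 - ρ` at
least `c`; `1 - gap ρ = ρ (1 - c²)/(ρ + c (1-ρ))` and `gap ρ * gap (1-ρ) = c²` by cancellation.
`gap_anti`: cross-multiplication. `gap_quot`: `gap β - gap α = (gap β) · (...)`; directly: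
`1 - gap α/gap β = (α - β)(1 - c²)/((α + c (1-α)) (c β + 1 - β))` and this denominator is at least `c`
(for `0 ≤ β ≤ α ≤ 1`: it is at least its value for `β = α`, `(α + c (1-α))(c α + 1 - α) =
c + (1-c)² α (1-α) ≥ c`; `c β + 1 - β` decreases in `β`).
-/

namespace BGG

open MeasureTheory ProbabilityTheory BGE

variable [GeoPar]

theorem gc_pos : 0 < gc := Real.sqrt_pos.mpr GeoPar.q_pos

theorem gc_lt : gc < 1 := by
  unfold gc
  rw [Real.sqrt_lt' one_pos, one_pow]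
  exact GeoPar.q_lt

theorem gc_sq : gc ^ 2 = GeoPar.q := Real.sq_sqrt GeoPar.q_pos.le

private theorem gs_c : gs = (1 - gc ^ 2) / gc := by
  rw [gc_sq]
  rfl

theorem gs_pos : 0 < gs := by
  rw [gs_c]
  have h1 := gc_pos
  have h2 := gc_lt
  apply div_pos _ h1
  nlinarith

theorem gs_eq : gs = 1 / gc - gc := by
  rw [gs_c]
  have h1 := gc_pos
  field_simp

theorem gd_eq : gd = 1 - gc := rfl

theorem gd_pos : 0 < gd := by
  rw [gd_eq]
  linarith [gc_lt]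

theorem gd_lt : gd < 1 := by
  rw [gd_eq]
  linarith [gc_pos]

theorem gk_eq : gk = (1 - gc) ^ 2 / gc := rfl

theorem gk_nonneg : 0 ≤ gk := by
  rw [gk_eq]
  have h1 := gc_pos
  positivity

theorem gK_eq : gK = 1 + gk / 4 := by
  have h : gK = (1 + gc) ^ 2 / (4 * gc) := rfl
  rw [h, gk_eq]
  have h1 := gc_pos
  field_simp
  ring

theorem gK_ge : 1 ≤ gK := by
  rw [gK_eq]
  linarith [gk_nonneg]

theorem gX_pos : 0 < gX := by
  unfold gX
  have h := gK_ge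
  have h1 : 0 < gK := by linarith
  positivity

theorem gap_one : gap 1 = GeoPar.q := by
  unfold gap
  rw [← gc_sq]
  ring_nf

private theorem den_pos {ρ : ℝ} (h0 : 0 ≤ ρ) (h1 : ρ ≤ 1) : 0 < ρ + gc * (1 - ρ) := by
  have h2 := gc_pos
  have h3 := gc_lt
  nlinarith

private theorem num_pos {ρ : ℝ} (h0 : 0 ≤ ρ) (h1 : ρ ≤ 1) : 0 < gc * ρ + (1 - ρ) := by
  have h2 := gc_pos
  have h3 := gc_lt
  nlinarith

theorem gap_pos {ρ : ℝ} (h0 : 0 ≤ ρ) (h1 : ρ ≤ 1) : 0 < gap ρ :=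
  div_pos (mul_pos gc_pos (num_pos h0 h1)) (den_pos h0 h1)

theorem one_sub_gap {ρ : ℝ} (h0 : 0 ≤ ρ) (h1 : ρ ≤ 1) :
    1 - gap ρ = ρ * (1 - GeoPar.q) / (ρ + gc * (1 - ρ)) := by
  have h2 := den_pos h0 h1
  unfold gap
  rw [← gc_sq]
  field_simp
  ring

theorem gap_lt {ρ : ℝ} (h0 : 0 < ρ) (h1 : ρ ≤ 1) : gap ρ < 1 := by
  have h2 := one_sub_gap h0.le h1
  have h3 : 0 < ρ * (1 - GeoPar.q) / (ρ + gc * (1 - ρ)) :=
    div_pos (mul_pos h0 (by linarith [GeoPar.q_lt])) (den_pos h0.le h1)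
  linarith

theorem one_sub_gap_le {ρ : ℝ} (h0 : 0 ≤ ρ) (h1 : ρ ≤ 1) : 1 - gap ρ ≤ gs * ρ := by
  rw [one_sub_gap h0 h1, gs_c, ← gc_sq]
  have h2 := gc_pos
  have h3 := gc_lt
  have h4 := den_pos h0 h1
  have h5 : gc ≤ ρ + gc * (1 - ρ) := by nlinarith
  have h6 : 0 ≤ 1 - gc ^ 2 := by nlinarith
  rw [div_mul_eq_mul_div, mul_comm (1 - gc ^ 2) ρ]
  exact div_le_div_of_nonneg_left (mul_nonneg h0 h6) h2 h5

theorem gap_mul {ρ : ℝ} (h0 : 0 ≤ ρ) (h1 : ρ ≤ 1) : gap ρ * gap (1 - ρ) = GeoPar.q := by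
  have h2 := den_pos h0 h1
  have h3 := num_pos h0 h1
  unfold gap
  rw [← gc_sq]
  have e1 : (1 - ρ) + gc * (1 - (1 - ρ)) = gc * ρ + (1 - ρ) := by ring
  have e2 : gc * (1 - ρ) + (1 - (1 - ρ)) = ρ + gc * (1 - ρ) := by ring
  rw [e1, e2]
  field_simp

private theorem gap_sub {α β : ℝ} (h0 : 0 ≤ β) (h1 : β < α) (h2 : α ≤ 1) :
    1 - gap α / gap β =
      (α - β) * (1 - gc ^ 2) / ((α + gc * (1 - α)) * (gc * β + (1 - β))) := by
  have d1 := den_pos (h0.trans h1.le) h2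
  have d2 := den_pos h0 (h1.le.trans h2)
  have n1 := num_pos (h0.trans h1.le) h2
  have n2 := num_pos h0 (h1.le.trans h2)
  have h3 := gc_pos
  unfold gap
  field_simp
  ring

theorem gap_quot {α β : ℝ} (h0 : 0 ≤ β) (h1 : β < α) (h2 : α ≤ 1) :
    0 < gap α / gap β ∧ gap α / gap β < 1 ∧ 1 - gap α / gap β ≤ gs * (α - β) := by
  have d1 := den_pos (h0.trans h1.le) h2
  have n2 := num_pos h0 (h1.le.trans h2)
  have h3 := gc_pos
  have h4 := gc_lt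
  have h6 : 0 < 1 - gc ^ 2 := by nlinarith
  have e := gap_sub h0 h1 h2
  have hp : 0 < (α - β) * (1 - gc ^ 2) / ((α + gc * (1 - α)) * (gc * β + (1 - β))) :=
    div_pos (mul_pos (by linarith) h6) (mul_pos d1 n2)
  refine ⟨div_pos (gap_pos (h0.trans h1.le) h2) (gap_pos h0 (h1.le.trans h2)), by linarith, ?_⟩
  rw [e, gs_c, div_mul_eq_mul_div, mul_comm (1 - gc ^ 2) (α - β)]
  apply div_le_div_of_nonneg_left (mul_nonneg (by linarith) h6.le) h3
  have h7 : gc * α + (1 - α) ≤ gc * β + (1 - β) := by nlinarith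
  have h8 : (α + gc * (1 - α)) * (gc * α + (1 - α)) ≤
      (α + gc * (1 - α)) * (gc * β + (1 - β)) := mul_le_mul_of_nonneg_left h7 d1.le
  have h9 : (α + gc * (1 - α)) * (gc * α + (1 - α)) = gc + (1 - gc) ^ 2 * (α * (1 - α)) := by
    ring
  have h10 : 0 ≤ (1 - gc) ^ 2 * (α * (1 - α)) :=
    mul_nonneg (sq_nonneg _) (mul_nonneg (by linarith) (by linarith))
  linarith

theorem gap_anti {α β : ℝ} (h0 : 0 ≤ β) (h1 : β < α) (h2 : α ≤ 1) : gap α < gap β := by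
  have h3 := (gap_quot h0 h1 h2).2.1
  have h4 := gap_pos h0 (h1.le.trans h2)
  rwa [div_lt_one h4] at h3

end BGG
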