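import Pool.Agent.BGG.RowMart
import Pool.Agent.BGG.CondMax
import Pool.Agent.BGG.Prod
import Pool.Agent.BGE.NearB

/-!
BGG. Adaptation of `Pool/Agent/BGE/NearB.lean`: same proof with the law `PG` of the environment and the law `PD` of the noise.
`row_max`, `lin_max`, `cond_max` of BGG.
-/

namespace BGG


open MeasureTheory ProbabilityTheory BGE

variable [GeoPar]

private theorem nb_T_le_sum {ω : ℤ × ℤ → ℝ} {u v : ℤ × ℤ} (h : u ≤ v) (hω : ∀ z, 0 ≤ ω z) :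
    T ω u v ≤ ∑ z ∈ Finset.Icc u v, ω z := by
  refine geo_induction ω u (fun v => T ω u v ≤ ∑ z ∈ Finset.Icc u v, ω z) ?_ ?_ v h
  · rw [T_self, Finset.Icc_self, Finset.sum_singleton]
  · intro v' v h1 h2 h3 ih
    have hvv : v' ≤ v := by
      rcases h2 with rfl | rfl
      · exact ⟨by simp, le_rfl⟩
      · exact ⟨le_rfl, by simp⟩
    have hnot : v ∉ Finset.Icc u v' := by
      intro hm
      rw [Finset.mem_Icc] at hm
      have h4 := lev_le_lev hm.2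
      rcases h2 with rfl | rfl
      · unfold lev at h4; simp only at h4; omega
      · unfold lev at h4; simp only at h4; omega
    have hsub : insert v (Finset.Icc u v') ⊆ Finset.Icc u v := by
      intro z hz
      rw [Finset.mem_insert] at hz
      rcases hz with rfl | hz
      · exact Finset.mem_Icc.2 ⟨h1.trans hvv, le_rfl⟩
      · rw [Finset.mem_Icc] at hz ⊢
        exact ⟨hz.1, hz.2.trans hvv⟩
    rw [h3]
    calc T ω u v' + ω v ≤ ω v + ∑ z ∈ Finset.Icc u v', ω z := by linarith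
      _ = ∑ z ∈ insert v (Finset.Icc u v'), ω z := (Finset.sum_insert hnot).symm
      _ ≤ _ := Finset.sum_le_sum_of_subset_of_nonneg hsub fun z _ _ => hω z

private theorem nb_row (ω : ℤ × ℤ → ℝ) (r : ℤ) {i j : ℤ} (h : i ≤ j) :
    T ω (i, r) (j, r) = ∑ u ∈ Finset.Icc i j, ω (u, r) := by
  induction j, h using Int.leInduction with
  | base => rw [T_self, Finset.Icc_self, Finset.sum_singleton]
  | succ k hk ih =>
    rw [T_row (ω := ω) (u := (i, r)) (v := (k + 1, r)) (by simp only; omega) rfl]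
    simp only [add_sub_cancel_right]
    rw [ih]
    have : Finset.Icc i (k + 1) = insert (k + 1) (Finset.Icc i k) := by
      ext l
      simp only [Finset.mem_Icc, Finset.mem_insert]
      omega
    rw [this, Finset.sum_insert (by simp)]
    ring

/-- sums over the beginning of a block of a row -/
private theorem nb_seg (ω : ℤ × ℤ → ℝ) (r : ℤ) (κ : ℤ) (n : ℕ) :
    ∑ u ∈ Finset.Icc (κ + 1) (κ + n), ω (u, r) =
      n + ∑ u ∈ Finset.range n, (ω (κ + 1 + u, r) - 1) := by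
  induction n with
  | zero => simp
  | succ n ih =>
    have : Finset.Icc (κ + 1) (κ + ((n + 1 : ℕ) : ℤ)) =
        insert (κ + ((n + 1 : ℕ) : ℤ)) (Finset.Icc (κ + 1) (κ + n)) := by
      ext l
      simp only [Finset.mem_Icc, Finset.mem_insert]
      push_cast
      omega
    rw [this, Finset.sum_insert (by simp), ih, Finset.sum_range_succ]
    push_cast
    have e : κ + 1 + (n : ℤ) = κ + ((n : ℤ) + 1) := by ring
    rw [e]
    ring

private theorem nb_split (ω : ℤ × ℤ → ℝ) (r : ℤ) {i κ j : ℤ} (h1 : i ≤ κ + 1) (h2 : κ ≤ j) :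
    ∑ u ∈ Finset.Icc i j, ω (u, r) =
      ∑ u ∈ Finset.Icc i κ, ω (u, r) + ∑ u ∈ Finset.Icc (κ + 1) j, ω (u, r) := by
  rw [← Finset.sum_union]
  · congr 1
    ext l
    simp only [Finset.mem_Icc, Finset.mem_union]
    omega
  · rw [Finset.disjoint_left]
    intro l hl hl'
    rw [Finset.mem_Icc] at hl hl'
    omega

private theorem nb_det {ω : ℤ × ℤ → ℝ} (hω : ∀ z, 0 ≤ ω z) {κ kb M0 : ℕ} {D : ℝ} (hD : 0 ≤ D)
    (hS : ∀ r : ℕ, 1 ≤ r → r ≤ M0 → ∀ j ≤ kb,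
      |∑ u ∈ Finset.range j, (ω ((κ : ℤ) + 1 + u, (r : ℤ)) - 1)| ≤ D) (r : ℕ) :
    1 ≤ r → r ≤ M0 → ∀ j : ℤ, (κ : ℤ) ≤ j → j ≤ κ + kb →
      T ω (0, 1) (j, (r : ℤ)) ≤ ∑ z ∈ Finset.Icc ((0, 1) : ℤ × ℤ) ((κ : ℤ), (M0 : ℤ)), ω z +
        ((j : ℝ) - κ) + r + 2 * r * D := by
  set Q := ∑ z ∈ Finset.Icc ((0, 1) : ℤ × ℤ) ((κ : ℤ), (M0 : ℤ)), ω z with hQ
  have hseg : ∀ r : ℕ, 1 ≤ r → r ≤ M0 → ∀ j : ℤ, (κ : ℤ) ≤ j → j ≤ κ + kb →
      |∑ u ∈ Finset.Icc ((κ : ℤ) + 1) j, ω (u, (r : ℤ)) - ((j : ℝ) - κ)| ≤ D := by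
    intro r hr hr' j hj hj'
    obtain ⟨n, rfl⟩ : ∃ n : ℕ, j = κ + n := ⟨(j - κ).toNat, by omega⟩
    rw [nb_seg]
    have := hS r hr hr' n (by omega)
    push_cast
    rw [show (n : ℝ) + ∑ u ∈ Finset.range n, (ω ((κ : ℤ) + 1 + u, (r : ℤ)) - 1) -
      ((κ : ℝ) + n - κ) = ∑ u ∈ Finset.range n, (ω ((κ : ℤ) + 1 + u, (r : ℤ)) - 1) by ring]
    exact this
  have hbox : ∀ r : ℕ, 1 ≤ r → r ≤ M0 → T ω (0, 1) ((κ : ℤ), (r : ℤ)) ≤ Q := by
    intro r hr hr'
    refine (nb_T_le_sum (u := (0, 1)) (v := ((κ : ℤ), (r : ℤ)))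
      ⟨by simp, by simp only; exact_mod_cast hr⟩ hω).trans ?_
    refine Finset.sum_le_sum_of_subset_of_nonneg ?_ fun z _ _ => hω z
    refine Finset.Icc_subset_Icc_right ⟨le_rfl, ?_⟩
    simp only
    exact_mod_cast hr'
  induction r with
  | zero => intro h; omega
  | succ r ih =>
    intro h1 h2 j hj1 hj2
    have hs := hseg (r + 1) h1 h2
    rcases Nat.eq_zero_or_pos r with hr | hr
    · subst hr
      simp only [zero_add, Nat.cast_one]
      simp only [zero_add, Nat.cast_one] at hs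
      rw [nb_row ω 1 (by omega : (0 : ℤ) ≤ j), nb_split ω 1 (κ := κ) (by omega) hj1,
        ← nb_row ω 1 (by omega : (0 : ℤ) ≤ κ)]
      have h3 := hbox 1 le_rfl (by omega)
      simp only [Nat.cast_one] at h3
      have h4 := abs_le.1 (hs j hj1 hj2)
      have h5 := h4.2
      linarith
    · obtain ⟨i, hi1, hi2, hi3⟩ := exists_row_cross ω (u := (0, 1)) (v := (j, ((r + 1 : ℕ) : ℤ)))
        (j := r) ⟨by simp only; omega, by simp only; omega⟩ (by simp only; omega)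
        (by simp only; omega)
      simp only at hi1 hi2 hi3
      have e : ((r : ℤ) + 1) = ((r + 1 : ℕ) : ℤ) := by push_cast; ring
      rw [e] at hi3
      rw [hi3, nb_row ω _ hi2]
      rcases le_or_gt i κ with hik | hik
      · rw [nb_split ω _ (κ := κ) (by omega) hj1]
        have h6 := T_edge_le (ω := ω) (u := (0, 1)) (w := (i, (r : ℤ)))
          (w' := (i, ((r + 1 : ℕ) : ℤ))) (v := ((κ : ℤ), ((r + 1 : ℕ) : ℤ)))
          ⟨by simp only; omega, by simp only; omega⟩ (Or.inr (by simp)) ⟨by simp only; omega, le_rfl⟩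
        rw [nb_row ω _ hik] at h6
        have h7 := hbox (r + 1) h1 h2
        have h4 := (abs_le.1 (hs j hj1 hj2)).2
        have h8 : (0 : ℝ) ≤ ((r + 1 : ℕ) : ℝ) := by positivity
        have h9 : (1 : ℝ) ≤ ((r + 1 : ℕ) : ℝ) := by exact_mod_cast h1
        nlinarith
      · have h6 := ih hr (by omega) i (by omega) (by omega)
        have h7 := nb_split ω ((r + 1 : ℕ) : ℤ) (i := (κ : ℤ) + 1) (κ := i - 1) (j := j) (by omega)
          (by omega)
        rw [sub_add_cancel] at h7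
        have h4 := (abs_le.1 (hs j hj1 hj2)).2
        have h5 := (abs_le.1 (hs (i - 1) (by omega) (by omega))).1
        push_cast at h5 h7 h4 h6 ⊢
        rw [h7] at h4
        linarith

/-- independent repetitions -/
private theorem nb_rep {K : ℕ → ℕ} (hK : ∀ b, K b ≤ K (b + 1)) (A : ℕ → Set (DI → ℝ))
    (hA : ∀ b, MeasurableSet (A b))
    (hdep : ∀ b, DepOn (nz {v | (K b : ℤ) < v.1 ∧ v.1 ≤ (K (b + 1) : ℤ)}) (A b)) {p : ℝ}
    (hp : ∀ b, p ≤ PD.real (A b)) (n : ℕ) :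
    MeasurableSet {x | ∀ b < n, x ∉ A b} ∧
      DepOn (nz {v | v.1 ≤ (K n : ℤ)}) {x | ∀ b < n, x ∉ A b} ∧
      PD.real {x | ∀ b < n, x ∉ A b} ≤ (1 - p) ^ n := by
  induction n with
  | zero =>
    refine ⟨?_, ?_, ?_⟩
    · simp
    · intro x y _
      simp
    · simp
  | succ n ih =>
    obtain ⟨h1, h2, h3⟩ := ih
    have e : {x | ∀ b < n + 1, x ∉ A b} = {x | ∀ b < n, x ∉ A b} ∩ (A n)ᶜ := by
      ext x
      simp only [Set.mem_ofPred_eq, Set.mem_inter_iff, Set.mem_compl_iff]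
      constructor
      · intro h
        exact ⟨fun b hb => h b (by omega), h n (by omega)⟩
      · rintro ⟨h, h'⟩ b hb
        rcases Nat.lt_succ_iff_lt_or_eq.1 hb with hb | rfl
        · exact h b hb
        · exact h'
    have hc : DepOn (nz {v | (K n : ℤ) < v.1 ∧ v.1 ≤ (K (n + 1) : ℤ)}) (A n)ᶜ := fun x y h =>
      not_congr (hdep n x y h)
    have hd : Disjoint (nz {v | v.1 ≤ (K n : ℤ)})
        (nz {v | (K n : ℤ) < v.1 ∧ v.1 ≤ (K (n + 1) : ℤ)}) := by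
      rw [Set.disjoint_left]
      rintro d hd1 hd2
      simp only [nz, Set.mem_ofPred_eq] at hd1 hd2
      omega
    have hi := indep2 dlaw hd h1 (hA n).compl h2 hc
    refine ⟨?_, ?_, ?_⟩
    · rw [e]
      exact h1.inter (hA n).compl
    · rw [e]
      refine DepOn.inter (h2.mono ?_) (hc.mono ?_)
      · intro d hd1
        simp only [nz, Set.mem_ofPred_eq] at hd1 ⊢
        have := hK n
        omega
      · intro d hd1
        simp only [nz, Set.mem_ofPred_eq] at hd1 ⊢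
        exact hd1.2
    · rw [e]
      have hi' : PD.real ({x | ∀ b < n, x ∉ A b} ∩ (A n)ᶜ) =
          PD.real {x | ∀ b < n, x ∉ A b} * PD.real (A n)ᶜ := by
        rw [measureReal_def, measureReal_def, measureReal_def, ← ENNReal.toReal_mul]
        exact congrArg ENNReal.toReal hi
      rw [hi', probReal_compl_eq_one_sub (hA n), pow_succ]
      have h4 : PD.real (A n) ≤ 1 := measureReal_le_one
      have h5 := hp n
      have h6 : 0 ≤ PD.real (A n) := measureReal_nonneg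
      refine mul_le_mul h3 (by linarith) (by linarith) (pow_nonneg (by linarith) n)

private theorem nb_ms_le {α : Type*} [MeasurableSpace α] {f g : α → ℝ} (hf : Measurable f)
    (hg : Measurable g) : Measurable fun x => f x ≤ g x :=
  measurableSet_setOfPred.1 (measurableSet_le hf hg)

private theorem nb_ms_c {α : Type*} [MeasurableSpace α] (p : Prop) : Measurable fun _ : α => p :=
  measurable_const

private theorem nb_dyn {x y : DI → ℝ} {R : Set (ℤ × ℤ)} (h : ∀ d ∈ nz R, x d = y d) (η : ℝ)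
    (i : ℕ) {v : ℤ × ℤ} (hv : v ∈ R) : dyn η x i v = dyn η y i v := by
  rw [dyn_eq, dyn_eq]
  exact congrArg (fun f => dyn1 η f i) (funext fun p => h (v, p) hv)

private theorem nb_meas (η : ℝ) (i : ℕ) (v : ℤ × ℤ) :
    Measurable fun x : DI → ℝ => dyn η x i v :=
  (measurable_pi_apply v).comp (measurable_dyn η i)

/-- the block of the row `0` -/
private def nbF (κ kb : ℕ) : Finset (ℤ × ℤ) :=
  (Finset.range kb).image fun u : ℕ => ((κ : ℤ) + 1 + u, (0 : ℤ))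

private theorem nbF_inj (κ kb : ℕ) (r : ℤ) : Set.InjOn (fun u : ℕ => (((κ : ℤ) + 1 + u, r) : ℤ × ℤ))
    {u | u < kb} := by
  intro a _ b _ hab
  have := congrArg Prod.fst hab
  simp only at this
  omega

private theorem nbF_card (κ kb : ℕ) : (nbF κ kb).card = kb := by
  unfold nbF
  rw [Finset.card_image_of_injOn, Finset.card_range]
  intro a ha b hb hab
  exact nbF_inj κ kb 0 (by simpa using ha) (by simpa using hb) hab

private theorem nbF_sum (κ kb : ℕ) (f : ℤ × ℤ → ℝ) :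
    ∑ v ∈ nbF κ kb, f v = ∑ u ∈ Finset.range kb, f ((κ : ℤ) + 1 + u, 0) := by
  unfold nbF
  rw [Finset.sum_image]
  intro a ha b hb hab
  exact nbF_inj κ kb 0 (by simpa using ha) (by simpa using hb) hab

private def nbA0 (κ kb : ℕ) (c η : ℝ) (M : ℕ) : Set (DI → ℝ) :=
  {x | ∀ i ≤ M, c ≤ ∑ v ∈ nbF κ kb, (dyn η x i v - 1)}

private def nbA1 (κ kb M0 : ℕ) (D η : ℝ) (M : ℕ) : Set (DI → ℝ) :=
  {x | ∀ r : ℕ, 1 ≤ r → r ≤ M0 → ¬ ∃ i ≤ M, ∃ j ≤ kb,
    D ≤ |∑ u ∈ Finset.range j, (dyn η x i ((κ : ℤ) + 1 + u, (r : ℤ)) - 1)|}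

private theorem nbA0_meas (κ kb : ℕ) (c η : ℝ) (M : ℕ) : MeasurableSet (nbA0 κ kb c η M) := by
  refine measurableSet_setOfPred.2 ?_
  refine Measurable.forall fun i => (nb_ms_c _).imp ?_
  exact nb_ms_le measurable_const
    (Finset.measurable_sum _ fun v _ => (nb_meas η i v).sub_const 1)

private theorem nbA1_meas (κ kb M0 : ℕ) (D η : ℝ) (M : ℕ) :
    MeasurableSet (nbA1 κ kb M0 D η M) := by
  refine measurableSet_setOfPred.2 ?_
  refine Measurable.forall fun r => (nb_ms_c _).imp ((nb_ms_c _).imp (Measurable.not ?_))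
  refine Measurable.exists fun i => (nb_ms_c _).and ?_
  refine Measurable.exists fun j => (nb_ms_c _).and ?_
  exact nb_ms_le measurable_const
    (Finset.measurable_sum _ fun v _ => (nb_meas η i _).sub_const 1).abs

private theorem nbA0_dep (κ kb : ℕ) (c η : ℝ) (M : ℕ) :
    DepOn (nz {v | (κ : ℤ) < v.1 ∧ v.1 ≤ ((κ + kb : ℕ) : ℤ) ∧ v.2 = 0}) (nbA0 κ kb c η M) := by
  intro x y h
  unfold nbA0
  rw [Set.mem_ofPred_eq, Set.mem_ofPred_eq]
  refine forall_congr' fun i => imp_congr_right fun _ => ?_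
  rw [nbF_sum, nbF_sum]
  have : ∑ u ∈ Finset.range kb, (dyn η x i ((κ : ℤ) + 1 + u, 0) - 1) =
      ∑ u ∈ Finset.range kb, (dyn η y i ((κ : ℤ) + 1 + u, 0) - 1) := by
    refine Finset.sum_congr rfl fun u hu => ?_
    rw [Finset.mem_range] at hu
    rw [nb_dyn h η i]
    exact ⟨by simp only; omega, by simp only; push_cast; omega, rfl⟩
  rw [this]

private theorem nbA1_dep (κ kb M0 : ℕ) (D η : ℝ) (M : ℕ) :
    DepOn (nz {v | (κ : ℤ) < v.1 ∧ v.1 ≤ ((κ + kb : ℕ) : ℤ) ∧ 1 ≤ v.2}) (nbA1 κ kb M0 D η M) := by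
  intro x y h
  unfold nbA1
  rw [Set.mem_ofPred_eq, Set.mem_ofPred_eq]
  refine forall_congr' fun r => imp_congr_right fun hr => imp_congr_right fun _ => not_congr ?_
  refine exists_congr fun i => and_congr_right fun _ => ?_
  refine exists_congr fun j => and_congr_right fun hj => ?_
  have : ∑ u ∈ Finset.range j, (dyn η x i ((κ : ℤ) + 1 + u, (r : ℤ)) - 1) =
      ∑ u ∈ Finset.range j, (dyn η y i ((κ : ℤ) + 1 + u, (r : ℤ)) - 1) := by
    refine Finset.sum_congr rfl fun u hu => ?_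
    rw [Finset.mem_range] at hu
    rw [nb_dyn h η i]
    simp only [Set.mem_ofPred_eq]
    push_cast
    omega
  rw [this]

private theorem nbA1_prob {κ kb M0 : ℕ} {D η : ℝ} {M : ℕ} (hη : 0 < η) (hM : M * η ≤ 1)
    (hD : 0 < D) : PD.real (nbA1 κ kb M0 D η M)ᶜ ≤ M0 * (40 * kb / D ^ 2) := by
  have hsub : (nbA1 κ kb M0 D η M)ᶜ ⊆ ⋃ r ∈ Finset.Icc 1 M0, {x : DI → ℝ | ∃ i ≤ M, ∃ j ≤ kb,
      D ≤ |∑ u ∈ Finset.range j, (dyn η x i ((fun u : ℕ => (((κ : ℤ) + 1 + u, (r : ℤ)) : ℤ × ℤ)) u)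
        - 1)|} := by
    intro x hx
    unfold nbA1 at hx
    rw [Set.mem_compl_iff, Set.mem_ofPred_eq] at hx
    push Not at hx
    obtain ⟨r, h1, h2, h3⟩ := hx
    simp only [Set.mem_iUnion]
    exact ⟨r, Finset.mem_Icc.2 ⟨h1, h2⟩, h3⟩
  refine (measureReal_mono hsub (measure_ne_top _ _)).trans ?_
  refine (measureReal_biUnion_finset_le _ _).trans ?_
  refine (Finset.sum_le_sum fun (r : ℕ) _ => row_max
    (fun u : ℕ => (((κ : ℤ) + 1 + u, (r : ℤ)) : ℤ × ℤ)) (nbF_inj κ kb (r : ℤ)) hη hM hD).trans ?_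
  rw [Finset.sum_const, Nat.card_Icc]
  simp

private theorem nb_A_prob {κ kb M0 M : ℕ} {c D η p : ℝ} (hη : 0 < η) (hM : M * η ≤ 1)
    (hD : 0 < D) (h0 : p ≤ PD.real (nbA0 κ kb c η M))
    (h1 : M0 * (40 * kb / D ^ 2) ≤ 1 / 4) :
    p * (3 / 4) ≤ PD.real (nbA0 κ kb c η M ∩ nbA1 κ kb M0 D η M) := by
  have hd : Disjoint (nz {v | (κ : ℤ) < v.1 ∧ v.1 ≤ ((κ + kb : ℕ) : ℤ) ∧ v.2 = 0})
      (nz {v | (κ : ℤ) < v.1 ∧ v.1 ≤ ((κ + kb : ℕ) : ℤ) ∧ 1 ≤ v.2}) := by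
    rw [Set.disjoint_left]
    rintro d hd1 hd2
    simp only [nz, Set.mem_ofPred_eq] at hd1 hd2
    omega
  have hi := indep2 dlaw hd (nbA0_meas κ kb c η M) (nbA1_meas κ kb M0 D η M)
    (nbA0_dep κ kb c η M) (nbA1_dep κ kb M0 D η M)
  have hi' : PD.real (nbA0 κ kb c η M ∩ nbA1 κ kb M0 D η M) =
      PD.real (nbA0 κ kb c η M) * PD.real (nbA1 κ kb M0 D η M) := by
    rw [measureReal_def, measureReal_def, measureReal_def, ← ENNReal.toReal_mul]
    exact congrArg ENNReal.toReal hi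
  rw [hi']
  have h2 := nbA1_prob (κ := κ) (kb := kb) (M0 := M0) hη hM hD
  rw [probReal_compl_eq_one_sub (nbA1_meas κ kb M0 D η M)] at h2
  exact mul_le_mul h0 (by linarith) (by norm_num) measureReal_nonneg

/-- the deterministic comparison -/
private theorem nb_cmp {ω : ℤ × ℤ → ℝ} (hω : ∀ z, 0 ≤ ω z) {κ kb M0 : ℕ} {C2 : ℝ}
    (hM0 : 1 ≤ M0) (hC2 : 0 ≤ C2) (hkb : (2 * ((κ + 1) * M0) : ℝ) ^ 2 ≤ kb)
    (hS : ∀ r : ℕ, 1 ≤ r → r ≤ M0 → ∀ j ≤ kb,
      |∑ u ∈ Finset.range j, (ω ((κ : ℤ) + 1 + u, (r : ℤ)) - 1)| ≤ C2 * √kb)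
    (h0 : (2 * M0 * C2 + 4) * √kb ≤ ∑ v ∈ nbF κ kb, (ω v - 1))
    (hQ : |∑ v ∈ Finset.Icc ((0, 1) : ℤ × ℤ) ((κ : ℤ), (M0 : ℤ)), (ω v - 1)| < √kb / 2) :
    T ω (0, 1) (((κ + kb : ℕ) : ℤ), (M0 : ℤ)) <
      ∑ i ∈ Finset.Icc 1 (κ + kb), ω ((i : ℤ), 0) := by
  have hsq : (2 * ((κ + 1) * M0) : ℝ) ≤ √kb := by
    rw [← Real.sqrt_sq (by positivity : (0 : ℝ) ≤ 2 * ((κ + 1) * M0))]
    exact Real.sqrt_le_sqrt hkb
  have h1 := nb_det hω (κ := κ) (kb := kb) (M0 := M0) (by positivity : 0 ≤ C2 * √kb) hS M0 hM0 le_rfl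
    (((κ + kb : ℕ) : ℤ)) (by push_cast; omega) (by push_cast; omega)
  have hcard : (Finset.Icc ((0, 1) : ℤ × ℤ) ((κ : ℤ), (M0 : ℤ))).card = (κ + 1) * M0 := by
    rw [Finset.card_Icc_prod, Int.card_Icc, Int.card_Icc]
    congr 1 <;> omega
  have h2 : ∑ v ∈ Finset.Icc ((0, 1) : ℤ × ℤ) ((κ : ℤ), (M0 : ℤ)), (ω v - 1) =
      ∑ v ∈ Finset.Icc ((0, 1) : ℤ × ℤ) ((κ : ℤ), (M0 : ℤ)), ω v - (κ + 1) * M0 := by
    rw [Finset.sum_sub_distrib, Finset.sum_const, hcard]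
    simp
  rw [h2] at hQ
  have h3 := (abs_lt.1 hQ).2
  rw [nbF_sum] at h0
  -- the row `0`
  have h4 : ∑ u ∈ Finset.range kb, ω ((κ : ℤ) + 1 + u, 0) ≤
      ∑ i ∈ Finset.Icc 1 (κ + kb), ω ((i : ℤ), 0) := by
    have e : ∑ u ∈ Finset.range kb, ω ((κ : ℤ) + 1 + u, 0) =
        ∑ i ∈ Finset.Icc (κ + 1) (κ + kb), ω ((i : ℤ), 0) := by
      refine Finset.sum_nbij' (fun u => κ + 1 + u) (fun i => i - (κ + 1)) ?_ ?_ ?_ ?_ ?_
      · intro u hu
        rw [Finset.mem_range] at hu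
        exact Finset.mem_Icc.2 ⟨by omega, by omega⟩
      · intro i hi
        rw [Finset.mem_Icc] at hi
        exact Finset.mem_range.2 (by omega)
      · intro u _
        omega
      · intro i hi
        rw [Finset.mem_Icc] at hi
        omega
      · intro u _
        push_cast
        rfl
    rw [e]
    refine Finset.sum_le_sum_of_subset_of_nonneg ?_ fun z _ _ => hω _
    exact Finset.Icc_subset_Icc_left (by omega)
  have h5 : ∑ u ∈ Finset.range kb, (ω ((κ : ℤ) + 1 + u, 0) - 1) =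
      ∑ u ∈ Finset.range kb, ω ((κ : ℤ) + 1 + u, 0) - kb := by
    rw [Finset.sum_sub_distrib]
    simp
  rw [h5] at h0
  have h6 : (1 : ℝ) ≤ M0 := by exact_mod_cast hM0
  have h7 : (0 : ℝ) ≤ κ := by positivity
  have h8 : (2 * M0 : ℝ) ≤ √kb := by nlinarith
  push_cast at h1
  have h9 : (0 : ℝ) < √kb := by nlinarith
  have e1 : 2 * (M0 : ℝ) * (C2 * √kb) = 2 * M0 * C2 * √kb := by ring
  rw [e1] at h1
  have e2 : (2 * M0 * C2 + 4) * √kb = 2 * M0 * C2 * √kb + 4 * √kb := by ring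
  rw [e2] at h0
  have h10 : T ω (0, 1) (((κ + kb : ℕ) : ℤ), (M0 : ℤ)) ≤
      √kb / 2 + (κ + 1) * M0 + kb + M0 + 2 * M0 * C2 * √kb := by
    push_cast
    linarith
  refine lt_of_le_of_lt h10 (lt_of_lt_of_le ?_ h4)
  linarith

theorem near_b (M0 : ℕ) (hM0 : 1 ≤ M0) {ε : ℝ} (hε : 0 < ε) : ∃ K : ℕ, 1 ≤ K ∧
    ∀ (η : ℝ) (M : ℕ), 0 < η → M * η ≤ 1 →
    PD.real {x | ∃ i ≤ M, dyn η x i ∈ RowBad K M0} ≤ ε := by
  obtain ⟨p1, c1, C1, hp1, hc1, hC1, hcm⟩ := cond_max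
  have hM0' : (1 : ℝ) ≤ M0 := by exact_mod_cast hM0
  set C2 : ℝ := √(160 * M0) with hC2d
  have hC2 : 0 < C2 := Real.sqrt_pos.2 (by linarith)
  have hC2s : C2 ^ 2 = 160 * M0 := Real.sq_sqrt (by linarith)
  obtain ⟨m, hm1, hm⟩ : ∃ m : ℕ, 1 ≤ m ∧ 2 * M0 * C2 + 4 + C1 ≤ c1 * √m := by
    obtain ⟨m, hm⟩ := exists_nat_ge (((2 * M0 * C2 + 4 + C1) / c1) ^ 2)
    refine ⟨m + 1, by omega, ?_⟩
    have h1 : (2 * M0 * C2 + 4 + C1) / c1 ≤ √((m + 1 : ℕ) : ℝ) := by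
      rw [← Real.sqrt_sq (by positivity : (0 : ℝ) ≤ (2 * M0 * C2 + 4 + C1) / c1)]
      refine Real.sqrt_le_sqrt (hm.trans ?_)
      push_cast
      linarith
    rw [div_le_iff₀ hc1] at h1
    linarith
  obtain ⟨k0, hk0⟩ := hcm m hm1
  set p2 : ℝ := p1 ^ m / 2 * (3 / 4) with hp2
  have hp2p : 0 < p2 := by positivity
  obtain ⟨n, hn⟩ := exists_pow_lt_of_lt_one (half_pos hε) (by linarith : 1 - p2 < 1)
  have hst : ∀ κ : ℕ, ∃ N : ℕ, k0 ≤ N ∧ 1 ≤ N ∧ (2 * ((κ + 1) * M0) : ℝ) ^ 2 ≤ N ∧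
      64 * ((n : ℝ) + 1) * ((κ + 1) * M0) / ε ≤ N := by
    intro κ
    obtain ⟨N1, hN1⟩ := exists_nat_ge ((2 * ((κ + 1) * M0) : ℝ) ^ 2)
    obtain ⟨N2, hN2⟩ := exists_nat_ge (64 * ((n : ℝ) + 1) * ((κ + 1) * M0) / ε)
    refine ⟨k0 + 1 + N1 + N2, by omega, by omega, ?_, ?_⟩
    · refine hN1.trans ?_
      exact_mod_cast (by omega : N1 ≤ k0 + 1 + N1 + N2)
    · refine hN2.trans ?_
      exact_mod_cast (by omega : N2 ≤ k0 + 1 + N1 + N2)
  choose st hst0 hst1 hst2 hst3 using hst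
  obtain ⟨K, hK0, hKs⟩ : ∃ K : ℕ → ℕ, K 0 = 0 ∧ ∀ b, K (b + 1) = K b + st (K b) :=
    ⟨fun b => Nat.rec 0 (fun _ κ => κ + st κ) b, rfl, fun _ => rfl⟩
  have hKm : ∀ b, K b ≤ K (b + 1) := fun b => by rw [hKs]; omega
  have hKmono : Monotone K := monotone_nat_of_le_succ hKm
  refine ⟨K n + 1, by omega, fun η M hη hM => ?_⟩
  set A : ℕ → Set (DI → ℝ) := fun b =>
    nbA0 (K b) (st (K b)) ((2 * M0 * C2 + 4) * √(st (K b))) η M ∩
      nbA1 (K b) (st (K b)) M0 (C2 * √(st (K b))) η M with hA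
  have hstp : ∀ b, (1 : ℝ) ≤ st (K b) := fun b => by exact_mod_cast hst1 (K b)
  have hAm : ∀ b, MeasurableSet (A b) := fun b => (nbA0_meas _ _ _ _ _).inter (nbA1_meas _ _ _ _ _ _)
  have hAd : ∀ b, DepOn (nz {v | (K b : ℤ) < v.1 ∧ v.1 ≤ (K (b + 1) : ℤ)}) (A b) := by
    intro b
    refine DepOn.inter ((nbA0_dep _ _ _ _ _).mono ?_) ((nbA1_dep _ _ _ _ _ _).mono ?_)
    · rintro d ⟨h1, h2, h3⟩
      rw [hKs b]
      exact ⟨h1, h2⟩
    · rintro d ⟨h1, h2, h3⟩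
      rw [hKs b]
      exact ⟨h1, h2⟩
  have hAp : ∀ b, p2 ≤ PD.real (A b) := by
    intro b
    have hpos : 0 < √(st (K b) : ℝ) := Real.sqrt_pos.2 (by linarith [hstp b])
    refine nb_A_prob hη hM (mul_pos hC2 hpos) ?_ ?_
    · refine (hk0 (nbF (K b) (st (K b))) (by rw [nbF_card]; exact hst0 _) η M hη hM).trans ?_
      refine measureReal_mono ?_ (measure_ne_top _ _)
      intro x hx i hi
      have h1 := hx i hi
      rw [nbF_card] at h1
      refine le_trans ?_ h1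
      exact mul_le_mul_of_nonneg_right (by linarith) hpos.le
    · rw [mul_pow, hC2s, Real.sq_sqrt (by linarith [hstp b])]
      have h1 := hstp b
      have h2 : (M0 : ℝ) * (40 * (st (K b) : ℝ) / (160 * M0 * st (K b))) = 1 / 4 := by
        field_simp
        norm_num
      exact h2.le
  obtain ⟨_, _, hrep⟩ := nb_rep hKm A hAm hAd hAp n
  set Bq : ℕ → Set (DI → ℝ) := fun b => {x | ∃ i ≤ M, √(st (K b)) / 2 ≤
    |∑ v ∈ Finset.Icc ((0, 1) : ℤ × ℤ) ((K b : ℤ), (M0 : ℤ)), (dyn η x i v - 1)|} with hBq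
  have hBp : ∀ b, PD.real (Bq b) ≤ ε / (2 * (n + 1)) := by
    intro b
    have hpos : 0 < √(st (K b) : ℝ) := Real.sqrt_pos.2 (by linarith [hstp b])
    refine (lin_max _ hη hM (half_pos hpos)).trans ?_
    have hcard : (Finset.Icc ((0, 1) : ℤ × ℤ) ((K b : ℤ), (M0 : ℤ))).card = (K b + 1) * M0 := by
      rw [Finset.card_Icc_prod, Int.card_Icc, Int.card_Icc]
      congr 1 <;> omega
    rw [hcard, div_pow, Real.sq_sqrt (by linarith [hstp b])]
    have h1 := hst3 (K b)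
    rw [div_le_iff₀ hε] at h1
    have h2 := hstp b
    push_cast
    rw [div_le_div_iff₀ (by positivity) (by positivity)]
    linarith
  have hnull : PD {x | ¬ ∀ i v, 0 ≤ dyn η x i v} = 0 := by
    have : ∀ᵐ x ∂PD, ∀ i v, 0 ≤ dyn η x i v :=
      ae_all_iff.2 fun i => (dyn_law η i).quasiMeasurePreserving.ae ae_nonneg
    exact this
  have hsub : {x : DI → ℝ | ∃ i ≤ M, dyn η x i ∈ RowBad (K n + 1) M0} ⊆
      {x | ∀ b < n, x ∉ A b} ∪ (⋃ b ∈ Finset.range n, Bq b) ∪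
        {x | ¬ ∀ i v, 0 ≤ dyn η x i v} := by
    rintro x ⟨i, hi, hbad⟩
    by_contra hx
    simp only [Set.mem_union, not_or] at hx
    obtain ⟨⟨h1, h2⟩, h3⟩ := hx
    rw [Set.mem_ofPred_eq, not_not] at h3
    rw [Set.mem_ofPred_eq] at h1
    push Not at h1
    obtain ⟨b, hb, hxA⟩ := h1
    have h4 : x ∉ Bq b := fun h => h2 (Set.mem_biUnion (Finset.mem_range.2 hb) h)
    simp only [hBq, Set.mem_ofPred_eq] at h4
    push Not at h4
    have h5 := hxA.1 i hi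
    have h6 : ∀ r : ℕ, 1 ≤ r → r ≤ M0 → ∀ j ≤ st (K b),
        |∑ u ∈ Finset.range j, (dyn η x i ((K b : ℤ) + 1 + u, (r : ℤ)) - 1)| ≤
          C2 * √(st (K b)) := by
      intro r hr1 hr2 j hj
      by_contra hcon
      exact hxA.2 r hr1 hr2 ⟨i, hi, j, hj, (not_le.1 hcon).le⟩
    have h7 := nb_cmp (ω := dyn η x i) (h3 i) (κ := K b) (kb := st (K b)) hM0 hC2.le (hst2 _) h6 h5
      (h4 i hi)
    have h8 : K b + st (K b) ≤ K n := by
      rw [← hKs]
      exact hKmono hb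
    have h9 := hst1 (K b)
    have h10 := hbad (K b + st (K b)) (by omega) (by omega)
    exact absurd h10 (not_le.2 h7)
  calc PD.real {x : DI → ℝ | ∃ i ≤ M, dyn η x i ∈ RowBad (K n + 1) M0}
      ≤ PD.real ({x | ∀ b < n, x ∉ A b} ∪ (⋃ b ∈ Finset.range n, Bq b) ∪
        {x | ¬ ∀ i v, 0 ≤ dyn η x i v}) := measureReal_mono hsub (measure_ne_top _ _)
    _ ≤ PD.real {x | ∀ b < n, x ∉ A b} + PD.real (⋃ b ∈ Finset.range n, Bq b) +
        PD.real {x | ¬ ∀ i v, 0 ≤ dyn η x i v} := by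
          refine (measureReal_union_le _ _).trans ?_
          exact add_le_add_left (measureReal_union_le _ _) _
    _ ≤ ε / 2 + n * (ε / (2 * (n + 1))) + 0 := by
          refine add_le_add (add_le_add (hrep.trans hn.le) ?_) ?_
          · refine (measureReal_biUnion_finset_le _ _).trans ?_
            refine (Finset.sum_le_sum fun b _ => hBp b).trans ?_
            rw [Finset.sum_const, Finset.card_range, nsmul_eq_mul]
          · rw [measureReal_def, hnull]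
            simp
    _ ≤ ε := by
          have h1 : (0 : ℝ) < 2 * (n + 1) := by positivity
          have h2 : (n : ℝ) * (ε / (2 * (n + 1))) ≤ ε / 2 := by
            rw [mul_div_assoc', div_le_div_iff₀ h1 two_pos]
            nlinarith
          linarith

end BGG
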