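import Pool.Agent.BGG.TSMap
import Pool.Agent.BGG.WalkMax
import Pool.Agent.BGE.WGProb

/-!
BGG / S2. The boundary sequences are good with probability at least 3/4. Adaptation of
`Pool/Agent/BGE/WGProb.lean` without the scalings: `bI ρ` in place of the law of `x/ρ`, `walk_max` of
BGG (the constant `4 w` in the exponent becomes `4 gK² w`), `map_b1`, `map_b2` of BGG, `geo_nonneg`,
`bI_nonneg`.
-/

namespace BGG

open MeasureTheory ProbabilityTheory BGE

variable [GeoPar]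

theorem walkgood_prob {κ : ℝ} (hκ : 0 < κ) : ∃ C0 : ℝ, 1 ≤ C0 ∧ ∀ (ρ Y : ℝ) (n : ℕ),
    κ ≤ ρ → ρ ≤ 1 → C0 ≤ Y → C0 * Y ^ 3 ≤ n →
    (bI ρ).real {x | ¬ WalkGood ρ Y n x} ≤ 1 / 20 := by
  have hK1 : 1 ≤ gK := gK_ge
  have hK0 : 0 < gK := by linarith
  have h51 : 0 < 51 * gK / κ := by positivity
  refine ⟨1 + 51 * gK / κ, by linarith, ?_⟩
  intro ρ Y n hρ1 hρ2 hY hn
  have hC1 : (1 : ℝ) ≤ 1 + 51 * gK / κ := by linarith
  have hY1 : 1 ≤ Y := hC1.trans hY
  have hρ0 : 0 < ρ := hκ.trans_le hρ1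
  obtain ⟨hD1, hDY, -⟩ := wgp_D hC1 hY1 hn (a := 0) le_rfl (by norm_num; linarith)
  set D : ℝ := (n : ℝ) ^ (1 / 3 : ℝ) with hD
  have hD0 : 0 < D := by linarith
  have hκY : 51 * gK ≤ κ * Y := by
    have : 51 * gK / κ ≤ Y := by linarith
    rw [div_le_iff₀ hκ] at this
    linarith
  set A : ℕ → Set (ℕ → ℝ) := fun l => {x : ℕ → ℝ | ∃ k : ℕ, k ≤ ⌈2 ^ l * D ^ 2⌉₊ ∧
      2 ^ l * Y * D / 2 ≤ |∑ i ∈ Finset.Icc 1 k, (x i - 1 / ρ)|} with hA
  have hsub : {x : ℕ → ℝ | ¬ WalkGood ρ Y n x} ⊆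
      {x : ℕ → ℝ | ¬ ∀ z, 0 ≤ x z} ∪ ⋃ l ∈ Finset.range (4 * n + 1), A l := by
    intro x hx
    by_cases h0 : ∀ z, 0 ≤ x z
    · right
      simp only [Set.mem_ofPred_eq, WalkGood, not_and, not_forall, not_le, exists_prop] at hx
      obtain ⟨k, hk, hx⟩ := hx h0
      have hex : ∃ l : ℕ, (k : ℝ) ≤ 2 ^ l * D ^ 2 := by
        refine ⟨k, ?_⟩
        have h1 : (k : ℝ) ≤ 2 ^ k := by exact_mod_cast (Nat.lt_two_pow_self (n := k)).le
        have h2 : (1 : ℝ) ≤ D ^ 2 := one_le_pow₀ hD1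
        have h3 : (0 : ℝ) ≤ 2 ^ k := by positivity
        nlinarith
      classical
      have hle : Nat.find hex ≤ k := by
        refine Nat.find_min' hex ?_
        have h1 : (k : ℝ) ≤ 2 ^ k := by exact_mod_cast (Nat.lt_two_pow_self (n := k)).le
        have h2 : (1 : ℝ) ≤ D ^ 2 := one_le_pow₀ hD1
        have h3 : (0 : ℝ) ≤ 2 ^ k := by positivity
        nlinarith
      have hsp := Nat.find_spec hex
      have hmin := fun m (hm : m < Nat.find hex) => Nat.find_min hex hm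
      revert hle hsp hmin
      generalize Nat.find hex = l
      intro hle hsp hmin
      simp only [Set.mem_iUnion, Finset.mem_range, exists_prop]
      refine ⟨l, by omega, k, ?_, ?_⟩
      · have := hsp.trans (Nat.le_ceil _)
        exact_mod_cast this
      · refine le_trans ?_ hx.le
        rcases l with _ | l
        · have : 0 ≤ Y * (k / D) := by positivity
          have : 0 < Y * D := by positivity
          simp only [pow_zero, one_mul]
          nlinarith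
        · have h1 := hmin l (by omega)
          simp only [not_le] at h1
          have h2 : 2 ^ l * D ≤ k / D := by
            rw [le_div_iff₀ hD0]
            nlinarith
          have h3 : (2 : ℝ) ^ (l + 1) * Y * D / 2 = Y * (2 ^ l * D) := by ring
          rw [h3]
          have : 0 < Y := by linarith
          gcongr
          linarith
    · left
      exact h0
  have hA1 : ∀ l : ℕ, (bI ρ).real (A l) ≤ 64 * gK ^ 2 / (κ ^ 2 * Y ^ 2) * (1 / 2) ^ l := by
    intro l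
    have hz : 0 < 2 ^ l * Y * D / 2 := by positivity
    have h2l : (1 : ℝ) ≤ 2 ^ l := one_le_pow₀ (by norm_num)
    have hceil : 2 ^ l * D ^ 2 ≤ (⌈2 ^ l * D ^ 2⌉₊ : ℝ) := Nat.le_ceil _
    have hw : ρ * (2 ^ l * Y * D / 2) ≤ (⌈2 ^ l * D ^ 2⌉₊ : ℝ) := by
      refine le_trans ?_ hceil
      calc ρ * (2 ^ l * Y * D / 2) ≤ 1 * (2 ^ l * D * D / 2) := by gcongr
        _ ≤ 2 ^ l * D ^ 2 := by
          have : 0 < 2 ^ l * D ^ 2 := by positivity
          nlinarith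
    refine (walk_max hρ0 hρ2 hz _ hw).trans ?_
    have hc2 : (⌈2 ^ l * D ^ 2⌉₊ : ℝ) ≤ 2 * (2 ^ l * D ^ 2) := by
      have h1 : (⌈2 ^ l * D ^ 2⌉₊ : ℝ) < 2 ^ l * D ^ 2 + 1 := Nat.ceil_lt_add_one (by positivity)
      have h2 : 1 ≤ 2 ^ l * D ^ 2 := by
        have : 1 ≤ D ^ 2 := one_le_pow₀ hD1
        nlinarith
      linarith
    have hcpos : (0 : ℝ) < (⌈2 ^ l * D ^ 2⌉₊ : ℝ) := by
      refine lt_of_lt_of_le ?_ hceil
      positivity
    have hexp : κ ^ 2 * Y ^ 2 * 2 ^ l / (32 * gK ^ 2) ≤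
        ρ ^ 2 * (2 ^ l * Y * D / 2) ^ 2 / (4 * gK ^ 2 * (⌈2 ^ l * D ^ 2⌉₊ : ℝ)) := by
      rw [div_le_div_iff₀ (by positivity) (by positivity)]
      calc κ ^ 2 * Y ^ 2 * 2 ^ l * (4 * gK ^ 2 * (⌈2 ^ l * D ^ 2⌉₊ : ℝ))
          ≤ ρ ^ 2 * Y ^ 2 * 2 ^ l * (4 * gK ^ 2 * (2 * (2 ^ l * D ^ 2))) := by gcongr
        _ = ρ ^ 2 * (2 ^ l * Y * D / 2) ^ 2 * (32 * gK ^ 2) := by ring
    have hpos : 0 < κ ^ 2 * Y ^ 2 * 2 ^ l / (32 * gK ^ 2) := by positivity
    calc 2 * Real.exp (-(ρ ^ 2 * (2 ^ l * Y * D / 2) ^ 2 / (4 * gK ^ 2 * (⌈2 ^ l * D ^ 2⌉₊ : ℝ))))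
        ≤ 2 * Real.exp (-(κ ^ 2 * Y ^ 2 * 2 ^ l / (32 * gK ^ 2))) := by gcongr
      _ ≤ 2 * (κ ^ 2 * Y ^ 2 * 2 ^ l / (32 * gK ^ 2))⁻¹ := by
          rw [Real.exp_neg]
          gcongr
          linarith [Real.add_one_le_exp (κ ^ 2 * Y ^ 2 * 2 ^ l / (32 * gK ^ 2))]
      _ = 64 * gK ^ 2 / (κ ^ 2 * Y ^ 2) * (1 / 2) ^ l := by
          rw [one_div (2 : ℝ), inv_pow]
          field_simp
          norm_num
  have hgeo : ∑ l ∈ Finset.range (4 * n + 1), (1 / 2 : ℝ) ^ l ≤ 2 := by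
    have := Summable.sum_le_tsum (Finset.range (4 * n + 1))
      (fun i _ => by positivity) (summable_geometric_two)
    rw [tsum_geometric_two] at this
    exact this
  have hnull : (bI ρ).real {x : ℕ → ℝ | ¬ ∀ z, 0 ≤ x z} = 0 := by
    have h := bI_nonneg ρ
    rw [ae_iff] at h
    rw [Measure.real, h]
    rfl
  have hkY2 : 2601 * gK ^ 2 ≤ κ ^ 2 * Y ^ 2 := by
    rw [← mul_pow]
    calc 2601 * gK ^ 2 = (51 * gK) ^ 2 := by ring
      _ ≤ (κ * Y) ^ 2 := by gcongr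
  calc (bI ρ).real {x | ¬ WalkGood ρ Y n x}
      ≤ (bI ρ).real ({x : ℕ → ℝ | ¬ ∀ z, 0 ≤ x z} ∪ ⋃ l ∈ Finset.range (4 * n + 1), A l) :=
        measureReal_mono hsub (measure_ne_top _ _)
    _ ≤ (bI ρ).real {x : ℕ → ℝ | ¬ ∀ z, 0 ≤ x z} +
        (bI ρ).real (⋃ l ∈ Finset.range (4 * n + 1), A l) := measureReal_union_le _ _
    _ ≤ 0 + ∑ l ∈ Finset.range (4 * n + 1), (bI ρ).real (A l) := by
        rw [hnull]
        gcongr
        exact measureReal_biUnion_finset_le _ _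
    _ ≤ 0 + ∑ l ∈ Finset.range (4 * n + 1), 64 * gK ^ 2 / (κ ^ 2 * Y ^ 2) * (1 / 2) ^ l := by
        gcongr with l _
        exact hA1 l
    _ = 64 * gK ^ 2 / (κ ^ 2 * Y ^ 2) * ∑ l ∈ Finset.range (4 * n + 1), (1 / 2 : ℝ) ^ l := by
        rw [Finset.mul_sum, zero_add]
    _ ≤ 64 * gK ^ 2 / (κ ^ 2 * Y ^ 2) * 2 := by gcongr
    _ ≤ 1 / 20 := by
        rw [div_mul_eq_mul_div, div_le_div_iff₀ (by positivity) (by norm_num)]
        nlinarith

omit [GeoPar] in
theorem wgq_meas_w1 (i : ℕ) : Measurable fun x : TSx => w1 x i := by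
  have hK : ∀ j : ℕ, Measurable fun x : TSx => colK x.2.2.2.2.2 x.2.2.2.1 x.2.2.2.2.1 j := by
    intro j
    induction j with
    | zero =>
      simp only [colK]
      fun_prop
    | succ j ih =>
      simp only [colK]
      fun_prop
  unfold w1 colJ
  split_ifs
  · fun_prop
  · have := hK (i - 1)
    fun_prop

omit [GeoPar] in
theorem wgq_meas_s2 (i : ℕ) : Measurable fun x : TSx => s2 x i := by
  have hK : ∀ j : ℕ, Measurable fun x : TSx => rowK x.2.1 x.2.2.1 x.2.2.2.2.2 j := by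
    intro j
    induction j with
    | zero =>
      simp only [rowK]
      fun_prop
    | succ j ih =>
      simp only [rowK]
      fun_prop
  unfold s2 rowD
  split_ifs
  · fun_prop
  · have := hK (i - 1)
    fun_prop

omit [GeoPar] in
theorem wgq_meas_s1 (i : ℕ) : Measurable fun x : TSx => s1 x i := by
  unfold s1
  fun_prop

omit [GeoPar] in
theorem wgq_meas_w2 (i : ℕ) : Measurable fun x : TSx => w2 x i := by
  unfold w2
  fun_prop

omit [GeoPar] in
theorem wgq_nn_meas : MeasurableSet {b : BN | TSnn ((fun _ => 0, b) : TSx)} := by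
  have e : {b : BN | TSnn ((fun _ => 0, b) : TSx)} = (⋂ i, {b : BN | 0 ≤ b.1 i}) ∩
      ((⋂ i, {b : BN | 0 ≤ b.2.1 i}) ∩ ((⋂ i, {b : BN | 0 ≤ b.2.2.1 i}) ∩
        ((⋂ i, {b : BN | 0 ≤ b.2.2.2.1 i}) ∩ {b : BN | 0 ≤ b.2.2.2.2}))) := by
    ext b
    simp [TSnn]
  rw [e]
  refine (MeasurableSet.iInter fun i => measurableSet_le measurable_const (by fun_prop)).inter ?_
  refine (MeasurableSet.iInter fun i => measurableSet_le measurable_const (by fun_prop)).inter ?_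
  refine (MeasurableSet.iInter fun i => measurableSet_le measurable_const (by fun_prop)).inter ?_
  refine (MeasurableSet.iInter fun i => measurableSet_le measurable_const (by fun_prop)).inter ?_
  exact measurableSet_le measurable_const (by fun_prop)

omit [GeoPar] in
theorem measurableSet_WG (σ B Y : ℝ) (n : ℕ) : MeasurableSet {b : BN | WG σ B Y n b} := by
  refine wgq_nn_meas.inter ?_
  refine (wgp_measurable (fun i => (wgq_meas_s1 i).comp wgp_meas_in) _ _ _).inter ?_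
  refine (wgp_measurable (fun i => (wgq_meas_w1 i).comp wgp_meas_in) _ _ _).inter ?_
  refine (wgp_measurable (fun i => (wgq_meas_s2 i).comp wgp_meas_in) _ _ _).inter ?_
  exact wgp_measurable (fun i => (wgq_meas_w2 i).comp wgp_meas_in) _ _ _

/-- `TSnn` holds almost surely -/
theorem wgq_nn (α β : ℝ) : ∀ᵐ x ∂(muTS α β), TSnn x := by
  have q1 := (Measure.quasiMeasurePreserving_fst (μ := PG)
    (ν := (bI α).prod ((bI β).prod ((bI (1 - α)).prod ((bI (1 - β)).prod (KG α β)))))).ae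
      ae_nonneg
  have r1 := (Measure.quasiMeasurePreserving_snd (μ := PG)
    (ν := (bI α).prod ((bI β).prod ((bI (1 - α)).prod ((bI (1 - β)).prod (KG α β))))))
  have q2 := (Measure.quasiMeasurePreserving_fst (μ := bI α)
    (ν := ((bI β).prod ((bI (1 - α)).prod ((bI (1 - β)).prod (KG α β)))))).ae (bI_nonneg α)
  have r2 := (Measure.quasiMeasurePreserving_snd (μ := bI α)
    (ν := ((bI β).prod ((bI (1 - α)).prod ((bI (1 - β)).prod (KG α β))))))
  have q3 := (Measure.quasiMeasurePreserving_fst (μ := bI β)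
    (ν := (((bI (1 - α)).prod ((bI (1 - β)).prod (KG α β)))))).ae (bI_nonneg β)
  have r3 := (Measure.quasiMeasurePreserving_snd (μ := bI β)
    (ν := (((bI (1 - α)).prod ((bI (1 - β)).prod (KG α β))))))
  have q4 := (Measure.quasiMeasurePreserving_fst (μ := bI (1 - α))
    (ν := ((((bI (1 - β)).prod (KG α β)))))).ae (bI_nonneg (1 - α))
  have r4 := (Measure.quasiMeasurePreserving_snd (μ := bI (1 - α))
    (ν := ((((bI (1 - β)).prod (KG α β))))))
  have q5 := (Measure.quasiMeasurePreserving_fst (μ := bI (1 - β)) (ν := KG α β)).ae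
    (bI_nonneg (1 - β))
  have q6 := (Measure.quasiMeasurePreserving_snd (μ := bI (1 - β)) (ν := KG α β)).ae
    (geo_nonneg (gap α / gap β))
  have s5 := q5.and q6
  have s4 := q4.and (r4.ae s5)
  have s3 := q3.and (r3.ae s4)
  have s2 := q2.and (r2.ae s3)
  have s1 := q1.and (r1.ae s2)
  filter_upwards [s1] with x hx
  exact ⟨hx.1, hx.2.1, hx.2.2.1, hx.2.2.2.1, hx.2.2.2.2.1, hx.2.2.2.2.2⟩

/-- events which do not depend on the bulk -/
theorem wgq_bulk (α β : ℝ) {E : Set TSx} (hE : MeasurableSet E) (h : ∀ x : TSx, x ∈ E ↔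
    ((fun _ => 0, x.2) : TSx) ∈ E) :
    (muBN α β).real {b | ((fun _ => 0, b) : TSx) ∈ E} = (muTS α β).real E := by
  have h1 : MeasurePreserving (Prod.snd : TSx → BN) (muTS α β) (muBN α β) :=
    measurePreserving_snd (μ := PG) (ν := muBN α β)
  have hm : MeasurableSet {b : BN | ((fun _ => 0, b) : TSx) ∈ E} := wgp_meas_in hE
  rw [← h1.measureReal_preimage hm.nullMeasurableSet]
  congr 1
  ext x
  exact (h x).symm

theorem wg_prob {κ B : ℝ} (hκ : 0 < κ) (hB : 1 ≤ B) : ∃ C0 : ℝ, 1 ≤ C0 ∧ ∀ (σ Y : ℝ) (n : ℕ),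
    κ ≤ σ → σ ≤ 1 - κ → C0 ≤ Y → C0 * Y ^ 3 ≤ n →
    3 / 4 ≤ (muBN (rA σ B Y n) (rB σ B Y n)).real {b | WG σ B Y n b} := by
  obtain ⟨C1, hC1, hwg⟩ := walkgood_prob (κ := κ / 4) (by positivity)
  refine ⟨C1 + (4 * B / κ) ^ 3, by have : 0 < (4 * B / κ) ^ 3 := by positivity
                                   linarith, ?_⟩
  intro σ Y n hσ1 hσ2 hY hn
  have hB0 : 0 < B := by linarith
  have hp : 0 < (4 * B / κ) ^ 3 := by positivity
  have hY1 : 1 ≤ Y := by linarith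
  have hYC : C1 ≤ Y := by linarith
  have hnC : C1 * Y ^ 3 ≤ n := by
    refine le_trans ?_ hn
    have : 0 ≤ Y ^ 3 := by positivity
    nlinarith
  obtain ⟨hD1, hDY, hDa⟩ := wgp_D (C0 := C1 + (4 * B / κ) ^ 3) (by linarith) hY1 hn
    (a := 4 * B / κ) (by positivity) (by linarith)
  have hD0 : 0 < (n : ℝ) ^ (1 / 3 : ℝ) := by linarith
  have hε : B * Y / (n : ℝ) ^ (1 / 3 : ℝ) ≤ κ / 4 := by
    rw [div_le_iff₀ hD0]
    have e : κ / 4 * (4 * B / κ * Y) = B * Y := by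
      field_simp
    rw [← e]
    gcongr
  have hε0 : 0 < B * Y / (n : ℝ) ^ (1 / 3 : ℝ) := by positivity
  obtain ⟨ha1, ha2⟩ := wgp_alc hκ hσ1 hσ2
  set α := rA σ B Y n with hα
  set β := rB σ B Y n with hβ
  have eα : α = alc σ + B * Y / (n : ℝ) ^ (1 / 3 : ℝ) := rfl
  have eβ : β = alc σ - B * Y / (n : ℝ) ^ (1 / 3 : ℝ) := rfl
  have hβ0 : 0 < β := by linarith
  have hβα : β < α := by linarith
  have hα1 : α < 1 := by linarith
  have hα0 : 0 < α := by linarith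
  have h1α : 0 < 1 - α := by linarith
  have h1β : 0 < 1 - β := by linarith
  -- the four bad events
  have hP : ∀ ρ : ℝ, κ / 4 ≤ ρ → ρ ≤ 1 →
      (bI ρ).real {x | ¬ WalkGood ρ Y n x} ≤ 1 / 20 :=
    fun ρ h1 h2 => hwg ρ Y n h1 h2 hYC hnC
  have hmW : ∀ ρ : ℝ, MeasurableSet {x : ℕ → ℝ | ¬ WalkGood ρ Y n x} := by
    intro ρ
    exact (wgp_measurable (S := fun (x : ℕ → ℝ) i => x i) (fun i => by fun_prop) ρ Y n).compl
  have hm1 : ∀ ρ ρ' : ℝ, MeasurePreserving (fun y : SW => y.2.1)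
      (PG.prod ((bI ρ).prod (bI ρ'))) (bI ρ) := fun ρ ρ' =>
    (measurePreserving_fst (μ := bI ρ) (ν := bI ρ')).comp
      (measurePreserving_snd (μ := PG) (ν := (bI ρ).prod (bI ρ')))
  have hm2 : ∀ ρ ρ' : ℝ, MeasurePreserving (fun y : SW => y.2.2)
      (PG.prod ((bI ρ).prod (bI ρ'))) (bI ρ') := fun ρ ρ' =>
    (measurePreserving_snd (μ := bI ρ) (ν := bI ρ')).comp
      (measurePreserving_snd (μ := PG) (ν := (bI ρ).prod (bI ρ')))
  have b1 := map_b1 hβ0 hβα hα1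
  have b2 := map_b2 hβ0 hβα hα1
  have e1 : (muTS α β).real {x : TSx | ¬ WalkGood α Y n (s1 x)} ≤ 1 / 20 := by
    have := ((hm1 α (1 - α)).comp b1).measureReal_preimage (hmW α).nullMeasurableSet
    exact le_trans (le_of_eq rfl) (this.le.trans (hP α (by linarith) (by linarith)))
  have e2 : (muTS α β).real {x : TSx | ¬ WalkGood (1 - α) Y n (w1 x)} ≤ 1 / 20 := by
    have := ((hm2 α (1 - α)).comp b1).measureReal_preimage (hmW (1 - α)).nullMeasurableSet
    exact le_trans (le_of_eq rfl) (this.le.trans (hP (1 - α) (by linarith) (by linarith)))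
  have e3 : (muTS α β).real {x : TSx | ¬ WalkGood β Y n (s2 x)} ≤ 1 / 20 := by
    have := ((hm1 β (1 - β)).comp b2).measureReal_preimage (hmW β).nullMeasurableSet
    exact le_trans (le_of_eq rfl) (this.le.trans (hP β (by linarith) (by linarith)))
  have e4 : (muTS α β).real {x : TSx | ¬ WalkGood (1 - β) Y n (w2 x)} ≤ 1 / 20 := by
    have := ((hm2 β (1 - β)).comp b2).measureReal_preimage (hmW (1 - β)).nullMeasurableSet
    exact le_trans (le_of_eq rfl) (this.le.trans (hP (1 - β) (by linarith) (by linarith)))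
  have e0 : (muTS α β).real {x : TSx | ¬ TSnn x} = 0 := by
    have h := wgq_nn α β
    rw [ae_iff] at h
    rw [Measure.real, h]
    rfl
  -- transfer to the boundary noise
  have m1 := (wgp_measurable (fun i => wgq_meas_s1 i) α Y n).compl
  have m2 := (wgp_measurable (fun i => wgq_meas_w1 i) (1 - α) Y n).compl
  have m3 := (wgp_measurable (fun i => wgq_meas_s2 i) β Y n).compl
  have m4 := (wgp_measurable (fun i => wgq_meas_w2 i) (1 - β) Y n).compl
  have f1 := wgq_bulk α β m1 (fun x => Iff.rfl)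
  have f2 := wgq_bulk α β m2 (fun x => Iff.rfl)
  have f3 := wgq_bulk α β m3 (fun x => Iff.rfl)
  have f4 := wgq_bulk α β m4 (fun x => Iff.rfl)
  have f0 : (muBN α β).real {b : BN | ¬ TSnn ((fun _ => 0, b) : TSx)} = 0 := by
    have h1 : MeasurePreserving (Prod.snd : TSx → BN) (muTS α β) (muBN α β) :=
      measurePreserving_snd (μ := PG) (ν := muBN α β)
    have hm := wgq_nn_meas
    have h2 := h1.measureReal_preimage hm.compl.nullMeasurableSet
    have h3 : (Prod.snd : TSx → BN) ⁻¹' {b : BN | TSnn ((fun _ => 0, b) : TSx)}ᶜ ⊆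
        {x : TSx | ¬ TSnn x} := by
      intro x hx hx'
      apply hx
      exact ⟨fun _ => le_rfl, hx'.2⟩
    refine le_antisymm ?_ measureReal_nonneg
    refine le_trans (le_of_eq h2.symm) (le_trans (measureReal_mono h3 (measure_ne_top _ _)) e0.le)
  have hcompl : (muBN α β).real {b | WG σ B Y n b}ᶜ ≤ 1 / 5 := by
    have hsub : {b | WG σ B Y n b}ᶜ ⊆ {b : BN | ¬ TSnn ((fun _ => 0, b) : TSx)} ∪
        ({b : BN | ((fun _ => 0, b) : TSx) ∈ {x : TSx | WalkGood α Y n (s1 x)}ᶜ} ∪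
        ({b : BN | ((fun _ => 0, b) : TSx) ∈ {x : TSx | WalkGood (1 - α) Y n (w1 x)}ᶜ} ∪
        ({b : BN | ((fun _ => 0, b) : TSx) ∈ {x : TSx | WalkGood β Y n (s2 x)}ᶜ} ∪
        {b : BN | ((fun _ => 0, b) : TSx) ∈ {x : TSx | WalkGood (1 - β) Y n (w2 x)}ᶜ}))) := by
      intro b hb
      by_contra hcon
      simp only [Set.mem_union, not_or, Set.mem_ofPred_eq, Set.mem_compl_iff, not_not] at hcon
      exact hb hcon
    refine (measureReal_mono hsub (measure_ne_top _ _)).trans ?_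
    refine (measureReal_union_le _ _).trans ?_
    rw [f0]
    have g1 := measureReal_union_le (μ := muBN α β)
      {b : BN | ((fun _ => 0, b) : TSx) ∈ {x : TSx | WalkGood α Y n (s1 x)}ᶜ}
      ({b : BN | ((fun _ => 0, b) : TSx) ∈ {x : TSx | WalkGood (1 - α) Y n (w1 x)}ᶜ} ∪
        ({b : BN | ((fun _ => 0, b) : TSx) ∈ {x : TSx | WalkGood β Y n (s2 x)}ᶜ} ∪
        {b : BN | ((fun _ => 0, b) : TSx) ∈ {x : TSx | WalkGood (1 - β) Y n (w2 x)}ᶜ}))
    have g2 := measureReal_union_le (μ := muBN α β)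
      {b : BN | ((fun _ => 0, b) : TSx) ∈ {x : TSx | WalkGood (1 - α) Y n (w1 x)}ᶜ}
        ({b : BN | ((fun _ => 0, b) : TSx) ∈ {x : TSx | WalkGood β Y n (s2 x)}ᶜ} ∪
        {b : BN | ((fun _ => 0, b) : TSx) ∈ {x : TSx | WalkGood (1 - β) Y n (w2 x)}ᶜ})
    have g3 := measureReal_union_le (μ := muBN α β)
        {b : BN | ((fun _ => 0, b) : TSx) ∈ {x : TSx | WalkGood β Y n (s2 x)}ᶜ}
        {b : BN | ((fun _ => 0, b) : TSx) ∈ {x : TSx | WalkGood (1 - β) Y n (w2 x)}ᶜ}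
    have k1 := f1.le.trans e1
    have k2 := f2.le.trans e2
    have k3 := f3.le.trans e3
    have k4 := f4.le.trans e4
    linarith
  have := probReal_compl_eq_one_sub (μ := muBN α β) (measurableSet_WG σ B Y n)
  linarith

end BGG
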