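import Pool.Agent.BGG.Law
import Pool.Agent.BGE.WalkPair

/-!
BGG / S4. The two walks of the coupling. Adaptation of `Pool/Agent/BGE/WalkPair.lean` without the
scalings, for `(c, c')` with law `muCN α β × muCN α β` (`ap ~ bI α`, `bp ~ bI β`, `am ~ bI α`,
`bm ~ bI β`, corner `~ KG α β`).

`walk_pair_K`: `KG_low` in place of `P(K/γ ≤ ζ) ≤ γ ζ`.
-/

namespace BGG

open MeasureTheory ProbabilityTheory BGE

/-- right steps -/
noncomputable def stR (K : ℕ) (c : BN × BN) (i : ℕ) : ℝ :=
  c.1.1 (K + i + 1) - c.2.2.2.2.1 (K + i + 1)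

/-- left steps -/
noncomputable def stL (K : ℕ) (c : BN × BN) (i : ℕ) : ℝ :=
  c.2.1 (K + i + 1) - c.1.2.2.2.1 (K + i + 1)

variable [GeoPar]

omit [GeoPar] in
open scoped ENNReal in
private theorem wp_lint {ι X : Type*} [MeasurableSpace X] (μ : ι → Measure X)
    [∀ i, IsProbabilityMeasure (μ i)] (s : Finset ι) (f : ι → X → ℝ≥0∞)
    (hf : ∀ i, Measurable (f i)) :
    ∫⁻ x, ∏ i ∈ s, f i (x i) ∂(Measure.infinitePi μ) = ∏ i ∈ s, ∫⁻ y, f i y ∂(μ i) := by
  rw [lintegral_prod_eq_prod_lintegral_of_indepFun s (fun i (x : ι → X) => f i (x i))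
    (iIndepFun_infinitePi hf) (fun i => (hf i).comp (measurable_pi_apply i))]
  refine Finset.prod_congr rfl fun i _ => ?_
  rw [← Measure.infinitePi_map_eval μ i, lintegral_map (hf i) (measurable_pi_apply i)]

private theorem wp_main (α β : ℝ) :
    Measure.map (fun (x : (ℕ → ℝ) × (ℕ → ℝ)) (i : ℕ) => x.1 i - x.2 i)
      ((bI α).prod (bI β)) = walkM α β := by
  unfold walkM
  have hm : Measurable (fun (x : (ℕ → ℝ) × (ℕ → ℝ)) (i : ℕ) => x.1 i - x.2 i) := by
    refine measurable_pi_iff.2 fun i => ?_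
    exact ((measurable_pi_apply i).comp measurable_fst).sub
      ((measurable_pi_apply i).comp measurable_snd)
  refine Measure.eq_infinitePi _ fun s t ht => ?_
  have hS : MeasurableSet ((s : Set ℕ).pi t) := .pi s.countable_toSet fun _ _ => ht _
  rw [Measure.map_apply hm hS, Measure.prod_apply (hm hS)]
  have h2 : Measurable (fun q : ℝ × ℝ => q.1 - q.2) :=
    measurable_fst.sub measurable_snd
  have h1 : ∀ x : ℕ → ℝ, (bI β) (Prod.mk x ⁻¹' ((fun (x : (ℕ → ℝ) × (ℕ → ℝ)) (i : ℕ) =>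
      x.1 i - x.2 i) ⁻¹' ((s : Set ℕ).pi t))) =
      ∏ i ∈ s, bE β (Prod.mk (x i) ⁻¹' ((fun q : ℝ × ℝ => q.1 - q.2) ⁻¹' (t i))) := by
    intro x
    unfold bI
    rw [← Measure.infinitePi_pi (fun _ : ℕ => bE β)
      (t := fun i => Prod.mk (x i) ⁻¹' ((fun q : ℝ × ℝ => q.1 - q.2) ⁻¹' (t i)))
      (fun i _ => measurable_prodMk_left (h2 (ht i)))]
    rfl
  simp only [h1]
  unfold bI
  rw [wp_lint (fun _ : ℕ => bE α) s
    (fun i u => bE β (Prod.mk u ⁻¹' ((fun q : ℝ × ℝ => q.1 - q.2) ⁻¹' (t i))))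
    (fun i => measurable_measure_prodMk_left (h2 (ht i)))]
  refine Finset.prod_congr rfl fun i _ => ?_
  unfold stepLaw
  rw [Measure.map_apply h2 (ht i), Measure.prod_apply (h2 (ht i))]

private theorem wp_shift (ρ : ℝ) (K : ℕ) :
    MeasurePreserving (fun (x : ℕ → ℝ) (i : ℕ) => x (K + i + 1)) (bI ρ) (bI ρ) := by
  refine ⟨by fun_prop, ?_⟩
  unfold bI
  exact Measure.map_infinitePi_infinitePi_of_inj (P := fun _ : ℕ => bE ρ)
    (f := fun i : ℕ => K + i + 1) (fun a b h => by simpa using h)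

omit [GeoPar] in
/-- rearrangement of a fourfold product -/
private theorem wp_swap4 {A B C D : Type*} [MeasurableSpace A] [MeasurableSpace B]
    [MeasurableSpace C] [MeasurableSpace D] (a : Measure A) (b : Measure B) (c : Measure C)
    (d : Measure D) [IsProbabilityMeasure a] [IsProbabilityMeasure b] [IsProbabilityMeasure c]
    [IsProbabilityMeasure d] :
    MeasurePreserving (fun x : (A × B) × (C × D) => ((x.1.1, x.2.2), (x.2.1, x.1.2)))
      ((a.prod b).prod (c.prod d)) ((a.prod d).prod (c.prod b)) := by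
  have h1 := measurePreserving_prodAssoc a b (c.prod d)
  have h2 : MeasurePreserving (Prod.map (id : A → A) (Prod.swap : B × (C × D) → (C × D) × B))
      (a.prod (b.prod (c.prod d))) (a.prod ((c.prod d).prod b)) :=
    (MeasurePreserving.id a).prod Measure.measurePreserving_swap
  have h3 : MeasurePreserving (Prod.map (id : A → A) (Prod.map (Prod.swap : C × D → D × C) (id : B → B)))
      (a.prod ((c.prod d).prod b)) (a.prod ((d.prod c).prod b)) :=
    (MeasurePreserving.id a).prod (Measure.measurePreserving_swap.prod (MeasurePreserving.id b))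
  have h4 : MeasurePreserving (Prod.map (id : A → A) (MeasurableEquiv.prodAssoc : (D × C) × B ≃ᵐ D × (C × B)))
      (a.prod ((d.prod c).prod b)) (a.prod (d.prod (c.prod b))) :=
    (MeasurePreserving.id a).prod (measurePreserving_prodAssoc d c b)
  have h5 := (measurePreserving_prodAssoc a d (c.prod b)).symm
  exact h5.comp (h4.comp (h3.comp (h2.comp h1)))

omit [GeoPar] in
private theorem wp_split {X Y K : Type*} [MeasurableSpace X] [MeasurableSpace Y]
    [MeasurableSpace K] (x : Measure X) (y : Measure Y) (k : Measure K)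
    [IsProbabilityMeasure x] [IsProbabilityMeasure y] [IsProbabilityMeasure k] :
    MeasurePreserving (fun q : (X × K) × (Y × K) => (q.1.1, (q.2.1, (q.1.2, q.2.2))))
      ((x.prod k).prod (y.prod k)) (x.prod (y.prod (k.prod k))) := by
  have h1 := measurePreserving_prodAssoc x k (y.prod k)
  have h2 : MeasurePreserving (Prod.map (id : X → X)
      (MeasurableEquiv.prodAssoc.symm : K × (Y × K) ≃ᵐ (K × Y) × K))
      (x.prod (k.prod (y.prod k))) (x.prod ((k.prod y).prod k)) :=
    (MeasurePreserving.id x).prod (measurePreserving_prodAssoc k y k).symm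
  have h3 : MeasurePreserving (Prod.map (id : X → X)
      (Prod.map (Prod.swap : K × Y → Y × K) (id : K → K)))
      (x.prod ((k.prod y).prod k)) (x.prod ((y.prod k).prod k)) :=
    (MeasurePreserving.id x).prod (Measure.measurePreserving_swap.prod (MeasurePreserving.id k))
  have h4 : MeasurePreserving (Prod.map (id : X → X)
      (MeasurableEquiv.prodAssoc : (Y × K) × K ≃ᵐ Y × (K × K)))
      (x.prod ((y.prod k).prod k)) (x.prod (y.prod (k.prod k))) :=
    (MeasurePreserving.id x).prod (measurePreserving_prodAssoc y k k)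
  exact h4.comp (h3.comp (h2.comp h1))

/-- the projection of the boundary noise -/
private theorem wp_proj (α β : ℝ) :
    MeasurePreserving (fun b : BN => (b.1, (b.2.2.2.1, b.2.2.2.2))) (muCN α β)
      ((bI α).prod ((bI β).prod (KG α β))) := by
  unfold muCN
  have h1 : MeasurePreserving (Prod.snd : (ℕ → ℝ) × ((ℕ → ℝ) × ((ℕ → ℝ) × ℝ)) → _)
      ((bI β).prod ((bI α).prod ((bI β).prod (KG α β)))) ((bI α).prod ((bI β).prod (KG α β))) :=
    measurePreserving_snd
  have h2 : MeasurePreserving (Prod.snd : (ℕ → ℝ) × ((ℕ → ℝ) × ℝ) → _)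
      ((bI α).prod ((bI β).prod (KG α β))) ((bI β).prod (KG α β)) :=
    measurePreserving_snd
  exact (MeasurePreserving.id (bI α)).prod (h2.comp h1)

/-- the regrouping of the noise -/
private theorem wp_psi (α β : ℝ) :
    MeasurePreserving (fun c : BN × BN =>
      ((c.1.1, c.2.2.2.2.1), ((c.2.1, c.1.2.2.2.1), (c.2.2.2.2.2, c.1.2.2.2.2))))
      ((muCN α β).prod (muCN α β))
      (((bI α).prod (bI β)).prod (((bI α).prod (bI β)).prod ((KG α β).prod (KG α β)))) := by
  have h1 := (wp_proj α β).prod (wp_proj α β)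
  have h2 := wp_swap4 (bI α) ((bI β).prod (KG α β)) (bI α) ((bI β).prod (KG α β))
  have h3 := (measurePreserving_prodAssoc (bI α) (bI β) (KG α β)).symm
  have h4 := h3.prod h3
  have h5 := wp_split ((bI α).prod (bI β)) ((bI α).prod (bI β)) (KG α β)
  exact h5.comp (h4.comp (h2.comp h1))

theorem walk_map (α β : ℝ) (K : ℕ) :
    Measure.map (fun (x : (ℕ → ℝ) × (ℕ → ℝ)) (i : ℕ) => x.1 (K + i + 1) - x.2 (K + i + 1))
      ((bI α).prod (bI β)) = walkM α β := by
  have h := (wp_shift α K).prod (wp_shift β K)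
  have hg : Measurable (fun (x : (ℕ → ℝ) × (ℕ → ℝ)) (i : ℕ) => x.1 i - x.2 i) := by
    refine measurable_pi_iff.2 fun i => ?_
    exact ((measurable_pi_apply i).comp measurable_fst).sub
      ((measurable_pi_apply i).comp measurable_snd)
  have e := Measure.map_map (μ := (bI α).prod (bI β)) hg h.measurable
  rw [h.map_eq] at e
  rw [← wp_main α β, e]
  rfl

private theorem wp_set (α β : ℝ) (K : ℕ) {E : Set (ℕ → ℝ)} (hE : MeasurableSet E) :
    ((bI α).prod (bI β)) {p | (fun i : ℕ => p.1 (K + i + 1) - p.2 (K + i + 1)) ∈ E} =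
      walkM α β E := by
  rw [← walk_map α β K, Measure.map_apply _ hE]
  · rfl
  · refine measurable_pi_iff.2 fun i => ?_
    exact ((measurable_pi_apply _).comp measurable_fst).sub
      ((measurable_pi_apply _).comp measurable_snd)

private theorem wp_meas (α β : ℝ) (K : ℕ) {E : Set (ℕ → ℝ)} (hE : MeasurableSet E) :
    MeasurableSet {p : (ℕ → ℝ) × (ℕ → ℝ) |
      (fun i : ℕ => p.1 (K + i + 1) - p.2 (K + i + 1)) ∈ E} := by
  have hm : Measurable (fun (p : (ℕ → ℝ) × (ℕ → ℝ)) (i : ℕ) =>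
      p.1 (K + i + 1) - p.2 (K + i + 1)) := by
    refine measurable_pi_iff.2 fun i => ?_
    exact ((measurable_pi_apply _).comp measurable_fst).sub
      ((measurable_pi_apply _).comp measurable_snd)
  exact hm hE

private theorem wp_event (α β : ℝ) (K : ℕ) {E F : Set (ℕ → ℝ)} (hE : MeasurableSet E)
    (hF : MeasurableSet F) {Q : Set (ℝ × ℝ)} (hQ : MeasurableSet Q) :
    ((muCN α β).prod (muCN α β)) {c | stR K c ∈ E ∧ stL K c ∈ F ∧
      (c.2.2.2.2.2, c.1.2.2.2.2) ∈ Q} = walkM α β E * (walkM α β F * ((KG α β).prod (KG α β)) Q) := by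
  rw [← wp_set α β K hE, ← wp_set α β K hF, ← Measure.prod_prod, ← Measure.prod_prod]
  rw [← (wp_psi α β).measure_preimage
    ((wp_meas α β K hE).prod ((wp_meas α β K hF).prod hQ)).nullMeasurableSet]
  rfl

theorem walk_pair (α β : ℝ) (K : ℕ) {E F : Set (ℕ → ℝ)} (hE : MeasurableSet E)
    (hF : MeasurableSet F) :
    ((muCN α β).prod (muCN α β)) {c | stR K c ∈ E ∧ stL K c ∈ F} = walkM α β E * walkM α β F := by
  have h := wp_event α β K hE hF (Q := Set.univ) MeasurableSet.univ
  rw [measure_univ, mul_one] at h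
  rw [← h]
  congr 1
  ext c
  simp

theorem walk_pair_K {α β ζ : ℝ} (h0 : 0 < β) (h1 : β < α) (h2 : α ≤ 1) (hζ : 0 ≤ ζ) (K : ℕ)
    {E F : Set (ℕ → ℝ)} (hE : MeasurableSet E) (hF : MeasurableSet F) :
    ((muCN α β).prod (muCN α β)).real {c | stR K c ∈ E ∧ stL K c ∈ F ∧
      (c.1.2.2.2.2 ≤ ζ ∨ c.2.2.2.2.2 ≤ ζ)} ≤
      2 * ((α - β) * (ζ + gs)) * ((walkM α β).real E * (walkM α β).real F) := by
  have hQm : MeasurableSet {q : ℝ × ℝ | q.2 ≤ ζ ∨ q.1 ≤ ζ} := by
    apply MeasurableSet.union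
    · exact measurableSet_le measurable_snd measurable_const
    · exact measurableSet_le measurable_fst measurable_const
  have h := wp_event α β K hE hF hQm
  have hset : {c : BN × BN | stR K c ∈ E ∧ stL K c ∈ F ∧
      (c.1.2.2.2.2 ≤ ζ ∨ c.2.2.2.2.2 ≤ ζ)} = {c | stR K c ∈ E ∧ stL K c ∈ F ∧
      (c.2.2.2.2.2, c.1.2.2.2.2) ∈ {q : ℝ × ℝ | q.2 ≤ ζ ∨ q.1 ≤ ζ}} := rfl
  rw [hset, measureReal_def, h, ENNReal.toReal_mul, ENNReal.toReal_mul]
  have hQ : (((KG α β).prod (KG α β)) {q : ℝ × ℝ | q.2 ≤ ζ ∨ q.1 ≤ ζ}).toReal ≤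
      2 * ((α - β) * (ζ + gs)) := by
    have h1' : {q : ℝ × ℝ | q.2 ≤ ζ ∨ q.1 ≤ ζ} =
        (Set.univ ×ˢ Set.Iic ζ) ∪ (Set.Iic ζ ×ˢ Set.univ) := by
      ext q
      simp only [Set.mem_ofPred_eq, Set.mem_union, Set.mem_prod, Set.mem_univ, true_and, and_true,
        Set.mem_Iic]
    rw [h1', ← measureReal_def]
    refine (measureReal_union_le _ _).trans ?_
    have h2' : ((KG α β).prod (KG α β)).real (Set.univ ×ˢ Set.Iic ζ) =
        (KG α β).real (Set.Iic ζ) := by
      rw [measureReal_def, Measure.prod_prod, measure_univ, one_mul]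
      rfl
    have h3' : ((KG α β).prod (KG α β)).real (Set.Iic ζ ×ˢ Set.univ) =
        (KG α β).real (Set.Iic ζ) := by
      rw [measureReal_def, Measure.prod_prod, measure_univ, mul_one]
      rfl
    rw [h2', h3']
    have := KG_low h0 h1 h2 hζ
    linarith
  have hE0 : 0 ≤ (walkM α β E).toReal := ENNReal.toReal_nonneg
  have hF0 : 0 ≤ (walkM α β F).toReal := ENNReal.toReal_nonneg
  calc (walkM α β E).toReal * ((walkM α β F).toReal *
        (((KG α β).prod (KG α β)) {q : ℝ × ℝ | q.2 ≤ ζ ∨ q.1 ≤ ζ}).toReal)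
      ≤ (walkM α β E).toReal * ((walkM α β F).toReal * (2 * ((α - β) * (ζ + gs)))) :=
        mul_le_mul_of_nonneg_left (mul_le_mul_of_nonneg_left hQ hF0) hE0
    _ = 2 * ((α - β) * (ζ + gs)) * ((walkM α β).real E * (walkM α β).real F) := by
        rw [measureReal_def, measureReal_def]
        ring

end BGG
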