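import Pool.Agent.BGG.Coup
import Pool.Agent.BGG.WalkPair
import Pool.Agent.BGG.WGProb
import Pool.Agent.BGG.Persist2
import Pool.Agent.BGE.StatA

/-!
BGG / S5. From the profiles to the walks. Adaptation of `Pool/Agent/BGE/StatA.lean` without the
scalings. `merge`, `FLp_succ`, `FRp_succ`, `rates` are those of BGE (the last one is about the
numbers `rA`, `rB` only).
-/

namespace BGG

open MeasureTheory ProbabilityTheory BGE

private theorem merge_meas : Measurable merge := by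
  refine measurable_pi_iff.2 fun z => ?_
  unfold merge
  by_cases h : z.2 ≤ 0
  · simp only [if_pos h]
    exact (measurable_pi_apply z).comp measurable_fst
  · simp only [if_neg h]
    exact (measurable_pi_apply _).comp measurable_snd

theorem merge_mp [GeoPar] : MeasurePreserving merge (PG.prod PG) PG := by
  classical
  refine ⟨merge_meas, ?_⟩
  unfold PG
  refine Measure.eq_infinitePi _ fun s t ht => ?_
  rw [Measure.map_apply merge_meas (MeasurableSet.pi s.countable_toSet fun i _ => ht i)]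
  have h2 : merge ⁻¹' ((s : Set (ℤ × ℤ)).pi t) =
      (((s.filter fun i => i.2 ≤ 0 : Finset (ℤ × ℤ)) : Set (ℤ × ℤ)).pi t) ×ˢ
        ((((s.filter fun i => ¬ i.2 ≤ 0).image rot : Finset (ℤ × ℤ)) : Set (ℤ × ℤ)).pi
          fun j => t (rot j)) := by
    ext ⟨a, b⟩
    simp only [Set.mem_preimage, Set.mem_pi, Set.mem_prod, Finset.mem_coe, Finset.mem_filter,
      Finset.mem_image, merge]
    constructor
    · intro h
      refine ⟨fun i hi => ?_, ?_⟩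
      · have := h i hi.1
        rwa [if_pos hi.2] at this
      · rintro j ⟨i, ⟨hi, hik⟩, rfl⟩
        have := h i hi
        rw [if_neg hik] at this
        rwa [rot_rot]
    · rintro ⟨h1, h2⟩ i hi
      by_cases h : i.2 ≤ 0
      · rw [if_pos h]
        exact h1 i ⟨hi, h⟩
      · rw [if_neg h]
        have := h2 (rot i) ⟨i, ⟨hi, h⟩, rfl⟩
        rwa [rot_rot] at this
  rw [h2, Measure.prod_prod, Measure.infinitePi_pi _ fun i _ => ht _,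
    Measure.infinitePi_pi _ fun i _ => ht _,
    ← Finset.prod_filter_mul_prod_filter_not s (fun i : ℤ × ℤ => i.2 ≤ 0)]
  congr 1
  rw [Finset.prod_image]
  · refine Finset.prod_congr rfl fun i hi => ?_
    rw [rot_rot]
  · intro i hi j hj hij
    have := congrArg rot hij
    rwa [rot_rot, rot_rot] at this

/-- the coupling relations between an environment and a boundary noise -/
def CRel (σ A : ℝ) (n I : ℕ) (ω : ℤ × ℤ → ℝ) (c : BN) : Prop :=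
  (∀ i : ℕ, 1 ≤ i → i ≤ I → c.1 i ≤ dT ω (PLp σ A n) i) ∧
  (∀ i : ℕ, 1 ≤ i → i ≤ I → dT ω (PRp σ A n) (1 - i) ≤ c.2.2.2.1 i) ∧
  (∀ u : ℤ, |u| ≤ I → dT ω (PLp σ A n) u ≤ dT ω (PRp σ A n) u) ∧
  (∀ k : ℕ, k ≤ I →
    (∀ j : ℕ, 1 ≤ j → j ≤ k → (∑ u ∈ Finset.Icc 1 j, c.2.1 u) -
      (∑ u ∈ Finset.Ico 1 j, c.1 u) ≤ c.2.2.2.2) →
    ∀ i : ℕ, 1 ≤ i → i ≤ k → dT ω (PLp σ A n) i = c.1 i ∧ dT ω (PRp σ A n) i = c.1 i) ∧
  (∀ k : ℕ, k ≤ I →
    (∀ j : ℕ, 1 ≤ j → j ≤ k → (∑ u ∈ Finset.Icc 1 j, c.2.2.2.1 u) -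
      (∑ u ∈ Finset.Ico 1 j, c.2.2.1 u) ≤ c.2.2.2.2) →
    ∀ i : ℕ, 1 ≤ i → i ≤ k → dT ω (PLp σ A n) (1 - i) = c.2.2.2.1 i ∧
      dT ω (PRp σ A n) (1 - i) = c.2.2.2.1 i)

private theorem sa_LP (ω ω' : ℤ × ℤ → ℝ) (u : ℤ × ℤ) (N : ℕ)
    (h : ∀ z : ℤ × ℤ, z.2 ≤ u.2 + N → ω z = ω' z) :
    ∀ m n : ℕ, n ≤ N → LP ω u m n = LP ω' u m n
  | 0, 0, _ => by
      rw [LP, LP]
      exact h u (by omega)
  | m + 1, 0, hn => by
      rw [LP, LP, sa_LP ω ω' u N h m 0 hn, h _ (by simp only; omega)]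
  | 0, n + 1, hn => by
      rw [LP, LP, sa_LP ω ω' u N h 0 n (by omega), h _ (by simp only; omega)]
  | m + 1, n + 1, hn => by
      rw [LP, LP, sa_LP ω ω' u N h m (n + 1) hn, sa_LP ω ω' u N h (m + 1) n (by omega),
        h _ (by simp only; omega)]

private theorem sa_dT {ω ω' : ℤ × ℤ → ℝ} {P : ℤ × ℤ} (hP : P.2 ≤ 0)
    (h : ∀ z : ℤ × ℤ, z.2 ≤ 0 → ω z = ω' z) (u : ℤ) : dT ω P u = dT ω' P u := by
  have key : ∀ v : ℤ, T ω P (v, 0) = T ω' P (v, 0) := by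
    intro v
    unfold T
    refine sa_LP ω ω' P (0 - P.2).toNat (fun z hz => h z (by omega)) _ _ le_rfl
  unfold dT
  rw [key, key]

private theorem sa_cbrt (n : ℕ) : ((n : ℝ) ^ (1 / 3 : ℝ)) ^ 3 = n := by
  rw [← Real.rpow_natCast, ← Real.rpow_mul (Nat.cast_nonneg n)]
  norm_num

private theorem sa_cbrt2 (n : ℕ) : (n : ℝ) ^ (2 / 3 : ℝ) = ((n : ℝ) ^ (1 / 3 : ℝ)) ^ 2 := by
  rw [← Real.rpow_natCast, ← Real.rpow_mul (Nat.cast_nonneg n)]
  norm_num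

/-- the lower points are below the row `0` -/
private theorem sa_low {κ C0 σ lam Y g0 A : ℝ} {n : ℕ} (hκ : 0 < κ) (hC : 4096 / κ ^ 3 ≤ C0)
    (h : Par C0 κ σ lam Y g0 n) (hA : 1 ≤ A) (hA' : A ≤ 4 * Y * (n : ℝ) ^ (2 / 3 : ℝ)) :
    (PLp σ A n).2 ≤ 0 ∧ (PRp σ A n).2 ≤ 0 := by
  obtain ⟨h1, h2, h3, h4, h5, h6⟩ := h
  have hC0 : 0 < C0 := lt_of_lt_of_le (by positivity) hC
  have hY : 0 < Y := hC0.trans_le h3
  have hlam : 0 < lam := by linarith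
  set t : ℝ := (n : ℝ) ^ (1 / 3 : ℝ) with ht
  have ht3 : t ^ 3 = n := sa_cbrt n
  have ht0 : 0 ≤ t := Real.rpow_nonneg (Nat.cast_nonneg n) _
  rw [sa_cbrt2, ← ht] at hA'
  have hY3 : Y ^ 3 ≤ 8 * lam ^ 3 := by
    calc Y ^ 3 ≤ (2 * lam) ^ 3 := by gcongr
      _ = 8 * lam ^ 3 := by ring
  have h7 : (8 * Y) ^ 3 ≤ (κ * t) ^ 3 := by
    have h8 : 4096 * lam ^ 3 ≤ κ ^ 3 * n := by
      have h9 : 4096 / κ ^ 3 * lam ^ 3 ≤ n :=
        (mul_le_mul_of_nonneg_right hC (by positivity)).trans (h5.trans h6)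
      calc 4096 * lam ^ 3 = κ ^ 3 * (4096 / κ ^ 3 * lam ^ 3) := by field_simp
        _ ≤ κ ^ 3 * n := by gcongr
    calc (8 * Y) ^ 3 = 512 * Y ^ 3 := by ring
      _ ≤ 512 * (8 * lam ^ 3) := by gcongr
      _ = 4096 * lam ^ 3 := by ring
      _ ≤ κ ^ 3 * n := h8
      _ = (κ * t) ^ 3 := by rw [mul_pow, ht3]
  have h10 : 8 * Y ≤ κ * t := le_of_pow_le_pow_left₀ (by norm_num) (by positivity) h7
  have h11 : 2 * A ≤ κ * n := by
    calc 2 * A ≤ 2 * (4 * Y * t ^ 2) := by gcongr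
      _ = (8 * Y) * t ^ 2 := by ring
      _ ≤ (κ * t) * t ^ 2 := by gcongr
      _ = κ * t ^ 3 := by ring
      _ = κ * n := by rw [ht3]
  have hn0 : (0 : ℝ) ≤ n := Nat.cast_nonneg n
  have h12 : σ * ((n : ℝ) + 1 / 2) ≤ n - κ * n + 1 / 2 := by
    have : σ * ((n : ℝ) + 1 / 2) ≤ (1 - κ) * ((n : ℝ) + 1 / 2) := by gcongr
    nlinarith
  constructor
  · have : (-(n : ℤ)) ≤ ⌊-(σ * ((n : ℝ) + 1 / 2)) - A⌋ := by
      rw [Int.le_floor]
      push_cast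
      nlinarith
    show -(n : ℤ) - ⌊-(σ * ((n : ℝ) + 1 / 2)) - A⌋ ≤ 0
    omega
  · have : (-(n : ℤ)) ≤ ⌈-(σ * ((n : ℝ) + 1 / 2)) + A⌉ := by
      have h13 : ((-(n : ℤ) : ℤ) : ℝ) ≤ -(σ * ((n : ℝ) + 1 / 2)) + A := by
        push_cast
        nlinarith
      exact_mod_cast h13.trans (Int.le_ceil _)
    show -(n : ℤ) - ⌈-(σ * ((n : ℝ) + 1 / 2)) + A⌉ ≤ 0
    omega

private theorem sa_prod {X Z : Type*} [MeasurableSpace X] [MeasurableSpace Z] (μ : Measure X)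
    (ν : Measure Z) [IsProbabilityMeasure μ] [IsProbabilityMeasure ν] {F : Set (X × X)}
    {W : Set Z} (hF : MeasurableSet F) (hW : MeasurableSet W) :
    ((μ.prod ν).prod (μ.prod ν)) {x | (x.1.1, x.2.1) ∈ F ∧ x.1.2 ∈ W ∧ x.2.2 ∈ W} =
      (μ.prod μ) F * (ν W * ν W) := by
  have hA : MeasurableSet {x : (X × Z) × (X × Z) | (x.1.1, x.2.1) ∈ F ∧ x.1.2 ∈ W ∧ x.2.2 ∈ W} := by
    refine MeasurableSet.inter ?_ (MeasurableSet.inter ?_ ?_)
    · exact (show Measurable fun x : (X × Z) × (X × Z) => (x.1.1, x.2.1) by fun_prop) hF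
    · exact (show Measurable fun x : (X × Z) × (X × Z) => x.1.2 by fun_prop) hW
    · exact (show Measurable fun x : (X × Z) × (X × Z) => x.2.2 by fun_prop) hW
  rw [Measure.prod_apply hA]
  have h1 : ∀ x : X × Z, (μ.prod ν) (Prod.mk x ⁻¹'
      {x : (X × Z) × (X × Z) | (x.1.1, x.2.1) ∈ F ∧ x.1.2 ∈ W ∧ x.2.2 ∈ W}) =
      μ (Prod.mk x.1 ⁻¹' F) * (W.indicator (fun _ => ν W) x.2) := by
    intro x
    by_cases hx : x.2 ∈ W
    · rw [Set.indicator_of_mem hx, ← Measure.prod_prod]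
      congr 1
      ext y
      simp only [Set.mem_preimage, Set.mem_ofPred_eq, Set.mem_prod]
      tauto
    · rw [Set.indicator_of_notMem hx, mul_zero]
      have : (Prod.mk x ⁻¹'
        {x : (X × Z) × (X × Z) | (x.1.1, x.2.1) ∈ F ∧ x.1.2 ∈ W ∧ x.2.2 ∈ W}) = ∅ := by
        ext y
        simp only [Set.mem_preimage, Set.mem_ofPred_eq, Set.mem_empty_iff_false]
        tauto
      rw [this, measure_empty]
  simp_rw [h1]
  rw [lintegral_prod_mul (measurable_measure_prodMk_left hF).aemeasurable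
    ((measurable_const.indicator hW).aemeasurable), ← Measure.prod_apply hF,
    lintegral_indicator hW, setLIntegral_const]

theorem to_walk [GeoPar] {κ : ℝ} (hκ : 0 < κ) : ∃ B : ℝ, 1 ≤ B ∧ ∃ C0 : ℝ, 1 ≤ C0 ∧
    ∀ (σ lam Y g0 A : ℝ) (n I : ℕ), Par C0 κ σ lam Y g0 n → 1 ≤ A →
    A ≤ 4 * Y * (n : ℝ) ^ (2 / 3 : ℝ) → (I : ℝ) + 1 ≤ (n : ℝ) ^ (2 / 3 : ℝ) →
    ∀ (E : Set (ℤ × ℤ → ℝ)) (Q : Set (BN × BN)), MeasurableSet E → MeasurableSet Q →
    (∀ ω ∈ E, GoodE κ σ lam Y g0 (2 * n) ω) →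
    (∀ ω ∈ E, ∀ c : BN × BN, CRel σ A n I ω c.1 → CRel σ A n I (rotE ω) c.2 → c ∈ Q) →
    PG.real E ≤ 2 * ((muCN (rA σ B Y n) (rB σ B Y n)).prod
      (muCN (rA σ B Y n) (rB σ B Y n))).real Q := by
  obtain ⟨B, hB, C1, hC1, H1⟩ := coup hκ
  obtain ⟨C2, hC2, H2⟩ := wg_prob hκ hB
  have hκ3 : 0 < 4096 / κ ^ 3 := by positivity
  refine ⟨B, hB, C1 + 8 * C2 + 4096 / κ ^ 3, by linarith, ?_⟩
  intro σ lam Y g0 A n I hpar hA hA' hI E Q hE hQ hgood hcr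
  have hlow := sa_low hκ (by linarith) hpar hA hA'
  obtain ⟨p1, p2, p3, p4, p5, p6⟩ := hpar
  have hlam : 0 < lam := by linarith
  have hY : 0 < Y := by linarith
  have hlam3 : 0 < lam ^ 3 := by positivity
  have hpar1 : Par C1 κ σ lam Y g0 n := by
    refine ⟨p1, p2, by linarith, p4, le_trans ?_ p5, p6⟩
    exact mul_le_mul_of_nonneg_right (by linarith) hlam3.le
  have hY3 : Y ^ 3 ≤ 8 * lam ^ 3 := by
    calc Y ^ 3 ≤ (2 * lam) ^ 3 := by gcongr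
      _ = 8 * lam ^ 3 := by ring
  have hn : C2 * Y ^ 3 ≤ n := by
    calc C2 * Y ^ 3 ≤ C2 * (8 * lam ^ 3) := by gcongr
      _ = (8 * C2) * lam ^ 3 := by ring
      _ ≤ (C1 + 8 * C2 + 4096 / κ ^ 3) * lam ^ 3 :=
        mul_le_mul_of_nonneg_right (by linarith) hlam3.le
      _ ≤ g0 := p5
      _ ≤ n := p6
  have hW := H2 σ Y n p1 p2 (by linarith) hn
  obtain ⟨φ, hφ, H3⟩ := H1 σ lam Y g0 A n I hpar1 hA hA' hI
  set α : ℝ := rA σ B Y n with hα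
  set β : ℝ := rB σ B Y n with hβ
  set μ : Measure (ℤ × ℤ → ℝ) := PG with hμ
  set P : Measure (((ℤ × ℤ → ℝ) × BN) × ((ℤ × ℤ → ℝ) × BN)) :=
    (μ.prod (muBN α β)).prod (μ.prod (muBN α β)) with hP
  have hΦ : MeasurePreserving (Prod.map φ φ) P ((muCN α β).prod (muCN α β)) := hφ.prod hφ
  have hWm : MeasurableSet {b : BN | WG σ B Y n b} := measurableSet_WG σ B Y n
  -- the good event
  have hG := sa_prod μ (muBN α β) (merge_mp.measurable hE) hWm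
  rw [merge_mp.measure_preimage hE.nullMeasurableSet] at hG
  have hnn : ∀ᵐ x ∂P, (∀ z, 0 ≤ x.1.1 z) ∧ (∀ z, 0 ≤ x.2.1 z) := by
    have h1 : ∀ᵐ x ∂(μ.prod (muBN α β)), ∀ z, 0 ≤ x.1 z :=
      Measure.quasiMeasurePreserving_fst.ae ae_nonneg
    have h2 : ∀ᵐ x ∂P, ∀ z, 0 ≤ x.1.1 z := Measure.quasiMeasurePreserving_fst.ae h1
    have h3 : ∀ᵐ x ∂P, ∀ z, 0 ≤ x.2.1 z := Measure.quasiMeasurePreserving_snd.ae h1
    exact h2.and h3
  have hsub : P {x | (x.1.1, x.2.1) ∈ merge ⁻¹' E ∧ x.1.2 ∈ {b : BN | WG σ B Y n b} ∧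
      x.2.2 ∈ {b : BN | WG σ B Y n b}} ≤ P (Prod.map φ φ ⁻¹' Q) := by
    refine measure_mono_ae ?_
    filter_upwards [hnn] with x hx
    rintro ⟨hx1, hx2, hx3⟩
    set ω : ℤ × ℤ → ℝ := merge (x.1.1, x.2.1) with hω
    have hωE : ω ∈ E := hx1
    have hg := hgood ω hωE
    have e1 : ∀ z : ℤ × ℤ, z.2 ≤ 0 → ω z = x.1.1 z := by
      intro z hz
      rw [hω]
      unfold merge
      rw [if_pos hz]
    have e2 : ∀ z : ℤ × ℤ, z.2 ≤ 0 → rotE ω z = x.2.1 z := by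
      intro z hz
      rw [hω]
      unfold rotE merge
      have h4 : ¬ (rot z).2 ≤ 0 := by
        unfold rot
        simp only
        omega
      rw [if_neg h4, rot_rot]
    have h5 := H3 x.1.1 ω x.1.2 hx.1 e1 hg hx2
    have h6 := H3 x.2.1 (rotE ω) x.2.2 hx.2 e2 (goodE_rot.2 hg) hx3
    have d1 : ∀ u, dT x.1.1 (PLp σ A n) u = dT ω (PLp σ A n) u :=
      sa_dT hlow.1 fun z hz => (e1 z hz).symm
    have d2 : ∀ u, dT x.1.1 (PRp σ A n) u = dT ω (PRp σ A n) u :=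
      sa_dT hlow.2 fun z hz => (e1 z hz).symm
    have d3 : ∀ u, dT x.2.1 (PLp σ A n) u = dT (rotE ω) (PLp σ A n) u :=
      sa_dT hlow.1 fun z hz => (e2 z hz).symm
    have d4 : ∀ u, dT x.2.1 (PRp σ A n) u = dT (rotE ω) (PRp σ A n) u :=
      sa_dT hlow.2 fun z hz => (e2 z hz).symm
    simp only [d1, d2] at h5
    simp only [d3, d4] at h6
    exact hcr ω hωE (φ x.1, φ x.2) h5 h6
  have hQ' : P (Prod.map φ φ ⁻¹' Q) = ((muCN α β).prod (muCN α β)) Q :=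
    hΦ.measure_preimage hQ.nullMeasurableSet
  rw [hQ', hG] at hsub
  have h7 : μ.real E * ((muBN α β).real {b : BN | WG σ B Y n b} * (muBN α β).real {b : BN | WG σ B Y n b}) ≤
      ((muCN α β).prod (muCN α β)).real Q := by
    simp only [Measure.real]
    rw [← ENNReal.toReal_mul, ← ENNReal.toReal_mul]
    exact ENNReal.toReal_mono (measure_ne_top _ _) hsub
  have h8 : 0 ≤ μ.real E := measureReal_nonneg
  have h9 : (3 / 4 : ℝ) * (3 / 4) ≤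
      (muBN α β).real {b : BN | WG σ B Y n b} * (muBN α β).real {b : BN | WG σ B Y n b} := by
    gcongr
  have h10 : μ.real E * ((3 / 4 : ℝ) * (3 / 4)) ≤ ((muCN α β).prod (muCN α β)).real Q :=
    (mul_le_mul_of_nonneg_left h9 h8).trans h7
  linarith

end BGG
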