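import Pool.Agent.BGG.TSMoves
import Pool.Agent.BGG.Prod
import Pool.Agent.BGE.StatRow

/-!
BGG / B3. Stationarity of the last passage times with boundary (Burke property). Adaptation of
`Pool/Agent/BGE/StatRow.lean`.

`bl a b x v` is the passage time to `v` with corner `0`, boundary weights `bw a (x.2.1 i)` on the S
side (law `bE a`), `bw b (x.2.2 j)` on the W side, bulk weights `x.1` (law `PG`). With `b = 1 - a` the
increments on every row are i.i.d. with law `bE a`.

Proof. As in BGE: `(x.1, bw a ∘ x.2.1, bw (1-a) ∘ x.2.2)` has the product law with the marginals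
`EG = geoM q`, `bE a = geoM (gap a)`, `bE (1-a) = geoM (gap (1-a))`, and `gap a * gap (1-a) = q`
(`gap_mul`), so every local move (`burke_move` for finite products, or `move_inf`) with the triple
(S slot, W slot, bulk slot) preserves the law. The recursion for the increments is the same.
-/

namespace BGG


open MeasureTheory ProbabilityTheory BGE

variable [GeoPar]

theorem measurable_bl (a b : ℝ) (v : ℤ × ℤ) : Measurable (fun x : SW => bl a b x v) := by
  unfold bl
  refine (measurable_T 0 v).comp (measurable_pi_iff.2 fun z => ?_)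
  unfold bfield
  by_cases h1 : z.2 = (0 : ℤ × ℤ).2
  · by_cases h2 : z.1 = (0 : ℤ × ℤ).1
    · simp only [h1, h2, if_true]
      exact measurable_const
    · simp only [h1, if_true, h2, if_false]
      exact (measurable_bw _).comp ((measurable_pi_apply _).comp (measurable_fst.comp measurable_snd))
  · by_cases h2 : z.1 = (0 : ℤ × ℤ).1
    · simp only [h1, h2, if_true, if_false]
      exact (measurable_bw _).comp ((measurable_pi_apply _).comp (measurable_snd.comp measurable_snd))
    · simp only [h1, h2, if_false]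
      exact (measurable_pi_apply _).comp measurable_fst

/-! ### Configurations -/

/-- the laws of the three families of variables -/
private noncomputable def sgl : (ℤ × ℤ) ⊕ (ℕ ⊕ ℕ) → Measure ℝ
  | .inl _ => EG
  | .inr _ => E1

private instance (k : (ℤ × ℤ) ⊕ (ℕ ⊕ ℕ)) : IsProbabilityMeasure (sgl k) := by
  rcases k with k | k
  · unfold sgl; infer_instance
  · unfold sgl; infer_instance

private theorem map_flatG : muSW.map flat = Measure.infinitePi sgl := by
  have h1 : Measure.map (fun p : (ℕ → ℝ) × (ℕ → ℝ) => (Sum.elim p.1 p.2 : ℕ ⊕ ℕ → ℝ))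
      ((PI ℕ).prod (PI ℕ)) = PI (ℕ ⊕ ℕ) :=
    infinitePi_sum _ _ _ (fun _ => rfl) (fun _ => rfl)
  have h2 : Measure.map (fun p : (ℤ × ℤ → ℝ) × (ℕ ⊕ ℕ → ℝ) => (Sum.elim p.1 p.2 : (ℤ × ℤ) ⊕ (ℕ ⊕ ℕ) → ℝ))
      (PG.prod (PI (ℕ ⊕ ℕ))) = Measure.infinitePi sgl :=
    infinitePi_sum _ _ _ (fun _ => rfl) (fun _ => rfl)
  have m1 : Measurable (fun p : (ℕ → ℝ) × (ℕ → ℝ) => (Sum.elim p.1 p.2 : ℕ ⊕ ℕ → ℝ)) := by
    refine measurable_pi_iff.2 fun z => ?_
    rcases z with z | z
    · exact (measurable_pi_apply z).comp measurable_fst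
    · exact (measurable_pi_apply z).comp measurable_snd
  have m2 : Measurable (fun p : (ℤ × ℤ → ℝ) × (ℕ ⊕ ℕ → ℝ) =>
      (Sum.elim p.1 p.2 : (ℤ × ℤ) ⊕ (ℕ ⊕ ℕ) → ℝ)) := by
    refine measurable_pi_iff.2 fun z => ?_
    rcases z with z | z
    · exact (measurable_pi_apply z).comp measurable_fst
    · exact (measurable_pi_apply z).comp measurable_snd
  rw [← h2, ← h1]
  have h3 := Measure.map_prod_map PG ((PI ℕ).prod (PI ℕ)) (f := id) measurable_id m1
  rw [Measure.map_id] at h3
  rw [h3, Measure.map_map m2 (measurable_id.prodMap m1)]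
  rfl

/-- the ratios -/
private noncomputable def slotR (a : ℝ) {m N : ℕ} : Slot m N → ℝ
  | .inl _ => GeoPar.q
  | .inr (.inl _) => gap a
  | .inr (.inr _) => gap (1 - a)

private theorem slotR_pos {a : ℝ} (ha : 0 < a) (ha1 : a < 1) {m N : ℕ} (k : Slot m N) :
    0 < slotR a k := by
  rcases k with k | k | k
  · exact GeoPar.q_pos
  · exact gap_pos ha.le ha1.le
  · exact gap_pos (by linarith) (by linarith)

private theorem slotR_lt {a : ℝ} (ha : 0 < a) (ha1 : a < 1) {m N : ℕ} (k : Slot m N) :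
    slotR a k < 1 := by
  rcases k with k | k | k
  · exact GeoPar.q_lt
  · exact gap_lt ha ha1.le
  · exact gap_lt (by linarith) (by linarith)

/-- the maps which give the weights -/
private noncomputable def slotF (a : ℝ) {m N : ℕ} : Slot m N → ℝ → ℝ
  | .inl _ => fun y => y
  | .inr (.inl _) => bw a
  | .inr (.inr _) => bw (1 - a)

private theorem measurable_slotF (a : ℝ) {m N : ℕ} (k : Slot m N) : Measurable (slotF a k) := by
  rcases k with k | k | k
  · exact measurable_id
  · exact measurable_bw _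
  · exact measurable_bw _

/-- the weights in the box -/
private noncomputable def gconf0 (a : ℝ) (m N : ℕ) (x : SW) : Slot m N → ℝ :=
  fun k => slotF a k (flat x (slotEmb m N k))

private theorem map_gconf0 (a : ℝ) (m N : ℕ) :
    muSW.map (gconf0 a m N) = Measure.pi (fun k : Slot m N => geoM (slotR a k)) := by
  have h1 : gconf0 a m N = (fun y (k : Slot m N) => slotF a k (y k)) ∘
      (fun y k => y (slotEmb m N k)) ∘ flat := rfl
  have m1 : Measurable (fun (y : Slot m N → ℝ) (k : Slot m N) => slotF a k (y k)) :=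
    measurable_pi_iff.2 fun k => (measurable_slotF a k).comp (measurable_pi_apply k)
  rw [h1, ← Measure.map_map m1 (by
    have := measurable_flat
    fun_prop), ← Measure.map_map (by fun_prop) measurable_flat, map_flatG]
  have h2 : Measure.map (fun (y : (ℤ × ℤ) ⊕ (ℕ ⊕ ℕ) → ℝ) k => y (slotEmb m N k))
      (Measure.infinitePi sgl) = Measure.infinitePi (fun k : Slot m N => sgl (slotEmb m N k)) :=
    infinitePi_reindex sgl (slotEmb m N) (slotEmb_inj m N)
  rw [h2, Measure.infinitePi_map_pi (μ := fun k : Slot m N => sgl (slotEmb m N k))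
    (f := fun k y => slotF a k y) (fun k => measurable_slotF a k)]
  rw [← Measure.infinitePi_eq_pi]
  congr 1
  ext1 k
  rcases k with k | k | k
  · exact Measure.map_id
  · rfl
  · rfl

/-! ### The recursion -/

/-- the passage time to `(i, j)` -/
private noncomputable def Lb (a : ℝ) (x : SW) (i j : ℕ) : ℝ := bl a (1 - a) x ((i : ℤ), (j : ℤ))

private theorem Lb_zero (a : ℝ) (x : SW) : Lb a x 0 0 = 0 := by
  unfold Lb bl
  have h : ((((0 : ℕ) : ℤ), ((0 : ℕ) : ℤ)) : ℤ × ℤ) = 0 := rfl
  rw [h, T_self]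
  unfold bfield
  simp

private theorem Lb_row (a : ℝ) (x : SW) (i : ℕ) :
    Lb a x i 0 = ∑ k ∈ Finset.Icc 1 i, bw a (x.2.1 k) := by
  unfold Lb bl
  have h := Lrow x.1 (fun i => bw a (x.2.1 i)) (fun j => bw (1 - a) (x.2.2 j)) 0 i
  have h2 : (((i : ℤ), ((0 : ℕ) : ℤ)) : ℤ × ℤ) = ((0 : ℤ × ℤ).1 + (i : ℤ), (0 : ℤ × ℤ).2) := by
    simp
  rw [h2, h]

private theorem Lb_col (a : ℝ) (x : SW) (j : ℕ) :
    Lb a x 0 j = ∑ k ∈ Finset.Icc 1 j, bw (1 - a) (x.2.2 k) := by
  unfold Lb bl
  have h := Lcol x.1 (fun i => bw a (x.2.1 i)) (fun j => bw (1 - a) (x.2.2 j)) 0 j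
  have h2 : ((((0 : ℕ) : ℤ), (j : ℤ)) : ℤ × ℤ) = ((0 : ℤ × ℤ).1, (0 : ℤ × ℤ).2 + (j : ℤ)) := by
    simp
  rw [h2, h]

private theorem Lb_row_succ (a : ℝ) (x : SW) (i : ℕ) :
    Lb a x (i + 1) 0 - Lb a x i 0 = bw a (x.2.1 (i + 1)) := by
  rw [Lb_row, Lb_row, Finset.sum_Icc_succ_top (by omega)]
  ring

private theorem Lb_col_succ (a : ℝ) (x : SW) (j : ℕ) :
    Lb a x 0 (j + 1) - Lb a x 0 j = bw (1 - a) (x.2.2 (j + 1)) := by
  rw [Lb_col, Lb_col, Finset.sum_Icc_succ_top (by omega)]
  ring

private theorem Lb_rec (a : ℝ) (x : SW) (i j : ℕ) :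
    Lb a x (i + 1) (j + 1) =
      max (Lb a x i (j + 1)) (Lb a x (i + 1) j) + x.1 ((i : ℤ) + 1, (j : ℤ) + 1) := by
  unfold Lb bl
  rw [T_rec (by simp only [Prod.fst_zero]; omega) (by simp only [Prod.snd_zero]; omega)]
  have h1 : ((((i + 1 : ℕ) : ℤ) - 1, ((j + 1 : ℕ) : ℤ)) : ℤ × ℤ) = ((i : ℤ), ((j + 1 : ℕ) : ℤ)) := by
    simp
  have h2 : ((((i + 1 : ℕ) : ℤ), ((j + 1 : ℕ) : ℤ) - 1) : ℤ × ℤ) = (((i + 1 : ℕ) : ℤ), (j : ℤ)) := by
    simp
  simp only [h1, h2]
  congr 1

private theorem measurable_Lb (a : ℝ) (i j : ℕ) : Measurable (fun x : SW => Lb a x i j) :=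
  measurable_bl _ _ _

/-- the configuration after the rows `< j` and the cells `< i` of the row `j` -/
private noncomputable def conf (a : ℝ) (m N : ℕ) (x : SW) (j i : ℕ) : Slot m N → ℝ
  | .inl p => if (p.2 : ℕ) < j ∨ ((p.2 : ℕ) = j ∧ (p.1 : ℕ) < i) then
      min (Lb a x (p.1 + 1) p.2 - Lb a x p.1 p.2) (Lb a x p.1 (p.2 + 1) - Lb a x p.1 p.2)
      else x.1 ((p.1 : ℤ) + 1, (p.2 : ℤ) + 1)
  | .inr (.inl k) => if (k : ℕ) < i then Lb a x (k + 1) (j + 1) - Lb a x k (j + 1)
      else Lb a x (k + 1) j - Lb a x k j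
  | .inr (.inr k) => if (k : ℕ) < j then Lb a x m (k + 1) - Lb a x m k
      else if (k : ℕ) = j then Lb a x i (j + 1) - Lb a x i j else bw (1 - a) (x.2.2 ((k : ℕ) + 1))

private theorem conf_inl (a : ℝ) (m N : ℕ) (x : SW) (j i : ℕ) (p : Fin m × Fin N) :
    conf a m N x j i (.inl p) = if (p.2 : ℕ) < j ∨ ((p.2 : ℕ) = j ∧ (p.1 : ℕ) < i) then
      min (Lb a x (p.1 + 1) p.2 - Lb a x p.1 p.2) (Lb a x p.1 (p.2 + 1) - Lb a x p.1 p.2)
      else x.1 ((p.1 : ℤ) + 1, (p.2 : ℤ) + 1) := rfl

private theorem conf_inrl (a : ℝ) (m N : ℕ) (x : SW) (j i : ℕ) (k : Fin m) :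
    conf a m N x j i (.inr (.inl k)) =
      if (k : ℕ) < i then Lb a x (k + 1) (j + 1) - Lb a x k (j + 1)
      else Lb a x (k + 1) j - Lb a x k j := rfl

private theorem conf_inrr (a : ℝ) (m N : ℕ) (x : SW) (j i : ℕ) (k : Fin N) :
    conf a m N x j i (.inr (.inr k)) =
      if (k : ℕ) < j then Lb a x m (k + 1) - Lb a x m k
      else if (k : ℕ) = j then Lb a x i (j + 1) - Lb a x i j
      else bw (1 - a) (x.2.2 ((k : ℕ) + 1)) := rfl

private theorem conf_zero (a : ℝ) (m N : ℕ) (x : SW) : conf a m N x 0 0 = gconf0 a m N x := by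
  ext k
  rcases k with k | k | k
  · simp [conf, gconf0, flat, slotEmb, slotF]
  · simp only [conf_inrl, gconf0, flat, slotEmb, slotF, not_lt_zero, if_false, Sum.elim_inr,
      Sum.elim_inl]
    rw [Lb_row_succ]
  · simp only [conf_inrr, gconf0, flat, slotEmb, slotF, not_lt_zero, if_false, Sum.elim_inr]
    split_ifs with h
    · rw [Lb_col_succ, h]
    · rfl

private theorem conf_succ_row (a : ℝ) (m N : ℕ) (x : SW) (j : ℕ) :
    conf a m N x (j + 1) 0 = conf a m N x j m := by
  ext k
  rcases k with k | k | k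
  · rw [conf_inl, conf_inl]
    have hk := k.1.2
    have h : ((k.2 : ℕ) < j + 1 ∨ (k.2 : ℕ) = j + 1 ∧ (k.1 : ℕ) < 0) ↔
        ((k.2 : ℕ) < j ∨ (k.2 : ℕ) = j ∧ (k.1 : ℕ) < m) := by omega
    simp only [h]
  · rw [conf_inrl, conf_inrl]
    have hk := k.2
    rw [if_neg (by omega), if_pos hk]
  · rw [conf_inrr, conf_inrr]
    rcases lt_trichotomy (k : ℕ) j with h | h | h
    · rw [if_pos (by omega), if_pos h]
    · rw [if_pos (by omega), if_neg (by omega), if_pos h, h]
    · rw [if_neg (show ¬ (k : ℕ) < j + 1 by omega), if_neg (show ¬ (k : ℕ) < j by omega),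
        if_neg (show ¬ (k : ℕ) = j by omega)]
      split_ifs with h2
      · rw [Lb_col_succ, h2]
      · rfl

private theorem conf_succ (a : ℝ) {m N : ℕ} (x : SW) (j : Fin N) (i : Fin m) :
    conf a m N x j (i + 1) =
      move (.inr (.inl i)) (.inr (.inr j)) (.inl (i, j)) (conf a m N x j i) := by
  have hS : conf a m N x j i (.inr (.inl i)) = Lb a x (i + 1) j - Lb a x i j := by
    rw [conf_inrl]
    rw [if_neg (by omega)]
  have hW : conf a m N x j i (.inr (.inr j)) = Lb a x i (j + 1) - Lb a x i j := by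
    rw [conf_inrr]
    rw [if_neg (by omega), if_pos rfl]
  have hB : conf a m N x j i (.inl (i, j)) = x.1 ((i : ℤ) + 1, (j : ℤ) + 1) := by
    rw [conf_inl]
    rw [if_neg (by simp)]
  have hrec := Lb_rec a x i j
  unfold move
  rw [hS, hW, hB]
  ext k
  rcases k with ⟨i', j'⟩ | i' | j'
  · by_cases h : ((Sum.inl (i', j') : Slot m N)) = .inl (i, j)
    · rw [h, Function.update_self]
      rw [conf_inl]
      rw [if_pos (Or.inr ⟨rfl, Nat.lt_succ_self _⟩)]
    · rw [Function.update_of_ne h, Function.update_of_ne (by simp), Function.update_of_ne (by simp)]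
      rw [conf_inl, conf_inl]
      have h2 : ¬ ((i' : ℕ) = i ∧ (j' : ℕ) = j) := by
        rintro ⟨h3, h4⟩
        exact h (by rw [Fin.ext h3, Fin.ext h4])
      have h3 : ((j' : ℕ) < j ∨ (j' : ℕ) = j ∧ (i' : ℕ) < i + 1) ↔
        ((j' : ℕ) < j ∨ (j' : ℕ) = j ∧ (i' : ℕ) < i) := by omega
      simp only [h3]
  · rw [Function.update_of_ne (by simp), Function.update_of_ne (by simp)]
    by_cases h : i' = i
    · rw [h, Function.update_self]
      rw [conf_inrl]
      rw [if_pos (by omega), hrec]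
      rcases le_total (Lb a x i (j + 1)) (Lb a x (i + 1) j) with h1 | h1
      · rw [max_eq_right h1, max_eq_left (by linarith)]
        ring
      · rw [max_eq_left h1, max_eq_right (by linarith)]
        ring
    · rw [Function.update_of_ne (by simpa using h)]
      rw [conf_inrl, conf_inrl]
      have h2 : (i' : ℕ) ≠ i := fun h3 => h (Fin.ext h3)
      have h3 : (i' : ℕ) < i + 1 ↔ (i' : ℕ) < i := by omega
      simp only [h3]
  · rw [Function.update_of_ne (by simp)]
    by_cases h : j' = j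
    · rw [h, Function.update_self]
      rw [conf_inrr]
      rw [if_neg (by omega), if_pos rfl, hrec]
      rcases le_total (Lb a x i (j + 1)) (Lb a x (i + 1) j) with h1 | h1
      · rw [max_eq_right h1, max_eq_right (by linarith)]
        ring
      · rw [max_eq_left h1, max_eq_left (by linarith)]
        ring
    · rw [Function.update_of_ne (by simpa using h), Function.update_of_ne (by simp)]
      rw [conf_inrr, conf_inrr]
      have h2 : (j' : ℕ) ≠ j := fun h3 => h (Fin.ext h3)
      rw [if_neg h2, if_neg h2]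

private theorem conf_measurable (a : ℝ) (m N : ℕ) (j i : ℕ) :
    Measurable (fun x : SW => conf a m N x j i) := by
  refine measurable_pi_iff.2 fun z => ?_
  have hL := fun i j => measurable_Lb a i j
  rcases z with z | z | z
  · simp only [conf]
    split_ifs
    · exact ((hL _ _).sub (hL _ _)).min ((hL _ _).sub (hL _ _))
    · exact (measurable_pi_apply _).comp measurable_fst
  · simp only [conf]
    split_ifs
    · exact (hL _ _).sub (hL _ _)
    · exact (hL _ _).sub (hL _ _)
  · simp only [conf]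
    split_ifs
    · exact (hL _ _).sub (hL _ _)
    · exact (hL _ _).sub (hL _ _)
    · exact (measurable_bw _).comp ((measurable_pi_apply _).comp (measurable_snd.comp measurable_snd))

/-- the law of the configuration does not change -/
private theorem map_conf {a : ℝ} (ha : 0 < a) (ha1 : a < 1) (m N : ℕ) :
    ∀ j ≤ N, muSW.map (fun x => conf a m N x j 0) =
      Measure.pi (fun k : Slot m N => geoM (slotR a k)) := by
  intro j
  induction j with
  | zero =>
    intro _
    simp only [conf_zero]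
    exact map_gconf0 a m N
  | succ j ih =>
    intro hj
    have ih' := ih (by omega)
    have key : ∀ i ≤ m, muSW.map (fun x => conf a m N x j i) =
        Measure.pi (fun k : Slot m N => geoM (slotR a k)) := by
      intro i
      induction i with
      | zero => exact fun _ => ih'
      | succ i ih2 =>
        intro hi
        have h1 := ih2 (by omega)
        have h2 := burke_move (slotR a) (fun k : Slot m N => slotR_pos ha ha1 k)
          (fun k : Slot m N => slotR_lt ha ha1 k)
          (i := .inr (.inl ⟨i, by omega⟩)) (j := .inr (.inr ⟨j, by omega⟩))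
          (k := .inl (⟨i, by omega⟩, ⟨j, by omega⟩)) (by simp) (by simp) (by simp)
          (gap_mul ha.le ha1.le).symm
        have h3 : (fun x => conf a m N x j (i + 1)) =
            (move (.inr (.inl ⟨i, by omega⟩)) (.inr (.inr ⟨j, by omega⟩))
              (.inl (⟨i, by omega⟩, ⟨j, by omega⟩))) ∘ (fun x => conf a m N x j i) := by
          ext1 x
          exact conf_succ a x ⟨j, by omega⟩ ⟨i, by omega⟩
        rw [h3, ← Measure.map_map h2.measurable (conf_measurable a m N j i), h1, h2.map_eq]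
    simp only [conf_succ_row]
    exact key m le_rfl

theorem stat_row {a : ℝ} (ha : 0 < a) (ha1 : a < 1) (m n : ℕ) :
    Measure.map (fun (x : SW) (i : Fin m) =>
      bl a (1 - a) x ((i : ℤ) + 1, (n : ℤ)) - bl a (1 - a) x ((i : ℤ), (n : ℤ))) muSW =
      Measure.pi (fun _ : Fin m => bE a) := by
  have h1 := map_conf ha ha1 m n n le_rfl
  have h2 : (fun (x : SW) (i : Fin m) =>
      bl a (1 - a) x ((i : ℤ) + 1, (n : ℤ)) - bl a (1 - a) x ((i : ℤ), (n : ℤ))) =
      (fun (y : Slot m n → ℝ) i => y (.inr (.inl i))) ∘ (fun x => conf a m n x n 0) := by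
    ext x i
    simp only [Function.comp_apply, conf]
    rw [if_neg (by omega)]
    unfold Lb
    push_cast
    rfl
  rw [h2, ← Measure.map_map (by fun_prop) (conf_measurable a m n n 0), h1,
    pi_reindex (fun k : Slot m n => geoM (slotR a k)) (fun i => .inr (.inl i))
      (fun i j h => by simpa using h)]
  rfl

end BGG
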