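import Pool.Agent.BGG.TSMoves
import Pool.Agent.BGE.TSLaw

/-!
BGG / B6b. The two-slope coupling: the law of a row. Adaptation of `Pool/Agent/BGE/TSLaw.lean`
(there the variables are normalised to rate one; here they are the weights themselves, with the laws
`bE α, bE β, bE (1-α), bE (1-β), KG α β = geoM (gap α/gap β)`, so all the scalings disappear).

The ratios of the moves: `(z, κ, j2)`: `gap (1-α) * (gap α/gap β) = gap (1-β)` (`gap_mul`);
`(y1 i, J1, ω i)`: `gap α * gap (1-α) = q`; `(y2 i, J', wc i)`: `gap β * gap (1-β) = q`;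
`(y2 i, K_{i-1}, y1 i)`: `gap β * (gap α/gap β) = gap α`. (`gap_pos`, `gap_lt`, `gap_quot`.)

Proof. For every row, `rowStep` preserves the product law of (`y1, y2, κ`) given independent `z`,
`j2` and weights of the row: it is a composition of local moves `(z, κ, j2)`, then `(y1 i, J1, ω i)`
for `i = 1, 2, ...`, then `(y2 i, J', wc i)`. So the state of the row `n` has the product law. Finally
apply the local moves `(y2 i, K_{i-1}, y1 i)` for `i = 1, ..., i0`: the results are `(D i, K_i, C_i)`
with `C_i = min (y2 i) (K_{i-1})`, again independent. Put `B i = D i`, `A i = C_i` for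
`1 ≤ i ≤ i0`, `K = K_{i0}`, and `A i = y1n i`, `B i = y2n i` for `i > i0` and for `i = 0`. `burkeMap` is
an involution, which gives the last relations.
-/

namespace BGG

open MeasureTheory ProbabilityTheory BGE

variable [GeoPar]

/-- the moves of the rows `1, ..., m`, in the columns `1, ..., N` -/
noncomputable def rMovesG (N : ℕ) : ℕ → (TI → ℝ) → TI → ℝ
  | 0 => id
  | m + 1 => qMoves iB (iR (m + 1)) (iJ (m + 1)) N ∘
      (qMoves iA (iR (m + 1)) (iZ (m + 1)) N ∘
        (move (iZ (m + 1)) iK (iJ (m + 1)) ∘ rMovesG N m))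

theorem rMovesG_mp {α β : ℝ} (h0 : 0 < β) (h1 : β < α) (h2 : α < 1) (N m : ℕ) :
    MeasurePreserving (rMovesG N m) (Measure.infinitePi (tl α β))
      (Measure.infinitePi (tl α β)) := by
  have hα : 0 < α := by linarith
  obtain ⟨gq0, gq1, -⟩ := gap_quot h0.le h1 h2.le
  have gα := gap_pos hα.le h2.le
  have gβ := gap_pos h0.le (h1.le.trans h2.le)
  have gα' : 0 < gap (1 - α) := gap_pos (by linarith) (by linarith)
  have gβ' : 0 < gap (1 - β) := gap_pos (by linarith) (by linarith)
  have lα : gap α < 1 := gap_lt hα h2.le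
  have lβ : gap β < 1 := gap_lt h0 (by linarith)
  have lα' : gap (1 - α) < 1 := gap_lt (by linarith) (by linarith)
  have lβ' : gap (1 - β) < 1 := gap_lt (by linarith) (by linarith)
  have eα : gap α * gap (1 - α) = GeoPar.q := gap_mul hα.le h2.le
  have eβ : gap β * gap (1 - β) = GeoPar.q := gap_mul h0.le (by linarith)
  have e1 : gap (1 - α) * (gap α / gap β) = gap (1 - β) := by
    rw [mul_div_assoc', div_eq_iff gβ.ne']
    linarith
  induction m with
  | zero => exact MeasurePreserving.id _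
  | succ n ih =>
    refine (qMoves_mp (tl α β) gβ lβ gβ' lβ' (by simp) (by simp) (by simp) ?_ ?_ ?_ N).comp
      ((qMoves_mp (tl α β) gα lα gα' lα' (by simp) (by simp) (by simp) ?_ ?_ ?_ N).comp
        ((move_inf (tl α β) gα' lα' gq0 gq1 (by simp) (by simp) (by simp) ?_ ?_ ?_).comp ih))
    · intro i _
      rfl
    · rfl
    · intro i _
      rw [eβ]
      rfl
    · intro i _
      rfl
    · rfl
    · intro i _
      rw [eα]
      rfl
    · rfl
    · rfl
    · rw [e1]
      rfl

omit [GeoPar] in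
theorem rMovesG_spec (N m : ℕ) (x : TSx) :
    (∀ i, i ≤ N → rMovesG N m (ofTS x) (iA i) = (tsRow x m).1 i) ∧
    (∀ i, i ≤ N → rMovesG N m (ofTS x) (iB i) = (tsRow x m).2.1 i) ∧
    rMovesG N m (ofTS x) iK = (tsRow x m).2.2 ∧
    (∀ v : ℤ × ℤ, (m : ℤ) < v.2 → rMovesG N m (ofTS x) (iW v) = x.1 v) ∧
    (∀ j : ℕ, m < j → rMovesG N m (ofTS x) (iZ j) = x.2.2.2.1 j) ∧
    (∀ j : ℕ, m < j → rMovesG N m (ofTS x) (iJ j) = x.2.2.2.2.1 j) := by
  induction m with
  | zero =>
    refine ⟨?_, ?_, ?_, ?_, ?_, ?_⟩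
    · intro i _; rfl
    · intro i _; rfl
    · rfl
    · intro v _; rfl
    · intro v _; rfl
    · intro v _; rfl
  | succ m ih =>
    obtain ⟨i1, i2, i3, i4, i5, i6⟩ := ih
    set R := tsRow x m with hR
    set g0 := rMovesG N m (ofTS x) with hg0
    set g1 := move (iZ (m + 1)) iK (iJ (m + 1)) g0 with hg1
    set g2 := qMoves iA (iR (m + 1)) (iZ (m + 1)) N g1 with hg2
    set g3 := qMoves iB (iR (m + 1)) (iJ (m + 1)) N g2 with hg3
    have hgoal : rMovesG N (m + 1) (ofTS x) = g3 := rfl
    rw [hgoal]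
    set w : ℕ → ℝ := fun i => x.1 ((i : ℤ), ((m + 1 : ℕ) : ℤ)) with hw
    set z : ℝ := x.2.2.2.1 (m + 1) with hz
    set j2 : ℝ := x.2.2.2.2.1 (m + 1) with hj2
    set J0 : ℝ := j2 + max (z - R.2.2) 0 with hJ0
    set J0' : ℝ := min z R.2.2 with hJ0'
    have hR' : tsRow x (m + 1) = rowStep w z j2 R := rfl
    -- stage 1
    have z0 : g0 (iZ (m + 1)) = z := i5 _ (Nat.lt_succ_self m)
    have j0 : g0 (iJ (m + 1)) = j2 := i6 _ (Nat.lt_succ_self m)
    have k0 : g0 iK = R.2.2 := i3
    have g1Z : g1 (iZ (m + 1)) = J0 := by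
      rw [hg1, gmove_i (by simp) (by simp), j0, z0, k0]
    have g1J : g1 (iJ (m + 1)) = J0' := by
      rw [hg1, gmove_k, z0, k0]
    have g1K : g1 iK = j2 + max (R.2.2 - z) 0 := by
      rw [hg1, gmove_j (by simp), j0, z0, k0]
    have g1o : ∀ l, l ≠ iZ (m + 1) → l ≠ iK → l ≠ iJ (m + 1) → g1 l = g0 l := by
      intro l a b c
      rw [hg1, gmove_ne a b c]
    -- stage 2
    have hinjR : Function.Injective (iR (m + 1)) := by
      intro a b h
      simpa [iR] using h
    obtain ⟨p1, p2, p3, p4, p5, p6⟩ := qMoves_spec (p := iA) (q := iR (m + 1))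
      (k := iZ (m + 1)) (fun a b h => by simpa using h) hinjR (by simp) (by simp) (by simp) N g1
      (fun i => g1 (iR (m + 1) i)) (fun i => g1 (iA i))
      (g1 (iZ (m + 1))) (fun i => rfl) (fun i => rfl) rfl
    rw [← hg2] at p1 p2 p3 p4 p5 p6
    have ew : ∀ i, g1 (iR (m + 1) i) = w i := by
      intro i
      rw [g1o _ (by simp) (by simp) (by simp), i4 _ (by simp)]
    have eA : ∀ i, i ≤ N → g1 (iA i) = R.1 i := by
      intro i hi
      rw [g1o _ (by simp) (by simp) (by simp), i1 i hi]
    have ew' : (fun i => g1 (iR (m + 1) i)) = w := funext ew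
    rw [ew', g1Z] at p1 p3 p5
    have cK : ∀ i, i ≤ N → rowK w (fun i => g1 (iA i)) J0 i = qJ w R.1 J0 i := by
      intro i hi
      rw [qJ_eq]
      exact rowK_congr (fun _ _ _ => rfl) (fun k _ hk => eA k hk) i hi
    have cD : ∀ i, i ≤ N → i ≠ 0 → rowD w (fun i => g1 (iA i)) J0 i = qI w R.1 J0 i := by
      intro i hi h
      rw [qI_eq _ _ _ h]
      exact rowD_congr (fun _ _ _ => rfl) (fun k hk => eA k hk) i hi
    -- stage 3
    obtain ⟨r1, r2, r3, r4, r5, r6⟩ := qMoves_spec (p := iB) (q := iR (m + 1))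
      (k := iJ (m + 1)) (fun a b h => by simpa using h) hinjR (by simp) (by simp) (by simp) N g2
      (fun i => g2 (iR (m + 1) i)) (fun i => g2 (iB i))
      (g2 (iJ (m + 1))) (fun i => rfl) (fun i => rfl) rfl
    rw [← hg3] at r1 r2 r3 r4 r5 r6
    have g2J : g2 (iJ (m + 1)) = J0' := by
      rw [p6 _ (by simp) (by simp) (by simp), g1J]
    have eB : ∀ i, i ≤ N → g2 (iB i) = R.2.1 i := by
      intro i hi
      rw [p6 _ (by simp) (by simp) (by simp), g1o _ (by simp) (by simp) (by simp), i2 i hi]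
    have eC : ∀ i, 1 ≤ i → i ≤ N → g2 (iR (m + 1) i) = qC w R.1 J0 i := by
      intro i hi hi'
      rw [p3 i hi hi', eA i hi', cK _ (by omega)]
      rfl
    rw [g2J] at r1 r3 r5
    have cD' : ∀ i, i ≤ N → i ≠ 0 → rowD (fun i => g2 (iR (m + 1) i))
        (fun i => g2 (iB i)) J0' i = qI (qC w R.1 J0) R.2.1 J0' i := by
      intro i hi h
      rw [qI_eq _ _ _ h]
      exact rowD_congr eC (fun k hk => eB k hk) i hi
    refine ⟨?_, ?_, ?_, ?_, ?_, ?_⟩
    · intro i hi
      rw [r6 _ (by simp) (by simp) (by simp), p1 i hi, hR']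
      simp only [rowStep]
      by_cases h : i = 0
      · subst h
        simp only [if_true, rowD]
        exact eA 0 hi
      · rw [if_neg h]
        exact cD i hi h
    · intro i hi
      rw [r1 i hi, hR']
      simp only [rowStep]
      by_cases h : i = 0
      · subst h
        simp only [if_true, rowD]
        exact eB 0 hi
      · rw [if_neg h]
        exact cD' i hi h
    · rw [r6 _ (by simp) (by simp) (by simp), p6 _ (by simp) (by simp) (by simp), g1K, hR']
      rfl
    · intro v hv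
      have hne : ∀ i, iW v ≠ iR (m + 1) i := by
        intro i h
        have : v = ((i : ℤ), ((m + 1 : ℕ) : ℤ)) := by simpa [iR] using h
        rw [this] at hv
        simp at hv
      rw [r6 _ (by simp) hne (by simp), p6 _ (by simp) hne (by simp),
        g1o _ (by simp) (by simp) (by simp), i4 v (by push_cast at hv; omega)]
    · intro j hj
      have hne : (iZ j) ≠ iZ (m + 1) := by
        intro h
        have : j = m + 1 := by simpa using h
        omega
      rw [r6 _ (by simp) (by simp) (by simp), p6 _ (by simp) (by simp) hne,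
        g1o _ hne (by simp) (by simp), i5 j (by omega)]
    · intro j hj
      have hne : (iJ j) ≠ iJ (m + 1) := by
        intro h
        have : j = m + 1 := by simpa using h
        omega
      rw [r6 _ (by simp) (by simp) hne, p6 _ (by simp) (by simp) (by simp),
        g1o _ (by simp) (by simp) hne, i6 j (by omega)]

/-- the laws of the output -/
noncomputable def tlo (α β : ℝ) : ℕ ⊕ ℕ ⊕ Unit → Measure ℝ :=
  Sum.elim (fun _ => bE α) (Sum.elim (fun _ => bE β) (fun _ => KG α β))

instance (α β : ℝ) (l : ℕ ⊕ ℕ ⊕ Unit) : IsProbabilityMeasure (tlo α β l) := by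
  unfold tlo
  infer_instance

theorem ts_law {α β : ℝ} (h0 : 0 < β) (h1 : β < α) (h2 : α < 1) (n i0 : ℕ) :
    ∃ Ψ : TSx → (ℕ → ℝ) × (ℕ → ℝ) × ℝ,
      MeasurePreserving Ψ (muTS α β) ((bI α).prod ((bI β).prod (KG α β))) ∧
      ∀ x : TSx, TSnn x →
          (∀ i, i0 < i → (tsRow x n).1 i = (Ψ x).1 i ∧ (tsRow x n).2.1 i = (Ψ x).2.1 i) ∧
          (∀ i, 1 ≤ i → i ≤ i0 →
            rowD (tsRow x n).1 (tsRow x n).2.1 (tsRow x n).2.2 i = (Ψ x).2.1 i ∧
            (tsRow x n).1 i = min ((Ψ x).2.1 i)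
              (rowK (tsRow x n).1 (tsRow x n).2.1 (tsRow x n).2.2 i) ∧
            rowK (tsRow x n).1 (tsRow x n).2.1 (tsRow x n).2.2 (i - 1) =
              (Ψ x).1 i + max (rowK (tsRow x n).1 (tsRow x n).2.1
                (tsRow x n).2.2 i - (Ψ x).2.1 i) 0) ∧
          rowK (tsRow x n).1 (tsRow x n).2.1 (tsRow x n).2.2 i0 = (Ψ x).2.2 := by
  have hα : 0 < α := by linarith
  obtain ⟨gq0, gq1, -⟩ := gap_quot h0.le h1 h2.le
  have gβ := gap_pos h0.le (h1.le.trans h2.le)
  have lβ : gap β < 1 := gap_lt h0 (by linarith)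
  have e1 : gap β * (gap α / gap β) = gap α := by
    rw [mul_div_assoc', mul_comm, mul_div_assoc, div_self gβ.ne', mul_one]
  set K : TSx → ℕ → ℝ := fun x =>
    rowK (tsRow x n).1 (tsRow x n).2.1 (tsRow x n).2.2 with hK
  set D : TSx → ℕ → ℝ := fun x =>
    rowD (tsRow x n).1 (tsRow x n).2.1 (tsRow x n).2.2 with hD
  set Ψ : TSx → (ℕ → ℝ) × (ℕ → ℝ) × ℝ := fun x =>
    (fun i => if 1 ≤ i ∧ i ≤ i0 then min ((tsRow x n).2.1 i) (K x (i - 1))
      else (tsRow x n).1 i,
     fun i => if i ≤ i0 then D x i else (tsRow x n).2.1 i,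
     K x i0) with hΨ
  refine ⟨Ψ, ?_, ?_⟩
  · -- measure preserving
    have key : MeasurePreserving (fun x => glueS ((Ψ x).1, glueS ((Ψ x).2.1, fun _ : Unit =>
        (Ψ x).2.2))) (muTS α β) (Measure.infinitePi (tlo α β)) := by
      apply mp_localG
      intro s
      obtain ⟨N, hN1, hN2, hN3⟩ : ∃ N : ℕ, (∀ j : ℕ, (Sum.inl j : ℕ ⊕ ℕ ⊕ Unit) ∈ s → j ≤ N) ∧
          (∀ j : ℕ, (Sum.inr (Sum.inl j) : ℕ ⊕ ℕ ⊕ Unit) ∈ s → j ≤ N) ∧ i0 ≤ N := by
        refine ⟨(s.toLeft).sup id ⊔ ((s.toRight.toLeft).sup id ⊔ i0), fun j hj => ?_,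
          fun j hj => ?_, le_trans le_sup_right le_sup_right⟩
        · exact le_trans (Finset.le_sup (f := id) (by simpa using hj)) le_sup_left
        · exact le_trans (Finset.le_sup (f := id) (by simpa using hj))
            (le_trans le_sup_left le_sup_right)
      set f : ℕ ⊕ ℕ ⊕ Unit → TI := Sum.elim iA (Sum.elim iB (fun _ => iK)) with hf
      have hfi : Function.Injective f := by
        rintro (a | a | a) (b | b | b) h <;> simp_all
      have hM : MeasurePreserving (qMoves iB iA iK i0) (Measure.infinitePi (tl α β))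
          (Measure.infinitePi (tl α β)) := by
        refine qMoves_mp (tl α β) gβ lβ gq0 gq1 (by simp) (by simp) (by simp) ?_ ?_ ?_ i0
        · intro i _
          rfl
        · rfl
        · intro i _
          rw [e1]
          rfl
      have hsub := sub_mp' (tl α β) f hfi
      rw [inf_congr (μ := fun b => tl α β (f b)) (ν := tlo α β) (by
        funext l
        rcases l with l | l | l <;> rfl)] at hsub
      refine ⟨_, hsub.comp (hM.comp ((rMovesG_mp h0 h1 h2 N n).comp (ofTS_mp' α β))), ?_⟩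
      intro x l hl
      obtain ⟨s1, s2, s3, -, -, -⟩ := rMovesG_spec N n x
      simp only [Function.comp_apply]
      set g := rMovesG N n (ofTS x) with hg
      obtain ⟨q1, q2, q3, q4, q5, -⟩ := qMoves_spec (p := iB) (q := iA) (k := iK)
        (fun a b h => by simpa using h) (fun a b h => by simpa using h)
        (by simp) (by simp) (by simp) i0 g (fun i => g (iA i))
        (fun i => g (iB i)) (g iK) (fun _ => rfl) (fun _ => rfl) rfl
      have cK : ∀ i, i ≤ N → rowK (fun i => g (iA i)) (fun i => g (iB i))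
          (g iK) i = K x i := by
        intro i hi
        rw [s3]
        exact rowK_congr (fun k _ hk => s1 k hk) (fun k _ hk => s2 k hk) i hi
      have cD : ∀ i, i ≤ N → rowD (fun i => g (iA i)) (fun i => g (iB i))
          (g iK) i = D x i := by
        intro i hi
        rw [s3]
        exact rowD_congr (fun k _ hk => s1 k hk) (fun k hk => s2 k hk) i hi
      rcases l with (i | i | u)
      · have hi := hN1 i hl
        simp only [glueS, Sum.elim_inl, hf, hΨ]
        by_cases h : 1 ≤ i ∧ i ≤ i0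
        · rw [if_pos h, q3 i h.1 h.2, s2 i hi, cK _ (by omega)]
        · rw [if_neg h, q4 i (by omega), s1 i hi]
      · have hi := hN2 i hl
        simp only [glueS, Sum.elim_inl, Sum.elim_inr, hf, hΨ]
        by_cases h : i ≤ i0
        · rw [if_pos h, q1 i h, cD i hi]
        · rw [if_neg h, q2 i (by omega), s2 i hi]
      · simp only [glueS, Sum.elim_inr, hf, hΨ]
        rw [q5, cK i0 hN3]
    have d1 : MeasurePreserving (splitS : (ℕ ⊕ ℕ ⊕ Unit → ℝ) → (ℕ → ℝ) × (ℕ ⊕ Unit → ℝ))
        (Measure.infinitePi (tlo α β)) ((bI α).prod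
          (Measure.infinitePi (Sum.elim (fun _ : ℕ => bE β) (fun _ : Unit => KG α β)))) :=
      split_mp (fun _ : ℕ => bE α) (Sum.elim (fun _ : ℕ => bE β) (fun _ : Unit => KG α β))
    have d2 := (MeasurePreserving.id (bI α)).prod
      (split_mp (fun _ : ℕ => bE β) (fun _ : Unit => KG α β))
    have d3 := (MeasurePreserving.id (bI α)).prod
      ((MeasurePreserving.id (bI β)).prod (unit_mpG' (KG α β)))
    exact (d3.comp (d2.comp d1)).comp key
  · intro x _
    refine ⟨?_, ?_, ?_⟩
    · intro i hi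
      constructor
      · simp only [hΨ]
        rw [if_neg (by omega)]
      · simp only [hΨ]
        rw [if_neg (by omega)]
    · intro i hi1 hi2
      have hA : (Ψ x).1 i = min ((tsRow x n).2.1 i) (K x (i - 1)) := by
        simp only [hΨ]
        rw [if_pos ⟨hi1, hi2⟩]
      have hB : (Ψ x).2.1 i = D x i := by
        simp only [hΨ]
        rw [if_pos hi2]
      have eD : D x i = (tsRow x n).1 i + max ((tsRow x n).2.1 i - K x (i - 1)) 0 := by
        simp only [hD, rowD]
        rw [if_neg (by omega)]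
      have eKi : K x i = (tsRow x n).1 i + max (K x (i - 1) - (tsRow x n).2.1 i) 0 := by
        obtain ⟨k, rfl⟩ : ∃ k, i = k + 1 := ⟨i - 1, by omega⟩
        rfl
      have hinv := burke_invol ((tsRow x n).2.1 i) (K x (i - 1)) ((tsRow x n).1 i)
      refine ⟨hB.symm, ?_, ?_⟩
      · rw [hB]
        change (tsRow x n).1 i = min (D x i) (K x i)
        rw [eD, eKi]
        exact hinv.1
      · rw [hB, hA]
        change K x (i - 1) = min ((tsRow x n).2.1 i) (K x (i - 1)) + max (K x i - D x i) 0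
        rw [eD, eKi]
        exact hinv.2
    · rfl

end BGG
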