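import Pool.Agent.BGG.TSLaw
import Pool.Agent.BGE.TSMain

/-!
BGG / B7. The two-slope coupling in terms of passage times. Adaptation of
`Pool/Agent/BGE/TSMain.lean` without the scalings: replace `x.2.1 i / α` by `x.2.1 i` etc. (the
deterministic theorems `grid_one`, `grid_two` of BGE are used without change).
-/

namespace BGG

open MeasureTheory ProbabilityTheory BGE

variable [GeoPar]

theorem ts_main {α β : ℝ} (h0 : 0 < β) (h1 : β < α) (h2 : α < 1) (n i0 : ℕ) :
    ∃ Ψ : TSx → (ℕ → ℝ) × (ℕ → ℝ) × ℝ,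
      MeasurePreserving Ψ (muTS α β) ((bI α).prod ((bI β).prod (KG α β))) ∧
      ∀ x : TSx, TSnn x →
          (∀ i : ℕ, i0 < i → L1 x ((i : ℤ), (n : ℤ)) - L1 x ((i : ℤ) - 1, (n : ℤ)) =
            (Ψ x).1 i) ∧
          (∀ i : ℕ, 1 ≤ i → i ≤ i0 →
            L2 x ((i : ℤ), (n : ℤ)) - L2 x ((i : ℤ) - 1, (n : ℤ)) = (Ψ x).2.1 i) ∧
          (∀ i : ℕ, 1 ≤ i → L1 x ((i : ℤ), (n : ℤ)) - L1 x ((i : ℤ) - 1, (n : ℤ)) ≤
            L2 x ((i : ℤ), (n : ℤ)) - L2 x ((i : ℤ) - 1, (n : ℤ))) ∧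
          (∀ k : ℕ, i0 < k →
            (∀ i, i0 < i → i ≤ k → (∑ u ∈ Finset.Ioc i0 i, (Ψ x).2.1 u) -
              (∑ u ∈ Finset.Ioo i0 i, (Ψ x).1 u) ≤ (Ψ x).2.2) →
            ∀ i : ℕ, i0 < i → i ≤ k →
              L2 x ((i : ℤ), (n : ℤ)) - L2 x ((i : ℤ) - 1, (n : ℤ)) = (Ψ x).1 i) ∧
          (∀ k : ℕ, k < i0 →
            (∀ i, k < i → i ≤ i0 → (∑ u ∈ Finset.Icc i i0, (Ψ x).2.1 u) -
              (∑ u ∈ Finset.Ioc i i0, (Ψ x).1 u) ≤ (Ψ x).2.2) →
            ∀ i : ℕ, k < i → i ≤ i0 →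
              L1 x ((i : ℤ), (n : ℤ)) - L1 x ((i : ℤ) - 1, (n : ℤ)) = (Ψ x).2.1 i)
      := by
  obtain ⟨Ψ, hΨ, h⟩ := ts_law h0 h1 h2 n i0
  refine ⟨Ψ, hΨ, fun x hx => ?_⟩
  obtain ⟨ha, hb, hc⟩ := h x hx
  obtain ⟨hx1, hx2, hx3, hx4, hx5, hx6⟩ := hx
  -- the increments
  have e1 : ∀ i : ℕ, 1 ≤ i → L1 x ((i : ℤ), (n : ℤ)) - L1 x ((i : ℤ) - 1, (n : ℤ)) =
      (tsRow x n).1 i := fun i hi => grid_one _ _ _ _ _ _ n i hi
  have e2 : ∀ i : ℕ, 1 ≤ i → L2 x ((i : ℤ), (n : ℤ)) - L2 x ((i : ℤ) - 1, (n : ℤ)) =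
      rowD (tsRow x n).1 (tsRow x n).2.1 (tsRow x n).2.2 i := fun i hi =>
    grid_two _ _ _ _ _ _ hx1 hx2 hx3 hx6 hx4 hx5 n i hi
  have hD : ∀ i : ℕ, 1 ≤ i → rowD (tsRow x n).1 (tsRow x n).2.1 (tsRow x n).2.2 i =
      (tsRow x n).1 i + max ((tsRow x n).2.1 i -
        rowK (tsRow x n).1 (tsRow x n).2.1 (tsRow x n).2.2 (i - 1)) 0 := by
    intro i hi
    unfold rowD
    rw [if_neg (by omega)]
  refine ⟨?_, ?_, ?_, ?_, ?_⟩
  · intro i hi
    rw [e1 i (by omega), (ha i hi).1]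
  · intro i hi hi'
    rw [e2 i hi, (hb i hi hi').1]
  · intro i hi
    rw [e1 i hi, e2 i hi, hD i hi]
    linarith [le_max_right ((tsRow x n).2.1 i -
      rowK (tsRow x n).1 (tsRow x n).2.1 (tsRow x n).2.2 (i - 1)) 0]
  · intro k hk hyp
    have hK : ∀ j : ℕ, i0 + j ≤ k →
        rowK (tsRow x n).1 (tsRow x n).2.1 (tsRow x n).2.2 (i0 + j) =
          (Ψ x).2.2 + ((∑ u ∈ Finset.Ioc i0 (i0 + j), (Ψ x).1 u) -
            ∑ u ∈ Finset.Ioc i0 (i0 + j), (Ψ x).2.1 u) := by
      intro j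
      induction j with
      | zero =>
        intro _
        rw [add_zero, Finset.Ioc_self, Finset.sum_empty, Finset.sum_empty, sub_zero, add_zero]
        exact hc
      | succ j ih =>
        intro hj
        have ih' := ih (by omega)
        have hy := hyp (i0 + j + 1) (by omega) (by omega)
        have hI : Finset.Ioo i0 (i0 + j + 1) = Finset.Ioc i0 (i0 + j) := by
          ext u
          simp only [Finset.mem_Ioo, Finset.mem_Ioc]
          omega
        have hI2 : Finset.Ioc i0 (i0 + j + 1) = insert (i0 + j + 1) (Finset.Ioc i0 (i0 + j)) := by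
          ext u
          simp only [Finset.mem_insert, Finset.mem_Ioc]
          omega
        have hn : i0 + j + 1 ∉ Finset.Ioc i0 (i0 + j) := by
          simp only [Finset.mem_Ioc]
          omega
        rw [hI, hI2, Finset.sum_insert hn] at hy
        change rowK (tsRow x n).1 (tsRow x n).2.1 (tsRow x n).2.2 (i0 + j + 1) = _
        change (tsRow x n).1 (i0 + j + 1) + max (rowK (tsRow x n).1 (tsRow x n).2.1
          (tsRow x n).2.2 (i0 + j) - (tsRow x n).2.1 (i0 + j + 1)) 0 = _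
        rw [show i0 + (j + 1) = i0 + j + 1 from rfl, hI2, Finset.sum_insert hn,
          Finset.sum_insert hn, ih', (ha (i0 + j + 1) (by omega)).1,
          (ha (i0 + j + 1) (by omega)).2, max_eq_left (by linarith)]
        ring
    intro i hi hik
    obtain ⟨j, rfl⟩ : ∃ j, i = i0 + j + 1 := ⟨i - i0 - 1, by omega⟩
    have h5 := hK j (by omega)
    have hy := hyp (i0 + j + 1) (by omega) (by omega)
    have hI : Finset.Ioo i0 (i0 + j + 1) = Finset.Ioc i0 (i0 + j) := by
      ext u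
      simp only [Finset.mem_Ioo, Finset.mem_Ioc]
      omega
    have hI2 : Finset.Ioc i0 (i0 + j + 1) = insert (i0 + j + 1) (Finset.Ioc i0 (i0 + j)) := by
      ext u
      simp only [Finset.mem_insert, Finset.mem_Ioc]
      omega
    have hn : i0 + j + 1 ∉ Finset.Ioc i0 (i0 + j) := by
      simp only [Finset.mem_Ioc]
      omega
    rw [hI, hI2, Finset.sum_insert hn] at hy
    rw [e2 _ (by omega), hD _ (by omega), Nat.add_sub_cancel, h5, (ha _ hi).1, (ha _ hi).2,
      max_eq_right (by linarith), add_zero]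
  · intro k hk hyp
    have hK : ∀ j : ℕ, j + k ≤ i0 →
        rowK (tsRow x n).1 (tsRow x n).2.1 (tsRow x n).2.2 (i0 - j) =
          (Ψ x).2.2 + ((∑ u ∈ Finset.Ioc (i0 - j) i0, (Ψ x).1 u) -
            ∑ u ∈ Finset.Ioc (i0 - j) i0, (Ψ x).2.1 u) := by
      intro j
      induction j with
      | zero =>
        intro _
        rw [Nat.sub_zero, Finset.Ioc_self, Finset.sum_empty, Finset.sum_empty, sub_zero, add_zero]
        exact hc
      | succ j ih =>
        intro hj
        have ih' := ih (by omega)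
        have hy := hyp (i0 - j) (by omega) (by omega)
        have hI : Finset.Icc (i0 - j) i0 = insert (i0 - j) (Finset.Ioc (i0 - j) i0) := by
          ext u
          simp only [Finset.mem_insert, Finset.mem_Ioc, Finset.mem_Icc]
          omega
        have hI2 : Finset.Ioc (i0 - (j + 1)) i0 = insert (i0 - j) (Finset.Ioc (i0 - j) i0) := by
          ext u
          simp only [Finset.mem_insert, Finset.mem_Ioc]
          omega
        have hn : i0 - j ∉ Finset.Ioc (i0 - j) i0 := by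
          simp only [Finset.mem_Ioc]
          omega
        rw [hI, Finset.sum_insert hn] at hy
        obtain ⟨_, _, h6⟩ := hb (i0 - j) (by omega) (by omega)
        rw [show i0 - (j + 1) = i0 - j - 1 by omega, h6, ← show i0 - (j + 1) = i0 - j - 1 by omega,
          hI2, Finset.sum_insert hn, Finset.sum_insert hn, ih', max_eq_left (by linarith)]
        ring
    intro i hi hik
    obtain ⟨j, rfl⟩ : ∃ j, i = i0 - j := ⟨i0 - i, by omega⟩
    have h5 := hK (i0 - (i0 - j)) (by omega)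
    rw [show i0 - (i0 - (i0 - j)) = i0 - j by omega] at h5
    have hy := hyp (i0 - j) (by omega) (by omega)
    have hI : Finset.Icc (i0 - j) i0 = insert (i0 - j) (Finset.Ioc (i0 - j) i0) := by
      ext u
      simp only [Finset.mem_insert, Finset.mem_Ioc, Finset.mem_Icc]
      omega
    have hn : i0 - j ∉ Finset.Ioc (i0 - j) i0 := by
      simp only [Finset.mem_Ioc]
      omega
    rw [hI, Finset.sum_insert hn] at hy
    rw [e1 _ (by omega), (hb _ (by omega) (by omega)).2.1, h5, min_eq_left (by linarith)]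

end BGG
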