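import Pool.Agent.BGG.TSMoves

/-!
BGG / B6. The two-slope coupling: laws of the two systems. Adaptation of
`Pool/Agent/BGE/TSMap.lean` without the scalings.

`map_b1`: `(z j, κ_{j-1}, j2 j)` have the ratios `gap (1-α), gap α/gap β, gap (1-β)`; after the move
`(J1 j, κ_j, min)` have the same ratios and are independent; so `w1` is i.i.d. with law `bE (1-α)`,
independent of `y1` and of the bulk. `map_b2`: along the bottom row `(y2 i, K_{i-1}, y1 i)` have
the ratios `gap β, gap α/gap β, gap α`.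
-/

namespace BGG

open MeasureTheory ProbabilityTheory BGE

variable [GeoPar]

/-- the laws of the three families -/
noncomputable def tlm (ρ σ : ℝ) : (ℤ × ℤ) ⊕ ℕ ⊕ ℕ → Measure ℝ :=
  Sum.elim (fun _ => EG) (Sum.elim (fun _ => bE ρ) (fun _ => bE σ))

instance (ρ σ : ℝ) (l : (ℤ × ℤ) ⊕ ℕ ⊕ ℕ) : IsProbabilityMeasure (tlm ρ σ l) := by
  unfold tlm
  infer_instance

/-- from a map into one family to a map into `SW` -/
theorem SWG_of {X : Type*} [MeasurableSpace X] {μ : Measure X} {ρ σ : ℝ}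
    (F : X → (ℤ × ℤ → ℝ) × (ℕ → ℝ) × (ℕ → ℝ))
    (h : MeasurePreserving (fun x => glueS ((F x).1, glueS (F x).2)) μ
      (Measure.infinitePi (tlm ρ σ))) :
    MeasurePreserving F μ (PG.prod ((bI ρ).prod (bI σ))) := by
  have h1 : MeasurePreserving (splitS : ((ℤ × ℤ) ⊕ ℕ ⊕ ℕ → ℝ) → (ℤ × ℤ → ℝ) × (ℕ ⊕ ℕ → ℝ))
      (Measure.infinitePi (tlm ρ σ)) (PG.prod
        (Measure.infinitePi (Sum.elim (fun _ : ℕ => bE ρ) (fun _ : ℕ => bE σ)))) :=
    split_mp (fun _ : ℤ × ℤ => EG) (Sum.elim (fun _ : ℕ => bE ρ) (fun _ : ℕ => bE σ))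
  have h2 := (MeasurePreserving.id PG).prod
    (split_mp (fun _ : ℕ => bE ρ) (fun _ : ℕ => bE σ))
  exact (h2.comp h1).comp h

theorem map_b1 {α β : ℝ} (h0 : 0 < β) (h1 : β < α) (h2 : α < 1) :
    MeasurePreserving (fun x : TSx => (x.1, s1 x, w1 x)) (muTS α β)
      (PG.prod ((bI α).prod (bI (1 - α)))) := by
  have hα : 0 < α := by linarith
  obtain ⟨gq0, gq1, -⟩ := gap_quot h0.le h1 h2.le
  have gβ := gap_pos h0.le (h1.le.trans h2.le)
  have gα' : 0 < gap (1 - α) := gap_pos (by linarith) (by linarith)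
  have lα' : gap (1 - α) < 1 := gap_lt (by linarith) (by linarith)
  have eα : gap α * gap (1 - α) = GeoPar.q := gap_mul hα.le h2.le
  have eβ : gap β * gap (1 - β) = GeoPar.q := gap_mul h0.le (by linarith)
  have e1 : gap (1 - α) * (gap α / gap β) = gap (1 - β) := by
    rw [mul_div_assoc', div_eq_iff gβ.ne']
    linarith
  apply SWG_of
  apply mp_localG
  intro s
  obtain ⟨N, hN⟩ : ∃ N : ℕ, ∀ j : ℕ, (Sum.inr (Sum.inr j) : (ℤ × ℤ) ⊕ ℕ ⊕ ℕ) ∈ s → j ≤ N := by
    refine ⟨(s.toRight.toRight).sup id, fun j hj => ?_⟩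
    exact Finset.le_sup (f := id) (by simpa using hj)
  set f : (ℤ × ℤ) ⊕ ℕ ⊕ ℕ → TI := Sum.elim iW (Sum.elim iA iZ) with hf
  have hfi : Function.Injective f := by
    rintro (a | a | a) (b | b | b) h <;> simp_all
  have hM : MeasurePreserving (qMoves iZ iJ iK N) (Measure.infinitePi (tl α β))
      (Measure.infinitePi (tl α β)) := by
    refine qMoves_mp (tl α β) gα' lα' gq0 gq1 (by simp) (by simp) (by simp) ?_ ?_ ?_ N
    · intro i _
      rfl
    · rfl
    · intro i _
      rw [e1]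
      rfl
  have hsub := sub_mp' (tl α β) f hfi
  rw [inf_congr (μ := fun b => tl α β (f b)) (ν := tlm α (1 - α)) (by
    funext l
    rcases l with l | l | l <;> rfl)] at hsub
  refine ⟨_, hsub.comp (hM.comp (ofTS_mp' α β)), ?_⟩
  intro x l hl
  have hspec := qMoves_spec (p := iZ) (q := iJ) (k := iK)
    (fun a b h => by simpa using h) (fun a b h => by simpa using h)
    (by simp) (by simp) (by simp) N (ofTS x) x.2.2.2.2.1
    x.2.2.2.1 x.2.2.2.2.2 (fun _ => rfl) (fun _ => rfl) rfl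
  rcases l with (v | i | j)
  · simp only [glueS, Sum.elim_inl, Function.comp_apply, hf]
    rw [hspec.2.2.2.2.2 (iW v) (by simp) (by simp) (by simp), ofTS_W]
  · simp only [glueS, Sum.elim_inl, Sum.elim_inr, Function.comp_apply, hf]
    rw [hspec.2.2.2.2.2 (iA i) (by simp) (by simp) (by simp), ofTS_A]
    rfl
  · simp only [glueS, Sum.elim_inr, Function.comp_apply, hf]
    rw [hspec.1 j (hN j hl)]
    unfold w1
    rw [colJ_eq]

theorem map_b2 {α β : ℝ} (h0 : 0 < β) (h1 : β < α) (h2 : α < 1) :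
    MeasurePreserving (fun x : TSx => (x.1, s2 x, w2 x)) (muTS α β)
      (PG.prod ((bI β).prod (bI (1 - β)))) := by
  obtain ⟨gq0, gq1, -⟩ := gap_quot h0.le h1 h2.le
  have gβ := gap_pos h0.le (h1.le.trans h2.le)
  have lβ : gap β < 1 := gap_lt h0 (by linarith)
  have e1 : gap β * (gap α / gap β) = gap α := by
    rw [mul_div_assoc', mul_comm, mul_div_assoc, div_self gβ.ne', mul_one]
  apply SWG_of
  apply mp_localG
  intro s
  obtain ⟨N, hN⟩ : ∃ N : ℕ, ∀ j : ℕ, (Sum.inr (Sum.inl j) : (ℤ × ℤ) ⊕ ℕ ⊕ ℕ) ∈ s → j ≤ N := by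
    refine ⟨(s.toRight.toLeft).sup id, fun j hj => ?_⟩
    exact Finset.le_sup (f := id) (by simpa using hj)
  set f : (ℤ × ℤ) ⊕ ℕ ⊕ ℕ → TI := Sum.elim iW (Sum.elim iB iJ) with hf
  have hfi : Function.Injective f := by
    rintro (a | a | a) (b | b | b) h <;> simp_all
  have hM : MeasurePreserving (qMoves iB iA iK N) (Measure.infinitePi (tl α β))
      (Measure.infinitePi (tl α β)) := by
    refine qMoves_mp (tl α β) gβ lβ gq0 gq1 (by simp) (by simp) (by simp) ?_ ?_ ?_ N
    · intro i _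
      rfl
    · rfl
    · intro i _
      rw [e1]
      rfl
  have hsub := sub_mp' (tl α β) f hfi
  rw [inf_congr (μ := fun b => tl α β (f b)) (ν := tlm β (1 - β)) (by
    funext l
    rcases l with l | l | l <;> rfl)] at hsub
  refine ⟨_, hsub.comp (hM.comp (ofTS_mp' α β)), ?_⟩
  intro x l hl
  have hspec := qMoves_spec (p := iB) (q := iA) (k := iK)
    (fun a b h => by simpa using h) (fun a b h => by simpa using h)
    (by simp) (by simp) (by simp) N (ofTS x) x.2.1
    x.2.2.1 x.2.2.2.2.2 (fun _ => rfl) (fun _ => rfl) rfl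
  rcases l with (v | i | j)
  · simp only [glueS, Sum.elim_inl, Function.comp_apply, hf]
    rw [hspec.2.2.2.2.2 (iW v) (by simp) (by simp) (by simp), ofTS_W]
  · simp only [glueS, Sum.elim_inl, Sum.elim_inr, Function.comp_apply, hf]
    rw [hspec.1 i (hN i hl)]
    rfl
  · simp only [glueS, Sum.elim_inr, Function.comp_apply, hf]
    rw [hspec.2.2.2.2.2 (iJ j) (by simp) (by simp) (by simp), ofTS_J]
    rfl

end BGG
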