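import Pool.Agent.BGG.Burke
import Pool.Agent.BGE.TSMoves

/-!
BGG / B6 (tools). Local Burke moves inside infinite product laws; adaptation of
`Pool/Agent/BGE/TSMoves.lean` (there all the variables have rate one and the moves are normalised;
here the coordinates are the weights themselves and have different laws, so nothing is rescaled).

`move_inf`: the move in an infinite product of laws `μ l` with `μ i = geoM a`, `μ j = geoM b`,
`μ k = geoM (a b)`. Proof as for `BGE.moveN_PI`: it suffices to treat boxes depending on finitely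
many coordinates (`Measure.eq_infinitePi`), and on a finite index set containing `i, j, k` argue as in
`burke_move` (for general laws of the other coordinates: split off the three coordinates and use
`local_burke`; or prove first the finite version for general laws `μ l`, and deduce `burke_move`).
`glue_mp`, `split_mp`, `sub_mp'`: as in BGE for `glueS`, `splitS` (from BGE), `sub_mp`.
`qMoves`: the moves of a queue with arrivals in the coordinates `p n`, services in `q n`, state in
`k`; `qMoves_spec` as in BGE without the scalings.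
`tl α β`: the laws of the coordinates of `TI` (from BGE); `ofTS_mp'`.
-/

namespace BGG

open MeasureTheory ProbabilityTheory BGE
open scoped ENNReal

variable [GeoPar]

section
variable {ι : Type*} [DecidableEq ι]

omit [GeoPar] in
theorem gmove_i {i j k : ι} (hij : i ≠ j) (hik : i ≠ k) (x : ι → ℝ) :
    move i j k x i = x k + max (x i - x j) 0 := by
  unfold move
  rw [Function.update_of_ne hik, Function.update_of_ne hij, Function.update_self]

omit [GeoPar] in
theorem gmove_j {i j k : ι} (hjk : j ≠ k) (x : ι → ℝ) :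
    move i j k x j = x k + max (x j - x i) 0 := by
  unfold move
  rw [Function.update_of_ne hjk, Function.update_self]

omit [GeoPar] in
theorem gmove_k {i j k : ι} (x : ι → ℝ) : move i j k x k = min (x i) (x j) := by
  unfold move
  rw [Function.update_self]

omit [GeoPar] in
theorem gmove_ne {i j k l : ι} (hi : l ≠ i) (hj : l ≠ j) (hk : l ≠ k) (x : ι → ℝ) :
    move i j k x l = x l := by
  unfold move
  rw [Function.update_of_ne hk, Function.update_of_ne hj, Function.update_of_ne hi]

end

theorem move_inf {ι : Type*} [DecidableEq ι] (μ : ι → Measure ℝ)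
    [∀ l, IsProbabilityMeasure (μ l)] {a b : ℝ} (ha : 0 < a) (ha1 : a < 1) (hb : 0 < b)
    (hb1 : b < 1) {i j k : ι} (hij : i ≠ j) (hik : i ≠ k) (hjk : j ≠ k) (hi : μ i = geoM a)
    (hj : μ j = geoM b) (hk : μ k = geoM (a * b)) :
    MeasurePreserving (move i j k) (Measure.infinitePi μ) (Measure.infinitePi μ) := by
  classical
  refine ⟨measurable_move i j k, ?_⟩
  apply Measure.eq_infinitePi
  intro s t ht
  set s' : Finset ι := insert i (insert j (insert k s)) with hs'
  have hi' : i ∈ s' := by simp [hs']
  have hj' : j ∈ s' := by simp [hs']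
  have hk' : k ∈ s' := by simp [hs']
  have hss : s ⊆ s' := by
    intro l hl
    simp [hs', hl]
  have hbox : MeasurableSet (Set.pi (s : Set ι) t) :=
    MeasurableSet.pi s.countable_toSet (fun l _ => ht l)
  rw [Measure.map_apply (measurable_move i j k) hbox]
  -- the finite move
  set mv : (s' → ℝ) → (s' → ℝ) := move ⟨i, hi'⟩ ⟨j, hj'⟩ ⟨k, hk'⟩ with hmv
  have hmp : MeasurePreserving mv (Measure.pi fun l : s' => μ l) (Measure.pi fun l : s' => μ l) := by
    refine burke_move_gen (fun l : s' => μ l) (fun h => hij (congrArg Subtype.val h))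
      (fun h => hik (congrArg Subtype.val h)) (fun h => hjk (congrArg Subtype.val h)) ?_
    simp only [hi, hj, hk]
    exact local_burke ha ha1 hb hb1
  set B : Set (s' → ℝ) := {y | ∀ l : s', (l : ι) ∈ s → y l ∈ t l} with hB
  have hBm : MeasurableSet B := by
    have : B = ⋂ l : s', {y | (l : ι) ∈ s → y l ∈ t l} := by
      ext y
      simp [hB]
    rw [this]
    apply MeasurableSet.iInter
    intro l
    by_cases hl : (l : ι) ∈ s
    · simp only [hl, true_imp_iff]
      exact (measurable_pi_apply l) (ht l)
    · simp only [hl, false_imp_iff]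
      exact MeasurableSet.univ
  have hrest : ∀ x : ι → ℝ, s'.restrict (move i j k x) = mv (s'.restrict x) := by
    intro x
    funext l
    simp only [Finset.restrict, hmv]
    by_cases hk : (l : ι) = k
    · have : l = ⟨k, hk'⟩ := Subtype.ext hk
      subst this
      rw [gmove_k, gmove_k]
      rfl
    by_cases hj : (l : ι) = j
    · have : l = ⟨j, hj'⟩ := Subtype.ext hj
      subst this
      rw [gmove_j hjk, gmove_j (fun h => hjk (congrArg Subtype.val h))]
      rfl
    by_cases hi : (l : ι) = i
    · have : l = ⟨i, hi'⟩ := Subtype.ext hi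
      subst this
      rw [gmove_i hij hik, gmove_i (fun h => hij (congrArg Subtype.val h))
        (fun h => hik (congrArg Subtype.val h))]
      rfl
    rw [gmove_ne hi hj hk, gmove_ne (fun h => hi (congrArg Subtype.val h))
      (fun h => hj (congrArg Subtype.val h)) (fun h => hk (congrArg Subtype.val h))]
    rfl
  have hpre : move i j k ⁻¹' Set.pi (s : Set ι) t = s'.restrict ⁻¹' (mv ⁻¹' B) := by
    ext x
    simp only [Set.mem_preimage, ← hrest, hB, Set.mem_ofPred_eq, Set.mem_pi, Finset.mem_coe]
    constructor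
    · intro h l hl
      exact h l hl
    · intro h l hl
      exact h ⟨l, hss hl⟩ hl
  have hpre2 : Set.pi (s : Set ι) t = s'.restrict ⁻¹' B := by
    ext x
    simp only [Set.mem_preimage, hB, Set.mem_ofPred_eq, Set.mem_pi, Finset.mem_coe]
    constructor
    · intro h l hl
      exact h l hl
    · intro h l hl
      exact h ⟨l, hss hl⟩ hl
  rw [hpre, ← Measure.map_apply (Finset.measurable_restrict s') (hmp.measurable hBm),
    Measure.infinitePi_map_restrict, hmp.measure_preimage hBm.nullMeasurableSet,
    ← Measure.infinitePi_map_restrict (μ := μ),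
    Measure.map_apply (Finset.measurable_restrict s') hBm, ← hpre2,
    Measure.infinitePi_pi _ (fun l _ => ht l)]

omit [GeoPar] in
theorem glue_mp {A B : Type*} (μ : A → Measure ℝ) (ν : B → Measure ℝ)
    [∀ l, IsProbabilityMeasure (μ l)] [∀ l, IsProbabilityMeasure (ν l)]
    [∀ l, IsProbabilityMeasure (Sum.elim μ ν l)] :
    MeasurePreserving (glueS : (A → ℝ) × (B → ℝ) → A ⊕ B → ℝ)
      ((Measure.infinitePi μ).prod (Measure.infinitePi ν))
      (Measure.infinitePi (Sum.elim μ ν)) := by
  classical
  have hm : Measurable (glueS : (A → ℝ) × (B → ℝ) → A ⊕ B → ℝ) := by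
    rw [measurable_pi_iff]
    rintro (i | i)
    · change Measurable fun x : (A → ℝ) × (B → ℝ) => x.1 i
      fun_prop
    · change Measurable fun x : (A → ℝ) × (B → ℝ) => x.2 i
      fun_prop
  refine ⟨hm, ?_⟩
  apply Measure.eq_infinitePi
  intro s t ht
  have hbox : MeasurableSet (Set.pi (s : Set (A ⊕ B)) t) :=
    MeasurableSet.pi s.countable_toSet (fun l _ => ht l)
  rw [Measure.map_apply hm hbox]
  have e : glueS ⁻¹' Set.pi (s : Set (A ⊕ B)) t =
      (Set.pi (s.toLeft : Set A) (fun i => t (Sum.inl i))) ×ˢ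
        (Set.pi (s.toRight : Set B) (fun i => t (Sum.inr i))) := by
    ext x
    simp only [Set.mem_preimage, Set.mem_pi, Finset.mem_coe, Set.mem_prod, Finset.mem_toLeft,
      Finset.mem_toRight, Sum.forall, glueS, Sum.elim_inl, Sum.elim_inr]
  rw [e, Measure.prod_prod]
  rw [Measure.infinitePi_pi _ (fun l _ => ht _), Measure.infinitePi_pi _ (fun l _ => ht _)]
  conv_rhs => rw [← Finset.toLeft_disjSum_toRight (u := s)]
  rw [Finset.prod_disjSum]
  simp only [Sum.elim_inl, Sum.elim_inr]

omit [GeoPar] in
theorem split_mp {A B : Type*} (μ : A → Measure ℝ) (ν : B → Measure ℝ)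
    [∀ l, IsProbabilityMeasure (μ l)] [∀ l, IsProbabilityMeasure (ν l)]
    [∀ l, IsProbabilityMeasure (Sum.elim μ ν l)] :
    MeasurePreserving (splitS : (A ⊕ B → ℝ) → (A → ℝ) × (B → ℝ))
      (Measure.infinitePi (Sum.elim μ ν))
      ((Measure.infinitePi μ).prod (Measure.infinitePi ν)) := by
  refine ⟨measurable_splitS A B, ?_⟩
  rw [← (glue_mp μ ν).map_eq, Measure.map_map (measurable_splitS A B) (glue_mp μ ν).measurable]
  have : (splitS ∘ glueS : (A → ℝ) × (B → ℝ) → (A → ℝ) × (B → ℝ)) = id := by
    funext x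
    rfl
  rw [this, Measure.map_id]

omit [GeoPar] in
/-- restriction to a subfamily -/
theorem sub_mp' {A B : Type*} (μ : A → Measure ℝ) [∀ l, IsProbabilityMeasure (μ l)] (f : B → A)
    (hf : Function.Injective f) :
    MeasurePreserving (fun (x : A → ℝ) (b : B) => x (f b)) (Measure.infinitePi μ)
      (Measure.infinitePi fun b => μ (f b)) := by
  refine ⟨by fun_prop, ?_⟩
  classical
  apply Measure.eq_infinitePi
  intro s t ht
  have hbox : MeasurableSet (Set.pi (s : Set B) t) :=
    MeasurableSet.pi s.countable_toSet (fun l _ => ht l)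
  rw [Measure.map_apply (by fun_prop) hbox]
  set t' : A → Set ℝ := fun a => ⋂ b : s, {u | f b = a → u ∈ t b} with ht'
  have ht'm : ∀ a, MeasurableSet (t' a) := by
    intro a
    apply MeasurableSet.iInter
    intro b
    by_cases hb : f b = a
    · simp only [hb, true_imp_iff]
      exact ht b
    · simp only [hb, false_imp_iff]
      exact MeasurableSet.univ
  have ht'b : ∀ b ∈ s, t' (f b) = t b := by
    intro b hb
    ext u
    simp only [ht', Set.mem_iInter, Set.mem_ofPred_eq]
    constructor
    · intro h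
      exact h ⟨b, hb⟩ rfl
    · intro h b' hb'
      have : (b' : B) = b := hf hb'
      rw [this]
      exact h
  have e : (fun (x : A → ℝ) (b : B) => x (f b)) ⁻¹' Set.pi (s : Set B) t =
      Set.pi ((s.image f : Finset A) : Set A) t' := by
    ext x
    simp only [Set.mem_preimage, Set.mem_pi, Finset.mem_coe, Finset.mem_image]
    constructor
    · rintro h a ⟨b, hb, rfl⟩
      rw [ht'b b hb]
      exact h b hb
    · intro h b hb
      rw [← ht'b b hb]
      exact h (f b) ⟨b, hb, rfl⟩
  rw [e, Measure.infinitePi_pi _ (fun l _ => ht'm _), Finset.prod_image (fun _ _ _ _ h => hf h)]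
  apply Finset.prod_congr rfl
  intro b hb
  rw [ht'b b hb]

/-- the laws of the coordinates of the two-slope space -/
noncomputable def tl (α β : ℝ) : TI → Measure ℝ
  | Sum.inl _ => EG
  | Sum.inr (Sum.inl _) => bE α
  | Sum.inr (Sum.inr (Sum.inl _)) => bE β
  | Sum.inr (Sum.inr (Sum.inr (Sum.inl _))) => bE (1 - α)
  | Sum.inr (Sum.inr (Sum.inr (Sum.inr (Sum.inl _)))) => bE (1 - β)
  | Sum.inr (Sum.inr (Sum.inr (Sum.inr (Sum.inr _)))) => KG α β

instance (α β : ℝ) (l : TI) : IsProbabilityMeasure (tl α β l) := by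
  rcases l with l | l | l | l | l | l <;> simp only [tl] <;> infer_instance

omit [GeoPar] in
theorem unit_mpG (ν : Measure ℝ) [IsProbabilityMeasure ν] :
    MeasurePreserving (fun (u : ℝ) (_ : Unit) => u) ν (Measure.infinitePi fun _ : Unit => ν) := by
  classical
  refine ⟨by fun_prop, ?_⟩
  apply Measure.eq_infinitePi
  intro s t ht
  have hbox : MeasurableSet (Set.pi (s : Set Unit) t) :=
    MeasurableSet.pi s.countable_toSet (fun l _ => ht l)
  rw [Measure.map_apply (by fun_prop) hbox]
  by_cases hs : s = ∅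
  · subst hs
    simp
  · have : s = {()} := by
      obtain ⟨u, hu⟩ := Finset.nonempty_iff_ne_empty.mpr hs
      ext v
      cases v
      cases u
      simpa using hu
    subst this
    rw [Finset.prod_singleton]
    congr 1
    ext x
    simp

omit [GeoPar] in
theorem unit_mpG' (ν : Measure ℝ) [IsProbabilityMeasure ν] :
    MeasurePreserving (fun x : Unit → ℝ => x ()) (Measure.infinitePi fun _ : Unit => ν) ν := by
  refine ⟨by fun_prop, ?_⟩
  rw [← (unit_mpG ν).map_eq, Measure.map_map (by fun_prop) (by fun_prop)]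
  have : ((fun x : Unit → ℝ => x ()) ∘ fun (u : ℝ) (_ : Unit) => u) = id := by
    funext u
    rfl
  rw [this, Measure.map_id]

omit [GeoPar] in
/-- a map is measure preserving into a product if this holds for finitely many coordinates
at a time -/
theorem mp_localG {X κ : Type*} [MeasurableSpace X] {μ : Measure X} (ν : κ → Measure ℝ)
    [∀ l, IsProbabilityMeasure (ν l)] (F : X → κ → ℝ)
    (h : ∀ s : Finset κ, ∃ G : X → κ → ℝ, MeasurePreserving G μ (Measure.infinitePi ν) ∧
      ∀ x, ∀ i ∈ s, F x i = G x i) : MeasurePreserving F μ (Measure.infinitePi ν) := by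
  classical
  have hF : Measurable F := by
    rw [measurable_pi_iff]
    intro i
    obtain ⟨G, hG, hG2⟩ := h {i}
    have : (fun x => F x i) = fun x => G x i := by
      funext x
      exact hG2 x i (by simp)
    rw [this]
    exact (measurable_pi_apply i).comp hG.measurable
  refine ⟨hF, ?_⟩
  apply Measure.eq_infinitePi
  intro s t ht
  obtain ⟨G, hG, hG2⟩ := h s
  have hbox : MeasurableSet (Set.pi (s : Set κ) t) :=
    MeasurableSet.pi s.countable_toSet (fun l _ => ht l)
  rw [Measure.map_apply hF hbox]
  have e : F ⁻¹' Set.pi (s : Set κ) t = G ⁻¹' Set.pi (s : Set κ) t := by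
    ext x
    simp only [Set.mem_preimage, Set.mem_pi, Finset.mem_coe]
    constructor
    · intro h l hl
      rw [← hG2 x l hl]
      exact h l hl
    · intro h l hl
      rw [hG2 x l hl]
      exact h l hl
  rw [e, hG.measure_preimage hbox.nullMeasurableSet]
  rw [Measure.infinitePi_pi _ (fun l _ => ht l)]

omit [GeoPar] in
theorem inf_congr {A : Type*} {μ ν : A → Measure ℝ} [∀ l, IsProbabilityMeasure (μ l)]
    [∀ l, IsProbabilityMeasure (ν l)] (h : μ = ν) :
    Measure.infinitePi μ = Measure.infinitePi ν := by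
  subst h
  rfl

instance instSumElim {A B : Type*} (μ : A → Measure ℝ) (ν : B → Measure ℝ)
    [∀ l, IsProbabilityMeasure (μ l)] [∀ l, IsProbabilityMeasure (ν l)] (l : A ⊕ B) :
    IsProbabilityMeasure (Sum.elim μ ν l) := by
  rcases l with l | l <;> simp only [Sum.elim_inl, Sum.elim_inr] <;> infer_instance

theorem ofTS_mp' (α β : ℝ) : MeasurePreserving ofTS (muTS α β) (Measure.infinitePi (tl α β)) := by
  have h5 := (glue_mp (fun _ : ℕ => bE (1 - β)) (fun _ : Unit => KG α β)).comp
    ((MeasurePreserving.id (bI (1 - β))).prod (unit_mpG (KG α β)))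
  have h4 := (glue_mp (fun _ : ℕ => bE (1 - α)) _).comp
    ((MeasurePreserving.id (bI (1 - α))).prod h5)
  have h3 := (glue_mp (fun _ : ℕ => bE β) _).comp ((MeasurePreserving.id (bI β)).prod h4)
  have h2 := (glue_mp (fun _ : ℕ => bE α) _).comp ((MeasurePreserving.id (bI α)).prod h3)
  have h1 := (glue_mp (fun _ : ℤ × ℤ => EG) _).comp ((MeasurePreserving.id PG).prod h2)
  rw [inf_congr (ν := tl α β) (by
    funext l
    rcases l with l | l | l | l | l | l <;> rfl)] at h1
  exact h1

/-- the moves of a queue: arrivals in the coordinates `p n`, services in `q n`, state in `k` -/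
noncomputable def qMoves {ι : Type*} [DecidableEq ι] (p q : ℕ → ι) (k : ι) :
    ℕ → (ι → ℝ) → ι → ℝ
  | 0 => id
  | n + 1 => move (p (n + 1)) k (q (n + 1)) ∘ qMoves p q k n

section
variable {ι : Type*} [DecidableEq ι]

theorem qMoves_mp (μ : ι → Measure ℝ) [∀ l, IsProbabilityMeasure (μ l)] {a b : ℝ} (ha : 0 < a)
    (ha1 : a < 1) (hb : 0 < b) (hb1 : b < 1) {p q : ℕ → ι} {k : ι}
    (hpq : ∀ i j, p i ≠ q j) (hpk : ∀ i, p i ≠ k) (hqk : ∀ i, q i ≠ k)
    (hp : ∀ i, 1 ≤ i → μ (p i) = geoM a) (hk : μ k = geoM b)
    (hq : ∀ i, 1 ≤ i → μ (q i) = geoM (a * b)) (N : ℕ) :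
    MeasurePreserving (qMoves p q k N) (Measure.infinitePi μ) (Measure.infinitePi μ) := by
  induction N with
  | zero => exact MeasurePreserving.id _
  | succ n ih =>
    exact (move_inf μ ha ha1 hb hb1 (hpk _) (hpq _ _) (hqk _).symm (hp _ (by omega)) hk
      (hq _ (by omega))).comp ih

omit [GeoPar] in
theorem qMoves_spec {p q : ℕ → ι} {k : ι}
    (hp : Function.Injective p) (hq : Function.Injective q)
    (hpq : ∀ i j, p i ≠ q j) (hpk : ∀ i, p i ≠ k) (hqk : ∀ i, q i ≠ k) (N : ℕ) (x : ι → ℝ)
    (y1 y2 : ℕ → ℝ) (κ : ℝ) (h1 : ∀ i, y1 i = x (q i)) (h2 : ∀ i, y2 i = x (p i))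
    (h3 : κ = x k) :
    (∀ i, i ≤ N → qMoves p q k N x (p i) = rowD y1 y2 κ i) ∧
    (∀ i, N < i → qMoves p q k N x (p i) = x (p i)) ∧
    (∀ i, 1 ≤ i → i ≤ N → qMoves p q k N x (q i) = min (y2 i) (rowK y1 y2 κ (i - 1))) ∧
    (∀ i, (i = 0 ∨ N < i) → qMoves p q k N x (q i) = x (q i)) ∧
    qMoves p q k N x k = rowK y1 y2 κ N ∧
    (∀ l, (∀ i, l ≠ p i) → (∀ i, l ≠ q i) → l ≠ k → qMoves p q k N x l = x l) := by
  induction N with
  | zero =>
    refine ⟨?_, ?_, ?_, ?_, ?_, ?_⟩
    · intro i hi
      have : i = 0 := by omega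
      subst this
      simp only [qMoves, id, rowD, if_true]
      rw [h2]
    · intro i _
      rfl
    · intro i h1 h2
      omega
    · intro i _
      rfl
    · simp only [qMoves, id, rowK]
      rw [h3]
    · intro l _ _ _
      rfl
  | succ n ih =>
    obtain ⟨i1, i2, i3, i4, i5, i6⟩ := ih
    set g := qMoves p q k n x with hg
    have hstep : qMoves p q k (n + 1) x = move (p (n + 1)) k (q (n + 1)) g := rfl
    rw [hstep]
    have gp : g (p (n + 1)) = y2 (n + 1) := by
      rw [i2 _ (Nat.lt_succ_self n), h2]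
    have gq : g (q (n + 1)) = y1 (n + 1) := by
      rw [i4 _ (Or.inr (Nat.lt_succ_self n)), h1]
    have gk : g k = rowK y1 y2 κ n := i5
    refine ⟨?_, ?_, ?_, ?_, ?_, ?_⟩
    · intro i hi
      by_cases h : i = n + 1
      · subst h
        rw [gmove_i (hpk _) (hpq _ _), gp, gq, gk]
        simp [rowD]
      · rw [gmove_ne (fun e => h (hp e)) (hpk _) (hpq _ _)]
        exact i1 i (by omega)
    · intro i hi
      rw [gmove_ne (fun e => (by omega : i ≠ n + 1) (hp e)) (hpk _) (hpq _ _)]
      exact i2 i (by omega)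
    · intro i hi1 hi
      by_cases h : i = n + 1
      · subst h
        rw [gmove_k, gp, gk]
        simp
      · rw [gmove_ne (hpq _ _).symm (hqk _) (fun e => h (hq e))]
        exact i3 i hi1 (by omega)
    · intro i hi
      rw [gmove_ne (hpq _ _).symm (hqk _) (fun e => (by omega : i ≠ n + 1) (hq e))]
      exact i4 i (by omega)
    · rw [gmove_j (hqk _).symm, gp, gq, gk]
      simp [rowK]
    · intro l hl1 hl2 hl3
      rw [gmove_ne (hl1 _) hl3 (hl2 _)]
      exact i6 l hl1 hl2 hl3

end

end BGG
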