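import Pool.Agent.BGG.MgfS
import Pool.Agent.BGG.ProdA
import Pool.Agent.BGE.UpperTail

/-!
BGG / C7, C8, C9. Upper tail of the last passage time `T ω (1,1) (m,n)` (law `PG`). Adaptation of
`Pool/Agent/BGE/UpperTail.lean`. Notation: `s = √m + √n`, `al`, `Ph`, `ff`.

`upper_tail`: `P(T ≥ s² + z) ≤ exp (-u z/gK + 2 u³ Ph)` for `z ≥ 0`, `0 < u ≤ al/2`, and also for
`0 < u ≤ (1 - al)/2`.
Proof. First case: `mgfS` with `w = 0`, `a = al`, threshold `s² + z`, using only the exit `k = 1`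
(`T ω (1,1) (m,n) ≤ S_1 + T ω (1,1) (m,n)`, the weights are a.s. nonnegative). For `0 ≤ v ≤ u`
`ff (al - v) - s² = s² v²/((al-v)(1-al+v)) ≤ 2 Ph v² ≤ 2 Ph u²` (`ff_eq`; `al - v ≥ al/2`,
`1-al+v ≥ 1-al`, `Ph = s²/(al (1-al))`), so `z1 = 2 Ph u²`, `z2 = z`, `D = 0`.
Second case: exchange the coordinates.
-/

namespace BGG

open MeasureTheory ProbabilityTheory BGE

variable [GeoPar]

private theorem ut_bw_nonneg (ρ x : ℝ) : 0 ≤ bw ρ x := by
  unfold bw gqm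
  have h1 := gs_pos
  have h2 := gd_pos
  positivity

private theorem ut_first {m n : ℕ} (hm : 1 ≤ m) (hn : 1 ≤ n) {u z : ℝ} (hu : 0 < u) (hz : 0 ≤ z)
    (h1 : u ≤ al m n / 2) :
    PG.real {ω | (√m + √n) ^ 2 + z ≤ T ω (1, 1) ((m : ℤ), (n : ℤ))} ≤
      Real.exp (-(u * z / gK) + 2 * u ^ 3 * Ph m n) := by
  have hm0 : (0 : ℝ) < m := by exact_mod_cast hm
  have hn0 : (0 : ℝ) < n := by exact_mod_cast hn
  have ha0 := al_pos hm0 hn0
  have ha1 := al_lt_one hm0 hn0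
  have hPh := Ph_eq hm0 hn0
  obtain ⟨a, ha⟩ : ∃ a, a = al m n := ⟨_, rfl⟩
  rw [← ha] at h1 ha0 ha1 hPh
  have hs0 : 0 < (√(m : ℝ) + √(n : ℝ)) ^ 2 := by
    have := Real.sqrt_pos.2 hm0
    have := Real.sqrt_pos.2 hn0
    positivity
  have haa : 0 < a * (1 - a) := mul_pos ha0 (by linarith)
  have hPh0 : 0 < Ph m n := by rw [hPh]; positivity
  have key := mgfS (a := a) (u := u) (z := (√m + √n) ^ 2 + z) (z1 := 2 * Ph m n * u ^ 2) (z2 := z)
    (D := 0) hu (by linarith) ha1 m n 0 (by omega) hn (by positivity) hz le_rfl (by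
      intro ρ hρ1 hρ2
      have r0 : 0 < ρ := by linarith
      have r1 : ρ < 1 := by linarith
      have e1 := ff_eq hm0 hn0 r0 r1
      unfold ff at e1
      rw [← ha] at e1
      push_cast
      rw [sub_zero, e1]
      have e2 : (√(m : ℝ) + √(n : ℝ)) ^ 2 * (ρ - a) ^ 2 / (ρ * (1 - ρ)) ≤
          2 * Ph m n * u ^ 2 := by
        rw [div_le_iff₀ (mul_pos r0 (by linarith)), hPh]
        have e3 : (ρ - a) ^ 2 ≤ u ^ 2 := sq_le_sq' (by linarith) (by linarith)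
        have e4 : a * (1 - a) / 2 ≤ ρ * (1 - ρ) := by
          have : a / 2 * (1 - a) ≤ ρ * (1 - ρ) :=
            mul_le_mul (by linarith) (by linarith) (by linarith) r0.le
          linarith
        calc (√(m : ℝ) + √(n : ℝ)) ^ 2 * (ρ - a) ^ 2 ≤ (√(m : ℝ) + √(n : ℝ)) ^ 2 * u ^ 2 :=
              mul_le_mul_of_nonneg_left e3 hs0.le
          _ = 2 * ((√(m : ℝ) + √(n : ℝ)) ^ 2 / (a * (1 - a))) * u ^ 2 * (a * (1 - a) / 2) := by
              have e5 : a ≠ 0 := ha0.ne'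
              have e6 : 1 - a ≠ 0 := by linarith
              field_simp
          _ ≤ 2 * ((√(m : ℝ) + √(n : ℝ)) ^ 2 / (a * (1 - a))) * u ^ 2 * (ρ * (1 - ρ)) :=
              mul_le_mul_of_nonneg_left e4 (by positivity)
      linarith)
  have hsub : PG.real {ω | (√m + √n) ^ 2 + z ≤ T ω (1, 1) ((m : ℤ), (n : ℤ))} ≤
      muSW.real {x : SW | ∃ k : ℕ, 0 < k ∧ k ≤ m ∧ (√m + √n) ^ 2 + z ≤
        (∑ i ∈ Finset.Ioc 0 k, bw a (x.2.1 i)) + T x.1 ((k : ℤ), 1) ((m : ℤ), (n : ℤ))} := by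
    have e1 : PG.real {ω | (√m + √n) ^ 2 + z ≤ T ω (1, 1) ((m : ℤ), (n : ℤ))} =
        muSW.real ({ω | (√m + √n) ^ 2 + z ≤ T ω (1, 1) ((m : ℤ), (n : ℤ))} ×ˢ Set.univ) := by
      unfold muSW
      rw [measureReal_prod_prod]
      simp
    rw [e1]
    refine measureReal_mono ?_
    intro x hx
    refine ⟨1, by norm_num, hm, ?_⟩
    have h4 : (√m + √n) ^ 2 + z ≤ T x.1 (1, 1) ((m : ℤ), (n : ℤ)) := hx.1
    have h5 := ut_bw_nonneg a (x.2.1 1)
    have h6 : Finset.Ioc 0 1 = {1} := rfl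
    rw [h6, Finset.sum_singleton]
    push_cast
    linarith
  refine hsub.trans (key.trans (le_of_eq ?_))
  congr 1
  ring

theorem upper_tail {m n : ℕ} (hm : 1 ≤ m) (hn : 1 ≤ n) {u z : ℝ} (hu : 0 < u) (hz : 0 ≤ z)
    (h1 : u ≤ al m n / 2 ∨ u ≤ (1 - al m n) / 2) :
    PG.real {ω | (√m + √n) ^ 2 + z ≤ T ω (1, 1) ((m : ℤ), (n : ℤ))} ≤
      Real.exp (-(u * z / gK) + 2 * u ^ 3 * Ph m n) := by
  have hm0 : (0 : ℝ) < m := by exact_mod_cast hm
  have hn0 : (0 : ℝ) < n := by exact_mod_cast hn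
  rcases h1 with h1 | h1
  · exact ut_first hm hn hu hz h1
  · have h2 := ut_first (m := n) (n := m) hn hm (u := u) (z := z) hu hz
      (by rw [al_swap hm0 hn0]; exact h1)
    rw [Ph_swap, add_comm (√(n : ℝ))] at h2
    refine le_trans (le_of_eq ?_) h2
    have hmeas : MeasurableSet {ω : ℤ × ℤ → ℝ |
        (√m + √n) ^ 2 + z ≤ T ω (1, 1) ((n : ℤ), (m : ℤ))} :=
      measurableSet_le measurable_const (measurable_T _ _)
    have h3 : PG.real ((fun (x : ℤ × ℤ → ℝ) (k : ℤ × ℤ) => x k.swap) ⁻¹'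
          {ω | (√m + √n) ^ 2 + z ≤ T ω (1, 1) ((n : ℤ), (m : ℤ))}) =
        PG.real {ω | (√m + √n) ^ 2 + z ≤ T ω (1, 1) ((n : ℤ), (m : ℤ))} := by
      rw [measureReal_def, measureReal_def]
      have := (mp_reindex (Equiv.prodComm ℤ ℤ)).measure_preimage hmeas.nullMeasurableSet
      exact congrArg ENNReal.toReal this
    rw [← h3]
    congr 1
    ext ω
    simp only [Set.mem_preimage, Set.mem_ofPred_eq]
    have h4 := T_swap ω (1, 1) ((n : ℤ), (m : ℤ))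
    rw [h4]
    rfl

end BGG
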