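import Pool.Agent.BGG.Law
import Pool.Agent.BGE.Walk

/-!
BGG / R2. Random walks with steps `X - X'`, `X ~ bE p`, `X' ~ bE q'`. Adaptation of
`Pool/Agent/BGE/Walk.lean`. `Sw`, `Stay` are those of BGE.

The steps take values in `gs ℤ`. `gov p = gs/(1 - gap p)` is the mean overshoot.
`step_over`: for `b = gs j`, `j ∈ ℕ`: given `X' = gs k' + gd`, on `X > b + X'` the overshoot
`X - X' - b = gs (N - k' - j)`, `N` geometric with ratio `gap p`; `N - k' - j ≥ 1` has the law of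
`1 + N` given that it is positive, mean `1/(1 - gap p)`.
`gov_bounds`: `gov p = 1/p - 1 + 1/gc` (`one_sub_gap`), so `1 ≤ gov p ≤ 1/p + 1/gc` for `0 < p ≤ 1`.
`walk_neg_part`: as in BGE: `E Z² = N (Var X + Var X') ≥ 2 N/…`: by `bE_var` the variances are
`≥ 1/p² ≥ 1`, and `E Z⁴ ≤ C N²` by `bE_four`; Hölder.
-/

namespace BGG

open MeasureTheory ProbabilityTheory BGE

/-! ### Random walks with a general step law -/

section Gen

variable {ν : Measure ℝ} [IsProbabilityMeasure ν] {m : ℝ}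

private theorem g_indep (ν : Measure ℝ) [IsProbabilityMeasure ν] (m : ℝ) :
    iIndepFun (fun (i : ℕ) (x : ℕ → ℝ) => x i - m) (Measure.infinitePi fun _ : ℕ => ν) :=
  iIndepFun_infinitePi (P := fun _ : ℕ => ν) (X := fun _ y => y - m)
    (fun _ => by fun_prop)

private theorem g_eval (ν : Measure ℝ) [IsProbabilityMeasure ν] (i : ℕ) :
    MeasurePreserving (fun x : ℕ → ℝ => x i) (Measure.infinitePi fun _ : ℕ => ν) ν :=
  measurePreserving_eval_infinitePi (fun _ : ℕ => ν) i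

private theorem g_eval_int (i : ℕ) {F : ℝ → ℝ} (hF : Measurable F) :
    ∫ x, F (x i) ∂(Measure.infinitePi fun _ : ℕ => ν) = ∫ y, F y ∂ν := by
  conv_rhs => rw [← (g_eval ν i).map_eq]
  exact (integral_map (measurable_pi_apply i).aemeasurable hF.aestronglyMeasurable).symm

private theorem g_exp {t : ℝ} (h : Integrable (fun y => Real.exp (t * y)) ν) (m : ℝ) :
    Integrable (fun y => Real.exp (t * (y - m))) ν := by
  refine (h.const_mul (Real.exp (-(t * m)))).congr (Filter.Eventually.of_forall fun x => ?_)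
  simp only
  rw [← Real.exp_add]
  congr 1
  ring

private theorem g_y_int (ht : ∃ t : ℝ, 0 < t ∧ Integrable (fun y => Real.exp (t * y)) ν ∧
    Integrable (fun y => Real.exp (-t * y)) ν) (m : ℝ) (k : ℕ) :
    Integrable (fun y => (y - m) ^ k) ν := by
  obtain ⟨t, ht, h1, h2⟩ := ht
  exact integrable_pow_of_integrable_exp_mul (X := fun x : ℝ => x - m) (t := t)
    ht.ne' (g_exp h1 m) (g_exp h2 m) k

private theorem g_Z_exp {t : ℝ} (h : Integrable (fun y => Real.exp (t * y)) ν) (m : ℝ) (n : ℕ) :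
    Integrable (fun x => Real.exp (t * wkZ m x n)) (Measure.infinitePi fun _ : ℕ => ν) := by
  have := (g_indep ν m).integrable_exp_mul_sum (t := t)
    (s := Finset.range n) (fun i => by fun_prop) (fun i _ => ?_)
  · refine this.congr (Filter.Eventually.of_forall fun x => ?_)
    simp only [Finset.sum_apply]
    rfl
  · exact (g_eval ν i).integrable_comp_of_integrable (g_exp h m)

private theorem g_Z_int (ht : ∃ t : ℝ, 0 < t ∧ Integrable (fun y => Real.exp (t * y)) ν ∧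
    Integrable (fun y => Real.exp (-t * y)) ν) (m : ℝ) (n k : ℕ) :
    Integrable (fun x => wkZ m x n ^ k) (Measure.infinitePi fun _ : ℕ => ν) := by
  obtain ⟨t, ht, h1, h2⟩ := ht
  exact integrable_pow_of_integrable_exp_mul (X := fun x : ℕ → ℝ => wkZ m x n) (t := t)
    ht.ne' (g_Z_exp h1 m n) (g_Z_exp h2 m n) k

private theorem g_ind (ν : Measure ℝ) [IsProbabilityMeasure ν] (m : ℝ) (n j l : ℕ) :
    IndepFun (fun x => wkZ m x n ^ j) (fun x : ℕ → ℝ => (x n - m) ^ l)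
      (Measure.infinitePi fun _ : ℕ => ν) := by
  have h0 : IndepFun (∑ i ∈ Finset.range n, fun x : ℕ → ℝ => x i - m) (fun x => x n - m)
      (Measure.infinitePi fun _ : ℕ => ν) :=
    (g_indep ν m).indepFun_finsetSum_of_notMem (fun i => by fun_prop)
      Finset.notMem_range_self
  have e : (∑ i ∈ Finset.range n, fun x : ℕ → ℝ => x i - m) = fun x => wkZ m x n := by
    funext x
    simp only [Finset.sum_apply]
    rfl
  rw [e] at h0
  exact h0.comp (φ := fun y => y ^ j) (ψ := fun y => y ^ l) (by fun_prop) (by fun_prop)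

private theorem g_mul (m : ℝ) (n j l : ℕ) :
    ∫ x, wkZ m x n ^ j * (x n - m) ^ l ∂(Measure.infinitePi fun _ : ℕ => ν) =
      (∫ x, wkZ m x n ^ j ∂(Measure.infinitePi fun _ : ℕ => ν)) * ∫ y, (y - m) ^ l ∂ν := by
  have h2 : Measurable fun x : ℕ → ℝ => (x n - m) ^ l := by fun_prop
  rw [(g_ind ν m n j l).integral_fun_mul_eq_mul_integral
    ((wkZ_meas m n).pow_const j).aestronglyMeasurable h2.aestronglyMeasurable]
  congr 1
  exact g_eval_int n (F := fun y => (y - m) ^ l) (by fun_prop)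

private theorem g_mul_int (ht : ∃ t : ℝ, 0 < t ∧ Integrable (fun y => Real.exp (t * y)) ν ∧
    Integrable (fun y => Real.exp (-t * y)) ν) (m : ℝ) (n j l : ℕ) :
    Integrable (fun x => wkZ m x n ^ j * (x n - m) ^ l) (Measure.infinitePi fun _ : ℕ => ν) :=
  (g_ind ν m n j l).integrable_mul (g_Z_int ht m n j)
    ((g_eval ν n).integrable_comp_of_integrable (g_y_int ht m l))

private theorem g_c1 (ht : ∃ t : ℝ, 0 < t ∧ Integrable (fun y => Real.exp (t * y)) ν ∧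
    Integrable (fun y => Real.exp (-t * y)) ν) (hm : ∫ y, y ∂ν = m) :
    ∫ y, (y - m) ^ 1 ∂ν = 0 := by
  have i1 := g_y_int ht 0 1
  simp only [pow_one, sub_zero] at i1 ⊢
  rw [integral_sub i1 (integrable_const _), hm]
  simp

private theorem g_Z1 (ht : ∃ t : ℝ, 0 < t ∧ Integrable (fun y => Real.exp (t * y)) ν ∧
    Integrable (fun y => Real.exp (-t * y)) ν) (hm : ∫ y, y ∂ν = m) (n : ℕ) :
    ∫ x, wkZ m x n ∂(Measure.infinitePi fun _ : ℕ => ν) = 0 := by
  induction n with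
  | zero => simp [wkZ]
  | succ n ih =>
    have i1 : Integrable (fun x => wkZ m x n) (Measure.infinitePi fun _ : ℕ => ν) := by
      simpa using g_Z_int ht m n 1
    have i2 : Integrable (fun x : ℕ → ℝ => x n - m) (Measure.infinitePi fun _ : ℕ => ν) := by
      simpa using g_mul_int ht m n 0 1
    have e2 : ∫ x : ℕ → ℝ, (x n - m) ∂(Measure.infinitePi fun _ : ℕ => ν) = 0 := by
      have := g_mul (ν := ν) m n 0 1
      rw [g_c1 ht hm] at this
      simpa using this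
    simp only [wkZ_succ]
    rw [integral_add i1 i2, ih, e2, add_zero]

private theorem g_Z2 (ht : ∃ t : ℝ, 0 < t ∧ Integrable (fun y => Real.exp (t * y)) ν ∧
    Integrable (fun y => Real.exp (-t * y)) ν) (hm : ∫ y, y ∂ν = m) (n : ℕ) :
    ∫ x, wkZ m x n ^ 2 ∂(Measure.infinitePi fun _ : ℕ => ν) = n * ∫ y, (y - m) ^ 2 ∂ν := by
  induction n with
  | zero => simp [wkZ]
  | succ n ih =>
    have i20 := g_mul_int ht m n 2 0
    have i11 := g_mul_int ht m n 1 1
    have i02 := g_mul_int ht m n 0 2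
    have e20 := g_mul (ν := ν) m n 2 0
    have e11 := g_mul (ν := ν) m n 1 1
    have e02 := g_mul (ν := ν) m n 0 2
    rw [g_c1 ht hm, mul_zero] at e11
    simp only [pow_zero, mul_one, one_mul, integral_const, probReal_univ, smul_eq_mul]
      at i20 i02 e20 e02
    have e : ∀ x : ℕ → ℝ, wkZ m x (n + 1) ^ 2 = (wkZ m x n ^ 2 +
        2 * (wkZ m x n ^ 1 * (x n - m) ^ 1)) +
        (x n - m) ^ 2 := by
      intro x
      rw [wkZ_succ]
      ring
    simp only [e]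
    rw [integral_add (f := fun x : ℕ → ℝ => wkZ m x n ^ 2 +
        2 * (wkZ m x n ^ 1 * (x n - m) ^ 1))
      (i20.add (i11.const_mul 2)) i02, integral_add i20 (i11.const_mul 2), integral_const_mul,
      ih, e11, e02]
    push_cast
    ring

private theorem g_Z4 (ht : ∃ t : ℝ, 0 < t ∧ Integrable (fun y => Real.exp (t * y)) ν ∧
    Integrable (fun y => Real.exp (-t * y)) ν) (hm : ∫ y, y ∂ν = m) (n : ℕ) :
    ∫ x, wkZ m x n ^ 4 ∂(Measure.infinitePi fun _ : ℕ => ν) =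
      3 * n * (n - 1) * (∫ y, (y - m) ^ 2 ∂ν) ^ 2 + n * ∫ y, (y - m) ^ 4 ∂ν := by
  induction n with
  | zero => simp [wkZ]
  | succ n ih =>
    have i40 := g_mul_int ht m n 4 0
    have i31 := g_mul_int ht m n 3 1
    have i22 := g_mul_int ht m n 2 2
    have i13 := g_mul_int ht m n 1 3
    have i04 := g_mul_int ht m n 0 4
    have e31 := g_mul (ν := ν) m n 3 1
    have e22 := g_mul (ν := ν) m n 2 2
    have e13 := g_mul (ν := ν) m n 1 3
    have e04 := g_mul (ν := ν) m n 0 4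
    have z1 : ∫ x, wkZ m x n ^ 1 ∂(Measure.infinitePi fun _ : ℕ => ν) = 0 := by
      simpa using g_Z1 ht hm n
    rw [g_c1 ht hm, mul_zero] at e31
    rw [g_Z2 ht hm] at e22
    rw [z1, zero_mul] at e13
    simp only [pow_zero, mul_one, one_mul, integral_const, probReal_univ, smul_eq_mul]
      at i40 i04 e04
    have e : ∀ x : ℕ → ℝ, wkZ m x (n + 1) ^ 4 = (((wkZ m x n ^ 4 +
        4 * (wkZ m x n ^ 3 * (x n - m) ^ 1)) +
        6 * (wkZ m x n ^ 2 * (x n - m) ^ 2)) +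
        4 * (wkZ m x n ^ 1 * (x n - m) ^ 3)) +
        (x n - m) ^ 4 := by
      intro x
      rw [wkZ_succ]
      ring
    have j1 := i40.add (i31.const_mul 4)
    have j2 := j1.add (i22.const_mul 6)
    have j3 := j2.add (i13.const_mul 4)
    have f1 := integral_add i40 (i31.const_mul 4)
    have f2 := integral_add j1 (i22.const_mul 6)
    have f3 := integral_add j2 (i13.const_mul 4)
    have f4 := integral_add j3 i04
    simp only [Pi.add_apply] at f1 f2 f3 f4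
    simp only [e]
    rw [f4, f3, f2, f1, integral_const_mul, integral_const_mul, integral_const_mul, ih, e31, e22,
      e13, e04]
    push_cast
    ring

private theorem g_neg_part (ht : ∃ t : ℝ, 0 < t ∧ Integrable (fun y => Real.exp (t * y)) ν ∧
    Integrable (fun y => Real.exp (-t * y)) ν) (hm : ∫ y, y ∂ν = m) {V C0 : ℝ}
    (hV2 : 2 ≤ ∫ y, (y - m) ^ 2 ∂ν) (hV : ∫ y, (y - m) ^ 2 ∂ν ≤ V)
    (hW : 3 * V ^ 2 + ∫ y, (y - m) ^ 4 ∂ν ≤ C0) (N : ℕ) (hN : 1 ≤ N)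
    (hmN : |m| * √N ≤ 1 / (4 * √C0)) :
    1 / (4 * √C0) * √N ≤ ∫ x, max (-(Sw x N)) 0 ∂(Measure.infinitePi fun _ : ℕ => ν) := by
  obtain ⟨v, hv⟩ : ∃ v : ℝ, v = ∫ y, (y - m) ^ 2 ∂ν := ⟨_, rfl⟩
  obtain ⟨w, hw⟩ : ∃ w : ℝ, w = ∫ y, (y - m) ^ 4 ∂ν := ⟨_, rfl⟩
  rw [← hv] at hV2 hV
  rw [← hw] at hW
  have hw0 : 0 ≤ w := by
    rw [hw]
    exact integral_nonneg fun x => by positivity
  have hC : 0 < C0 := by nlinarith
  have hNr : (1 : ℝ) ≤ N := by exact_mod_cast hN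
  have hN0 : (0 : ℝ) < N := by linarith
  have hZ2 : ∫ x, wkZ m x N ^ 2 ∂(Measure.infinitePi fun _ : ℕ => ν) = N * v := by
    rw [hv]
    exact g_Z2 ht hm N
  have hZ4 : ∫ x, wkZ m x N ^ 4 ∂(Measure.infinitePi fun _ : ℕ => ν) ≤ C0 * N ^ 2 := by
    rw [g_Z4 ht hm N, ← hv, ← hw]
    have h1 : v ^ 2 ≤ V ^ 2 := pow_le_pow_left₀ (by linarith) hV 2
    have h2 : 3 * (N : ℝ) * (N - 1) * v ^ 2 ≤ 3 * N * N * V ^ 2 := by
      have h3 : 0 ≤ (N : ℝ) - 1 := by linarith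
      have h4 : (N : ℝ) - 1 ≤ N := by linarith
      gcongr
    have h5 : (N : ℝ) * w ≤ N * N * w := by
      have h6 : (N : ℝ) * 1 ≤ N * N := by gcongr
      calc (N : ℝ) * w = N * 1 * w := by ring
        _ ≤ N * N * w := mul_le_mul_of_nonneg_right h6 hw0
    calc _ ≤ 3 * (N : ℝ) * N * V ^ 2 + N * N * w := add_le_add h2 h5
      _ = (3 * V ^ 2 + w) * N ^ 2 := by ring
      _ ≤ C0 * N ^ 2 := by gcongr
  have iZ1 : Integrable (fun x => wkZ m x N) (Measure.infinitePi fun _ : ℕ => ν) := by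
    simpa using g_Z_int ht m N 1
  have iZ2 := g_Z_int ht m N 2
  have iZ4 := g_Z_int ht m N 4
  obtain ⟨t, ht'⟩ : ∃ t : ℝ, t = √C0 * √N := ⟨_, rfl⟩
  have ht0 : 0 < t := by rw [ht']; positivity
  have ht2 : t ^ 2 = C0 * N := by
    rw [ht', mul_pow, Real.sq_sqrt hC.le, Real.sq_sqrt hN0.le]
  have hA : N * v ≤ t * ∫ x, |wkZ m x N| ∂(Measure.infinitePi fun _ : ℕ => ν) + N := by
    have h1 : ∫ x, wkZ m x N ^ 2 ∂(Measure.infinitePi fun _ : ℕ => ν) ≤
        ∫ x, (t * |wkZ m x N| + wkZ m x N ^ 4 / t ^ 2) ∂(Measure.infinitePi fun _ : ℕ => ν) :=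
      integral_mono iZ2 ((iZ1.abs.const_mul t).add (iZ4.div_const _)) fun x => wk_pt ht0
    rw [integral_add (iZ1.abs.const_mul t) (iZ4.div_const _), integral_const_mul, integral_div,
      hZ2] at h1
    have h2 : (∫ x, wkZ m x N ^ 4 ∂(Measure.infinitePi fun _ : ℕ => ν)) / t ^ 2 ≤ N := by
      rw [div_le_iff₀ (by positivity), ht2]
      calc _ ≤ _ := hZ4
        _ = N * (C0 * N) := by ring
    linarith
  have hB : √N / √C0 ≤ ∫ x, |wkZ m x N| ∂(Measure.infinitePi fun _ : ℕ => ν) := by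
    have h1 : (N : ℝ) ≤ t * ∫ x, |wkZ m x N| ∂(Measure.infinitePi fun _ : ℕ => ν) := by nlinarith
    rw [div_le_iff₀ (by positivity)]
    have h2 : √(N : ℝ) * √N = N := Real.mul_self_sqrt hN0.le
    have h3 : √(N : ℝ) * √N ≤
        √N * ((∫ x, |wkZ m x N| ∂(Measure.infinitePi fun _ : ℕ => ν)) * √C0) := by
      rw [h2]
      refine h1.trans (le_of_eq ?_)
      rw [ht']
      ring
    exact le_of_mul_le_mul_left h3 (by positivity)
  have hD : ∫ x, max (-(wkZ m x N)) 0 ∂(Measure.infinitePi fun _ : ℕ => ν) =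
      (∫ x, |wkZ m x N| ∂(Measure.infinitePi fun _ : ℕ => ν)) / 2 := by
    have e : ∀ x : ℕ → ℝ, max (-(wkZ m x N)) 0 = (|wkZ m x N| - wkZ m x N) / 2 := by
      intro x
      rcases le_total 0 (wkZ m x N) with h | h
      · rw [max_eq_right (by linarith), abs_of_nonneg h]
        ring
      · rw [max_eq_left (by linarith), abs_of_nonpos h]
        ring
    simp only [e]
    rw [integral_div, integral_sub iZ1.abs iZ1, g_Z1 ht hm N, sub_zero]
  have iS : Integrable (fun x => Sw x N) (Measure.infinitePi fun _ : ℕ => ν) := by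
    have : (fun x => Sw x N) = fun x => wkZ m x N + N * m := by
      funext x
      rw [wkZ_eq]
      ring
    rw [this]
    exact iZ1.add (integrable_const _)
  have hE : ∫ x, max (-(wkZ m x N)) 0 ∂(Measure.infinitePi fun _ : ℕ => ν) - N * |m| ≤
      ∫ x, max (-(Sw x N)) 0 ∂(Measure.infinitePi fun _ : ℕ => ν) := by
    have h1 : ∫ x, (max (-(wkZ m x N)) 0 - N * |m|) ∂(Measure.infinitePi fun _ : ℕ => ν) ≤
        ∫ x, max (-(Sw x N)) 0 ∂(Measure.infinitePi fun _ : ℕ => ν) := by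
      refine integral_mono (iZ1.neg.pos_part.sub (integrable_const _)) iS.neg.pos_part fun x => ?_
      change max (-(wkZ m x N)) 0 - N * |m| ≤ max (-(Sw x N)) 0
      rw [wkZ_eq]
      have h2 : (N : ℝ) * m ≤ N * |m| := by
        gcongr
        exact le_abs_self m
      have h3 : 0 ≤ (N : ℝ) * |m| := by positivity
      rw [sub_le_iff_le_add]
      refine max_le ?_ ?_
      · have := le_max_left (-(Sw x N)) 0
        linarith
      · have := le_max_right (-(Sw x N)) 0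
        linarith
    have h5 : ∫ x, (max (-(wkZ m x N)) 0 - N * |m|) ∂(Measure.infinitePi fun _ : ℕ => ν) =
        ∫ x, max (-(wkZ m x N)) 0 ∂(Measure.infinitePi fun _ : ℕ => ν) - N * |m| := by
      rw [integral_sub (f := fun x => max (-(wkZ m x N)) 0) iZ1.neg.pos_part (integrable_const _)]
      simp
    rwa [h5] at h1
  have hF : (N : ℝ) * |m| ≤ 1 / (4 * √C0) * √N := by
    have h2 : √(N : ℝ) * √N = N := Real.mul_self_sqrt hN0.le
    calc (N : ℝ) * |m| = (|m| * √N) * √N := by rw [mul_assoc, h2]; ring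
      _ ≤ 1 / (4 * √C0) * √N := by gcongr
  have hG : √(N : ℝ) / √C0 / 2 - 1 / (4 * √C0) * √N = 1 / (4 * √C0) * √N := by
    have : √C0 ≠ 0 := by positivity
    field_simp
    ring
  rw [hD] at hE
  linarith

end Gen

variable [GeoPar]

/-- mean overshoot -/
noncomputable def gov (p : ℝ) : ℝ := gs / (1 - gap p)

theorem gov_bounds {p : ℝ} (hp : 0 < p) (hp1 : p ≤ 1) : 1 ≤ gov p ∧ gov p ≤ 1 / p + 1 / gc := by
  have h1 := gc_pos
  have h2 := gc_lt
  have h3 : 0 < 1 - GeoPar.q := by linarith [GeoPar.q_lt]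
  have h4 : 0 < p + gc * (1 - p) := by nlinarith
  have e : gov p = 1 / p - 1 + 1 / gc := by
    have e1 : gs = (1 - GeoPar.q) / gc := rfl
    unfold gov
    rw [one_sub_gap hp.le hp1, e1]
    field_simp
    ring
  have h5 : 1 ≤ 1 / p := by rwa [le_div_iff₀ hp, one_mul]
  have h6 : 1 ≤ 1 / gc := by rw [le_div_iff₀ h1, one_mul]; exact h2.le
  constructor <;> linarith

/-! ### The geometric law -/

private theorem geo_int {a : ℝ} (h0 : 0 < a) (h1 : a < 1) {f : ℝ → ℝ}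
    (hf : Integrable f (geoM a)) :
    ∫ x, f x ∂(geoM a) = ∑' k : ℕ, (1 - a) * a ^ k * f (gs * k + gd) := by
  rw [geoM_eq h0 h1] at hf ⊢
  rw [integral_sum_measure hf]
  refine tsum_congr fun k => ?_
  rw [integral_smul_measure, integral_dirac, ENNReal.toReal_ofReal, smul_eq_mul]
  have : 0 < 1 - a := by linarith
  positivity

private theorem geo_tail_sum {a : ℝ} (h0 : 0 < a) (h1 : a < 1) {f : ℕ → ℝ} {S : ℝ} (n : ℕ)
    (hz : ∀ k ≤ n, f k = 0) (hs : HasSum (fun i => f (i + (n + 1))) S) : ∑' k, f k = S := by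
  have h := (hasSum_nat_add_iff' (f := f) (g := S) (n + 1)).1 (by
    rw [Finset.sum_eq_zero fun i hi => hz i (by have := Finset.mem_range.1 hi; omega), sub_zero]
    exact hs)
  exact h.tsum_eq

private theorem geo_id_int {a : ℝ} (h0 : 0 < a) (h1 : a < 1) :
    Integrable (fun x => x) (geoM a) := by
  simpa using geo_pow_int h0 h1 1

private theorem geo_over {a : ℝ} (h0 : 0 < a) (h1 : a < 1) (n : ℕ) :
    ∫ x, max (x - (gs * n + gd)) 0 ∂(geoM a) = gs / (1 - a) * a ^ (n + 1) := by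
  have hi : Integrable (fun x => max (x - (gs * n + gd)) 0) (geoM a) :=
    ((geo_id_int h0 h1).sub (integrable_const _)).pos_part
  have hs := gs_pos
  rw [geo_int h0 h1 hi]
  refine geo_tail_sum h0 h1 n (fun k hk => ?_) ?_
  · have hk' : (k : ℝ) ≤ n := by exact_mod_cast hk
    rw [max_eq_right (by nlinarith), mul_zero]
  · have ha : ‖a‖ < 1 := by rwa [Real.norm_of_nonneg h0.le]
    have h2 := ((hasSum_coe_mul_geometric_of_norm_lt_one ha).add
      (hasSum_geometric_of_lt_one h0.le h1)).mul_left (gs * (1 - a) * a ^ (n + 1))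
    have h3 : gs * (1 - a) * a ^ (n + 1) * (a / (1 - a) ^ 2 + (1 - a)⁻¹) =
        gs / (1 - a) * a ^ (n + 1) := by
      have : 1 - a ≠ 0 := by linarith
      field_simp
      ring
    rw [h3] at h2
    refine Eq.mp (congrArg (fun F : ℕ → ℝ => HasSum F _) (funext fun i => ?_)) h2
    have e : gs * ((i + (n + 1) : ℕ) : ℝ) + gd - (gs * n + gd) = gs * (i + 1) := by
      push_cast
      ring
    rw [e, max_eq_left (by positivity), pow_add]
    ring

private theorem geo_tail {a : ℝ} (h0 : 0 < a) (h1 : a < 1) (n : ℕ) :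
    (geoM a).real (Set.Ioi (gs * n + gd)) = a ^ (n + 1) := by
  have hs := gs_pos
  have e1 : (geoM a).real (Set.Ioi (gs * n + gd)) =
      ∫ x, (Set.Ioi (gs * n + gd)).indicator (fun _ => (1 : ℝ)) x ∂(geoM a) := by
    rw [integral_indicator measurableSet_Ioi]
    simp
  have hi : Integrable ((Set.Ioi (gs * n + gd)).indicator (fun _ => (1 : ℝ))) (geoM a) :=
    (integrable_const _).indicator measurableSet_Ioi
  rw [e1, geo_int h0 h1 hi]
  refine geo_tail_sum h0 h1 n (fun k hk => ?_) ?_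
  · have hk' : (k : ℝ) ≤ n := by exact_mod_cast hk
    rw [Set.indicator_of_notMem (by simp only [Set.mem_Ioi, not_lt]; nlinarith), mul_zero]
  · have h2 := (hasSum_geometric_of_lt_one h0.le h1).mul_left ((1 - a) * a ^ (n + 1))
    have h3 : (1 - a) * a ^ (n + 1) * (1 - a)⁻¹ = a ^ (n + 1) := by
      have : 1 - a ≠ 0 := by linarith
      field_simp
    rw [h3] at h2
    refine Eq.mp (congrArg (fun F : ℕ → ℝ => HasSum F _) (funext fun i => ?_)) h2
    rw [Set.indicator_of_mem, pow_add]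
    · ring
    · simp only [Set.mem_Ioi]
      push_cast
      nlinarith

/-! ### The step law -/

private theorem wk_map {p q : ℝ} {F : ℝ → ℝ} (hF : Measurable F) :
    ∫ x, F x ∂(stepLaw p q) = ∫ z, F (z.1 - z.2) ∂((bE p).prod (bE q)) := by
  unfold stepLaw
  exact integral_map (by fun_prop) hF.aestronglyMeasurable

private theorem wk_texp {p q t : ℝ} (hp : 0 < p) (hp1 : p ≤ 1) (hq : 0 < q) (hq1 : q ≤ 1)
    (h1 : gap p * Real.exp (gs * t) < 1) (h2 : gap q * Real.exp (gs * -t) < 1) :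
    Integrable (fun x => Real.exp (t * x)) (stepLaw p q) := by
  unfold stepLaw
  rw [integrable_map_measure (by fun_prop) (by fun_prop)]
  have h3 : Integrable (fun x : ℝ => Real.exp (t * x)) (bE p) :=
    geo_mgf_int (gap_pos hp.le hp1) (gap_lt hp hp1) h1
  have h4 : Integrable (fun x : ℝ => Real.exp (-t * x)) (bE q) :=
    geo_mgf_int (gap_pos hq.le hq1) (gap_lt hq hq1) h2
  refine (h3.mul_prod h4).congr (Filter.Eventually.of_forall fun z => ?_)
  simp only [Function.comp]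
  rw [← Real.exp_add]
  congr 1
  ring

private theorem gap_t {p : ℝ} (hp : 0 < p) (hp1 : p ≤ 1) :
    ∃ t0 : ℝ, 0 < t0 ∧ ∀ t, t < t0 → gap p * Real.exp (gs * t) < 1 := by
  have h0 := gap_pos hp.le hp1
  have h1 := gap_lt hp hp1
  have hs := gs_pos
  refine ⟨-Real.log (gap p) / gs, div_pos (neg_pos.2 (Real.log_neg h0 h1)) hs, fun t ht => ?_⟩
  rw [lt_div_iff₀ hs] at ht
  have e : gap p * Real.exp (gs * t) = Real.exp (Real.log (gap p) + gs * t) := by
    rw [Real.exp_add, Real.exp_log h0]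
  rw [e, Real.exp_lt_one_iff]
  linarith

private theorem wk_t {p q : ℝ} (hp : 0 < p) (hp1 : p ≤ 1) (hq : 0 < q) (hq1 : q ≤ 1) :
    ∃ t : ℝ, 0 < t ∧ Integrable (fun y => Real.exp (t * y)) (stepLaw p q) ∧
      Integrable (fun y => Real.exp (-t * y)) (stepLaw p q) := by
  obtain ⟨t1, ht1, h1⟩ := gap_t hp hp1
  obtain ⟨t2, ht2, h2⟩ := gap_t hq hq1
  have hm : 0 < min t1 t2 := lt_min ht1 ht2
  have h3 := min_le_left t1 t2
  have h4 := min_le_right t1 t2
  exact ⟨min t1 t2 / 2, by positivity, wk_texp hp hp1 hq hq1 (h1 _ (by linarith))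
    (h2 _ (by linarith)), wk_texp hp hp1 hq hq1 (h1 _ (by linarith)) (h2 _ (by linarith))⟩

/-- the steps are multiples of `gs` -/
theorem step_ae (p q : ℝ) : ∀ᵐ x ∂(stepLaw p q), ∃ k : ℤ, x = gs * k := by
  have hms : MeasurableSet {x : ℝ | ∃ k : ℤ, x = gs * k} := by
    have : {x : ℝ | ∃ k : ℤ, x = gs * k} = Set.range fun k : ℤ => gs * (k : ℝ) := by
      ext x
      simp [eq_comm]
    rw [this]
    exact (Set.countable_range _).measurableSet
  unfold stepLaw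
  rw [ae_map_iff (by fun_prop) hms]
  have h1 : ∀ᵐ z ∂((bE p).prod (bE q)), ∃ k : ℕ, z.1 = gs * k + gd :=
    Measure.quasiMeasurePreserving_fst.ae (geo_ae (gap p))
  have h2 : ∀ᵐ z ∂((bE p).prod (bE q)), ∃ k : ℕ, z.2 = gs * k + gd :=
    Measure.quasiMeasurePreserving_snd.ae (geo_ae (gap q))
  filter_upwards [h1, h2] with z ⟨k, hk⟩ ⟨l, hl⟩
  refine ⟨(k : ℤ) - l, ?_⟩
  rw [hk, hl]
  push_cast
  ring

theorem Sw_ae (p q : ℝ) : ∀ᵐ x ∂(walkM p q), ∀ n : ℕ, ∃ k : ℤ, Sw x n = gs * k := by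
  have h1 : ∀ᵐ x ∂(walkM p q), ∀ i : ℕ, ∃ k : ℤ, x i = gs * k := by
    rw [ae_all_iff]
    intro i
    exact (g_eval (stepLaw p q) i).quasiMeasurePreserving.ae (step_ae p q)
  filter_upwards [h1] with x hx n
  choose k hk using hx
  refine ⟨∑ i ∈ Finset.range n, k i, ?_⟩
  unfold Sw
  push_cast
  rw [Finset.mul_sum]
  exact Finset.sum_congr rfl fun i _ => hk i

theorem step_integrable {p q : ℝ} (hp : 0 < p) (hp1 : p ≤ 1) (hq : 0 < q) (hq1 : q ≤ 1) (k : ℕ) :
    Integrable (fun x => x ^ k) (stepLaw p q) := by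
  simpa using g_y_int (wk_t hp hp1 hq hq1) 0 k

private theorem bE_id {ρ : ℝ} (h0 : 0 < ρ) (h1 : ρ ≤ 1) : Integrable (fun x => x) (bE ρ) := by
  simpa using bE_int h0 h1 1

theorem step_mean {p q : ℝ} (hp : 0 < p) (hp1 : p ≤ 1) (hq : 0 < q) (hq1 : q ≤ 1) :
    ∫ x, x ∂(stepLaw p q) = 1 / p - 1 / q := by
  rw [wk_map (p := p) (q := q) (F := fun x => x) measurable_id]
  have i1 : Integrable (fun z : ℝ × ℝ => z.1) ((bE p).prod (bE q)) := (bE_id hp hp1).comp_fst _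
  have i2 : Integrable (fun z : ℝ × ℝ => z.2) ((bE p).prod (bE q)) := (bE_id hq hq1).comp_snd _
  rw [integral_sub i1 i2, integral_fun_fst (fun x => x), integral_fun_snd (fun x => x),
    bE_mean hp hp1, bE_mean hq hq1]
  simp

theorem step_over {p q : ℝ} (hp : 0 < p) (hp1 : p ≤ 1) (hq : 0 < q) (hq1 : q ≤ 1) (j : ℕ) :
    ∫ x in Set.Ioi (gs * j), (x - gs * j) ∂(stepLaw p q) =
      gov p * (stepLaw p q).real (Set.Ioi (gs * j)) := by
  have h0 := gap_pos hp.le hp1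
  have h1 := gap_lt hp hp1
  -- left side
  have hL : ∫ x in Set.Ioi (gs * j), (x - gs * j) ∂(stepLaw p q) =
      ∫ y, gov p * (bE p).real (Set.Ioi (y + gs * j)) ∂(bE q) := by
    have e1 : ∫ x in Set.Ioi (gs * j), (x - gs * j) ∂(stepLaw p q) =
        ∫ x, max (x - gs * j) 0 ∂(stepLaw p q) := by
      rw [← integral_indicator measurableSet_Ioi]
      congr 1
      funext x
      by_cases hx : gs * j < x
      · rw [Set.indicator_of_mem (Set.mem_Ioi.2 hx), max_eq_left (by linarith)]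
      · rw [Set.indicator_of_notMem (by simpa using hx), max_eq_right (by linarith [not_lt.1 hx])]
    have i1 : Integrable (fun z : ℝ × ℝ => z.1 - z.2 - gs * j) ((bE p).prod (bE q)) :=
      (((bE_id hp hp1).comp_fst _).sub ((bE_id hq hq1).comp_snd _)).sub (integrable_const _)
    rw [e1, wk_map (by fun_prop), integral_prod_symm _ i1.pos_part]
    refine integral_congr_ae ?_
    filter_upwards [geo_ae (gap q)] with y ⟨k, hk⟩
    have e2 : ∀ x : ℝ, max (x - y - gs * j) 0 = max (x - (gs * (k + j : ℕ) + gd)) 0 := by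
      intro x
      congr 1
      rw [hk]
      push_cast
      ring
    have e3 : y + gs * j = gs * (k + j : ℕ) + gd := by
      rw [hk]
      push_cast
      ring
    simp only [e2]
    rw [e3]
    unfold bE
    rw [geo_over h0 h1, geo_tail h0 h1]
    rfl
  have hR : (stepLaw p q).real (Set.Ioi (gs * j)) =
      ∫ y, (bE p).real (Set.Ioi (y + gs * j)) ∂(bE q) := by
    have e1 : (stepLaw p q).real (Set.Ioi (gs * j)) =
        ∫ x, (Set.Ioi (gs * j)).indicator (fun _ => (1 : ℝ)) x ∂(stepLaw p q) := by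
      rw [integral_indicator measurableSet_Ioi]
      simp
    have hm : Measurable ((Set.Ioi (gs * (j : ℝ))).indicator (fun _ : ℝ => (1 : ℝ))) :=
      measurable_const.indicator measurableSet_Ioi
    have i1 : Integrable (fun z : ℝ × ℝ =>
        (Set.Ioi (gs * (j : ℝ))).indicator (fun _ : ℝ => (1 : ℝ)) (z.1 - z.2))
        ((bE p).prod (bE q)) := by
      refine Integrable.of_bound (hm.comp (by fun_prop)).aestronglyMeasurable 1
        (Filter.Eventually.of_forall fun z => ?_)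
      by_cases hz : z.1 - z.2 ∈ Set.Ioi (gs * (j : ℝ))
      · rw [Set.indicator_of_mem hz]; simp
      · rw [Set.indicator_of_notMem hz]; simp
    rw [e1, wk_map hm, integral_prod_symm _ i1]
    refine integral_congr_ae (Filter.Eventually.of_forall fun y => ?_)
    have e2 : ∀ x : ℝ, (Set.Ioi (gs * (j : ℝ))).indicator (fun _ : ℝ => (1 : ℝ)) (x - y) =
        (Set.Ioi (y + gs * j)).indicator (fun _ : ℝ => (1 : ℝ)) x := by
      intro x
      have h : x - y ∈ Set.Ioi (gs * (j : ℝ)) ↔ x ∈ Set.Ioi (y + gs * j) := by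
        simp only [Set.mem_Ioi]
        constructor <;> intro h <;> linarith
      by_cases hx : x - y ∈ Set.Ioi (gs * (j : ℝ))
      · rw [Set.indicator_of_mem hx, Set.indicator_of_mem (h.1 hx)]
      · rw [Set.indicator_of_notMem hx, Set.indicator_of_notMem (fun h' => hx (h.2 h'))]
    simp only [e2]
    rw [integral_indicator measurableSet_Ioi]
    simp
  rw [hL, hR, integral_const_mul]

/-! ### Centred moments of a step -/

private theorem bE_c_int {ρ : ℝ} (h0 : 0 < ρ) (h1 : ρ ≤ 1) (m : ℝ) (k : ℕ) :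
    Integrable (fun x => (x - m) ^ k) (bE ρ) := by
  obtain ⟨t, ht, h2⟩ := gap_t h0 h1
  have h3 : Integrable (fun x : ℝ => Real.exp (t / 2 * x)) (bE ρ) :=
    geo_mgf_int (gap_pos h0.le h1) (gap_lt h0 h1) (h2 _ (by linarith))
  have h4 : Integrable (fun x : ℝ => Real.exp (-(t / 2) * x)) (bE ρ) :=
    geo_mgf_int (gap_pos h0.le h1) (gap_lt h0 h1) (h2 _ (by linarith))
  exact g_y_int ⟨t / 2, by positivity, h3, h4⟩ m k

private theorem wk_var {p q : ℝ} (hp : 0 < p) (hp1 : p ≤ 1) (hq : 0 < q) (hq1 : q ≤ 1) :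
    ∫ x, (x - (1 / p - 1 / q)) ^ 2 ∂(stepLaw p q) =
      (1 + gk * (p * (1 - p))) / p ^ 2 + (1 + gk * (q * (1 - q))) / q ^ 2 := by
  rw [wk_map (by fun_prop)]
  have e : ∀ z : ℝ × ℝ, (z.1 - z.2 - (1 / p - 1 / q)) ^ 2 =
      (z.1 - 1 / p) ^ 2 - 2 * (z.1 - 1 / p) * (z.2 - 1 / q) + (z.2 - 1 / q) ^ 2 := by
    intro z
    ring
  have i1 : Integrable (fun x : ℝ => x - 1 / p) (bE p) := by simpa using bE_c_int hp hp1 (1 / p) 1
  have i1' : Integrable (fun x : ℝ => x - 1 / q) (bE q) := by simpa using bE_c_int hq hq1 (1 / q) 1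
  have z1 : ∫ x, (x - 1 / p) ∂(bE p) = 0 := by
    rw [integral_sub (bE_id hp hp1) (integrable_const _), bE_mean hp hp1]
    simp
  have i2 := bE_c_int hp hp1 (1 / p) 2
  have i2' := bE_c_int hq hq1 (1 / q) 2
  have j1 : Integrable (fun z : ℝ × ℝ => (z.1 - 1 / p) ^ 2) ((bE p).prod (bE q)) := i2.comp_fst _
  have j2 : Integrable (fun z : ℝ × ℝ => (z.2 - 1 / q) ^ 2) ((bE p).prod (bE q)) := i2'.comp_snd _
  have j3 : Integrable (fun z : ℝ × ℝ => 2 * (z.1 - 1 / p) * (z.2 - 1 / q))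
      ((bE p).prod (bE q)) := (i1.const_mul 2).mul_prod i1'
  simp only [e]
  rw [integral_add (f := fun z : ℝ × ℝ => (z.1 - 1 / p) ^ 2 -
      2 * (z.1 - 1 / p) * (z.2 - 1 / q)) (j1.sub j3) j2, integral_sub j1 j3,
    integral_fun_fst (fun x : ℝ => (x - 1 / p) ^ 2),
    integral_fun_snd (fun x : ℝ => (x - 1 / q) ^ 2),
    integral_prod_mul (fun x : ℝ => 2 * (x - 1 / p)) (fun x : ℝ => x - 1 / q),
    integral_const_mul, z1, bE_var hp hp1, bE_var hq hq1]
  simp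

private theorem four_le (a b : ℝ) : (a - b) ^ 4 ≤ 8 * a ^ 4 + 8 * b ^ 4 := by
  nlinarith [sq_nonneg (a ^ 2 - b ^ 2), sq_nonneg ((a - b) * (a + b)), sq_nonneg (a + b),
    sq_nonneg (a ^ 2 + b ^ 2 - (a + b) ^ 2), mul_nonneg (sq_nonneg (a + b)) (sq_nonneg (a - b)),
    mul_nonneg (sq_nonneg (a + b)) (sq_nonneg a), mul_nonneg (sq_nonneg (a + b)) (sq_nonneg b)]

private theorem bE_c4 {C ρ : ℝ} (h0 : 0 < ρ) (h1 : ρ ≤ 1) (hC : ∫ x, x ^ 4 ∂(bE ρ) ≤ C / ρ ^ 4) :
    ∫ x, (x - 1 / ρ) ^ 4 ∂(bE ρ) ≤ 8 * (C + 1) / ρ ^ 4 := by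
  have h2 : ∫ x, (x - 1 / ρ) ^ 4 ∂(bE ρ) ≤ ∫ x, (8 * x ^ 4 + 8 * (1 / ρ) ^ 4) ∂(bE ρ) :=
    integral_mono (bE_c_int h0 h1 _ 4) (((bE_int h0 h1 4).const_mul 8).add (integrable_const _))
      fun x => four_le _ _
  rw [integral_add ((bE_int h0 h1 4).const_mul 8) (integrable_const _), integral_const_mul] at h2
  simp only [integral_const, probReal_univ, smul_eq_mul, one_mul] at h2
  have e : 8 * (C + 1) / ρ ^ 4 = 8 * (C / ρ ^ 4) + 8 * (1 / ρ) ^ 4 := by
    rw [div_pow]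
    ring
  rw [e]
  linarith

private theorem wk_four {C κ p q : ℝ} (hC1 : 1 ≤ C) (hκ : 0 < κ) (hp : κ ≤ p) (hp1 : p ≤ 1)
    (hq : κ ≤ q) (hq1 : q ≤ 1)
    (hC : ∀ ρ : ℝ, 0 < ρ → ρ ≤ 1 → ∫ x, x ^ 4 ∂(bE ρ) ≤ C / ρ ^ 4) :
    ∫ x, (x - (1 / p - 1 / q)) ^ 4 ∂(stepLaw p q) ≤ 128 * (C + 1) / κ ^ 4 := by
  have hp0 : 0 < p := lt_of_lt_of_le hκ hp
  have hq0 : 0 < q := lt_of_lt_of_le hκ hq
  rw [wk_map (by fun_prop)]
  have j1 : Integrable (fun z : ℝ × ℝ => 8 * (z.1 - 1 / p) ^ 4) ((bE p).prod (bE q)) :=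
    ((bE_c_int hp0 hp1 (1 / p) 4).const_mul 8).comp_fst _
  have j2 : Integrable (fun z : ℝ × ℝ => 8 * (z.2 - 1 / q) ^ 4) ((bE p).prod (bE q)) :=
    ((bE_c_int hq0 hq1 (1 / q) 4).const_mul 8).comp_snd _
  have hpt : ∀ z : ℝ × ℝ, (z.1 - z.2 - (1 / p - 1 / q)) ^ 4 ≤
      8 * (z.1 - 1 / p) ^ 4 + 8 * (z.2 - 1 / q) ^ 4 := by
    intro z
    have e : z.1 - z.2 - (1 / p - 1 / q) = (z.1 - 1 / p) - (z.2 - 1 / q) := by ring
    rw [e]
    exact four_le _ _
  have hnn : ∀ z : ℝ × ℝ, 0 ≤ (z.1 - z.2 - (1 / p - 1 / q)) ^ 4 := fun z => by positivity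
  have h4 : ∀ ρ : ℝ, κ ≤ ρ → ρ ≤ 1 → ∫ x, (x - 1 / ρ) ^ 4 ∂(bE ρ) ≤ 8 * (C + 1) / κ ^ 4 := by
    intro ρ h1 h2
    have hρ : 0 < ρ := lt_of_lt_of_le hκ h1
    refine (bE_c4 hρ h2 (hC ρ hρ h2)).trans ?_
    gcongr
  calc ∫ z, (z.1 - z.2 - (1 / p - 1 / q)) ^ 4 ∂((bE p).prod (bE q))
      ≤ ∫ z, (8 * (z.1 - 1 / p) ^ 4 + 8 * (z.2 - 1 / q) ^ 4) ∂((bE p).prod (bE q)) :=
        integral_mono_of_nonneg (Filter.Eventually.of_forall hnn) (j1.add j2)
          (Filter.Eventually.of_forall hpt)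
    _ = 8 * (∫ x, (x - 1 / p) ^ 4 ∂(bE p)) + 8 * (∫ x, (x - 1 / q) ^ 4 ∂(bE q)) := by
        rw [integral_add j1 j2, integral_fun_fst (fun x : ℝ => 8 * (x - 1 / p) ^ 4),
          integral_fun_snd (fun x : ℝ => 8 * (x - 1 / q) ^ 4), integral_const_mul,
          integral_const_mul]
        simp
    _ ≤ 8 * (8 * (C + 1) / κ ^ 4) + 8 * (8 * (C + 1) / κ ^ 4) := by
        have h5 := h4 p hp hp1
        have h6 := h4 q hq hq1
        linarith
    _ = 128 * (C + 1) / κ ^ 4 := by ring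

theorem walk_neg_part {κ : ℝ} (hκ : 0 < κ) : ∃ c₂ : ℝ, 0 < c₂ ∧ ∀ p q : ℝ, κ ≤ p → p ≤ 1 →
    κ ≤ q → q ≤ 1 → ∀ N : ℕ, 1 ≤ N → |1 / p - 1 / q| * √N ≤ c₂ →
    c₂ * √N ≤ ∫ x, max (-(Sw x N)) 0 ∂(walkM p q) := by
  obtain ⟨C, hC1, hC⟩ := bE_four
  obtain ⟨C0, hC0⟩ : ∃ C0 : ℝ, C0 = 3 * (2 * gK / κ ^ 2) ^ 2 + 128 * (C + 1) / κ ^ 4 := ⟨_, rfl⟩
  have hK := gK_ge
  have hC0p : 0 < C0 := by rw [hC0]; positivity
  refine ⟨1 / (4 * √C0), by positivity, fun p q hp hp1 hq hq1 N hN hm => ?_⟩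
  have hp0 : 0 < p := lt_of_lt_of_le hκ hp
  have hq0 : 0 < q := lt_of_lt_of_le hκ hq
  have hgk := gk_nonneg
  have hlo : ∀ ρ : ℝ, 0 < ρ → ρ ≤ 1 → 1 ≤ (1 + gk * (ρ * (1 - ρ))) / ρ ^ 2 := by
    intro ρ h1 h2
    rw [le_div_iff₀ (by positivity), one_mul]
    have h3 : ρ ^ 2 ≤ 1 := pow_le_one₀ h1.le h2
    have h4 : 0 ≤ gk * (ρ * (1 - ρ)) := mul_nonneg hgk (mul_nonneg h1.le (by linarith))
    linarith
  have hup : ∀ ρ : ℝ, κ ≤ ρ → ρ ≤ 1 → (1 + gk * (ρ * (1 - ρ))) / ρ ^ 2 ≤ gK / κ ^ 2 := by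
    intro ρ h1 h2
    have h3 : 0 < ρ := lt_of_lt_of_le hκ h1
    have h4 : ρ * (1 - ρ) ≤ 1 / 4 := by nlinarith [sq_nonneg (ρ - 1 / 2)]
    have h5 : 1 + gk * (ρ * (1 - ρ)) ≤ gK := by
      rw [gK_eq]
      nlinarith
    have h6 : (0 : ℝ) ≤ gK := by linarith
    gcongr
  refine g_neg_part (ν := stepLaw p q) (V := 2 * gK / κ ^ 2) (wk_t hp0 hp1 hq0 hq1)
    (step_mean hp0 hp1 hq0 hq1) ?_ ?_ ?_ N hN hm
  · rw [wk_var hp0 hp1 hq0 hq1]
    have h1 := hlo p hp0 hp1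
    have h2 := hlo q hq0 hq1
    linarith
  · rw [wk_var hp0 hp1 hq0 hq1]
    have h1 := hup p hp hp1
    have h2 := hup q hq hq1
    have e : 2 * gK / κ ^ 2 = gK / κ ^ 2 + gK / κ ^ 2 := by ring
    linarith
  · rw [hC0]
    have := wk_four hC1 hκ hp hp1 hq hq1 hC
    linarith

end BGG
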